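import Pool.Agent.MP_434e52_an.Defs

attribute [-instance] NormedSpace.toModule Module.FaithfullyFlat.of_isIntegral_of_isDomain
  AlgHom.instNonUnitalAlgHomClassOfAlgHomClass DivisionCommMonoid.toDivisionMonoid
  Algebra.TensorProduct.instNonAssocSemiring Prod.charZero_of_right littleWedderburn
  MonTypeEquivalenceMon.monMonoid instNonUnitalAlgHomClassOfNonUnitalAlgEquivClass
  NormedCommRing.toCommRing NonUnitalNonAssocRing.toAddCommGroup instCharZeroOfIsSemireal
  MulRingSeminormClass.toMonoidWithZeroHomClass Prod.instModule IdemSemiring.toSemiring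
  TensorProduct.instNormedAddCommGroup NormedField.toField NormedRing.toRing
  ContinuousSemilinearMapClass.toSemilinearMapClass SubsemiringClass.toCommSemiring
  SetLike.GradeZero.instSemiring MonoidWithZero.toMulZeroOneClass
  NonUnitalRing.toNonUnitalNonAssocRing AddSubmonoidWithOneClass.toAddSubmonoidClass
  LieAdmissibleAlgebra.toModule IsFormallyReal.instIsReduced SetLike.GradeZero.instRing
  NonUnitalAlgHomClass.instLinearMapClass NonUnitalSubsemiringClass.toAddSubmonoidClass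
  SetLike.GradeZero.instMonoid SetLike.GradeZero.instCommSemiring RKHS.instFunLike
  AddCommGroupWithOne.toAddGroupWithOne LieAlgebra.toModule FloorSemiring.instCharZero
  SeminormedRing.toRing RightPreLieAlgebra.toModule Prod.instRing CoalgHomClass.toSemilinearMapClass
  LeftPreLieAlgebra.toModule NonAssocRing.toNonAssocSemiring BooleanRing.toRing
  NonAssocCommSemiring.toNonAssocSemiring SeminormedCommRing.toCommRing
  IdemCommSemiring.toCommSemiring NonUnitalAlgSemiHomClass.toDistribMulActionSemiHomClass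
  LieRing.toAddCommGroup EuclideanDomain.toCommRing SemilatticeInf.toPartialOrder
  NormedDivisionRing.toDivisionRing SubringClass.toCommRing LieAdmissibleRing.toNonUnitalNonAssocRing
  NonUnitalNormedCommRing.toNonUnitalCommRing Group.IsPerfect.subsingleton_of_isMulCommutative
  Polynomial.charZero NonUnitalNonAssocCommSemiring.toNonUnitalNonAssocSemiring
  NonUnitalSeminormedCommRing.toNonUnitalCommRing AlgHomClass.toRingHomClass
  AddCommMonoidWithOne.toAddCommMonoid
  NonUnitalAlgHomClass.instSemilinearMapClassOfNonUnitalAlgSemiHomClassToMonoidHomRingHom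
  DivisionRing.toDivisionSemiring RingHomClass.toLinearMapClassNNRat
  NonUnitalAlgSemiHomClass.toMulHomClass MulSemiringActionSemiHomClass.toDistribMulActionSemiHomClass
  AlgHomClass.linearMapClass BooleanRing.toCommRing Module.free_of_finite_type_torsion_free'
  SemilinearIsometryClass.toSemilinearMapClass RingConeClass.toSubsemiringClass
  NormedAlgebra.toAlgebra IsAffineAddMonoid.toIsCancelAdd NonUnitalNormedRing.toNormedAddCommGroup
  RingHomClass.toLinearMapClassRat Rep.instIsTrivialOfOfIsTrivial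
  LinearOrderedAddCommMonoidWithTop.toAddCommMonoid MonoidWithZero.toMonoid
  instCountable_of_discrete_submodule instIsRightCancelAddOfAddRightReflectLE Unique.instSubsingleton
  NonAssocCommRing.toNonUnitalNonAssocCommRing CentroidHomClass.toAddMonoidHomClass
  MulEquivClass.toMonoidWithZeroHomClass ValuationClass.toMonoidWithZeroHomClass MulZeroClass.toMul
  NormMulClass.toNoZeroDivisors AddCommGroupWithOne.toAddCommGroup Pi.group
  LinearOrderedAddCommGroupWithTop.toAddCommMonoid RCLike.charZero_rclike Prod.instNonAssocSemiring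
  SubringClass.toSubsemiringClass NumberField.to_charZero NonUnitalSubringClass.toNegMemClass
  RingEquivClass.toNonUnitalRingHomClass RingEquivClass.toRingHomClass

set_option autoImplicit false

/-!
The Witt type extensions `D_r` of the symmetric tensors by `V`, and the groups `D_r ⋊ K`.
-/


namespace Pool.Agent.MP_434e52_an

open scoped TensorProduct

/-- The multiplicative lift `ZMod 2 → ZMod 4`. -/
def tau (x : ZMod 2) : ZMod 4 := (x.val : ZMod 4)

/-- The additive embedding `ZMod 2 → ZMod 4`. -/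
def two (x : ZMod 2) : ZMod 4 := 2 * tau x

theorem tau_add (x y : ZMod 2) : tau (x + y) = tau x + tau y + two (x * y) := by
  revert x y; decide

theorem two_add (x y : ZMod 2) : two (x + y) = two x + two y := by
  revert x y; decide

theorem tau_zero : tau 0 = 0 := by decide

theorem two_zero : two 0 = 0 := by decide

theorem tau_add_tau (x : ZMod 2) : tau x + tau x = two x := by
  revert x; decide

theorem two_injective : Function.Injective two := by decide

section

variable (V : Type) [AddCommGroup V] [Module (ZMod 2) V]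

/-- The dual space. -/
abbrev Du : Type := Module.Dual (ZMod 2) V

/-- The tensor square. -/
abbrev Tn : Type := V ⊗[ZMod 2] V

/-- The ambient abelian group. -/
abbrev Amb : Type := (Du V → ZMod 4) × Tn V

end

variable {V : Type} [AddCommGroup V] [Module (ZMod 2) V] {K : Type} [Group K]

theorem add_self_two (v : V) : v + v = 0 := by
  rw [← two_smul (ZMod 2) v, show (2 : ZMod 2) = 0 from rfl, zero_smul]

/-- The copy of `V`. -/
def aa (v : V) : Amb V := (fun l => two (l v), 0)

theorem aa_add (v w : V) : aa (v + w) = aa v + aa w := by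
  ext l <;> simp [aa, two_add]

theorem aa_zero : aa (0 : V) = 0 := by
  ext l <;> simp only [aa, map_zero, two_zero, Prod.fst_zero, Pi.zero_apply, Prod.snd_zero]

theorem aa_injective : Function.Injective (aa : V → Amb V) := by
  intro v w h
  rw [← sub_eq_zero, ← Module.forall_dual_apply_eq_zero_iff (ZMod 2)]
  intro l
  have := congrFun (congrArg Prod.fst h) l
  rw [map_sub, sub_eq_zero]
  exact two_injective this

/-- `aa` as an additive map. -/
def aaHom : V →+ Amb V where
  toFun := aa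
  map_zero' := aa_zero
  map_add' := aa_add

theorem aa_neg (v : V) : aa (-v) = -aa v := (aaHom (V := V)).map_neg v

theorem aa_sub (v w : V) : aa (v - w) = aa v - aa w := (aaHom (V := V)).map_sub v w

/-- The action on the tensor square. -/
noncomputable def tact (ρ : K →* Module.End (ZMod 2) V) (g : K) : Tn V →ₗ[ZMod 2] Tn V :=
  TensorProduct.map (ρ g) (ρ g)

/-- The action on the ambient group. -/
noncomputable def act (ρ : K →* Module.End (ZMod 2) V) (g : K) : Amb V →+ Amb V where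
  toFun d := (fun l => d.1 (l ∘ₗ ρ g), tact ρ g d.2)
  map_zero' := by ext l <;> simp only [Prod.fst_zero, Pi.zero_apply, Prod.snd_zero, map_zero]
  map_add' d e := by ext l <;> simp

variable {ρ : K →* Module.End (ZMod 2) V}

theorem tact_one (y : Tn V) : tact ρ 1 y = y := by
  simp only [tact, map_one, Module.End.one_eq_id, TensorProduct.map_id, LinearMap.id_coe, id_eq]

theorem tact_mul (g h : K) (y : Tn V) : tact ρ (g * h) y = tact ρ g (tact ρ h y) := by
  simp only [tact, map_mul, Module.End.mul_eq_comp, TensorProduct.map_comp, LinearMap.comp_apply]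

theorem act_snd (g : K) (d : Amb V) : (act ρ g d).2 = tact ρ g d.2 := rfl

theorem act_fst (g : K) (d : Amb V) (l : Du V) : (act ρ g d).1 l = d.1 (l ∘ₗ ρ g) := rfl

theorem act_one (d : Amb V) : act ρ 1 d = d := by
  ext l
  · rw [act_fst, map_one, Module.End.one_eq_id, LinearMap.comp_id]
  · exact tact_one _

theorem act_mul (g h : K) (d : Amb V) : act ρ (g * h) d = act ρ g (act ρ h d) := by
  ext l
  · rw [act_fst, act_fst, act_fst, map_mul, Module.End.mul_eq_comp, LinearMap.comp_assoc]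
  · exact tact_mul _ _ _

theorem act_aa (g : K) (v : V) : act ρ g (aa v) = aa (ρ g v) := by
  ext l
  · rfl
  · simp [act_snd, aa]

/-- An endomorphism commuting with the action. -/
structure Cm (ρ : K →* Module.End (ZMod 2) V) where
  /-- the endomorphism -/
  r : V →ₗ[ZMod 2] V
  comm : ∀ g v, r (ρ g v) = ρ g (r v)

/-- The zero endomorphism. -/
def Cm.zero (ρ : K →* Module.End (ZMod 2) V) : Cm ρ := ⟨0, by simp⟩

namespace Cm

variable (c : Cm ρ)

/-- The quadratic generators. -/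
def bb (v : V) : Amb V := (fun l => tau (l (c.r v)), v ⊗ₜ v)

theorem act_bb (g : K) (v : V) : act ρ g (c.bb v) = c.bb (ρ g v) := by
  ext l
  · simp [act_fst, bb, c.comm]
  · simp [act_snd, bb, tact]

theorem bb_zero : c.bb 0 = 0 := by
  ext l <;> simp only [bb, map_zero, tau_zero, TensorProduct.tmul_zero, Prod.fst_zero, Pi.zero_apply, Prod.snd_zero]

theorem bb_add_bb (v : V) : c.bb v + c.bb v = aa (c.r v) := by
  ext l
  · simp [bb, aa, tau_add_tau]
  · simp only [bb, Prod.mk_add_mk, add_self_two, aa]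

theorem bb_cube (x a b e : V) :
    c.bb x + c.bb (x + a + b) + c.bb (x + a + e) + c.bb (x + b + e) =
      c.bb (x + a) + c.bb (x + b) + c.bb (x + e) + c.bb (x + a + b + e) := by
  ext l
  · have key : ∀ x a b e : ZMod 2, tau x + tau (x + a + b) + tau (x + a + e) + tau (x + b + e) =
        tau (x + a) + tau (x + b) + tau (x + e) + tau (x + a + b + e) := by decide
    simp only [bb, Prod.fst_add, Pi.add_apply, map_add]
    exact key _ _ _ _
  · simp only [bb, Prod.snd_add, TensorProduct.add_tmul, TensorProduct.tmul_add]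
    abel

/-- The abelian group `D_r`. -/
def D : AddSubgroup (Amb V) := AddSubgroup.closure (Set.range aa ∪ Set.range c.bb)

theorem aa_mem (v : V) : aa v ∈ c.D := AddSubgroup.subset_closure (Or.inl ⟨v, rfl⟩)

theorem bb_mem (v : V) : c.bb v ∈ c.D := AddSubgroup.subset_closure (Or.inr ⟨v, rfl⟩)

theorem D_induction {p : Amb V → Prop} (ha : ∀ v, p (aa v)) (hb : ∀ v, p (c.bb v)) (h0 : p 0)
    (hadd : ∀ d e, d ∈ c.D → e ∈ c.D → p d → p e → p (d + e))
    (hneg : ∀ d, d ∈ c.D → p d → p (-d)) {d : Amb V} (hd : d ∈ c.D) : p d := by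
  induction hd using AddSubgroup.closure_induction with
  | mem x hx => rcases hx with ⟨v, rfl⟩ | ⟨v, rfl⟩; exacts [ha v, hb v]
  | zero => exact h0
  | add x y hx hy px py => exact hadd x y hx hy px py
  | neg x hx px => exact hneg x hx px

theorem act_mem (g : K) {d : Amb V} (hd : d ∈ c.D) : act ρ g d ∈ c.D := by
  refine c.D_induction (p := fun d => act ρ g d ∈ c.D) ?_ ?_ ?_ ?_ ?_ hd
  · intro v; rw [act_aa]; exact c.aa_mem _
  · intro v; rw [act_bb]; exact c.bb_mem _
  · rw [map_zero]; exact zero_mem _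
  · intro d e _ _ h1 h2; rw [map_add]; exact add_mem h1 h2
  · intro d _ h1; rw [map_neg]; exact neg_mem h1

theorem exists_add_self {d : Amb V} (hd : d ∈ c.D) : ∃ w, d + d = aa (c.r w) := by
  refine c.D_induction (p := fun d => ∃ w, d + d = aa (c.r w)) ?_ ?_ ?_ ?_ ?_ hd
  · intro v; exact ⟨0, by rw [← aa_add, add_self_two, map_zero]⟩
  · intro v; exact ⟨v, c.bb_add_bb v⟩
  · exact ⟨0, by rw [map_zero, aa_zero, add_zero]⟩
  · rintro d e _ _ ⟨v, hv⟩ ⟨w, hw⟩
    exact ⟨v + w, by rw [map_add, aa_add, ← hv, ← hw]; abel⟩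
  · rintro d _ ⟨v, hv⟩
    exact ⟨-v, by rw [map_neg, aa_neg, ← hv]; abel⟩

theorem four_smul {d : Amb V} (hd : d ∈ c.D) : 4 • d = 0 := by
  obtain ⟨w, hw⟩ := c.exists_add_self hd
  have : 4 • d = (d + d) + (d + d) := by abel
  rw [this, hw, ← aa_add, add_self_two, aa_zero]

theorem neg_eq {d : Amb V} (hd : d ∈ c.D) : -d = d + d + d := by
  rw [neg_eq_iff_add_eq_zero, ← c.four_smul hd]
  abel

/-- The pairing of a tensor with two functionals. -/
noncomputable def pair (l m : Du V) : Tn V →ₗ[ZMod 2] ZMod 2 :=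
  (LinearMap.mul' (ZMod 2) (ZMod 2)).comp (TensorProduct.map l m)

theorem polar {d : Amb V} (hd : d ∈ c.D) (l m : Du V) :
    d.1 (l + m) = d.1 l + d.1 m + two (pair (l ∘ₗ c.r) (m ∘ₗ c.r) d.2) := by
  refine c.D_induction (p := fun d => d.1 (l + m) =
    d.1 l + d.1 m + two (pair (l ∘ₗ c.r) (m ∘ₗ c.r) d.2)) ?_ ?_ ?_ ?_ ?_ hd
  · intro v; simp [aa, two_add, two_zero]
  · intro v; simp [bb, tau_add, pair]
  · simp only [Prod.fst_zero, Pi.zero_apply, add_zero, Prod.snd_zero, map_zero, two_zero]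
  · intro d e _ _ h1 h2
    simp only [Prod.fst_add, Pi.add_apply, Prod.snd_add, map_add, two_add, h1, h2]
    abel
  · intro d _ h1
    have key : ∀ x : ZMod 2, two (-x) = -two x := by decide
    simp only [Prod.fst_neg, Pi.neg_apply, Prod.snd_neg, map_neg, key, h1]
    abel

theorem fin_dep {d : Amb V} (hd : d ∈ c.D) :
    ∃ S : Finset V, ∀ l m : Du V, (∀ v ∈ S, l v = m v) → d.1 l = d.1 m := by
  classical
  refine c.D_induction (p := fun d => ∃ S : Finset V, ∀ l m : Du V, (∀ v ∈ S, l v = m v) →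
    d.1 l = d.1 m) ?_ ?_ ?_ ?_ ?_ hd
  · intro v; exact ⟨{v}, fun l m h => by simp [aa, h v (by simp)]⟩
  · intro v; exact ⟨{c.r v}, fun l m h => by simp [bb, h (c.r v) (by simp)]⟩
  · exact ⟨∅, fun l m _ => rfl⟩
  · rintro d e _ _ ⟨S, hS⟩ ⟨T, hT⟩
    refine ⟨S ∪ T, fun l m h => ?_⟩
    simp only [Prod.fst_add, Pi.add_apply]
    rw [hS l m fun v hv => h v (Finset.mem_union_left _ hv),
      hT l m fun v hv => h v (Finset.mem_union_right _ hv)]
  · rintro d _ ⟨S, hS⟩
    exact ⟨S, fun l m h => by simp only [Prod.fst_neg, Pi.neg_apply, hS l m h]⟩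

/-- (W1), (W2). Every `d ∈ D` satisfies `d.1 (l + m) = d.1 l + d.1 m + two (β (l r) (m r) d.2)`
with `β l m (v ⊗ w) = l v * m w`, and `d.1` depends on finitely many values `l v`. If `d.2 = 0`
then `d.1` is additive, so `d.1 = two ∘ g` with `g` linear; use `mem_span_of_iInf_ker_le_ker`. -/
theorem exists_aa_of_snd {d : Amb V} (hd : d ∈ c.D) (h : d.2 = 0) : ∃ w, d = aa w := by
  have h1 : ∀ l m : Du V, d.1 (l + m) = d.1 l + d.1 m := by
    intro l m
    rw [c.polar hd, h, map_zero, two_zero, add_zero]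
  have h0 : d.1 0 = 0 := by simpa using h1 0 0
  have h2 : ∀ l : Du V, ∃ x, two x = d.1 l := by
    intro l
    have : d.1 l + d.1 l = 0 := by rw [← h1, add_self_two, h0]
    have key : ∀ y : ZMod 4, y + y = 0 → ∃ x, two x = y := by decide
    exact key _ this
  choose g hg using h2
  let g' : Du V →+ ZMod 2 := AddMonoidHom.mk' g fun l m =>
    two_injective (by rw [two_add, hg, hg, hg, h1])
  obtain ⟨S, hS⟩ := c.fin_dep hd
  have h3 := mem_span_of_iInf_ker_le_ker (ι := S) (𝕜 := ZMod 2)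
    (L := fun s => Module.Dual.eval (ZMod 2) V s.1) (K := g'.toZModLinearMap 2) (by
      intro l hl
      simp only [Submodule.mem_iInf, LinearMap.mem_ker, Module.Dual.eval_apply] at hl ⊢
      apply two_injective
      change two (g l) = _
      rw [hg, two_zero, hS l 0 fun v hv => hl ⟨v, hv⟩, h0])
  have h4 : Submodule.span (ZMod 2) (Set.range fun s : S => Module.Dual.eval (ZMod 2) V s.1) ≤
      LinearMap.range (Module.Dual.eval (ZMod 2) V) := by
    rw [Submodule.span_le]
    rintro _ ⟨s, rfl⟩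
    exact ⟨s.1, rfl⟩
  obtain ⟨w, hw⟩ := h4 h3
  refine ⟨w, Prod.ext (funext fun l => ?_) h⟩
  rw [← hg]
  exact congrArg two (LinearMap.congr_fun hw l).symm

theorem countable_D [Countable V] : (c.D : Set (Amb V)).Countable := by
  have h1 : (Set.range aa ∪ Set.range c.bb : Set (Amb V)) = Set.range (Sum.elim aa c.bb) := by
    rw [Set.Sum.elim_range]
  have h2 : (c.D : Set (Amb V)) = Submodule.span ℤ (Set.range (Sum.elim aa c.bb)) := by
    rw [D, h1, ← Submodule.span_int_eq_addSubgroupClosure]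
    rfl
  rw [h2]
  exact Set.countable_coe_iff.1 (inferInstanceAs (Countable (Submodule.span ℤ (Set.range _))))

/-- The semidirect product `D_r ⋊ K`. -/
@[ext]
structure G (c : Cm ρ) : Type where
  /-- the abelian part -/
  d : Amb V
  /-- the part in `K` -/
  k : K
  mem : d ∈ c.D

variable {c}

noncomputable instance : Mul c.G :=
  ⟨fun x y => ⟨x.d + act ρ x.k y.d, x.k * y.k, add_mem x.mem (c.act_mem _ y.mem)⟩⟩

instance : One c.G := ⟨⟨0, 1, zero_mem _⟩⟩

noncomputable instance : Inv c.G :=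
  ⟨fun x => ⟨-act ρ x.k⁻¹ x.d, x.k⁻¹, neg_mem (c.act_mem _ x.mem)⟩⟩

@[simp] theorem mul_d (x y : c.G) : (x * y).d = x.d + act ρ x.k y.d := rfl
@[simp] theorem mul_k (x y : c.G) : (x * y).k = x.k * y.k := rfl
@[simp] theorem one_d : (1 : c.G).d = 0 := rfl
@[simp] theorem one_k : (1 : c.G).k = 1 := rfl
@[simp] theorem inv_d (x : c.G) : (x⁻¹).d = -act ρ x.k⁻¹ x.d := rfl
@[simp] theorem inv_k (x : c.G) : (x⁻¹).k = x.k⁻¹ := rfl

noncomputable instance : Group c.G :=
  Group.ofLeftAxioms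
    (fun x y z => G.ext (by simp [act_mul, add_assoc]) (by simp [mul_assoc]))
    (fun x => G.ext (by simp [act_one]) (by simp))
    (fun x => G.ext (by simp only [mul_d, inv_d, inv_k, neg_add_cancel, one_d]) (by simp))

/-- The projection to `K`. -/
def pr (c : Cm ρ) : c.G →* K where
  toFun x := x.k
  map_one' := rfl
  map_mul' _ _ := rfl

/-- The inclusion of `K`. -/
def inK (c : Cm ρ) : K →* c.G where
  toFun g := ⟨0, g, zero_mem _⟩
  map_one' := rfl
  map_mul' _ _ := G.ext (by simp only [mul_d, map_zero, add_zero]) rfl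

/-- The inclusion of `D`. -/
def inD (c : Cm ρ) (d : c.D) : c.G := ⟨d.1, 1, d.2⟩

/-- The inclusion of `V`. -/
def inV (c : Cm ρ) (v : V) : c.G := ⟨aa v, 1, c.aa_mem v⟩

@[simp] theorem inK_d (g : K) : (c.inK g).d = 0 := rfl
@[simp] theorem inK_k (g : K) : (c.inK g).k = g := rfl
@[simp] theorem inD_d (d : c.D) : (c.inD d).d = d.1 := rfl
@[simp] theorem inD_k (d : c.D) : (c.inD d).k = 1 := rfl
@[simp] theorem inV_d (v : V) : (c.inV v).d = aa v := rfl
@[simp] theorem inV_k (v : V) : (c.inV v).k = 1 := rfl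

theorem inD_add (d e : c.D) : c.inD (d + e) = c.inD d * c.inD e :=
  G.ext (by simp [act_one]) (by simp)

theorem inD_zero : c.inD 0 = 1 := rfl

theorem inV_add (v w : V) : c.inV (v + w) = c.inV v * c.inV w :=
  G.ext (by simp [act_one, aa_add]) (by simp)

theorem inV_zero : c.inV 0 = 1 := G.ext (by simp [aa_zero]) rfl

theorem inV_injective : Function.Injective c.inV := fun _ _ h =>
  aa_injective (congrArg G.d h)

theorem eq_inD_mul_inK (x : c.G) : x = c.inD ⟨x.d, x.mem⟩ * c.inK x.k :=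
  G.ext (by simp only [mul_d, inD_d, inD_k, inK_d, map_zero, add_zero]) (by simp)

/-- Conjugating an element of `D`. -/
theorem conj_d (x y : c.G) (hy : y.k = 1) : (x * y * x⁻¹).d = act ρ x.k y.d := by
  simp only [mul_d, mul_k, hy, mul_one, inv_d, map_neg, ← act_mul, mul_inv_cancel, act_one, add_neg_cancel_comm]

theorem conj_k (x y : c.G) (hy : y.k = 1) : (x * y * x⁻¹).k = 1 := by
  simp only [mul_k, hy, mul_one, inv_k, mul_inv_cancel]

theorem conj_inV (x : c.G) (v : V) : x * c.inV v * x⁻¹ = c.inV (ρ x.k v) :=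
  G.ext (by rw [conj_d _ _ rfl, inV_d, act_aa, inV_d]) (by rw [conj_k _ _ rfl, inV_k])

theorem countable_G [Countable V] [Countable K] : Countable c.G := by
  have := c.countable_D.to_subtype
  exact Function.Injective.countable (f := fun x : c.G => ((⟨x.d, x.mem⟩ : c.D), x.k))
    fun x y h => G.ext (congrArg (fun z => z.1.1) h) (congrArg Prod.snd h)

end Cm

end Pool.Agent.MP_434e52_an

/-!
The group `K = EL_3(R)` and its action on `V = R^3`.
-/


namespace Pool.Agent.MP_434e52_an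

section

variable (R : Type) [CommRing R]

/-- The standard module. -/
abbrev VV : Type := Fin 3 → R

/-- The elementary group. -/
def KS : Subgroup (Matrix.SpecialLinearGroup (Fin 3) R) :=
  Subgroup.closure {g | ∃ (i j : Fin 3) (h : i ≠ j) (a : R),
    g = Matrix.SpecialLinearGroup.transvection h a}

/-- The elementary group as a type. -/
abbrev KK : Type := KS R

end

variable {R : Type} [CommRing R]

/-- The matrix of an element. -/
def mat (g : KK R) : Matrix (Fin 3) (Fin 3) R := g.1.1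

theorem mat_mul (g h : KK R) : mat (g * h) = mat g * mat h := rfl

theorem mat_one : mat (1 : KK R) = 1 := rfl

theorem mat_injective : Function.Injective (mat (R := R)) :=
  fun _ _ h => Subtype.ext (Subtype.ext h)

/-- The elementary matrices. -/
def xx {i j : Fin 3} (h : i ≠ j) (a : R) : KK R :=
  ⟨Matrix.SpecialLinearGroup.transvection h a, Subgroup.subset_closure ⟨i, j, h, a, rfl⟩⟩

theorem mat_xx {i j : Fin 3} (h : i ≠ j) (a : R) :
    mat (xx h a) = 1 + Matrix.single i j a := rfl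

theorem xx_add {i j : Fin 3} (h : i ≠ j) (a b : R) : xx h (a + b) = xx h a * xx h b := by
  apply mat_injective
  rw [mat_mul]
  exact (Matrix.transvection_mul_transvection_same i j h a b).symm

theorem xx_zero {i j : Fin 3} (h : i ≠ j) : xx h (0 : R) = 1 := by
  apply mat_injective
  simp [mat_xx, mat_one]

theorem xx_neg {i j : Fin 3} (h : i ≠ j) (a : R) : xx h (-a) = (xx h a)⁻¹ := by
  rw [eq_inv_iff_mul_eq_one, ← xx_add, neg_add_cancel, xx_zero]

theorem xx_injective {i j : Fin 3} (h : i ≠ j) : Function.Injective (xx (R := R) h) := by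
  intro a b hab
  have := congrFun (congrFun (congrArg mat hab) i) j
  simpa [mat_xx, h] using this

theorem xx_rel {i j k : Fin 3} (hij : i ≠ j) (hjk : j ≠ k) (hik : i ≠ k) (a b : R) :
    xx hij a * xx hjk b = xx hjk b * xx hij a * xx hik (a * b) := by
  apply mat_injective
  simp only [mat_mul, mat_xx, add_mul, mul_add, one_mul, mul_one, Matrix.single_mul_single_same,
    Matrix.single_mul_single_of_ne _ _ _ _ hij.symm, Matrix.single_mul_single_of_ne _ _ _ _ hik.symm,
    add_zero]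
  abel

theorem xx_comm {i j k l : Fin 3} (hij : i ≠ j) (hkl : k ≠ l) (h1 : j ≠ k) (h2 : l ≠ i)
    (a b : R) : xx hij a * xx hkl b = xx hkl b * xx hij a := by
  apply mat_injective
  simp only [mat_mul, mat_xx, add_mul, mul_add, one_mul, mul_one,
    Matrix.single_mul_single_of_ne _ _ _ _ h1, Matrix.single_mul_single_of_ne _ _ _ _ h2, add_zero]
  abel

theorem eq_top_of_xx {H : Subgroup (KK R)}
    (h : ∀ (i j : Fin 3) (hij : i ≠ j) (a : R), xx hij a ∈ H) : H = ⊤ := by
  rw [eq_top_iff]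
  rintro ⟨g, hg⟩ -
  induction hg using Subgroup.closure_induction with
  | mem x hx => obtain ⟨i, j, hij, a, rfl⟩ := hx; exact h i j hij a
  | one => exact one_mem H
  | mul x y hx hy px py => exact (mul_mem px py : (⟨x, hx⟩ : KK R) * ⟨y, hy⟩ ∈ H)
  | inv x hx px => exact (inv_mem px : (⟨x, hx⟩ : KK R)⁻¹ ∈ H)

instance [Countable R] : Countable (KK R) :=
  Function.Injective.countable (f := fun (g : KK R) (i j : Fin 3) => mat g i j) mat_injective

theorem ne01 : (0 : Fin 3) ≠ 1 := by decide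
theorem ne12 : (1 : Fin 3) ≠ 2 := by decide
theorem ne20 : (2 : Fin 3) ≠ 0 := by decide

section Gen

variable {F : Type} [Field F] [Algebra F R] (s t : R)

/-- The finite space `F + F s + F t`. -/
def mm (a : F × F × F) : R :=
  algebraMap F R a.1 + algebraMap F R a.2.1 * s + algebraMap F R a.2.2 * t

theorem mm_add (a b : F × F × F) : mm s t (a + b) = mm s t a + mm s t b := by
  simp only [mm, Prod.fst_add, Prod.snd_add, map_add]; ring

theorem mm_smul (f : F) (a : F × F × F) : mm s t (f • a) = algebraMap F R f * mm s t a := by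
  simp only [mm, Prod.smul_fst, Prod.smul_snd, smul_eq_mul, map_mul]; ring

/-- With `S i j = {a | xx a ∈ H}` one has `S i j * S j k ⊆ S i k` by `xx_rel`; so `1` lies in all
of them, they are all equal, to a subring containing `F`, `s` and `t`. -/
theorem eq_top_of_three (hst : Algebra.adjoin F {s, t} = ⊤) {H : Subgroup (KK R)}
    (h1 : ∀ f : F, xx ne01 (algebraMap F R f) ∈ H) (h2 : ∀ f : F, xx ne12 (algebraMap F R f) ∈ H)
    (h3 : ∀ a : F × F × F, xx ne20 (mm s t a) ∈ H) : H = ⊤ := by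
  have mul : ∀ {i j k : Fin 3} (hij : i ≠ j) (hjk : j ≠ k) (hik : i ≠ k) (a b : R),
      xx hij a ∈ H → xx hjk b ∈ H → xx hik (a * b) ∈ H := by
    intro i j k hij hjk hik a b ha hb
    have e : xx hik (a * b) = (xx hjk b * xx hij a)⁻¹ * (xx hij a * xx hjk b) := by
      rw [xx_rel hij hjk hik, inv_mul_cancel_left]
    rw [e]
    exact H.mul_mem (H.inv_mem (H.mul_mem hb ha)) (H.mul_mem ha hb)
  have o01 : xx ne01 (1 : R) ∈ H := by simpa using h1 1
  have o12 : xx ne12 (1 : R) ∈ H := by simpa using h2 1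
  have o20 : xx ne20 (1 : R) ∈ H := by simpa [mm] using h3 (1, 0, 0)
  have o02 : xx ne20.symm (1 : R) ∈ H := by simpa using mul ne01 ne12 ne20.symm 1 1 o01 o12
  have o10 : xx ne01.symm (1 : R) ∈ H := by simpa using mul ne12 ne20 ne01.symm 1 1 o12 o20
  have o21 : xx ne12.symm (1 : R) ∈ H := by simpa using mul ne20 ne01 ne12.symm 1 1 o20 o01
  have all : ∀ a : R, xx ne20 a ∈ H → ∀ (i j : Fin 3) (h : i ≠ j), xx h a ∈ H := by
    intro a ha
    have a21 : xx ne12.symm a ∈ H := by simpa using mul ne20 ne01 ne12.symm a 1 ha o01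
    have a10 : xx ne01.symm a ∈ H := by simpa using mul ne12 ne20 ne01.symm 1 a o12 ha
    have a01 : xx ne01 a ∈ H := by simpa using mul ne20.symm ne12.symm ne01 1 a o02 a21
    have a12 : xx ne12 a ∈ H := by simpa using mul ne01.symm ne20.symm ne12 a 1 a10 o02
    have a02 : xx ne20.symm a ∈ H := by simpa using mul ne01 ne12 ne20.symm a 1 a01 o12
    intro i j h
    fin_cases i <;> fin_cases j
    exacts [absurd rfl h, a01, a02, a10, absurd rfl h, a12, ha, a21, absurd rfl h]
  have key : ∀ a ∈ Algebra.adjoin F {s, t}, xx ne20 a ∈ H := by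
    intro a ha
    induction ha using Algebra.adjoin_induction with
    | mem x hx =>
      rcases hx with rfl | rfl
      · simpa only [Fin.isValue, mm, map_zero, map_one, one_mul, zero_add, zero_mul, add_zero] using h3 (0, 1, 0)
      · simpa [mm] using h3 (0, 0, 1)
    | algebraMap f => simpa [mm] using h3 (f, 0, 0)
    | add x y _ _ hx hy => rw [xx_add]; exact H.mul_mem hx hy
    | mul x y _ _ hx hy => exact mul ne12.symm ne01.symm ne20 x y (all x hx _ _ _) (all y hy _ _ _)
  exact eq_top_of_xx fun i j h a => all a (key a (hst ▸ Algebra.mem_top)) i j h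

end Gen

variable [Algebra (ZMod 2) R]

/-- The action on `V`, linear over `ZMod 2`. -/
def rho (R : Type) [CommRing R] [Algebra (ZMod 2) R] : KK R →* Module.End (ZMod 2) (VV R) where
  toFun g := (Matrix.mulVecLin (mat g)).restrictScalars (ZMod 2)
  map_one' := by
    refine LinearMap.ext fun v => ?_
    simp [mat_one]
  map_mul' g h := by
    refine LinearMap.ext fun v => ?_
    simp [mat_mul]

theorem rho_apply (g : KK R) (v : VV R) : rho R g v = (mat g).mulVec v := rfl

theorem rho_xx {i j : Fin 3} (h : i ≠ j) (a : R) (v : VV R) :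
    rho R (xx h a) v = v + Pi.single i (a * v j) := by
  rw [rho_apply, mat_xx, Matrix.add_mulVec, Matrix.one_mulVec, Matrix.single_mulVec_eq]
  congr 1
  ext1 l
  by_cases hl : l = i
  · subst hl; simp
  · simp [hl]

theorem rho_smul (g : KK R) (a : R) (v : VV R) : rho R g (a • v) = a • rho R g v := by
  simp only [rho_apply, Matrix.mulVec_smul]

/-- Multiplication by `r`. -/
def cr (r : R) : Cm (rho R) where
  r := (LinearMap.lsmul R (VV R) r).restrictScalars (ZMod 2)
  comm g v := (rho_smul g _ v).symm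

theorem cr_r (r : R) (v : VV R) : (cr r).r v = r • v := rfl

/-- A vector with a coordinate equal to one is in the orbit of the basis vector. -/
theorem exists_rho_single (i : Fin 3) (v : VV R) (hv : v i = 1) :
    ∃ g : KK R, rho R g (Pi.single i 1) = v := by
  obtain ⟨j, k, hj, hk, hjk, hall⟩ : ∃ j k : Fin 3, j ≠ i ∧ k ≠ i ∧ j ≠ k ∧
      ∀ l, l = i ∨ l = j ∨ l = k := by
    clear hv
    revert i
    decide
  refine ⟨xx hj (v j) * xx hk (v k), ?_⟩
  rw [map_mul, Module.End.mul_apply, rho_xx, rho_xx]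
  ext1 l
  rcases hall l with rfl | rfl | rfl
  · simp [hj.symm, hk.symm, hv]
  · simp [hj, hk.symm, hjk]
  · simp [hk, hjk.symm]

end Pool.Agent.MP_434e52_an

/-!
The action of `EL_3(R)` on the tensor square, in coordinates.
-/


namespace Pool.Agent.MP_434e52_an

open scoped TensorProduct

variable {R : Type} [CommRing R] [Algebra (ZMod 2) R]

/-- The coordinates of a tensor. -/
noncomputable def co (j l : Fin 3) : Tn (VV R) →ₗ[ZMod 2] R ⊗[ZMod 2] R :=
  TensorProduct.map (LinearMap.proj j) (LinearMap.proj l)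

theorem eq_zero_of_co {y : Tn (VV R)} (h : ∀ j l, co j l y = 0) : y = 0 := by
  have key : ∀ y : Tn (VV R), y = ∑ j, ∑ l, TensorProduct.map
      (LinearMap.single (ZMod 2) (fun _ : Fin 3 => R) j)
      (LinearMap.single (ZMod 2) (fun _ : Fin 3 => R) l) (co j l y) := by
    intro y
    induction y using TensorProduct.induction_on with
    | zero => simp only [map_zero, Finset.sum_const_zero]
    | tmul v w =>
      simp only [co, TensorProduct.map_tmul, LinearMap.coe_proj, Function.eval,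
        LinearMap.coe_single, ← TensorProduct.tmul_sum, ← TensorProduct.sum_tmul,
        Finset.univ_sum_single]
    | add y z hy hz =>
      simp only [map_add, Finset.sum_add_distrib]
      rw [← hy, ← hz]
  rw [key y]
  simp only [h, map_zero, Finset.sum_const_zero]

theorem co_tact (g : KK R) (y : Tn (VV R)) (j l : Fin 3) :
    co j l (tact (rho R) g y) = ∑ p, ∑ q, (mat g j p ⊗ₜ[ZMod 2] mat g l q) * co p q y := by
  induction y using TensorProduct.induction_on with
  | zero => simp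
  | tmul v w =>
    simp only [co, tact, TensorProduct.map_tmul, LinearMap.coe_proj, Function.eval, rho_apply,
      Matrix.mulVec, dotProduct, TensorProduct.sum_tmul, TensorProduct.tmul_sum,
      Algebra.TensorProduct.tmul_mul_tmul]
    exact Finset.sum_comm
  | add y z hy hz =>
    simp only [map_add, hy, hz, mul_add, Finset.sum_add_distrib]

theorem co_tact_xx {i j : Fin 3} (h : i ≠ j) (a : R) (y : Tn (VV R)) (p q : Fin 3) :
    co p q (tact (rho R) (xx h a) y - y) =
      (if p = i then (a ⊗ₜ[ZMod 2] (1 : R)) * co j q y else 0) +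
      (if q = i then ((1 : R) ⊗ₜ[ZMod 2] a) * co p j y else 0) +
      (if p = i ∧ q = i then (a ⊗ₜ[ZMod 2] a) * co j j y else 0) := by
  induction y using TensorProduct.induction_on with
  | zero => simp
  | tmul v w =>
    simp only [map_sub, co, tact, TensorProduct.map_tmul, LinearMap.coe_proj, Function.eval, rho_xx,
      Algebra.TensorProduct.tmul_mul_tmul, one_mul, TensorProduct.add_tmul,
      TensorProduct.tmul_add]
    by_cases hp : p = i <;> by_cases hq : q = i <;> simp only [hp, hq, map_add, TensorProduct.map_tmul, LinearMap.coe_proj, Function.eval, Pi.single_eq_same, ↓ reduceIte, and_self, ne_eq, not_false_eq_true, Pi.single_eq_of_ne, TensorProduct.tmul_zero, add_zero, add_sub_cancel_left, and_false, TensorProduct.zero_tmul, zero_add, and_true, sub_self]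
    abel
  | add y z hy hz =>
    have : tact (rho R) (xx h a) (y + z) - (y + z) =
        (tact (rho R) (xx h a) y - y) + (tact (rho R) (xx h a) z - z) := by
      rw [map_add]; abel
    rw [this, map_add, hy, hz]
    by_cases hp : p = i <;> by_cases hq : q = i <;> simp only [hp, ↓ reduceIte, hq, and_self, map_add, mul_add, add_zero, and_false, zero_add, and_true]
    abel

variable [IsDomain R]

theorem left_reg {a : R} (ha : a ≠ 0) {z : R ⊗[ZMod 2] R} (h : (a ⊗ₜ[ZMod 2] (1 : R)) * z = 0) :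
    z = 0 := by
  have h1 : Function.Injective (LinearMap.mulLeft (ZMod 2) a) := mul_right_injective₀ ha
  have h2 := Module.Flat.rTensor_preserves_injective_linearMap (M := R) _ h1
  have h3 : ∀ z : R ⊗[ZMod 2] R,
      (LinearMap.mulLeft (ZMod 2) a).rTensor R z = (a ⊗ₜ[ZMod 2] (1 : R)) * z := by
    intro z
    induction z using TensorProduct.induction_on with
    | zero => simp
    | tmul v w => simp
    | add y z hy hz => rw [map_add, hy, hz, mul_add]
  apply h2
  rw [h3, h, map_zero]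

theorem right_reg {a : R} (ha : a ≠ 0) {z : R ⊗[ZMod 2] R} (h : ((1 : R) ⊗ₜ[ZMod 2] a) * z = 0) :
    z = 0 := by
  have h1 : Function.Injective (LinearMap.mulLeft (ZMod 2) a) := mul_right_injective₀ ha
  have h2 := Module.Flat.lTensor_preserves_injective_linearMap (M := R) _ h1
  have h3 : ∀ z : R ⊗[ZMod 2] R,
      (LinearMap.mulLeft (ZMod 2) a).lTensor R z = ((1 : R) ⊗ₜ[ZMod 2] a) * z := by
    intro z
    induction z using TensorProduct.induction_on with
    | zero => simp
    | tmul v w => simp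
    | add y z hy hz => rw [map_add, hy, hz, mul_add]
  apply h2
  rw [h3, h, map_zero]

/-- (Y1) -/
theorem eq_zero_of_fixed {y : Tn (VV R)}
    (h : ∀ (i j : Fin 3) (hij : i ≠ j), ∃ a : R, a ≠ 0 ∧ tact (rho R) (xx hij a) y = y) :
    y = 0 := by
  refine eq_zero_of_co fun j m => ?_
  obtain ⟨i, hij, him⟩ : ∃ i : Fin 3, i ≠ j ∧ i ≠ m := by revert j m; decide
  obtain ⟨a, ha, e⟩ := h i j hij
  have := co_tact_xx hij a y i m
  rw [e, sub_self, map_zero] at this
  simp only [if_true, him.symm, if_false, and_false, add_zero] at this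
  exact left_reg ha this.symm

/-- (Y2) -/
theorem diag_of_fixes {Y : AddSubgroup (Tn (VV R))} (hY : Y ≠ ⊥)
    (h : ∀ (i j : Fin 3) (hij : i ≠ j), ∃ a : R, a ≠ 0 ∧ ∀ y ∈ Y, tact (rho R) (xx hij a) y ∈ Y)
    (g : KK R) (hg : ∀ y ∈ Y, tact (rho R) g y = y) {i j : Fin 3} (hij : i ≠ j) :
    mat g i j = 0 := by
  have step : ∀ j m i k : Fin 3, i ≠ j → i ≠ m → k ≠ m → k ≠ i → (∃ y ∈ Y, co j m y ≠ 0) →
      ∃ w ∈ Y, co i k w ≠ 0 ∧ ∀ p q, ¬(p = i ∧ q = k) → ¬(p = k ∧ q = i) → co p q w = 0 := by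
    rintro j m i k hij him hkm hki ⟨y, hy, hne⟩
    obtain ⟨a, ha, h1⟩ := h i j hij
    obtain ⟨b, hb, h2⟩ := h k m hkm
    have hz : tact (rho R) (xx hij a) y - y ∈ Y := sub_mem (h1 y hy) hy
    have z0 : ∀ p q, p ≠ i → q ≠ i → co p q (tact (rho R) (xx hij a) y - y) = 0 := by
      intro p q hp hq
      rw [co_tact_xx]; simp [hp, hq]
    have z1 : co i m (tact (rho R) (xx hij a) y - y) ≠ 0 := by
      rw [co_tact_xx]
      simp only [if_true, him.symm, if_false, and_false, add_zero]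
      exact fun h => hne (left_reg ha h)
    refine ⟨_, sub_mem (h2 _ hz) hz, ?_, fun p q h3 h4 => ?_⟩
    · rw [co_tact_xx]
      simp only [if_true, hki.symm, if_false, false_and, add_zero, zero_add]
      exact fun h => z1 (right_reg hb h)
    · rw [co_tact_xx, z0 m m him.symm him.symm]
      have t1 : (if p = k then (b ⊗ₜ[ZMod 2] (1 : R)) * co m q (tact (rho R) (xx hij a) y - y)
          else 0) = 0 := by
        split_ifs with hp
        · rw [z0 m q him.symm fun hq => h4 ⟨hp, hq⟩, mul_zero]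
        · rfl
      have t2 : (if q = k then ((1 : R) ⊗ₜ[ZMod 2] b) * co p m (tact (rho R) (xx hij a) y - y)
          else 0) = 0 := by
        split_ifs with hq
        · rw [z0 p m (fun hp => h3 ⟨hp, hq⟩) him.symm, mul_zero]
        · rfl
      rw [t1, t2]; simp
  have use : ∀ i k l : Fin 3, i ≠ k → l ≠ i → l ≠ k →
      (∃ w ∈ Y, co i k w ≠ 0 ∧ ∀ p q, ¬(p = i ∧ q = k) → ¬(p = k ∧ q = i) → co p q w = 0) →
      mat g l i = 0 ∧ mat g l k = 0 := by
    rintro i k l hik hli hlk ⟨w, hw, hne, hz⟩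
    have hinv : ∀ p q, ∑ r, mat g⁻¹ p r * mat g r q = if p = q then 1 else 0 := by
      intro p q
      rw [← Matrix.mul_apply, ← mat_mul, inv_mul_cancel, mat_one, Matrix.one_apply]
    have hf : ∀ p q, co p q w = ∑ p', ∑ q', (mat g p p' ⊗ₜ[ZMod 2] mat g q q') * co p' q' w := by
      intro p q
      rw [← co_tact, hg w hw]
    constructor
    · have e : ∑ q, ((1 : R) ⊗ₜ[ZMod 2] mat g⁻¹ k q) * co l q w =
          ∑ p', (mat g l p' ⊗ₜ[ZMod 2] (1 : R)) * co p' k w := by
        calc _ = ∑ q, ∑ p', ∑ q', (mat g l p' ⊗ₜ[ZMod 2] (mat g⁻¹ k q * mat g q q')) * co p' q' w := by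
              refine Finset.sum_congr rfl fun q _ => ?_
              rw [hf l q]
              simp only [Finset.mul_sum, ← mul_assoc, Algebra.TensorProduct.tmul_mul_tmul, one_mul]
          _ = ∑ p', ∑ q', (mat g l p' ⊗ₜ[ZMod 2] (∑ q, mat g⁻¹ k q * mat g q q')) * co p' q' w := by
              rw [Finset.sum_comm]
              refine Finset.sum_congr rfl fun p' _ => ?_
              rw [Finset.sum_comm]
              simp only [TensorProduct.tmul_sum, Finset.sum_mul]
          _ = _ := by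
              refine Finset.sum_congr rfl fun p' _ => ?_
              rw [Finset.sum_eq_single k (fun q' _ hq => by rw [hinv, if_neg hq.symm]; simp)
                (by simp only [Finset.mem_univ, not_true_eq_false, IsEmpty.forall_iff]), hinv, if_pos rfl]
      rw [Finset.sum_eq_zero (fun q _ => by
          rw [hz l q (fun h => hli h.1) (fun h => hlk h.1), mul_zero]),
        Finset.sum_eq_single i (fun p _ hp => by
          rw [hz p k (fun h => hp h.1) (fun h => hik h.2.symm), mul_zero]) (by simp only [Finset.mem_univ, not_true_eq_false, IsEmpty.forall_iff])] at e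
      by_contra h0
      exact hne (left_reg h0 e.symm)
    · have e : ∑ p, (mat g⁻¹ i p ⊗ₜ[ZMod 2] (1 : R)) * co p l w =
          ∑ q', ((1 : R) ⊗ₜ[ZMod 2] mat g l q') * co i q' w := by
        calc _ = ∑ p, ∑ p', ∑ q', ((mat g⁻¹ i p * mat g p p') ⊗ₜ[ZMod 2] mat g l q') * co p' q' w := by
              refine Finset.sum_congr rfl fun p _ => ?_
              rw [hf p l]
              simp only [Finset.mul_sum, ← mul_assoc, Algebra.TensorProduct.tmul_mul_tmul, one_mul]
          _ = ∑ p', ∑ q', ((∑ p, mat g⁻¹ i p * mat g p p') ⊗ₜ[ZMod 2] mat g l q') * co p' q' w := by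
              rw [Finset.sum_comm]
              refine Finset.sum_congr rfl fun p' _ => ?_
              rw [Finset.sum_comm]
              simp only [TensorProduct.sum_tmul, Finset.sum_mul]
          _ = _ := by
              rw [Finset.sum_eq_single i (fun p' _ hp => by
                simp only [hinv, if_neg hp.symm]; simp) (by simp only [Finset.mem_univ, not_true_eq_false, IsEmpty.forall_iff])]
              simp only [hinv, if_true]
      rw [Finset.sum_eq_zero (fun p _ => by
          rw [hz p l (fun h => hlk h.2) (fun h => hli h.2), mul_zero]),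
        Finset.sum_eq_single k (fun q _ hq => by
          rw [hz i q (fun h => hq h.2) (fun h => hik h.1), mul_zero]) (by simp only [Finset.mem_univ, not_true_eq_false, IsEmpty.forall_iff])] at e
      by_contra h0
      exact hne (right_reg h0 e.symm)
  have start : ∃ j m, ∃ y ∈ Y, co j m y ≠ 0 := by
    by_contra hc
    push Not at hc
    exact hY (eq_bot_iff.2 fun y hy => eq_zero_of_co fun j m => hc j m y hy)
  obtain ⟨j0, m0, h0⟩ := start
  obtain ⟨a, b, l, h1, h2, h3, h4, h5, h6⟩ : ∃ a b l : Fin 3, a ≠ j0 ∧ a ≠ m0 ∧ b ≠ m0 ∧ b ≠ a ∧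
      l ≠ a ∧ l ≠ b := by
    clear h0
    revert j0 m0
    decide
  have h7 : (i = l ∧ (j = a ∨ j = b)) ∨ (i = b ∧ (j = l ∨ j = a)) ∨ (i = a ∧ (j = b ∨ j = l)) := by
    omega
  have s1 := step j0 m0 a b h1 h2 h3 h4 h0
  have s2 := step a b l a h5 h6 h4.symm h5.symm (s1.imp fun w hw => ⟨hw.1, hw.2.1⟩)
  have s3 := step l a b l h6.symm h4 h5 h6 (s2.imp fun w hw => ⟨hw.1, hw.2.1⟩)
  have u1 := use a b l h4.symm h5 h6 s1
  have u2 := use l a b h5 h6.symm h4 s2
  have u3 := use b l a h6.symm h4.symm h5.symm s3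
  rcases h7 with ⟨rfl, rfl | rfl⟩ | ⟨rfl, rfl | rfl⟩ | ⟨rfl, rfl | rfl⟩
  exacts [u1.1, u1.2, u2.1, u2.2, u3.1, u3.2]

end Pool.Agent.MP_434e52_an

/-!
ICC, the radical, and the length invariant separating the groups up to virtual isomorphism.
-/


namespace Pool.Agent.MP_434e52_an

open Polynomial

section Cov

variable {A A' : Type} [AddCommGroup A] [AddCommGroup A']

/-- `Z` is covered by finitely many cosets of `U`. -/
def Cov (U Z : AddSubgroup A) : Prop :=
  ∃ S : Set A, S.Finite ∧ ∀ v ∈ Z, ∃ s ∈ S, v - s ∈ U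

theorem Cov.of_le {U Z : AddSubgroup A} (h : Z ≤ U) : Cov U Z := by
  exact ⟨{0}, Set.finite_singleton _, fun v hv => ⟨0, rfl, by simpa using h hv⟩⟩

theorem Cov.mono {U U' Z Z' : AddSubgroup A} (h : Cov U Z) (hU : U ≤ U') (hZ : Z' ≤ Z) :
    Cov U' Z' := by
  obtain ⟨S, hS, h⟩ := h
  exact ⟨S, hS, fun v hv => (h v (hZ hv)).imp fun s hs => ⟨hs.1, hU hs.2⟩⟩

theorem Cov.trans {U Y Z : AddSubgroup A} (h1 : Cov U Y) (h2 : Cov Y Z) : Cov U Z := by
  obtain ⟨S, hS, h1⟩ := h1
  obtain ⟨T, hT, h2⟩ := h2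
  refine ⟨Set.image2 (· + ·) S T, hS.image2 _ hT, fun v hv => ?_⟩
  obtain ⟨t, ht, h3⟩ := h2 v hv
  obtain ⟨s, hs, h4⟩ := h1 _ h3
  exact ⟨s + t, Set.mem_image2_of_mem hs ht, by convert h4 using 1; abel⟩

theorem Cov.sup {U Y Z : AddSubgroup A} (h1 : Cov U Y) (h2 : Cov U Z) : Cov U (Y ⊔ Z) := by
  obtain ⟨S, hS, h1⟩ := h1
  obtain ⟨T, hT, h2⟩ := h2
  refine ⟨Set.image2 (· + ·) S T, hS.image2 _ hT, fun v hv => ?_⟩
  obtain ⟨y, hy, z, hz, rfl⟩ := AddSubgroup.mem_sup.1 hv
  obtain ⟨s, hs, h3⟩ := h1 y hy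
  obtain ⟨t, ht, h4⟩ := h2 z hz
  exact ⟨s + t, Set.mem_image2_of_mem hs ht, by convert add_mem h3 h4 using 1; abel⟩

theorem Cov.map {U Z : AddSubgroup A} (h : Cov U Z) (f : A →+ A') : Cov (U.map f) (Z.map f) := by
  obtain ⟨S, hS, h⟩ := h
  refine ⟨f '' S, hS.image _, ?_⟩
  rintro _ ⟨v, hv, rfl⟩
  obtain ⟨s, hs, h1⟩ := h v hv
  exact ⟨f s, ⟨s, hs, rfl⟩, v - s, h1, map_sub _ _ _⟩

theorem Cov.comap_top {U : AddSubgroup A} (h : Cov U ⊤) (f : A' →+ A) : Cov (U.comap f) ⊤ := by
  classical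
  obtain ⟨S, hS, h⟩ := h
  refine ⟨(fun s => if h : ∃ a, f a - s ∈ U then h.choose else 0) '' S, hS.image _, fun v _ => ?_⟩
  obtain ⟨s, hs, h1⟩ := h (f v) trivial
  have h2 : ∃ a, f a - s ∈ U := ⟨v, h1⟩
  refine ⟨_, ⟨s, hs, rfl⟩, ?_⟩
  simp only [dif_pos h2, AddSubgroup.mem_comap, map_sub]
  convert sub_mem h1 h2.choose_spec using 1
  abel

theorem Cov.infinite [Infinite A] {U : AddSubgroup A} (h : Cov U ⊤) : (U : Set A).Infinite := by
  obtain ⟨S, hS, h⟩ := h
  intro hU
  refine Set.infinite_univ ((hU.image2 (· + ·) hS).subset fun v _ => ?_)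
  obtain ⟨s, hs, h1⟩ := h v trivial
  exact ⟨v - s, h1, s, hs, sub_add_cancel _ _⟩

theorem Cov.exists_ne {U Z : AddSubgroup A} (h : Cov U Z) (u : ℕ → A) (hu : ∀ n, u n ∈ Z) :
    ∃ n m, n ≠ m ∧ u m - u n ∈ U := by
  obtain ⟨S, hS, h⟩ := h
  choose s hs h1 using fun n => h (u n) (hu n)
  obtain ⟨n, -, m, -, hnm, e⟩ := Set.infinite_univ.exists_ne_map_eq_of_mapsTo (f := s)
    (fun n _ => hs n) hS
  refine ⟨n, m, hnm, ?_⟩
  convert sub_mem (h1 m) (h1 n) using 1
  rw [e]; abel

/-- The preimage of a subgroup under a map turning sums into products. -/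
def pre {G : Type} [Group G] (H : Subgroup G) (h : A → G) (hh : ∀ a b, h (a + b) = h a * h b) :
    AddSubgroup A where
  carrier := {a | h a ∈ H}
  zero_mem' := by
    have : h 0 = 1 := by simpa using hh 0 0
    simp [this]
  add_mem' ha hb := by
    simp only [Set.mem_ofPred_eq, hh] at *
    exact mul_mem ha hb
  neg_mem' := by
    intro a ha
    have h0 : h 0 = 1 := by simpa using hh 0 0
    have : h (-a) = (h a)⁻¹ := by rw [eq_inv_iff_mul_eq_one, ← hh, neg_add_cancel, h0]
    simp only [Set.mem_ofPred_eq, this] at *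
    exact inv_mem ha

theorem mem_pre {G : Type} [Group G] {H : Subgroup G} {h : A → G}
    {hh : ∀ a b, h (a + b) = h a * h b} {a : A} : a ∈ pre H h hh ↔ h a ∈ H := Iff.rfl

theorem cov_pre {G : Type} [Group G] (H : Subgroup G) [H.FiniteIndex] (h : A → G)
    (hh : ∀ a b, h (a + b) = h a * h b) : Cov (pre H h hh) ⊤ := by
  classical
  have h0 : h 0 = 1 := by simpa using hh 0 0
  refine ⟨Set.range fun q : G ⧸ H => if hq : ∃ a, (h a : G ⧸ H) = q then hq.choose else 0,
    Set.finite_range _, fun v _ => ?_⟩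
  have h2 : ∃ a, (h a : G ⧸ H) = h v := ⟨v, rfl⟩
  refine ⟨_, ⟨h v, rfl⟩, ?_⟩
  simp only [dif_pos h2]
  have h3 := QuotientGroup.eq.1 h2.choose_spec
  have h4 : h (-h2.choose) = (h h2.choose)⁻¹ := by
    rw [eq_inv_iff_mul_eq_one, ← hh, neg_add_cancel, h0]
  rw [mem_pre, sub_eq_neg_add, hh, h4]
  exact h3

end Cov

/-- Finite normal subgroups of ICC groups are trivial. -/
theorem emb_of_virtIso {G H : Type} [Group G] [Group H] (hG : ICC G) (hH : ICC H)
    (h : VirtIso G H) : ∃ (Γ : Type) (_ : Group Γ) (ι₁ : Γ →* G) (ι₂ : Γ →* H),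
      Function.Injective ι₁ ∧ Function.Injective ι₂ ∧ ι₁.range.FiniteIndex ∧
        ι₂.range.FiniteIndex := by
  have key : ∀ {G : Type} [Group G], ICC G → ∀ (F : Subgroup G) [F.Normal], Finite F →
      ∃ e : G ⧸ F →* G, Function.Bijective e := by
    intro G _ hG F hn hF
    have : F = ⊥ := by
      rw [eq_bot_iff]
      intro g hg
      by_contra h1
      refine hG g h1 ((Set.toFinite (F : Set G)).subset ?_)
      intro x hx
      obtain ⟨c, rfl⟩ := isConj_iff.1 hx
      exact hn.conj_mem g hg c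
    subst this
    exact ⟨QuotientGroup.quotientBot.toMonoidHom, QuotientGroup.quotientBot.bijective⟩
  obtain ⟨F, K, nF, nK, hF, hK, G₀, H₀, i1, i2, ⟨e⟩⟩ := h
  obtain ⟨e1, b1⟩ := key hG F hF
  obtain ⟨e2, b2⟩ := key hH K hK
  refine ⟨G₀, inferInstance, e1.comp G₀.subtype, e2.comp (H₀.subtype.comp e.toMonoidHom),
    b1.1.comp Subtype.val_injective, b2.1.comp (Subtype.val_injective.comp e.injective),
    ⟨?_⟩, ⟨?_⟩⟩
  · rw [MonoidHom.range_comp, Subgroup.range_subtype, Subgroup.index_map_of_bijective b1]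
    exact i1
  · rw [MonoidHom.range_comp, MonoidHom.range_comp, MonoidHom.range_eq_top.2 e.surjective,
      ← MonoidHom.range_eq_map, Subgroup.range_subtype, Subgroup.index_map_of_bijective b2]
    exact i2

/-- The length invariant. -/
def Len (Γ : Type) [Group Γ] (A : Subgroup Γ) (m : ℕ) : Prop :=
  ∃ W : ℕ → Subgroup Γ, (∀ i, (W i).Normal) ∧ Monotone W ∧ (∀ i, W i ≤ A) ∧
    (∀ x ∈ A, x * x ∈ W 0) ∧
    (∃ S : Set Γ, S.Finite ∧ ∀ w ∈ W 0, ∃ s ∈ S, ∃ x ∈ A, w = s * (x * x)) ∧
    (∀ i < m, ∃ u : ℕ → Γ, (∀ n, u n ∈ W (i + 1)) ∧ ∀ n n', (u n)⁻¹ * u n' ∈ W i → n = n') ∧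
    ∃ n : Γ, n ∉ A ∧ n * n ∈ A ∧ ∀ i, ∀ w ∈ W i, n * w * n⁻¹ * w⁻¹ ∈ W 0

theorem Len.mono {Γ : Type} [Group Γ] {A : Subgroup Γ} {m m' : ℕ} (h : Len Γ A m) (hm : m' ≤ m) :
    Len Γ A m' := by
  obtain ⟨W, h1, h2, h3, h4, h5, h6, h7⟩ := h
  exact ⟨W, h1, h2, h3, h4, h5, fun i hi => h6 i (hi.trans_le hm), h7⟩

section Dom

variable {R : Type} [CommRing R] [IsDomain R] [Infinite R] [Algebra (ZMod 2) R]

omit [IsDomain R] [Infinite R] in
theorem conj_by_inV {c : Cm (rho R)} (v : VV R) (x : c.G) :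
    (c.inV v * x * (c.inV v)⁻¹).d = x.d + aa (v - rho R x.k v) := by
  simp only [Cm.mul_d, Cm.mul_k, Cm.inv_d, Cm.inV_d, Cm.inV_k, act_one, inv_one, one_mul]
  rw [map_neg, act_aa, aa_sub]
  abel

omit [IsDomain R] [Infinite R] in
theorem rho_single (g : KK R) (i j : Fin 3) (a : R) : rho R g (Pi.single j a) i = mat g i j * a := by
  rw [rho_apply, Matrix.mulVec_single]
  simp [mul_comm]

omit [IsDomain R] [Infinite R] [Algebra (ZMod 2) R] in
theorem entry_conj {i j : Fin 3} (h : i ≠ j) (g : KK R) (a : R)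
    (e : g * (xx h a * g * xx h (-a)) = xx h a * g * xx h (-a) * g) :
    a * (2 * (mat g j i * mat g j j) - (mat g * mat g) j i - a * (mat g j i * mat g j i)) = 0 := by
  have e1 := congrFun (congrFun (congrArg mat e) j) j
  simp only [mat_mul, mat_xx, add_mul, mul_add, one_mul, mul_one, Matrix.add_apply,
    ← Matrix.mul_assoc, Matrix.mul_single_apply_same] at e1
  simp only [Matrix.mul_assoc, Matrix.single_mul_apply_of_ne _ _ _ _ _ h.symm] at e1
  simp only [← Matrix.mul_assoc] at e1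
  have e2 : ∀ b : R, (mat g * Matrix.single i j b * mat g) j j = mat g j i * b * mat g j j := by
    intro b
    rw [Matrix.mul_apply, Finset.sum_eq_single j (fun l _ hl => by
      rw [Matrix.mul_single_apply_of_ne _ _ _ _ _ hl, zero_mul]) (by simp only [Finset.mem_univ, not_true_eq_false, Matrix.mul_single_apply_same, IsEmpty.forall_iff]),
      Matrix.mul_single_apply_same]
  have e3 : (mat g * Matrix.single i j a * mat g) j i = mat g j i * a * mat g j i := by
    rw [Matrix.mul_apply, Finset.sum_eq_single j (fun l _ hl => by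
      rw [Matrix.mul_single_apply_of_ne _ _ _ _ _ hl, zero_mul]) (by simp only [Finset.mem_univ, not_true_eq_false, Matrix.mul_single_apply_same, IsEmpty.forall_iff]),
      Matrix.mul_single_apply_same]
  rw [e2, e2, e3] at e1
  linear_combination e1

theorem icc_G (c : Cm (rho R)) : ICC c.G := by
  intro x hx
  by_cases hk : x.k = 1
  · by_cases h2 : x.d.2 = 0
    · obtain ⟨v, hv⟩ := c.exists_aa_of_snd x.mem h2
      have hx' : x = c.inV v := Cm.G.ext hv hk
      have hv0 : v ≠ 0 := fun h => hx (by rw [hx', h, Cm.inV_zero])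
      obtain ⟨j, hj⟩ := Function.ne_iff.1 hv0
      obtain ⟨i, hi⟩ := exists_ne j
      refine Set.infinite_of_injective_forall_mem
        (f := fun a : R => c.inK (xx hi a) * x * (c.inK (xx hi a))⁻¹) ?_
        fun a => isConj_iff.2 ⟨_, rfl⟩
      intro a b hab
      simp only [hx', Cm.conj_inV, Cm.inK_k, rho_xx] at hab
      have := congrFun (add_left_cancel (Cm.inV_injective hab)) i
      simp only [Pi.single_eq_same] at this
      exact mul_right_cancel₀ hj this
    · intro hfin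
      refine h2 (eq_zero_of_fixed fun i j h => ?_)
      obtain ⟨a, -, b, -, hab, he⟩ := Set.infinite_univ.exists_ne_map_eq_of_mapsTo
        (f := fun a : R => c.inK (xx h a) * x * (c.inK (xx h a))⁻¹)
        (fun a _ => isConj_iff.2 ⟨_, rfl⟩) hfin
      have he2 := congrArg (fun z : c.G => z.d.2) he
      simp only [Cm.conj_d _ _ hk, act_snd, Cm.inK_k] at he2
      refine ⟨-b + a, fun h0 => hab (by linear_combination h0), ?_⟩
      rw [xx_add, tact_mul, he2, ← tact_mul, ← xx_add, neg_add_cancel, xx_zero, tact_one]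
  · have : ∃ i j, mat x.k i j ≠ (1 : Matrix (Fin 3) (Fin 3) R) i j := by
      by_contra h
      push Not at h
      exact hk (mat_injective (Matrix.ext h))
    obtain ⟨i, j, hij⟩ := this
    refine Set.infinite_of_injective_forall_mem
      (f := fun a : R => c.inV (Pi.single j a) * x * (c.inV (Pi.single j a))⁻¹) ?_
      fun a => isConj_iff.2 ⟨_, rfl⟩
    intro a b hab
    have h1 := congrArg Cm.G.d hab
    simp only [conj_by_inV] at h1
    have h2 := congrFun (aa_injective (add_left_cancel h1)) i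
    simp only [Pi.sub_apply, rho_single] at h2
    have h3 : ∀ a : R, (Pi.single j a : VV R) i = (1 : Matrix (Fin 3) (Fin 3) R) i j * a := by
      intro a
      by_cases h : i = j
      · subst h; simp
      · simp [h]
    rw [h3, h3] at h2
    refine mul_left_cancel₀ (sub_ne_zero.2 hij.symm) ?_
    linear_combination h2

/-- The radical. -/
noncomputable def rad {Γ : Type} [Group Γ] {c : Cm (rho R)} (ι : Γ →* c.G) : Subgroup Γ := (c.pr.comp ι).ker

omit [IsDomain R] [Infinite R] in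
theorem mem_rad {Γ : Type} [Group Γ] {c : Cm (rho R)} {ι : Γ →* c.G} {x : Γ} :
    x ∈ rad ι ↔ (ι x).k = 1 := Iff.rfl

omit [IsDomain R] [Infinite R] in
theorem rad_comm {Γ : Type} [Group Γ] {c : Cm (rho R)} {ι : Γ →* c.G} (hι : Function.Injective ι)
    {x y : Γ} (hx : x ∈ rad ι) (hy : y ∈ rad ι) : x * y = y * x := by
  apply hι
  rw [map_mul, map_mul]
  refine Cm.G.ext ?_ ?_
  · rw [Cm.mul_d, Cm.mul_d, mem_rad.1 hx, mem_rad.1 hy, act_one, act_one, add_comm]
  · rw [Cm.mul_k, Cm.mul_k, mem_rad.1 hx, mem_rad.1 hy]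

/-- (Rad) An abelian normal subgroup lies in the radical. -/
theorem le_rad {Γ : Type} [Group Γ] {c : Cm (rho R)} (ι : Γ →* c.G) [ι.range.FiniteIndex]
    (N : Subgroup Γ) [N.Normal] (hN : ∀ x ∈ N, ∀ y ∈ N, x * y = y * x) : N ≤ rad ι := by
  intro x hx
  have hdiag : ∀ i j : Fin 3, i ≠ j → mat (ι x).k j i = 0 := by
    intro i j h
    have hinf := (cov_pre ι.range (fun a => c.inK (xx h a))
      (fun a b => by rw [xx_add, map_mul])).infinite
    obtain ⟨a, ha, ha0⟩ := hinf.exists_notMem_finite (Set.finite_singleton 0)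
    obtain ⟨b, hb, hb0⟩ := hinf.exists_notMem_finite (Set.toFinite {0, a})
    simp only [Set.mem_insert_iff, Set.mem_singleton_iff, not_or] at ha0 hb0
    have key : ∀ a : R, c.inK (xx h a) ∈ ι.range →
        (ι x).k * (xx h a * (ι x).k * xx h (-a)) = xx h a * (ι x).k * xx h (-a) * (ι x).k := by
      rintro a ⟨γ, hγ⟩
      have h1 := congrArg (fun z => (ι z).k)
        (hN x hx _ (Subgroup.Normal.conj_mem inferInstance x hx γ))
      simpa only [map_mul, map_inv, Cm.mul_k, Cm.inv_k, hγ, Cm.inK_k, ← xx_neg] using h1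
    have e1 := entry_conj h _ a (key a ha)
    have e2 := entry_conj h _ b (key b hb)
    have e3 := mul_left_cancel₀ ha0 (e1.trans (mul_zero a).symm)
    have e4 := mul_left_cancel₀ hb0.1 (e2.trans (mul_zero b).symm)
    have e5 : (b - a) * (mat (ι x).k j i * mat (ι x).k j i) = 0 := by
      linear_combination e3 - e4
    exact mul_self_eq_zero.1 ((mul_eq_zero.1 e5).resolve_left (sub_ne_zero.2 hb0.2))
  rw [mem_rad]
  apply mat_injective
  rw [mat_one]
  ext i j
  by_cases hij : i = j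
  · subst hij
    obtain ⟨a, ⟨γ, hγ⟩, ha0⟩ := (cov_pre ι.range (fun a : R => c.inV (Pi.single i a))
      (fun a b => by rw [Pi.single_add, Cm.inV_add])).infinite.exists_notMem_finite
      (Set.finite_singleton 0)
    have h1 := congrArg (fun z => (ι z).d)
      (hN x hx _ (Subgroup.Normal.conj_mem inferInstance x hx γ))
    have hk : (c.inV (Pi.single i a) * ι x * (c.inV (Pi.single i a))⁻¹).k = (ι x).k := by simp only [Cm.mul_k, Cm.inV_k, one_mul, Cm.inv_k, inv_one, mul_one]
    simp only [map_mul, map_inv, hγ] at h1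
    rw [Cm.mul_d, Cm.mul_d (_ * _ * _), conj_by_inV, hk, map_add, act_aa] at h1
    have h2 : aa (rho R (ι x).k (Pi.single i a - rho R (ι x).k (Pi.single i a))) =
        aa (Pi.single i a - rho R (ι x).k (Pi.single i a)) := by
      rw [← sub_eq_zero]
      linear_combination (exp := 1) h1
    have h3 := congrFun (aa_injective h2) i
    have h4 : ∀ v : VV R, rho R (ι x).k v i = mat (ι x).k i i * v i := by
      intro v
      rw [rho_apply, Matrix.mulVec, dotProduct,
        Finset.sum_eq_single i (fun b _ hb => by rw [hdiag b i hb, zero_mul]) (by simp)]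
    simp only [h4, Pi.sub_apply, Pi.single_eq_same] at h3
    have h5 : a * ((mat (ι x).k i i - 1) * (mat (ι x).k i i - 1)) = 0 := by
      linear_combination -h3
    rw [Matrix.one_apply_eq]
    exact sub_eq_zero.1 (mul_self_eq_zero.1 ((mul_eq_zero.1 h5).resolve_left ha0))
  · rw [hdiag j i (Ne.symm hij), Matrix.one_apply_ne hij]

/-- The abelian parts of a subgroup of the radical. -/
def dpart {Γ : Type} [Group Γ] {c : Cm (rho R)} (ι : Γ →* c.G) (W : Subgroup Γ)
    (hW : W ≤ rad ι) : AddSubgroup (Amb (VV R)) where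
  carrier := {d | ∃ w ∈ W, (ι w).d = d}
  zero_mem' := ⟨1, one_mem _, by rw [map_one]; rfl⟩
  add_mem' := by
    rintro _ _ ⟨w, hw, rfl⟩ ⟨w', hw', rfl⟩
    exact ⟨w * w', mul_mem hw hw', by rw [map_mul, Cm.mul_d, mem_rad.1 (hW hw), act_one]⟩
  neg_mem' := by
    rintro _ ⟨w, hw, rfl⟩
    exact ⟨w⁻¹, inv_mem hw, by rw [map_inv, Cm.inv_d, mem_rad.1 (hW hw), inv_one, act_one]⟩

omit [IsDomain R] [Infinite R] in
theorem dpart_act {Γ : Type} [Group Γ] {c : Cm (rho R)} {ι : Γ →* c.G} {W : Subgroup Γ}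
    (hN : W.Normal) (hW : W ≤ rad ι) {g : KK R} (hg : c.inK g ∈ ι.range) {d : Amb (VV R)}
    (hd : d ∈ dpart ι W hW) : act (rho R) g d ∈ dpart ι W hW := by
  obtain ⟨γ, hγ⟩ := hg
  obtain ⟨w, hw, rfl⟩ := hd
  refine ⟨γ * w * γ⁻¹, hN.conj_mem w hw γ, ?_⟩
  rw [map_mul, map_mul, map_inv, Cm.conj_d _ _ (mem_rad.1 (hW hw)), hγ, Cm.inK_k]

omit [IsDomain R] [Infinite R] in
theorem inK_xx_add (c : Cm (rho R)) {i j : Fin 3} (h : i ≠ j) (a b : R) :
    c.inK (xx h (a + b)) = c.inK (xx h a) * c.inK (xx h b) := by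
  rw [xx_add, map_mul]

omit [Infinite R] in
theorem eq_one_of_diag {g : KK R} (hd : ∀ i j : Fin 3, i ≠ j → mat g i j = 0) (hg : g * g = 1) :
    g = 1 := by
  apply mat_injective
  rw [mat_one]
  ext i j
  by_cases hij : i = j
  · subst hij
    have h1 : (mat g * mat g) i i = 1 := by rw [← mat_mul, hg, mat_one, Matrix.one_apply_eq]
    rw [Matrix.mul_apply, Finset.sum_eq_single i (fun b _ hb => by rw [hd b i hb, mul_zero])
      (by simp)] at h1
    have h2 : (mat g i i - 1) * (mat g i i - 1) = 0 := by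
      have h3 := add_self_two (mat g i i)
      have h4 := add_self_two (1 : R)
      linear_combination h1 - h3 + h4
    rw [Matrix.one_apply_eq]
    exact sub_eq_zero.1 (mul_self_eq_zero.1 h2)
  · rw [hd i j hij, Matrix.one_apply_ne hij]

/-- The tensor parts of all `W i` vanish. -/
theorem snd_eq_zero {Γ : Type} [Group Γ] {c : Cm (rho R)} (ι : Γ →* c.G) [ι.range.FiniteIndex]
    (W : ℕ → Subgroup Γ) (hN : ∀ i, (W i).Normal) (hA : ∀ i, W i ≤ rad ι) {S : Set Γ}
    (hS : S.Finite) (hcov : ∀ w ∈ W 0, ∃ s ∈ S, ∃ x ∈ rad ι, w = s * (x * x)) {n : Γ}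
    (hnA : n ∉ rad ι) (hnn : n * n ∈ rad ι) (hn : ∀ i, ∀ w ∈ W i, n * w * n⁻¹ * w⁻¹ ∈ W 0)
    (m : ℕ) {w : Γ} (hw : w ∈ W m) : (ι w).d.2 = 0 := by
  have hI : ∀ (i j : Fin 3) (h : i ≠ j),
      ((pre ι.range (fun a => c.inK (xx h a)) (inK_xx_add c h) : AddSubgroup R) : Set R).Infinite :=
    fun i j h => (cov_pre _ _ _).infinite
  let Y : ℕ → AddSubgroup (Tn (VV R)) := fun m =>
    (dpart ι (W m) (hA m)).map (AddMonoidHom.snd _ _)
  have hY : ∀ m (g : KK R), c.inK g ∈ ι.range → ∀ y ∈ Y m, tact (rho R) g y ∈ Y m := by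
    rintro m g hg _ ⟨d, hd, rfl⟩
    exact ⟨_, dpart_act (hN m) (hA m) hg hd, rfl⟩
  have hfin : (Y 0 : Set (Tn (VV R))).Finite := by
    refine (hS.image fun s => (ι s).d.2).subset ?_
    rintro _ ⟨_, ⟨w, hw, rfl⟩, rfl⟩
    obtain ⟨s, hs, x, hx, rfl⟩ := hcov w hw
    refine ⟨s, hs, ?_⟩
    simp [mem_rad.1 hx, act_one, act_snd, add_self_two]
  have h0 : ∀ y ∈ Y 0, y = 0 := by
    intro y hy
    refine eq_zero_of_fixed fun i j h => ?_
    obtain ⟨a, ha, b, hb, hab, he⟩ := (hI i j h).exists_ne_map_eq_of_mapsTo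
      (f := fun a => tact (rho R) (xx h a) y) (fun a ha => hY 0 _ ha y hy) hfin
    refine ⟨-b + a, fun h0 => hab (by linear_combination h0), ?_⟩
    rw [xx_add, tact_mul, he, ← tact_mul, ← xx_add, neg_add_cancel, xx_zero, tact_one]
  by_contra hne
  have hbot : Y m ≠ ⊥ := fun h => hne (by
    have : (ι w).d.2 ∈ Y m := ⟨_, ⟨w, hw, rfl⟩, rfl⟩
    rwa [h, AddSubgroup.mem_bot] at this)
  apply hnA
  rw [mem_rad]
  refine eq_one_of_diag (fun i j hij => diag_of_fixes hbot (fun i j h => ?_) _ ?_ hij) ?_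
  · obtain ⟨a, ha, ha0⟩ := (hI i j h).exists_notMem_finite (Set.finite_singleton 0)
    exact ⟨a, ha0, hY m _ ha⟩
  · rintro _ ⟨_, ⟨w, hw, rfl⟩, rfl⟩
    have h1 := h0 _ ⟨_, ⟨_, hn m w hw, rfl⟩, rfl⟩
    have hk := mem_rad.1 (hA m hw)
    rw [map_mul, map_mul, map_mul, map_inv, map_inv, Cm.mul_d, Cm.conj_d _ _ hk,
      Cm.conj_k _ _ hk, act_one, Cm.inv_d, hk, inv_one, act_one] at h1
    simpa only [AddMonoidHom.coe_snd, Prod.snd_add, act_snd, Prod.snd_neg, add_neg_eq_zero] using h1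
  · have := mem_rad.1 hnn
    rwa [map_mul, Cm.mul_k] at this

end Dom

section Poly

variable {P : Type} [CommRing P] [IsDomain P] [Infinite P] [Algebra (ZMod 2) P]

/-- The subgroup `s ^ j V`. -/
noncomputable def SS (P : Type) [CommRing P] (j : ℕ) : AddSubgroup (VV P[X]) where
  carrier := {v | ∀ i, (X : P[X]) ^ j ∣ v i}
  zero_mem' _ := dvd_zero _
  add_mem' ha hb i := dvd_add (ha i) (hb i)
  neg_mem' ha i := (dvd_neg).2 (ha i)

omit [IsDomain P] [Infinite P] [Algebra (ZMod 2) P] in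
theorem mem_SS {j : ℕ} {v : VV P[X]} : v ∈ SS P j ↔ ∀ i, (X : P[X]) ^ j ∣ v i := Iff.rfl

omit [IsDomain P] [Infinite P] [Algebra (ZMod 2) P] in
/-- Induction on `n`. -/
theorem cov_ideal (hP : ∀ c : P, c ≠ 0 → Cov (Ideal.span {c}).toAddSubgroup ⊤) {y : P[X]}
    (hy : y.coeff 0 ≠ 0) (n : ℕ) : Cov (Ideal.span {y, X ^ n}).toAddSubgroup ⊤ := by
  induction n with
  | zero =>
    refine Cov.of_le fun v _ => ?_
    exact (Ideal.mem_span_pair).2 ⟨0, v, by simp⟩
  | succ n ih =>
    obtain ⟨S, hS, h1⟩ := ih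
    obtain ⟨T, hT, h2⟩ := hP _ hy
    refine ⟨Set.image2 (fun s t => s + C t * X ^ n) S T, hS.image2 _ hT, fun v _ => ?_⟩
    obtain ⟨s, hs, h3⟩ := h1 v trivial
    obtain ⟨α, β, h4⟩ := (Ideal.mem_span_pair).1 h3
    obtain ⟨t, ht, h5⟩ := h2 (β.coeff 0) trivial
    obtain ⟨γ, h6⟩ := (Ideal.mem_span_singleton').1 h5
    refine ⟨_, Set.mem_image2_of_mem hs ht, (Ideal.mem_span_pair).2
      ⟨α + C γ * X ^ n, β.divX - C γ * y.divX, ?_⟩⟩
    have e1 := X_mul_divX_add β
    have e2 := X_mul_divX_add y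
    have e3 : C γ * C (y.coeff 0) = C (β.coeff 0) - C t := by rw [← map_mul, h6, map_sub]
    linear_combination h4 + X ^ n * e1 - C γ * X ^ n * e2 + X ^ n * e3

omit [Algebra (ZMod 2) P] in
/-- Lemma C. -/
theorem lemC (hP : ∀ c : P, c ≠ 0 → Cov (Ideal.span {c}).toAddSubgroup ⊤) (k : ℕ)
    (U : AddSubgroup (VV P[X]))
    (hU : ∀ i j : Fin 3, i ≠ j → ∃ I : AddSubgroup P[X], Cov I ⊤ ∧
      ∀ a ∈ I, ∀ u ∈ U, Pi.single i (a * u j) ∈ U)
    (hk : Cov U (SS P k)) : ∃ j ≤ k, U ≤ SS P j ∧ Cov U (SS P j) := by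
  classical
  have h0 : U ≤ SS P 0 := fun v _ i => by simp
  set j := Nat.findGreatest (fun j => U ≤ SS P j) k with hj
  have hjk : j ≤ k := Nat.findGreatest_le k
  have hUj : U ≤ SS P j := Nat.findGreatest_spec (P := fun j => U ≤ SS P j) (Nat.zero_le k) h0
  refine ⟨j, hjk, hUj, ?_⟩
  rcases hjk.eq_or_lt with e | hlt
  · rw [e]; exact hk
  have hnot : ¬ U ≤ SS P (j + 1) :=
    Nat.findGreatest_is_greatest (P := fun j => U ≤ SS P j) (Nat.lt_succ_self j) hlt
  have hex : ∃ m, ∃ u ∈ U, ∃ y : P[X], y.coeff 0 ≠ 0 ∧ u m = X ^ j * y := by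
    by_contra hc
    push Not at hc
    refine hnot fun u hu m => ?_
    obtain ⟨y, hy⟩ := hUj hu m
    by_cases h : y.coeff 0 = 0
    · rw [hy, pow_succ]
      exact mul_dvd_mul_left _ (X_dvd_iff.2 h)
    · exact absurd hy (hc m u hu y h)
  have step : ∀ m i : Fin 3, i ≠ m → (∃ u ∈ U, ∃ y : P[X], y.coeff 0 ≠ 0 ∧ u m = X ^ j * y) →
      ∃ u ∈ U, ∃ y : P[X], y.coeff 0 ≠ 0 ∧ u i = X ^ j * y := by
    rintro m i him ⟨u, hu, y, hy, e⟩
    obtain ⟨I, hI, h⟩ := hU i m him
    obtain ⟨a, ha, ha0⟩ := (hI.comap_top (C : P →+* P[X]).toAddMonoidHom).infinite.exists_notMem_finite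
      (Set.finite_singleton 0)
    refine ⟨_, h _ ha u hu, C a * y, by simpa using ⟨ha0, hy⟩, ?_⟩
    simp only [Pi.single_eq_same, e]
    change C a * _ = _
    ring
  have all : ∀ i : Fin 3, ∃ u ∈ U, ∃ y : P[X], y.coeff 0 ≠ 0 ∧ u i = X ^ j * y := by
    obtain ⟨m, hm⟩ := hex
    intro i
    by_cases h : i = m
    · rw [h]; exact hm
    · exact step m i h hm
  have line : ∀ i : Fin 3, Cov U ((⊤ : AddSubgroup P[X]).map
      ((AddMonoidHom.single (fun _ : Fin 3 => P[X]) i).comp (AddMonoidHom.mulLeft (X ^ j)))) := by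
    intro i
    obtain ⟨m, hm⟩ := exists_ne i
    obtain ⟨u, hu, y, hy, e⟩ := all m
    obtain ⟨I, hI, h⟩ := hU i m hm.symm
    have c1 : Cov U ((⊤ : AddSubgroup P[X]).map
        ((AddMonoidHom.single (fun _ : Fin 3 => P[X]) i).comp (AddMonoidHom.mulRight (u m)))) := by
      refine (hI.map _).mono ?_ le_rfl
      rintro _ ⟨a, ha, rfl⟩
      exact h a ha u hu
    refine (c1.sup hk).trans (((cov_ideal hP hy (k - j)).map _).mono ?_ le_rfl)
    rintro _ ⟨z, hz, rfl⟩
    obtain ⟨α, β, rfl⟩ := (Ideal.mem_span_pair).1 hz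
    refine AddSubgroup.mem_sup.2 ⟨_, ⟨α, trivial, rfl⟩, Pi.single i (β * X ^ k), fun l => ?_, ?_⟩
    · by_cases hl : l = i
      · subst hl; simp only [Pi.single_eq_same, dvd_mul_left]
      · simp only [ne_eq, hl, not_false_eq_true, Pi.single_eq_of_ne, dvd_zero]
    · change Pi.single i (α * u m) + _ = (Pi.single i (X ^ j * (α * y + β * X ^ (k - j))) : VV P[X])
      rw [← Pi.single_add, e]
      congr 1
      have : (X : P[X]) ^ k = X ^ j * X ^ (k - j) := by rw [← pow_add]; congr 1; omega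
      rw [this]; ring
  refine (((line 0).sup (line 1)).sup (line 2)).mono le_rfl fun v hv => ?_
  choose w hw using mem_SS.1 hv
  have e : v = Pi.single 0 (X ^ j * w 0) + Pi.single 1 (X ^ j * w 1) + Pi.single 2 (X ^ j * w 2) := by
    ext1 l
    fin_cases l <;> simp [hw]
  rw [e]
  exact add_mem (AddSubgroup.mem_sup_left (add_mem (AddSubgroup.mem_sup_left ⟨w 0, trivial, rfl⟩)
    (AddSubgroup.mem_sup_right ⟨w 1, trivial, rfl⟩))) (AddSubgroup.mem_sup_right ⟨w 2, trivial, rfl⟩)

omit [IsDomain P] [Infinite P] in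
theorem rho_mem_SS (g : KK P[X]) {j : ℕ} {v : VV P[X]} (hv : v ∈ SS P j) :
    rho P[X] g v ∈ SS P j := by
  intro i
  rw [rho_apply, Matrix.mulVec, dotProduct]
  exact Finset.dvd_sum fun l _ => Dvd.dvd.mul_left (hv l) _

/-- The part of `Γ` over `s ^ j V`. -/
def WS {Γ : Type} [Group Γ] {c : Cm (rho P[X])} (ι : Γ →* c.G) (j : ℕ) : Subgroup Γ where
  carrier := {γ | ∃ v ∈ SS P j, ι γ = c.inV v}
  one_mem' := ⟨0, zero_mem _, by rw [map_one, Cm.inV_zero]⟩
  mul_mem' := by
    rintro a b ⟨v, hv, ha⟩ ⟨w, hw, hb⟩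
    exact ⟨v + w, add_mem hv hw, by rw [map_mul, ha, hb, Cm.inV_add]⟩
  inv_mem' := by
    rintro a ⟨v, hv, ha⟩
    refine ⟨-v, neg_mem hv, ?_⟩
    rw [map_inv, ha, inv_eq_iff_mul_eq_one, ← Cm.inV_add, add_neg_cancel, Cm.inV_zero]

theorem len_low {Γ : Type} [Group Γ] (k : ℕ) (ι : Γ →* (cr (X ^ k : P[X])).G)
    (hι : Function.Injective ι) [ι.range.FiniteIndex] : Len Γ (rad ι) k := by
  have hr : ∀ w : VV P[X], (cr (X ^ k : P[X])).r w ∈ SS P k := fun w i => Dvd.intro _ rfl
  have hinv : ∀ v : VV P[X], ((cr (X ^ k : P[X])).inV v)⁻¹ = (cr (X ^ k : P[X])).inV (-v) :=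
    fun v => by rw [inv_eq_iff_mul_eq_one, ← Cm.inV_add, add_neg_cancel, Cm.inV_zero]
  refine ⟨fun i => WS ι (k - i), fun i => ⟨?_⟩, ?_, ?_, ?_, ?_, ?_, ?_⟩
  · rintro a ⟨v, hv, ha⟩ g
    exact ⟨_, rho_mem_SS (ι g).k hv, by rw [map_mul, map_mul, map_inv, ha, Cm.conj_inV]⟩
  · rintro i j hij a ⟨v, hv, ha⟩
    exact ⟨v, fun l => (pow_dvd_pow _ (by omega)).trans (hv l), ha⟩
  · rintro i a ⟨v, -, ha⟩
    rw [mem_rad, ha]; rfl
  · intro x hx
    obtain ⟨w, hw⟩ := (cr (X ^ k : P[X])).exists_add_self (ι x).mem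
    refine ⟨_, hr w, Cm.G.ext ?_ ?_⟩
    · rw [map_mul, Cm.mul_d, mem_rad.1 hx, act_one, hw, Cm.inV_d]
    · rw [map_mul, Cm.mul_k, mem_rad.1 hx, one_mul, Cm.inV_k]
  · obtain ⟨T, hT, hc⟩ := cov_pre ι.range (cr (X ^ k : P[X])).inD Cm.inD_add
    refine ⟨ι ⁻¹' ((fun d => (cr (X ^ k : P[X])).inD (d + d)) '' T),
      (hT.image _).preimage hι.injOn, ?_⟩
    rintro w ⟨v, hv, hw⟩
    choose v' hv' using mem_SS.1 hv
    have e : v = (cr (X ^ k : P[X])).r v' := funext hv'
    obtain ⟨s, hs, x, hx⟩ := hc ⟨_, (cr (X ^ k : P[X])).bb_mem v'⟩ trivial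
    refine ⟨w * (x * x)⁻¹, ⟨s, hs, ?_⟩, x, by rw [mem_rad, hx]; rfl, by group⟩
    rw [map_mul, map_inv, eq_mul_inv_iff_mul_eq, map_mul, hx, hw]
    simp only [← Cm.inD_add]
    refine Cm.G.ext ?_ rfl
    rw [Cm.inD_d, Cm.inV_d, e, ← Cm.bb_add_bb]
    simp only [AddSubgroup.coe_add, AddSubgroup.coe_sub]
    abel
  · intro i hi
    have hadd : ∀ a b : P, (cr (X ^ k : P[X])).inV (Pi.single 0 (X ^ (k - (i + 1)) * C (a + b))) =
        (cr (X ^ k : P[X])).inV (Pi.single 0 (X ^ (k - (i + 1)) * C a)) *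
          (cr (X ^ k : P[X])).inV (Pi.single 0 (X ^ (k - (i + 1)) * C b)) := by
      intro a b
      rw [← Cm.inV_add, ← Pi.single_add, map_add, mul_add]
    have hinf := (cov_pre ι.range (fun a : P =>
      (cr (X ^ k : P[X])).inV (Pi.single 0 (X ^ (k - (i + 1)) * C a))) hadd).infinite
    let f := hinf.natEmbedding
    choose u hu using fun n => (mem_pre.1 (f n).2)
    refine ⟨u, fun n => ⟨_, fun l => ?_, hu n⟩, ?_⟩
    · by_cases hl : l = 0
      · subst hl; simp only [Fin.isValue, SetLike.coe_sort_coe, X_pow_mul_C, Pi.single_eq_same, dvd_mul_left]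
      · simp only [Fin.isValue, SetLike.coe_sort_coe, X_pow_mul_C, ne_eq, hl, not_false_eq_true, Pi.single_eq_of_ne, dvd_zero]
    · rintro n n' ⟨v, hv, e⟩
      rw [map_mul, map_inv, hu, hu, hinv, ← Cm.inV_add] at e
      have e2 := congrFun (Cm.inV_injective e) 0
      have h3 := hv 0
      rw [← e2] at h3
      simp only [Pi.add_apply, Pi.neg_apply, Pi.single_eq_same] at h3
      have h4 : -(X ^ (k - (i + 1)) * C (f n).1) + X ^ (k - (i + 1)) * C (f n').1 =
          (X : P[X]) ^ (k - (i + 1)) * C ((f n').1 - (f n).1) := by rw [map_sub]; ring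
      have h5 : k - i = (k - (i + 1)) + 1 := by omega
      rw [h4, h5, pow_succ, mul_dvd_mul_iff_left (pow_ne_zero _ X_ne_zero), X_dvd_iff,
        coeff_C_zero, sub_eq_zero] at h3
      exact (f.injective (Subtype.ext h3)).symm
  · have hadd : ∀ a b : P[X], (cr (X ^ k : P[X])).inK (xx ne01 (X ^ k * (a + b))) =
        (cr (X ^ k : P[X])).inK (xx ne01 (X ^ k * a)) *
          (cr (X ^ k : P[X])).inK (xx ne01 (X ^ k * b)) := by
      intro a b
      rw [mul_add, xx_add, map_mul]
    obtain ⟨a, ⟨n, hn⟩, ha0⟩ :=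
      (cov_pre ι.range (fun a : P[X] => (cr (X ^ k : P[X])).inK (xx ne01 (X ^ k * a)))
        hadd).infinite.exists_notMem_finite (Set.finite_singleton 0)
    refine ⟨n, ?_, ?_, ?_⟩
    · rw [mem_rad, hn, Cm.inK_k, ← xx_zero ne01]
      exact fun h => mul_ne_zero (pow_ne_zero _ X_ne_zero) ha0 (xx_injective ne01 h)
    · rw [mem_rad, map_mul, hn, Cm.mul_k, Cm.inK_k, ← xx_add, add_self_two, xx_zero]
    · rintro i w ⟨v, -, hw⟩
      refine ⟨Pi.single 0 (X ^ k * a * v 1), fun l => ?_, ?_⟩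
      · by_cases hl : l = 0
        · subst hl; simp only [tsub_zero, Fin.isValue, mul_assoc, Pi.single_eq_same, dvd_mul_right]
        · simp only [tsub_zero, Fin.isValue, ne_eq, hl, not_false_eq_true, Pi.single_eq_of_ne, dvd_zero]
      · rw [map_mul, map_mul, map_mul, map_inv, map_inv, hw, Cm.conj_inV, hinv, ← Cm.inV_add, hn,
          Cm.inK_k, rho_xx]
        congr 1
        abel

/-- (Up) -/
theorem len_up (hP : ∀ c : P, c ≠ 0 → Cov (Ideal.span {c}).toAddSubgroup ⊤) {Γ : Type} [Group Γ]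
    (k : ℕ) (ι : Γ →* (cr (X ^ k : P[X])).G) (hι : Function.Injective ι)
    [ι.range.FiniteIndex] : ¬ Len Γ (rad ι) (k + 1) := by
  rintro ⟨W, hN, hmono, hA, hsq, ⟨S, hS, hcov⟩, hinf, n, hnA, hnn, hn⟩
  have hz := snd_eq_zero ι W hN hA hS hcov hnA hnn hn
  let U : ℕ → AddSubgroup (VV P[X]) := fun m => (dpart ι (W m) (hA m)).comap aaHom
  have hU0 : Cov (U 0) (SS P k) := by
    obtain ⟨T, hT, hc⟩ := cov_pre ι.range (cr (X ^ k : P[X])).inD Cm.inD_add
    choose f hf using fun d : (cr (X ^ k : P[X])).D => (cr (X ^ k : P[X])).exists_add_self d.2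
    refine ⟨(fun d => (cr (X ^ k : P[X])).r (f d)) '' T, hT.image _, fun v hv => ?_⟩
    choose v' hv' using mem_SS.1 hv
    have e : v = (cr (X ^ k : P[X])).r v' := funext hv'
    obtain ⟨s, hs, x, hx⟩ := hc ⟨_, (cr (X ^ k : P[X])).bb_mem v'⟩ trivial
    have hxr : x ∈ rad ι := by rw [mem_rad, hx]; rfl
    refine ⟨_, ⟨s, hs, rfl⟩, x * x, hsq x hxr, ?_⟩
    rw [map_mul, hx, Cm.mul_d, Cm.inD_k, act_one, Cm.inD_d]
    change _ = aa _
    rw [aa_sub, ← hf, e, ← Cm.bb_add_bb]
    simp only [AddSubgroup.coe_sub]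
    abel
  have hUm : Monotone U := by
    rintro i j hij v ⟨w, hw, e⟩
    exact ⟨w, hmono hij hw, e⟩
  have hC : ∀ m, ∃ j ≤ k, U m ≤ SS P j ∧ Cov (U m) (SS P j) := by
    intro m
    refine lemC hP k (U m) (fun i j h => ⟨_, cov_pre ι.range
      (fun a => (cr (X ^ k : P[X])).inK (xx h a)) (inK_xx_add _ h), fun a ha u hu => ?_⟩)
      (hU0.mono (hUm (Nat.zero_le m)) le_rfl)
    have h1 := dpart_act (hN m) (hA m) ha hu
    change act _ _ (aa u) ∈ _ at h1
    rw [act_aa, rho_xx] at h1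
    have h2 : u + Pi.single i (a * u j) ∈ U m := h1
    simpa using sub_mem h2 hu
  choose j hjk hj1 hj2 using hC
  have hlt : ∀ i < k + 1, j (i + 1) < j i := by
    intro i hi
    by_contra hle
    rw [not_lt] at hle
    obtain ⟨u, hu, hinj⟩ := hinf i hi
    choose v hv using fun m => (cr (X ^ k : P[X])).exists_aa_of_snd (ι (u m)).mem (hz _ (hu m))
    have hvU : ∀ m, v m ∈ SS P (j i) := fun m l =>
      (pow_dvd_pow _ hle).trans (hj1 (i + 1) (⟨u m, hu m, hv m⟩ : v m ∈ U (i + 1)) l)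
    obtain ⟨a, b, hab, w, hw, e⟩ := (hj2 i).exists_ne v hvU
    refine hab (hinj a b ?_)
    have : w = (u a)⁻¹ * u b := by
      apply hι
      have ka := mem_rad.1 (hA _ (hu a))
      have kb := mem_rad.1 (hA _ (hu b))
      refine Cm.G.ext ?_ ?_
      · rw [e, map_mul, map_inv, Cm.mul_d, Cm.inv_d, Cm.inv_k, ka, inv_one, act_one, act_one, hv, hv]
        change aa _ = _
        rw [aa_sub]; abel
      · rw [map_mul, map_inv, Cm.mul_k, Cm.inv_k, ka, kb, mem_rad.1 (hA _ hw)]; simp
    exact this ▸ hw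
  have hd : ∀ i ≤ k + 1, j i + i ≤ k := by
    intro i
    induction i with
    | zero => intro _; exact hjk 0
    | succ i ih =>
      intro hi
      have h1 := ih (by omega)
      have h2 := hlt i (by omega)
      omega
  have := hd (k + 1) le_rfl
  omega

theorem not_virtIso (hP : ∀ c : P, c ≠ 0 → Cov (Ideal.span {c}).toAddSubgroup ⊤) {k l : ℕ}
    (hkl : k ≠ l) : ¬ VirtIso (cr (X ^ k : P[X])).G (cr (X ^ l : P[X])).G := by
  intro h
  obtain ⟨Γ, _, ι₁, ι₂, h1, h2, f1, f2⟩ := emb_of_virtIso (icc_G _) (icc_G _) h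
  have n1 : (rad ι₁).Normal := MonoidHom.normal_ker _
  have n2 : (rad ι₂).Normal := MonoidHom.normal_ker _
  have e : rad ι₁ = rad ι₂ :=
    le_antisymm (le_rad ι₂ _ fun x hx y hy => rad_comm h1 hx hy)
      (le_rad ι₁ _ fun x hx y hy => rad_comm h2 hx hy)
  rcases lt_or_gt_of_ne hkl with hlt | hlt
  · exact len_up hP k ι₁ h1 (e ▸ (len_low l ι₂ h2).mono hlt)
  · exact len_up hP l ι₂ h2 (e ▸ (len_low k ι₁ h1).mono hlt)

end Poly

theorem cov_poly {F : Type} [Field F] [Finite F] (c : F[X]) (hc : c ≠ 0) :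
    Cov (Ideal.span {c}).toAddSubgroup ⊤ := by
  have : Finite (F[X] ⧸ Ideal.span {c}) := by
    have := (AdjoinRoot.powerBasis hc).finite
    exact Module.finite_of_finite F (M := AdjoinRoot c)
  refine ⟨Set.range (Quotient.out : F[X] ⧸ Ideal.span {c} → F[X]), Set.finite_range _,
    fun v _ => ⟨_, ⟨Ideal.Quotient.mk _ v, rfl⟩, ?_⟩⟩
  exact Ideal.Quotient.eq.1 (Ideal.Quotient.mk_out _).symm

theorem adjoin_two (F : Type) [Field F] :
    Algebra.adjoin F {(X : F[X][X]), C X} = ⊤ := by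
  rw [eq_top_iff]
  rintro p -
  have hX : (X : F[X][X]) ∈ Algebra.adjoin F {(X : F[X][X]), C X} :=
    Algebra.subset_adjoin (by simp)
  have hC : (C X : F[X][X]) ∈ Algebra.adjoin F {(X : F[X][X]), C X} :=
    Algebra.subset_adjoin (by simp)
  have h1 : ∀ q : F[X], (C q : F[X][X]) ∈ Algebra.adjoin F {(X : F[X][X]), C X} := by
    intro q
    induction q using Polynomial.induction_on' with
    | add a b ha hb => rw [map_add]; exact add_mem ha hb
    | monomial n a =>
      rw [← C_mul_X_pow_eq_monomial, map_mul, map_pow]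
      exact mul_mem (Subalgebra.algebraMap_mem _ a) (pow_mem hC n)
  induction p using Polynomial.induction_on' with
  | add a b ha hb => exact add_mem ha hb
  | monomial n a =>
    rw [← C_mul_X_pow_eq_monomial]
    exact mul_mem (h1 a) (pow_mem hX n)

theorem countable_poly {P : Type} [CommRing P] [Countable P] : Countable P[X] := by
  refine Function.Surjective.countable
    (f := fun l : ℕ →₀ P => l.sum fun n a => monomial n a) fun p => ?_
  induction p using Polynomial.induction_on' with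
  | add a b ha hb =>
    obtain ⟨x, rfl⟩ := ha
    obtain ⟨y, rfl⟩ := hb
    exact ⟨x + y, Finsupp.sum_add_index' (by simp) (by simp)⟩
  | monomial n a => exact ⟨Finsupp.single n a, Finsupp.sum_single_index (by simp)⟩

end Pool.Agent.MP_434e52_an
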