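import Pool.Agent.MP_434e52_an.Defs

attribute [-instance]
  instStarHomClassOfSelfAdjointDecomposeOfStarOrderedRingOfStarModuleOfOrderHomClassOfLinearMapClassComplex
  IsSemitopologicalSemiring.toContinuousAdd NonarchimedeanAddGroup.toIsTopologicalAddGroup
  SubringClass.toRing AddSubgroup.seminormedAddCommGroup FiniteDimensional.proper_real
  AlgHom.instNonUnitalAlgHomClassOfAlgHomClass Valued.toUniformSpace
  Submodule.instHasOrthogonalProjectionOrthogonal littleWedderburn MonTypeEquivalenceMon.monMonoid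
  CoalgHomClass.toSemilinearMapClass AddMonoidWithOne.toAddMonoid
  NonUnitalNonAssocRing.toAddCommGroup NonUnitalSemiring.toNonUnitalNonAssocSemiring
  MulSemiringAction.toDistribMulAction IsTopologicalSemiring.toContinuousAdd
  Action.FintypeCat.instMulActionObjFiniteOf NonUnitalRingHomClass.toMulHomClass
  IsIsometricSMul.to_continuousConstSMul Nontrivial.to_nonempty SubsemiringClass.toSemiring
  AddQuantale.instAddLeftMono TotallySeparatedSpace.t2Space
  NonAssocSemiring.toNonUnitalNonAssocSemiring IsValuativeTopology.instIsTopologicalAddGroup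
  NormedCommRing.toCommRing NonUnitalNormedCommRing.toNonUnitalSeminormedCommRing
  MonoidWithZero.toMulZeroOneClass NonUnitalNonAssocSemiring.toMulZeroClass RKHS.instFunLike
  SubsemiringClass.toCommSemiring RightPreLieAlgebra.toModule
  LinearMap.continuousLinearMapClassOfFiniteDimensional LeftPreLieAlgebra.toModule
  NonUnitalNormedCommRing.toNonUnitalCommRing NonUnitalSubringClass.toNonUnitalRing
  IdemSemiring.toSemiring SeminormedCommRing.toCommRing NormedRing.toNonUnitalNormedRing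
  AddCommGroupWithOne.toAddGroupWithOne EuclideanDomain.toCommRing LieRing.toAddCommGroup
  BoundedContinuousMapClass.toContinuousMapClass LieAdmissibleRing.toNonUnitalNonAssocRing
  SetLike.GradeZero.instSemiring NonUnitalNonAssocCommSemiring.toNonUnitalNonAssocSemiring
  SetLike.GradeZero.instRing instTopologicalSpaceSubtype AddCommMonoidWithOne.toAddCommMonoid
  NonUnitalSubsemiringClass.toNonUnitalNonAssocSemiring
  ContinuousSemilinearEquivClass.continuousSemilinearMapClass CategoryTheory.CommGrpObj.toGrpObj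
  NumberField.to_charZero SetLike.GradeZero.instCommSemiring NonUnitalSeminormedRing.toNonUnitalRing
  SemilinearIsometryClass.toContinuousSemilinearMapClass BooleanRing.toCommRing
  IdemSemiring.toCanonicallyOrderedAdd NonAssocCommRing.toNonUnitalNonAssocCommRing
  BooleanRing.toRing NonUnitalAlgSemiHomClass.toDistribMulActionSemiHomClass
  RingHomClass.toLinearMapClassNNRat AddSubgroup.instIsTopologicalAddGroupSubtypeMem
  NormedDivisionRing.toNormedRing Unique.instSubsingleton IsometryClass.toContinuousMapClass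
  SeminormedCommGroup.toPseudoMetricSpace NonUnitalSeminormedCommRing.toNonUnitalCommRing
  SeminormedRing.toNonUnitalSeminormedRing RingHomClass.toLinearMapClassRat
  SubringClass.toSubsemiringClass DivisionCommMonoid.toDivisionMonoid LieAlgebra.toModule
  SubringClass.toSeminormedCommRing AddQuantale.instAddRightMono
  TestFunctionClass.instContinuousMapClass
  ContinuousMonoidHom.instCoeOutOfMonoidHomClassOfContinuousMapClass
  NormedDivisionRing.toDivisionRing NonUnitalSubalgebraClass.nonUnitalSeminormedRing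
  LinearOrderedAddCommMonoidWithTop.toAddCommMonoid AddCommGroupWithOne.toAddCommGroup
  IsStarProjection.instTrivialStarOfStarOrderedRing IdemCommSemiring.toCommSemiring
  SemigroupWithZero.toMulZeroClass NonAssocCommRing.toNonAssocRing MulOne.toOne
  NonUnitalStarSubalgebra.nonUnitalCStarAlgebra MulZeroOneClass.toMulZeroClass
  LieRinehartAlgebra.toIsScalarTower MulSemiringActionSemiHomClass.toDistribMulActionSemiHomClass
  ZeroAtInftyContinuousMapClass.toContinuousMapClass instCoeTCOfCoe CommGroup.toGroup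
  DivisionRing.toDivisionSemiring AlgHom.instContinuousLinearMapClassOfAlgHomClass
  RightPreLieRing.toNonUnitalNonAssocRing GrpTypeEquivalenceGrp.grpGroup
  LeftPreLieRing.toNonUnitalNonAssocRing LinearOrderedAddCommGroupWithTop.toAddCommMonoid
  Quantale.instMulRightMono AddSubgroup.normedAddCommGroup instCoeHTCTOfCoeTailOfCoeHTC
  TopologicalSpace.UpgradedIsCompletelyPseudoMetrizableSpace.toPseudoMetricSpace Bialgebra.toAlgebra
  ContDiffMapSupportedInClass.instContinuousMapClass NormedField.toNorm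
  CentroidHomClass.toAddMonoidHomClass instCoeHTCOfCoeHeadOfCoeOTC NonUnitalNormedRing.toNorm
  BialgEquivClass.toBialgHomClass IsUniformGroup.instUniformContinuousConstSMul

set_option autoImplicit false

/-!
Unitary representations: fixed vectors, angles between fixed spaces, the cube lemma.
-/


namespace Pool.Agent.MP_434e52_an

open Finset

noncomputable section

variable {G E : Type*} [Group G] [NormedAddCommGroup E] [InnerProductSpace ℂ E]

/-- the real part of the inner product -/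
def ri (x y : E) : ℝ := (inner ℂ x y).re

theorem ri_comm (x y : E) : ri x y = ri y x := inner_re_symm (𝕜 := ℂ) x y
theorem ri_self (x : E) : ri x x = ‖x‖ ^ 2 := inner_self_eq_norm_sq (𝕜 := ℂ) x
theorem ri_add (x y z : E) : ri x (y + z) = ri x y + ri x z := by simp [ri]
theorem ri_sub (x y z : E) : ri x (y - z) = ri x y - ri x z := by simp [ri]
theorem add_ri (x y z : E) : ri (x + y) z = ri x z + ri y z := by simp [ri]
theorem sub_ri (x y z : E) : ri (x - y) z = ri x z - ri y z := by simp [ri]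
theorem ri_smul (c : ℝ) (x y : E) : ri x ((c : ℂ) • y) = c * ri x y := by simp [ri]
theorem smul_ri (c : ℝ) (x y : E) : ri ((c : ℂ) • x) y = c * ri x y := by
  rw [ri_comm, ri_smul, ri_comm]
theorem ri_le (x y : E) : ri x y ≤ ‖x‖ * ‖y‖ := re_inner_le_norm (𝕜 := ℂ) x y
theorem ri_nonneg (x : E) : 0 ≤ ri x x := (sq_nonneg _).trans_eq (ri_self x).symm

theorem cm_ap {a b : E →L[ℂ] E} (h : Commute a b) (x : E) : a (b x) = b (a x) :=
  congrArg (fun T : E →L[ℂ] E => T x) h.eq

/-- the angle condition for two projections -/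
def Ang (e : ℝ) (p q : E →L[ℂ] E) : Prop :=
  ∀ v, 0 ≤ 2 * ri (v - p v) (v - q v) + e * (‖v - p v‖ ^ 2 + ‖v - q v‖ ^ 2)

theorem Ang.symm {e : ℝ} {p q : E →L[ℂ] E} (h : Ang e p q) : Ang e q p := fun v => by
  have := h v
  rw [ri_comm]
  linarith

variable [CompleteSpace E]

theorem pr_ri {p : E →L[ℂ] E} (h : IsStarProjection p) (x y : E) : ri (p x) y = ri x (p y) := by
  unfold ri
  rw [← ContinuousLinearMap.adjoint_inner_right, ← ContinuousLinearMap.star_eq_adjoint,
    h.isSelfAdjoint.star_eq]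

theorem pr_pr {p : E →L[ℂ] E} (h : IsStarProjection p) (x : E) : p (p x) = p x :=
  congrArg (fun T : E →L[ℂ] E => T x) h.isIdempotentElem.eq

theorem pr_split {z : E →L[ℂ] E} (h : IsStarProjection z) (x y : E) :
    ri x y = ri (z x) (z y) + ri (x - z x) (y - z y) := by
  simp only [ri_sub, sub_ri, pr_ri h, pr_pr h]
  ring

theorem pr_sq {z : E →L[ℂ] E} (h : IsStarProjection z) (x : E) :
    ‖x‖ ^ 2 = ‖z x‖ ^ 2 + ‖x - z x‖ ^ 2 := by
  simp only [← ri_self]
  exact pr_split h x x

theorem ang_of {p q z : E →L[ℂ] E} (hp : IsStarProjection p) (hq : IsStarProjection q)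
    (hz : IsStarProjection z) (zp : Commute z p) (zq : Commute z q)
    (h1 : ∀ v, p (q (z v)) = q (p (z v))) {k e : ℝ} (he : 0 ≤ e) (he1 : e ≤ 1) (hk : k ≤ e ^ 2)
    (h2 : ∀ v, z v = 0 → p (q (p v)) = (k : ℂ) • p v) : Ang e p q := by
  intro v
  have e1 : ∀ {a : E →L[ℂ] E}, Commute z a → z (v - a v) = z v - a (z v) := fun h => by
    rw [map_sub, cm_ap h]
  have e2 : ∀ {a : E →L[ℂ] E}, Commute z a →
      v - a v - (z v - a (z v)) = (v - z v) - a (v - z v) := fun _ => by
    rw [map_sub]; abel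
  rw [pr_split hz, pr_sq hz (v - p v), pr_sq hz (v - q v), e1 zp, e1 zq, e2 zp, e2 zq]
  have hw : z (v - z v) = 0 := by rw [map_sub, pr_pr hz, sub_self]
  generalize v - z v = w at hw
  have a1 : 0 ≤ ri (z v - p (z v)) (z v - q (z v)) := by
    have h0 := pr_ri hq.one_sub ((1 - p) (z v)) ((1 - q) ((1 - p) (z v)))
    have h3 : (1 - q) ((1 - p) (z v)) = (1 - p) ((1 - q) (z v)) := by
      change z v - p (z v) - q (z v - p (z v)) = z v - q (z v) - p (z v - q (z v))
      rw [map_sub, map_sub, h1]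
      abel
    rw [pr_pr hq.one_sub] at h0
    have h4 := ri_nonneg ((1 - q) ((1 - p) (z v)))
    rw [h0, h3, ← pr_ri hp.one_sub, pr_pr hp.one_sub] at h4
    exact h4
  have a2 : 0 ≤ 2 * ri (w - p w) (w - q w) + e * (‖w - p w‖ ^ 2 + ‖w - q w‖ ^ 2) := by
    have b1 : ‖q (p w)‖ ≤ e * ‖p w‖ := by
      refine abs_le_of_sq_le_sq' ?_ (by positivity) |>.2
      rw [← ri_self, pr_ri hq, pr_pr hq, ← pr_pr hp w, pr_ri hp, pr_pr hp, h2 w hw, ri_smul, ri_self,
        mul_pow]
      exact mul_le_mul_of_nonneg_right hk (sq_nonneg _)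
    have b2 : ri (p w) (q w) ≤ e * ‖p w‖ * ‖q w‖ := by
      rw [← pr_pr hq w, ← pr_ri hq, pr_pr hq]
      exact (ri_le _ _).trans (mul_le_mul_of_nonneg_right b1 (norm_nonneg _))
    have b4 : 0 ≤ e * (‖p w‖ ^ 2 + ‖q w‖ ^ 2) - 2 * ri (p w) (q w) := by
      nlinarith [mul_nonneg he (sq_nonneg (‖p w‖ - ‖q w‖))]
    have b5 := mul_nonneg (sub_nonneg.2 he1) b4
    have b3 := ri_nonneg (((1 + e : ℝ) : ℂ) • w - (p w + q w))
    have c1 : ri w (p w) = ri (p w) (p w) := by rw [pr_ri hp, pr_pr hp]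
    have c2 : ri w (q w) = ri (q w) (q w) := by rw [pr_ri hq, pr_pr hq]
    simp only [← ri_self] at b5 ⊢
    simp only [ri_sub, sub_ri, ri_add, add_ri, ri_smul, smul_ri, ri_comm (p w) w, ri_comm (q w) w,
      ri_comm (q w) (p w), c1, c2] at b3 ⊢
    refine nonneg_of_mul_nonneg_right (a := 1 + e) ?_ (by linarith)
    nlinarith
  have := mul_nonneg he (add_nonneg (sq_nonneg ‖z v - p (z v)‖) (sq_nonneg ‖z v - q (z v)‖))
  linarith

theorem gap3 {p q r : E →L[ℂ] E} (hp : IsStarProjection p) (hq : IsStarProjection q)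
    (hr : IsStarProjection r) (h1 : Ang (3 / 8) p q) (h2 : Ang (3 / 8) r q) (h3 : Ang (3 / 8) r p)
    {v : E} {d : ℝ} (d1 : ‖v - p v‖ ≤ d) (d2 : ‖v - q v‖ ≤ d) (d3 : ‖v - r v‖ ≤ d) :
    ∃ η, p η = η ∧ q η = η ∧ r η = η ∧ ‖v - η‖ ≤ 4 * d := by
  set T : E →L[ℂ] E := (1 - p) + (1 - q) + (1 - r) with hT
  have Ta : ∀ u, T u = (u - p u) + (u - q u) + (u - r u) := fun u => rfl
  have o : ∀ {a : E →L[ℂ] E}, IsStarProjection a → ∀ u, ri (u - a u) u = ‖u - a u‖ ^ 2 :=
    fun ha u => by
      simp only [← ri_self, ri_sub, sub_ri, pr_ri ha, pr_pr ha]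
      ring
  have Q : ∀ u, ri (T u) u = ‖u - p u‖ ^ 2 + ‖u - q u‖ ^ 2 + ‖u - r u‖ ^ 2 := fun u => by
    rw [Ta, add_ri, add_ri, o hp, o hq, o hr]
  have Ts : ∀ u w, ri (T u) w = ri u (T w) := fun u w => by
    simp only [Ta, ri_sub, sub_ri, ri_add, add_ri, pr_ri hp, pr_ri hq, pr_ri hr]
  have T2 : ∀ u, ri (T u) u ≤ 4 * ‖T u‖ ^ 2 := fun u => by
    have a1 := h1 u
    have a2 := h2 u
    have a3 := h3 u
    rw [Q, Ta]
    generalize u - p u = x at *
    generalize u - q u = y at *
    generalize u - r u = z at *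
    simp only [← ri_self] at *
    simp only [ri_add, add_ri, ri_comm y x, ri_comm y z, ri_comm x z]
    linarith
  let K : Submodule ℂ E := (LinearMap.range (T : E →ₗ[ℂ] E))ᗮ
  have g : ∀ w ∈ Kᗮ, ‖w‖ ^ 2 ≤ 4 * ri (T w) w := by
    intro w hw
    rw [Submodule.orthogonal_orthogonal_eq_closure] at hw
    refine closure_minimal (t := {w | ‖w‖ ^ 2 ≤ 4 * ri (T w) w}) ?_
      (isClosed_le (by fun_prop) (by unfold ri; fun_prop)) hw
    rintro _ ⟨u, rfl⟩
    change ‖T u‖ ^ 2 ≤ 4 * ri (T (T u)) (T u)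
    have a1 : 0 ≤ ri (T (T u - ((1 / 4 : ℝ) : ℂ) • u)) (T u - ((1 / 4 : ℝ) : ℂ) • u) := by
      rw [Q]; positivity
    have a2 := T2 u
    rw [map_sub, map_smul] at a1
    simp only [ri_sub, sub_ri, ri_smul, smul_ri, Ts (T u) u, ri_self] at a1
    linarith
  have hη := K.starProjection_apply_mem v
  have hw := K.sub_starProjection_mem_orthogonal v
  generalize K.starProjection v = η at hη hw
  have f : ri (T η) η = 0 := congrArg Complex.re (hη _ ⟨η, rfl⟩)
  rw [Q] at f
  have z : ∀ x : E, ‖η - x‖ ^ 2 ≤ 0 → x = η := fun x h =>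
    (sub_eq_zero.1 (norm_eq_zero.1 (pow_eq_zero_iff two_ne_zero |>.1
      (h.antisymm (sq_nonneg _))))).symm
  have s1 := sq_nonneg ‖η - p η‖
  have s2 := sq_nonneg ‖η - q η‖
  have s3 := sq_nonneg ‖η - r η‖
  have f1 := z (p η) (by linarith)
  have f2 := z (q η) (by linarith)
  have f3 := z (r η) (by linarith)
  refine ⟨η, f1, f2, f3, ?_⟩
  have := g _ hw
  have c : ∀ a : E →L[ℂ] E, a η = η → ‖v - a v‖ ≤ d → ‖v - η - a (v - η)‖ ^ 2 ≤ d ^ 2 :=
    fun a h h' => by
      rw [map_sub, h, sub_sub_sub_cancel_right]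
      exact pow_le_pow_left₀ (norm_nonneg _) h' 2
  rw [Q] at this
  have h0 : 0 ≤ d := (norm_nonneg _).trans d1
  refine (abs_le_of_sq_le_sq' ?_ (by positivity)).2
  nlinarith [c p f1 d1, c q f2 d2, c r f3 d3]

/-- the average of the operators of a finite family -/
def av {A : Type*} [Fintype A] (π : G →* (E →L[ℂ] E)) (x : A → G) : E →L[ℂ] E :=
  (((Fintype.card A : ℝ)⁻¹ : ℝ) : ℂ) • ∑ a, π (x a)

variable {π : G →* (E →L[ℂ] E)} (hu : ∀ g, π g ∈ unitary (E →L[ℂ] E))

include hu in
theorem un_norm (g : G) (v : E) : ‖π g v‖ = ‖v‖ := ContinuousLinearMap.norm_map_of_mem_unitary (hu g) v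

include hu in
theorem un_star (g : G) : star (π g) = π g⁻¹ := by
  rw [← mul_one (star (π g)), ← map_one π, ← mul_inv_cancel g, map_mul, ← mul_assoc,
    Unitary.star_mul_self_of_mem (hu g), one_mul]

section

variable {A : Type*} [Fintype A] [AddCommGroup A] {x : A → G} (hx : ∀ a b, x (a + b) = x a * x b)

omit [Fintype A] in
include hx in
theorem hx_zero : x 0 = 1 := by simpa using hx 0 0

omit [CompleteSpace E] in
theorem av_const (T : E →L[ℂ] E) : (((Fintype.card A : ℝ)⁻¹ : ℝ) : ℂ) • ∑ _a : A, T = T := by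
  rw [sum_const, card_univ, ← Nat.cast_smul_eq_nsmul ℂ, smul_smul]
  simp

omit [CompleteSpace E] in
include hx in
theorem mul_av (a : A) : π (x a) * av π x = av π x := by
  unfold av
  rw [mul_smul_comm, mul_sum, ← Equiv.sum_comp (Equiv.addLeft a) fun b => π (x b)]
  simp only [← map_mul, ← hx, Equiv.coe_addLeft]

omit [CompleteSpace E] in
include hx in
theorem av_mul (a : A) : av π x * π (x a) = av π x := by
  unfold av
  rw [smul_mul_assoc, sum_mul, ← Equiv.sum_comp (Equiv.addRight a) fun b => π (x b)]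
  simp only [← map_mul, ← hx, Equiv.coe_addRight]

include hu hx in
theorem av_pr : IsStarProjection (av π x) := by
  constructor
  · change av π x * av π x = _
    nth_rw 1 [av]
    rw [smul_mul_assoc, sum_mul]
    simp only [mul_av hx]
    exact av_const _
  · change star (av π x) = _
    unfold av
    rw [star_smul, star_sum, ← Equiv.sum_comp (Equiv.neg A) fun b => π (x b)]
    congr 1
    · simp
    · refine sum_congr rfl fun a _ => ?_
      rw [un_star hu, eq_comm, Equiv.neg_apply, eq_inv_of_mul_eq_one_left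
        ((hx (-a) a).symm.trans (by rw [neg_add_cancel, hx_zero hx]))]

omit [CompleteSpace E] in
include hx in
theorem av_fix {η : E} (h : av π x η = η) (a : A) : π (x a) η = η := by
  rw [← h]
  exact congrArg (fun T : E →L[ℂ] E => T η) (mul_av hx a)

omit [CompleteSpace E] in
theorem av_near (v : E) : ‖v - av π x v‖ ≤ (Fintype.card A : ℝ)⁻¹ * ∑ a, ‖π (x a) v - v‖ := by
  have : v - av π x v = (((Fintype.card A : ℝ)⁻¹ : ℝ) : ℂ) • ∑ a, (v - π (x a) v) := by
    have := congrArg (fun T : E →L[ℂ] E => T v) (av_const (A := A) (1 : E →L[ℂ] E))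
    simp only [smul_apply, _root_.sum_apply, one_apply_eq_self] at this
    rw [sum_sub_distrib, smul_sub, this, av, smul_apply, _root_.sum_apply]
  rw [this, norm_smul, Complex.norm_real, Real.norm_of_nonneg (by positivity)]
  refine mul_le_mul_of_nonneg_left ((norm_sum_le _ _).trans_eq ?_) (by positivity)
  simp only [norm_sub_rev v]

omit [CompleteSpace E] in
theorem av_near' {v : E} {d : ℝ} (h : ∀ a, ‖π (x a) v - v‖ ≤ d) : ‖v - av π x v‖ ≤ d := by
  refine (av_near v).trans ?_
  have : (0 : ℝ) < Fintype.card A := by exact_mod_cast Fintype.card_pos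
  rw [inv_mul_le_iff₀ this]
  simpa using sum_le_card_nsmul univ _ d fun a _ => h a

omit [CompleteSpace E] [AddCommGroup A] in
theorem av_comm {T : E →L[ℂ] E} (h : ∀ a, Commute T (π (x a))) : Commute T (av π x) :=
  (Commute.sum_right _ _ _ fun a _ => h a).smul_right _

end

/-- two families whose commutators run through a central family -/
def Heis {A F : Type*} [AddCommGroup A] [AddCommGroup F] (x : A → G) (y : F → G) : Prop :=
  ∃ (z : A → G) (m : A → F → A), (∀ a b, z (a + b) = z a * z b) ∧ (∀ a c, Commute (z c) (x a)) ∧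
    (∀ b c, Commute (z c) (y b)) ∧ (∀ a b, x a * y b = y b * x a * z (m a b)) ∧
      ∀ b ≠ 0, Function.Bijective fun a => m a b

include hu in
theorem Heis.ang {A F : Type*} [Fintype A] [AddCommGroup A] [Fintype F] [AddCommGroup F] {x : A → G}
    {y : F → G} (h : Heis x y) (hx : ∀ a b, x (a + b) = x a * x b)
    (hy : ∀ a b, y (a + b) = y a * y b) (hF : 8 ≤ Fintype.card F) :
    Ang (3 / 8) (av π x) (av π y) := by
  obtain ⟨z, m, hz, zx, zy, hm, hb⟩ := h
  have zp := (av_comm fun c => (av_comm fun a => (zx a c).map π).symm).symm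
  have zq := (av_comm fun c => (av_comm fun a => (zy a c).map π).symm).symm
  refine ang_of (av_pr hu hx) (av_pr hu hy) (av_pr hu hz) zp zq (fun v => ?_)
    (k := (Fintype.card F : ℝ)⁻¹) (by norm_num) (by norm_num) ?_ fun v hv => ?_
  · have k : ∀ a b, π (x a) * (π (y b) * av π z) = π (y b) * (π (x a) * av π z) := fun a b => by
      rw [← mul_assoc, ← map_mul, hm, map_mul, mul_assoc, mul_av hz, map_mul, mul_assoc]
    have : av π x * (av π y * av π z) = av π y * (av π x * av π z) := by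
      generalize av π z = Z at k
      simp only [av, smul_mul_assoc, sum_mul, mul_smul_comm, mul_sum, k, smul_sum]
      rw [sum_comm]
      simp only [smul_comm (((Fintype.card A : ℝ)⁻¹ : ℝ) : ℂ)]
    exact congrArg (fun T : E →L[ℂ] E => T v) this
  · have : (8 : ℝ) ≤ Fintype.card F := by exact_mod_cast hF
    exact (inv_anti₀ (by norm_num) this).trans (by norm_num)
  · have k : ∀ b ≠ 0, av π x * π (y b) * av π x = av π x * π (y b) * av π x * av π z := by
      intro b hb0
      have k1 : ∀ a, av π x * π (y b) * av π x * π (z (m a b)) = av π x * π (y b) * av π x := by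
        intro a
        have c := (av_comm fun a' => (zx a' (m a b)).map π).eq
        have e : π (y b) * (π (z (m a b)) * π (x a)) = π (x a) * π (y b) := by
          rw [← map_mul, ← map_mul, ← map_mul, (zx a _).eq, hm, mul_assoc]
        rw [mul_assoc, ← c]
        nth_rw 2 [← mul_av hx a]
        rw [← mul_assoc (π (z _)), mul_assoc, ← mul_assoc (π (y b)), e, ← mul_assoc, ← mul_assoc,
          av_mul hx]
      unfold av at k1 ⊢
      rw [mul_smul_comm _ _ (∑ a, π (z a)), mul_sum _ fun a => π (z a),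
        ← (hb b hb0).sum_comp fun c => _ * π (z c)]
      simp only [k1]
      exact (av_const _).symm
    change (av π x * av π y * av π x) v = _
    nth_rw 2 [av]
    rw [mul_smul_comm, smul_mul_assoc, mul_sum, sum_mul, smul_apply, _root_.sum_apply,
      sum_eq_single 0 (fun b _ hb0 => by rw [k b hb0, mul_apply_eq_comp, hv, map_zero])
        (by simp), hx_zero hy, map_one, mul_one, (av_pr hu hx).isIdempotentElem.eq]

include hu in
/-- a vector almost fixed by three finite families is near a vector fixed by them -/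
theorem near_three {F M : Type*} [Fintype F] [AddCommGroup F] [Fintype M] [AddCommGroup M]
    {x y : F → G} {z : M → G} (hx : ∀ a b, x (a + b) = x a * x b)
    (hy : ∀ a b, y (a + b) = y a * y b) (hz : ∀ a b, z (a + b) = z a * z b)
    (hF : 8 ≤ Fintype.card F) (h1 : Heis x y) (h2 : Heis z y) (h3 : Heis z x) {v : E} {d : ℝ}
    (d1 : ∀ a, ‖π (x a) v - v‖ ≤ d) (d2 : ∀ a, ‖π (y a) v - v‖ ≤ d)
    (d3 : ∀ a, ‖π (z a) v - v‖ ≤ d) :
    ∃ η, (∀ a, π (x a) η = η) ∧ (∀ a, π (y a) η = η) ∧ (∀ a, π (z a) η = η) ∧ ‖v - η‖ ≤ 4 * d := by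
  obtain ⟨η, a, b, c, e⟩ := gap3 (av_pr hu hx) (av_pr hu hy) (av_pr hu hz) (h1.ang hu hx hy hF)
    (h2.ang hu hz hy hF) (h3.ang hu hz hx hF) (av_near' d1) (av_near' d2) (av_near' d3)
  exact ⟨η, av_fix hx a, av_fix hy b, av_fix hz c, e⟩

include hu in
/-- a bounded orbit gives a fixed vector -/
theorem fixed_near {η : E} {c : ℝ} (h : ∀ g, ‖π g η - η‖ ≤ c) :
    ∃ w, (∀ g, π g w = w) ∧ ‖w - η‖ ≤ c := by
  let : InnerProductSpace ℝ E := InnerProductSpace.complexToReal
  let C : Set E := ⋂ g, Metric.closedBall (π g η) c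
  have mC : ∀ z, z ∈ C ↔ ∀ g, ‖z - π g η‖ ≤ c := fun z => by
    simp only [C, Set.mem_iInter, Metric.mem_closedBall, dist_eq_norm]
  have cv : Convex ℝ C := convex_iInter fun g => convex_closedBall _ _
  obtain ⟨w, hw, hm⟩ := exists_norm_eq_iInf_of_complete_convex
    ⟨η, (mC η).2 fun g => by rw [norm_sub_rev]; exact h g⟩
    (isClosed_iInter fun g => Metric.isClosed_closedBall).isComplete cv 0
  refine ⟨w, fun g => ?_, by simpa using (mC w).1 hw 1⟩
  have h1 : π g w ∈ C := (mC _).2 fun k => by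
    have : π g w - π k η = π g (w - π (g⁻¹ * k) η) := by
      rw [map_sub, ← mul_apply_eq_comp, ← map_mul, mul_inv_cancel_left]
    rw [this, un_norm hu]
    exact (mC w).1 hw _
  have h2 : ‖0 - w‖ ≤ ‖0 - ((1 / 2 : ℝ) • π g w + (1 / 2 : ℝ) • w)‖ :=
    hm.trans_le (ciInf_le (f := fun z : C => ‖0 - (z : E)‖)
      ⟨0, Set.forall_mem_range.2 fun _ => norm_nonneg _⟩
      ⟨_, cv h1 hw (by norm_num) (by norm_num) (by norm_num)⟩)
  rw [zero_sub, zero_sub, norm_neg, norm_neg, ← smul_add, norm_smul,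
    Real.norm_of_nonneg (by norm_num)] at h2
  have h3 := parallelogram_law_with_norm ℂ (π g w) w
  rw [un_norm hu] at h3
  have h4 := norm_nonneg w
  have h5 : ‖π g w - w‖ ^ 2 ≤ 0 := by nlinarith
  exact sub_eq_zero.1 (norm_eq_zero.1 (pow_eq_zero_iff two_ne_zero |>.1
    (h5.antisymm (sq_nonneg _))))

section

variable {D : Type*} [AddCommGroup D] {ι : D → G} (hι : ∀ a b, ι (a + b) = ι a * ι b)
  (h4 : ∀ a : D, 4 • a = 0)

/-- the projection on the vectors fixed by one element -/
def qq (π : G →* (E →L[ℂ] E)) (ι : D → G) (y : D) : E →L[ℂ] E :=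
  av π fun k : ZMod 4 => ι (k.val • y)

/-- the projection on the vectors fixed by a list of elements -/
def qs (π : G →* (E →L[ℂ] E)) (ι : D → G) (l : List D) : E →L[ℂ] E := (l.map (qq π ι)).prod

include hι h4 in
theorem qq_hom (y : D) (k l : ZMod 4) : ι ((k + l).val • y) = ι (k.val • y) * ι (l.val • y) := by
  rw [← hι, ← add_nsmul, ZMod.val_add, ← nsmul_eq_mod_nsmul _ (h4 y)]

omit [CompleteSpace E] in
include hι in
theorem qq_comm (y y' : D) : Commute (qq π ι y) (qq π ι y') :=
  av_comm fun _ => (av_comm fun _ => Commute.map (by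
    change _ = _
    rw [← hι, ← hι, add_comm]) π).symm

omit [CompleteSpace E] in
include hι in
theorem qs_comm (y : D) (l : List D) : Commute (qq π ι y) (qs π ι l) :=
  Commute.list_prod_right _ _ fun T hT => by
    obtain ⟨y', -, rfl⟩ := List.mem_map.1 hT
    exact qq_comm hι y y'

include hu hι h4 in
theorem qq_pr (y : D) : IsStarProjection (qq π ι y) := av_pr hu (qq_hom hι h4 y)

include hu hι h4 in
theorem qs_all (l : List D) : IsStarProjection (qs π ι l) ∧
    (∀ y ∈ l, ∀ v, π (ι y) (qs π ι l v) = qs π ι l v) ∧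
      ∀ v, ‖v - qs π ι l v‖ ^ 2 ≤ (l.map fun y => ‖v - qq π ι y v‖ ^ 2).sum := by
  induction l with
  | nil => exact ⟨IsStarProjection.one _, by simp, by simp [qs]⟩
  | cons y l ih =>
    obtain ⟨a, b, c⟩ := ih
    have e : qs π ι (y :: l) = qq π ι y * qs π ι l := rfl
    have p := qq_pr hu hι h4 y
    rw [e]
    refine ⟨p.mul a (qs_comm hι y l), fun y' hy' v => ?_, fun v => ?_⟩
    · rcases List.mem_cons.1 hy' with rfl | h
      · have := av_fix (qq_hom hι h4 y') (pr_pr p (qs π ι l v)) 1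
        rwa [show (1 : ZMod 4).val = 1 from rfl, one_nsmul] at this
      · rw [(qs_comm hι y l).eq]
        exact b y' h _
    · rw [List.map_cons, List.sum_cons, pr_sq p, mul_apply_eq_comp, map_sub, pr_pr p,
        sub_sub_sub_cancel_right, ← map_sub]
      have := pr_sq p (v - qs π ι l v)
      have := c v
      have := sq_nonneg ‖v - qs π ι l v - qq π ι y (v - qs π ι l v)‖
      linarith

/-- the elements that fix a vector -/
def fixr (π : G →* (E →L[ℂ] E)) (hι : ∀ a b, ι (a + b) = ι a * ι b) (z : E) : AddSubgroup D where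
  carrier := {y | π (ι y) z = z}
  zero_mem' := by simp [hx_zero hι]
  add_mem' := fun {a b} (ha : _ = _) (hb : _ = _) => show _ = _ by
    rw [hι, map_mul, mul_apply_eq_comp, hb, ha]
  neg_mem' := fun {a} (ha : _ = _) => show _ = _ by
    nth_rw 1 [← ha]
    rw [← mul_apply_eq_comp, ← map_mul, ← hι, neg_add_cancel, hx_zero hι, map_one]
    rfl

include hu hι h4 in
theorem qq_le {y : D} {z : E} (h : y ∈ fixr π hι z) (v : E) :
    ‖v - qq π ι y v‖ ^ 2 ≤ ‖v - z‖ ^ 2 := by
  have e : qq π ι y z = z := by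
    have := av_near' (π := π) (x := fun k : ZMod 4 => ι (k.val • y)) (v := z) (d := 0) fun k => by
      rw [show π (ι (k.val • y)) z = z from (fixr π hι z).nsmul_mem h _, sub_self, norm_zero]
    exact (sub_eq_zero.1 (norm_le_zero_iff.1 this)).symm
  rw [pr_sq (qq_pr hu hι h4 y) (v - z), map_sub, e, sub_sub_sub_cancel_right]
  exact le_add_of_nonneg_left (sq_nonneg _)

include hu hι h4 in
theorem qq_near {y : D} {v : E} {d : ℝ} (h : ‖π (ι y) v - v‖ ≤ d) : ‖v - qq π ι y v‖ ≤ d := by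
  refine (av_near v).trans ?_
  have e : ∀ a, ‖π (ι (a + y)) v - π (ι a) v‖ ≤ d := fun a => by
    rwa [hι, map_mul, mul_apply_eq_comp, ← map_sub, un_norm hu]
  have e2 : ‖π (ι (2 • y)) v - v‖ ≤ d + d := by
    rw [two_nsmul]
    exact (norm_sub_le_norm_sub_add_norm_sub _ _ _).trans (add_le_add (e y) h)
  have e3 : ‖π (ι (3 • y)) v - v‖ ≤ d := by
    have := e (3 • y)
    rwa [← succ_nsmul, h4, hx_zero hι, map_one, norm_sub_rev] at this
  have s : ∑ k : ZMod 4, ‖π (ι (k.val • y)) v - v‖ = ‖π (ι (0 • y)) v - v‖ + ‖π (ι (1 • y)) v - v‖ +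
    ‖π (ι (2 • y)) v - v‖ + ‖π (ι (3 • y)) v - v‖ := Fin.sum_univ_four _
  rw [s, ZMod.card, zero_nsmul, one_nsmul, hx_zero hι, map_one, one_apply_eq_self, sub_self,
    norm_zero]
  push_cast
  linarith

variable {W : Type*} [AddCommGroup W] {b : W → D} (hb : ∀ x p q u,
  b x + b (x + p + q) + b (x + p + u) + b (x + q + u) =
    b (x + p) + b (x + q) + b (x + u) + b (x + p + q + u))

include hu hι h4 hb in
theorem cube_one [Fintype W] (x : W) (v : E) : Fintype.card W * ‖v - qq π ι (b x) v‖ ^ 2 ≤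
    7 * ∑ w, ‖v - qq π ι (b w) v‖ ^ 2 := by
  set f : W → ℝ := fun w => ‖v - qq π ι (b w) v‖ ^ 2 with hf
  have k : ∀ p q u, f x ≤ f (x + p) + f (x + q) + f (x + u) + f (x + p + q + u) + f (x + p + q) +
      f (x + p + u) + f (x + q + u) := fun p q u => by
    obtain ⟨-, h1, h2⟩ := qs_all hu hι h4 [b (x + p), b (x + q), b (x + u), b (x + p + q + u),
      b (x + p + q), b (x + p + u), b (x + q + u)]
    have h3 := h2 v
    generalize qs π ι _ = Q at h1 h3
    have m : ∀ y, _ → y ∈ fixr π hι (Q v) := fun y hy => h1 y hy v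
    have : b x ∈ fixr π hι (Q v) := by
      rw [show b x = b (x + p) + b (x + q) + b (x + u) + b (x + p + q + u) - b (x + q + u) -
        b (x + p + u) - b (x + p + q) by rw [← hb]; abel]
      refine sub_mem (sub_mem (sub_mem (add_mem (add_mem (add_mem ?_ ?_) ?_) ?_) ?_) ?_) ?_ <;>
        exact m _ (by simp)
    refine (qq_le hu hι h4 this v).trans (h3.trans_eq ?_)
    simp only [List.map_cons, List.map_nil, List.sum_cons, List.sum_nil, hf]
    ring
  have hs : ∀ t, ∑ c, f (t + c) = ∑ w, f w := fun t => Equiv.sum_comp (Equiv.addLeft t) f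
  have := sum_le_sum fun p (_ : p ∈ univ) => sum_le_sum fun q (_ : q ∈ univ) =>
    sum_le_sum fun u (_ : u ∈ univ) => k p q u
  simp only [sum_add_distrib, hs, sum_const, card_univ, nsmul_eq_mul, ← mul_sum] at this
  have n : (0 : ℝ) < Fintype.card W := by exact_mod_cast Fintype.card_pos
  refine le_of_mul_le_mul_left (le_of_mul_le_mul_left ?_ n) n
  linarith

include hu hι h4 hb in
/-- the cube lemma -/
theorem cube_near (h2 : ∀ w : W, w + w = 0) {η : E} {d : ℝ}
    (h : ∀ w, ‖π (ι (b w)) η - η‖ ≤ d) {x : D} (hx : x ∈ AddSubgroup.closure (Set.range b)) :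
    ‖π (ι x) η - η‖ ≤ 6 * d := by
  have h0 : 0 ≤ d := (norm_nonneg _).trans (h 0)
  obtain ⟨l, hl⟩ : ∃ l : List W, ∀ z, (∀ w ∈ l, b w ∈ fixr π hι z) → x ∈ fixr π hι z := by
    induction hx using AddSubgroup.closure_induction with
    | mem x hx =>
      obtain ⟨w, rfl⟩ := hx
      exact ⟨[w], fun z hz => hz w (by simp)⟩
    | zero => exact ⟨[], fun z _ => zero_mem _⟩
    | add x y _ _ hx hy =>
      obtain ⟨l, hl⟩ := hx
      obtain ⟨l', hl'⟩ := hy
      exact ⟨l ++ l', fun z hz => add_mem (hl z fun w hw => hz w (by simp [hw]))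
        (hl' z fun w hw => hz w (by simp [hw]))⟩
    | neg x _ hx =>
      obtain ⟨l, hl⟩ := hx
      exact ⟨l, fun z hz => neg_mem (hl z hz)⟩
  let V : AddSubgroup W := AddSubgroup.closure {w | w ∈ l}
  have : AddGroup.FG V := (AddGroup.fg_iff_addSubgroup_fg V).2
    ((AddSubgroup.fg_iff V).2 ⟨_, rfl, l.finite_toSet⟩)
  have : Finite V := AddCommGroup.finite_of_fg_isAddTorsion V fun w =>
    isOfFinAddOrder_iff_nsmul_eq_zero.2 ⟨2, two_pos, Subtype.ext (by simpa [two_nsmul] using h2 w)⟩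
  have := Fintype.ofFinite V
  have k : ∀ l' : List W, (∀ w ∈ l', w ∈ V) → ∀ v, Fintype.card V * ‖v - qs π ι (l'.map b) v‖ ^ 2 ≤
      7 * ∑ w : V, ‖v - qq π ι (b w) v‖ ^ 2 := by
    intro l' hl'
    induction l' with
    | nil => intro v; simp only [qs, List.map_nil, List.prod_nil]; simp; positivity
    | cons y l' ih =>
      intro v
      have p := qq_pr hu hι h4 (b y)
      have a1 := ih (fun w hw => hl' w (by simp [hw])) (qq π ι (b y) v)
      have a2 := cube_one hu hι h4 (b := fun w : V => b w) (fun x p q u => hb x p q u)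
        ⟨y, hl' y (by simp)⟩ (v - qq π ι (b y) v)
      have a3 : ∑ w : V, ‖v - qq π ι (b w) v‖ ^ 2 =
          ∑ w : V, ‖qq π ι (b y) v - qq π ι (b w) (qq π ι (b y) v)‖ ^ 2 +
          ∑ w : V, ‖v - qq π ι (b y) v - qq π ι (b w) (v - qq π ι (b y) v)‖ ^ 2 := by
        rw [← sum_add_distrib]
        refine sum_congr rfl fun w _ => ?_
        rw [pr_sq p, map_sub, map_sub, cm_ap (qq_comm hι (b y) (b w))]
        congr 3
        abel
      change _ * ‖v - qq π ι (b y) (qs π ι (l'.map b) v)‖ ^ 2 ≤ _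
      rw [map_sub, pr_pr p, sub_self, sub_zero] at a2
      rw [pr_sq p, map_sub, pr_pr p, sub_sub_sub_cancel_right, cm_ap (qs_comm hι _ _), a3]
      linarith
  have n : (0 : ℝ) < Fintype.card V := by exact_mod_cast Fintype.card_pos
  have a1 : ‖η - qs π ι (l.map b) η‖ ≤ 3 * d := by
    refine (abs_le_of_sq_le_sq' (le_of_mul_le_mul_left
      ((k l (fun w hw => AddSubgroup.subset_closure hw) η).trans ?_) n) (by positivity)).2
    have := sum_le_card_nsmul univ (fun w : V => ‖η - qq π ι (b w) η‖ ^ 2) (d ^ 2) fun w _ =>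
      pow_le_pow_left₀ (norm_nonneg _) (qq_near hu hι h4 (h w)) 2
    rw [card_univ, nsmul_eq_mul] at this
    nlinarith [mul_nonneg n.le (sq_nonneg d)]
  have a2 : π (ι x) (qs π ι (l.map b) η) = qs π ι (l.map b) η :=
    hl _ fun w hw => (qs_all hu hι h4 _).2.1 _ (List.mem_map_of_mem hw) η
  have a3 : ‖π (ι x) η - qs π ι (l.map b) η‖ ≤ 3 * d := by
    rwa [← a2, ← map_sub, un_norm hu]
  refine (norm_sub_le_norm_sub_add_norm_sub _ (qs π ι (l.map b) η) _).trans ?_
  rw [norm_sub_rev] at a1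
  linarith

end

end

end Pool.Agent.MP_434e52_an

/-!
The left regular representation; two groups spanning the same operator algebra with a common
cyclic trace vector have isomorphic von Neumann algebras.
-/


namespace Pool.Agent.MP_434e52_an

open scoped ENNReal

lemma memℓp_translate {G : Type} [Group G] (g : G) (ξ : L2 G) :
    Memℓp (fun h => ξ (g⁻¹ * h)) 2 :=
  memℓp_gen (((Equiv.mulLeft g⁻¹).summable_iff
    (f := fun h => ‖ξ h‖ ^ (2 : ℝ≥0∞).toReal)).2 ((lp.memℓp ξ).summable (by norm_num)))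

/-- Left translation as a linear map. -/
def translate {G : Type} [Group G] (g : G) : L2 G →ₗ[ℂ] L2 G where
  toFun ξ := ⟨fun h => ξ (g⁻¹ * h), memℓp_translate g ξ⟩
  map_add' _ _ := rfl
  map_smul' _ _ := rfl

lemma norm_translate_le {G : Type} [Group G] (g : G) (ξ : L2 G) :
    ‖translate g ξ‖ ≤ 1 * ‖ξ‖ := by
  rw [one_mul, lp.norm_eq_tsum_rpow (by norm_num), lp.norm_eq_tsum_rpow (by norm_num)]
  exact le_of_eq (congrArg (· ^ _)
    ((Equiv.mulLeft g⁻¹).tsum_eq (fun h => ‖ξ h‖ ^ (2 : ℝ≥0∞).toReal)))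

/-- The left regular representation as a homomorphism. -/
noncomputable def lam (G : Type) [Group G] : G →* BL2 G where
  toFun g := (translate g).mkContinuous 1 (norm_translate_le g)
  map_one' := by
    ext ξ h
    change ξ (1⁻¹ * h) = ξ h
    simp
  map_mul' x y := by
    ext ξ h
    change ξ ((x * y)⁻¹ * h) = ξ (y⁻¹ * (x⁻¹ * h))
    simp only [mul_inv_rev, mul_assoc]

variable {G : Type} [Group G]

lemma lam_apply (g : G) (ξ : L2 G) (h : G) : lam G g ξ h = ξ (g⁻¹ * h) := rfl

lemma star_lam (g : G) : star (lam G g) = lam G g⁻¹ := by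
  rw [ContinuousLinearMap.star_eq_adjoint]
  symm
  rw [ContinuousLinearMap.eq_adjoint_iff]
  intro x y
  rw [lp.inner_eq_tsum, lp.inner_eq_tsum, ← (Equiv.mulLeft g⁻¹).tsum_eq]
  refine tsum_congr fun h => ?_
  simp [lam_apply]

lemma lam_unitary (g : G) : lam G g ∈ unitary (BL2 G) := by
  rw [Unitary.mem_iff, star_lam, ← map_mul, ← map_mul]
  simp

lemma leftTranslations_eq : leftTranslations G = Set.range (lam G) := by
  ext T
  constructor
  · rintro ⟨g, hg⟩
    refine ⟨g, ?_⟩
    ext ξ h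
    rw [hg, lam_apply]
  · rintro ⟨g, rfl⟩
    exact ⟨g, fun ξ h => rfl⟩

open Classical in
/-- The point mass at `g`. -/
noncomputable def dl (g : G) : L2 G := lp.single 2 g (1 : ℂ)

lemma lam_dl (s x : G) : lam G s (dl x) = dl (s * x) := by
  classical
  ext h
  rw [lam_apply]
  simp only [dl, lp.single_apply, Pi.single_apply, inv_mul_eq_iff_eq_mul]

omit [Group G] in
lemma norm_dl (x : G) : ‖dl x‖ = 1 := by
  classical
  rw [dl, lp.norm_single (by norm_num)]
  simp

omit [Group G] in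
lemma inner_dl_dl {x y : G} (h : x ≠ y) : inner ℂ (dl x) (dl y) = 0 := by
  classical
  rw [dl, lp.inner_single_left]
  simp [dl, lp.single_apply, h]

omit [Group G] in
lemma dense_dl : ⊤ ≤ (Submodule.span ℂ (Set.range (dl : G → L2 G))).topologicalClosure := by
  classical
  intro f _
  refine (Submodule.isClosed_topologicalClosure _).mem_of_tendsto
    (lp.hasSum_single (by norm_num) f) (Filter.Eventually.of_forall fun s => ?_)
  refine Submodule.le_topologicalClosure _ (Submodule.sum_mem _ fun i _ => ?_)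
  have : lp.single 2 i (f i) = f i • dl i := by
    rw [dl, ← lp.single_smul]; simp
  rw [this]
  exact Submodule.smul_mem _ _ (Submodule.subset_span ⟨i, rfl⟩)

lemma exists_unitary {H : Type} [Group H] {E : Type} [NormedAddCommGroup E]
    [InnerProductSpace ℂ E] [CompleteSpace E] (Ω : E) (hΩ : ‖Ω‖ = 1) (φ : H →* (E →L[ℂ] E))
    (u : ∀ h, φ h ∈ unitary (E →L[ℂ] E)) (t : ∀ h, h ≠ 1 → inner ℂ Ω (φ h Ω) = 0)
    (hd : ⊤ ≤ (Submodule.span ℂ (Set.range fun h => φ h Ω)).topologicalClosure) :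
    ∃ U : E ≃ₗᵢ[ℂ] L2 H, ∀ h, U.conjStarAlgEquiv (φ h) = lam H h := by
  classical
  have hs : ∀ h, star (φ h) = φ h⁻¹ := by
    intro h
    calc star (φ h) = star (φ h) * (φ h * φ h⁻¹) := by rw [← map_mul]; simp
      _ = φ h⁻¹ := by rw [← mul_assoc, (Unitary.mem_iff.1 (u h)).1, one_mul]
  have hi : ∀ a b, inner ℂ (φ a Ω) (φ b Ω) = inner ℂ Ω (φ (a⁻¹ * b) Ω) := by
    intro a b
    rw [map_mul, ← hs, ContinuousLinearMap.star_eq_adjoint, mul_apply_eq_comp,
      ContinuousLinearMap.adjoint_inner_right]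
  have ho : Orthonormal ℂ fun h => φ h Ω := by
    rw [orthonormal_iff_ite]
    intro a b
    rw [hi]
    split_ifs with hab
    · subst hab
      simp [hΩ]
    · exact t _ fun h => hab (inv_mul_eq_one.1 h)
  let b := HilbertBasis.mk ho hd
  have hb : ∀ h, b.repr (φ h Ω) = dl h := by
    intro h
    have := b.repr_self h
    rwa [HilbertBasis.coe_mk] at this
  refine ⟨b.repr, fun h => ?_⟩
  refine ContinuousLinearMap.ext_on (s := Set.range dl) ?_ ?_
  · rw [Submodule.dense_iff_topologicalClosure_eq_top, eq_top_iff]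
    exact dense_dl
  · rintro _ ⟨y, rfl⟩
    rw [LinearIsometryEquiv.conjStarAlgEquiv_apply_apply, ← hb y,
      LinearIsometryEquiv.symm_apply_apply, ← mul_apply_eq_comp, ← map_mul, hb, hb,
      lam_dl]

lemma mapsTo_groupVN {H H' : Type} [Group H] [Group H'] (U : L2 H ≃ₗᵢ[ℂ] L2 H')
    (hU : ∀ g, U.conjStarAlgEquiv (lam H g) ∈ Submodule.span ℂ (Set.range (lam H'))) :
    ∀ T ∈ groupVN H, U.conjStarAlgEquiv T ∈ groupVN H' := by
  intro T hT n ξ η ε hε
  obtain ⟨a, ha, h⟩ := hT n (fun i => U.symm (ξ i)) (fun i => U.symm (η i)) ε hε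
  refine ⟨U.conjStarAlgEquiv a, ?_, fun i => ?_⟩
  · rw [leftTranslations_eq] at ha ⊢
    clear h
    induction ha using Submodule.span_induction with
    | mem x hx => obtain ⟨g, rfl⟩ := hx; exact hU g
    | zero => rw [map_zero]; exact zero_mem _
    | add x y _ _ hx hy => rw [map_add]; exact add_mem hx hy
    | smul c x _ hx => rw [map_smul]; exact Submodule.smul_mem _ _ hx
  · have := h i
    rw [← U.inner_map_map, U.apply_symm_apply, map_sub] at this
    exact this

/-- Lemma L. The vectors `φ h Ω` form a Hilbert basis; its `repr` is a unitary `U : E ≃ L2 H` with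
`U (φ h) U⁻¹ = lam H h`. For two such groups, conjugation by `U₂ U₁⁻¹`
(`LinearIsometryEquiv.conjStarAlgEquiv`) maps span onto span, hence weak closure onto weak
closure. -/
theorem vnIso_of_models {H₁ H₂ : Type} [Group H₁] [Group H₂] {E : Type} [NormedAddCommGroup E]
    [InnerProductSpace ℂ E] [CompleteSpace E] (Ω : E) (hΩ : ‖Ω‖ = 1)
    (φ₁ : H₁ →* (E →L[ℂ] E)) (φ₂ : H₂ →* (E →L[ℂ] E))
    (u₁ : ∀ h, φ₁ h ∈ unitary (E →L[ℂ] E)) (u₂ : ∀ h, φ₂ h ∈ unitary (E →L[ℂ] E))
    (t₁ : ∀ h, h ≠ 1 → inner ℂ Ω (φ₁ h Ω) = 0) (t₂ : ∀ h, h ≠ 1 → inner ℂ Ω (φ₂ h Ω) = 0)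
    (hs : Submodule.span ℂ (Set.range φ₁) = Submodule.span ℂ (Set.range φ₂))
    (hd : ⊤ ≤ (Submodule.span ℂ (Set.range fun h => φ₁ h Ω)).topologicalClosure) :
    VNIso H₁ H₂ := by
  have hd2 : ⊤ ≤ (Submodule.span ℂ (Set.range fun h => φ₂ h Ω)).topologicalClosure := by
    refine hd.trans (Submodule.topologicalClosure_mono ?_)
    rw [Submodule.span_le]
    rintro _ ⟨h, rfl⟩
    have h1 : φ₁ h ∈ Submodule.span ℂ (Set.range φ₂) := hs ▸ Submodule.subset_span ⟨h, rfl⟩
    have h2 := Submodule.mem_map_of_mem (f := (ContinuousLinearMap.apply ℂ E Ω).toLinearMap) h1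
    rw [Submodule.map_span, ← Set.range_comp] at h2
    exact h2
  obtain ⟨U₁, h1⟩ := exists_unitary Ω hΩ φ₁ u₁ t₁ hd
  obtain ⟨U₂, h2⟩ := exists_unitary Ω hΩ φ₂ u₂ t₂ hd2
  have key : ∀ {H H' : Type} [Group H] [Group H'] (U : E ≃ₗᵢ[ℂ] L2 H) (U' : E ≃ₗᵢ[ℂ] L2 H')
      (φ : H →* (E →L[ℂ] E)) (φ' : H' →* (E →L[ℂ] E)),
      (∀ h, U.conjStarAlgEquiv (φ h) = lam H h) → (∀ h, U'.conjStarAlgEquiv (φ' h) = lam H' h) →
      Submodule.span ℂ (Set.range φ) = Submodule.span ℂ (Set.range φ') →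
      ∀ T ∈ groupVN H, (U.symm.trans U').conjStarAlgEquiv T ∈ groupVN H' := by
    intro H H' _ _ U U' φ φ' e e' hs
    refine mapsTo_groupVN _ fun g => ?_
    have a1 : φ g ∈ Submodule.span ℂ (Set.range φ') := hs ▸ Submodule.subset_span ⟨g, rfl⟩
    have a2 := Submodule.mem_map_of_mem
      (f := U'.conjStarAlgEquiv.toAlgEquiv.toLinearEquiv.toLinearMap) a1
    rw [Submodule.map_span, ← Set.range_comp] at a2
    have a3 : (U'.conjStarAlgEquiv.toAlgEquiv.toLinearEquiv.toLinearMap ∘ φ') = lam H' :=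
      funext e'
    rw [a3] at a2
    convert a2 using 1
    rw [← e]
    ext1 ξ
    simp
  refine ⟨(U₁.symm.trans U₂).conjStarAlgEquiv, ⟨key U₁ U₂ φ₁ φ₂ h1 h2 hs,
    (U₁.symm.trans U₂).conjStarAlgEquiv.injective.injOn, fun T hT => ?_⟩,
    fun x _ y _ => ⟨map_add _ _ _, map_mul _ _ _, map_star _ _, fun c => map_smul _ _ _⟩⟩
  refine ⟨_, key U₂ U₁ φ₂ φ₁ h2 h1 hs.symm T hT, ?_⟩
  ext1 ξ
  simp

end Pool.Agent.MP_434e52_an
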