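import Mathlib

/-!
Definitions: group von Neumann algebras, property (T), ICC, virtual isomorphism.
-/

set_option autoImplicit false

namespace Pool.Agent.MP_434e52_an

/-- The Hilbert space of square summable complex functions on `G`. -/
abbrev L2 (G : Type) : Type := lp (fun _ : G => ℂ) 2

/-- The bounded operators on `L2 G`. -/
abbrev BL2 (G : Type) : Type := L2 G →L[ℂ] L2 G

/-- The operators `λ_g` of the left regular representation, `(λ_g ξ)(h) = ξ(g⁻¹ h)`. -/
def leftTranslations (G : Type) [Group G] : Set (BL2 G) :=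
  {T | ∃ g : G, ∀ (ξ : L2 G) (h : G), T ξ h = ξ (g⁻¹ * h)}

section Operators

variable {E F : Type} [NormedAddCommGroup E] [InnerProductSpace ℂ E]
  [NormedAddCommGroup F] [InnerProductSpace ℂ F]

/-- The complex linear span of a set of bounded operators. -/
def opSpan (A : Set (E →L[ℂ] E)) : Set (E →L[ℂ] E) := Submodule.span ℂ A

/-- The closure of a set of bounded operators in the weak operator topology. -/
def weakClosure (A : Set (E →L[ℂ] E)) : Set (E →L[ℂ] E) :=
  {T | ∀ (n : ℕ) (ξ η : Fin n → E) (ε : ℝ), 0 < ε →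
    ∃ a ∈ A, ∀ i : Fin n, ‖inner ℂ (η i) (T (ξ i) - a (ξ i))‖ < ε}

/-- A bijection between two subsets preserving sums, products, adjoints and scalars exists. -/
def StarIso {A B : Type} [Add A] [Mul A] [Star A] [SMul ℂ A] [Add B] [Mul B] [Star B] [SMul ℂ B]
    (M : Set A) (N : Set B) : Prop :=
  ∃ Φ : A → B, Set.BijOn Φ M N ∧ ∀ x ∈ M, ∀ y ∈ M,
    Φ (x + y) = Φ x + Φ y ∧ Φ (x * y) = Φ x * Φ y ∧ Φ (star x) = star (Φ x) ∧
      ∀ c : ℂ, Φ (c • x) = c • Φ x

/-- `StarIso` for sets of bounded operators on Hilbert spaces. -/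
def OpIso [CompleteSpace E] [CompleteSpace F] (M : Set (E →L[ℂ] E)) (N : Set (F →L[ℂ] F)) : Prop :=
  StarIso M N

/-- Unitary operators. -/
def IsUnitaryOp [CompleteSpace E] (T : E →L[ℂ] E) : Prop := T ∈ unitary (E →L[ℂ] E)

/-- There is a unit vector moved less than `ε` by the elements of `S`. -/
def AlmostFixed {G : Type} (π : G → E →L[ℂ] E) (S : Finset G) (ε : ℝ) : Prop :=
  ∃ v : E, ‖v‖ = 1 ∧ ∀ s ∈ S, ‖π s v - v‖ < ε

/-- There is a non-zero fixed vector. -/
def HasFixed {G : Type} (π : G → E →L[ℂ] E) : Prop :=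
  ∃ w : E, w ≠ 0 ∧ ∀ g : G, π g w = w

end Operators

/-- The group von Neumann algebra: the closure, in the weak operator topology, of the linear span
of the left translations. -/
def groupVN (G : Type) [Group G] : Set (BL2 G) := weakClosure (opSpan (leftTranslations G))

/-- The group von Neumann algebras of `G` and `H` are star isomorphic. -/
def VNIso (G H : Type) [Group G] [Group H] : Prop := OpIso (groupVN G) (groupVN H)

/-- Kazhdan's property (T): there is a finite Kazhdan pair. -/
def PropT (G : Type) [Group G] : Prop :=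
  ∃ S : Finset G, ∃ ε : ℝ, 0 < ε ∧
    ∀ (E : Type) [NormedAddCommGroup E] [InnerProductSpace ℂ E] [CompleteSpace E]
      (π : G →* (E →L[ℂ] E)), (∀ g : G, IsUnitaryOp (π g)) → AlmostFixed π S ε → HasFixed π

/-- Every non-trivial element has an infinite conjugacy class. -/
def ICC (G : Type) [Group G] : Prop :=
  ∀ g : G, g ≠ 1 → {h : G | IsConj g h}.Infinite

/-- Virtual isomorphism: finite index subgroups of quotients by finite normal subgroups are
isomorphic. -/
def VirtIso (G H : Type) [Group G] [Group H] : Prop :=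
  ∃ (F : Subgroup G) (K : Subgroup H) (_ : F.Normal) (_ : K.Normal),
    Finite F ∧ Finite K ∧
    ∃ (G₀ : Subgroup (G ⧸ F)) (H₀ : Subgroup (H ⧸ K)),
      G₀.index ≠ 0 ∧ H₀.index ≠ 0 ∧ Nonempty (G₀ ≃* H₀)

end Pool.Agent.MP_434e52_an
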