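import Pool.Agent.MP_434e52_an.Ana
import Pool.Agent.MP_434e52_an.Alg

attribute [-instance] NonarchimedeanAddGroup.toIsTopologicalAddGroup
  IsSemitopologicalSemiring.toContinuousAdd instUniformSpaceSubtype RingConeClass.toSubsemiringClass
  SubringClass.toSubsemiringClass Subtype.pseudoMetricSpace NonUnitalNonAssocRing.toAddCommGroup
  SubringClass.toRing IsIsometricSMul.to_continuousConstSMul
  AlgHom.instNonUnitalAlgHomClassOfAlgHomClass NonUnitalSubsemiringClass.toAddSubmonoidClass
  Prod.instCommRing littleWedderburn IsTopologicalSemiring.toContinuousAdd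
  instNonUnitalAlgHomClassOfNonUnitalAlgEquivClass MonTypeEquivalenceMon.monMonoid
  IsValuativeTopology.instIsTopologicalAddGroup AddSubgroup.instIsTopologicalAddGroupSubtypeMem
  NonUnitalRing.toNonUnitalNonAssocRing IdemSemiring.toSemiring
  NonUnitalSubsemiringClass.toNonUnitalSemiring TensorProduct.instNormedAddCommGroup
  AddSubgroup.seminormedAddCommGroup MonoidWithZeroHomClass.toZeroHomClass
  MulSemiringAction.toDistribMulAction NormedCommRing.toCommRing
  NonUnitalAlgHomClass.instLinearMapClass MonoidWithZero.toMulZeroOneClass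
  CoalgHomClass.toSemilinearMapClass SetLike.GradeZero.instRing SetLike.GradeZero.instCommRing
  LieAdmissibleAlgebra.toModule SetLike.GradeZero.instSemiring
  NonUnitalNormedRing.toNonUnitalSeminormedRing SeminormedCommRing.toCommRing RKHS.instFunLike
  SeminormedRing.toRing NonUnitalNormedCommRing.toNonUnitalCommRing EuclideanDomain.toCommRing
  DenselyNormedField.toNormedField Module.free_of_finite_type_torsion_free'
  SubringClass.nonUnitalSubringClass LieRing.toAddCommGroup RingHomClass.toLinearMapClassNNRat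
  AddCommGroupWithOne.toAddGroupWithOne NonAssocCommSemiring.toNonAssocSemiring
  AddCommMonoidWithOne.toAddCommMonoid SetLike.GradeZero.instCommSemiring
  LieAdmissibleRing.toNonUnitalNonAssocRing NonUnitalNonAssocCommSemiring.toNonUnitalNonAssocSemiring
  PositiveLinearMap.instContinuousLinearMapClassComplexOfLinearMapClassOfOrderHomClass
  AlgHomClass.toRingHomClass NonUnitalAlgSemiHomClass.toDistribMulActionSemiHomClass
  IdemCommSemiring.toCommSemiring BooleanRing.toRing LieAlgebra.toModule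
  NonUnitalSeminormedCommRing.toNonUnitalCommRing RingHomClass.toLinearMapClassRat
  SemilinearIsometryClass.toSemilinearMapClass NonUnitalSubsemiringClass.toNonUnitalNonAssocSemiring
  RightPreLieAlgebra.toModule Prod.instPreorder BooleanRing.toCommRing

set_option autoImplicit false

/-!
All the groups `D_r ⋊ K` over the same action have the same von Neumann algebra.
-/


namespace Pool.Agent.MP_434e52_an

open scoped TensorProduct

variable {V : Type} [AddCommGroup V] [Module (ZMod 2) V] {K : Type} [Group K]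

/-- `i ^ x` for `x` modulo four. -/
noncomputable def ip (x : ZMod 4) : ℂ := Complex.I ^ x.val

theorem ip_add (x y : ZMod 4) : ip (x + y) = ip x * ip y := by
  have h4 : Complex.I ^ 4 = 1 := Complex.I_pow_four
  rw [ip, ip, ip, ← pow_add, ZMod.val_add, ← pow_eq_pow_mod _ h4]

theorem ip_zero : ip 0 = 1 := by
  simp [ip]

theorem ip_tau (x : ZMod 2) :
    ip (tau x) = (1 + Complex.I) / 2 + (1 - Complex.I) / 2 * ip (two x) := by
  have h : x = 0 ∨ x = 1 := by revert x; decide
  rcases h with rfl | rfl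
  · rw [tau_zero, two_zero, ip_zero]; ring
  · have h1 : (tau 1).val = 1 := by decide
    have h2 : (two 1).val = 2 := by decide
    rw [ip, ip, h1, h2, Complex.I_sq]; ring

/-- The characters `l ↦ (-1) ^ (l v)` of the dual are distinct, hence linearly independent
(`linearIndependent_monoidHom`). -/
theorem chars_indep : LinearIndependent ℂ fun (v : V) (l : Du V) => ip (two (l v)) := by
  let χ : V → (Multiplicative (Du V) →* ℂ) := fun v =>
    { toFun := fun l => ip (two (l.toAdd v))
      map_one' := by simp only [toAdd_one, LinearMap.zero_apply, two_zero, ip_zero]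
      map_mul' := fun l m => by simp [two_add, ip_add] }
  have hχ : Function.Injective χ := by
    intro v w h
    rw [← sub_eq_zero, ← Module.forall_dual_apply_eq_zero_iff (ZMod 2)]
    intro l
    have h1 : ip (two (l v)) = ip (two (l w)) := DFunLike.congr_fun h (Multiplicative.ofAdd l)
    have h2 : ∀ x y : ZMod 2, x ≠ y → two x = two y + 2 := by decide
    by_contra h3
    rw [map_sub, sub_eq_zero] at h3
    have h5 : (2 : ZMod 4).val = 2 := by decide
    have h4 : ip 2 = -1 := by rw [ip, h5, Complex.I_sq]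
    rw [h2 _ _ h3, ip_add, h4] at h1
    have h6 : ip (two (l w)) = 0 := by linear_combination (-1 / 2 : ℂ) * h1
    exact pow_ne_zero _ Complex.I_ne_zero h6
  exact (linearIndependent_monoidHom (Multiplicative (Du V)) ℂ).comp χ hχ

section Psi

variable {B : Type} [Ring B] [Algebra ℂ B] (u : V → B)

/-- The graph of the functional calculus. -/
def gr : Submodule ℂ ((Du V → ℂ) × B) :=
  Submodule.span ℂ (Set.range fun v : V => ((fun l : Du V => ip (two (l v))), u v))

theorem gr_unique {F : Du V → ℂ} {T T' : B} (h : (F, T) ∈ gr u) (h' : (F, T') ∈ gr u) :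
    T = T' := by
  have h1 := sub_mem h h'
  obtain ⟨x, hx⟩ := Finsupp.mem_span_range_iff_exists_finsupp.1 h1
  have h2 : Finsupp.linearCombination ℂ (fun (v : V) (l : Du V) => ip (two (l v))) x = 0 := by
    have := congrArg (LinearMap.fst ℂ _ _) hx
    rw [map_finsuppSum] at this
    simpa [Finsupp.linearCombination_apply] using this
  have h3 : x = 0 := linearIndependent_iff.1 chars_indep x h2
  rw [h3, Finsupp.sum_zero_index] at hx
  exact sub_eq_zero.1 (congrArg Prod.snd hx).symm

theorem gr_mul (hu : ∀ v w, u (v + w) = u v * u w) {x y : (Du V → ℂ) × B} (hx : x ∈ gr u)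
    (hy : y ∈ gr u) : x * y ∈ gr u := by
  induction hx using Submodule.span_induction with
  | mem x hx =>
    obtain ⟨v, rfl⟩ := hx
    induction hy using Submodule.span_induction with
    | mem y hy =>
      obtain ⟨w, rfl⟩ := hy
      refine Submodule.subset_span ⟨v + w, Prod.ext (funext fun l => ?_) (hu v w)⟩
      simp [two_add, ip_add]
    | zero => rw [mul_zero]; exact zero_mem _
    | add y z _ _ hy hz => rw [mul_add]; exact add_mem hy hz
    | smul a y _ hy => rw [mul_smul_comm]; exact Submodule.smul_mem _ _ hy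
  | zero => rw [zero_mul]; exact zero_mem _
  | add x z _ _ hx hz => rw [add_mul]; exact add_mem hx hz
  | smul a x _ hx => rw [smul_mul_assoc]; exact Submodule.smul_mem _ _ hx

theorem gr_snd_mem {x : (Du V → ℂ) × B} (hx : x ∈ gr u) :
    x.2 ∈ Submodule.span ℂ (Set.range u) := by
  have := Submodule.mem_map_of_mem (f := LinearMap.snd ℂ (Du V → ℂ) B) hx
  rw [gr, Submodule.map_span, ← Set.range_comp] at this
  exact this

/-- The square root of `u v`. -/
noncomputable def jj (v : V) : B :=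
  ((1 + Complex.I) / 2 : ℂ) • (1 : B) + ((1 - Complex.I) / 2 : ℂ) • u v

theorem jj_mem (h0 : u 0 = 1) (v : V) : ((fun l : Du V => ip (tau (l v))), jj u v) ∈ gr u := by
  have h1 : ((fun l : Du V => ip (two (l 0))), u 0) ∈ gr u := Submodule.subset_span ⟨0, rfl⟩
  have h2 : ((fun l : Du V => ip (two (l v))), u v) ∈ gr u := Submodule.subset_span ⟨v, rfl⟩
  convert add_mem (Submodule.smul_mem _ ((1 + Complex.I) / 2) h1)
    (Submodule.smul_mem _ ((1 - Complex.I) / 2) h2) using 1
  refine Prod.ext (funext fun l => ?_) ?_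
  · simp [ip_tau, two_zero, ip_zero]
  · simp [jj, h0]

open Classical in
/-- The operator attached to a function `f`, when there is one. -/
noncomputable def psi (f : Du V → ZMod 4) : B :=
  if h : ∃ T, ((fun l => ip (f l)), T) ∈ gr u then h.choose else 0

theorem psi_eq {f : Du V → ZMod 4} {T : B} (h : ((fun l => ip (f l)), T) ∈ gr u) :
    psi u f = T := by
  have h1 : ∃ T, ((fun l => ip (f l)), T) ∈ gr u := ⟨T, h⟩
  rw [psi, dif_pos h1]
  exact gr_unique u h1.choose_spec h

variable {ρ : K →* Module.End (ZMod 2) V} (c : Cm ρ)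

/-- Induction on `d`; for the negative use `-d = d + d + d`. -/
theorem psi_mem (hu : ∀ v w, u (v + w) = u v * u w) (h0 : u 0 = 1) {d : Amb V} (hd : d ∈ c.D) :
    ((fun l => ip (d.1 l)), psi u d.1) ∈ gr u := by
  have key : ∃ T, ((fun l => ip (d.1 l)), T) ∈ gr u := by
    have hadd : ∀ d e : Amb V, (∃ T, ((fun l => ip (d.1 l)), T) ∈ gr u) →
        (∃ T, ((fun l => ip (e.1 l)), T) ∈ gr u) →
        ∃ T, ((fun l => ip ((d + e).1 l)), T) ∈ gr u := by
      rintro d e ⟨T, hT⟩ ⟨T', hT'⟩
      refine ⟨T * T', ?_⟩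
      convert gr_mul u hu hT hT' using 1
      exact Prod.ext (funext fun l => ip_add _ _) rfl
    refine c.D_induction (p := fun d => ∃ T, ((fun l => ip (d.1 l)), T) ∈ gr u) ?_ ?_ ?_
      (fun d e _ _ => hadd d e) ?_ hd
    · intro v; exact ⟨u v, Submodule.subset_span ⟨v, rfl⟩⟩
    · intro v; exact ⟨_, jj_mem u h0 (c.r v)⟩
    · refine ⟨u 0, Submodule.subset_span ⟨0, ?_⟩⟩
      simp [two_zero]
    · intro d hd h
      rw [c.neg_eq hd]
      exact hadd _ _ (hadd _ _ h h) h
  obtain ⟨T, hT⟩ := key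
  rwa [psi_eq u hT]

theorem psi_add (hu : ∀ v w, u (v + w) = u v * u w) (h0 : u 0 = 1) {d e : Amb V} (hd : d ∈ c.D)
    (he : e ∈ c.D) : psi u (d + e).1 = psi u d.1 * psi u e.1 := by
  apply psi_eq
  convert gr_mul u hu (psi_mem u c hu h0 hd) (psi_mem u c hu h0 he) using 1
  exact Prod.ext (funext fun l => ip_add _ _) rfl

theorem psi_zero (h0 : u 0 = 1) : psi u 0 = 1 := by
  apply psi_eq
  refine Submodule.subset_span ⟨0, ?_⟩
  simp [two_zero, h0]

theorem psi_aa (v : V) : psi u (aa v).1 = u v := by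
  exact psi_eq u (Submodule.subset_span ⟨v, rfl⟩)

theorem psi_bb (h0 : u 0 = 1) (v : V) : psi u (c.bb v).1 = jj u (c.r v) := by
  exact psi_eq u (jj_mem u h0 _)

/-- Covariance: if `t` conjugates `u v` to `u (ρ g v)` it conjugates `psi`. -/
theorem psi_conj (hu : ∀ v w, u (v + w) = u v * u w) (h0 : u 0 = 1) (g : K) (t : B)
    (ht : ∀ v, t * u v = u (ρ g v) * t) {d : Amb V} (hd : d ∈ c.D) :
    t * psi u d.1 = psi u (act ρ g d).1 * t := by
  have hadd : ∀ d e : Amb V, d ∈ c.D → e ∈ c.D → t * psi u d.1 = psi u (act ρ g d).1 * t →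
      t * psi u e.1 = psi u (act ρ g e).1 * t →
      t * psi u (d + e).1 = psi u (act ρ g (d + e)).1 * t := by
    intro d e hd he h1 h2
    rw [map_add, psi_add u c hu h0 hd he, psi_add u c hu h0 (c.act_mem g hd) (c.act_mem g he),
      ← mul_assoc, h1, mul_assoc, h2, mul_assoc]
  refine c.D_induction (p := fun d => t * psi u d.1 = psi u (act ρ g d).1 * t) ?_ ?_ ?_ hadd ?_ hd
  · intro v; rw [act_aa, psi_aa, psi_aa, ht]
  · intro v
    rw [c.act_bb, psi_bb u c h0, psi_bb u c h0, c.comm]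
    simp [jj, mul_add, add_mul, ht]
  · rw [map_zero, Prod.fst_zero, psi_zero u h0, mul_one, one_mul]
  · intro d hd h
    rw [c.neg_eq hd]
    exact hadd _ _ (add_mem hd hd) hd (hadd _ _ hd hd h h) h

end Psi

variable {ρ : K →* Module.End (ZMod 2) V}

theorem snd_mem_zero (c : Cm ρ) {d : Amb V} (hd : d ∈ c.D) :
    ((0, d.2) : Amb V) ∈ (Cm.zero ρ).D := by
  refine c.D_induction (p := fun d => ((0, d.2) : Amb V) ∈ (Cm.zero ρ).D) ?_ ?_ ?_ ?_ ?_ hd
  · intro v; exact zero_mem _
  · intro v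
    convert (Cm.zero ρ).bb_mem v using 1
    ext l
    · simp [Cm.bb, Cm.zero, tau_zero]
    · rfl
  · exact zero_mem _
  · intro d e _ _ h1 h2
    simpa using add_mem h1 h2
  · intro d _ h1
    simpa only [Prod.snd_neg, Prod.neg_mk, neg_zero] using neg_mem h1

/-- The image of `x` in the split group, forgetting the function part. -/
def base (c : Cm ρ) : c.G →* (Cm.zero ρ).G where
  toFun x := ⟨(0, x.d.2), x.k, snd_mem_zero c x.mem⟩
  map_one' := rfl
  map_mul' x y := Cm.G.ext (by ext l <;> simp [act_fst, act_snd]) rfl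

/-- The translations by `V` in the split group. -/
noncomputable def uu (ρ : K →* Module.End (ZMod 2) V) (v : V) : BL2 (Cm.zero ρ).G :=
  lam _ ((Cm.zero ρ).inV v)

theorem uu_add (v w : V) : uu ρ (v + w) = uu ρ v * uu ρ w := by
  rw [uu, Cm.inV_add, map_mul, uu, uu]

theorem uu_zero : uu ρ 0 = 1 := by
  rw [uu, Cm.inV_zero, map_one]

theorem uu_mul_self (v : V) : uu ρ v * uu ρ v = 1 := by
  rw [← uu_add, add_self_two, uu_zero]

theorem star_uu (v : V) : star (uu ρ v) = uu ρ v := by
  rw [uu, star_lam, inv_eq_of_mul_eq_one_right]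
  rw [← Cm.inV_add, add_self_two, Cm.inV_zero]

theorem star_jj (v : V) : star (jj (uu ρ) v) =
    ((1 - Complex.I) / 2 : ℂ) • (1 : BL2 (Cm.zero ρ).G) + ((1 + Complex.I) / 2 : ℂ) • uu ρ v := by
  simp only [jj, sub_eq_add_neg, star_add, star_smul, star_div₀, star_one, RCLike.star_def, Complex.conj_I, star_ofNat, star_neg, neg_neg, star_uu]

theorem jj_inv_mul (v : V) :
    (((1 - Complex.I) / 2 : ℂ) • (1 : BL2 (Cm.zero ρ).G) + ((1 + Complex.I) / 2 : ℂ) • uu ρ v) *
      jj (uu ρ) v = 1 := by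
  simp only [jj, add_mul, mul_add, smul_mul_assoc, mul_smul_comm, one_mul, mul_one, uu_mul_self]
  match_scalars
  · linear_combination (-1 / 2 : ℂ) * Complex.I_mul_I
  · linear_combination (1 / 2 : ℂ) * Complex.I_mul_I

theorem jj_mul_inv (v : V) : jj (uu ρ) v *
    (((1 - Complex.I) / 2 : ℂ) • (1 : BL2 (Cm.zero ρ).G) + ((1 + Complex.I) / 2 : ℂ) • uu ρ v) =
      1 := by
  simp only [jj, add_mul, mul_add, smul_mul_assoc, mul_smul_comm, one_mul, mul_one, uu_mul_self]
  match_scalars
  · linear_combination (-1 / 2 : ℂ) * Complex.I_mul_I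
  · linear_combination (1 / 2 : ℂ) * Complex.I_mul_I

/-- The model of `D_r ⋊ K` in the group algebra of the split group. -/
noncomputable def model (c : Cm ρ) : c.G →* BL2 (Cm.zero ρ).G where
  toFun x := psi (uu ρ) x.d.1 * lam _ (base c x)
  map_one' := by
    rw [map_one, map_one, Cm.one_d, Prod.fst_zero, psi_zero _ uu_zero, mul_one]
  map_mul' x y := by
    have h := psi_conj (uu ρ) c uu_add uu_zero x.k (lam _ (base c x)) (fun v => by
      rw [uu, uu, ← map_mul, ← map_mul, ← eq_mul_inv_iff_mul_eq.1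
        (Cm.conj_inV (base c x) v).symm]
      rfl) y.mem
    rw [Cm.mul_d, psi_add _ c uu_add uu_zero x.mem (c.act_mem _ y.mem), map_mul, map_mul]
    simp only [mul_assoc]
    rw [← mul_assoc (lam _ (base c x)), h, mul_assoc]

theorem model_apply (c : Cm ρ) (x : c.G) :
    model c x = psi (uu ρ) x.d.1 * lam _ (base c x) := rfl

theorem model_unitary (c : Cm ρ) (x : c.G) : model c x ∈ unitary (BL2 (Cm.zero ρ).G) := by
  refine mul_mem ?_ (lam_unitary _)
  have hadd : ∀ d e : Amb V, d ∈ c.D → e ∈ c.D → psi (uu ρ) d.1 ∈ unitary (BL2 (Cm.zero ρ).G) →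
      psi (uu ρ) e.1 ∈ unitary (BL2 (Cm.zero ρ).G) →
      psi (uu ρ) (d + e).1 ∈ unitary (BL2 (Cm.zero ρ).G) := by
    intro d e hd he h1 h2
    rw [psi_add _ c uu_add uu_zero hd he]
    exact mul_mem h1 h2
  refine c.D_induction (p := fun d => psi (uu ρ) d.1 ∈ unitary (BL2 (Cm.zero ρ).G)) ?_ ?_ ?_ hadd
    ?_ x.mem
  · intro v; rw [psi_aa]; exact lam_unitary _
  · intro v
    rw [psi_bb _ c uu_zero, Unitary.mem_iff, star_jj]
    exact ⟨jj_inv_mul _, jj_mul_inv _⟩
  · rw [Prod.fst_zero, psi_zero _ uu_zero]; exact one_mem _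
  · intro d hd h
    rw [c.neg_eq hd]
    exact hadd _ _ (add_mem hd hd) hd (hadd _ _ hd hd h h) h

theorem model_trace (c : Cm ρ) (x : c.G) (hx : x ≠ 1) :
    inner ℂ (dl (1 : (Cm.zero ρ).G)) (model c x (dl 1)) = 0 := by
  by_cases hb : base c x = 1
  · have h1 : x.d.2 = 0 := congrArg (fun z => z.d.2) hb
    have h2 : x.k = 1 := congrArg (fun z => z.k) hb
    obtain ⟨w, hw⟩ := c.exists_aa_of_snd x.mem h1
    rw [model_apply, hb, map_one, mul_one, hw, psi_aa, uu, lam_dl, mul_one]
    refine inner_dl_dl fun h => hx (Cm.G.ext ?_ h2)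
    rw [hw]
    exact (congrArg Cm.G.d h).symm
  · have key : ∀ T ∈ Submodule.span ℂ (Set.range (uu ρ)),
        inner ℂ (dl (1 : (Cm.zero ρ).G)) (T (dl (base c x))) = 0 := by
      intro T hT
      induction hT using Submodule.span_induction with
      | mem T hT =>
        obtain ⟨v, rfl⟩ := hT
        rw [uu, lam_dl]
        refine inner_dl_dl fun h => hb (Cm.G.ext (Prod.ext rfl ?_) ?_)
        · simpa only [Cm.one_d, Prod.snd_zero, Cm.mul_d, Cm.inV_d, aa, Cm.inV_k, act_one, Prod.snd_add, zero_add] using (congrArg (fun z => z.d.2) h).symm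
        · simpa using (congrArg (fun z => z.k) h).symm
      | zero => simp
      | add S T _ _ h1 h2 => rw [add_apply, inner_add_right, h1, h2, add_zero]
      | smul a T _ h1 => rw [smul_apply, inner_smul_right, h1, mul_zero]
    rw [model_apply, mul_apply_eq_comp, lam_dl, mul_one]
    exact key _ (gr_snd_mem _ (psi_mem _ c uu_add uu_zero x.mem))

theorem model_span (c : Cm ρ) :
    Submodule.span ℂ (Set.range (model c)) =
      Submodule.span ℂ (Set.range (lam (Cm.zero ρ).G)) := by
  have hmul : ∀ {H : Type} [Group H] (φ : H →* BL2 (Cm.zero ρ).G),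
      ∀ S ∈ Submodule.span ℂ (Set.range φ), ∀ T ∈ Submodule.span ℂ (Set.range φ),
        S * T ∈ Submodule.span ℂ (Set.range φ) := by
    intro H _ φ S hS T hT
    have := Submodule.mul_mem_mul hS hT
    rw [Submodule.span_mul_span] at this
    refine Submodule.span_mono ?_ this
    rintro _ ⟨_, ⟨a, rfl⟩, _, ⟨b, rfl⟩, rfl⟩
    exact ⟨a * b, map_mul _ _ _⟩
  apply le_antisymm
  · rw [Submodule.span_le]
    rintro _ ⟨x, rfl⟩
    refine hmul _ _ (Submodule.span_mono ?_ (gr_snd_mem _ (psi_mem _ c uu_add uu_zero x.mem))) _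
      (Submodule.subset_span ⟨_, rfl⟩)
    rintro _ ⟨v, rfl⟩
    exact ⟨_, rfl⟩
  · rw [Submodule.span_le]
    rintro _ ⟨x, rfl⟩
    have hV : ∀ v, uu ρ v ∈ Submodule.span ℂ (Set.range (model c)) := by
      intro v
      refine Submodule.subset_span ⟨c.inV v, ?_⟩
      have : base c (c.inV v) = 1 := rfl
      rw [model_apply, this, map_one, mul_one, Cm.inV_d, psi_aa]
    have h1 : (1 : BL2 (Cm.zero ρ).G) ∈ Submodule.span ℂ (Set.range (model c)) :=
      Submodule.subset_span ⟨1, map_one _⟩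
    have hadd : ∀ d e : Amb V, d ∈ (Cm.zero ρ).D → e ∈ (Cm.zero ρ).D →
        (∀ h, lam _ ((Cm.zero ρ).inD ⟨d, h⟩) ∈ Submodule.span ℂ (Set.range (model c))) →
        (∀ h, lam _ ((Cm.zero ρ).inD ⟨e, h⟩) ∈ Submodule.span ℂ (Set.range (model c))) →
        ∀ h, lam _ ((Cm.zero ρ).inD ⟨d + e, h⟩) ∈ Submodule.span ℂ (Set.range (model c)) := by
      intro d e hd he a1 a2 h
      have := hmul _ _ (a1 hd) _ (a2 he)
      rwa [← map_mul, ← Cm.inD_add] at this
    have hD : ∀ h, lam _ ((Cm.zero ρ).inD ⟨x.d, h⟩) ∈ Submodule.span ℂ (Set.range (model c)) := by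
      refine (Cm.zero ρ).D_induction (p := fun d => ∀ h, lam _ ((Cm.zero ρ).inD ⟨d, h⟩) ∈
        Submodule.span ℂ (Set.range (model c))) ?_ ?_ ?_ hadd ?_ x.mem
      · intro v _; exact hV v
      · intro v h
        have e1 : base c (c.inD ⟨c.bb v, c.bb_mem v⟩) = (Cm.zero ρ).inD ⟨_, h⟩ := by
          refine Cm.G.ext ?_ rfl
          ext l
          · change 0 = tau (l 0)
            rw [map_zero, tau_zero]
          · rfl
        have e2 : lam _ ((Cm.zero ρ).inD ⟨_, h⟩) =
            (((1 - Complex.I) / 2 : ℂ) • (1 : BL2 (Cm.zero ρ).G) +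
              ((1 + Complex.I) / 2 : ℂ) • uu ρ (c.r v)) * model c (c.inD ⟨c.bb v, c.bb_mem v⟩) := by
          rw [model_apply, Cm.inD_d, psi_bb _ c uu_zero, ← mul_assoc, jj_inv_mul, one_mul, e1]
        rw [e2]
        exact hmul _ _ (add_mem (Submodule.smul_mem _ _ h1) (Submodule.smul_mem _ _ (hV _))) _
          (Submodule.subset_span ⟨_, rfl⟩)
      · intro h
        have : (Cm.zero ρ).inD ⟨0, h⟩ = 1 := rfl
        rw [this, map_one]; exact h1
      · intro d hd a
        rw [(Cm.zero ρ).neg_eq hd]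
        exact hadd _ _ (add_mem hd hd) hd (hadd _ _ hd hd a a) a
    rw [Cm.eq_inD_mul_inK x, map_mul]
    refine hmul _ _ (hD _) _ (Submodule.subset_span ⟨c.inK x.k, ?_⟩)
    have : base c (c.inK x.k) = (Cm.zero ρ).inK x.k := rfl
    rw [model_apply, Cm.inK_d, Prod.fst_zero, psi_zero _ uu_zero, one_mul, this]

theorem vnIso_witt (c c' : Cm ρ) : VNIso c.G c'.G := by
  refine vnIso_of_models (dl 1) (norm_dl _) (model c) (model c') (model_unitary c)
    (model_unitary c') (model_trace c) (model_trace c')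
    ((model_span c).trans (model_span c').symm) ?_
  refine dense_dl.trans (Submodule.topologicalClosure_mono ?_)
  rw [Submodule.span_le]
  rintro _ ⟨g, rfl⟩
  have h1 : lam _ g ∈ Submodule.span ℂ (Set.range (model c)) :=
    model_span c ▸ Submodule.subset_span ⟨g, rfl⟩
  have h2 := Submodule.mem_map_of_mem
    (f := (ContinuousLinearMap.apply ℂ _ (dl (1 : (Cm.zero ρ).G))).toLinearMap) h1
  rw [Submodule.map_span, ← Set.range_comp] at h2
  have h3 : lam _ g (dl 1) ∈ Submodule.span ℂ (Set.range fun h => model c h (dl 1)) := h2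
  rwa [lam_dl, mul_one] at h3

end Pool.Agent.MP_434e52_an

/-!
Property (T) for `D_r ⋊ EL_3(R)`.
-/


namespace Pool.Agent.MP_434e52_an

variable {R : Type} [CommRing R]

theorem vec_split (v : VV R) : v = Function.update v 0 1 +
    (Pi.single 0 (v 0 - 1) + Pi.single 1 1) - Pi.single 1 1 := by
  ext1 l
  fin_cases l <;> simp

/-- A quadratic map on `R^3` takes its values in any subgroup containing the values on the three
affine slices. -/
theorem quad_mem {A : Type} [AddCommGroup A] (p : VV R → A) (p0 : p 0 = 0)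
    (cube : ∀ x a b c, p x + p (x + a + b) + p (x + a + c) + p (x + b + c) =
      p (x + a) + p (x + b) + p (x + c) + p (x + a + b + c))
    (N : AddSubgroup A) (hN : ∀ (i : Fin 3) (v : VV R), v i = 1 → p v ∈ N) (v : VV R) :
    p v ∈ N := by
  have add1 : ∀ a b c, p (a + b + c) - p (a + b) - p c =
      (p (a + c) - p a - p c) + (p (b + c) - p b - p c) := by
    intro a b c
    have := cube 0 a b c
    simp only [zero_add, p0] at this
    rw [← sub_eq_zero, ← sub_eq_zero.2 this.symm]
    abel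
  have base : ∀ (i : Fin 3) (v w : VV R), v i = 0 → w i = 0 → p (v + w) - p v - p w ∈ N := by
    intro i v w hv hw
    have := cube 0 (Pi.single i 1) v w
    simp only [zero_add, p0] at this
    have e : p (v + w) - p v - p w = p (Pi.single i 1) + p (Pi.single i 1 + v + w) -
        p (Pi.single i 1 + v) - p (Pi.single i 1 + w) := by
      rw [← sub_eq_zero, ← sub_eq_zero.2 this]
      abel
    rw [e]
    exact sub_mem (sub_mem (add_mem (hN i _ (by simp)) (hN i _ (by simp [hv, hw])))
      (hN i _ (by simp [hv]))) (hN i _ (by simp [hw]))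
  have dec : ∀ v : VV R, v = Pi.single 0 (v 0) + Pi.single 1 (v 1) + Pi.single 2 (v 2) := by
    intro v
    ext1 l
    fin_cases l <;> simp
  have one : ∀ (j : Fin 3) (a : R) (w : VV R),
      p (w + Pi.single j a) - p w - p (Pi.single j a) ∈ N := by
    intro j a w
    have h : ∀ (l : Fin 3) (b : R), p (Pi.single l b + Pi.single j a) - p (Pi.single l b) -
        p (Pi.single j a) ∈ N := by
      intro l b
      obtain ⟨i, h1, h2⟩ : ∃ i : Fin 3, i ≠ l ∧ i ≠ j := by revert l j; decide
      exact base i _ _ (by simp [h1]) (by simp [h2])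
    rw [dec w, add1, add1]
    exact add_mem (add_mem (h _ _) (h _ _)) (h _ _)
  have pol : ∀ v w : VV R, p (v + w) - p v - p w ∈ N := by
    intro v w
    have sw : ∀ (j : Fin 3) (a : R), p (Pi.single j a + w) - p (Pi.single j a) - p w ∈ N := by
      intro j a
      convert one j a w using 1
      rw [add_comm]; abel
    rw [dec v, add1, add1]
    exact add_mem (add_mem (sw _ _) (sw _ _)) (sw _ _)
  have e1 := pol v (Pi.single 1 1)
  have e2 := pol (Function.update v 0 1) (Pi.single 0 (v 0 - 1) + Pi.single 1 1)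
  rw [← eq_sub_iff_add_eq.1 (vec_split v)] at e2
  have e3 := sub_mem (add_mem (add_mem (sub_mem e2 e1) (hN 0 (Function.update v 0 1) (by simp)))
    (hN 1 (Pi.single 0 (v 0 - 1) + Pi.single 1 1) (by simp))) (hN 1 (Pi.single 1 1) (by simp))
  convert e3 using 1
  abel

variable {E : Type} [NormedAddCommGroup E] [InnerProductSpace ℂ E] [CompleteSpace E]

theorem near_fixed {F : Type} [Field F] [Fintype F] [Algebra F R] (hF : 8 ≤ Fintype.card F)
    (s t : R) (hst : Algebra.adjoin F {s, t} = ⊤) (π : KK R →* (E →L[ℂ] E))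
    (hπ : ∀ g, π g ∈ unitary (E →L[ℂ] E)) (v : E) {δ : ℝ}
    (h1 : ∀ f : F, ‖π (xx ne01 (algebraMap F R f)) v - v‖ ≤ δ)
    (h2 : ∀ f : F, ‖π (xx ne12 (algebraMap F R f)) v - v‖ ≤ δ)
    (h3 : ∀ a : F × F × F, ‖π (xx ne20 (mm s t a)) v - v‖ ≤ δ) :
    ∃ η : E, (∀ g, π g η = η) ∧ ‖v - η‖ ≤ 4 * δ := by
  have a1 : ∀ {i j : Fin 3} (h : i ≠ j) (a b : F), xx h (algebraMap F R (a + b)) =
      xx h (algebraMap F R a) * xx h (algebraMap F R b) := fun h a b => by rw [map_add, xx_add]
  have a2 : ∀ {i j : Fin 3} (h : i ≠ j) (a b : F × F × F), xx h (mm s t (a + b)) =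
      xx h (mm s t a) * xx h (mm s t b) := fun h a b => by rw [mm_add, xx_add]
  obtain ⟨η, f1, f2, f3, e⟩ := near_three hπ (a1 ne01) (a1 ne12) (a2 ne20) hF
    ⟨fun c => xx ne20.symm (algebraMap F R c), fun a b => a * b, a1 _,
      fun a c => xx_comm _ _ ne20 ne01.symm _ _, fun a c => xx_comm _ _ ne12.symm ne20 _ _,
      fun a b => by beta_reduce; rw [map_mul]; exact xx_rel _ _ _ _ _,
      fun b hb => (Equiv.mulRight₀ b hb).bijective⟩
    ⟨fun c => xx ne01.symm (mm s t c), fun a b => (-b) • a, a2 _,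
      fun a c => xx_comm _ _ ne20.symm ne01 _ _, fun a c => xx_comm _ _ ne01 ne12.symm _ _,
      fun a b => by
        beta_reduce
        rw [mm_smul, map_neg, neg_mul, xx_neg, xx_rel ne12 ne20 ne01.symm, mul_inv_cancel_right],
      fun b hb => (MulAction.toPerm (Units.mk0 (-b) (neg_ne_zero.2 hb))).bijective⟩
    ⟨fun c => xx ne12.symm (mm s t c), fun a b => b • a, a2 _,
      fun a c => xx_comm _ _ ne12 ne20.symm _ _, fun a c => xx_comm _ _ ne01.symm ne12 _ _,
      fun a b => by
        beta_reduce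
        rw [mm_smul, mul_comm (algebraMap F R b)]
        exact xx_rel _ _ _ _ _,
      fun b hb => (MulAction.toPerm (Units.mk0 b hb)).bijective⟩ h1 h2 h3
  let H : Subgroup (KK R) :=
    { carrier := {g | π g η = η}
      one_mem' := by simp only [Set.mem_ofPred_eq, map_one, one_apply_eq_self]
      mul_mem' := fun {a b} ha hb => by
        simp only [Set.mem_ofPred_eq] at *
        rw [map_mul, mul_apply_eq_comp, hb, ha]
      inv_mem' := fun {a} ha => by
        simp only [Set.mem_ofPred_eq] at *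
        rw [← ha, ← mul_apply_eq_comp, ← map_mul, inv_mul_cancel, ha]
        simp only [map_one, one_apply_eq_self] }
  have : H = ⊤ := eq_top_of_three s t hst f1 f2 f3
  exact ⟨η, fun g => (this ▸ Subgroup.mem_top g : g ∈ H), e⟩

theorem move_mul {Γ : Type} [Group Γ] {π : Γ →* (E →L[ℂ] E)}
    (hπ : ∀ g, π g ∈ unitary (E →L[ℂ] E)) (η : E) (g h : Γ) :
    ‖π (g * h) η - η‖ ≤ ‖π g η - η‖ + ‖π h η - η‖ := by
  have : π (g * h) η - η = (π g η - η) + π g (π h η - η) := by
    rw [map_mul, mul_apply_eq_comp, map_sub]; abel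
  rw [this, ← un_norm hπ g (π h η - η)]
  exact norm_add_le _ _

variable [Algebra (ZMod 2) R]

theorem D_moves (c : Cm (rho R)) (π : c.G →* (E →L[ℂ] E))
    (hπ : ∀ g, π g ∈ unitary (E →L[ℂ] E)) (η : E) (hη : ∀ g, π (c.inK g) η = η) {δ : ℝ}
    (ha : ∀ i : Fin 3, ‖π (c.inV (Pi.single i 1)) η - η‖ ≤ δ)
    (hb : ∀ i : Fin 3, ‖π (c.inD ⟨c.bb (Pi.single i 1), c.bb_mem _⟩) η - η‖ ≤ δ) (d : c.D) :
    ‖π (c.inD d) η - η‖ ≤ 21 * δ := by
  have conj : ∀ (g : KK R) (x : c.G),
      ‖π (c.inK g * x * (c.inK g)⁻¹) η - η‖ = ‖π x η - η‖ := by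
    intro g x
    rw [← map_inv, map_mul, map_mul, mul_apply_eq_comp, mul_apply_eq_comp, hη,
      ← un_norm hπ (c.inK g) (π x η - η), map_sub, hη]
  have hA : ∀ (i : Fin 3) (v : VV R), v i = 1 → ‖π (c.inV v) η - η‖ ≤ δ := by
    intro i v hv
    obtain ⟨g, rfl⟩ := exists_rho_single i v hv
    rw [← c.inK_k g, ← Cm.conj_inV, conj]
    exact ha i
  let b : VV R → c.D := fun v => ⟨c.bb v, c.bb_mem v⟩
  have hB : ∀ (i : Fin 3) (v : VV R), v i = 1 → ‖π (c.inD (b v)) η - η‖ ≤ δ := by
    intro i v hv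
    obtain ⟨g, rfl⟩ := exists_rho_single i v hv
    have : c.inD (b (rho R g (Pi.single i 1))) =
        c.inK g * c.inD (b (Pi.single i 1)) * (c.inK g)⁻¹ :=
      Cm.G.ext (by rw [Cm.conj_d _ _ rfl]; exact (c.act_bb _ _).symm) (Cm.conj_k _ _ rfl).symm
    rw [this, conj]
    exact hb i
  have hA3 : ∀ v : VV R, ‖π (c.inV v) η - η‖ ≤ 3 * δ := by
    intro v
    have e := vec_split v
    rw [sub_eq_add_neg, neg_eq_of_add_eq_zero_left (add_self_two (Pi.single 1 1 : VV R))] at e
    rw [e, Cm.inV_add, Cm.inV_add]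
    have h1 := hA 0 (Function.update v 0 1) (by simp)
    have h2 := hA 1 (Pi.single 0 (v 0 - 1) + Pi.single 1 1) (by simp)
    have h3 := hA 1 (Pi.single 1 1) (by simp)
    linarith [move_mul hπ η (c.inV (Function.update v 0 1) *
      c.inV (Pi.single 0 (v 0 - 1) + Pi.single 1 1)) (c.inV (Pi.single 1 1)),
      move_mul hπ η (c.inV (Function.update v 0 1)) (c.inV (Pi.single 0 (v 0 - 1) + Pi.single 1 1))]
  have bc : ∀ x p q u, b x + b (x + p + q) + b (x + p + u) + b (x + q + u) =
      b (x + p) + b (x + q) + b (x + u) + b (x + p + q + u) :=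
    fun x p q u => Subtype.ext (c.bb_cube x p q u)
  let N : Fin 3 → AddSubgroup c.D := fun i =>
    AddSubgroup.closure (Set.range fun w => b (Function.update w i 1))
  have hN : ∀ i, ∀ x ∈ N i, ‖π (c.inD x) η - η‖ ≤ 6 * δ := by
    intro i x hx
    have up : ∀ x p : VV R, Function.update (x + p) i 1 =
        Function.update x i 1 + Function.update p i 0 := by
      intro x p
      ext1 l
      by_cases h : l = i
      · subst h; simp
      · simp [h]
    refine cube_near hπ Cm.inD_add (fun a => Subtype.ext (c.four_smul a.2)) ?_ add_self_two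
      (fun w => hB i _ (by simp)) hx
    intro x p q u
    simp only [up]
    exact bc _ _ _ _
  have hq : ∀ v, b v ∈ N 0 ⊔ N 1 ⊔ N 2 := by
    refine quad_mem b (Subtype.ext c.bb_zero) bc _ fun i v hv => ?_
    have : b v ∈ N i := AddSubgroup.subset_closure ⟨v, by simp only [← hv, Function.update_eq_self]⟩
    fin_cases i
    · exact AddSubgroup.mem_sup_left (AddSubgroup.mem_sup_left this)
    · exact AddSubgroup.mem_sup_left (AddSubgroup.mem_sup_right this)
    · exact AddSubgroup.mem_sup_right this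
  have hd : ∃ v, ∃ y ∈ N 0 ⊔ N 1 ⊔ N 2, d.1 = aa v + y.1 := by
    refine c.D_induction (p := fun d => ∃ v, ∃ y ∈ N 0 ⊔ N 1 ⊔ N 2, d = aa v + y.1) ?_ ?_ ?_ ?_ ?_
      d.2
    · intro v; exact ⟨v, 0, zero_mem _, by simp⟩
    · intro v; exact ⟨0, b v, hq v, by simp [aa_zero, b]⟩
    · exact ⟨0, 0, zero_mem _, by simp only [aa_zero, ZeroMemClass.coe_zero, add_zero]⟩
    · rintro _ _ _ _ ⟨v, y, hy, rfl⟩ ⟨w, z, hz, rfl⟩
      exact ⟨v + w, y + z, add_mem hy hz, by rw [aa_add, AddSubgroup.coe_add]; abel⟩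
    · rintro _ _ ⟨v, y, hy, rfl⟩
      exact ⟨-v, -y, neg_mem hy, by rw [aa_neg, AddSubgroup.coe_neg]; abel⟩
  obtain ⟨v, y, hy, e⟩ := hd
  obtain ⟨y', hy', y2, h2, rfl⟩ := AddSubgroup.mem_sup.1 hy
  obtain ⟨y0, h0, y1, h1, rfl⟩ := AddSubgroup.mem_sup.1 hy'
  have e2 : c.inD d = c.inV v * (c.inD y0 * c.inD y1 * c.inD y2) := by
    rw [← Cm.inD_add, ← Cm.inD_add]
    exact Cm.G.ext (by simp [act_one, e]) (by simp)
  rw [e2]
  linarith only [move_mul hπ η (c.inV v) (c.inD y0 * c.inD y1 * c.inD y2), move_mul hπ η (c.inD y0 * c.inD y1) (c.inD y2), move_mul hπ η (c.inD y0) (c.inD y1), hA3 v, hN 0 y0 h0, hN 1 y1 h1, hN 2 y2 h2]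

/-- Kazhdan pair with `ε = 1/200`. -/
theorem propT_G {F : Type} [Field F] [Fintype F] [Algebra F R] (hF : 8 ≤ Fintype.card F)
    (s t : R) (hst : Algebra.adjoin F {s, t} = ⊤) (c : Cm (rho R)) : PropT c.G := by
  classical
  let f : F ⊕ F ⊕ (F × F × F) ⊕ Fin 3 ⊕ Fin 3 → c.G :=
    Sum.elim (fun a => c.inK (xx ne01 (algebraMap F R a)))
      (Sum.elim (fun a => c.inK (xx ne12 (algebraMap F R a)))
        (Sum.elim (fun a => c.inK (xx ne20 (mm s t a)))
          (Sum.elim (fun i => c.inV (Pi.single i 1))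
            fun i => c.inD ⟨c.bb (Pi.single i 1), c.bb_mem _⟩)))
  refine ⟨Finset.univ.image f, 1 / 200, by norm_num, ?_⟩
  rintro E _ _ _ π hπ ⟨v, hv, h⟩
  have h' : ∀ x, ‖π (f x) v - v‖ ≤ 1 / 200 := fun x =>
    (h _ (Finset.mem_image_of_mem f (Finset.mem_univ x))).le
  obtain ⟨η, hη, e⟩ := near_fixed hF s t hst (π.comp c.inK) (fun g => hπ _) v
    (fun a => h' (.inl a)) (fun a => h' (.inr (.inl a))) fun a => h' (.inr (.inr (.inl a)))
  have h9 : ∀ x, ‖π (f x) η - η‖ ≤ 9 / 200 := by
    intro x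
    have : π (f x) η - η = (π (f x) v - v) + (v - η) - π (f x) (v - η) := by
      rw [map_sub]; abel
    rw [this]
    have n1 := norm_sub_le (π (f x) v - v + (v - η)) (π (f x) (v - η))
    have n2 := norm_add_le (π (f x) v - v) (v - η)
    rw [un_norm hπ] at n1
    linarith only [h' x, e, n1, n2]
  have hD := D_moves c π hπ η hη (fun i => h9 (.inr (.inr (.inr (.inl i)))))
    fun i => h9 (.inr (.inr (.inr (.inr i))))
  obtain ⟨w, hw, e2⟩ := fixed_near hπ (η := η) (c := 21 * (9 / 200)) fun g => by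
    rw [Cm.eq_inD_mul_inK g, map_mul, mul_apply_eq_comp]
    exact (congrArg (fun z => ‖π _ z - η‖) (hη g.k)).trans_le (hD _)
  refine ⟨w, ?_, hw⟩
  rintro rfl
  rw [zero_sub, norm_neg] at e2
  have := norm_sub_norm_le v η
  linarith only [hv, e, e2, this]

end Pool.Agent.MP_434e52_an
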