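import Mathlib

/-!
Definition: linear groups.
-/

set_option autoImplicit false

namespace Pool.Agent.MP_434e52_an

/-- The group embeds in a general linear group over a field. -/
def IsLinear (G : Type) [Group G] : Prop :=
  ∃ (k : Type) (_ : Field k) (n : ℕ) (ρ : G →* GL (Fin n) k), Function.Injective ρ

end Pool.Agent.MP_434e52_an
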