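import Pool.Agent.MP_434e52_an.Fin
import Pool.Agent.MP_434e52_an.LDefs

attribute [-instance] RCLike.charZero_rclike IsSemitopologicalSemiring.toContinuousAdd
  NonarchimedeanAddGroup.toIsTopologicalAddGroup AlgHom.instNonUnitalAlgHomClassOfAlgHomClass
  SubfieldClass.toSubringClass instCharZeroOfIsSemireal AddSubgroup.seminormedAddCommGroup
  SubsemiringClass.toCommSemiring instNonUnitalAlgHomClassOfNonUnitalAlgEquivClass
  SemilinearIsometryClass.toContinuousSemilinearMapClass MonTypeEquivalenceMon.monMonoid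
  SubringClass.toSubsemiringClass CoalgHomClass.toSemilinearMapClass
  NonUnitalAlgHomClass.instLinearMapClass littleWedderburn
  AlgHom.instContinuousLinearMapClassOfAlgHomClass
  PositiveLinearMap.instContinuousLinearMapClassComplexOfLinearMapClassOfOrderHomClass
  RingHomClass.toLinearMapClassRat IsAddCyclic.isAddCommutative RKHS.instFunLike
  instUniformSpaceSubtype RingConeClass.toSubsemiringClass SetLike.GradeZero.instCommSemiring
  SetLike.GradeZero.instRing SemilinearIsometryClass.toSemilinearMapClass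
  NonUnitalRing.toNonUnitalNonAssocRing SubringClass.toRing CompletePartialOrder.toPartialOrder
  LaurentSeries.instCoePowerSeries
  NonUnitalAlgHomClass.instSemilinearMapClassOfNonUnitalAlgSemiHomClassToMonoidHomRingHom
  SetLike.GradeZero.instMonoid IsIsometricSMul.to_continuousConstSMul Subtype.pseudoMetricSpace
  NormedField.toField CommGroup.toDivisionCommMonoid
  NonUnitalSubringClass.toNonUnitalSubsemiringClass MulRingSeminormClass.toMonoidWithZeroHomClass
  IsTopologicalSemiring.toContinuousAdd NormedAlgebra.toAlgebra MonoidWithZero.toMulZeroOneClass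
  NumberField.to_charZero instSMulZeroClass AlgHomClass.linearMapClass AlgHomClass.toRingHomClass
  KleeneAlgebra.toIdemSemiring AddCommGroupWithOne.toAddGroupWithOne
  NonAssocCommSemiring.toNonAssocSemiring IsStrictOrderedRing.toCharZero NormedCommRing.toCommRing
  ContinuousSemilinearEquivClass.continuousSemilinearMapClass
  AddSubmonoidWithOneClass.toAddMonoidWithOne IdemCommSemiring.toIdemSemiring
  Action.FintypeCat.instMulActionObjFiniteOf NonAssocRing.toNonAssocSemiring
  SemilinearEquivClass.instSemilinearMapClass ContDiffMapSupportedInClass.toDFunLike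
  BooleanRing.toRing AddSubgroup.instIsTopologicalAddGroupSubtypeMem
  SubsemiringClass.nonUnitalSubsemiringClass IsValuativeTopology.instIsTopologicalAddGroup
  EuclideanDomain.toCommRing LieAdmissibleRing.toNonUnitalNonAssocRing
  NonUnitalAlgSemiHomClass.toDistribMulActionSemiHomClass GeneralizedCoheytingAlgebra.toLattice
  MulSemiringAction.toDistribMulAction LinearOrder.toDecidableEq
  NonUnitalNormedCommRing.toNonUnitalCommRing TestFunctionClass.toDFunLike
  BialgHomClass.toMonoidHomClass IdemCommSemiring.toCommSemiring IsAffineAddMonoid.toIsCancelAdd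
  SubsemiringClass.toSemiring SetLike.GradeZero.instCommRing SubsemiringClass.toNonAssocSemiring
  SeminormedRing.toRing OmegaCompletePartialOrder.toPartialOrder SeminormedCommRing.toCommRing
  LieRing.toAddCommGroup ValuationClass.toMonoidWithZeroHomClass
  MulSemiringActionSemiHomClass.toDistribMulActionSemiHomClass decidableEq_of_subsingleton
  NormedDivisionRing.toDivisionRing NeZero.charZero_one
  LinearOrderedAddCommMonoidWithTop.toAddCommMonoid SubfieldClass.toField
  NonUnitalNonAssocCommSemiring.toNonUnitalNonAssocSemiring Polynomial.charZero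
  instIsRightCancelAddOfAddRightReflectLE Module.FaithfullyFlat.toFlat SubringClass.toCommRing
  NonAssocCommRing.toNonUnitalNonAssocCommRing MulSemiringActionSemiHomClass.toRingHomClass
  MulRingSeminormClass.toMonoidHomClass AddGroupConeClass.toAddSubmonoidClass
  Algebra.IsFiniteSplit.instOfIsSepClosedOfEssFiniteTypeOfFormallyEtale
  NonUnitalNonAssocRing.toAddCommGroup MulCharClass.toMonoidHomClass instFiniteOfFinitePresentation
  BooleanRing.toCommRing GroupConeClass.toSubmonoidClass Bialgebra.toAlgebra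
  CentroidHomClass.toAddMonoidHomClass NonUnitalAlgSemiHomClass.toMulHomClass instCoeTC
  RingEquivClass.toNonUnitalRingHomClass NonUnitalSeminormedCommRing.toNonUnitalCommRing
  NormedDivisionRing.toNormedRing RingEquivClass.toRingHomClass
  MulEquivClass.toMonoidWithZeroHomClass NonUnitalNormedRing.toNormedAddCommGroup
  ChainCompletePartialOrder.toPartialOrder instCoeTOfCoeDep ESeminormedAddCommMonoid.toAddCommMonoid

set_option autoImplicit false

/-!
A linear property (T) group and a non-linear group with the same von Neumann algebra: central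
quotients of a group of block matrices `[1 b z; 0 g x; 0 0 1]` over `F[t]` in characteristic two.
-/

namespace Pool.Agent.MP_434e52_an.NL

open Matrix

variable {R : Type} [CommRing R]

/-- Block matrices `[1 b z; 0 g x; 0 0 1]` with `z` read modulo `N`. -/
@[ext] structure Hs (N : AddSubgroup R) : Type where
  z : R ⧸ N
  b : VV R
  x : VV R
  g : KK R

namespace Hs

variable {N : AddSubgroup R}

instance : Mul (Hs N) :=
  ⟨fun e f => ⟨e.z + f.z + ((e.b ⬝ᵥ f.x : R) : R ⧸ N), e.b ᵥ* mat f.g + f.b,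
    e.x + mat e.g *ᵥ f.x, e.g * f.g⟩⟩

instance : One (Hs N) := ⟨⟨0, 0, 0, 1⟩⟩

instance : Inv (Hs N) :=
  ⟨fun e => ⟨-e.z + ((e.b ⬝ᵥ (mat e.g⁻¹ *ᵥ e.x) : R) : R ⧸ N), -(e.b ᵥ* mat e.g⁻¹),
    -(mat e.g⁻¹ *ᵥ e.x), e.g⁻¹⟩⟩

@[simp] theorem mul_z (e f : Hs N) : (e * f).z = e.z + f.z + ((e.b ⬝ᵥ f.x : R) : R ⧸ N) := rfl
@[simp] theorem mul_b (e f : Hs N) : (e * f).b = e.b ᵥ* mat f.g + f.b := rfl
@[simp] theorem mul_x (e f : Hs N) : (e * f).x = e.x + mat e.g *ᵥ f.x := rfl
@[simp] theorem mul_g (e f : Hs N) : (e * f).g = e.g * f.g := rfl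
@[simp] theorem one_z : (1 : Hs N).z = 0 := rfl
@[simp] theorem one_b : (1 : Hs N).b = 0 := rfl
@[simp] theorem one_x : (1 : Hs N).x = 0 := rfl
@[simp] theorem one_g : (1 : Hs N).g = 1 := rfl
theorem inv_z (e : Hs N) :
    e⁻¹.z = -e.z + ((e.b ⬝ᵥ (mat e.g⁻¹ *ᵥ e.x) : R) : R ⧸ N) := rfl
theorem inv_b (e : Hs N) : e⁻¹.b = -(e.b ᵥ* mat e.g⁻¹) := rfl
theorem inv_x (e : Hs N) : e⁻¹.x = -(mat e.g⁻¹ *ᵥ e.x) := rfl
theorem inv_g (e : Hs N) : e⁻¹.g = e.g⁻¹ := rfl

instance : Group (Hs N) := Group.ofLeftAxioms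
  (fun e f h => Hs.ext
    (by
      simp only [mul_z, mul_b, mul_x, add_dotProduct, dotProduct_add, dotProduct_mulVec,
        QuotientAddGroup.mk_add]
      abel)
    (by simp only [mul_b, mul_g, mat_mul, add_vecMul, vecMul_vecMul, add_assoc])
    (by simp only [mul_x, mul_g, mat_mul, mulVec_add, mulVec_mulVec, add_assoc])
    (mul_assoc _ _ _))
  (fun e => Hs.ext (by simp) (by simp) (by simp [mat_one]) (one_mul _))
  (fun e => Hs.ext
    (by
      simp only [mul_z, inv_z, inv_b, neg_dotProduct, dotProduct_mulVec, QuotientAddGroup.mk_neg,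
        one_z]
      abel)
    (by
      simp only [mul_b, inv_b, neg_vecMul, vecMul_vecMul, ← mat_mul, inv_mul_cancel, mat_one,
        vecMul_one, neg_add_cancel, one_b])
    (by simp only [mul_x, inv_x, inv_g, neg_add_cancel, one_x])
    (inv_mul_cancel _))

/-- Central elements. -/
def zz (N : AddSubgroup R) (a : R) : Hs N := ⟨a, 0, 0, 1⟩
/-- Row elements. -/
def bb (N : AddSubgroup R) (v : VV R) : Hs N := ⟨0, v, 0, 1⟩
/-- Column elements. -/
def cc (N : AddSubgroup R) (v : VV R) : Hs N := ⟨0, 0, v, 1⟩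
/-- The elementary group inside. -/
def kk (N : AddSubgroup R) : KK R →* Hs N where
  toFun g := ⟨0, 0, 0, g⟩
  map_one' := rfl
  map_mul' g h := Hs.ext (by simp) (by simp) (by simp) rfl

theorem zz_add (a c : R) : zz N (a + c) = zz N a * zz N c :=
  Hs.ext (by simp [zz]) (by simp [zz]) (by simp [zz]) (by simp [zz])

theorem bb_add (v w : VV R) : bb N (v + w) = bb N v * bb N w :=
  Hs.ext (by simp [bb]) (by simp [bb, mat_one]) (by simp [bb]) (by simp [bb])

theorem cc_add (v w : VV R) : cc N (v + w) = cc N v * cc N w :=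
  Hs.ext (by simp [cc]) (by simp [cc]) (by simp [cc, mat_one]) (by simp [cc])

theorem zz_eq_iff {a c : R} : zz N a = zz N c ↔ a - c ∈ N := by
  rw [← QuotientAddGroup.eq_iff_sub_mem]
  exact ⟨fun h => congrArg Hs.z h, fun h => Hs.ext h rfl rfl rfl⟩

theorem kk_cc (g : KK R) (v : VV R) : kk N g * cc N v = cc N (mat g *ᵥ v) * kk N g :=
  Hs.ext (by simp [kk, cc]) (by simp [kk, cc]) (by simp [kk, cc]) (by simp [kk, cc])

theorem bb_kk (g : KK R) (v : VV R) : bb N v * kk N g = kk N g * bb N (v ᵥ* mat g) :=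
  Hs.ext (by simp [kk, bb]) (by simp [kk, bb]) (by simp [kk, bb]) (by simp [kk, bb])

theorem bb_cc (v w : VV R) : bb N v * cc N w = zz N (v ⬝ᵥ w) * (cc N w * bb N v) :=
  Hs.ext (by simp [zz, cc, bb]) (by simp [zz, cc, bb, mat_one]) (by simp [zz, cc, bb, mat_one])
    (by simp only [bb, cc, mul_g, mul_one, zz])

theorem decomp (e : Hs N) : ∃ a, e = cc N e.x * kk N e.g * bb N e.b * zz N a := by
  obtain ⟨a, ha⟩ := QuotientAddGroup.mk_surjective e.z
  exact ⟨a, Hs.ext (by simp [zz, cc, bb, kk, ha]) (by simp [zz, cc, bb, kk, mat_one])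
    (by simp [zz, cc, bb, kk]) (by simp only [cc, kk, MonoidHom.coe_mk, OneHom.coe_mk, bb, zz, mul_g, one_mul, mul_one])⟩

instance [Countable R] : Countable (Hs N) :=
  have : Countable (R ⧸ N) := QuotientAddGroup.mk_surjective.countable
  Function.Injective.countable (f := fun e : Hs N => (e.z, e.b, e.x, e.g)) fun e f h => by
    simp only [Prod.mk.injEq] at h
    exact Hs.ext h.1 h.2.1 h.2.2.1 h.2.2.2

/-- Forgetting the centre. -/
def pr (N : AddSubgroup R) : Hs N →* Hs (⊤ : AddSubgroup R) where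
  toFun e := ⟨0, e.b, e.x, e.g⟩
  map_one' := rfl
  map_mul' _ _ := Hs.ext (QuotientAddGroup.subsingleton_quotient_top.elim _ _) rfl rfl rfl

end Hs

end Pool.Agent.MP_434e52_an.NL

namespace Pool.Agent.MP_434e52_an.NL

open Matrix Polynomial

section TT

variable {R : Type} [CommRing R]

theorem xx_mulVec {i j : Fin 3} (h : i ≠ j) (a : R) (v : VV R) :
    mat (xx h a) *ᵥ v = v + Pi.single i (a * v j) := by
  rw [mat_xx, add_mulVec, one_mulVec, single_mulVec_eq]
  congr 1
  ext1 l
  by_cases hl : l = i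
  · subst hl; simp
  · simp [hl]

theorem vecMul_xx {i j : Fin 3} (h : i ≠ j) (a : R) (v : VV R) :
    v ᵥ* mat (xx h a) = v + Pi.single j (v i * a) := by
  rw [mat_xx, vecMul_add, vecMul_one]
  congr 1
  ext1 l
  by_cases hl : l = j
  · subst hl; simp [vecMul, dotProduct, single_apply]
  · simp [vecMul, dotProduct, hl, Ne.symm hl]

theorem three (i : Fin 3) : ∃ j k : Fin 3, j ≠ i ∧ k ≠ i ∧ j ≠ k ∧ ∀ l, l = i ∨ l = j ∨ l = k := by
  revert i
  decide

theorem exists_col (i : Fin 3) (v : VV R) (hv : v i = 1) :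
    ∃ g : KK R, mat g *ᵥ Pi.single i 1 = v := by
  obtain ⟨j, k, hj, hk, hjk, hall⟩ := three i
  refine ⟨xx hj (v j) * xx hk (v k), ?_⟩
  rw [mat_mul, ← mulVec_mulVec, xx_mulVec, xx_mulVec]
  ext1 l
  rcases hall l with rfl | rfl | rfl
  · simp [hj.symm, hk.symm, hv]
  · simp [hj, hk.symm, hjk]
  · simp [hk, hjk.symm]

theorem exists_row (i : Fin 3) (v : VV R) (hv : v i = 1) :
    ∃ g : KK R, Pi.single i 1 ᵥ* mat g = v := by
  obtain ⟨j, k, hj, hk, hjk, hall⟩ := three i
  refine ⟨xx hj.symm (v j) * xx hk.symm (v k), ?_⟩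
  rw [mat_mul, ← vecMul_vecMul, vecMul_xx, vecMul_xx]
  ext1 l
  rcases hall l with rfl | rfl | rfl
  · simp [hj.symm, hk.symm, hv]
  · simp [hj, hj.symm, hjk]
  · simp [hk, hj.symm, hjk.symm]

/-- Bounded generation relative to the elementary group. -/
theorem Hs.len {N : AddSubgroup R} (l : Hs N → ℝ) (lm : ∀ e f, l (e * f) ≤ l e + l f)
    (li : ∀ e, l e⁻¹ ≤ l e) (lk : ∀ g, l (Hs.kk N g) ≤ 0) {δ : ℝ}
    (hb : ∀ i, l (Hs.bb N (Pi.single i 1)) ≤ δ) (hc : ∀ i, l (Hs.cc N (Pi.single i 1)) ≤ δ)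
    (e : Hs N) : l e ≤ 14 * δ := by
  have key : ∀ u : VV R → Hs N, (∀ v w, u (v + w) = u v * u w) →
      (∀ i v, v i = 1 → l (u v) ≤ δ) → ∀ v, l (u v) ≤ 3 * δ := fun u hu h v => by
    have e := eq_sub_iff_add_eq.1 (vec_split v)
    have e2 : u v = u (Function.update v 0 1) * u (Pi.single 0 (v 0 - 1) + Pi.single 1 1) *
        (u (Pi.single 1 1))⁻¹ := by
      rw [← hu, ← e, hu, mul_inv_cancel_right]
    rw [e2]
    linarith only [lm (u (Function.update v 0 1) * u (Pi.single 0 (v 0 - 1) + Pi.single 1 1))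
      (u (Pi.single 1 1))⁻¹, lm (u (Function.update v 0 1))
      (u (Pi.single 0 (v 0 - 1) + Pi.single 1 1)), li (u (Pi.single 1 1)), h 0 (Function.update v 0 1) (by simp), h 1 (Pi.single 0 (v 0 - 1) + Pi.single 1 1) (by simp), h 1 (Pi.single 1 1) (by simp)]
  have c3 := key _ Hs.cc_add fun i v hv => by
    obtain ⟨g, rfl⟩ := exists_col i v hv
    rw [← mul_inv_eq_iff_eq_mul.2 (Hs.kk_cc g _), ← map_inv]
    linarith [lm (Hs.kk N g * Hs.cc N (Pi.single i 1)) (Hs.kk N g⁻¹),
      lm (Hs.kk N g) (Hs.cc N (Pi.single i 1)), lk g, lk g⁻¹, hc i]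
  have b3 := key _ Hs.bb_add fun i v hv => by
    obtain ⟨g, rfl⟩ := exists_row i v hv
    rw [← inv_mul_eq_iff_eq_mul.2 (Hs.bb_kk g _), ← map_inv]
    linarith [lm (Hs.kk N g⁻¹) (Hs.bb N (Pi.single i 1) * Hs.kk N g),
      lm (Hs.bb N (Pi.single i 1)) (Hs.kk N g), lk g, lk g⁻¹, hb i]
  obtain ⟨a, h⟩ := e.decomp
  have z := mul_inv_eq_iff_eq_mul.2 (Hs.bb_cc (N := N) (Pi.single 0 1) (Pi.single 0 a))
  rw [single_dotProduct, one_mul, Pi.single_eq_same] at z
  rw [h, ← z]
  generalize e.x = x, e.b = b, e.g = g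
  have := hb 0
  have := c3 (Pi.single 0 a)
  generalize Hs.bb N (Pi.single 0 1) = B, Hs.cc N (Pi.single 0 a) = D at *
  linarith [lm (Hs.cc N x * Hs.kk N g * Hs.bb N b) (B * D * (D * B)⁻¹),
    lm (Hs.cc N x * Hs.kk N g) (Hs.bb N b), lm (Hs.cc N x) (Hs.kk N g), lm (B * D) (D * B)⁻¹,
    li (D * B), lm B D, lm D B, c3 x, b3 b, lk g]

/-- The generators. -/
noncomputable def gens {F : Type} [Field F] (N : AddSubgroup F[X]) :
    F ⊕ F ⊕ (F × F × F) ⊕ Fin 3 ⊕ Fin 3 → Hs N :=
  Sum.elim (fun a => Hs.kk N (xx ne01 (algebraMap F _ a)))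
    (Sum.elim (fun a => Hs.kk N (xx ne12 (algebraMap F _ a)))
      (Sum.elim (fun a => Hs.kk N (xx ne20 (mm X X a)))
        (Sum.elim (fun i => Hs.bb N (Pi.single i 1)) fun i => Hs.cc N (Pi.single i 1))))

theorem adj (F : Type) [Field F] : Algebra.adjoin F {(X : F[X]), X} = ⊤ := by
  simp

theorem Hs.propT {F : Type} [Field F] [Fintype F] (hF : 8 ≤ Fintype.card F)
    (N : AddSubgroup F[X]) : PropT (Hs N) := by
  classical
  refine ⟨Finset.univ.image (gens N), 1 / 200, by norm_num, ?_⟩
  rintro E _ _ _ π hπ ⟨v, hv, h⟩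
  have h' : ∀ x, ‖π (gens N x) v - v‖ ≤ 1 / 200 := fun x =>
    (h _ (Finset.mem_image_of_mem _ (Finset.mem_univ x))).le
  obtain ⟨η, hη, e⟩ := near_fixed hF X X (adj F) (π.comp (Hs.kk N)) (fun g => hπ _) v
    (fun a => h' (.inl a)) (fun a => h' (.inr (.inl a))) fun a => h' (.inr (.inr (.inl a)))
  have h9 : ∀ x, ‖π (gens N x) η - η‖ ≤ 9 / 200 := by
    intro x
    have : π (gens N x) η - η = (π (gens N x) v - v) + (v - η) - π (gens N x) (v - η) := by
      rw [map_sub]; abel
    rw [this]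
    have n1 := norm_sub_le (π (gens N x) v - v + (v - η)) (π (gens N x) (v - η))
    have n2 := norm_add_le (π (gens N x) v - v) (v - η)
    rw [un_norm hπ] at n1
    linarith only [h' x, e, n1, n2]
  obtain ⟨w, hw, e2⟩ := fixed_near hπ (η := η) (c := 14 * (9 / 200))
    (Hs.len (fun g => ‖π g η - η‖) (move_mul hπ η) (fun g => by
      rw [← un_norm hπ g, map_sub, ← mul_apply_eq_comp, ← map_mul, mul_inv_cancel, map_one,
        norm_sub_rev]
      rfl) (fun g => by rw [show π (Hs.kk N g) η = η from hη g, sub_self, norm_zero])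
      (fun i => h9 (.inr (.inr (.inr (.inl i))))) fun i => h9 (.inr (.inr (.inr (.inr i)))))
  refine ⟨w, ?_, hw⟩
  rintro rfl
  rw [zero_sub, norm_neg] at e2
  have := norm_sub_norm_le v η
  linarith only [hv, e, e2, this]

theorem Hs.fg {F : Type} [Field F] [Fintype F] (N : AddSubgroup F[X]) : Group.FG (Hs N) := by
  classical
  refine Group.fg_iff.2 ⟨Set.range (gens N), eq_top_iff.2 fun e _ => ?_, Set.finite_range _⟩
  set U := Subgroup.closure (Set.range (gens N))
  have m : ∀ x, gens N x ∈ U := fun x => Subgroup.subset_closure ⟨x, rfl⟩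
  have k : U.comap (Hs.kk N) = ⊤ := eq_top_of_three X X (adj F) (fun a => m (.inl a))
    (fun a => m (.inr (.inl a))) fun a => m (.inr (.inr (.inl a)))
  have := Hs.len (fun g => if g ∈ U then 0 else 1) (fun e f => ?_) (fun e => by simp)
    (fun g => (if_pos (show g ∈ U.comap (Hs.kk N) from k ▸ Subgroup.mem_top g)).le)
    (δ := 0) (fun i => (if_pos (m (.inr (.inr (.inr (.inl i)))))).le)
    (fun i => (if_pos (m (.inr (.inr (.inr (.inr i)))))).le) e
  · by_contra h
    rw [if_neg h] at this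
    linarith
  · by_cases h1 : e ∈ U <;> by_cases h2 : f ∈ U
    · simp [h1, h2, mul_mem h1 h2]
    all_goals
      simp only [h1, h2, if_true, if_false]
      split_ifs <;> norm_num

theorem Hs.icc_top {R : Type} [CommRing R] [IsDomain R] [Infinite R] :
    ICC (Hs (⊤ : AddSubgroup R)) := by
  intro e he
  have key : ∀ (u : R → Hs (⊤ : AddSubgroup R)) (p : Hs (⊤ : AddSubgroup R) → R) (c d : R),
      c ≠ 0 → (∀ a, p (u a * e * (u a)⁻¹) = d + a * c) → {h | IsConj e h}.Infinite :=
    fun u p c d hc h => Set.infinite_of_injective_forall_mem (f := fun a => u a * e * (u a)⁻¹)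
      (fun a b hab => mul_right_cancel₀ hc (add_left_cancel
        ((h a).symm.trans ((congrArg p hab).trans (h b))))) fun a => isConj_iff.2 ⟨_, rfl⟩
  by_cases hg : e.g = 1
  · by_cases hx : e.x = 0
    · obtain ⟨i, hi⟩ : ∃ i, e.b i ≠ 0 := by
        by_contra h
        push Not at h
        exact he (Hs.ext (QuotientAddGroup.subsingleton_quotient_top.elim _ _) (funext h) hx hg)
      obtain ⟨j, hj⟩ := exists_ne i
      refine key (fun a => Hs.kk ⊤ (xx hj.symm (-a))) (fun f => f.b j) _ (e.b j) hi fun a => ?_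
      rw [← map_inv, ← xx_neg]
      simp [Hs.kk, vecMul_xx, mul_comm]
    · obtain ⟨i, hi⟩ := Function.ne_iff.1 hx
      obtain ⟨j, hj⟩ := exists_ne i
      refine key (fun a => Hs.kk ⊤ (xx hj a)) (fun f => f.x j) _ (e.x j) hi fun a => ?_
      rw [← map_inv]
      simp only [kk, MonoidHom.coe_mk, OneHom.coe_mk, mul_x, xx_mulVec, zero_add, mul_g, mulVec_zero, Pi.add_apply, Pi.single_eq_same, Pi.zero_apply, add_zero]
  · obtain ⟨i, j, h⟩ : ∃ i j, (1 - mat e.g) i j ≠ 0 := by
      by_contra h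
      push Not at h
      exact hg (mat_injective (sub_eq_zero.1 (Matrix.ext h)).symm)
    refine key (fun a => Hs.cc ⊤ (Pi.single j a)) (fun f => f.x i) _ (e.x i) h fun a => ?_
    have : a * (1 - mat e.g) i j = ((1 - mat e.g) *ᵥ Pi.single j a) i := by
      simp [mul_comm]
    simp only [this, Hs.mul_x, Hs.mul_g, Hs.inv_x, Hs.cc, inv_one, mat_one, one_mulVec, one_mul,
      mulVec_neg, Pi.add_apply, Pi.neg_apply, sub_mulVec, Pi.sub_apply]
    ring

theorem Hs.center_eq {R : Type} [CommRing R] [IsDomain R] [Infinite R] (N : AddSubgroup R) :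
    Subgroup.center (Hs N) = (Hs.pr N).ker := by
  ext e
  rw [Subgroup.mem_center_iff, MonoidHom.mem_ker]
  constructor
  · intro h
    by_contra h1
    refine Hs.icc_top _ h1 ((Set.finite_singleton (Hs.pr N e)).subset fun f hf => ?_)
    obtain ⟨c, rfl⟩ := isConj_iff.1 hf
    have := congrArg (Hs.pr N) (h ⟨0, c.b, c.x, c.g⟩)
    rw [map_mul, map_mul, show Hs.pr N ⟨0, c.b, c.x, c.g⟩ = c from
      Hs.ext (QuotientAddGroup.subsingleton_quotient_top.elim _ _) rfl rfl rfl] at this
    exact mul_inv_eq_iff_eq_mul.2 this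
  · intro h f
    have h1 : e.b = 0 := congrArg Hs.b h
    have h2 : e.x = 0 := congrArg Hs.x h
    have h3 : e.g = 1 := congrArg Hs.g h
    exact Hs.ext (by simp [h1, h2, add_comm]) (by simp [h1, h3, mat_one])
      (by simp [h2, h3, mat_one]) (by simp [h3])

theorem Hs.quot_center {R : Type} [CommRing R] [IsDomain R] [Infinite R] (N : AddSubgroup R) :
    Nonempty (Hs N ⧸ Subgroup.center (Hs N) ≃* Hs (⊤ : AddSubgroup R)) :=
  ⟨(QuotientGroup.quotientMulEquivOfEq (Hs.center_eq N)).trans
    (QuotientGroup.quotientKerEquivOfSurjective _ fun c => ⟨⟨0, c.b, c.x, c.g⟩,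
      Hs.ext (QuotientAddGroup.subsingleton_quotient_top.elim _ _) rfl rfl rfl⟩)⟩

theorem Hs.infinite_center {R : Type} [CommRing R] (N : AddSubgroup R) [Infinite (R ⧸ N)] :
    Infinite (Subgroup.center (Hs N)) :=
  Infinite.of_injective (fun z : R ⧸ N => (⟨⟨z, 0, 0, 1⟩, Subgroup.mem_center_iff.2 fun f =>
    Hs.ext (by simp only [mul_z, add_comm, dotProduct_zero, QuotientAddGroup.mk_zero, add_zero, zero_dotProduct]) (by simp [mat_one]) (by simp [mat_one]) (by simp)⟩ :
      Subgroup.center (Hs N))) fun _ _ h => congrArg (fun e => e.1.z) h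

theorem ICC.of_equiv {G H : Type} [Group G] [Group H] (e : G ≃* H) (h : ICC H) : ICC G := by
  intro g hg
  refine Set.Infinite.of_image e ((h (e g) (by simpa using hg)).mono fun y hy => ?_)
  obtain ⟨c, rfl⟩ := isConj_iff.1 hy
  exact ⟨e.symm c * g * (e.symm c)⁻¹, isConj_iff.2 ⟨_, rfl⟩, by simp only [map_mul, MulEquiv.apply_symm_apply, map_inv]⟩

end TT

end Pool.Agent.MP_434e52_an.NL

namespace Pool.Agent.MP_434e52_an.NL

open Matrix Polynomial

/-! ### Block MP: deep subgroups, Malcev-Platonov, transfer along virtual isomorphisms -/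

section MP

/-- The lower central series of a subgroup, inside the group. -/
def lc {G : Type} [Group G] (A : Subgroup G) : ℕ → Subgroup G
  | 0 => A
  | n + 1 => ⁅lc A n, A⁆

/-- Some finite index subgroup is residually nilpotent up to a finite set. -/
def RN (G : Type) [Group G] : Prop :=
  ∃ A : Subgroup G, A.FiniteIndex ∧ {g | ∀ n, g ∈ lc A n}.Finite

theorem mp_lc_mono {G : Type} [Group G] {A B : Subgroup G} (h : A ≤ B) (n : ℕ) :
    lc A n ≤ lc B n := by
  induction n with
  | zero => exact h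
  | succ n ih => exact Subgroup.commutator_mono ih h

theorem mp_lc_anti {G : Type} [Group G] (A : Subgroup G) : Antitone (lc A) := by
  refine antitone_nat_of_succ_le fun n => ?_
  induction n with
  | zero =>
    exact Subgroup.commutator_le.2 fun a ha b hb =>
      A.mul_mem (A.mul_mem (A.mul_mem ha hb) (A.inv_mem ha)) (A.inv_mem hb)
  | succ n ih => exact Subgroup.commutator_mono ih le_rfl

theorem mp_lc_map {G H : Type} [Group G] [Group H] (f : G →* H) (A : Subgroup G) (n : ℕ) :
    (lc A n).map f = lc (A.map f) n := by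
  induction n with
  | zero => rfl
  | succ n ih => rw [lc, lc, Subgroup.map_commutator, ih]

theorem mp_fibre {G H : Type} [Group G] [Group H] (f : G →* H) [Finite f.ker] (q : H) :
    (f ⁻¹' {q}).Finite := by
  rcases (f ⁻¹' {q}).eq_empty_or_nonempty with h | ⟨a, ha⟩
  · rw [h]; exact Set.finite_empty
  · obtain rfl : f a = q := ha
    exact Finite.of_equiv _ (f.fiberEquivKer a).symm

theorem mp_push {G Q : Type} [Group G] [Group Q] (f : G →* Q) [Finite f.ker]
    [f.range.FiniteIndex] (h : RN G) : RN Q := by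
  obtain ⟨A, hA, hf⟩ := h
  refine ⟨A.map f, ⟨?_⟩, (hf.image f).subset fun q hq => ?_⟩
  · rw [Subgroup.index_map]
    have : (A ⊔ f.ker).FiniteIndex := Subgroup.finiteIndex_of_le le_sup_left
    exact mul_ne_zero Subgroup.FiniteIndex.index_ne_zero Subgroup.FiniteIndex.index_ne_zero
  · have hq' : ∀ n, ∃ a : f ⁻¹' {q}, (a : G) ∈ lc A n := fun n => by
      have := hq n
      rw [← mp_lc_map] at this
      obtain ⟨a, ha, rfl⟩ := this
      exact ⟨⟨a, rfl⟩, ha⟩
    choose a ha using hq'
    have : Finite (f ⁻¹' {q}) := mp_fibre f q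
    obtain ⟨y, hy⟩ := Finite.exists_infinite_fiber a
    refine ⟨y, fun n => ?_, y.2⟩
    obtain ⟨m, hm, hnm⟩ := (Set.infinite_coe_iff.1 hy).exists_gt n
    obtain rfl : a m = y := hm
    exact mp_lc_anti A hnm.le (ha m)

theorem mp_pull {G Q : Type} [Group G] [Group Q] (f : G →* Q) [Finite f.ker] (h : RN Q) :
    RN G := by
  obtain ⟨A, hA, hf⟩ := h
  refine ⟨A.comap f, ⟨?_⟩, (hf.preimage' fun q _ => mp_fibre f q).subset fun g hg n => ?_⟩
  · rw [Subgroup.index_comap]
    exact Subgroup.FiniteIndex.index_ne_zero (H := A.subgroupOf f.range)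
  · refine mp_lc_mono (Subgroup.map_comap_le f A) n ?_
    rw [← mp_lc_map]
    exact ⟨g, hg n, rfl⟩

/-- The congruence subgroup of an ideal. -/
def mpCong {G R : Type} [Group G] [CommRing R] {n : ℕ} (σ : G →* Matrix (Fin n) (Fin n) R)
    (I : Ideal R) : Subgroup G :=
  (((Ideal.Quotient.mk I).mapMatrix : Matrix (Fin n) (Fin n) R →+* _).toMonoidHom.comp σ).ker

theorem mp_mem_cong {G R : Type} [Group G] [CommRing R] {n : ℕ}
    {σ : G →* Matrix (Fin n) (Fin n) R} {I : Ideal R} {g : G} :
    g ∈ mpCong σ I ↔ ∀ i j, (σ g - 1) i j ∈ I := by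
  have : g ∈ mpCong σ I ↔ (Ideal.Quotient.mk I).mapMatrix (σ g - 1) = 0 := by
    rw [map_sub, map_one, sub_eq_zero]
    rfl
  rw [this, ← Matrix.ext_iff]
  simp only [RingHom.mapMatrix_apply, Matrix.map_apply, Matrix.zero_apply,
    Ideal.Quotient.eq_zero_iff_mem]

theorem mp_lc_cong {G R : Type} [Group G] [CommRing R] {n : ℕ}
    (σ : G →* Matrix (Fin n) (Fin n) R) (I : Ideal R) (m : ℕ) :
    lc (mpCong σ I) m ≤ mpCong σ (I ^ (m + 1)) := by
  induction m with
  | zero => rw [zero_add, pow_one]; exact le_rfl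
  | succ m ih =>
    refine Subgroup.commutator_le.2 fun a ha b hb => mp_mem_cong.2 fun i j => ?_
    have ha' := mp_mem_cong.1 (ih ha)
    have hb' := mp_mem_cong.1 hb
    have h1 : σ b * σ a * (σ a⁻¹ * σ b⁻¹) = 1 := by
      simp only [← map_mul]
      simp
    have h2 : σ (a * b * a⁻¹ * b⁻¹) - 1 =
        ((σ a - 1) * (σ b - 1) - (σ b - 1) * (σ a - 1)) * (σ a⁻¹ * σ b⁻¹) := by
      have : (σ a - 1) * (σ b - 1) - (σ b - 1) * (σ a - 1) = σ a * σ b - σ b * σ a := by
        noncomm_ring
      rw [map_mul, map_mul, map_mul, this, sub_mul, h1, mul_assoc (σ a * σ b)]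
    rw [commutatorElement_def, h2, Matrix.mul_apply]
    refine Ideal.sum_mem _ fun l _ => Ideal.mul_mem_right _ _ ?_
    rw [Matrix.sub_apply, Matrix.mul_apply, Matrix.mul_apply]
    refine sub_mem (Ideal.sum_mem _ fun s _ => ?_) (Ideal.sum_mem _ fun s _ => ?_)
    · rw [pow_succ]
      exact Ideal.mul_mem_mul (ha' i s) (hb' s l)
    · rw [pow_succ']
      exact Ideal.mul_mem_mul (hb' i s) (ha' s l)

theorem mp_jacobson : IsJacobsonRing ℤ := by
  refine isJacobsonRing_iff_prime_eq.2 fun P hP => ?_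
  rcases eq_or_ne P ⊥ with rfl | h
  · refine eq_bot_iff.2 fun x hx => ?_
    rcases Int.isUnit_iff.1 (Ideal.mem_jacobson_bot.1 hx x) with h | h
    · exact mul_self_eq_zero.1 (by linarith)
    · linarith only [mul_self_nonneg x, h]
  · have := hP.isMaximal h
    exact Ideal.jacobson_eq_self_of_isMaximal

theorem mp_finite_field (K : Type) [Field K] [Algebra.FiniteType ℤ K] : Finite K := by
  have := mp_jacobson
  have hfin : Module.Finite ℤ K := finite_of_finite_type_of_isJacobsonRing ℤ K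
  have hn : ¬ Function.Injective (algebraMap ℤ K) := fun hi =>
    Int.not_isField ((Algebra.IsIntegral.isField_iff_isField hi).2 (Field.toIsField K))
  rw [injective_iff_map_eq_zero] at hn
  push Not at hn
  obtain ⟨a, ha, ha0⟩ := hn
  refine Module.finite_of_fg_torsion K fun x => ⟨⟨a, mem_nonZeroDivisors_of_ne_zero ha0⟩, ?_⟩
  change a • x = 0
  rw [Algebra.smul_def, ha, zero_mul]

theorem mp_ring {G R : Type} [Group G] [CommRing R] [IsDomain R] [Algebra.FiniteType ℤ R]
    {n : ℕ} (σ : G →* Matrix (Fin n) (Fin n) R) :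
    ∃ A : Subgroup G, A.FiniteIndex ∧ ∀ g, (∀ m, g ∈ lc A m) → σ g = 1 := by
  obtain ⟨I, hI⟩ := Ideal.exists_maximal R
  have hN : IsNoetherianRing R := Algebra.FiniteType.isNoetherianRing ℤ R
  have hF : Finite (R ⧸ I) := by
    let := Ideal.Quotient.field I
    exact @mp_finite_field (R ⧸ I) _ (Algebra.FiniteType.of_surjective
      (Ideal.Quotient.mk I).toIntAlgHom Ideal.Quotient.mk_surjective)
  refine ⟨mpCong σ I, ?_, fun g hg => ?_⟩
  · have : mpCong σ I = (MonoidHom.toHomUnits (((Ideal.Quotient.mk I).mapMatrix :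
        Matrix (Fin n) (Fin n) R →+* _).toMonoidHom.comp σ)).ker := by
      ext g
      rw [MonoidHom.mem_ker, Units.ext_iff]
      rfl
    rw [this]
    exact Subgroup.finiteIndex_ker _
  · rw [← sub_eq_zero]
    ext i j
    have : (σ g - 1) i j ∈ ⨅ m : ℕ, I ^ m := Ideal.mem_iInf.2 fun m =>
      Ideal.pow_le_pow_right (Nat.le_succ m) (mp_mem_cong.1 (mp_lc_cong σ I m (hg m)) i j)
    rwa [Ideal.iInf_pow_eq_bot_of_isDomain _ hI.ne_top] at this

theorem malcev {G : Type} [Group G] [Group.FG G] {k : Type} [Field k] {n : ℕ}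
    (ρ : G →* GL (Fin n) k) :
    ∃ A : Subgroup G, A.FiniteIndex ∧ ∀ g, (∀ m, g ∈ lc A m) → ρ g = 1 := by
  obtain ⟨S, hS, hf⟩ := Monoid.fg_iff.1 (Group.fg_iff_monoid_fg.1 ‹Group.FG G›)
  let E : Set k := (fun p : G × Fin n × Fin n => (ρ p.1).val p.2.1 p.2.2) '' (S ×ˢ Set.univ)
  have hE : E.Finite := (hf.prod Set.finite_univ).image _
  let R : Subalgebra ℤ k := Algebra.adjoin ℤ E
  have hR : Algebra.FiniteType ℤ R := .adjoin_of_finite hE
  have hm : ∀ g i j, (ρ g).val i j ∈ R := fun g => by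
    have hg : g ∈ Submonoid.closure S := hS ▸ Submonoid.mem_top g
    induction hg using Submonoid.closure_induction with
    | mem s hs => exact fun i j => Algebra.subset_adjoin ⟨(s, i, j), ⟨hs, trivial⟩, rfl⟩
    | one =>
      intro i j
      rw [map_one, Units.val_one, Matrix.one_apply]
      split_ifs
      exacts [R.one_mem, R.zero_mem]
    | mul a b _ _ ha hb =>
      intro i j
      rw [map_mul, Units.val_mul, Matrix.mul_apply]
      exact R.sum_mem fun l _ => R.mul_mem (ha i l) (hb l j)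
  let σ : G →* Matrix (Fin n) (Fin n) R :=
    { toFun := fun g => Matrix.of fun i j => ⟨(ρ g).val i j, hm g i j⟩
      map_one' := by
        ext i j
        simp only [map_one, Units.val_one, Matrix.of_apply, Matrix.one_apply]
        split_ifs <;> rfl
      map_mul' := fun a b => by
        ext i j
        simp only [map_mul, Units.val_mul, Matrix.mul_apply, of_apply, MulMemClass.mk_mul_mk, AddSubmonoidClass.coe_finsetSum] }
  obtain ⟨A, hA, h⟩ := mp_ring σ
  refine ⟨A, hA, fun g hg => ?_⟩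
  ext i j
  have := congrArg (fun M : Matrix (Fin n) (Fin n) R => (M i j : k)) (h g hg)
  simp only [σ, MonoidHom.coe_mk, OneHom.coe_mk, Matrix.of_apply, Matrix.one_apply] at this
  rw [this, Units.val_one, Matrix.one_apply]
  split_ifs <;> rfl

theorem mp_lift {G Q : Type} [Group G] [Group Q] (f : G →* Q) [Group.FG f.range] :
    ∃ B : Subgroup G, Group.FG B ∧ (f.comp B.subtype).range = f.range := by
  obtain ⟨S, hS, hf⟩ := (Subgroup.fg_iff _).1 ((Group.fg_iff_subgroup_fg _).1 ‹Group.FG f.range›)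
  obtain ⟨T, hT, hTS⟩ : ∃ T : Set G, T.Finite ∧ f '' T = S := by
    have hsub : S ⊆ f '' Set.univ := fun s hs => by
      obtain ⟨a, ha⟩ : s ∈ f.range := hS ▸ Subgroup.subset_closure hs
      exact ⟨a, trivial, ha⟩
    obtain ⟨T, -, hT, h⟩ := (Set.exists_subset_image_finite_and (p := fun t => t = S)).1
      ⟨S, hsub, hf, rfl⟩
    exact ⟨T, hT, h⟩
  have : Finite T := hT
  refine ⟨Subgroup.closure T, inferInstance, ?_⟩
  rw [MonoidHom.range_comp, Subgroup.range_subtype, MonoidHom.map_closure, hTS, hS]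

theorem rn_of_virtIso {Γ H : Type} [Group Γ] [Group H] [Group.FG H] (hΓ : IsLinear Γ)
    (h : VirtIso Γ H) : RN H := by
  obtain ⟨k, _, n, ρ, hρ⟩ := hΓ
  obtain ⟨F, K, _, _, hF, hK, G₀, H₀, -, hH, ⟨e⟩⟩ := h
  have hH' : H₀.FiniteIndex := ⟨hH⟩
  let p : G₀.comap (QuotientGroup.mk' F) →* G₀ := (QuotientGroup.mk' F).subgroupComap G₀
  have hp : Function.Surjective p :=
    MonoidHom.subgroupComap_surjective_of_surjective _ _ (QuotientGroup.mk'_surjective F)
  let f : G₀.comap (QuotientGroup.mk' F) →* H ⧸ K := H₀.subtype.comp (e.toMonoidHom.comp p)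
  have hr : f.range = H₀ := by
    rw [MonoidHom.range_comp, MonoidHom.range_eq_top.2 (e.surjective.comp hp),
      ← MonoidHom.range_eq_map, Subgroup.range_subtype]
  have hfg : Group.FG f.range := hr ▸ inferInstance
  obtain ⟨B, hB, hBr⟩ := mp_lift f
  have hker : Finite (f.comp B.subtype).ker := by
    refine Finite.of_injective (β := F) (fun a => ⟨a.1.1.1, ?_⟩) fun a b hab => ?_
    · have h1 : e (p a.1.1) = 1 := Subtype.ext a.2
      have h2 : p a.1.1 = 1 := (map_eq_one_iff e e.injective).1 h1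
      exact (QuotientGroup.eq_one_iff _).1 (congrArg Subtype.val h2)
    · exact Subtype.ext (Subtype.ext (Subtype.ext (congrArg (Subtype.val : F → Γ) hab)))
  have hfi : (f.comp B.subtype).range.FiniteIndex := by rw [hBr, hr]; exact hH'
  have hk : Finite (QuotientGroup.mk' K).ker := by rw [QuotientGroup.ker_mk']; exact hK
  refine mp_pull (QuotientGroup.mk' K) (mp_push (f.comp B.subtype) ?_)
  obtain ⟨A, hA, h⟩ := malcev (ρ.comp ((Subgroup.subtype _).comp B.subtype))
  refine ⟨A, hA, (Set.finite_singleton 1).subset fun g hg => ?_⟩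
  exact Subtype.ext (Subtype.ext ((map_eq_one_iff ρ hρ).1 (h g hg)))

end MP

end Pool.Agent.MP_434e52_an.NL

namespace Pool.Agent.MP_434e52_an.NL

open Matrix Polynomial



/-! ### Block KY: the Artin-Schreier quotient is not virtually residually nilpotent -/

section KY

open scoped commutatorElement

theorem KY_mono {G : Type} [Group G] {A B : Subgroup G} (h : A ≤ B) : ∀ n, lc A n ≤ lc B n
  | 0 => h
  | n + 1 => Subgroup.commutator_mono (KY_mono h n) h

theorem KY_normal {G : Type} [Group G] (A : Subgroup G) [hA : A.Normal] : ∀ n, (lc A n).Normal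
  | 0 => hA
  | n + 1 => have := KY_normal A n; Subgroup.commutator_normal _ _

theorem KY_step {G : Type} [Group G] {A : Subgroup G} {n : ℕ} {a g : G} (ha : a ∈ A)
    (hg : g ∈ lc A n) : ⁅a, g⁆ ∈ lc A (n + 1) := by
  rw [lc, Subgroup.commutator_comm]
  exact Subgroup.commutator_mem_commutator ha hg

variable {R : Type} [CommRing R] {N : AddSubgroup R}

theorem KY_kc {i j : Fin 3} (h : i ≠ j) (a s : R) :
    ⁅Hs.kk N (xx h a), Hs.cc N (Pi.single j s)⁆ = Hs.cc N (Pi.single i (a * s)) := by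
  have h1 : mat (xx h a) *ᵥ Pi.single j s = Pi.single i (a * s) + Pi.single j s := by
    rw [mat_xx, add_mulVec, one_mulVec, add_comm]
    congr 1
    funext k
    by_cases hk : k = i
    · subst hk; simp [mulVec, dotProduct, Matrix.single, Pi.single_apply]
    · simp [mulVec, dotProduct, Matrix.single, Pi.single_apply, hk, Ne.symm hk]
  rw [commutatorElement_def, Hs.kk_cc, h1, Hs.cc_add]
  group

theorem KY_bc (a s : R) :
    ⁅Hs.bb N (Pi.single 0 a), Hs.cc N (Pi.single 0 s)⁆ = Hs.zz N (a * s) := by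
  rw [commutatorElement_def, Hs.bb_cc, single_dotProduct, Pi.single_eq_same]
  group

theorem KY_spread {B : Subgroup (Hs N)} (hB : B.Normal) {i j : Fin 3} (h : i ≠ j) (a : R) {s : R}
    (hs : Hs.cc N (Pi.single j s) ∈ B) : Hs.cc N (Pi.single i (a * s)) ∈ B := by
  rw [← KY_kc h, commutatorElement_def]
  exact mul_mem (hB.conj_mem _ hs _) (inv_mem hs)

theorem KY_pick [Infinite R] {G : Type} [Group G] (A : Subgroup G) [A.FiniteIndex] (h : R → G)
    (hh : ∀ a b, h (a + b) = h a * h b) : ∃ q, q ≠ 0 ∧ h q ∈ A := by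
  obtain ⟨q, hq, h0⟩ := (cov_pre A h hh).infinite.exists_notMem_finset {0}
  exact ⟨q, by simpa using h0, hq⟩

theorem KY_as {F : Type} [Field F] [CharP F 2] {N : AddSubgroup F[X]}
    (hN : ∀ c : F[X], X * c ^ 2 + c ∈ N) {q β : F[X]} (hβ : q ∣ β) (n : ℕ) :
    ∃ γ, q ^ (n + 1) ∣ γ ∧ Hs.zz N γ = Hs.zz N β := by
  induction n with
  | zero => exact ⟨β, by simpa only [zero_add, pow_one] using hβ, rfl⟩
  | succ n ih =>
    obtain ⟨γ, h1, h2⟩ := ih
    refine ⟨X * γ ^ 2, Dvd.dvd.mul_left ?_ _, ?_⟩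
    · rw [pow_succ q, sq]
      exact mul_dvd_mul h1 ((dvd_pow_self q n.succ_ne_zero).trans h1)
    · rw [← h2, Hs.zz_eq_iff, CharTwo.sub_eq_add]
      exact hN γ

end KY

theorem not_rn {F : Type} [Field F] [Finite F] [CharP F 2] (N : AddSubgroup F[X])
    (hN : ∀ c : F[X], X * c ^ 2 + c ∈ N) [Infinite (F[X] ⧸ N)] : ¬ RN (Hs N) := by
  rintro ⟨B, hB, hfin⟩
  set A := B.normalCore
  have hA : A.Normal := B.normalCore_normal
  have : A.FiniteIndex := Subgroup.finiteIndex_normalCore B
  obtain ⟨a, ha0, ha⟩ := KY_pick A (fun a : F[X] => Hs.cc N (Pi.single 0 a)) fun a b => by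
    rw [Pi.single_add, Hs.cc_add]
  obtain ⟨b, hb0, hb⟩ := KY_pick A (fun a : F[X] => Hs.bb N (Pi.single 0 a)) fun a b => by
    rw [Pi.single_add, Hs.bb_add]
  obtain ⟨c, hc0, hc⟩ := KY_pick A (fun a : F[X] => Hs.kk N (xx ne01 a)) fun a b => by
    rw [xx_add, map_mul]
  have h1 : ∀ n, Hs.cc N (Pi.single 0 (c ^ n * a)) ∈ lc A n := by
    intro n
    induction n with
    | zero => simpa [lc] using ha
    | succ n ih =>
      have := KY_step hc (KY_spread (KY_normal A n) ne01.symm 1 ih)
      rwa [KY_kc, one_mul, ← mul_assoc, ← pow_succ'] at this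
  have h2 : ∀ n r, Hs.zz N (b * (r * (c ^ n * a))) ∈ lc A (n + 1) := by
    intro n r
    have := KY_spread (KY_normal A n) ne01 r (KY_spread (KY_normal A n) ne01.symm 1 (h1 n))
    rw [one_mul] at this
    rw [← KY_bc]
    exact KY_step hb this
  have h3 : ∀ β, a * b * c ∣ β → ∀ n, Hs.zz N β ∈ lc A (n + 1) := by
    intro β hβ n
    obtain ⟨_, ⟨r, rfl⟩, h⟩ := KY_as hN hβ n
    rw [← h]
    convert h2 n (r * (a * b) ^ n * c) using 2
    ring
  have h4 := (cov_poly (a * b * c) (mul_ne_zero (mul_ne_zero ha0 hb0) hc0)).map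
    (QuotientAddGroup.mk' N)
  rw [AddSubgroup.map_top_of_surjective _ (QuotientAddGroup.mk'_surjective N)] at h4
  refine h4.infinite ((hfin.image Hs.z).subset ?_)
  rintro _ ⟨β, hβ, rfl⟩
  refine ⟨Hs.zz N β, fun n => KY_mono B.normalCore_le n ?_, rfl⟩
  have hβ' : a * b * c ∣ β := Ideal.mem_span_singleton.1 hβ
  cases n with
  | zero => exact Subgroup.commutator_le_left A A (h3 β hβ' 0)
  | succ n => exact h3 β hβ' n

/-! ### Block LI: the linear group -/

section LI

theorem LI_of_end {G R W : Type} [Group G] [CommRing R] [IsDomain R] [AddCommGroup W] [Module R W]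
    [Module.Free R W] [Module.Finite R W] (φ : G →* Module.End R W) (hφ : Function.Injective φ) :
    IsLinear G := by
  let ψ : Module.End R W →* Matrix _ _ (FractionRing R) :=
    ((algebraMap R (FractionRing R)).mapMatrix.toMonoidHom).comp
      (LinearMap.toMatrixAlgEquiv (Module.finBasis R W)).toMulEquiv.toMonoidHom
  have hψ : Function.Injective ψ :=
    (Matrix.map_injective (IsFractionRing.injective R (FractionRing R))).comp
      (LinearMap.toMatrixAlgEquiv (Module.finBasis R W)).injective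
  exact ⟨FractionRing R, inferInstance, _, (ψ.comp φ).toHomUnits, fun g h e =>
    hφ (hψ (congrArg Units.val e))⟩

variable {R : Type} [CommRing R] (D : R →+ R)

/-- Entrywise derivative of a vector. -/
def LI_dv (v : VV R) : VV R := fun i => D (v i)

/-- Entrywise derivative of a matrix. -/
def LI_dm (g : Matrix (Fin 3) (Fin 3) R) : Matrix (Fin 3) (Fin 3) R := g.map D

theorem LI_dv_zero : LI_dv D 0 = 0 := funext fun _ => D.map_zero

theorem LI_dv_add (v w : VV R) : LI_dv D (v + w) = LI_dv D v + LI_dv D w :=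
  funext fun _ => D.map_add _ _

/-- The module of rank eight. -/
abbrev LI_W (R : Type) : Type := R × (VV R × VV R) × R

variable {N : AddSubgroup R} (t : R) (δ : R ⧸ N →+ R)

/-- The operator of a group element. -/
def LI_op (e : Hs N) : Module.End R (LI_W R) where
  toFun w := (w.1 + (e.b + t • LI_dv D e.b) ⬝ᵥ w.2.1.1 + t * (e.b ⬝ᵥ w.2.1.2) + δ e.z * w.2.2,
    (mat e.g *ᵥ w.2.1.1 + w.2.2 • e.x,
      LI_dm D (mat e.g) *ᵥ w.2.1.1 + mat e.g *ᵥ w.2.1.2 + w.2.2 • LI_dv D e.x), w.2.2)
  map_add' w w' := by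
    simp only [Prod.fst_add, Prod.snd_add, dotProduct_add, mulVec_add, Prod.mk_add_mk,
      Prod.mk.injEq, and_true]
    exact ⟨by ring, by module, by module⟩
  map_smul' r w := by
    simp only [Prod.smul_fst, Prod.smul_snd, dotProduct_smul, mulVec_smul, smul_eq_mul,
      RingHom.id_apply, Prod.smul_mk, Prod.mk.injEq, and_true]
    exact ⟨by ring, by module, by module⟩

theorem LI_op_apply (e : Hs N) (u s : R) (v v' : VV R) :
    LI_op D t δ e (u, (v, v'), s) =
      (u + (e.b + t • LI_dv D e.b) ⬝ᵥ v + t * (e.b ⬝ᵥ v') + δ e.z * s,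
        (mat e.g *ᵥ v + s • e.x, LI_dm D (mat e.g) *ᵥ v + mat e.g *ᵥ v' + s • LI_dv D e.x), s) :=
  rfl

variable {D} (hD : ∀ a b, D (a * b) = D a * b + a * D b)
include hD

theorem LI_dm_one : LI_dm D 1 = 0 := by
  have h1 : D 1 = 0 := by simpa only [mul_one, one_mul, left_eq_add] using hD 1 1
  ext i j
  by_cases h : i = j <;> simp [LI_dm, one_apply, h, h1]

theorem LI_dot (v w : VV R) : D (v ⬝ᵥ w) = LI_dv D v ⬝ᵥ w + v ⬝ᵥ LI_dv D w := by
  simp only [dotProduct, map_sum, hD, Finset.sum_add_distrib, LI_dv]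

theorem LI_mulVec (g : Matrix (Fin 3) (Fin 3) R) (v : VV R) :
    LI_dv D (g *ᵥ v) = LI_dm D g *ᵥ v + g *ᵥ LI_dv D v := funext fun i => LI_dot hD (g i) v

theorem LI_vecMul (g : Matrix (Fin 3) (Fin 3) R) (v : VV R) :
    LI_dv D (v ᵥ* g) = LI_dv D v ᵥ* g + v ᵥ* LI_dm D g :=
  funext fun i => LI_dot hD v fun j => g j i

theorem LI_mul (g h : Matrix (Fin 3) (Fin 3) R) :
    LI_dm D (g * h) = LI_dm D g * h + g * LI_dm D h :=
  Matrix.ext fun i j => LI_dot hD (g i) fun k => h k j

/-- The representation. -/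
def LI_rep (hδ : ∀ c : R, δ c = c + t * D c) : Hs N →* Module.End R (LI_W R) where
  toFun := LI_op D t δ
  map_one' := LinearMap.ext fun ⟨u, ⟨v, v'⟩, s⟩ => by
    simp [LI_op_apply, mat_one, LI_dv_zero, LI_dm_one hD]
  map_mul' e f := LinearMap.ext fun ⟨u, ⟨v, v'⟩, s⟩ => by
    simp only [Module.End.mul_apply, LI_op_apply, Hs.mul_z, Hs.mul_b, Hs.mul_x, Hs.mul_g, mat_mul,
      map_add, hδ, LI_dot hD, LI_dv_add, LI_mulVec hD, LI_vecMul hD, LI_mul hD, add_dotProduct,
      dotProduct_add, smul_dotProduct, dotProduct_smul, dotProduct_mulVec, smul_eq_mul, smul_add,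
      add_mulVec, mulVec_add, mulVec_smul, mulVec_mulVec, add_vecMul, smul_vecMul, Prod.mk.injEq,
      and_true]
    exact ⟨by ring, by module, by module⟩

end LI

theorem isLinear {F : Type} [Field F] (N : AddSubgroup F[X])
    (hN : ∀ c : F[X], c ∈ N ↔ derivative (X * c) = 0) : IsLinear (Hs N) := by
  let d : F[X] →+ F[X] := AddMonoidHom.mk' (fun c => derivative (X * c)) fun a b => by
    rw [mul_add, derivative_add]
  let δ : F[X] ⧸ N →+ F[X] := QuotientAddGroup.lift N d fun c hc => (hN c).1 hc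
  have hδ : ∀ c : F[X], δ c = derivative (X * c) := fun _ => rfl
  refine LI_of_end (LI_rep (D := derivative.toAddMonoidHom) X δ (fun _ _ => derivative_mul)
    fun c => by simp [hδ]) ((injective_iff_map_eq_one _).2 fun e he => ?_)
  have h : ∀ u s v v', LI_op derivative.toAddMonoidHom X δ e (u, (v, v'), s) = (u, (v, v'), s) :=
    fun u s v v' => LinearMap.congr_fun he _
  simp only [LI_op_apply, Prod.mk.injEq] at h
  refine Hs.ext ?_ ?_ ?_ (mat_injective ?_)
  · obtain ⟨c, hc⟩ := QuotientAddGroup.mk_surjective e.z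
    have h1 : δ e.z = 0 := by simpa only [dotProduct_zero, add_zero, mul_zero, mul_one, zero_add] using (h 0 1 0 0).1
    rw [← hc] at h1 ⊢
    exact (QuotientAddGroup.eq_zero_iff c).2 ((hN c).2 h1)
  · funext i
    simpa using (h 0 0 0 (Pi.single i 1)).1
  · simpa using (h 0 1 0 0).2.1.1
  · ext i j : 1
    simpa [mat_one, one_apply, Pi.single_apply] using congrFun (h 0 0 (Pi.single j 1) 0).2.1.1 i

end Pool.Agent.MP_434e52_an.NL

namespace Pool.Agent.MP_434e52_an.NL

open Matrix Polynomial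

section MO

/-- A monomial representation with real signs on finitely supported functions. -/
structure Mono (G Ω : Type) [Group G] where
  act : G → Ω → Ω
  sg : G → Ω → ZMod 2
  act_one : ∀ w, act 1 w = w
  act_mul : ∀ g h w, act (g * h) w = act g (act h w)
  sg_mul : ∀ g h w, sg (g * h) w = sg h w + sg g (act h w)

/-- The sign `(-1) ^ a`. -/
noncomputable def sn (a : ZMod 2) : ℂ := (-1) ^ a.val

/-- The operator of a group element. -/
noncomputable def Mono.op {G Ω : Type} [Group G] (M : Mono G Ω) (g : G) :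
    Module.End ℂ (Ω →₀ ℂ) :=
  Finsupp.linearCombination ℂ fun w => Finsupp.single (M.act g w) (sn (M.sg g w))

theorem MO_cases (x : ZMod 2) : x = 0 ∨ x = 1 := by
  revert x; decide

theorem MO_sn_zero : sn 0 = 1 := by simp [sn]

theorem MO_sn_one : sn 1 = -1 := by
  have : (1 : ZMod 2).val = 1 := by decide
  rw [sn, this, pow_one]

theorem MO_sn_add (a b : ZMod 2) : sn (a + b) = sn a * sn b := by
  have h : (1 + 1 : ZMod 2) = 0 := by decide
  rcases MO_cases a with rfl | rfl <;> rcases MO_cases b with rfl | rfl <;>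
    simp [h, MO_sn_zero, MO_sn_one]

theorem MO_sn_conj (a : ZMod 2) : (starRingEnd ℂ) (sn a) = sn a := by
  simp only [sn, map_pow, map_neg, map_one]

theorem MO_sn_inj {a b : ZMod 2} (h : sn a = sn b) : a = b := by
  rcases MO_cases a with rfl | rfl <;> rcases MO_cases b with rfl | rfl
  · rfl
  · rw [MO_sn_zero, MO_sn_one] at h; norm_num at h
  · rw [MO_sn_zero, MO_sn_one] at h; norm_num at h
  · rfl

theorem MO_op_single {G Ω : Type} [Group G] (M : Mono G Ω) (g : G) (w : Ω) (z : ℂ) :
    M.op g (Finsupp.single w z) = Finsupp.single (M.act g w) (z * sn (M.sg g w)) := by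
  rw [Mono.op, Finsupp.linearCombination_single, Finsupp.smul_single, smul_eq_mul]

theorem MO_sg_one {G Ω : Type} [Group G] (M : Mono G Ω) (w : Ω) : M.sg 1 w = 0 := by
  have h := M.sg_mul 1 1 w
  rw [mul_one, M.act_one] at h
  simpa using h

theorem MO_op_one {G Ω : Type} [Group G] (M : Mono G Ω) : M.op 1 = 1 := by
  refine Finsupp.lhom_ext fun w z => ?_
  rw [MO_op_single, M.act_one, MO_sg_one, MO_sn_zero, mul_one, Module.End.one_apply]

theorem MO_op_mul {G Ω : Type} [Group G] (M : Mono G Ω) (g h : G) :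
    M.op (g * h) = M.op g * M.op h := by
  refine Finsupp.lhom_ext fun w z => ?_
  rw [Module.End.mul_apply, MO_op_single, MO_op_single, MO_op_single, M.act_mul, M.sg_mul,
    MO_sn_add, mul_assoc]

theorem MO_op_inv {G Ω : Type} [Group G] (M : Mono G Ω) (g : G) (w w' : Ω) :
    M.op g⁻¹ (Finsupp.single w' 1) w = (starRingEnd ℂ) (M.op g (Finsupp.single w 1) w') := by
  classical
  rw [MO_op_single, MO_op_single, one_mul, one_mul, Finsupp.single_apply, Finsupp.single_apply]
  by_cases h : M.act g w = w'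
  · subst h
    have h1 : M.act g⁻¹ (M.act g w) = w := by rw [← M.act_mul, inv_mul_cancel, M.act_one]
    have h2 := M.sg_mul g⁻¹ g w
    rw [inv_mul_cancel, MO_sg_one] at h2
    have h3 : ∀ a b : ZMod 2, 0 = a + b → b = a := by decide
    rw [if_pos h1, if_pos rfl, MO_sn_conj, h3 _ _ h2]
  · have h1 : ¬ M.act g⁻¹ w' = w := by
      rintro rfl
      exact h (by rw [← M.act_mul, mul_inv_cancel, M.act_one])
    rw [if_neg h1, if_neg h, map_zero]

/-- The graph of the transfer map. -/
noncomputable def MO_gr {G Ω : Type} [Group G] (M : Mono G Ω) :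
    Submodule ℂ (Module.End ℂ (Ω →₀ ℂ) × BL2 G) :=
  Submodule.span ℂ (Set.range fun g => (M.op g, lam G g))

theorem MO_gr_add {G Ω : Type} [Group G] (M : Mono G Ω) {T T' : Module.End ℂ (Ω →₀ ℂ)}
    {S S' : BL2 G} (h : (T, S) ∈ MO_gr M) (h' : (T', S') ∈ MO_gr M) :
    (T + T', S + S') ∈ MO_gr M := by
  rw [← Prod.mk_add_mk]
  exact (MO_gr M).add_mem h h'

theorem MO_gr_smul {G Ω : Type} [Group G] (M : Mono G Ω) {T : Module.End ℂ (Ω →₀ ℂ)}
    {S : BL2 G} (z : ℂ) (h : (T, S) ∈ MO_gr M) : (z • T, z • S) ∈ MO_gr M := by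
  rw [← Prod.smul_mk]
  exact (MO_gr M).smul_mem z h

theorem MO_gr_iff {G Ω : Type} [Group G] (M : Mono G Ω) (x : Module.End ℂ (Ω →₀ ℂ) × BL2 G) :
    x ∈ MO_gr M ↔ ∃ c : G →₀ ℂ, Finsupp.linearCombination ℂ M.op c = x.1 ∧
      Finsupp.linearCombination ℂ (lam G) c = x.2 := by
  constructor
  · intro hx
    induction hx using Submodule.span_induction with
    | mem x hx =>
      obtain ⟨g, rfl⟩ := hx
      exact ⟨Finsupp.single g 1, by simp, by simp only [Finsupp.linearCombination_single, one_smul]⟩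
    | zero => exact ⟨0, by simp only [map_zero, Prod.fst_zero], by simp only [map_zero, Prod.snd_zero]⟩
    | add x y _ _ hx hy =>
      obtain ⟨c, h1, h2⟩ := hx
      obtain ⟨d, h3, h4⟩ := hy
      exact ⟨c + d, by rw [map_add, h1, h3]; rfl, by rw [map_add, h2, h4]; rfl⟩
    | smul a x _ hx =>
      obtain ⟨c, h1, h2⟩ := hx
      exact ⟨a • c, by rw [map_smul, h1]; rfl, by rw [map_smul, h2]; rfl⟩
  · rintro ⟨c, h1, h2⟩
    have : x = (Finsupp.linearCombination ℂ M.op c, Finsupp.linearCombination ℂ (lam G) c) :=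
      Prod.ext h1.symm h2.symm
    rw [this]
    clear this h1 h2
    induction c using Finsupp.induction_linear with
    | zero => rw [map_zero, map_zero]; exact zero_mem _
    | add c d hc hd => rw [map_add, map_add]; exact MO_gr_add M hc hd
    | single g z =>
      rw [Finsupp.linearCombination_single, Finsupp.linearCombination_single]
      exact MO_gr_smul M z (Submodule.subset_span ⟨g, rfl⟩)

theorem MO_gr_unique {G Ω : Type} [Group G] (M : Mono G Ω) (hi : LinearIndependent ℂ M.op)
    {T : Module.End ℂ (Ω →₀ ℂ)} {S S' : BL2 G} (h : (T, S) ∈ MO_gr M) (h' : (T, S') ∈ MO_gr M) :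
    S = S' := by
  obtain ⟨c, h1, h2⟩ := (MO_gr_iff M _).1 h
  obtain ⟨d, h3, h4⟩ := (MO_gr_iff M _).1 h'
  have : c = d := hi (h1.trans h3.symm)
  subst this
  exact h2.symm.trans h4

theorem MO_gr_mul {G Ω : Type} [Group G] (M : Mono G Ω)
    {x y : Module.End ℂ (Ω →₀ ℂ) × BL2 G} (hx : x ∈ MO_gr M) (hy : y ∈ MO_gr M) :
    x * y ∈ MO_gr M := by
  have := Submodule.mul_mem_mul hx hy
  rw [MO_gr, Submodule.span_mul_span] at this
  refine Submodule.span_mono ?_ this
  rintro _ ⟨_, ⟨a, rfl⟩, _, ⟨b, rfl⟩, rfl⟩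
  exact ⟨a * b, Prod.ext (MO_op_mul M a b) (map_mul _ _ _)⟩

theorem MO_gr_star {G Ω : Type} [Group G] (M : Mono G Ω)
    {x : Module.End ℂ (Ω →₀ ℂ) × BL2 G} (hx : x ∈ MO_gr M) :
    ∃ T, (T, star x.2) ∈ MO_gr M ∧ ∀ w w', T (Finsupp.single w' 1) w =
      (starRingEnd ℂ) (x.1 (Finsupp.single w 1) w') := by
  induction hx using Submodule.span_induction with
  | mem x hx =>
    obtain ⟨g, rfl⟩ := hx
    refine ⟨M.op g⁻¹, ?_, MO_op_inv M g⟩
    rw [star_lam]
    exact Submodule.subset_span ⟨g⁻¹, rfl⟩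
  | zero => exact ⟨0, by rw [Prod.snd_zero, star_zero]; exact zero_mem _, by simp only [LinearMap.zero_apply, Finsupp.coe_zero, Pi.zero_apply, Prod.fst_zero, map_zero, implies_true]⟩
  | add x y _ _ hx hy =>
    obtain ⟨S, h1, h2⟩ := hx
    obtain ⟨T, h3, h4⟩ := hy
    refine ⟨S + T, ?_, fun w w' => ?_⟩
    · rw [Prod.snd_add, star_add]; exact MO_gr_add M h1 h3
    · simp only [LinearMap.add_apply, Finsupp.coe_add, Pi.add_apply, h2, h4, Prod.fst_add, map_add]
  | smul a x _ hx =>
    obtain ⟨S, h1, h2⟩ := hx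
    refine ⟨star a • S, ?_, fun w w' => ?_⟩
    · rw [Prod.smul_snd, star_smul]; exact MO_gr_smul M (star a) h1
    · simp only [RCLike.star_def, LinearMap.smul_apply, Finsupp.coe_smul, Pi.smul_apply, h2, smul_eq_mul, Prod.smul_fst, map_mul]

theorem vnIso_of_mono {G H Ω : Type} [Group G] [Group H] (M : Mono G Ω) (M' : Mono H Ω)
    (hi : LinearIndependent ℂ M.op)
    (h1 : ∀ h, M'.op h ∈ Submodule.span ℂ (Set.range M.op))
    (h2 : ∀ g, M.op g ∈ Submodule.span ℂ (Set.range M'.op))
    (ht : ∀ (h : H) (c : G →₀ ℂ), h ≠ 1 → Finsupp.linearCombination ℂ M.op c = M'.op h →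
      c 1 = 0) : VNIso G H := by
  classical
  have hex : ∀ h, ∃ S, (M'.op h, S) ∈ MO_gr M := by
    intro h
    have := h1 h
    rw [← Finsupp.range_linearCombination] at this
    obtain ⟨c, hc⟩ := this
    exact ⟨_, (MO_gr_iff M _).2 ⟨c, hc, rfl⟩⟩
  choose ψ hψ using hex
  have hg : ∀ g, (M.op g, lam G g) ∈ MO_gr M := fun g => Submodule.subset_span ⟨g, rfl⟩
  let φ : H →* BL2 G :=
    { toFun := ψ
      map_one' := by
        refine MO_gr_unique M hi (hψ 1) ?_
        have := hg 1
        rwa [MO_op_one, map_one, ← MO_op_one M'] at this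
      map_mul' := fun a b => by
        refine MO_gr_unique M hi (hψ (a * b)) ?_
        rw [MO_op_mul, ← Prod.mk_mul_mk]
        exact MO_gr_mul M (hψ a) (hψ b) }
  have hφ : ∀ h, (M'.op h, φ h) ∈ MO_gr M := hψ
  have hs : ∀ h, star (φ h) = φ h⁻¹ := by
    intro h
    obtain ⟨T, e1, e2⟩ := MO_gr_star M (hφ h)
    have : T = M'.op h⁻¹ := by
      refine Finsupp.lhom_ext' fun w' => LinearMap.ext_ring (Finsupp.ext fun w => ?_)
      exact (e2 w w').trans (MO_op_inv M' h w w').symm
    rw [this] at e1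
    exact MO_gr_unique M hi e1 (hφ _)
  refine vnIso_of_models (dl 1) (norm_dl _) (lam G) φ lam_unitary (fun h => ?_) (fun g hg => ?_)
    (fun h hh => ?_) ?_ ?_
  · rw [Unitary.mem_iff, hs, ← map_mul, ← map_mul]
    simp only [inv_mul_cancel, map_one, mul_inv_cancel, and_self]
  · rw [lam_dl, mul_one]
    exact inner_dl_dl hg.symm
  · obtain ⟨c, e1, e2⟩ := (MO_gr_iff M _).1 (hφ h)
    have e3 := ht h c hh e1
    have e4 : φ h = Finsupp.linearCombination ℂ (lam G) c := e2.symm
    rw [e4, Finsupp.linearCombination_apply, Finsupp.sum, _root_.sum_apply, inner_sum]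
    refine Finset.sum_eq_zero fun g hg => ?_
    have : (1 : G) ≠ g := by
      rintro rfl
      exact Finsupp.mem_support_iff.1 hg e3
    rw [_root_.smul_apply, inner_smul_right, lam_dl, mul_one, inner_dl_dl this,
      mul_zero]
  · apply le_antisymm
    · rw [Submodule.span_le]
      rintro _ ⟨g, rfl⟩
      have key : ∀ T ∈ Submodule.span ℂ (Set.range M'.op),
          ∃ S ∈ Submodule.span ℂ (Set.range φ), (T, S) ∈ MO_gr M := by
        intro T hT
        induction hT using Submodule.span_induction with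
        | mem T hT =>
          obtain ⟨h, rfl⟩ := hT
          exact ⟨φ h, Submodule.subset_span ⟨h, rfl⟩, hφ h⟩
        | zero => exact ⟨0, zero_mem _, zero_mem _⟩
        | add T T' _ _ a b =>
          obtain ⟨S, a1, a2⟩ := a
          obtain ⟨S', b1, b2⟩ := b
          exact ⟨S + S', add_mem a1 b1, MO_gr_add M a2 b2⟩
        | smul z T _ a =>
          obtain ⟨S, a1, a2⟩ := a
          exact ⟨z • S, Submodule.smul_mem _ z a1, MO_gr_smul M z a2⟩
      obtain ⟨S, a1, a2⟩ := key _ (h2 g)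
      rw [MO_gr_unique M hi (hg g) a2]
      exact a1
    · rw [Submodule.span_le]
      rintro _ ⟨h, rfl⟩
      obtain ⟨c, -, e2⟩ := (MO_gr_iff M _).1 (hφ h)
      rw [← Finsupp.range_linearCombination]
      exact ⟨c, e2⟩
  · have : (fun g => lam G g (dl 1)) = dl := funext fun g => by rw [lam_dl, mul_one]
    rw [this]
    exact dense_dl

/-- Functions of finitely many `ZMod 2` valued characters are combinations of characters. -/
theorem mem_span_chars {Y A S : Type} [AddCommGroup A] [Finite S] (l : A → Y → ZMod 2)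
    (l0 : ∀ p, l 0 p = 0) (la : ∀ a b p, l (a + b) p = l a p + l b p) (s : S → A) (f : Y → ℂ) (hf : ∀ p q, (∀ i, l (s i) p = l (s i) q) → f p = f q) :
    f ∈ Submodule.span ℂ (Set.range fun (a : A) (p : Y) => sn (l a p)) := by
  classical
  have := Fintype.ofFinite S
  set W := Submodule.span ℂ (Set.range fun (a : A) (p : Y) => sn (l a p)) with hW
  have hone : (1 : Y → ℂ) ∈ W :=
    Submodule.subset_span ⟨0, funext fun p => by simp [l0, MO_sn_zero]⟩
  have hmul : ∀ x y, x ∈ W → y ∈ W → x * y ∈ W := by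
    intro x y hx hy
    have := Submodule.mul_mem_mul hx hy
    rw [hW, Submodule.span_mul_span] at this
    refine Submodule.span_mono ?_ this
    rintro _ ⟨_, ⟨a, rfl⟩, _, ⟨b, rfl⟩, rfl⟩
    exact ⟨a + b, funext fun p => by simp [la, MO_sn_add]⟩
  let B := W.toSubalgebra hone hmul
  have hind : ∀ (a : A) (e : ZMod 2), (fun p => if l a p = e then (1 : ℂ) else 0) ∈ B := by
    intro a e
    have e1 : (fun p => if l a p = e then (1 : ℂ) else 0) =
        (1 / 2 : ℂ) • (1 : Y → ℂ) + (sn e / 2) • fun p => sn (l a p) := by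
      funext p
      rcases MO_cases e with rfl | rfl <;> rcases MO_cases (l a p) with h | h <;>
        simp only [h, ↓ reduceIte, one_div, MO_sn_zero, Pi.add_apply, Pi.smul_apply, Pi.one_apply, smul_eq_mul, mul_one, one_ne_zero, MO_sn_one, mul_neg, add_neg_cancel, zero_ne_one] <;> norm_num
    rw [e1]
    exact W.add_mem (W.smul_mem _ hone) (W.smul_mem _ (Submodule.subset_span ⟨a, rfl⟩))
  let F : (S → ZMod 2) → ℂ := fun e => if h : ∃ q, ∀ i, l (s i) q = e i then f h.choose else 0
  have hF : f = ∑ e : S → ZMod 2, F e • ∏ i, fun p => if l (s i) p = e i then (1 : ℂ) else 0 := by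
    funext p
    rw [Finset.sum_apply, Finset.sum_eq_single (fun i => l (s i) p)]
    · have h : ∃ q, ∀ i, l (s i) q = l (s i) p := ⟨p, fun _ => rfl⟩
      simp only [Pi.smul_apply, Finset.prod_apply, if_true, Finset.prod_const_one, smul_eq_mul,
        mul_one, F, dif_pos h]
      exact hf _ _ fun i => (h.choose_spec i).symm
    · intro e _ he
      obtain ⟨i, hi⟩ := Function.ne_iff.1 he
      rw [Pi.smul_apply, Finset.prod_apply, Finset.prod_eq_zero (Finset.mem_univ i)
        (if_neg hi.symm), smul_zero]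
    · intro h; exact absurd (Finset.mem_univ _) h
  have : f ∈ B := by
    rw [hF]
    exact sum_mem fun e _ => B.smul_mem (prod_mem fun i _ => hind _ _) _
  exact this

/-- Distinct characters are independent. -/
theorem chars_li {Y A : Type} [AddCommGroup Y] (l : A → (Y →+ ZMod 2))
    (hl : Function.Injective l) : LinearIndependent ℂ fun (a : A) (p : Y) => sn (l a p) := by
  let χ : A → (Multiplicative Y →* ℂ) := fun a =>
    { toFun := fun p => sn (l a p.toAdd)
      map_one' := by simp [MO_sn_zero]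
      map_mul' := fun p q => by simp only [toAdd_mul, map_add, MO_sn_add] }
  have hχ : Function.Injective χ := by
    intro a b h
    refine hl (AddMonoidHom.ext fun p => MO_sn_inj ?_)
    exact DFunLike.congr_fun h (Multiplicative.ofAdd p)
  exact (linearIndependent_monoidHom (Multiplicative Y) ℂ).comp χ hχ

theorem MO_sum_zero {Y Q : Type} [AddCommGroup Y] [Fintype Q] (U : AddSubgroup Y) (t : Q → Y)
    (ht : Function.Bijective fun q => (t q : Y ⧸ U)) (m : Y →+ ZMod 2) (hm : m ≠ 0)
    (hU : ∀ p ∈ U, m p = 0) : ∑ q, sn (m (t q)) = 0 := by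
  classical
  have := Fintype.ofBijective _ ht
  let n : Y ⧸ U →+ ZMod 2 := QuotientAddGroup.lift U m hU
  have e1 : ∑ q, sn (m (t q)) = ∑ x, sn (n x) := ht.sum_comp fun x => sn (n x)
  obtain ⟨y, hy⟩ := DFunLike.ne_iff.1 hm
  have hy1 : n y = 1 := (MO_cases (m y)).resolve_left hy
  have e2 := Equiv.sum_comp (Equiv.addRight (y : Y ⧸ U)) fun x => sn (n x)
  simp only [Equiv.coe_addRight, map_add, hy1, MO_sn_add, MO_sn_one, mul_neg, mul_one,
    Finset.sum_neg_distrib] at e2
  rw [e1]
  linear_combination (-1 / 2 : ℂ) * e2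

/-- Averaging over finite quotients. -/
theorem coeff_eq_zero {Y Y' A : Type} [AddCommGroup Y] [AddCommGroup Y'] (U : AddSubgroup Y)
    (U' : AddSubgroup Y') [U.FiniteIndex] (θ : Y ≃ Y') (hθ : ∀ p q, p - q ∈ U ↔ θ p - θ q ∈ U')
    (l : A → (Y →+ ZMod 2)) (a₀ : A) (h0 : ∀ a, l a = 0 ↔ a = a₀) (c : A →₀ ℂ)
    (hc : ∀ a ∈ c.support, ∀ p ∈ U, l a p = 0) (l' : Y' →+ ZMod 2) (hl' : l' ≠ 0)
    (hU' : ∀ p ∈ U', l' p = 0) (h : ∀ p, (c.sum fun a z => z * sn (l a p)) = sn (l' (θ p))) :
    c a₀ = 0 := by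
  classical
  have := Fintype.ofFinite (Y ⧸ U)
  let r : Y ⧸ U → Y := Quotient.out
  have hr : ∀ q, ((r q : Y) : Y ⧸ U) = q := fun q => QuotientAddGroup.out_eq' q
  have b1 : Function.Bijective fun q => ((r q : Y) : Y ⧸ U) := by
    rw [funext hr]; exact Function.bijective_id
  have b2 : Function.Bijective fun q => ((θ (r q) : Y') : Y' ⧸ U') := by
    constructor
    · intro q q' e
      rw [← hr q, ← hr q', QuotientAddGroup.eq_iff_sub_mem, hθ]
      exact QuotientAddGroup.eq_iff_sub_mem.1 e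
    · intro x
      obtain ⟨y, rfl⟩ := QuotientAddGroup.mk_surjective x
      obtain ⟨p, rfl⟩ := θ.surjective y
      refine ⟨p, ?_⟩
      change ((θ (r p) : Y') : Y' ⧸ U') = _
      rw [QuotientAddGroup.eq_iff_sub_mem, ← hθ, ← QuotientAddGroup.eq_iff_sub_mem, hr]
  have e1 := MO_sum_zero U' (fun q => θ (r q)) b2 l' hl' hU'
  simp only [← h, Finsupp.sum] at e1
  rw [Finset.sum_comm] at e1
  by_contra hne
  rw [Finset.sum_eq_single a₀] at e1
  · simp only [(h0 a₀).2 rfl, AddMonoidHom.zero_apply, MO_sn_zero, mul_one, Finset.sum_const,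
      Finset.card_univ, nsmul_eq_mul, mul_eq_zero, Nat.cast_eq_zero] at e1
    exact e1.elim Fintype.card_ne_zero hne
  · intro a ha haa
    rw [← Finset.mul_sum, MO_sum_zero U r b1 (l a) (fun e => haa ((h0 a).1 e)) (hc a ha), mul_zero]
  · intro ha
    exact absurd (Finsupp.mem_support_iff.2 hne) ha

end MO

end Pool.Agent.MP_434e52_an.NL

namespace Pool.Agent.MP_434e52_an.NL

open Matrix Polynomial

section LA

variable {F : Type} [Field F]

/-- Series whose coefficients vanish below `n`. -/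
def PP (F : Type) [Field F] (n : ℤ) : AddSubgroup (LaurentSeries F) where
  carrier := {k | ∀ m < n, k.coeff m = 0}
  zero_mem' := fun _ _ => rfl
  add_mem' := fun ha hb m hm => by rw [HahnSeries.coeff_add, ha m hm, hb m hm, add_zero]
  neg_mem' := fun ha m hm => by rw [HahnSeries.coeff_neg, ha m hm, neg_zero]

/-- Polynomials in the inverse of the variable. -/
noncomputable def io (F : Type) [Field F] : F[X] →+* LaurentSeries F :=
  eval₂RingHom HahnSeries.C (HahnSeries.single (-1) 1)

theorem PP_anti {m n : ℤ} (h : m ≤ n) : PP F n ≤ PP F m :=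
  fun _ hk j hj => hk j (hj.trans_le h)

theorem PP_mul {m n : ℤ} {a b : LaurentSeries F} (ha : a ∈ PP F m) (hb : b ∈ PP F n) :
    a * b ∈ PP F (m + n) := by
  intro j hj
  rw [HahnSeries.coeff_mul]
  refine Finset.sum_eq_zero fun p hp => ?_
  have e := (Finset.mem_antidiagonal.1 hp).2.2
  by_cases h : p.1 < m
  · rw [ha _ h, zero_mul]
  · rw [hb p.2 (by omega), mul_zero]

theorem single_mem_PP (n : ℤ) (a : F) : HahnSeries.single n a ∈ PP F n :=
  fun _ hm => HahnSeries.coeff_single_of_ne hm.ne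

theorem io_monomial (j : ℕ) (a : F) :
    io F (monomial j a) = HahnSeries.single (-(j : ℤ)) a := by
  simp only [io, Int.reduceNeg, coe_eval₂RingHom, eval₂_monomial, HahnSeries.C_apply, HahnSeries.single_pow, Int.nsmul_eq_mul, mul_neg, mul_one, one_pow, HahnSeries.single_mul_single, zero_add]

theorem io_coeff_pos (c : F[X]) {n : ℤ} (hn : 0 < n) : (io F c).coeff n = 0 := by
  induction c using Polynomial.induction_on' with
  | add a b ha hb => rw [map_add, HahnSeries.coeff_add, ha, hb, add_zero]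
  | monomial j a => rw [io_monomial, HahnSeries.coeff_single_of_ne (by omega)]

theorem io_coeff_neg (c : F[X]) (j : ℕ) : (io F c).coeff (-(j : ℤ)) = c.coeff j := by
  induction c using Polynomial.induction_on' with
  | add a b ha hb => rw [map_add, HahnSeries.coeff_add, ha, hb, coeff_add]
  | monomial i a =>
    rw [io_monomial, coeff_monomial]
    split_ifs with h
    · rw [h, HahnSeries.coeff_single_same]
    · rw [HahnSeries.coeff_single_of_ne (by omega)]

theorem io_mem_PP (c : F[X]) : io F c ∈ PP F (-(c.natDegree : ℤ)) := by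
  intro m hm
  obtain ⟨j, rfl⟩ : ∃ j : ℕ, m = -(j : ℤ) := ⟨(-m).toNat, by omega⟩
  rw [io_coeff_neg, coeff_eq_zero_of_natDegree_lt (by omega)]

theorem mem_PP_order (k : LaurentSeries F) : k ∈ PP F k.order :=
  fun _ hm => HahnSeries.coeff_eq_zero_of_lt_order hm

/-- The polynomial part. -/
theorem exists_pol (F : Type) [Field F] : ∃ pol : LaurentSeries F →+ F[X],
    (∀ k, k - io F (pol k) ∈ PP F 1) ∧ (∀ c, pol (io F c) = c) ∧ ∀ k ∈ PP F 1, pol k = 0 := by
  have h : ∀ k : LaurentSeries F, ∃ c : F[X], ∀ j : ℕ, c.coeff j = k.coeff (-(j : ℤ)) := fun k => by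
    refine ⟨∑ j ∈ Finset.range ((-k.order).toNat + 1), monomial j (k.coeff (-(j : ℤ))), fun j => ?_⟩
    rw [finsetSum_coeff, Finset.sum_eq_single j (fun i _ hi => by simp [coeff_monomial, hi])]
    · simp
    · intro hj
      rw [Finset.mem_range] at hj
      rw [mem_PP_order k _ (by omega)]
      simp
  choose p hp using h
  refine ⟨AddMonoidHom.mk' p fun a b => Polynomial.ext fun j => by
    rw [coeff_add, hp, hp, hp, HahnSeries.coeff_add], fun k m hm => ?_,
    fun c => Polynomial.ext fun j => (hp _ j).trans (io_coeff_neg c j),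
    fun k hk => Polynomial.ext fun j => (hp _ j).trans (hk _ (by omega))⟩
  obtain ⟨j, rfl⟩ : ∃ j : ℕ, m = -(j : ℤ) := ⟨(-m).toNat, by omega⟩
  rw [HahnSeries.coeff_sub, io_coeff_neg]
  exact sub_eq_zero.2 (hp k j).symm

theorem one_add_ne_zero {t : LaurentSeries F} (ht : t ∈ PP F 1) : 1 + t ≠ 0 := fun h => by
  have := congrArg (fun k : LaurentSeries F => k.coeff 0) h
  simp [ht 0 one_pos] at this

theorem inv_mem_PP {t : LaurentSeries F} (ht : t ∈ PP F 1) : (1 + t)⁻¹ ∈ PP F 0 := by
  have e : (1 + t)⁻¹ = 1 - t * (1 + t)⁻¹ := by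
    have := one_add_ne_zero ht
    field_simp
    ring
  have k : ∀ n : ℕ, (1 + t)⁻¹ ∈ PP F (-(n : ℤ)) → (1 + t)⁻¹ ∈ PP F 0 := by
    intro n
    induction n with
    | zero => exact id
    | succ n ih =>
      intro h
      refine ih (e ▸ sub_mem (PP_anti (by omega) (single_mem_PP 0 1)) (PP_anti ?_ (PP_mul ht h)))
      omega
  exact k (-((1 + t)⁻¹).order).toNat (PP_anti (by omega) (mem_PP_order _))

/-- The additive character of the constants. -/
theorem exists_tr (F : Type) [Field F] [Finite F] [CharP F 2] :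
    ∃ τ : F →+ ZMod 2, τ ≠ 0 ∧ ∀ a, τ (a ^ 2) = τ a := by
  let _ : Algebra (ZMod 2) F := ZMod.algebra F 2
  let w : F →ₗ[ZMod 2] F := (AddMonoidHom.mk' (fun a : F => a ^ 2 - a) fun a b => by
    rw [CharTwo.add_sq]; ring).toZModLinearMap 2
  have h : LinearMap.range w < ⊤ := by
    rw [lt_top_iff_ne_top, Ne, LinearMap.range_eq_top, ← Finite.injective_iff_surjective]
    intro hi
    exact one_ne_zero (hi (show (1 : F) ^ 2 - 1 = 0 ^ 2 - 0 by simp))
  obtain ⟨f, f0, hf⟩ := Submodule.exists_dual_map_eq_bot_of_lt_top h inferInstance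
  refine ⟨f.toAddMonoidHom, fun h0 => f0 (LinearMap.ext fun a => DFunLike.congr_fun h0 a),
    fun a => ?_⟩
  rw [← sub_eq_zero, ← map_sub]
  have := Submodule.mem_map_of_mem (f := f) (LinearMap.mem_range_self w a)
  rw [hf] at this
  exact this

instance [CharP F 2] : CharP (LaurentSeries F) 2 :=
  charP_of_injective_ringHom (f := (HahnSeries.C : F →+* LaurentSeries F))
    HahnSeries.C_injective 2

/-- The coefficient of degree two of a square. -/
theorem coeff_sq [CharP F 2] (k : LaurentSeries F) : (k ^ 2).coeff 2 = k.coeff 1 ^ 2 := by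
  obtain ⟨p, h1, -, -⟩ := exists_pol F
  have h2 : k - io F (p k) - HahnSeries.single 1 (k.coeff 1) ∈ PP F 2 := fun m hm => by
    rw [HahnSeries.coeff_sub]
    by_cases h : m = 1
    · rw [h, HahnSeries.coeff_sub, io_coeff_pos _ one_pos, HahnSeries.coeff_single_same]
      ring
    · rw [h1 k m (by omega), HahnSeries.coeff_single_of_ne h, sub_zero]
  have h3 := PP_mul h2 h2 2 (by norm_num)
  rw [← sq, CharTwo.sub_eq_add, CharTwo.sub_eq_add, CharTwo.add_sq, CharTwo.add_sq, ← map_pow,
    HahnSeries.coeff_add, HahnSeries.coeff_add, io_coeff_pos _ two_pos, add_zero,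
    HahnSeries.single_pow, CharTwo.add_eq_zero] at h3
  simpa only [Int.nsmul_eq_mul, Nat.cast_ofNat, mul_one, HahnSeries.coeff_single_same] using h3

end LA

end Pool.Agent.MP_434e52_an.NL

namespace Pool.Agent.MP_434e52_an.NL

open Matrix Polynomial Filter

section Mo

variable {G Ω Ω' : Type} [Group G]

theorem sn_zero : sn 0 = 1 := by simp [sn]

theorem Mono.op_single (M : Mono G Ω) (g : G) (w : Ω) (c : ℂ) :
    M.op g (Finsupp.single w c) = Finsupp.single (M.act g w) (c * sn (M.sg g w)) := by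
  simp [Mono.op]

theorem Mono.li (M : Mono G Ω) (h : ∀ c, Finsupp.linearCombination ℂ M.op c = 0 → c = 0) :
    LinearIndependent ℂ M.op := fun c d hcd => by
  have := h (c + (-1 : ℂ) • d) (by
    rw [map_add, map_smul, hcd]
    generalize Finsupp.linearCombination ℂ M.op d = T
    calc T + (-1 : ℂ) • T = ((1 : ℂ) + -1) • T := by rw [add_smul, one_smul]
      _ = 0 := by rw [add_neg_cancel, zero_smul])
  rwa [neg_one_smul, add_neg_eq_zero] at this

/-- Transport along a bijection. -/
def Mono.comap (M : Mono G Ω') (e : Ω ≃ Ω') : Mono G Ω where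
  act g w := e.symm (M.act g (e w))
  sg g w := M.sg g (e w)
  act_one w := by rw [M.act_one, e.symm_apply_apply]
  act_mul g h w := by rw [M.act_mul, e.apply_symm_apply]
  sg_mul g h w := by rw [M.sg_mul, e.apply_symm_apply]

/-- Multiplication operators. -/
noncomputable def mult (Ω : Type) : (Ω → ℂ) →ₗ[ℂ] Module.End ℂ (Ω →₀ ℂ) where
  toFun f := Finsupp.linearCombination ℂ fun w => Finsupp.single w (f w)
  map_add' f g := by ext1 w; ext1; simp only [Pi.add_apply, Finsupp.single_add, LinearMap.coe_comp, Function.comp_apply, Finsupp.lsingle_apply, Finsupp.linearCombination_single, smul_add, one_smul, LinearMap.add_apply]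
  map_smul' c f := by ext1 w; ext1; simp only [Pi.smul_apply, smul_eq_mul, Finsupp.single_mul, LinearMap.coe_comp, Function.comp_apply, Finsupp.lsingle_apply, Finsupp.linearCombination_single, one_smul, RingHom.id_apply, LinearMap.coe_smul, Finsupp.smul_single]

theorem mult_single (f : Ω → ℂ) (w : Ω) (c : ℂ) :
    mult Ω f (Finsupp.single w c) = Finsupp.single w (c * f w) := by
  simp [mult]

theorem Mono.op_mul (M : Mono G Ω) (g h : G) : M.op (g * h) = M.op g * M.op h := by
  have sn_add : ∀ a b : ZMod 2, sn (a + b) = sn a * sn b := by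
    intro a b
    have h2 : ((-1 : ℂ)) ^ 2 = 1 := by norm_num
    rw [sn, sn, sn, ← pow_add, ZMod.val_add, ← pow_eq_pow_mod _ h2]
  ext1 w; ext1
  simp only [LinearMap.coe_comp, Function.comp_apply, Finsupp.lsingle_apply, op_single, M.act_mul, M.sg_mul, sn_add, one_mul, Finsupp.single_mul, Module.End.mul_apply]

theorem Mono.op_mem (M : Mono G Ω) {H : Type} [Group H] (M' : Mono H Ω) (h : H) (γ : Ω → G)
    (hγ : (Set.range γ).Finite) (ha : ∀ w, M'.act h w = M.act (γ w) w)
    (hs : ∀ w, M.sg (γ w) w = 0)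
    (hm : ∀ g, mult Ω (Set.indicator {w | γ w = g} fun w => sn (M'.sg h w)) ∈
      Submodule.span ℂ (Set.range M.op)) : M'.op h ∈ Submodule.span ℂ (Set.range M.op) := by
  classical
  have e : M'.op h = ∑ g ∈ hγ.toFinset,
      M.op g * mult Ω (Set.indicator {w | γ w = g} fun w => sn (M'.sg h w)) := by
    ext1 w; ext1
    simp only [LinearMap.coe_comp, Function.comp_apply, Finsupp.lsingle_apply, LinearMap.sum_apply,
      Module.End.mul_apply, mult_single, Mono.op_single]
    rw [Finset.sum_eq_single (γ w)]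
    · rw [Set.indicator_of_mem (by simp), ha, hs, sn_zero, mul_one]
    · intro g _ hg
      rw [Set.indicator_of_notMem (by simpa using hg.symm)]
      simp
    · simp only [Set.Finite.mem_toFinset, Set.mem_range, exists_apply_eq_apply, not_true_eq_false, Set.mem_ofPred_eq, Set.indicator_of_mem, one_mul, Finsupp.single_mul, IsEmpty.forall_iff]
  rw [e]
  refine Submodule.sum_mem _ fun g _ => ?_
  have := Submodule.mul_mem_mul (Submodule.subset_span (R := ℂ) (Set.mem_range_self (f := M.op) g))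
    (hm g)
  rw [Submodule.span_mul_span] at this
  refine Submodule.span_mono ?_ this
  rintro _ ⟨_, ⟨a, rfl⟩, _, ⟨b, rfl⟩, rfl⟩
  exact ⟨a * b, M.op_mul a b⟩

end Mo

variable {F : Type} [Field F]

/-- The polynomial part. -/
noncomputable def pol (F : Type) [Field F] : LaurentSeries F →+ F[X] := (exists_pol F).choose

theorem sub_pol (k : LaurentSeries F) : k - io F (pol F k) ∈ PP F 1 :=
  (exists_pol F).choose_spec.1 k

theorem pol_io (c : F[X]) : pol F (io F c) = c := (exists_pol F).choose_spec.2.1 c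

theorem pol_PP {k : LaurentSeries F} (h : k ∈ PP F 1) : pol F k = 0 :=
  (exists_pol F).choose_spec.2.2 k h

theorem ev_mul (c : F[X]) : ∀ᶠ n : ℕ in atTop, ∀ k ∈ PP F n, io F c * k ∈ PP F 2 := by
  filter_upwards [eventually_ge_atTop (c.natDegree + 2)] with n hn k hk
  exact PP_anti (by omega) (PP_mul (io_mem_PP c) hk)

/-- The Moebius map. -/
noncomputable def ff (t : LaurentSeries F) : LaurentSeries F := t * (1 + t)⁻¹

theorem mul_inv_mem {n : ℤ} {t y : LaurentSeries F} (ht : t ∈ PP F 1) (hy : y ∈ PP F n) :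
    y * (1 + t)⁻¹ ∈ PP F n := by
  simpa using PP_mul hy (inv_mem_PP ht)

variable [CharP F 2]

theorem two_eq : (2 : LaurentSeries F) = 0 := CharP.cast_eq_zero (LaurentSeries F) 2

theorem one_add_ff {t : LaurentSeries F} (ht : t ∈ PP F 1) : 1 + ff t = (1 + t)⁻¹ := by
  have := one_add_ne_zero ht
  rw [ff]
  field_simp
  linear_combination t * two_eq (F := F)

theorem ff_ff {t : LaurentSeries F} (ht : t ∈ PP F 1) : ff (ff t) = t := by
  rw [ff, one_add_ff ht, inv_inv, ff, mul_assoc, inv_mul_cancel₀ (one_add_ne_zero ht), mul_one]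

variable [Finite F]

/-- The trace. -/
noncomputable def tr (F : Type) [Field F] [Finite F] [CharP F 2] : F →+ ZMod 2 :=
  (exists_tr F).choose

theorem tr_sq (a : F) : tr F (a ^ 2) = tr F a := (exists_tr F).choose_spec.2 a

theorem eq_zero_of_tr {c : F} (h : ∀ a, tr F (a * c) = 0) : c = 0 := by
  by_contra hc
  refine (exists_tr F).choose_spec.1 (AddMonoidHom.ext fun a => ?_)
  have := h (a / c)
  rwa [div_mul_cancel₀ _ hc] at this

/-- Trace of the residue. -/
noncomputable def ps (F : Type) [Field F] [Finite F] [CharP F 2] : LaurentSeries F →+ ZMod 2 where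
  toFun k := tr F (k.coeff 1)
  map_zero' := by simp
  map_add' a b := by rw [HahnSeries.coeff_add, map_add]

theorem ps_io (c : F[X]) : ps F (io F c) = 0 := by
  change tr F _ = 0
  rw [io_coeff_pos c one_pos, map_zero]

theorem ps_PP {k : LaurentSeries F} (h : k ∈ PP F 2) : ps F k = 0 := by
  change tr F _ = 0
  rw [h 1 one_lt_two, map_zero]

theorem ps_monomial (j : ℕ) (a : F) (k : LaurentSeries F) :
    ps F (io F (monomial j a) * k) = tr F (a * k.coeff (j + 1)) := by
  change tr F _ = _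
  rw [io_monomial, ← HahnSeries.coeff_single_mul_add (b := -(j : ℤ))]
  congr 2
  ring

theorem mem_PP_of_ps {n : ℕ} {k : LaurentSeries F} (hk : k ∈ PP F 1)
    (h : ∀ (a : F) (j : Fin n), ps F (io F (monomial j a) * k) = 0) : k ∈ PP F n := by
  intro m hm
  by_cases h1 : m < 1
  · exact hk m h1
  · obtain ⟨j, rfl⟩ : ∃ j : ℕ, m = j + 1 := ⟨(m - 1).toNat, by omega⟩
    exact eq_zero_of_tr fun a => (ps_monomial j a k).symm.trans (h a ⟨j, by omega⟩)

theorem eq_zero_of_ps {c : F[X]} (h : ∀ k ∈ PP F 1, ps F (io F c * k) = 0) : c = 0 := by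
  ext j
  refine eq_zero_of_tr fun a => ?_
  have := h _ (PP_anti (by omega) (single_mem_PP (j + 1 : ℤ) a))
  change tr F _ = 0 at this
  have e := HahnSeries.coeff_single_mul_add (r := a) (x := io F c) (a := -(j : ℤ)) (b := j + 1)
  rw [show -(j : ℤ) + (j + 1) = 1 by ring, io_coeff_neg] at e
  rwa [mul_comm, e] at this

/-- The annihilator in the polynomial ring. -/
def NN (C : AddSubgroup (LaurentSeries F)) : AddSubgroup F[X] where
  carrier := {c | ∀ t ∈ C, ps F (io F c * t) = 0}
  zero_mem' := fun _ _ => by simp only [map_zero, zero_mul]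
  add_mem' := fun ha hb t ht => by rw [map_add, add_mul, map_add, ha t ht, hb t ht, add_zero]
  neg_mem' := fun ha t ht => by rw [map_neg, neg_mul, map_neg, ha t ht, neg_zero]

variable (C : AddSubgroup (LaurentSeries F))

/-- The pairing of the centre with `C`. -/
noncomputable def zc : F[X] ⧸ NN C →+ C →+ ZMod 2 :=
  QuotientAddGroup.lift _
    { toFun := fun c => (ps F).comp ((AddMonoidHom.mulLeft (io F c)).comp C.subtype)
      map_zero' := by ext t; simp
      map_add' := fun a b => by ext t; simp [add_mul] }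
    fun c hc => AddMonoidHom.ext fun t => hc t t.2

theorem zc_mk (c : F[X]) (t : C) : zc C (c : F[X] ⧸ NN C) t = ps F (io F c * t) := rfl

/-- The dual group. -/
abbrev XX : Type := C × (Fin 3 → PP F 1)

/-- The abelian normal subgroup. -/
abbrev AA : Type := (F[X] ⧸ NN C) × VV F[X]

/-- The characters. -/
noncomputable def ch (a : AA C) : XX C →+ ZMod 2 where
  toFun p := zc C a.1 p.1 + ps F (∑ i, io F (a.2 i) * p.2 i)
  map_zero' := by simp only [Prod.fst_zero, map_zero, Prod.snd_zero, Pi.zero_apply, ZeroMemClass.coe_zero, mul_zero, Finset.sum_const_zero, add_zero]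
  map_add' p q := by
    simp only [Prod.fst_add, Prod.snd_add, map_add, Pi.add_apply, AddSubgroup.coe_add, mul_add,
      Finset.sum_add_distrib]
    abel

theorem ch_apply (a : AA C) (p : XX C) :
    ch C a p = zc C a.1 p.1 + ps F (∑ i, io F (a.2 i) * p.2 i) := rfl

theorem ch_add (a b : AA C) (p : XX C) : ch C (a + b) p = ch C a p + ch C b p := by
  simp only [ch_apply, Prod.fst_add, Prod.snd_add, map_add, Pi.add_apply, add_mul,
    Finset.sum_add_distrib, AddMonoidHom.add_apply]
  abel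

theorem ch_eq_zero (a : AA C) : ch C a = 0 ↔ a = 0 := by
  refine ⟨fun h => Prod.ext ?_ (funext fun i => eq_zero_of_ps fun k hk => ?_), ?_⟩
  · obtain ⟨c, hc⟩ := QuotientAddGroup.mk_surjective a.1
    rw [← hc]
    refine (QuotientAddGroup.eq_zero_iff c).2 fun t ht => ?_
    simpa only [ch_apply, ← hc, zc_mk, Pi.zero_apply, ZeroMemClass.coe_zero, mul_zero, Finset.sum_const_zero, map_zero, add_zero, AddMonoidHom.zero_apply] using DFunLike.congr_fun h (⟨t, ht⟩, 0)
  · have := DFunLike.congr_fun h (0, Pi.single i ⟨k, hk⟩)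
    rw [ch_apply, Finset.sum_eq_single i (fun j _ hj => by simp [hj]) (by simp only [Finset.mem_univ, not_true_eq_false, Pi.single_eq_same, mul_eq_zero, IsEmpty.forall_iff])] at this
    simpa only [map_zero, Pi.single_eq_same, zero_add, AddMonoidHom.zero_apply] using this
  · rintro rfl
    ext1 p
    simp only [ch_apply, Prod.fst_zero, map_zero, AddMonoidHom.zero_apply, Prod.snd_zero, Pi.zero_apply, zero_mul, Finset.sum_const_zero, add_zero]

theorem ch_injective : Function.Injective (ch C) := fun a b h => by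
  rw [← sub_eq_zero, ← ch_eq_zero]
  ext1 p
  have := ch_add C (a - b) b p
  rw [sub_add_cancel, h] at this
  simpa only [AddMonoidHom.zero_apply, right_eq_add] using this

/-- The congruence subgroups. -/
def UU (n : ℕ) : AddSubgroup (XX C) where
  carrier := {p | (p.1 : LaurentSeries F) ∈ PP F n ∧ ∀ i, (p.2 i : LaurentSeries F) ∈ PP F n}
  zero_mem' := ⟨zero_mem _, fun _ => zero_mem _⟩
  add_mem' := fun ha hb => ⟨add_mem ha.1 hb.1, fun i => add_mem (ha.2 i) (hb.2 i)⟩
  neg_mem' := fun ha => ⟨neg_mem ha.1, fun i => neg_mem (ha.2 i)⟩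

theorem ev_ch (a : AA C) : ∀ᶠ n : ℕ in atTop, ∀ p ∈ UU C n, ch C a p = 0 := by
  obtain ⟨c, hc⟩ := QuotientAddGroup.mk_surjective a.1
  filter_upwards [ev_mul c, eventually_all.2 fun i => ev_mul (a.2 i)] with n h1 h2 p hp
  rw [ch_apply, ← hc, zc_mk, ps_PP (h1 _ hp.1), ps_PP (sum_mem fun i _ => h2 i _ (hp.2 i)),
    add_zero]

/-- The characters which detect congruences. -/
noncomputable def ss (n : ℕ) (s : F × Fin n × Option (Fin 3)) : AA C :=
  s.2.2.elim ((monomial s.2.1 s.1 : F[X]), 0) fun i => (0, Pi.single i (monomial s.2.1 s.1))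

theorem mem_UU (hC : C ≤ PP F 1) {n : ℕ} {p : XX C} (h : ∀ s, ch C (ss C n s) p = 0) :
    p ∈ UU C n := by
  refine ⟨mem_PP_of_ps (hC p.1.2) fun a j => ?_, fun i => mem_PP_of_ps (p.2 i).2 fun a j => ?_⟩
  · simpa only [ss, Option.elim_none, ch_apply, zc_mk, Pi.zero_apply, map_zero, zero_mul, Finset.sum_const_zero, add_zero] using h (a, j, none)
  · have := h (a, j, some i)
    rw [ch_apply, Finset.sum_eq_single i (fun j _ hj => by simp [ss, hj]) (by simp only [Finset.mem_univ, not_true_eq_false, mul_eq_zero, ZeroMemClass.coe_eq_zero, IsEmpty.forall_iff])] at this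
    simpa only [ss, Option.elim_some, map_zero, AddMonoidHom.zero_apply, Pi.single_eq_same, zero_add] using this

theorem fi_UU (hC : C ≤ PP F 1) (n : ℕ) : (UU C n).FiniteIndex :=
  AddSubgroup.finiteIndex_of_le (H := (AddMonoidHom.pi fun s => ch C (ss C n s)).ker)
    fun _ hp => mem_UU C hC fun s => congrFun hp s

theorem per_span (hC : C ≤ PP F 1) {n : ℕ} {f : XX C → ℂ}
    (hf : ∀ p q, p - q ∈ UU C n → f p = f q) :
    f ∈ Submodule.span ℂ (Set.range fun (a : AA C) (p : XX C) => sn (ch C a p)) :=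
  mem_span_chars (fun a p => ch C a p) (fun p => by rw [(ch_eq_zero C 0).2 rfl]; rfl) (ch_add C)
    (ss C n) f fun p q h => hf p q (mem_UU C hC fun s => by rw [map_sub, h, sub_self])

theorem per_finite (hC : C ≤ PP F 1) {n : ℕ} {B : Type} {f : XX C → B}
    (hf : ∀ p q, p - q ∈ UU C n → f p = f q) : (Set.range f).Finite := by
  have := fi_UU C hC n
  refine (Set.finite_range fun q : XX C ⧸ UU C n => f q.out).subset ?_
  rintro _ ⟨p, rfl⟩
  exact ⟨p, hf _ _ (QuotientAddGroup.eq_iff_sub_mem.1 (QuotientAddGroup.out_eq' _))⟩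

/-- The set on which the monomial representation lives. -/
abbrev Om : Type := C × (Fin 3 → LaurentSeries F) × VV F[X] × KK F[X]

/-- The affine action on the fibre. -/
noncomputable def af (g : KK F[X]) (x : VV F[X]) (t : LaurentSeries F)
    (y : Fin 3 → LaurentSeries F) (i : Fin 3) : LaurentSeries F :=
  ∑ j, io F (mat g i j) * y j + t * io F (x i)

/-- The monomial representation. -/
noncomputable def mono : Mono (Hs (NN C)) (Om C) where
  act e w := (w.1, af e.g e.x w.1 w.2.1, e.x + mat e.g *ᵥ w.2.2.1, e.g * w.2.2.2)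
  sg e w := zc C e.z w.1 + ps F (∑ i, io F (e.b i) * w.2.1 i)
  act_one w := by
    refine Prod.ext rfl (Prod.ext (funext fun i => ?_) (Prod.ext ?_ (one_mul _)))
    · simp only [af, Hs.one_g, mat_one, Matrix.one_apply, apply_ite (io F), map_one, map_zero, ite_mul, one_mul, zero_mul, Finset.sum_ite_eq, Finset.mem_univ, ↓ reduceIte, Hs.one_x, Pi.zero_apply, mul_zero, add_zero]
    · simp [mat_one]
  act_mul e f w := by
    refine Prod.ext rfl (Prod.ext (funext fun i => ?_) (Prod.ext ?_ (mul_assoc _ _ _)))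
    · simp only [af, Hs.mul_g, Hs.mul_x, mat_mul, Matrix.mul_apply, Matrix.mulVec, dotProduct,
        Pi.add_apply, map_add, map_mul, Fin.sum_univ_three]
      ring
    · simp only [Hs.mul_g, Hs.mul_x, mat_mul, mulVec_add, mulVec_mulVec, add_assoc]
  sg_mul e f w := by
    simp only [Hs.mul_z, Hs.mul_b, map_add, AddMonoidHom.add_apply, zc_mk]
    have : ∑ i, io F ((e.b ᵥ* mat f.g + f.b) i) * w.2.1 i + io F (e.b ⬝ᵥ f.x) * w.1 =
        ∑ i, io F (f.b i) * w.2.1 i + ∑ i, io F (e.b i) * af f.g f.x w.1 w.2.1 i := by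
      simp only [af, Matrix.vecMul, dotProduct, Pi.add_apply, map_add, map_mul,
        Fin.sum_univ_three]
      ring
    have := congrArg (ps F) this
    rw [map_add, map_add] at this
    linear_combination this

/-- The point of the dual group under a point of the big set. -/
noncomputable def prj (w : Om C) : XX C :=
  (w.1, fun i => ⟨w.2.1 i - io F (pol F (w.2.1 i)), sub_pol _⟩)

theorem sg_eq (e : Hs (NN C)) (w : Om C) : (mono C).sg e w = ch C (e.z, e.b) (prj C w) := by
  have : ∑ i, io F (e.b i) * w.2.1 i = ∑ i, io F (e.b i) * ((prj C w).2 i : LaurentSeries F) +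
      io F (∑ i, e.b i * pol F (w.2.1 i)) := by
    simp only [prj, map_add, map_mul, Fin.sum_univ_three]
    ring
  change _ + ps F (∑ i, io F (e.b i) * w.2.1 i) = _
  rw [this, map_add, ps_io, add_zero]
  rfl

/-- The base points. -/
noncomputable def bp (p : XX C) : Om C := (p.1, fun i => p.2 i, 0, 1)

omit [CharP F 2] [Finite F] in
theorem prj_bp (p : XX C) : prj C (bp C p) = p :=
  Prod.ext rfl (funext fun i => Subtype.ext (by simp [prj, bp, pol_PP (p.2 i).2]))

/-- The elements over a given element of the acting group. -/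
def emb (e₀ : Hs (NN C)) (a : AA C) : Hs (NN C) := ⟨a.1, a.2, e₀.x, e₀.g⟩

theorem emb_inj (e₀ : Hs (NN C)) : Function.Injective (emb C e₀) :=
  fun _ _ h => Prod.ext (congrArg Hs.z h) (congrArg Hs.b h)

/-- The matrix entries at the base points. -/
theorem entry (c : Hs (NN C) →₀ ℂ) (e₀ : Hs (NN C)) (p : XX C) :
    Finsupp.linearCombination ℂ (mono C).op c (Finsupp.single (bp C p) 1)
        ((mono C).act e₀ (bp C p)) =
      (c.comapDomain (emb C e₀) (emb_inj C e₀).injOn).sum fun a z => z * sn (ch C a p) := by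
  classical
  induction c using Finsupp.induction_linear with
  | zero => simp [Finsupp.comapDomain_zero]
  | add c d hc hd =>
    rw [map_add, LinearMap.add_apply, Finsupp.add_apply, hc, hd,
      Finsupp.comapDomain_add_of_injective (emb_inj C e₀), Finsupp.sum_add_index']
    · simp
    · simp [add_mul]
  | single e z =>
    rw [Finsupp.linearCombination_single, LinearMap.smul_apply, Mono.op_single, Finsupp.smul_apply,
      Finsupp.single_apply, sg_eq, prj_bp]
    split_ifs with h
    · have h1 : e.x = e₀.x := by simpa only [mono, map_sum, bp, mulVec_zero, add_zero, mul_one] using congrArg (fun w => w.2.2.1) h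
      have h2 : e.g = e₀.g := by simpa only [mono, map_sum, bp, mulVec_zero, add_zero, mul_one] using congrArg (fun w => w.2.2.2) h
      have h3 : e = emb C e₀ (e.z, e.b) := Hs.ext rfl rfl h1 h2
      conv_rhs => rw [h3]
      rw [Finsupp.comapDomain_single, Finsupp.sum_single_index (by simp)]
      simp
    · rw [Finsupp.comapDomain_single_of_not_mem_range]
      · simp
      · rintro ⟨a, rfl⟩
        exact h rfl

theorem eq_zero_of_ch {d : AA C →₀ ℂ} (h : ∀ p, (d.sum fun a z => z * sn (ch C a p)) = 0) :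
    d = 0 := by
  refine linearIndependent_iff.1 (chars_li (ch C) (ch_injective C)) d (funext fun p => ?_)
  rw [Finsupp.linearCombination_apply, Finsupp.sum_apply']
  simpa only [Pi.smul_apply, smul_eq_mul, Pi.zero_apply] using h p

theorem op_li : LinearIndependent ℂ (mono C).op := by
  refine Mono.li _ fun c hc => Finsupp.ext fun e => ?_
  have := eq_zero_of_ch C fun p => (entry C c e p).symm.trans
    (by rw [hc, LinearMap.zero_apply, Finsupp.zero_apply])
  have := DFunLike.congr_fun this (e.z, e.b)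
  rwa [Finsupp.comapDomain_apply] at this

theorem mult_mem {Ω : Type} (ε : Ω ≃ Om C) {f : XX C → ℂ}
    (hf : f ∈ Submodule.span ℂ (Set.range fun (a : AA C) (p : XX C) => sn (ch C a p))) :
    mult Ω (fun w => f (prj C (ε w))) ∈
      Submodule.span ℂ (Set.range ((mono C).comap ε).op) := by
  induction hf using Submodule.span_induction with
  | mem f hf =>
    obtain ⟨a, rfl⟩ := hf
    refine Submodule.subset_span ⟨⟨a.1, a.2, 0, 1⟩, ?_⟩
    ext1 w; ext1
    simp only [LinearMap.coe_comp, Function.comp_apply, Finsupp.lsingle_apply, mult_single,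
      Mono.op_single]
    congr 1
    · exact ((mono C).comap ε).act_one w
    · exact congrArg (fun z => 1 * sn z) (sg_eq C _ _)
  | zero => exact (map_zero (mult Ω)).symm ▸ zero_mem _
  | add f g _ _ hf hg => exact (map_add (mult Ω) _ _).symm ▸ add_mem hf hg
  | smul c f _ hf => exact (map_smul (mult Ω) c _).symm ▸ Submodule.smul_mem _ c hf

variable {C} {C' : AddSubgroup (LaurentSeries F)} (hC : C ≤ PP F 1) (hf : ∀ t ∈ C, ff t ∈ C')

/-- The map between the dual groups. -/
noncomputable def th (p : XX C) : XX C' :=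
  (⟨ff (p.1 : LaurentSeries F), hf _ p.1.2⟩, fun i => ⟨(p.2 i : LaurentSeries F) * (1 + (p.1 : LaurentSeries F))⁻¹,
    mul_inv_mem (hC p.1.2) (p.2 i).2⟩)

/-- The map between the big sets. -/
noncomputable def Th (w : Om C) : Om C' :=
  ((th hC hf (prj C w)).1, fun i => ((th hC hf (prj C w)).2 i : LaurentSeries F) +
    io F (pol F (w.2.1 i)),
    w.2.2.1 + fun i => pol F (w.2.1 i), w.2.2.2)

omit [Finite F] in
theorem th_th (hC' : C' ≤ PP F 1) (hf' : ∀ t ∈ C', ff t ∈ C) (p : XX C) :
    th hC' hf' (th hC hf p) = p := by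
  refine Prod.ext (Subtype.ext (ff_ff (hC p.1.2))) (funext fun i => Subtype.ext ?_)
  change (p.2 i : LaurentSeries F) * (1 + (p.1 : LaurentSeries F))⁻¹ *
    (1 + ff (p.1 : LaurentSeries F))⁻¹ = _
  rw [one_add_ff (hC p.1.2), inv_inv, mul_assoc, inv_mul_cancel₀ (one_add_ne_zero (hC p.1.2)),
    mul_one]

omit [Finite F] [CharP F 2] in
theorem pol_Th (w : Om C) (i : Fin 3) : pol F ((Th hC hf w).2.1 i) = pol F (w.2.1 i) := by
  change pol F (_ + _) = _
  rw [map_add, pol_PP (Subtype.property _), pol_io, zero_add]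

omit [Finite F] [CharP F 2] in
theorem prj_Th (w : Om C) : prj C' (Th hC hf w) = th hC hf (prj C w) := by
  refine Prod.ext rfl (funext fun i => Subtype.ext ?_)
  change (Th hC hf w).2.1 i - io F (pol F _) = _
  rw [pol_Th]
  exact add_sub_cancel_right _ _

omit [Finite F] in
theorem Th_Th (hC' : C' ≤ PP F 1) (hf' : ∀ t ∈ C', ff t ∈ C) (w : Om C) :
    Th hC' hf' (Th hC hf w) = w := by
  have e := (congrArg (th hC' hf') (prj_Th hC hf w)).trans (th_th hC hf hC' hf' _)
  refine Prod.ext (congrArg (fun p : XX C => p.1) e)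
    (Prod.ext (funext fun i => ?_) (Prod.ext ?_ rfl))
  · change ((th hC' hf' _).2 i : LaurentSeries F) + io F (pol F _) = _
    rw [e, pol_Th]
    exact sub_add_cancel _ _
  · funext i
    change w.2.2.1 i + pol F (w.2.1 i) + pol F _ = _
    rw [pol_Th, add_assoc, CharTwo.add_self_eq_zero, add_zero]

omit [Finite F] [CharP F 2] in
theorem th_per {n : ℕ} {p q : XX C} (h : p - q ∈ UU C n) :
    th hC hf p - th hC hf q ∈ UU C' n := by
  have hp := hC p.1.2
  have hq := hC q.1.2
  have h1 := one_add_ne_zero hp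
  have h2 := one_add_ne_zero hq
  have h3 := mul_inv_mem hq (mul_inv_mem hp h.1)
  refine ⟨?_, fun i => ?_⟩
  · convert h3 using 1
    change ff (p.1 : LaurentSeries F) - ff (q.1 : LaurentSeries F) =
      ((p.1 : LaurentSeries F) - q.1) * _ * _
    simp only [ff]
    field_simp
    ring
  · have h4 := PP_mul (PP_anti zero_le_one (q.2 i).2) h3
    rw [zero_add] at h4
    convert sub_mem (mul_inv_mem hp (h.2 i)) h4 using 1
    change (p.2 i : LaurentSeries F) * (1 + (p.1 : LaurentSeries F))⁻¹ -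
      (q.2 i : LaurentSeries F) * (1 + (q.1 : LaurentSeries F))⁻¹ =
      ((p.2 i : LaurentSeries F) - q.2 i) * _ - _ * (((p.1 : LaurentSeries F) - q.1) * _ * _)
    field_simp
    ring

/-- The carry. -/
noncomputable def cy (g : KK F[X]) (x : VV F[X]) (p : XX C') (i : Fin 3) : F[X] :=
  pol F (af g x p.1 (fun j => p.2 j) i)

omit [Finite F] [CharP F 2] in
theorem ev_cy (g : KK F[X]) (x : VV F[X]) :
    ∀ᶠ n : ℕ in atTop, ∀ p q : XX C', p - q ∈ UU C' n → cy g x p = cy g x q := by
  filter_upwards [eventually_all.2 fun i => ev_mul (x i),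
    eventually_all.2 fun i => eventually_all.2 fun j => ev_mul (mat g i j)] with n h1 h2 p q h
  funext i
  rw [cy, cy, ← sub_eq_zero, ← map_sub]
  refine pol_PP (PP_anti one_le_two ?_)
  convert add_mem (sum_mem fun j (_ : j ∈ Finset.univ) => h2 i j _ (h.2 j)) (h1 i _ h.1) using 1
  simp only [af, Fin.sum_univ_three, Prod.fst_sub, Prod.snd_sub, Pi.sub_apply, AddSubgroup.coe_sub]
  ring

theorem act_Th (h : Hs (NN C')) (w : Om C) : (mono C').act h (Th hC hf w) =
    Th hC hf ((mono C).act ⟨0, 0, h.x + cy h.g h.x (th hC hf (prj C w)), h.g⟩ w) := by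
  set m := cy h.g h.x (th hC hf (prj C w)) with hm
  have ht := hC w.1.2
  have h1 := one_add_ne_zero ht
  have key : ∀ i, af h.g (h.x + m) w.1 w.2.1 i =
      (af h.g h.x (ff (w.1 : LaurentSeries F)) (fun j => (th hC hf (prj C w)).2 j) i - io F (m i)) *
        (1 + (w.1 : LaurentSeries F)) +
        io F (m i + (mat h.g *ᵥ fun j => pol F (w.2.1 j)) i) := fun i => by
    simp only [af, th, prj, ff, Matrix.mulVec, dotProduct, Pi.add_apply, map_add, map_mul,
      Fin.sum_univ_three]
    field_simp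
    linear_combination (io F (m i) * w.1) * two_eq (F := F)
  have k1 : ∀ i, (af h.g h.x (ff (w.1 : LaurentSeries F)) (fun j => (th hC hf (prj C w)).2 j) i - io F (m i)) *
      (1 + (w.1 : LaurentSeries F)) ∈ PP F 1 := fun i => by
    have a := sub_pol (af h.g h.x (ff (w.1 : LaurentSeries F)) (fun j => (th hC hf (prj C w)).2 j) i)
    rw [mul_add, mul_one]
    exact add_mem a (PP_anti one_le_two (PP_mul a ht))
  have k2 : ∀ i, pol F (af h.g (h.x + m) w.1 w.2.1 i) =
      m i + (mat h.g *ᵥ fun j => pol F (w.2.1 j)) i := fun i => by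
    rw [key, map_add, pol_PP (k1 i), pol_io, zero_add]
  refine Prod.ext rfl (Prod.ext (funext fun i => ?_) (Prod.ext (funext fun i => ?_) rfl))
  · change af h.g h.x (ff (w.1 : LaurentSeries F)) 
      (fun j => ((th hC hf (prj C w)).2 j : LaurentSeries F) + io F (pol F (w.2.1 j))) i =
      (af h.g (h.x + m) w.1 w.2.1 i - io F (pol F (af h.g (h.x + m) w.1 w.2.1 i))) *
        (1 + (w.1 : LaurentSeries F))⁻¹ + io F (pol F (af h.g (h.x + m) w.1 w.2.1 i))
    rw [k2, key, add_sub_cancel_right, mul_inv_cancel_right₀ h1]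
    simp only [af, Matrix.mulVec, dotProduct, map_add, map_mul, Fin.sum_univ_three]
    ring
  · change (h.x + mat h.g *ᵥ (w.2.2.1 + fun j => pol F (w.2.1 j))) i =
      (h.x + m + mat h.g *ᵥ w.2.2.1) i + pol F (af h.g (h.x + m) w.1 w.2.1 i)
    rw [k2, mulVec_add]
    simp only [Pi.add_apply]
    linear_combination (-1 : F[X]) * CharTwo.add_self_eq_zero (m i)

theorem span_step {Ω : Type} (ε : Ω ≃ Om C) (ε' : Ω ≃ Om C') (he : ∀ w, ε' w = Th hC hf (ε w))
    (h : Hs (NN C')) :
    ((mono C').comap ε').op h ∈ Submodule.span ℂ (Set.range ((mono C).comap ε).op) := by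
  obtain ⟨n, h1, h2⟩ := ((ev_cy (C' := C') h.g h.x).and (ev_ch C' (h.z, h.b))).exists
  let γ : XX C → Hs (NN C) := fun p => ⟨0, 0, h.x + cy h.g h.x (th hC hf p), h.g⟩
  have hγ : ∀ p q, p - q ∈ UU C n → γ p = γ q := fun p q hpq => by
    simp only [γ, h1 _ _ (th_per hC hf hpq)]
  refine Mono.op_mem _ _ h (fun w => γ (prj C (ε w)))
    ((per_finite C hC hγ).subset ?_) (fun w => ?_) (fun w => ?_) fun g => ?_
  · rintro _ ⟨w, rfl⟩
    exact ⟨_, rfl⟩
  · change ε'.symm _ = ε.symm _
    rw [Equiv.symm_apply_eq, he, he, ε.apply_symm_apply, act_Th]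
  · change (mono C).sg _ _ = 0
    simp only [mono, map_sum, γ, map_zero, AddMonoidHom.zero_apply, Pi.zero_apply, zero_mul, Finset.sum_const_zero, add_zero]
  · have := mult_mem C ε (per_span C hC (n := n) (f := Set.indicator {p | γ p = g}
      fun p => sn (ch C' (h.z, h.b) (th hC hf p))) fun p q hpq => ?_)
    · convert this using 2
      funext w
      change Set.indicator {w | γ (prj C (ε w)) = g} (fun w => sn ((mono C').sg h (ε' w))) w = _
      simp only [he, sg_eq, prj_Th]
      rfl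
    · have a := h2 _ (th_per hC hf hpq)
      rw [map_sub, sub_eq_zero] at a
      by_cases hg : γ q = g
      · rw [Set.indicator_of_mem (show p ∈ {p | γ p = g} from (hγ p q hpq).trans hg),
          Set.indicator_of_mem (show q ∈ {p | γ p = g} from hg), a]
      · rw [Set.indicator_of_notMem (show p ∉ {p | γ p = g} from fun h => hg ((hγ p q hpq).symm.trans h)),
          Set.indicator_of_notMem (show q ∉ {p | γ p = g} from hg)]

include hC hf in
theorem vn (hC' : C' ≤ PP F 1) (hf' : ∀ t ∈ C', ff t ∈ C) :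
    VNIso (Hs (NN C)) (Hs (NN C')) := by
  let Θ : Om C ≃ Om C' := ⟨Th hC hf, Th hC' hf', Th_Th hC hf hC' hf', Th_Th hC' hf' hC hf⟩
  let θ : XX C ≃ XX C' := ⟨th hC hf, th hC' hf', th_th hC hf hC' hf', th_th hC' hf' hC hf⟩
  refine vnIso_of_mono (mono C) ((mono C').comap Θ) (op_li C)
    (span_step hC hf (Equiv.refl _) Θ fun _ => rfl)
    (span_step hC' hf' Θ (Equiv.refl _) fun w => (Θ.symm_apply_apply w).symm) fun h c h1 hc => ?_
  have b : ∀ p, Θ (bp C p) = bp C' (θ p) := fun p => by
    have a : ∀ i, pol F ((bp C p).2.1 i) = 0 := fun i => pol_PP (p.2 i).2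
    refine Prod.ext rfl (Prod.ext (funext fun i => ?_) (Prod.ext (funext fun i => ?_) rfl))
    · change ((th hC hf _).2 i : LaurentSeries F) + io F _ = _
      rw [a, prj_bp, map_zero, add_zero]
      rfl
    · exact (zero_add _).trans (a i)
  have e := fun p => entry C c 1 p
  simp only [hc, Mono.op_single, (mono C).act_one] at e
  change c.comapDomain _ (emb_inj C 1).injOn 0 = 0
  generalize c.comapDomain _ (emb_inj C 1).injOn = d at e
  classical
  by_cases hx : h.x = 0 ∧ h.g = 1
  · obtain ⟨n, a1, a2⟩ := ((ev_ch C' (h.z, h.b)).and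
      ((eventually_all_finset d.support).2 fun a _ => ev_ch C a)).exists
    have := fi_UU C hC n
    refine coeff_eq_zero (UU C n) (UU C' n) θ (fun p q => ⟨th_per hC hf, fun hpq => ?_⟩) (ch C) 0
      (ch_eq_zero C) d a2 (ch C' (h.z, h.b)) (fun h0 => h1 ?_) a1 fun p => ?_
    · have := th_per hC' hf' hpq
      rwa [show th hC' hf' (θ p) = p from θ.symm_apply_apply p,
        show th hC' hf' (θ q) = q from θ.symm_apply_apply q] at this
    · rw [ch_eq_zero] at h0
      exact Hs.ext (congrArg Prod.fst h0) (congrArg Prod.snd h0) hx.1 hx.2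
    · rw [← e p, Finsupp.single_apply, if_pos, one_mul]
      · change sn ((mono C').sg h (Θ _)) = _
        rw [b, sg_eq, prj_bp]
      · change Θ.symm _ = _
        rw [Equiv.symm_apply_eq]
        refine Eq.trans ?_ ((mono C').act_one _)
        simp only [mono, hx.1, hx.2, Hs.one_x, Hs.one_g]
  · refine DFunLike.congr_fun (eq_zero_of_ch C fun p => (e p).symm.trans ?_) 0
    rw [Finsupp.single_apply, if_neg]
    intro h0
    change Θ.symm _ = _ at h0
    rw [Equiv.symm_apply_eq, b] at h0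
    exact hx ⟨by simpa only [mono, map_sum, bp, mulVec_zero, add_zero, mul_one] using congrArg (fun w => w.2.2.1) h0,
      by simpa only [mono, map_sum, bp, mulVec_zero, add_zero, mul_one] using congrArg (fun w => w.2.2.2) h0⟩

/-- The odd series. -/
def C0 (F : Type) [Field F] [CharP F 2] [Finite F] : AddSubgroup (LaurentSeries F) where
  carrier := {t | t ∈ PP F 1 ∧ ∀ c : F[X], ps F (io F (X * c ^ 2) * t) = 0}
  zero_mem' := ⟨zero_mem _, fun _ => by simp only [map_mul, map_pow, mul_zero, map_zero]⟩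
  add_mem' := fun ha hb =>
    ⟨add_mem ha.1 hb.1, fun c => by rw [mul_add, map_add, ha.2, hb.2, add_zero]⟩
  neg_mem' := fun ha => ⟨neg_mem ha.1, fun c => by rw [mul_neg, map_neg, ha.2, neg_zero]⟩

/-- The Artin-Schreier preimage of the odd series. -/
def C1 (F : Type) [Field F] [CharP F 2] [Finite F] : AddSubgroup (LaurentSeries F) where
  carrier := {t | t ∈ PP F 1 ∧ t + t ^ 2 ∈ C0 F}
  zero_mem' := ⟨zero_mem _, by simp⟩
  add_mem' := fun ha hb => ⟨add_mem ha.1 hb.1, by
    rw [CharTwo.add_sq, add_add_add_comm]; exact add_mem ha.2 hb.2⟩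
  neg_mem' := fun ha => by rwa [CharTwo.neg_eq]

omit [CharP F 2] [Finite F] in
theorem io_X : io F X = HahnSeries.single (-1) 1 := by
  simp only [io, Int.reduceNeg, coe_eval₂RingHom, eval₂_X]

theorem sq_mul_mem {s t : LaurentSeries F} (hs : s ∈ PP F 0) (ht : t ∈ C0 F) :
    t * s ^ 2 ∈ C0 F := by
  refine ⟨by simpa [sq] using PP_mul ht.1 (PP_mul hs hs), fun c => ?_⟩
  have a := sub_pol (io F c * s)
  set m := pol F (io F c * s)
  set r := io F c * s - io F m with hr
  have e : io F (X * c ^ 2) * (t * s ^ 2) = io F (X * m ^ 2) * t + io F X * (r * r * t) := by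
    simp only [map_mul, map_pow, hr]
    linear_combination (io F X * t * io F m * (io F c * s - io F m)) * two_eq (F := F)
  have b := PP_mul (single_mem_PP (-1) (1 : F)) (PP_mul (PP_mul a a) ht.1)
  rw [← io_X] at b
  rw [e, map_add, ht.2, ps_PP b, add_zero]

theorem ff_C0 (t : LaurentSeries F) (ht : t ∈ C0 F) : ff t ∈ C1 F := by
  refine ⟨mul_inv_mem ht.1 ht.1, ?_⟩
  convert sq_mul_mem (inv_mem_PP ht.1) ht using 1
  have := one_add_ne_zero ht.1
  rw [ff]
  field_simp
  linear_combination t ^ 2 * two_eq (F := F)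

theorem ff_C1 (t : LaurentSeries F) (ht : t ∈ C1 F) : ff t ∈ C0 F := by
  convert sq_mul_mem (inv_mem_PP ht.1) ht.2 using 1
  have := one_add_ne_zero ht.1
  rw [ff]
  field_simp

theorem ps_sq (k : LaurentSeries F) : ps F (io F X * k ^ 2) = ps F k := by
  have e := HahnSeries.coeff_single_mul_add (r := (1 : F)) (x := k ^ 2) (a := 2) (b := -1)
  rw [show (2 : ℤ) + -1 = 1 by norm_num] at e
  change tr F _ = tr F _
  rw [io_X, e, one_mul, coeff_sq, tr_sq]

theorem as_mem (c : F[X]) : X * c ^ 2 + c ∈ NN (C1 F) := fun t ht => by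
  have e : io F (X * c ^ 2 + c) * t = io F (X * c ^ 2) * (t + t ^ 2) +
      (io F X * (io F c * t) ^ 2 + io F c * t) := by
    simp only [map_mul, map_pow, map_add]
    linear_combination (-(io F X * io F c ^ 2 * t ^ 2)) * two_eq (F := F)
  rw [e, map_add, ht.2.2, map_add, ps_sq, zero_add, CharTwo.add_self_eq_zero]

omit [Finite F] in
theorem coeff_sq_odd (c : F[X]) (j : ℕ) : (c ^ 2).coeff (2 * j + 1) = 0 := by
  rw [← map_frobenius_expand 2 c, coeff_map, coeff_expand two_pos, if_neg (by omega), map_zero]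

theorem single_mem_C0 (j : ℕ) (a : F) : HahnSeries.single (2 * j + 1 : ℤ) a ∈ C0 F := by
  refine ⟨PP_anti (by omega) (single_mem_PP _ a), fun c => ?_⟩
  have e := HahnSeries.coeff_single_mul_add (r := a) (x := io F (X * c ^ 2))
    (a := -((2 * j : ℕ) : ℤ)) (b := 2 * j + 1)
  rw [show -((2 * j : ℕ) : ℤ) + (2 * j + 1) = 1 by push_cast; ring, io_coeff_neg] at e
  change tr F _ = 0
  rw [mul_comm, e]
  rcases j with _ | j
  · simp
  · rw [show 2 * (j + 1) = 2 * j + 1 + 1 by ring, coeff_X_mul, coeff_sq_odd, mul_zero, map_zero]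

theorem mem_NN_C0 (c : F[X]) : c ∈ NN (C0 F) ↔ derivative (X * c) = 0 := by
  have h2 : (2 : F) = 0 := CharP.cast_eq_zero F 2
  constructor
  · intro h
    ext n
    rw [coeff_derivative, coeff_X_mul, coeff_zero]
    obtain ⟨j, rfl | rfl⟩ := n.even_or_odd'
    · refine mul_eq_zero_of_left (eq_zero_of_tr fun a => ?_) _
      have e := HahnSeries.coeff_single_mul_add (r := a) (x := io F c)
        (a := -((2 * j : ℕ) : ℤ)) (b := 2 * j + 1)
      rw [show -((2 * j : ℕ) : ℤ) + (2 * j + 1) = 1 by push_cast; ring, io_coeff_neg] at e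
      have := h _ (single_mem_C0 j a)
      change tr F _ = 0 at this
      rwa [mul_comm, e] at this
    · refine mul_eq_zero_of_right _ ?_
      push_cast
      linear_combination ((j : F) + 1) * h2
  · intro h t ht
    have hs : Function.Surjective (frobenius F 2) :=
      Finite.injective_iff_surjective.1 (frobenius F 2).injective
    obtain ⟨d, hd⟩ := map_surjective _ hs (contract 2 (X * c))
    have e : d ^ 2 = X * c := by
      rw [← map_frobenius_expand 2 d, map_expand, hd, expand_contract 2 h two_ne_zero]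
    obtain ⟨u, rfl⟩ : X ∣ d := prime_X.dvd_of_dvd_pow ⟨c, e⟩
    have e2 : c = X * u ^ 2 := mul_left_cancel₀ X_ne_zero (by rw [← e]; ring)
    rw [e2]
    exact ht.2 u

theorem inf_quot {C : AddSubgroup (LaurentSeries F)} (hC : C ≤ PP F 1) [Infinite C] :
    Infinite (F[X] ⧸ NN C) := by
  by_contra h
  rw [not_infinite_iff_finite] at h
  refine not_injective_infinite_finite (fun (t : C) (z : F[X] ⧸ NN C) => zc C z t) fun t u e => ?_
  rw [← sub_eq_zero]
  ext m
  refine mem_PP_of_ps (n := m.toNat + 1) (hC (t - u).2) (fun a j => ?_) m (by omega)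
  rw [← zc_mk, map_sub, sub_eq_zero]
  exact congrFun e _

instance : Infinite (C0 F) :=
  Infinite.of_injective (fun j : ℕ => (⟨_, single_mem_C0 j 1⟩ : C0 F)) fun i j h => by
    have := congrArg (fun t : C0 F => (t : LaurentSeries F).coeff (2 * i + 1)) h
    by_contra hij
    simp only [HahnSeries.coeff_single_same] at this
    rw [HahnSeries.coeff_single_of_ne (by omega)] at this
    exact one_ne_zero this

instance : Infinite (C1 F) :=
  Infinite.of_injective (fun t : C0 F => (⟨_, ff_C0 t t.2⟩ : C1 F)) fun t u h => by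
    have h1 : ff (t : LaurentSeries F) = ff (u : LaurentSeries F) := Subtype.mk.inj h
    apply Subtype.ext
    rw [← ff_ff t.2.1, h1, ff_ff u.2.1]

theorem twin (F : Type) [Field F] [Fintype F] [CharP F 2] (hF : 8 ≤ Fintype.card F) :
    ∃ (G H : Type) (_ : Group G) (_ : Group H),
    Countable G ∧ Countable H ∧ PropT G ∧ PropT H ∧
      Infinite (Subgroup.center G) ∧ Infinite (Subgroup.center H) ∧ VNIso G H ∧
      ICC (G ⧸ Subgroup.center G) ∧
      Nonempty (G ⧸ Subgroup.center G ≃* H ⧸ Subgroup.center H) ∧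
      IsLinear G ∧ (∀ (Γ : Type) [Group Γ], IsLinear Γ → ¬ VirtIso Γ H) ∧ ¬ VirtIso G H := by
  have : Countable F[X] := countable_poly
  have i0 := inf_quot (C := C0 F) fun _ h => h.1
  have i1 := inf_quot (C := C1 F) fun _ h => h.1
  have := Hs.fg (NN (C1 F))
  obtain ⟨e0⟩ := Hs.quot_center (NN (C0 F))
  obtain ⟨e1⟩ := Hs.quot_center (NN (C1 F))
  have hl := isLinear _ (mem_NN_C0 (F := F))
  have hn : ∀ (Γ : Type) [Group Γ], IsLinear Γ → ¬ VirtIso Γ (Hs (NN (C1 F))) :=
    fun Γ _ h1 h2 => not_rn _ as_mem (rn_of_virtIso h1 h2)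
  exact ⟨Hs (NN (C0 F)), Hs (NN (C1 F)), inferInstance, inferInstance, inferInstance,
    inferInstance, Hs.propT hF _, Hs.propT hF _, Hs.infinite_center _, Hs.infinite_center _,
    vn (fun _ h => h.1) ff_C0 (fun _ h => h.1) ff_C1, ICC.of_equiv e0 Hs.icc_top,
    ⟨e0.trans e1.symm⟩, hl, hn, hn _ hl⟩

end Pool.Agent.MP_434e52_an.NL
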