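import Pool.Agent.MP_434e52_an.Defs

/-!
Definitions: word length, hyperbolic and relatively hyperbolic groups, free subgroups in normal
subgroups.
-/

set_option autoImplicit false

namespace Pool.Agent.MP_434e52_an

/-- The least length of a word in `S ∪ S⁻¹` with product `g`. -/
noncomputable def wordLen {G : Type} [Group G] (S : Set G) (g : G) : ℕ :=
  sInf {n | ∃ l : List G, l.length = n ∧ (∀ s ∈ l, s ∈ S ∨ s⁻¹ ∈ S) ∧ l.prod = g}

/-- The word metric `d(x, y) = |x⁻¹ y|` of `S` satisfies Gromov's four point condition. -/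
def FourPoint {G : Type} [Group G] (S : Set G) : Prop :=
  ∃ δ : ℕ, ∀ w x y z : G,
    wordLen S (x⁻¹ * y) + wordLen S (z⁻¹ * w) ≤
      max (wordLen S (x⁻¹ * z) + wordLen S (y⁻¹ * w))
        (wordLen S (y⁻¹ * z) + wordLen S (x⁻¹ * w)) + δ

/-- Word-hyperbolic: the Cayley graph for some finite generating set is hyperbolic. -/
def Hyperbolic (G : Type) [Group G] : Prop :=
  ∃ S : Finset G, Subgroup.closure (S : Set G) = ⊤ ∧ FourPoint (S : Set G)

/-- Hyperbolic relative to `H`: for some finite set `S`, the set `S ∪ H` generates, its Cayley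
graph is hyperbolic, and for each `n` only finitely many elements of `H` are reached from `1` by a
path of length `n` whose edges are `S`-edges, or `H`-edges between vertices outside `H`. -/
def RelHyperbolic (G : Type) [Group G] (H : Subgroup G) : Prop :=
  ∃ S : Finset G, Subgroup.closure ((S : Set G) ∪ H) = ⊤ ∧ FourPoint ((S : Set G) ∪ H) ∧
    ∀ n : ℕ, {h : G | h ∈ H ∧ ∃ γ : ℕ → G, γ 0 = 1 ∧ γ n = h ∧ ∀ i < n,
      (γ i)⁻¹ * γ (i + 1) ∈ S ∨ (γ (i + 1))⁻¹ * γ i ∈ S ∨
        ((γ i)⁻¹ * γ (i + 1) ∈ H ∧ γ i ∉ H)}.Finite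

/-- Every non-trivial normal subgroup contains a free group of rank two. -/
def FreeInNormal (G : Type) [Group G] : Prop :=
  ∀ N : Subgroup G, N.Normal → N ≠ ⊥ →
    ∃ f : FreeGroup (Fin 2) →* G, Function.Injective f ∧ f.range ≤ N

end Pool.Agent.MP_434e52_an
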