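import Pool.Agent.MP_434e52_an.TriB

attribute [-instance] littleWedderburn MonTypeEquivalenceMon.monMonoid NormedAddTorsor.toAddTorsor
  UniformSpace.toTopologicalSpace Module.Free.instFaithfulSMulOfNontrivial
  NonUnitalAlgHomClass.toNonUnitalRingHomClass Unique.instSubsingleton instCharZeroOfIsSemireal
  RCLike.charZero_rclike ContinuousSemilinearMapClass.toSemilinearMapClass RKHS.instFunLike
  CategoryTheory.CommGrpObj.toGrpObj IdemSemiring.toSemiring SubgroupClass.toCommGroup
  Nontrivial.to_nonempty FloorSemiring.instCharZero CoalgHomClass.toSemilinearMapClass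
  NormedField.toField NormedRing.toRing EuclideanDomain.toCommRing SeminormedCommRing.toCommRing
  NormedSpace.toModule MonoidWithZero.toMulZeroOneClass SeminormedRing.toRing
  CommMonTypeEquivalenceCommMon.commMonCommMonoid instNonUnitalAlgHomClassOfNonUnitalAlgEquivClass
  SemilatticeInf.toPartialOrder RingHomClass.toLinearMapClassRat MonoidWithZero.toMonoid
  SemilinearIsometryClass.toSemilinearMapClass Subgroup.toCommGroup
  ContinuousMonoidHom.instCoeOutOfMonoidHomClassOfContinuousMapClass instFaithfulSMul_1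
  NonUnitalAlgHomClass.instSemilinearMapClassOfNonUnitalAlgSemiHomClassToMonoidHomRingHom
  GrpTypeEquivalenceGrp.grpGroup CommCStarAlgebra.toNormedCommRing IdemCommSemiring.toCommSemiring
  DivisionRing.toDivisionSemiring IsRightCancelMulZero.to_noZeroDivisors BialgHomClass.toAlgHomClass
  Matrix.SpecialLinearGroup.hasCoeToGeneralLinearGroup AddCommGroupWithOne.toAddGroupWithOne
  SetLike.GradeZero.instCommRing BooleanRing.toCommRing TestFunctionClass.toDFunLike
  SubringClass.toCommRing BialgHomClass.toMonoidHomClass IsDomain.to_noZeroDivisors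
  instCommGroupOfIsSimpleGroupOfIsNilpotent Polynomial.commRing CompletePartialOrder.toPartialOrder
  ContDiffMapSupportedInClass.toDFunLike SetLike.GradeZero.instSemiring NormedField.toNormedCommRing
  AlgHomClass.linearMapClass SetLike.GradeZero.instRing NonAssocCommSemiring.toNonAssocSemiring
  NonUnitalRing.toNonUnitalNonAssocRing BooleanRing.toRing bot_nonempty RightPreLieAlgebra.toModule
  CoheytingAlgebra.toOrderTop NonUnitalNormedCommRing.toNonUnitalCommRing
  SetLike.GradeZero.instCommSemiring Module.End.instDivisionRing instSMulZeroClass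
  instCoeHTCTOfCoeTailOfCoeHTC NonUnitalSeminormedCommRing.toNonUnitalCommRing LieAlgebra.toModule
  LeftPreLieAlgebra.toModule Subalgebra.toCommRing SetCoe.countable
  MonoidWithZero.toSemigroupWithZero LieAdmissibleAlgebra.toSMulCommClass
  NonAssocRing.toNonAssocSemiring LieAdmissibleRing.toNonUnitalNonAssocRing
  RightPreLieAlgebra.toIsScalarTower NumberField.to_charZero LinearMapClass.instCoeToLinearMap
  ValuationClass.toMonoidWithZeroHomClass
  ContinuousAddMonoidHom.instCoeOutOfAddMonoidHomClassOfContinuousMapClass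
  CommGrpTypeEquivalenceCommGrp.commGrpCommGroup AlgEquivClass.toAlgHomClass
  LieAdmissibleAlgebra.toIsScalarTower One.instNonempty MulZeroClass.toMul
  NormedDivisionRing.toDivisionRing MulSemiringAction.toDistribMulAction
  SemilinearMapClass.instCoeToSemilinearMap SemilatticeSup.toPartialOrder
  MulSemiringActionSemiHomClass.toRingHomClass LieRing.toAddCommGroup instCoeOutOfCoeFun
  GroupWithZero.toDivInvMonoid Zero.instNonempty SubsemiringClass.toCommSemiring
  LeftPreLieRing.toNonUnitalNonAssocRing AddSubmonoidWithOneClass.toAddMonoidWithOne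
  GroupWithZero.toDivisionMonoid RingEquivClass.toNonUnitalRingHomClass instCoeTOfCoeDep
  MulEquivClass.toMonoidWithZeroHomClass CompTriple.instId_comp LeftPreLieAlgebra.toSMulCommClass
  LinearOrderedAddCommGroupWithTop.toOrderTop DivisionRing.toDivInvMonoid
  CompleteSemilatticeSup.toPartialOrder Module.Invertible.instFaithfulSMul
  LinearOrderedAddCommMonoidWithTop.toOrderTop ConditionallyCompletePartialOrderSup.toPartialOrder
  Torsor.toMulAction MulSemiringActionSemiHomClass.toDistribMulActionSemiHomClass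
  NonUnitalRing.toNonUnitalSemiring SetLike.GradeZero.instMonoid IsStrictOrderedRing.toCharZero
  NonUnitalNormedRing.toNormedAddCommGroup NonAssocCommRing.toNonUnitalNonAssocCommRing
  SeminormedCommGroup.toCommGroup LeftPreLieAlgebra.toIsScalarTower

section

/-!
Local twins (section 3).
-/

set_option autoImplicit false

namespace Pool.Agent.MP_434e52_an

namespace Code

open MonoidAlgebra Polynomial

noncomputable section

section Model

variable {P P' M : Type} [Group P] [Group P'] [Ring M] [Algebra ℂ M] [StarRing M]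

/-- a normalised self-adjoint functional -/
structure St (M : Type) [Ring M] [Algebra ℂ M] [StarRing M] where
  τ : M →ₗ[ℂ] ℂ
  one : τ 1 = 1
  st : ∀ a, τ (star a) = starRingEnd ℂ (τ a)

/-- a unitary representation for which the functional is the canonical trace -/
structure Mo (P : Type) [Group P] (τ : St M) where
  ρ : P →* M
  st : ∀ p, ρ p⁻¹ = star (ρ p)
  tr : ∀ p, p ≠ 1 → τ.τ (ρ p) = 0

variable {τ : St M}

theorem Mo.coefL (m : Mo P τ) (a : MonoidAlgebra ℂ P) (q : P) :
    τ.τ (m.ρ q⁻¹ * lift ℂ M P m.ρ a) = a.coeff q := by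
  induction a using MonoidAlgebra.induction_linear with
  | zero => simp
  | add a b h h' => simp [mul_add, h, h']
  | single x c =>
    rw [lift_single, mul_smul_comm, map_smul, ← map_mul]
    by_cases h : x = q
    · simp [h, τ.one]
    · rw [m.tr _ fun e => h (inv_mul_eq_one.1 e).symm]
      simp [h]

theorem Mo.coefR (m : Mo P τ) (a : MonoidAlgebra ℂ P) (q : P) :
    τ.τ (lift ℂ M P m.ρ a * m.ρ q⁻¹) = a.coeff q := by
  induction a using MonoidAlgebra.induction_linear with
  | zero => simp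
  | add a b h h' => simp [add_mul, h, h']
  | single x c =>
    rw [lift_single, smul_mul_assoc, map_smul, ← map_mul]
    by_cases h : x = q
    · simp [h, τ.one]
    · rw [m.tr _ fun e => h (mul_inv_eq_one.1 e)]
      simp [h]

theorem Mo.inj (m : Mo P τ) : Function.Injective (lift ℂ M P m.ρ) := fun a b h => by
  ext q
  rw [← m.coefL, h, m.coefL]

theorem Mo.ex (m : Mo P τ) {x : M} (h : x ∈ Submodule.span ℂ (Set.range m.ρ)) :
    ∃ a, lift ℂ M P m.ρ a = x := by
  refine (Submodule.span_le (p := LinearMap.range (lift ℂ M P m.ρ).toLinearMap)).2 ?_ h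
  rintro _ ⟨p, rfl⟩
  exact ⟨single p 1, by simp⟩

/-- expansion of one model in another one -/
def Mo.th (m : Mo P τ) (m' : Mo P' τ) (h : ∀ p, m.ρ p ∈ Submodule.span ℂ (Set.range m'.ρ)) :
    P →* MonoidAlgebra ℂ P' where
  toFun p := (m'.ex (h p)).choose
  map_one' := m'.inj (by rw [(m'.ex (h 1)).choose_spec, map_one, map_one])
  map_mul' p q := m'.inj (by
    rw [(m'.ex (h _)).choose_spec, map_mul (lift ℂ M P' m'.ρ), (m'.ex (h p)).choose_spec,
      (m'.ex (h q)).choose_spec, map_mul])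

theorem Mo.th_spec (m : Mo P τ) (m' : Mo P' τ)
    (h : ∀ p, m.ρ p ∈ Submodule.span ℂ (Set.range m'.ρ)) (p : P) :
    lift ℂ M P' m'.ρ (m.th m' h p) = m.ρ p := (m'.ex (h p)).choose_spec

/-- two models with the same span are twins -/
def Mo.tw (m : Mo P τ) (m' : Mo P' τ) (h : ∀ p, m.ρ p ∈ Submodule.span ℂ (Set.range m'.ρ))
    (h' : ∀ q, m'.ρ q ∈ Submodule.span ℂ (Set.range m.ρ)) : Tw P P' where
  th := m.th m' h
  adj p q := by
    rw [← m'.coefL, ← m'.coefR, Mo.th_spec, Mo.th_spec, inv_inv, m.st, m'.st, ← star_mul, τ.st]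
  tr p hp := by rw [← m'.coefL, Mo.th_spec, inv_one, map_one, one_mul, m.tr p hp]
  onto q := by
    have e : (m.ρ : P → M) = (lift ℂ M P' m'.ρ).toLinearMap ∘ m.th m' h :=
      funext fun p => (m.th_spec m' h p).symm
    have := h' q
    rw [e, Set.range_comp, ← Submodule.map_span] at this
    obtain ⟨a, ha, e⟩ := this
    rwa [← m'.inj (a₁ := a) (a₂ := single q 1) (by simpa using e)]

end Model

section Char

variable {S A : Type} [Fintype S] [AddCommGroup A] [Finite A]

/-- the mean value -/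
def mean (S : Type) [Fintype S] [Nonempty S] : St (S → ℂ) where
  τ := (Fintype.card S : ℂ)⁻¹ • ∑ s, LinearMap.proj s
  one := by simp
  st a := by simp

/-- characters as functions on a set of labels -/
def fn (e : S ≃ A) : AddChar A ℂ →* (S → ℂ) where
  toFun χ s := χ (e s)
  map_one' := rfl
  map_mul' _ _ := rfl

omit [Fintype S] in
theorem fn_inv (e : S ≃ A) (χ : AddChar A ℂ) : fn e χ⁻¹ = star (fn e χ) :=
  funext fun s => AddChar.map_neg_eq_conj χ (e s)

theorem mean_fn [Nonempty S] (e : S ≃ A) {χ : AddChar A ℂ} (h : χ ≠ 1) : (mean S).τ (fn e χ) = 0 := by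
  have := Fintype.ofFinite A
  have : ∑ s, fn e χ s = 0 := (e.sum_comp χ).trans (AddChar.sum_eq_zero_iff_ne_zero.2 h)
  simp [mean, this]

omit [Fintype S] in
theorem fn_span (e : S ≃ A) (f : S → ℂ) : f ∈ Submodule.span ℂ (Set.range (fn e)) := by
  have h : f ∘ e.symm ∈ Submodule.span ℂ (Set.range (AddChar.complexBasis A)) := by
    rw [Module.Basis.span_eq]; trivial
  have := Submodule.mem_map_of_mem (f := LinearMap.funLeft ℂ ℂ e) h
  rw [Submodule.map_span, ← Set.range_comp, AddChar.coe_complexBasis] at this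
  rwa [show LinearMap.funLeft ℂ ℂ e (f ∘ e.symm) = f from funext fun s => by
    simp [LinearMap.funLeft]] at this

/-- the model of a dual group -/
def chMo [Nonempty S] (e : S ≃ A) : Mo (AddChar A ℂ) (mean S) :=
  ⟨fn e, fn_inv e, fun _ h => mean_fn e h⟩

theorem dual_mem (H : Subgroup (AddChar A ℂ)) (χ : AddChar A ℂ)
    (h : ∀ c, (∀ ψ ∈ H, ψ c = 1) → χ c = 1) : χ ∈ H := by
  let H' : AddSubgroup (AddChar A ℂ) :=
    { carrier := H, add_mem' := H.mul_mem, zero_mem' := H.one_mem, neg_mem' := H.inv_mem }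
  by_contra n
  have n' : QuotientAddGroup.mk' H' χ ≠ 0 := fun e => n ((QuotientAddGroup.eq_zero_iff χ).1 e)
  obtain ⟨Λ, hΛ⟩ := AddChar.exists_apply_ne_zero.2 n'
  obtain ⟨c, hc⟩ := AddChar.doubleDualEmb_bijective.2 (Λ.compAddMonoidHom (QuotientAddGroup.mk' H'))
  have k : ∀ ψ : AddChar A ℂ, ψ c = Λ (QuotientAddGroup.mk' H' ψ) := fun ψ => DFunLike.congr_fun hc ψ
  refine hΛ ((k χ).symm.trans (h c fun ψ m => ?_))
  rw [k, show QuotientAddGroup.mk' H' ψ = 0 from (QuotientAddGroup.eq_zero_iff ψ).2 m, AddChar.map_zero_eq_one]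

end Char

/-- pairs of ring elements, to be added with or without a carry -/
@[ext] structure Ex (r : Bool) (R : Type) where
  l : R
  m : R

section Ex

variable {r : Bool} {R R' : Type} [CommRing R] [CommRing R']

instance : Add (Ex r R) := ⟨fun a b => ⟨a.l + b.l, a.m + b.m + cond r (a.l * b.l) 0⟩⟩
instance : Zero (Ex r R) := ⟨⟨0, 0⟩⟩
instance : Neg (Ex r R) := ⟨fun a => ⟨-a.l, -a.m + cond r (a.l * a.l) 0⟩⟩

@[simp] theorem add_l (a b : Ex r R) : (a + b).l = a.l + b.l := rfl
@[simp] theorem add_m (a b : Ex r R) : (a + b).m = a.m + b.m + cond r (a.l * b.l) 0 := rfl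
@[simp] theorem zero_l : (0 : Ex r R).l = 0 := rfl
@[simp] theorem zero_m : (0 : Ex r R).m = 0 := rfl
@[simp] theorem neg_l (a : Ex r R) : (-a).l = -a.l := rfl
@[simp] theorem neg_m (a : Ex r R) : (-a).m = -a.m + cond r (a.l * a.l) 0 := rfl

instance : AddCommGroup (Ex r R) where
  add_assoc a b c := by ext <;> cases r <;> simp <;> ring
  zero_add a := by ext <;> cases r <;> simp
  add_zero a := by ext <;> cases r <;> simp
  neg_add_cancel a := by ext <;> cases r <;> simp
  add_comm a b := by ext <;> cases r <;> simp <;> ring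
  nsmul := nsmulRec
  zsmul := zsmulRec

/-- functoriality -/
def Ex.map (f : R →+* R') : Ex r R →+ Ex r R' where
  toFun a := ⟨f a.l, f a.m⟩
  map_zero' := by ext <;> simp
  map_add' a b := by ext <;> cases r <;> simp

/-- the underlying pair -/
def Ex.eqv (r : Bool) (R : Type) : R × R ≃ Ex r R :=
  ⟨fun a => ⟨a.1, a.2⟩, fun a => ⟨a.l, a.m⟩, fun _ => rfl, fun _ => rfl⟩

instance {R : Type} [Finite R] : Finite (Ex r R) := Finite.of_equiv _ (Ex.eqv r R)

theorem dbl (h : (2 : R) = 0) (a : Ex r R) : a + a = ⟨0, cond r (a.l * a.l) 0⟩ := by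
  ext
  · rw [add_l, ← two_mul, h, zero_mul]
  · rw [add_m, ← two_mul, h, zero_mul, zero_add]

end Ex

/-- the field with `8192` elements -/
abbrev F : Type := GaloisField 2 13

theorem two_F : (2 : F) = 0 := CharTwo.two_eq_zero

theorem card_F : Nat.card F = 8192 := GaloisField.card 2 13 (by norm_num)

instance : Fintype F := Fintype.ofFinite F

theorem ex_psi : ∃ ψ : AddChar (ZMod 8191) F, Function.Injective ψ := by
  obtain ⟨g, hg⟩ := IsCyclic.exists_ofOrder_eq_natCard (α := Fˣ)
  rw [Nat.card_units, card_F] at hg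
  have h : IsPrimitiveRoot (g : F) 8191 :=
    IsPrimitiveRoot.coe_units_iff.2 (by simpa [hg] using IsPrimitiveRoot.orderOf g)
  exact ⟨AddChar.zmodChar 8191 h.pow_eq_one, fun a b e =>
    ZMod.val_injective _ (h.pow_inj a.val_lt b.val_lt e)⟩

/-- an injective character -/
def psi : AddChar (ZMod 8191) F := ex_psi.choose

theorem psi_inj : Function.Injective psi := ex_psi.choose_spec

variable {n : ℕ} {r : Bool}

/-- points of a coordinate line -/
def ln (a : Fin n) (t : ZMod 8191) : Yn n := Multiplicative.ofAdd (Pi.single a t)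

/-- functions that are polynomials of degree at most `d` on all coordinate lines -/
def Lam (d : ℕ) (f : Yn n → F) : Prop :=
  ∀ a y, ∃ g : F[X], g.natDegree ≤ d ∧ ∀ t, f (ln a t * y) = g.eval (psi t)

theorem Lam.const (d : ℕ) (c : F) : Lam d fun _ : Yn n => c := fun _ _ =>
  ⟨Polynomial.C c, by simp, by simp⟩

theorem Lam.add {d : ℕ} {f f' : Yn n → F} (h : Lam d f) (h' : Lam d f') : Lam d (f + f') :=
  fun a y => by
    obtain ⟨g, p, q⟩ := h a y
    obtain ⟨g', p', q'⟩ := h' a y
    exact ⟨g + g', natDegree_add_le_of_degree_le p p', fun t => by simp [q, q']⟩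

theorem Lam.mul {d d' e : ℕ} {f f' : Yn n → F} (h : Lam d f) (h' : Lam d' f') (he : d + d' ≤ e) :
    Lam e (f * f') := fun a y => by
  obtain ⟨g, p, q⟩ := h a y
  obtain ⟨g', p', q'⟩ := h' a y
  exact ⟨g * g', natDegree_mul_le.trans (by omega), fun t => by simp [q, q']⟩

theorem Lam.neg {d : ℕ} {f : Yn n → F} (h : Lam d f) : Lam d (-f) := fun a y => by
  obtain ⟨g, p, q⟩ := h a y
  exact ⟨-g, by simpa using p, fun t => by simp [q]⟩

theorem Lam.cond {f f' : Yn n → F} (h : Lam 2 f) (h' : Lam 2 f') : Lam 4 (cond r (f * f') 0) := by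
  cases r
  · exact Lam.const 4 0
  · exact h.mul h' le_rfl

theorem lam_coord (i : Fin n) : Lam 1 fun y : Yn n => psi (y.toAdd i) := fun a y => by
  by_cases h : i = a
  · refine ⟨Polynomial.C (psi (y.toAdd i)) * X, (natDegree_C_mul_le _ _).trans natDegree_X_le, fun t => ?_⟩
    rw [eval_mul, eval_C, eval_X, mul_comm (psi _), ← AddChar.map_add_eq_mul, h]
    simp only [toAdd_mul, ln, toAdd_ofAdd, Pi.add_apply, Pi.single_eq_same]
  · exact ⟨Polynomial.C (psi (y.toAdd i)), by simp, fun t => by simp [ln, h]⟩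

theorem lam_sep {y y' : Yn n} (h : y ≠ y') : ∃ f, Lam 1 f ∧ f y = 1 ∧ f y' = 0 := by
  obtain ⟨i, hi⟩ := Function.ne_iff.1 (Multiplicative.toAdd.injective.ne h)
  refine ⟨_, (Lam.const 0 (psi (y.toAdd i) - psi (y'.toAdd i))⁻¹).mul
    ((lam_coord i).add (Lam.const 1 (-psi (y'.toAdd i)))) le_rfl, ?_, by simp⟩
  exact inv_mul_cancel₀ (sub_ne_zero.2 (psi_inj.ne hi)) ▸ by simp [sub_eq_add_neg]

/-- the code -/
def Cd (n : ℕ) (r : Bool) : AddSubgroup (Ex r (Yn n → F)) where
  carrier := {c | Lam 2 c.l ∧ Lam 4 c.m}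
  zero_mem' := ⟨Lam.const 2 0, Lam.const 4 0⟩
  add_mem' h h' := ⟨h.1.add h'.1, (h.2.add h'.2).add (h.1.cond h'.1)⟩
  neg_mem' h := ⟨h.1.neg, h.2.neg.add (h.1.cond h.1)⟩

/-- evaluation of a word -/
def ev (y : Yn n) : Cd n r →+ Ex r F := (Ex.map (Pi.evalRingHom _ y)).comp (Cd n r).subtype

/-- translation of a word -/
def sh (y : Yn n) : Cd n r →+ Cd n r where
  toFun c := ⟨⟨fun t => c.1.l (t * y), fun t => c.1.m (t * y)⟩,
    fun a z => by simpa only [mul_assoc] using c.2.1 a (z * y),
    fun a z => by simpa only [mul_assoc] using c.2.2 a (z * y)⟩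
  map_zero' := rfl
  map_add' _ _ := by cases r <;> rfl

theorem sh_one (c : Cd n r) : sh 1 c = c := by
  ext <;> simp [sh]

theorem sh_mul (y z : Yn n) (c : Cd n r) : sh (y * z) c = sh z (sh y c) := by
  ext <;> simp [sh, mul_comm, mul_left_comm]

theorem ev_sh (y z : Yn n) (c : Cd n r) : ev z (sh y c) = ev (z * y) c := rfl

theorem sep {y y' y'' : Yn n} (h : y ≠ y') (h' : y ≠ y'') (s : Ex r F) :
    ∃ c : Cd n r, ev y c = s ∧ ev y' c = 0 ∧ ev y'' c = 0 := by
  obtain ⟨f, p, q, q'⟩ := lam_sep h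
  obtain ⟨g, u, v, v'⟩ := lam_sep h'
  have k := p.mul u le_rfl
  refine ⟨⟨⟨_, _⟩, (Lam.const 0 s.l).mul k le_rfl, (Lam.const 0 s.m).mul k (by norm_num)⟩,
    ?_, ?_, ?_⟩ <;> ext <;> simp [ev, Ex.map, q, q', v, v']

theorem five (a : Fin n) (c : Cd n r) (T : Finset (ZMod 8191)) (hT : 4 < T.card)
    (h : ∀ t ∈ T, ev (ln a t) c = 0) (t : ZMod 8191) : ev (ln a t) c = 0 := by
  classical
  have k : ∀ {d : ℕ} {f : Yn n → F}, Lam d f → d ≤ 4 → (∀ t ∈ T, f (ln a t) = 0) → f (ln a t) = 0 := by
    intro d f hf hd h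
    obtain ⟨g, p, q⟩ := hf a 1
    simp only [mul_one] at q
    rw [q, eq_zero_of_natDegree_lt_card_of_eval_eq_zero' g (T.image psi)
      (by simpa [q] using h) (by rw [Finset.card_image_of_injective _ psi_inj]; omega), eval_zero]
  ext
  · exact k c.2.1 (by norm_num) fun t ht => congrArg Ex.l (h t ht)
  · exact k c.2.2 le_rfl fun t ht => congrArg Ex.m (h t ht)

/-- the action on characters -/
def act (n : ℕ) (r : Bool) : Yn n →* MulAut (AddChar (Cd n r) ℂ) where
  toFun y :=
    { toFun := fun d => d.compAddMonoidHom (sh y)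
      invFun := fun d => d.compAddMonoidHom (sh y⁻¹)
      left_inv := fun d => by ext c; simp [← sh_mul, sh_one]
      right_inv := fun d => by ext c; simp [← sh_mul, sh_one]
      map_mul' := fun _ _ => rfl }
  map_one' := by ext d c; simp [sh_one]
  map_mul' y z := by ext d c; exact congrArg d (sh_mul y z c)

theorem act_apply (y : Yn n) (d : AddChar (Cd n r) ℂ) (c : Cd n r) : act n r y d c = d (sh y c) := rfl

/-- the vertex group -/
abbrev PP (n : ℕ) (r : Bool) : Type := AddChar (Cd n r) ℂ ⋊[act n r] Yn n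

/-- characters that factor through one coordinate -/
def at1 (y : Yn n) : AddChar (Ex r F) ℂ →* AddChar (Cd n r) ℂ where
  toFun χ := χ.compAddMonoidHom (ev y)
  map_one' := rfl
  map_mul' _ _ := rfl

theorem at1_apply (y : Yn n) (χ : AddChar (Ex r F) ℂ) (c : Cd n r) : at1 y χ c = χ (ev y c) := rfl

/-- the first edge group -/
def iX (n : ℕ) (r : Bool) : AddChar (Ex r F) ℂ →* PP n r := SemidirectProduct.inl.comp (at1 1)

open SemidirectProduct

theorem conj_iX (y : Yn n) (χ : AddChar (Ex r F) ℂ) :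
    inr y * iX n r χ * (inr y)⁻¹ = inl (at1 y χ) := by
  rw [iX, MonoidHom.comp_apply, ← map_inv, ← inl_aut]
  congr 1
  ext c
  rw [act_apply, at1_apply, ev_sh, one_mul, at1_apply]

theorem word {y y' : Yn n} (h : y ≠ 1) (h' : y' ≠ 1) {χ χ' χ'' : AddChar (Ex r F) ℂ}
    (e : at1 1 χ * at1 y χ' * at1 y' χ'' = (1 : AddChar (Cd n r) ℂ)) : χ = 1 := by
  ext s
  obtain ⟨c, p, q, q'⟩ := sep h.symm h'.symm s
  simpa [at1_apply, p, q, q'] using DFunLike.congr_fun e c

theorem g6 : Gi6 (iX n r) (inr : Yn n →* PP n r) := by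
  intro x y x' y' x'' y'' h
  by_contra! c
  have e : iX n r x * inr y * iX n r x' * inr y' * iX n r x'' * inr y'' =
      inl (at1 1 x * at1 y x' * at1 (y * y') x'') * inr (y * y' * y'') := by
    simp only [map_mul, ← conj_iX, map_one]
    group
  rw [e] at h
  have h1 : y * y' * y'' = 1 := by simpa using congrArg right h
  refine c.1 (word c.2.1 (fun z => c.2.2.2.2.2 ?_) (by simpa using congrArg left h))
  rwa [z, one_mul] at h1

theorem g4 : Gi4 (iX n r) (inr : Yn n →* PP n r) := by
  intro x y x' y' h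
  by_contra! c
  have e : iX n r x * inr y * iX n r x' * inr y' = inl (at1 1 x * at1 y x') * inr (y * y') := by
    simp only [map_mul, ← conj_iX, map_one]
    group
  rw [e] at h
  exact c.1 (word (χ'' := 1) c.2.1 c.2.1 (by simpa using congrArg left h))

theorem g2 : Gi2 (iX n r) (inr : Yn n →* PP n r) := by
  intro x y h
  refine ⟨?_, by simpa [iX] using (congrArg right h).symm⟩
  have h1 : at1 1 x = (1 : AddChar (Cd n r) ℂ) := by simpa [iX] using congrArg left h
  ext s
  have := DFunLike.congr_fun h1 ⟨⟨fun _ => s.l, fun _ => s.m⟩, Lam.const _ _, Lam.const _ _⟩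
  exact this

theorem gen : (iX n r).range ⊔ (inr : Yn n →* PP n r).range = ⊤ := by
  refine eq_top_iff.2 fun p _ => ?_
  have m : ∀ y : Yn n, (inr y : PP n r) ∈ (iX n r).range ⊔ (inr : Yn n →* PP n r).range := fun y =>
    Subgroup.mem_sup_right ⟨y, rfl⟩
  rw [← inl_left_mul_inr_right p]
  refine mul_mem (Subgroup.mem_comap.1 (dual_mem _ _ fun c h => ?_)) (m _)
  have k : ∀ y, ev y c = 0 := fun y => AddChar.forall_apply_eq_zero.1 fun χ =>
    h (at1 y χ) (by
      rw [Subgroup.mem_comap, ← conj_iX]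
      exact mul_mem (mul_mem (m _) (Subgroup.mem_sup_left ⟨χ, rfl⟩)) (inv_mem (m _)))
  have : c = 0 := by
    ext y
    · exact congrArg Ex.l (k y)
    · exact congrArg Ex.m (k y)
  rw [this, AddChar.map_zero_eq_one]

theorem mem_cyc {a : Fin n} {y : PP n r} (h : y ∈ cyc (inr : Yn n →* PP n r) a) :
    ∃ t, y = inr (ln a t) := by
  obtain ⟨k, rfl⟩ := h
  refine ⟨k, ?_⟩
  simp only [← map_zpow, ey, ln, ← ofAdd_zsmul, ← Pi.single_smul]
  simp

theorem ang (a : Fin n) : AngC (iX n r).range (cyc (inr : Yn n →* PP n r) a) := by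
  classical
  constructor
  · rintro y hy _ ⟨x, rfl⟩ _ ⟨x', rfl⟩
    obtain ⟨t, rfl⟩ := mem_cyc hy
    rw [conj_iX]
    exact (Commute.all _ _).map inl
  · rintro s hs c y hy _ ⟨x, rfl⟩
    obtain ⟨t, rfl⟩ := mem_cyc hy
    rw [conj_iX]
    refine Subgroup.mem_comap.1 (dual_mem _ _ fun w h => ?_)
    rw [at1_apply, five a w (s.image fun y => y.right.toAdd a) ?_ ?_, AddChar.map_zero_eq_one]
    · rwa [Finset.card_image_of_injOn]
      intro y hy y' hy' e
      obtain ⟨t, rfl⟩ := mem_cyc (hs y hy)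
      obtain ⟨t', rfl⟩ := mem_cyc (hs y' hy')
      have : t = t' := by simpa [ln] using e
      rw [this]
    · simp only [Finset.mem_image]
      rintro _ ⟨y, hy, rfl⟩
      obtain ⟨t, rfl⟩ := mem_cyc (hs y hy)
      have : (right (inr (ln a t) : PP n r)).toAdd a = t := by simp [ln]
      rw [this]
      exact AddChar.forall_apply_eq_zero.1 fun χ => h (at1 _ χ)
        (Subgroup.subset_closure ⟨_, hy, _, ⟨χ, rfl⟩, (conj_iX _ _).symm⟩)

/-- the two codes have the same words -/
def sw (n : ℕ) (r : Bool) : Cd n false ≃ Cd n r :=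
  ⟨fun c => ⟨⟨c.1.l, c.1.m⟩, c.2⟩, fun c => ⟨⟨c.1.l, c.1.m⟩, c.2⟩, fun _ => rfl, fun _ => rfl⟩

instance : Fintype (Cd n r) := Fintype.ofFinite _

/-- the crossed product in its regular representation -/
def cp (y : Yn n) : (Cd n false → ℂ) →ₗ[ℂ] Matrix (Yn n) (Yn n) (Cd n false → ℂ) where
  toFun f := Matrix.of fun s t => if s = y * t then f ∘ sh s⁻¹ else 0
  map_add' f g := by
    ext s t c
    by_cases h : s = y * t <;> simp [h]
  map_smul' a f := by
    ext s t c
    by_cases h : s = y * t <;> simp [h]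

/-- the trace of the crossed product -/
def cpSt (n : ℕ) : St (Matrix (Yn n) (Yn n) (Cd n false → ℂ)) where
  τ := (mean _).τ ∘ₗ Matrix.entryLinearMap ℂ _ 1 1
  one := by simpa using (mean _).one
  st a := (mean _).st (a 1 1)

/-- the model of the vertex group -/
def cpMo (n : ℕ) (r : Bool) : Mo (PP n r) (cpSt n) where
  ρ :=
    { toFun := fun p => cp p.right (fn (sw n r) p.left)
      map_one' := by
        ext s t c
        by_cases h : s = t <;> simp [cp, h, Matrix.one_apply]
      map_mul' := fun p q => by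
        ext s t c
        rw [Matrix.mul_apply, Finset.sum_eq_single (q.right * t) (fun u _ h => by simp [cp, h])
          (by simp)]
        by_cases h : s = p.right * (q.right * t)
        · have : sh (r := false) (q.right * t)⁻¹ c = sh p.right (sh s⁻¹ c) := by
            rw [← sh_mul, h]; congr 2; group
          simp only [cp, LinearMap.coe_mk, AddHom.coe_mk, Matrix.of_apply, mul_right, mul_assoc,
            if_pos h, if_true, Pi.mul_apply, Function.comp_apply, this]
          rfl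
        · simp [cp, mul_assoc, h] }
  st p := by
    ext s t c
    by_cases h : t = p.right * s
    · have : sh (r := false) t⁻¹ c = sh p.right⁻¹ (sh s⁻¹ c) := by
        rw [← sh_mul, h, mul_inv_rev]
      have h' : s = p.right⁻¹ * t := by rw [h, inv_mul_cancel_left]
      simp only [cp, MonoidHom.coe_mk, OneHom.coe_mk, LinearMap.coe_mk, AddHom.coe_mk,
        Matrix.of_apply, Matrix.star_apply, inv_right, if_pos h, if_pos h', Pi.star_apply,
        Function.comp_apply, this]
      exact congrFun (fn_inv (sw n r) p.left) (sh p.right⁻¹ (sh s⁻¹ c))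
    · have h' : s ≠ p.right⁻¹ * t := fun e => h (by rw [e, mul_inv_cancel_left])
      simp [cp, h, h', Matrix.star_apply]
  tr p h := by
    by_cases e : p.right = 1
    · have := mean_fn (sw n r) (χ := p.left) fun z => h (SemidirectProduct.ext z e)
      refine Eq.trans (congrArg (mean _).τ (?_ : cp p.right (fn (sw n r) p.left) 1 1 = _)) this
      funext c
      simp [cp, e, sh_one]
    · refine Eq.trans (congrArg (mean _).τ (?_ : cp p.right (fn (sw n r) p.left) 1 1 = 0))
        (map_zero _)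
      simp [cp, Ne.symm e]

theorem cp_span (r r' : Bool) (p : PP n r) :
    (cpMo n r).ρ p ∈ Submodule.span ℂ (Set.range (cpMo n r').ρ) := by
  have := Submodule.mem_map_of_mem (f := cp p.right) (fn_span (sw n r') (fn (sw n r) p.left))
  rw [Submodule.map_span] at this
  refine Submodule.span_mono ?_ this
  rintro _ ⟨_, ⟨d, rfl⟩, rfl⟩
  exact ⟨⟨d, p.right⟩, rfl⟩

/-- twin edge groups -/
def twX : Tw (AddChar (Ex false F) ℂ) (AddChar (Ex true F) ℂ) :=
  (chMo (Ex.eqv false F)).tw (chMo (Ex.eqv true F)) (fun _ => fn_span _ _) fun _ => fn_span _ _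

/-- twin vertex groups -/
def twP (n : ℕ) : Tw (PP n false) (PP n true) :=
  (cpMo n false).tw (cpMo n true) (cp_span _ _) (cp_span _ _)

theorem tw_iX (x : AddChar (Ex false F) ℂ) :
    (twP n).th (iX n false x) = mapDomain (iX n true) (twX.th x) := by
  let j := cp (n := n) 1 ∘ₗ LinearMap.funLeft ℂ ℂ fun c : Cd n false => (c.1.l 1, c.1.m 1)
  have k : ∀ a, lift ℂ _ _ (cpMo n true).ρ (mapDomain (iX n true) a) =
      j (lift ℂ _ _ (chMo (Ex.eqv true F)).ρ a) := fun a => by
    induction a using MonoidAlgebra.induction_linear with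
    | zero => simp
    | add a b h h' => rw [mapDomain_add, map_add, h, h', map_add, map_add]
    | single x c => rw [mapDomain_single, lift_single, lift_single, map_smul]; rfl
  refine (cpMo n true).inj ?_
  rw [k]
  have e1 : lift ℂ _ _ (cpMo n true).ρ ((twP n).th (iX n false x)) =
      j ((chMo (Ex.eqv false F)).ρ x) := Mo.th_spec (cpMo n false) (cpMo n true) (cp_span _ _) _
  have e2 : lift ℂ _ _ (chMo (Ex.eqv true F)).ρ (twX.th x) = (chMo (Ex.eqv false F)).ρ x :=
    Mo.th_spec (chMo (Ex.eqv false F)) (chMo (Ex.eqv true F)) (fun _ => fn_span _ _) x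
  rw [e1, e2]

theorem tw_iY (y : Yn n) : (twP n).th (inr y) = single (inr y) 1 :=
  (cpMo n true).inj ((Mo.th_spec _ _ (cp_span _ _) _).trans (by rw [lift_single, one_smul]; rfl))

theorem sq_false {A : AddSubgroup (Ex false (Yn n → F))} (d : AddChar A ℂ) : d ^ 2 = 1 := by
  ext c
  have : c + c = 0 := Subtype.ext (dbl (funext fun _ => two_F) c.1)
  rw [sq, AddChar.mul_apply, ← AddChar.map_add_eq_mul, this]
  simp

theorem four (d : AddChar (Cd n r) ℂ) : d ^ 4 = 1 := by
  ext c
  have t : (2 : Yn n → F) = 0 := funext fun _ => two_F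
  have : c + c + (c + c) = 0 := Subtype.ext (by
    change c.1 + c.1 + (c.1 + c.1) = 0
    rw [dbl t, dbl t c.1]
    ext <;> cases r <;> simp)
  rw [show 4 = 2 + 2 from rfl, pow_add, sq, AddChar.mul_apply, AddChar.mul_apply,
    ← AddChar.map_add_eq_mul, ← AddChar.map_add_eq_mul, this]
  simp

theorem ex_chi : ∃ χ : AddChar (Ex true F) ℂ, χ ⟨1, 0⟩ ^ 2 = -1 := by
  obtain ⟨χ, h⟩ := (AddChar.exists_apply_ne_zero (a := (⟨0, 1⟩ : Ex true F))).2
    fun e => one_ne_zero (congrArg Ex.m e)
  have e : χ ⟨1, 0⟩ ^ 2 = χ ⟨0, 1⟩ := by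
    rw [sq, ← AddChar.map_add_eq_mul, dbl two_F]; simp
  have e' : χ ⟨0, 1⟩ * χ ⟨0, 1⟩ = 1 := by
    rw [← AddChar.map_add_eq_mul, dbl two_F, ← χ.map_zero_eq_one]; rfl
  exact ⟨χ, e.trans ((mul_self_eq_one_iff.1 e').resolve_left h)⟩

/-- constant words -/
def cst (n : ℕ) (s : Ex r F) : Cd n r := ⟨⟨fun _ => s.l, fun _ => s.m⟩, Lam.const _ _, Lam.const _ _⟩

theorem sh_cst (y : Yn n) (s : Ex r F) : sh y (cst n s) = cst n s := rfl

theorem ev_cst (y : Yn n) (s : Ex r F) : ev y (cst n s) = s := rfl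

/-- evaluation at the constant word -/
def etaP (n : ℕ) : PP n true →* ℂ where
  toFun p := p.left (cst n ⟨1, 0⟩)
  map_one' := by rw [one_left, AddChar.one_apply]
  map_mul' p q := by rw [mul_left, AddChar.mul_apply, act_apply, sh_cst]

theorem etaP_iX (χ : AddChar (Ex true F) ℂ) : etaP n (iX n true χ) = χ ⟨1, 0⟩ :=
  (at1_apply 1 χ (cst n ⟨1, 0⟩)).trans (by rw [ev_cst])

/-- the local data -/
def loc : Loc where
  X r := AddChar (Ex r F) ℂ
  finX _ := inferInstance
  P := PP
  finP _ _ := Finite.of_equiv _ SemidirectProduct.equivProd.symm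
  ιX := iX
  ιY _ _ := inr
  g2 _ _ := g2
  g4 _ _ := g4
  g6 _ _ := g6
  gen _ _ := gen
  big r := by
    have := Fintype.ofFinite (Ex r F)
    rw [Nat.card_eq_fintype_card, AddChar.card_eq, ← Nat.card_eq_fintype_card,
      ← Nat.card_congr (Ex.eqv r F), Nat.card_prod, card_F]
    norm_num
  ang _ _ := ang
  twX := twX
  twP := twP
  tw_ιX _ := tw_iX
  tw_ιY _ := tw_iY
  pr _ _ := rightHom
  pr_ιX _ _ _ := rfl
  pr_ιY _ _ _ := rfl
  sqX x := by
    ext c
    rw [sq, AddChar.mul_apply, ← AddChar.map_add_eq_mul, dbl two_F]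
    exact x.map_zero_eq_one
  no4 n g h := by
    have h1 : g.right = 1 := by
      have := congrArg rightHom h
      rw [map_pow, map_one] at this
      have p : g.right ^ 8191 = 1 := by
        change (8191 : ℕ) • g.right.toAdd = 0
        funext i
        rw [Pi.smul_apply, nsmul_eq_mul, ZMod.natCast_self, zero_mul]
        rfl
      rw [← pow_one g.right, ← show Nat.gcd 4 8191 = 1 by norm_num]
      exact pow_gcd_eq_one.2 ⟨this, p⟩
    rw [← inl_left_mul_inr_right g, h1, map_one, mul_one, ← map_pow, sq_false, map_one]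
  ord4 n y hy := by
    obtain ⟨χ, h⟩ := ex_chi
    refine ⟨χ, ?_⟩
    rw [conj_iX, iX, MonoidHom.comp_apply, ← map_inv, ← map_mul, ← map_pow, ← map_pow, four, map_one]
    refine ⟨rfl, fun e => ?_⟩
    obtain ⟨c, p, q, -⟩ := sep hy hy (⟨1, 0⟩ : Ex true F)
    have := DFunLike.congr_fun (inl_injective (e.trans (map_one _).symm)) c
    rw [AddChar.pow_apply, AddChar.mul_apply, AddChar.inv_apply, at1_apply, at1_apply, map_neg, p, q,
      neg_zero, AddChar.map_zero_eq_one, mul_one, h] at this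
    norm_num at this
  η := ((etaP 0).comp (iX 0 true)).toHomUnits
  ηP n := (etaP n).toHomUnits
  η_ιX _ x := Units.ext ((etaP_iX x).trans (etaP_iX x).symm)
  η_ιY n _ := Units.ext (AddChar.one_apply (cst (r := true) n ⟨1, 0⟩))
  η_ne := by
    obtain ⟨χ, h⟩ := ex_chi
    refine ⟨χ, fun e => ?_⟩
    have : χ ⟨1, 0⟩ ^ (2 * 8191) = 1 := by
      have := congrArg Units.val e
      rwa [Units.val_pow_eq_pow_val, MonoidHom.coe_toHomUnits, MonoidHom.comp_apply, etaP_iX] at this
    rw [pow_mul, h] at this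
    norm_num at this

end

end Code

theorem exists_loc : Nonempty Loc := ⟨Code.loc⟩

end Pool.Agent.MP_434e52_an

end

section

set_option autoImplicit false

namespace Pool.Agent.MP_434e52_an.W32

open Matrix Polynomial

/-- The ring data used for the vertex group of section 7. -/
structure RD (F R : Type) [Field F] [Ring R] [Algebra F R] where
  x : R
  y : R
  j : R
  eps : R →ₐ[F] F
  yx : ∀ n : ℕ, y * (x ^ (n + 1) * j) = x ^ n * j
  yj : y * j = 0
  ind : ∀ a b c d : F, algebraMap F R a + b • x + c • y + d • j = 0 → a = 0 ∧ b = 0 ∧ c = 0 ∧ d = 0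
  idem : ∀ e : Matrix (Fin 4) (Fin 4) R, e.map eps = 0 → e * e = e → e = 0

section ring

variable (F : Type) [Field F]

abbrev En : Type := Module.End F (ℕ → F)

def op (g : ℕ → Option ℕ) : En F where
  toFun v n := (g n).elim 0 v
  map_add' u v := by ext n; cases h : g n <;> simp [h]
  map_smul' c v := by ext n; cases h : g n <;> simp [h]

theorem op_apply (g : ℕ → Option ℕ) (v : ℕ → F) (n : ℕ) : op F g v n = (g n).elim 0 v := rfl

theorem op_mul (g h : ℕ → Option ℕ) : op F g * op F h = op F fun n => (g n).bind h := by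
  refine LinearMap.ext fun v => funext fun n => ?_
  rw [Module.End.mul_apply, op_apply, op_apply]
  cases g n <;> simp [op_apply]

theorem op_none : op F (fun _ => none) = 0 := rfl

def gX : ℕ → Option ℕ
  | 0 => none
  | 1 => none
  | n + 2 => some (n + 1)

def gY : ℕ → Option ℕ
  | 0 => none
  | n + 1 => some (n + 2)

def gJ : ℕ → Option ℕ
  | 0 => none
  | 1 => some 0
  | _ + 2 => none

def gP : ℕ → Option ℕ
  | 0 => none
  | n + 1 => some (n + 1)

theorem PP : op F gP * op F gP = op F gP := by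
  rw [op_mul]; congr 1; funext n; rcases n with _ | n <;> rfl

theorem PX : op F gP * op F gX = op F gX := by
  rw [op_mul]; congr 1; funext n; rcases n with _ | n <;> rfl

theorem XP : op F gX * op F gP = op F gX := by
  rw [op_mul]; congr 1; funext n; rcases n with _ | _ | n <;> rfl

theorem PY : op F gP * op F gY = op F gY := by
  rw [op_mul]; congr 1; funext n; rcases n with _ | n <;> rfl

theorem YX : op F gY * op F gX = op F gP := by
  rw [op_mul]; congr 1; funext n; rcases n with _ | n <;> rfl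

theorem YJ : op F gY * op F gJ = 0 := by
  rw [op_mul, ← op_none]; congr 1; funext n; rcases n with _ | n <;> rfl

theorem PJ : op F gP * op F gJ = op F gJ := by
  rw [op_mul]; congr 1; funext n; rcases n with _ | n <;> rfl

theorem JP : op F gJ * op F gP = 0 := by
  rw [op_mul, ← op_none]; congr 1; funext n; rcases n with _ | _ | n <;> rfl

noncomputable def ev : (En F)[X] →ₐ[F] En F :=
  Polynomial.eval₂AlgHom (AlgHom.id F (En F)) 1 fun _ => Commute.one_right _

theorem ev_mon (a : En F) : ev F (monomial 1 a) = a := by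
  simp [ev]

theorem tt_mul {A : Type} [Ring A] {P a b a' b' : A} (h1 : (1 - P) * b * P = 0) (h2 : (b - a) * P = 0)
    (h3 : (1 - P) * (b - a) = 0) (k1 : (1 - P) * b' * P = 0) (k2 : (b' - a') * P = 0)
    (k3 : (1 - P) * (b' - a') = 0) : (1 - P) * (b * b') * P = 0 ∧ (b * b' - a * a') * P = 0 ∧
      (1 - P) * (b * b' - a * a') = 0 := by
  refine ⟨?_, ?_, ?_⟩
  · have : (1 - P) * (b * b') * P = (1 - P) * b * ((1 - P) * b' * P) + (1 - P) * b * P * (b' * P) := by
      noncomm_ring
    rw [this, k1, h1]; simp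
  · have : (b * b' - a * a') * P =
        (b - a) * ((1 - P) * b' * P) + (b - a) * P * (b' * P) + a * ((b' - a') * P) := by
      noncomm_ring
    rw [this, k1, h2, k2]; simp
  · have : (1 - P) * (b * b' - a * a') = (1 - P) * (b - a) * a' +
        (1 - P) * b * ((1 - P) * (b' - a')) + (1 - P) * b * P * (b' - a') := by
      noncomm_ring
    rw [this, h3, k3, h1]; simp

theorem tt_sq {A : Type} [Ring A] {P b b' : A} (h : b * P = 0) (k : (1 - P) * b' = 0) : b * b' = 0 := by
  have : b * b' = b * P * b' + b * ((1 - P) * b') := by noncomm_ring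
  rw [this, h, k]; simp

noncomputable def TT : Subalgebra F (F × (En F)[X] × En F) where
  carrier := {t | t.2.1.coeff 0 = algebraMap F (En F) t.1 ∧ (1 - op F gP) * t.2.2 * op F gP = 0 ∧
    (t.2.2 - ev F t.2.1) * op F gP = 0 ∧ (1 - op F gP) * (t.2.2 - ev F t.2.1) = 0}
  mul_mem' := by
    rintro ⟨c, a, b⟩ ⟨c', a', b'⟩ ⟨h0, h1, h2, h3⟩ ⟨k0, k1, k2, k3⟩
    simp only [Prod.mk_mul_mk, Set.mem_ofPred_eq, mul_coeff_zero, map_mul] at *
    exact ⟨by rw [h0, k0], tt_mul h1 h2 h3 k1 k2 k3⟩
  add_mem' := by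
    rintro ⟨c, a, b⟩ ⟨c', a', b'⟩ ⟨h0, h1, h2, h3⟩ ⟨k0, k1, k2, k3⟩
    simp only [Prod.mk_add_mk, Set.mem_ofPred_eq, coeff_add, map_add] at *
    refine ⟨by rw [h0, k0], ?_, ?_, ?_⟩
    · rw [mul_add, add_mul, h1, k1, add_zero]
    · rw [add_sub_add_comm, add_mul, h2, k2, add_zero]
    · rw [add_sub_add_comm, mul_add, h3, k3, add_zero]
  algebraMap_mem' c := by
    refine ⟨by simp, ?_, ?_, ?_⟩
    · change (1 - op F gP) * algebraMap F (En F) c * op F gP = 0
      rw [mul_assoc, Algebra.commutes, ← mul_assoc, sub_mul, PP]; simp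
    · change (algebraMap F (En F) c - ev F (algebraMap F _ c)) * op F gP = 0
      rw [AlgHom.commutes]; simp
    · change (1 - op F gP) * (algebraMap F (En F) c - ev F (algebraMap F _ c)) = 0
      rw [AlgHom.commutes]; simp

noncomputable instance ttRing : Ring (TT F) :=
  @Subalgebra.toRing F (F × (En F)[X] × En F) _ (inferInstanceAs (Ring (F × (En F)[X] × En F))) _ (TT F)

noncomputable def tg (a : En F) (h : op F gP * a = a) : TT F :=
  ⟨(0, monomial 1 a, a), by
    refine ⟨by simp, ?_, ?_, ?_⟩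
    · change (1 - op F gP) * a * op F gP = 0
      rw [sub_mul, h]; simp
    · change (a - ev F (monomial 1 a)) * op F gP = 0
      rw [ev_mon]; simp
    · change (1 - op F gP) * (a - ev F (monomial 1 a)) = 0
      rw [ev_mon]; simp⟩

noncomputable def tj : TT F :=
  ⟨(0, 0, op F gJ), by
    refine ⟨by simp, ?_, ?_, ?_⟩
    · change (1 - op F gP) * op F gJ * op F gP = 0
      rw [mul_assoc, JP, mul_zero]
    · change (op F gJ - ev F 0) * op F gP = 0
      rw [map_zero, sub_zero, JP]
    · change (1 - op F gP) * (op F gJ - ev F 0) = 0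
      rw [map_zero, sub_zero, sub_mul, PJ]; simp⟩

theorem idem_poly {A : Type} [Ring A] (e : Matrix (Fin 4) (Fin 4) A[X]) (h0 : ∀ i j, (e i j).coeff 0 = 0)
    (h : e * e = e) : e = 0 := by
  have k : ∀ n, ∀ i j, (e i j).coeff n = 0 := by
    intro n
    induction n using Nat.strong_induction_on with
    | _ n ih =>
      intro i j
      rw [← h, Matrix.mul_apply, finsetSum_coeff]
      refine Finset.sum_eq_zero fun l _ => ?_
      rw [coeff_mul]
      refine Finset.sum_eq_zero fun q hq => ?_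
      have := Finset.HasAntidiagonal.mem_antidiagonal.1 hq
      rcases Nat.eq_zero_or_pos q.2 with h2 | h2
      · rw [h2, h0, mul_zero]
      · rw [ih q.1 (by omega), zero_mul]
  ext i j n
  simp [k]

noncomputable def rd : RD F (TT F) where
  x := tg F (op F gX) (PX F)
  y := tg F (op F gY) (PY F)
  j := tj F
  eps := (AlgHom.fst F F _).comp (TT F).val
  yx n := by
    have k : ∀ n : ℕ, op F gP * (op F gX ^ n * op F gJ) = op F gX ^ n * op F gJ := by
      intro n
      cases n with
      | zero => simp [PJ]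
      | succ n => rw [pow_succ', mul_assoc, ← mul_assoc, PX]
    refine Subtype.ext (Prod.ext ?_ (Prod.ext ?_ ?_))
    · simp [tg, tj]
    · simp [tg, tj]
    · simp only [tg, tj, MulMemClass.coe_mul, SubmonoidClass.coe_pow, Prod.snd_mul, Prod.pow_snd]
      rw [pow_succ', mul_assoc, ← mul_assoc, YX, k]
  yj := by
    refine Subtype.ext (Prod.ext ?_ (Prod.ext ?_ ?_))
    · simp [tg, tj]
    · simp [tg, tj]
    · simp [tg, tj, YJ]
  ind a b c d h := by
    have h1 := congrArg (fun t : TT F => t.1.1) h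
    have h2 := congrArg (fun t : TT F => t.1.2.1.coeff 1) h
    have h3 := congrArg (fun t : TT F => t.1.2.2 (Pi.single 0 1) 1) h
    simp [tg, tj] at h1 h2 h3
    have h4 := congrArg (fun t : En F => t (Pi.single 1 1) 2) h2
    have h5 := congrArg (fun t : En F => t (Pi.single 2 1) 1) h2
    simp [op_apply, gX, gY, gJ] at h3 h4 h5
    exact ⟨h1, h4, h5, h3⟩
  idem e h0 h := by
    have z : ∀ i j, (e i j).1.1 = 0 := fun i j => congrFun (congrFun h0 i) j
    let f : TT F →+* (En F)[X] := (RingHom.fst _ _).comp ((RingHom.snd _ _).comp (TT F).val.toRingHom)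
    have e1 : e.map f = 0 := idem_poly _ (fun i j => by
      have := (e i j).2.1
      rw [z, map_zero] at this
      exact this) (by rw [← Matrix.map_mul, h])
    have z1 : ∀ i j, (e i j).1.2.1 = 0 := fun i j => congrFun (congrFun e1 i) j
    rw [← h]
    refine Matrix.ext fun i j => ?_
    rw [Matrix.mul_apply]
    refine Finset.sum_eq_zero fun l _ => Subtype.ext (Prod.ext ?_ (Prod.ext ?_ ?_))
    · simp [z]
    · simp [z1]
    · have p1 := (e i l).2.2.2.1
      have p2 := (e l j).2.2.2.2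
      rw [z1, map_zero, sub_zero] at p1 p2
      exact tt_sq p1 p2

end ring

section el

variable {R : Type} [Ring R]

abbrev G4 (R : Type) [Ring R] : Type := (Matrix (Fin 4) (Fin 4) R)ˣ

def el (i j : Fin 4) (s : R) : G4 R :=
  if h : i = j then 1 else ⟨1 + single i j s, 1 - single i j s, by
    simp [mul_sub, add_mul, single_mul_single_of_ne _ _ _ _ (Ne.symm h)], by
    simp [mul_add, sub_mul, single_mul_single_of_ne _ _ _ _ (Ne.symm h)]⟩

theorem el_val {i j : Fin 4} (h : i ≠ j) (s : R) : (el i j s).1 = 1 + single i j s := by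
  simp [el, h]

theorem el_add {i j : Fin 4} (h : i ≠ j) (s t : R) : el i j (s + t) = el i j s * el i j t := by
  refine Units.ext ?_
  simp [el_val h, mul_add, add_mul, single_mul_single_of_ne _ _ _ _ (Ne.symm h), single_add]
  abel

theorem el_zero (i j : Fin 4) : el i j (0 : R) = 1 := by
  by_cases h : i = j
  · simp [el, h]
  · exact Units.ext (by simp [el_val h])

theorem el_neg {i j : Fin 4} (h : i ≠ j) (s : R) : el i j (-s) = (el i j s)⁻¹ :=
  eq_inv_of_mul_eq_one_left (by rw [← el_add h, neg_add_cancel, el_zero])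

theorem el_inj {i j : Fin 4} (h : i ≠ j) {s t : R} (e : el i j s = el i j t) : s = t := by
  have := congrArg (fun g : G4 R => g.1 i j) e
  simpa [el_val h] using this

theorem el_comm {i j k l : Fin 4} (h : i ≠ j) (h' : k ≠ l) (a : j ≠ k) (b : l ≠ i) (s t : R) :
    Commute (el i j s) (el k l t) := by
  refine Units.ext ?_
  simp [el_val h, el_val h', mul_add, add_mul, single_mul_single_of_ne _ _ _ _ a,
    single_mul_single_of_ne _ _ _ _ b]
  abel

theorem el_rel {i j k : Fin 4} (h : i ≠ j) (h' : j ≠ k) (a : i ≠ k) (s t : R) :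
    el i j s * el j k t = el j k t * el i j s * el i k (s * t) := by
  refine Units.ext ?_
  simp [el_val h, el_val h', el_val a, mul_add, add_mul, single_mul_single_of_ne _ _ _ _ a.symm,
    single_mul_single_of_ne _ _ _ _ h.symm]
  abel

theorem el_rel' {i j k : Fin 4} (h : i ≠ j) (h' : j ≠ k) (a : i ≠ k) (s t : R) :
    el j k t * el i j s = el i j s * el j k t * el i k (-(s * t)) := by
  rw [el_rel h h' a, el_neg a, mul_inv_cancel_right]

theorem el_eq {i j k : Fin 4} (h : i ≠ j) (h' : j ≠ k) (a : i ≠ k) (s t : R) :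
    el i k (s * t) = (el i j s)⁻¹ * ((el j k t)⁻¹ * (el i j s * el j k t)) := by
  rw [el_rel h h' a]; group

theorem el_mem {H : Subgroup (G4 R)} {i j k : Fin 4} (h : i ≠ j) (h' : j ≠ k) (a : i ≠ k) {s t : R}
    (p : el i j s ∈ H) (q : el j k t ∈ H) : el i k (s * t) ∈ H := by
  rw [el_eq h h' a]
  exact H.mul_mem (H.inv_mem p) (H.mul_mem (H.inv_mem q) (H.mul_mem p q))

theorem el_mem' {H N : Subgroup (G4 R)} (hN : ∀ g ∈ H, ∀ n ∈ N, g⁻¹ * n * g ∈ N) {i j k : Fin 4}
    (h : i ≠ j) (h' : j ≠ k) (a : i ≠ k) {s t : R} (p : el i j s ∈ H) (q : el j k t ∈ N) :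
    el i k (s * t) ∈ N := by
  have := N.mul_mem (hN _ p _ (N.inv_mem q)) q
  rw [el_eq h h' a]
  simpa only [mul_assoc] using this

end el

theorem Heis.sub {G A B : Type} [Group G] [AddCommGroup A] [AddCommGroup B] [Nontrivial B]
    {H : Subgroup G} {x : A → H} {y : B → H} (h : Heis (fun a => (x a : G)) fun b => (y b : G)) :
    Heis x y := by
  obtain ⟨z, m, h1, h2, h3, h4, h5⟩ := h
  have hz : ∀ c, z c ∈ H := fun c => by
    obtain ⟨b, hb⟩ := exists_ne (0 : B)
    obtain ⟨a, rfl⟩ := (h5 b hb).2 c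
    have : z (m a b) = (y b * x a : G)⁻¹ * (x a * y b) := by rw [h4]; group
    change z (m a b) ∈ H
    rw [this]
    exact H.mul_mem (H.inv_mem (H.mul_mem (y b).2 (x a).2)) (H.mul_mem (x a).2 (y b).2)
  exact ⟨fun c => ⟨z c, hz c⟩, m, fun a b => Subtype.ext (h1 a b), fun a c => Subtype.ext (h2 a c),
    fun b c => Subtype.ext (h3 b c), fun a b => Subtype.ext (h4 a b), h5⟩

namespace RD

variable {F R : Type} [Field F] [Ring R] [Algebra F R] (D : RD F R)

def dl (v : Fin 5 → F) : R := algebraMap F R (v 1) + v 2 • D.x + v 3 • D.y + v 4 • D.j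

theorem dl_add (v w : Fin 5 → F) : D.dl (v + w) = D.dl v + D.dl w := by
  simp only [dl, Pi.add_apply, map_add, add_smul]; abel

theorem dl_smul (c : F) (v : Fin 5 → F) : D.dl (c • v) = c • D.dl v := by
  simp only [dl, Pi.smul_apply, smul_eq_mul, map_mul, Algebra.smul_def]
  simp only [mul_add, mul_assoc]

variable (R) in
def aa (u : Fin 2 → F) : G4 R := el 0 1 (algebraMap F R (u 0)) * el 2 3 (algebraMap F R (u 1))

def bb (v : Fin 5 → F) : G4 R := el 1 2 (algebraMap F R (v 0)) * el 3 0 (D.dl v)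

theorem aa_add (u w : Fin 2 → F) : aa R (u + w) = aa R u * aa R w := by
  simp only [aa, Pi.add_apply, map_add]
  rw [el_add (by decide), el_add (by decide),
    (el_comm (by decide) (by decide) (by decide) (by decide) _ _).mul_mul_mul_comm]

theorem bb_add (u w : Fin 5 → F) : D.bb (u + w) = D.bb u * D.bb w := by
  simp only [bb, Pi.add_apply, map_add, dl_add]
  rw [el_add (by decide), el_add (by decide),
    (el_comm (by decide) (by decide) (by decide) (by decide) _ _).mul_mul_mul_comm]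

theorem aa_val (u : Fin 2 → F) :
    (aa R u).1 = 1 + single 0 1 (algebraMap F R (u 0)) + single 2 3 (algebraMap F R (u 1)) := by
  simp [aa, el_val, mul_add, add_mul, single_mul_single_of_ne]

theorem bb_val (v : Fin 5 → F) :
    (D.bb v).1 = 1 + single 1 2 (algebraMap F R (v 0)) + single 3 0 (D.dl v) := by
  simp [bb, el_val, mul_add, add_mul, single_mul_single_of_ne]

include D in
theorem am_zero {c : F} (h : algebraMap F R c = 0) : c = 0 := (D.ind c 0 0 0 (by simpa using h)).1

theorem v_zero {v : Fin 5 → F} (h : algebraMap F R (v 0) = 0) (k : D.dl v = 0) : v = 0 := by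
  obtain ⟨h1, h2, h3, h4⟩ := D.ind _ _ _ _ k
  funext i
  fin_cases i
  exacts [D.am_zero h, h1, h2, h3, h4]

include D in
theorem u_zero {u : Fin 2 → F} (h : algebraMap F R (u 0) = 0) (k : algebraMap F R (u 1) = 0) :
    u = 0 := by
  funext i
  fin_cases i
  exacts [D.am_zero h, D.am_zero k]

theorem g2 {u : Fin 2 → F} {v : Fin 5 → F} (h : aa R u = D.bb v) : u = 0 ∧ v = 0 := by
  have e : ∀ i j, (aa R u).1 i j = (D.bb v).1 i j := fun i j => by rw [h]
  have e1 := e 0 1
  have e2 := e 2 3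
  have e3 := e 1 2
  have e4 := e 3 0
  simp [aa_val, bb_val] at e1 e2 e3 e4
  exact ⟨D.u_zero e1 e2, D.v_zero e3.symm e4.symm⟩

theorem g4 {u u' : Fin 2 → F} {v v' : Fin 5 → F} (h : aa R u * D.bb v = D.bb v' * aa R u') :
    u = 0 ∨ v = 0 := by
  have e : ∀ i j, ((aa R u).1 * (D.bb v).1) i j = ((D.bb v').1 * (aa R u').1) i j := fun i j => by
    rw [← Units.val_mul, h, Units.val_mul]
  have e1 := e 0 1
  have e2 := e 2 3
  have e3 := e 1 2
  have e4 := e 3 0
  have f1 := e 0 2
  have f2 := e 2 0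
  have f3 := e 1 3
  have f4 := e 3 1
  simp [aa_val, bb_val, mul_add, add_mul, single_mul_single_of_ne] at e1 e2 e3 e4 f1 f2 f3 f4
  rw [← e2, ← e3] at f3
  rw [← e1, ← e4] at f4
  have k : ∀ c : F, c ≠ 0 → ∀ r : R, algebraMap F R c * r = 0 → r = 0 := fun c hc r hr => by
    rw [← Algebra.smul_def] at hr
    simpa [smul_smul, hc] using congrArg (fun t => c⁻¹ • t) hr
  by_cases h0 : u 0 = 0
  · by_cases h1 : u 1 = 0
    · left; funext i; fin_cases i; exacts [h0, h1]
    · exact Or.inr (D.v_zero (k _ h1 _ (by rw [Algebra.commutes]; exact f3.symm)) (k _ h1 _ f2))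
  · exact Or.inr (D.v_zero (k _ h0 _ f1) (k _ h0 _ (by rw [Algebra.commutes]; exact f4.symm)))

def HH : Subgroup (G4 R) := Subgroup.closure (Set.range (aa (F := F) R) ∪ Set.range D.bb)

theorem aa_mem (u : Fin 2 → F) : aa R u ∈ D.HH := Subgroup.subset_closure (Or.inl ⟨u, rfl⟩)

theorem bb_mem (v : Fin 5 → F) : D.bb v ∈ D.HH := Subgroup.subset_closure (Or.inr ⟨v, rfl⟩)

theorem aa0 (c : F) : aa R (Pi.single 0 c) = el 0 1 (algebraMap F R c) := by simp [aa, el_zero]

theorem aa1 (c : F) : aa R (Pi.single 1 c) = el 2 3 (algebraMap F R c) := by simp [aa, el_zero]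

theorem bb0 (c : F) : D.bb (Pi.single 0 c) = el 1 2 (algebraMap F R c) := by simp [bb, dl, el_zero]

theorem bbs {k : Fin 5} (hk : k ≠ 0) (c : F) :
    D.bb (Pi.single k c) = el 3 0 (c • D.dl (Pi.single k 1)) := by
  rw [← dl_smul, ← Pi.single_smul, smul_eq_mul, mul_one, bb, Pi.single_eq_of_ne hk.symm, map_zero,
    el_zero, one_mul]

theorem m30 {k : Fin 5} (hk : k ≠ 0) : el 3 0 (D.dl (Pi.single k 1)) ∈ D.HH := by
  simpa [D.bbs hk] using D.bb_mem (Pi.single k 1)

theorem step {N : Subgroup (G4 R)} (hN : ∀ g ∈ D.HH, ∀ n ∈ N, g⁻¹ * n * g ∈ N) {t s : R}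
    (ht : el 3 0 t ∈ D.HH) (hs : el 3 0 s ∈ N) : el 3 0 (t * s) ∈ N := by
  have a01 : el 0 1 (1 : R) ∈ D.HH := by simpa [aa0] using D.aa_mem (Pi.single 0 1)
  have a23 : el 2 3 (1 : R) ∈ D.HH := by simpa [aa1] using D.aa_mem (Pi.single 1 1)
  have a12 : el 1 2 (1 : R) ∈ D.HH := by simpa [bb0] using D.bb_mem (Pi.single 0 1)
  have a30 : el 3 0 (1 : R) ∈ D.HH := by simpa [dl] using D.m30 (k := 1) (by decide)
  have a31 := el_mem (by decide) (by decide) (by decide) a30 a01
  have a03 := el_mem (by decide) (by decide) (by decide)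
    (el_mem (by decide) (by decide) (by decide) a01 a12) a23
  have a10 := el_mem (by decide) (by decide) (by decide) a12
    (el_mem (by decide) (by decide) (by decide) a23 ht)
  have a13 := el_mem (by decide) (by decide) (by decide) a10 a03
  simpa using el_mem' hN (by decide) (by decide) (by decide) a31
    (el_mem' hN (by decide) (by decide) (by decide) a13 hs)

theorem mx : el 3 0 D.x ∈ D.HH := by simpa [dl] using D.m30 (k := 2) (by decide)

theorem my : el 3 0 D.y ∈ D.HH := by simpa [dl] using D.m30 (k := 3) (by decide)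

theorem mxj (n : ℕ) : el 3 0 (D.x ^ n * D.j) ∈ D.HH := by
  induction n with
  | zero => simpa [dl] using D.m30 (k := 4) (by decide)
  | succ n ih =>
    rw [pow_succ', mul_assoc]
    exact D.step (fun g hg n hn => mul_mem (mul_mem (inv_mem hg) hn) hg) D.mx ih

theorem ypow (k n : ℕ) : D.y ^ k * (D.x ^ (n + k) * D.j) = D.x ^ n * D.j := by
  induction k with
  | zero => simp
  | succ k ih => rw [pow_succ, mul_assoc, ← add_assoc, D.yx, ih]

theorem ydiff {n m : ℕ} (h : n < m) : D.y ^ m * (D.x ^ m * D.j - D.x ^ n * D.j) = D.j := by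
  obtain ⟨k, rfl⟩ := Nat.exists_eq_add_of_lt h
  have e1 := D.ypow (n + k + 1) 0
  have e2 := D.ypow n 0
  simp only [zero_add, pow_zero, one_mul] at e1 e2
  rw [mul_sub, e1, show n + k + 1 = k + 1 + n by omega, pow_add, mul_assoc, e2, pow_succ, mul_assoc,
    D.yj, mul_zero, sub_zero]

theorem j_ne : D.j ≠ 0 := fun h => one_ne_zero (D.ind 0 0 0 1 (by simp [h])).2.2.2

theorem infinite : Infinite D.HH := by
  refine Infinite.of_injective (fun n : ℕ => (⟨_, D.mxj n⟩ : D.HH)) fun n m e => ?_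
  have e' := el_inj (i := 3) (j := 0) (by decide) (congrArg Subtype.val e)
  by_contra hne
  rcases lt_or_gt_of_ne hne with h | h
  · exact D.j_ne (by rw [← D.ydiff h, e', sub_self, mul_zero])
  · exact D.j_ne (by rw [← D.ydiff h, e', sub_self, mul_zero])

theorem y0_mem (N : Subgroup D.HH) [hN : N.Normal] [N.FiniteIndex] (c : F) :
    (⟨_, D.bb_mem (Pi.single 4 c)⟩ : D.HH) ∈ N := by
  have hc : ∀ g ∈ D.HH, ∀ n ∈ N.map D.HH.subtype, g⁻¹ * n * g ∈ N.map D.HH.subtype := by
    rintro g hg _ ⟨n, hn, rfl⟩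
    exact ⟨_, hN.conj_mem' n hn ⟨g, hg⟩, rfl⟩
  have k : ∀ n m : ℕ, n < m → (((⟨_, D.mxj n⟩ : D.HH) : D.HH ⧸ N) = (⟨_, D.mxj m⟩ : D.HH)) →
      el 3 0 D.j ∈ N.map D.HH.subtype := by
    intro n m h e
    have e1 : el 3 0 (D.x ^ m * D.j - D.x ^ n * D.j) ∈ N.map D.HH.subtype :=
      ⟨_, QuotientGroup.eq.1 e, by
        rw [sub_eq_neg_add, el_add (by decide), el_neg (by decide)]; rfl⟩
    have e2 : ∀ l : ℕ, el 3 0 (D.y ^ l * (D.x ^ m * D.j - D.x ^ n * D.j)) ∈ N.map D.HH.subtype := by
      intro l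
      induction l with
      | zero => simpa only [pow_zero, one_mul] using e1
      | succ l ih => rw [pow_succ', mul_assoc]; exact D.step hc D.my ih
    simpa only [D.ydiff h] using e2 m
  have k' : el 3 0 D.j ∈ N.map D.HH.subtype := by
    obtain ⟨n, m, hne, e⟩ :=
      Finite.exists_ne_map_eq_of_infinite fun n : ℕ => ((⟨_, D.mxj n⟩ : D.HH) : D.HH ⧸ N)
    rcases lt_or_gt_of_ne hne with h | h
    exacts [k n m h e, k m n h e.symm]
  have hc1 : el 3 0 (algebraMap F R c) ∈ D.HH := by
    simpa [D.bbs (k := 1) (by decide), dl, Algebra.smul_def] using D.bb_mem (Pi.single 1 c)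
  obtain ⟨n, hn, e⟩ := D.step hc hc1 k'
  have : (⟨_, D.bb_mem (Pi.single 4 c)⟩ : D.HH) = n := Subtype.ext (by
    simp only [D.bbs (k := 4) (by decide)]
    rw [show (n : G4 R) = _ from e]
    simp [dl, Algebra.smul_def])
  rwa [this]

def red : D.HH →* G4 F :=
  (Units.map (D.eps.toRingHom.mapMatrix (m := Fin 4)).toMonoidHom).comp D.HH.subtype

theorem red_inv (h2 : (2 : F) ≠ 0) {h : D.HH} (hk : D.red h = 1) (hh : h * h = 1) : h = 1 := by
  have e1 : (h : G4 R).1 * (h : G4 R).1 = 1 := congrArg (fun g : D.HH => (g : G4 R).1) hh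
  have e2 : (h : G4 R).1.map D.eps = 1 := congrArg Units.val hk
  generalize hM : (h : G4 R).1 = M at e1 e2
  have := D.idem ((2 : F)⁻¹ • (1 - M)) (by
    refine Matrix.ext fun i j => ?_
    have := congrFun (congrFun e2 i) j
    simp only [map_apply] at this
    simp [this, one_apply, apply_ite D.eps]) (by
    have : (1 - M) * (1 - M) = (2 : F) • (1 - M) := by
      rw [two_smul, sub_mul, mul_sub, mul_sub, e1]; simp only [mul_one, one_mul]; abel
    rw [smul_mul_smul_comm, this, smul_smul, mul_assoc, inv_mul_cancel₀ h2, mul_one])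
  have e3 : 1 - M = 0 := by simpa [smul_smul, h2] using congrArg (fun t => (2 : F) • t) this
  exact Subtype.ext (Units.ext (by rw [hM, ← sub_eq_zero.1 e3]; rfl))

theorem heis (i : Fin 2) (k : Fin 5) :
    Heis (fun c : F => aa R (Pi.single i c)) fun c : F => D.bb (Pi.single k c) := by
  have b1 : ∀ b : F, b ≠ 0 → Function.Bijective fun a : F => a * b := fun b hb =>
    (Equiv.mulRight₀ b hb).bijective
  have b2 : ∀ b : F, b ≠ 0 → Function.Bijective fun a : F => -(a * b) := fun b hb =>
    (Equiv.neg F).bijective.comp (b1 b hb)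
  by_cases hk : k = 0
  · subst hk
    fin_cases i
    · simp only [Fin.zero_eta, aa0, bb0]
      exact ⟨fun c => el 0 2 (algebraMap F R c), fun a b => a * b,
        fun a b => by beta_reduce; rw [map_add, el_add (by decide)],
        fun a c => el_comm (by decide) (by decide) (by decide) (by decide) _ _,
        fun a c => el_comm (by decide) (by decide) (by decide) (by decide) _ _,
        fun a b => by
          beta_reduce; rw [map_mul]; exact el_rel (by decide) (by decide) (by decide) _ _, b1⟩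
    · simp only [Fin.mk_one, aa1, bb0]
      exact ⟨fun c => el 1 3 (algebraMap F R c), fun a b => -(a * b),
        fun a b => by beta_reduce; rw [map_add, el_add (by decide)],
        fun a c => el_comm (by decide) (by decide) (by decide) (by decide) _ _,
        fun a c => el_comm (by decide) (by decide) (by decide) (by decide) _ _,
        fun a b => by
          beta_reduce
          rw [map_neg, mul_comm a, map_mul]; exact el_rel' (by decide) (by decide) (by decide) _ _, b2⟩
  · simp only [D.bbs hk]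
    generalize D.dl (Pi.single k 1) = d
    fin_cases i
    · simp only [Fin.zero_eta, aa0]
      exact ⟨fun c => el 3 1 (c • d), fun a b => -(a * b),
        fun a b => by beta_reduce; rw [add_smul, el_add (by decide)],
        fun a c => el_comm (by decide) (by decide) (by decide) (by decide) _ _,
        fun a c => el_comm (by decide) (by decide) (by decide) (by decide) _ _,
        fun a b => by
          beta_reduce
          rw [neg_smul, mul_smul, Algebra.smul_def a, Algebra.commutes]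
          exact el_rel' (by decide) (by decide) (by decide) _ _, b2⟩
    · simp only [Fin.mk_one, aa1]
      exact ⟨fun c => el 2 0 (c • d), fun a b => a * b,
        fun a b => by beta_reduce; rw [add_smul, el_add (by decide)],
        fun a c => el_comm (by decide) (by decide) (by decide) (by decide) _ _,
        fun a c => el_comm (by decide) (by decide) (by decide) (by decide) _ _,
        fun a b => by
          beta_reduce
          rw [mul_smul, Algebra.smul_def a]; exact el_rel (by decide) (by decide) (by decide) _ _, b1⟩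

end RD

/-- The vertex group of section 7. -/
theorem exists_H (F : Type) [Field F] [Finite F] (h2 : (2 : F) ≠ 0) :
    ∃ (H : Type) (_ : Group H) (a : Multiplicative (Fin 2 → F) →* H)
      (b : Multiplicative (Fin 5 → F) →* H) (K : Subgroup H),
      Subgroup.closure (Set.range a ∪ Set.range b) = ⊤ ∧ Countable H ∧ Infinite H ∧
      (∀ x y, a x = b y → x = 1 ∧ y = 1) ∧
      (∀ x y x' y', x ≠ 1 → y ≠ 1 → a x * b y * a x' * b y' ≠ 1) ∧
      (∀ i k, Heis (fun c : F => a (Multiplicative.ofAdd (Pi.single i c)))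
        fun c : F => b (Multiplicative.ofAdd (Pi.single k c))) ∧
      (∀ N : Subgroup H, N.Normal → N.FiniteIndex →
        ∀ c : F, b (Multiplicative.ofAdd (Pi.single 4 c)) ∈ N) ∧
      K.Normal ∧ K.FiniteIndex ∧ ∀ h ∈ K, h * h = 1 → h = 1 := by
  let D := rd F
  let a : Multiplicative (Fin 2 → F) →* D.HH :=
    MonoidHom.mk' (fun u => ⟨_, D.aa_mem u.toAdd⟩) fun u w => Subtype.ext (RD.aa_add _ _)
  let b : Multiplicative (Fin 5 → F) →* D.HH :=
    MonoidHom.mk' (fun u => ⟨_, D.bb_mem u.toAdd⟩) fun u w => Subtype.ext (D.bb_add _ _)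
  have top : Subgroup.closure (Set.range a ∪ Set.range b) = ⊤ := by
    refine top_le_iff.1 ((Subgroup.closure_closure_coe_preimage
      (k := Set.range (RD.aa (TT F)) ∪ Set.range D.bb)).ge.trans (Subgroup.closure_mono ?_))
    rintro g (⟨u, e⟩ | ⟨u, e⟩)
    exacts [Or.inl ⟨.ofAdd u, Subtype.ext e⟩, Or.inr ⟨.ofAdd u, Subtype.ext e⟩]
  refine ⟨D.HH, inferInstance, a, b, D.red.ker, top, ?_, D.infinite, fun x y h => ?_,
    fun x y x' y' hx hy h => ?_, fun i k => Heis.sub (D.heis i k), fun N _ _ c => D.y0_mem N c,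
    inferInstance, Subgroup.finiteIndex_ker _, fun h hk hh => D.red_inv h2 hk hh⟩
  · have : Group.FG D.HH := Group.fg_iff.2 ⟨_, top, (Set.finite_range a).union (Set.finite_range b)⟩
    obtain ⟨S, hS, f, hf⟩ := Group.fg_iff_exists_freeGroup_hom_surjective.1 this
    have := hS.to_subtype
    exact hf.countable
  · exact D.g2 (congrArg Subtype.val h)
  · have : a x * b y = b y'⁻¹ * a x'⁻¹ := by
      rw [map_inv, map_inv, ← _root_.mul_inv_rev, eq_inv_iff_mul_eq_one, ← h]; group
    exact (D.g4 (congrArg Subtype.val this)).elim hx hy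

end Pool.Agent.MP_434e52_an.W32

namespace Pool.Agent.MP_434e52_an

theorem Heis.angC {G A F : Type} [Group G] [AddCommGroup A] [AddCommGroup F] {x : A → G} {y : F → G}
    (h : Heis x y) (hx : ∀ a b, x (a + b) = x a * x b) (hy : ∀ a b, y (a + b) = y a * y b)
    {X Y : Subgroup G} (hX : ∀ g, g ∈ X ↔ ∃ a, x a = g) (hY : ∀ g ∈ Y, ∃ b, y b = g) :
    AngC X Y := by
  obtain ⟨z, m, -, zx, zy, hm, hb⟩ := h
  have cj : ∀ a b, y b * x a * (y b)⁻¹ = x a * (z (m a b))⁻¹ := fun a b => by
    rw [mul_inv_eq_iff_eq_mul, mul_assoc, (zy b _).inv_left.eq, ← mul_assoc, hm, mul_inv_cancel_right]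
  refine ⟨fun g hg u hu u' hu' => ?_, fun s hs hc g hg u hu => ?_⟩
  · obtain ⟨b, rfl⟩ := hY g hg
    obtain ⟨a, rfl⟩ := (hX u).1 hu
    obtain ⟨a', rfl⟩ := (hX u').1 hu'
    rw [cj]
    refine Commute.mul_left ?_ (zx _ _).inv_left
    rw [Commute, SemiconjBy, ← hx, ← hx, add_comm]
  · obtain ⟨b, rfl⟩ := hY g hg
    obtain ⟨a, rfl⟩ := (hX u).1 hu
    obtain ⟨g1, h1, g2, h2, hne⟩ := Finset.one_lt_card.1 (show 1 < s.card by omega)
    obtain ⟨b1, rfl⟩ := hY g1 (hs _ h1)
    obtain ⟨b2, rfl⟩ := hY g2 (hs _ h2)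
    generalize hC : Subgroup.closure {g | ∃ y' ∈ s, ∃ x' ∈ X, g = y' * x' * y'⁻¹} = C
    have m1 : ∀ c, y c ∈ s → ∀ a, y c * x a * (y c)⁻¹ ∈ C := fun c hc a =>
      hC ▸ Subgroup.subset_closure ⟨_, hc, _, (hX _).2 ⟨a, rfl⟩, rfl⟩
    have mz : ∀ c, (z c)⁻¹ ∈ C := fun c => by
      obtain ⟨a, rfl⟩ := (hb (b1 - b2) fun e => hne (by rw [sub_eq_zero.1 e])).2 c
      have e : y b1 = y b2 * y (b1 - b2) := by rw [← hy, add_sub_cancel]
      have e' : y b1 * x a * (y b1)⁻¹ = y b2 * x a * (y b2)⁻¹ * (z (m a (b1 - b2)))⁻¹ := by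
        rw [mul_assoc (y b2 * x a), ← (zy b2 _).inv_inv.eq, ← mul_assoc, mul_assoc (y b2), ← cj, e]
        group
      have := mul_mem (inv_mem (m1 b2 h2 a)) (m1 b1 h1 a)
      rwa [e', inv_mul_cancel_left] at this
    have mx : x a ∈ C := by
      have := mul_mem (m1 b1 h1 a) (inv_mem (mz (m a b1)))
      rwa [cj, mul_inv_cancel_right] at this
    rw [cj]
    exact mul_mem mx (mz _)

theorem mem_cyc {n : ℕ} {P : Type} [Group P] (f : Yn n →* P) (a : Fin n) (g : P) :
    g ∈ cyc f a ↔ ∃ c : ZMod 8191, f (Multiplicative.ofAdd (Pi.single a c)) = g := by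
  have e : ∀ k : ℤ, f (ey a) ^ k = f (Multiplicative.ofAdd (Pi.single a (k : ZMod 8191))) := by
    intro k
    rw [← map_zpow, ey, ← ofAdd_zsmul, ← Pi.single_smul, zsmul_one]
  constructor
  · rintro ⟨k, rfl⟩
    exact ⟨k, (e k).symm⟩
  · rintro ⟨c, rfl⟩
    obtain ⟨k, rfl⟩ := ZMod.intCast_surjective c
    exact ⟨k, e k⟩

theorem exists_baseB : ∃ B : Base, Countable B.H ∧
    (∃ y : Yn B.n1, y ≠ 1 ∧ ∀ N : Subgroup B.H, N.Normal → N.FiniteIndex → B.ι1 y ∈ N) ∧
    ∃ K : Subgroup B.H, K.Normal ∧ K.FiniteIndex ∧ ∀ h ∈ K, h ^ 4 = 1 → h ^ 2 = 1 := by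
  have : Fact (Nat.Prime 8191) := ⟨by norm_num⟩
  obtain ⟨H, _, a, b, K, gen, hc, hi, g2, g4, hh, hy, k1, k2, k3⟩ :=
    W32.exists_H (ZMod 8191) fun e =>
      absurd ((ZMod.natCast_eq_zero_iff 2 8191).1 (by exact_mod_cast e)) (by norm_num)
  have add : ∀ {n : ℕ} (f : Yn n →* H) (i : Fin n) (c d : ZMod 8191),
      f (Multiplicative.ofAdd (Pi.single i (c + d))) =
        f (Multiplicative.ofAdd (Pi.single i c)) * f (Multiplicative.ofAdd (Pi.single i d)) := by
    intro n f i c d
    rw [Pi.single_add, ofAdd_add, map_mul]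
  refine ⟨⟨H, 5, 2, le_rfl, b, a, fun x y h => (g2 y x h.symm).symm, fun x y x' y' h => ?_, ?_,
    fun k i => Or.inr ((hh i k).angC (add a i) (add b k) (mem_cyc a i) fun g => (mem_cyc b k g).1),
    ?_⟩, hc, ⟨Multiplicative.ofAdd (Pi.single 4 1), ?_, fun N h1 h2 => hy N h1 h2 1⟩, K, k1, k2,
    fun h hk h4 => ?_⟩
  · by_contra hn
    simp only [not_or] at hn
    refine g4 y x' y' x hn.2.1 hn.2.2.1 ?_
    rw [← mul_left_cancel_iff (a := b x), ← mul_assoc, ← mul_assoc, ← mul_assoc, h, one_mul, mul_one]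
  · rw [← top_le_iff, ← gen, Subgroup.closure_le]
    rintro g (h | h)
    exacts [Subgroup.mem_sup_right h, Subgroup.mem_sup_left h]
  · generalize 24 * _ = n
    obtain ⟨W, hW⟩ := Infinite.exists_subset_card_eq H (n + 1)
    exact ⟨W, by omega⟩
  · intro e
    have := congrFun (congrArg Multiplicative.toAdd e) 4
    simp at this
  · exact k3 _ (pow_mem hk 2) (by rw [← pow_add]; exact h4)

end Pool.Agent.MP_434e52_an

end

section

/-!
Assembly: the twin triangles over a base group, Theorems A and B.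
-/

set_option autoImplicit false

namespace Pool.Agent.MP_434e52_an

open Dev

/-- Finite normal subgroups of ICC groups are trivial. -/
theorem emb_of_virt {G H : Type} [Group G] [Group H] (hG : ICC G) (hH : ICC H)
    (h : VirtIso G H) : ∃ (Γ : Type) (_ : Group Γ) (ι₁ : Γ →* G) (ι₂ : Γ →* H),
      Function.Injective ι₁ ∧ Function.Injective ι₂ ∧ ι₁.range.FiniteIndex ∧
        ι₂.range.FiniteIndex := by
  have key : ∀ {G : Type} [Group G], ICC G → ∀ (F : Subgroup G) [F.Normal], Finite F →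
      ∃ e : G ⧸ F →* G, Function.Bijective e := by
    intro G _ hG F hn hF
    have : F = ⊥ := by
      rw [eq_bot_iff]
      intro g hg
      by_contra h1
      refine hG g h1 ((Set.toFinite (F : Set G)).subset ?_)
      intro x hx
      obtain ⟨c, rfl⟩ := isConj_iff.1 hx
      exact hn.conj_mem g hg c
    subst this
    exact ⟨QuotientGroup.quotientBot.toMonoidHom, QuotientGroup.quotientBot.bijective⟩
  obtain ⟨F, K, nF, nK, hF, hK, G₀, H₀, i1, i2, ⟨e⟩⟩ := h
  obtain ⟨e1, b1⟩ := key hG F hF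
  obtain ⟨e2, b2⟩ := key hH K hK
  refine ⟨G₀, inferInstance, e1.comp G₀.subtype, e2.comp (H₀.subtype.comp e.toMonoidHom),
    b1.1.comp Subtype.val_injective, b2.1.comp (Subtype.val_injective.comp e.injective),
    ⟨?_⟩, ⟨?_⟩⟩
  · rw [MonoidHom.range_comp, Subgroup.range_subtype, Subgroup.index_map_of_bijective b1]
    exact i1
  · rw [MonoidHom.range_comp, MonoidHom.range_comp, MonoidHom.range_eq_top.2 e.surjective,
      ← MonoidHom.range_eq_map, Subgroup.range_subtype, Subgroup.index_map_of_bijective b2]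
    exact i2

/-- the identity twin -/
noncomputable def Tw.refl (P : Type) [Group P] : Tw P P where
  th := MonoidAlgebra.of ℂ P
  adj p q := by
    classical
    simp only [MonoidAlgebra.of_apply, MonoidAlgebra.coeff_single, Finsupp.single_apply,
      inv_eq_iff_eq_inv]
    split_ifs <;> simp
  tr p hp := by simp [hp]
  onto q := Submodule.subset_span ⟨q, rfl⟩

variable (L : Loc) (B : Base) (r : Bool)

/-- vertex groups -/
def tP : I → Type
  | .i0 => B.H
  | .i1 => L.P B.n2 r
  | .i2 => L.P B.n1 r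

/-- edge groups -/
def tX : I → Type
  | .i0 => L.X r
  | .i1 => Yn B.n1
  | .i2 => Yn B.n2

instance : ∀ k, Group (tP L B r k)
  | .i0 => B.gH
  | .i1 => L.gP _ _
  | .i2 => L.gP _ _

instance : ∀ k, Group (tX L B r k)
  | .i0 => L.gX _
  | .i1 => inferInstanceAs (Group (Yn B.n1))
  | .i2 => inferInstanceAs (Group (Yn B.n2))

/-- edge maps -/
def tι : ∀ i k, tX L B r i →* tP L B r k
  | .i0, .i0 => 1
  | .i0, .i1 => L.ιX _ _
  | .i0, .i2 => L.ιX _ _
  | .i1, .i0 => B.ι1
  | .i1, .i1 => 1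
  | .i1, .i2 => L.ιY _ _
  | .i2, .i0 => B.ι2
  | .i2, .i1 => L.ιY _ _
  | .i2, .i2 => 1

theorem dis_ind {Q : I → I → I → Prop} (h1 : Q .i1 .i2 .i0) (h2 : Q .i2 .i1 .i0)
    (h3 : Q .i0 .i2 .i1) (h4 : Q .i2 .i0 .i1) (h5 : Q .i0 .i1 .i2) (h6 : Q .i1 .i0 .i2)
    {i j k : I} (d : Dis i j k) : Q i j k := by
  cases i <;> cases j <;> cases k <;> first | assumption | exact absurd d (by decide)

/-- the triangle -/
def tri : Tri where
  P := tP L B r
  X := tX L B r
  ι := tι L B r
  g2 d := dis_ind (Q := fun i j k => Gi2 (tι L B r i k) (tι L B r j k)) B.g2 B.g2.symm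
    (L.g2 _ _) (L.g2 _ _).symm (L.g2 _ _) (L.g2 _ _).symm d
  g4 d := dis_ind (Q := fun i j k => Gi4 (tι L B r i k) (tι L B r j k)) B.g4 B.g4.symm
    (L.g4 _ _) (L.g4 _ _).symm (L.g4 _ _) (L.g4 _ _).symm d

/-- the colimit group -/
abbrev GG : Type := G (tri L B r).ι

theorem tri_vn : VNIso (GG L B false) (GG L B true) := by
  refine vnIso_of_tri (tri L B false) (tri L B true)
    (fun k => match k with
      | .i0 => Tw.refl B.H
      | .i1 => L.twP _
      | .i2 => L.twP _)
    (fun i => match i with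
      | .i0 => L.twX
      | .i1 => Tw.refl (Yn B.n1)
      | .i2 => Tw.refl (Yn B.n2)) ?_
  intro i k h x
  cases i <;> cases k <;> first
    | exact absurd rfl h
    | exact L.tw_ιX _ x
    | exact (L.tw_ιY _ x).trans MonoidAlgebra.mapDomain_single.symm
    | exact MonoidAlgebra.mapDomain_single.symm

theorem card_Yn (n : ℕ) : Nat.card (Yn n) = 8191 ^ n := by
  rw [Nat.card_congr Multiplicative.toAdd, Nat.card_fun, Nat.card_zmod, Nat.card_fin]

theorem tri_free : FreeInNormal (GG L B r) := by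
  refine (tri L B r).freeInNormal ?_ (inferInstanceAs (Finite (Yn B.n1)))
    (inferInstanceAs (Finite (Yn B.n2))) ?_
  · have := L.finX r
    exact (Finite.one_lt_card_iff_nontrivial (α := L.X r)).1
      (lt_of_lt_of_le (by norm_num) (L.big r))
  · obtain ⟨W, hW⟩ := B.big
    refine ⟨W, ?_⟩
    rw [← card_Yn, ← card_Yn] at hW
    exact hW

theorem ofX_inj (T : Tri) (i : I) : Function.Injective (ofX T.ι i) :=
  (T.npc.of_inj _).comp (T.npc.inj (nx_ne i).symm)

theorem of_comp (T : Tri) {i k : I} (h : i ≠ k) : (of T.ι k).comp (T.ι i k) = ofX T.ι i :=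
  MonoidHom.ext fun x => of_ι h x

theorem cyc_map {n : ℕ} {P Q : Type} [Group P] [Group Q] (f : Yn n →* P) (g : P →* Q)
    (a : Fin n) : (cyc f a).map g = cyc (g.comp f) a :=
  MonoidHom.map_zpowers _ _

theorem card_cyc {n : ℕ} {P : Type} [Group P] {f : Yn n →* P} (hf : Function.Injective f)
    (a : Fin n) : Nat.card (cyc f a) = 8191 := by
  have : Fact (Nat.Prime 8191) := ⟨by norm_num⟩
  rw [cyc, Nat.card_zpowers, orderOf_injective f hf]
  refine orderOf_eq_prime ?_ ?_
  · rw [ey, ← ofAdd_nsmul, ofAdd_eq_one]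
    funext b
    rw [Pi.smul_apply, nsmul_eq_mul]
    have : ((8191 : ℕ) : ZMod 8191) = 0 := ZMod.natCast_self _
    rw [this, zero_mul, Pi.zero_apply]
  · rw [ey, Ne, ofAdd_eq_one]
    intro h
    simpa using congrFun h a

theorem range_le_cyc {n : ℕ} {P : Type} [Group P] (f : Yn n →* P) {S : Subgroup P}
    (h : ∀ a, cyc f a ≤ S) : f.range ≤ S := by
  rintro _ ⟨y, rfl⟩
  have e : y = ∏ a, ey a ^ (Multiplicative.toAdd y a).val := by
    apply Multiplicative.toAdd.injective
    rw [toAdd_prod]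
    funext b
    simp [ey, Finset.sum_apply, Pi.single_apply, -ZMod.natCast_val, ZMod.natCast_zmod_val]
  have : y ∈ S.comap f := by
    rw [e]
    exact Subgroup.prod_mem _ fun a _ => Subgroup.pow_mem (S.comap f) (h a (Subgroup.mem_zpowers _)) _
  exact this

theorem cyc_commute {n : ℕ} {P : Type} [Group P] (f : Yn n →* P) (a b : Fin n) :
    ∀ x ∈ cyc f a, ∀ y ∈ cyc f b, Commute x y := by
  rintro _ ⟨s, rfl⟩ _ ⟨t, rfl⟩
  exact ((Commute.all (ey a) (ey b)).map f).zpow_zpow s t

/-- the three edge groups generate -/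
theorem tri_gen {S : Subgroup (GG L B r)} (h : ∀ i, (ofX (tri L B r).ι i).range ≤ S) : S = ⊤ := by
  have key : ∀ i j k, Dis i j k →
      ((tri L B r).ι i k).range ⊔ ((tri L B r).ι j k).range = ⊤ → ∀ p, of (tri L B r).ι k p ∈ S := by
    intro i j k d e p
    have : (⊤ : Subgroup ((tri L B r).P k)) ≤ S.comap (of (tri L B r).ι k) := by
      rw [← e, sup_le_iff]
      constructor <;> rintro _ ⟨x, rfl⟩
      · rw [Subgroup.mem_comap, of_ι d.2.1]; exact h i ⟨x, rfl⟩
      · rw [Subgroup.mem_comap, of_ι d.2.2]; exact h j ⟨x, rfl⟩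
    exact this (Subgroup.mem_top p)
  rw [eq_top_iff]
  intro g _
  induction g using G_ind with
  | h1 => exact S.one_mem
  | hm g k p ih =>
    refine S.mul_mem (ih trivial) ?_
    cases k
    · exact key .i1 .i2 .i0 (by decide) B.gen p
    · exact key .i0 .i2 .i1 (by decide) (L.gen _ _) p
    · exact key .i0 .i1 .i2 (by decide) (L.gen _ _) p

theorem tri_propT : PropT (GG L B r) := by
  let T := tri L B r
  let f0 : L.X r →* GG L B r := ofX T.ι .i0
  let f1 : Yn B.n1 →* GG L B r := ofX T.ι .i1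
  let f2 : Yn B.n2 →* GG L B r := ofX T.ι .i2
  let Z : Option (Fin B.n1 ⊕ Fin B.n2) → Subgroup (GG L B r) := fun a => match a with
    | none => f0.range
    | some (.inl a) => cyc f1 a
    | some (.inr b) => cyc f2 b
  let o0 : B.H →* GG L B r := of T.ι .i0
  let o1 : L.P B.n2 r →* GG L B r := of T.ι .i1
  let o2 : L.P B.n1 r →* GG L B r := of T.ι .i2
  have e02 : o2.comp (L.ιX _ r) = f0 := of_comp T (i := .i0) (k := .i2) (by decide)
  have e12 : o2.comp (L.ιY _ r) = f1 := of_comp T (i := .i1) (k := .i2) (by decide)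
  have e01 : o1.comp (L.ιX _ r) = f0 := of_comp T (i := .i0) (k := .i1) (by decide)
  have e21 : o1.comp (L.ιY _ r) = f2 := of_comp T (i := .i2) (k := .i1) (by decide)
  have e10 : o0.comp B.ι1 = f1 := of_comp T (i := .i1) (k := .i0) (by decide)
  have e20 : o0.comp B.ι2 = f2 := of_comp T (i := .i2) (k := .i0) (by decide)
  have a01 : ∀ a, AngC f0.range (cyc f1 a) := fun a => by
    have := (L.ang B.n1 r a).map o2
    rwa [cyc_map, ← MonoidHom.range_comp, e02, e12] at this
  have a02 : ∀ a, AngC f0.range (cyc f2 a) := fun a => by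
    have := (L.ang B.n2 r a).map o1
    rwa [cyc_map, ← MonoidHom.range_comp, e01, e21] at this
  have a12 : ∀ a b, AngC (cyc f1 a) (cyc f2 b) ∨ AngC (cyc f2 b) (cyc f1 a) := fun a b => by
    refine (B.ang a b).imp (fun h => ?_) fun h => ?_ <;>
    · have := h.map o0
      rwa [cyc_map, cyc_map, e10, e20] at this
  refine propT_of_ang (A := Option (Fin B.n1 ⊕ Fin B.n2)) ?_ Z ?_ ?_ ?_
  · have := B.hn
    simp only [Fintype.card_option, Fintype.card_sum, Fintype.card_fin]
    omega
  · rintro (_ | a | a)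
    · exact (L.big r).trans_eq (Nat.card_congr (MonoidHom.ofInjective (ofX_inj T .i0)).toEquiv)
    · exact (card_cyc (ofX_inj T .i1) a).ge.trans' (by norm_num)
    · exact (card_cyc (ofX_inj T .i2) a).ge.trans' (by norm_num)
  · refine tri_gen L B r fun i => ?_
    cases i
    · exact le_iSup Z none
    · exact range_le_cyc f1 fun a => le_iSup Z (some (.inl a))
    · exact range_le_cyc f2 fun a => le_iSup Z (some (.inr a))
  · rintro (_ | a | a) (_ | b | b) h
    · exact absurd rfl h
    · exact Or.inl (a01 b)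
    · exact Or.inl (a02 b)
    · exact Or.inr (a01 a)
    · exact Or.inl (angC_of_commute (cyc_commute f1 a a) (cyc_commute f1 a b))
    · exact a12 a b
    · exact Or.inr (a02 a)
    · exact (a12 b a).symm
    · exact Or.inl (angC_of_commute (cyc_commute f2 a a) (cyc_commute f2 a b))

theorem tri_lv : ∃ V : Lv (GG L B r), (∀ k, V.P k = (of (tri L B r).ι k).range) ∧ V.Thin ∧
    ⨆ k, V.P k = ⊤ ∧ ∀ k, Finite ((tri L B r).P k) → Finite (V.P k) := by
  obtain ⟨V, h1, h2⟩ := (tri L B r).exists_lv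
  refine ⟨V, h1, h2 fun j k d => ?_, ?_, fun k _ => ?_⟩
  · cases j <;> cases k <;> first | exact absurd d (by decide) | exact L.g6 _ _
  · refine tri_gen L B r fun i => ?_
    refine le_trans ?_ (le_iSup V.P (nx i))
    rintro _ ⟨x, rfl⟩
    rw [h1]
    exact ⟨_, rfl⟩
  · rw [h1]
    exact Finite.of_surjective _ (of (tri L B r).ι k).rangeRestrict_surjective

theorem tri_hyp (hB : Finite B.H) : Hyperbolic (GG L B r) := by
  obtain ⟨V, -, h2, h3, h4⟩ := tri_lv L B r
  refine V.hyp h2 (fun k => h4 k ?_) h3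
  cases k
  exacts [hB, L.finP _ _, L.finP _ _]

theorem tri_relHyp : ∃ H : Subgroup (GG L B r), H ≠ ⊤ ∧ RelHyperbolic (GG L B r) H := by
  obtain ⟨V, h1, h2, h3, h4⟩ := tri_lv L B r
  refine ⟨V.P .i0, fun e => ?_, V.relHyp h2 (fun k hk => h4 k ?_) h3⟩
  · have := L.finX r
    obtain ⟨x, hx⟩ := @exists_ne _ ((Finite.one_lt_card_iff_nontrivial (α := L.X r)).1
      (lt_of_lt_of_le (by norm_num) (L.big r))) 1
    have N := (tri L B r).npc
    have h := (N.r3 (k := .i0) (g := 1) (x := x)
      (fun _ _ _ h => (has_root (N.vx_one ▸ h)).elim) hx).1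
    rw [N.vx_root.2 ⟨rfl, h1 .i0 ▸ e ▸ Subgroup.mem_top _⟩] at h
    cases h
  · cases k
    exacts [absurd rfl hk, L.finP _ _, L.finP _ _]

theorem tri_infinite : Infinite (GG L B r) := by
  obtain ⟨H, h, -⟩ := tri_relHyp L B r
  obtain ⟨f, hf, -⟩ := tri_free L B r ⊤ inferInstance fun e => h (top_le_iff.1 (e ▸ bot_le))
  exact Infinite.of_injective f hf

theorem Yn_pow {n : ℕ} (y : Yn n) : y ^ 8191 = 1 := by
  apply Multiplicative.toAdd.injective
  funext b
  have : ((8191 : ℕ) : ZMod 8191) = 0 := ZMod.natCast_self _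
  rw [toAdd_pow, Pi.smul_apply, nsmul_eq_mul, this, zero_mul]
  rfl

theorem tri_not_iso : IsEmpty (GG L B false ≃* GG L B true) := by
  refine ⟨fun e => ?_⟩
  obtain ⟨x, hx⟩ := L.η_ne
  let f : ∀ k, (tri L B true).P k →* ℂˣ := fun k => match k with
    | .i0 => 1
    | .i1 => L.ηP _
    | .i2 => L.ηP _
  have hf : ∀ i j k x, i ≠ j → i ≠ k →
      f j ((tri L B true).ι i j x) = f k ((tri L B true).ι i k x) := by
    intro i j k x h1 h2
    cases i <;> cases j <;> cases k <;> first
      | exact absurd rfl h1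
      | exact absurd rfl h2
      | rfl
      | exact (L.η_ιX _ x).trans (L.η_ιX _ x).symm
      | exact L.η_ιY _ x
      | exact (L.η_ιY _ x).symm
  let φ : GG L B false →* ℂˣ :=
    (powMonoidHom (2 * 8191)).comp ((lift f hf).comp e.toMonoidHom)
  have hφ : φ.ker = ⊤ := by
    refine tri_gen L B false fun i => ?_
    rintro _ ⟨y, rfl⟩
    have hy : y ^ (2 * 8191) = 1 := by
      cases i
      · exact (pow_mul y _ _).trans ((congrArg (· ^ 8191) (L.sqX y)).trans (one_pow _))
      · exact (pow_mul' y _ _).trans ((congrArg (· ^ 2) (Yn_pow (n := B.n1) y)).trans (one_pow _))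
      · exact (pow_mul' y _ _).trans ((congrArg (· ^ 2) (Yn_pow (n := B.n2) y)).trans (one_pow _))
    change (((lift f hf).comp e.toMonoidHom).comp (ofX (tri L B false).ι i)) y ^ (2 * 8191) = 1
    rw [← map_pow, hy, map_one]
  have h1 : e.symm (of (tri L B true).ι .i1 (L.ιX _ _ x)) ∈ φ.ker := hφ ▸ Subgroup.mem_top _
  apply hx
  change lift f hf (e (e.symm _)) ^ (2 * 8191) = 1 at h1
  rw [e.apply_symm_apply, lift_of] at h1
  rw [← L.η_ιX B.n2 x]
  exact h1

/-- the retraction onto the base group -/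
theorem exists_retr : ∃ ρ : GG L B r →* B.H, ∀ p, ρ (of (tri L B r).ι .i0 p) = p := by
  let f : ∀ k, (tri L B r).P k →* B.H := fun k => match k with
    | .i0 => MonoidHom.id _
    | .i1 => B.ι2.comp (L.pr _ _)
    | .i2 => B.ι1.comp (L.pr _ _)
  have hf : ∀ i j k x, i ≠ j → i ≠ k →
      f j ((tri L B r).ι i j x) = f k ((tri L B r).ι i k x) := by
    intro i j k x h1 h2
    have e1 : ∀ x, B.ι1 (L.pr _ r (L.ιX _ r x)) = B.ι2 (L.pr _ r (L.ιX _ r x)) := fun x => by
      rw [L.pr_ιX, L.pr_ιX, map_one, map_one]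
    cases i <;> cases j <;> cases k <;> first
      | exact absurd rfl h1
      | exact absurd rfl h2
      | rfl
      | exact e1 x
      | exact (e1 x).symm
      | exact congrArg B.ι1 (L.pr_ιY _ _ x)
      | exact (congrArg B.ι1 (L.pr_ιY _ _ x)).symm
      | exact congrArg B.ι2 (L.pr_ιY _ _ x)
      | exact (congrArg B.ι2 (L.pr_ιY _ _ x)).symm
  exact ⟨lift f hf, fun p => lift_of f hf .i0 p⟩

theorem tri_not_virt {y : Yn B.n1} (hy : y ≠ 1)
    (hN : ∀ N : Subgroup B.H, N.Normal → N.FiniteIndex → B.ι1 y ∈ N)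
    {K : Subgroup B.H} (k1 : K.Normal) (k2 : K.FiniteIndex)
    (k3 : ∀ h ∈ K, h ^ 4 = 1 → h ^ 2 = 1) : ¬ VirtIso (GG L B false) (GG L B true) := by
  intro h
  obtain ⟨Γ, _, f, f', i1, i2, n1, n2⟩ :=
    emb_of_virt (tri_free L B false).icc (tri_free L B true).icc h
  obtain ⟨ρ, hρ⟩ := exists_retr L B false
  -- no element of order four over `K`
  have hG : ∀ g : GG L B false, ρ g ∈ K → g ^ 4 = 1 → g ^ 2 = 1 := by
    intro g hg h4
    by_contra h2
    obtain ⟨V, v1, -⟩ := (tri L B false).exists_lv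
    obtain ⟨k, t, ht⟩ := V.tor g h4 h2
    rw [v1] at ht
    obtain ⟨p, hp⟩ := ht
    have e : ∀ n : ℕ, of (tri L B false).ι k (p ^ n) = t⁻¹ * g ^ n * t := fun n => by
      rw [map_pow, hp]
      simpa using (conj_pow (i := n) (a := t⁻¹) (b := g))
    have p4 : p ^ 4 = 1 := (tri L B false).npc.of_inj k (by rw [e, h4, map_one]; group)
    have p2 : p ^ 2 = 1 := by
      cases k
      · refine k3 p ?_ p4
        rw [← hρ p, hp, map_mul, map_mul, map_inv]
        exact k1.conj_mem' _ hg _
      · exact L.no4 _ p p4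
      · exact L.no4 _ p p4
    have := e 2
    rw [p2, map_one] at this
    apply h2
    calc g ^ 2 = t * (t⁻¹ * g ^ 2 * t) * t⁻¹ := by group
      _ = 1 := by rw [← this]; group
  -- a finite index normal subgroup of the second group
  have fi : ∀ {A C : Type} [Group A] [Group C] (S : Subgroup C) (φ : A →* C), S.FiniteIndex →
      (S.comap φ).FiniteIndex := fun S φ _ =>
    ⟨by rw [Subgroup.index_comap]; exact Subgroup.FiniteIndex.index_ne_zero⟩
  let Γ1 : Subgroup Γ := K.comap (ρ.comp f)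
  have : Γ1.FiniteIndex := fi _ _ k2
  have : (Γ1.map f').FiniteIndex := ⟨by
    rw [Subgroup.index_map_of_injective _ i2]
    exact mul_ne_zero Subgroup.FiniteIndex.index_ne_zero n2.index_ne_zero⟩
  let N := (Γ1.map f').normalCore
  let o0 : B.H →* GG L B true := of (tri L B true).ι .i0
  let o2 : L.P B.n1 true →* GG L B true := of (tri L B true).ι .i2
  have hy' : o0 (B.ι1 y) ∈ N := hN (N.comap o0) inferInstance (fi _ _ inferInstance)
  have e1 : o0 (B.ι1 y) = o2 (L.ιY _ _ y) :=
    (of_ι (ι := (tri L B true).ι) (i := .i1) (k := .i0) (by decide) y).trans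
      (of_ι (ι := (tri L B true).ι) (i := .i1) (k := .i2) (by decide) y).symm
  obtain ⟨x, x4, x2⟩ := L.ord4 _ y hy
  have hc : o2 (L.ιY _ true y * L.ιX _ true x * (L.ιY _ true y)⁻¹ * (L.ιX _ true x)⁻¹) ∈ N := by
    rw [e1] at hy'
    have := N.mul_mem hy' ((inferInstance : N.Normal).conj_mem _ (N.inv_mem hy')
      (o2 (L.ιX _ true x)))
    simpa only [map_mul, map_inv, mul_assoc] using this
  obtain ⟨γ, g1, g2⟩ := (Γ1.map f').normalCore_le hc
  have γ4 : γ ^ 4 = 1 := i2 (by rw [map_pow, g2, ← map_pow, x4, map_one, map_one])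
  have γ2 : γ ^ 2 = 1 := i1 (by
    rw [map_pow, map_one]
    exact hG _ g1 (by rw [← map_pow, γ4, map_one]))
  have o2i : Function.Injective o2 := (tri L B true).npc.of_inj .i2
  exact x2 (o2i (by rw [map_pow, ← g2, ← map_pow, γ2, map_one, map_one]))

theorem thmA : ∃ (G G' : Type) (_ : Group G) (_ : Group G'),
    Hyperbolic G ∧ Hyperbolic G' ∧ Infinite G ∧ Infinite G' ∧ ICC G ∧ ICC G' ∧
      PropT G ∧ PropT G' ∧ VNIso G G' ∧ IsEmpty (G ≃* G') := by
  obtain ⟨L⟩ := exists_loc
  obtain ⟨B, h1, -⟩ := exists_baseA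
  exact ⟨GG L B false, GG L B true, _, _, tri_hyp L B _ h1, tri_hyp L B _ h1,
    tri_infinite L B _, tri_infinite L B _,
    (tri_free L B _).icc, (tri_free L B _).icc, tri_propT L B _, tri_propT L B _, tri_vn L B,
    tri_not_iso L B⟩

theorem thmB : ∃ (G G' : Type) (_ : Group G) (_ : Group G'),
    Countable G ∧ Countable G' ∧ (∃ H : Subgroup G, H ≠ ⊤ ∧ RelHyperbolic G H) ∧
      (∃ H' : Subgroup G', H' ≠ ⊤ ∧ RelHyperbolic G' H') ∧ FreeInNormal G ∧ FreeInNormal G' ∧
      ICC G ∧ ICC G' ∧ PropT G ∧ PropT G' ∧ VNIso G G' ∧ ¬ VirtIso G G' := by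
  obtain ⟨L⟩ := exists_loc
  obtain ⟨B, h1, ⟨y, hy, hN⟩, K, k1, k2, k3⟩ := exists_baseB
  have hc : ∀ r, Countable (GG L B r) := fun r => by
    have : ∀ k, Countable ((tri L B r).P k) := fun k => by
      cases k
      exacts [h1, (L.finP _ _).to_countable, (L.finP _ _).to_countable]
    infer_instance
  exact ⟨GG L B false, GG L B true, _, _, hc _, hc _, tri_relHyp L B _, tri_relHyp L B _,
    tri_free L B _, tri_free L B _, (tri_free L B _).icc, (tri_free L B _).icc,
    tri_propT L B _, tri_propT L B _, tri_vn L B, tri_not_virt L B hy hN k1 k2 k3⟩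

end Pool.Agent.MP_434e52_an

end
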