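import Pool.Agent.MP_434e52_an.Ana
import Pool.Agent.MP_434e52_an.TDefs

attribute [-instance] MonTypeEquivalenceMon.monMonoid IsSemitopologicalSemiring.toContinuousAdd
  NonarchimedeanAddGroup.toIsTopologicalAddGroup AddSubgroup.seminormedAddCommGroup
  NonUnitalAlgHomClass.toNonUnitalRingHomClass littleWedderburn MonoidWithZero.toMulZeroOneClass
  CommGroup.toDivisionCommMonoid Valued.toUniformSpace RKHS.instFunLike SemigroupWithZero.toSemigroup
  NonUnitalRing.toNonUnitalNonAssocRing NonAssocSemiring.toAddCommMonoidWithOne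
  NormedCommRing.toCommRing IdemSemiring.toSemiring IsTopologicalSemiring.toContinuousAdd
  SeminormedRing.toRing ContinuousSemilinearMapClass.toSemilinearMapClass MulZeroClass.toMul
  NonUnitalSemiring.toNonUnitalNonAssocSemiring EuclideanDomain.toCommRing
  SeminormedCommRing.toCommRing NonAssocCommSemiring.toNonAssocSemiring
  NonAssocRing.toNonAssocSemiring AddSubgroup.instIsTopologicalAddGroupSubtypeMem
  MulCharClass.toMonoidHomClass Subtype.pseudoMetricSpace SubringClass.toRing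
  IsIsometricSMul.to_continuousConstSMul IsValuativeTopology.instIsTopologicalAddGroup
  CoalgHomClass.toSemilinearMapClass MonoidWithZero.toMonoid
  instNonUnitalAlgHomClassOfNonUnitalAlgEquivClass NonUnitalNormedCommRing.toNonUnitalCommRing
  instUniformSpaceSubtype LieAdmissibleRing.toNonUnitalNonAssocRing
  NonUnitalSeminormedCommRing.toNonUnitalCommRing
  NonUnitalNonAssocCommSemiring.toNonUnitalNonAssocSemiring BooleanRing.toCommRing
  SemilatticeInf.toPartialOrder GroupWithZero.toDivisionMonoid AddCommGroupWithOne.toAddGroupWithOne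
  BialgHomClass.toAlgHomClass IdemCommSemiring.toCommSemiring GroupWithZero.toDivInvMonoid
  DivisionRing.toDivInvMonoid NormedCommRing.toNormedRing NormedDivisionRing.toNormedRing
  Semifield.toCommSemiring MulSemiringAction.toDistribMulAction
  NonAssocCommRing.toNonUnitalNonAssocCommRing DivisionRing.toDivisionSemiring
  DenselyNormedField.toNormedField MulRingSeminormClass.toMonoidWithZeroHomClass
  ValuationClass.toMonoidWithZeroHomClass NonUnitalNormedRing.toNonUnitalSeminormedRing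
  AlgEquivClass.toAlgHomClass LinearOrder.toDecidableEq ContDiffMapSupportedInClass.toDFunLike
  TestFunctionClass.toDFunLike SubringClass.toSeminormedCommRing
  SemilinearIsometryClass.toSemilinearMapClass CommMonoid.toCommSemigroup SubsemiringClass.toSemiring
  RingEquivClass.toNonUnitalRingHomClass LinearOrderedCommGroupWithZero.toCommGroupWithZero
  MulSemiringActionSemiHomClass.toRingHomClass CompletePartialOrder.toPartialOrder
  IsStarProjection.instTrivialStarOfStarOrderedRing ESeminormedAddCommMonoid.toAddCommMonoid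
  RightPreLieRing.toNonUnitalNonAssocRing NormedDivisionRing.toDivisionRing
  RingHomClass.toLinearMapClassRat ESeminormedCommMonoid.toCommMonoid RingEquivClass.toRingHomClass
  MulDistribMulActionSemiHomClass.toMonoidHomClass BialgHomClass.toMonoidHomClass
  LeftPreLieRing.toNonUnitalNonAssocRing NonAssocCommRing.toNonAssocRing

section

/-!
Interfaces: index set, triangles of groups, twins, angle condition, local data, base data,
level functions.
-/

set_option autoImplicit false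

namespace Pool.Agent.MP_434e52_an

/-- The three types. -/
inductive I | i0 | i1 | i2
  deriving DecidableEq, Fintype

/-- pairwise distinct -/
def Dis (i j k : I) : Prop := i ≠ j ∧ i ≠ k ∧ j ≠ k

instance (i j k : I) : Decidable (Dis i j k) := by unfold Dis; infer_instance

/-- the third index -/
def thd : I → I → I
  | .i0, .i1 => .i2 | .i1, .i0 => .i2
  | .i0, .i2 => .i1 | .i2, .i0 => .i1
  | _, _ => .i0

/-- another index -/
def nx : I → I
  | .i0 => .i1 | .i1 => .i2 | .i2 => .i0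

theorem nx_ne (i : I) : nx i ≠ i := by revert i; decide
theorem Dis.eq_thd {i j k : I} (h : Dis i j k) : i = thd j k := by revert i j k; decide
theorem dis_thd {j k : I} (h : j ≠ k) : Dis (thd j k) j k := by revert j k; decide
theorem Dis.uniq {i i' j k : I} (h : Dis i j k) (h' : Dis i' j k) : i = i' :=
  h.eq_thd.trans h'.eq_thd.symm
theorem Dis.s12 {i j k : I} (h : Dis i j k) : Dis j i k := ⟨h.1.symm, h.2.2, h.2.1⟩
theorem Dis.s23 {i j k : I} (h : Dis i j k) : Dis i k j := ⟨h.2.1, h.1, h.2.2.symm⟩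
theorem Dis.s13 {i j k : I} (h : Dis i j k) : Dis k j i := ⟨h.2.2.symm, h.2.1.symm, h.1.symm⟩
theorem Dis.cases {i j k : I} (h : Dis i j k) (l : I) : l = i ∨ l = j ∨ l = k := by
  revert i j k l; decide
theorem exists_dis (k : I) : ∃ i j, Dis i j k := by revert k; decide

/-- two homomorphisms meet trivially -/
def Gi2 {X Y P : Type} [Group X] [Group Y] [Group P] (a : X →* P) (b : Y →* P) : Prop :=
  ∀ x y, a x = b y → x = 1 ∧ y = 1

/-- no alternating relation of length four -/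
def Gi4 {X Y P : Type} [Group X] [Group Y] [Group P] (a : X →* P) (b : Y →* P) : Prop :=
  ∀ x y x' y', a x * b y * a x' * b y' = 1 → x = 1 ∨ y = 1 ∨ x' = 1 ∨ y' = 1

/-- no alternating relation of length six -/
def Gi6 {X Y P : Type} [Group X] [Group Y] [Group P] (a : X →* P) (b : Y →* P) : Prop :=
  ∀ x y x' y' x'' y'', a x * b y * a x' * b y' * a x'' * b y'' = 1 →
    x = 1 ∨ y = 1 ∨ x' = 1 ∨ y' = 1 ∨ x'' = 1 ∨ y'' = 1

/-- A triangle of groups: vertex groups `P k`, edge groups `X i`, links of girth at least six. -/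
structure Tri where
  P : I → Type
  X : I → Type
  [gP : ∀ k, Group (P k)]
  [gX : ∀ i, Group (X i)]
  ι : ∀ i k, X i →* P k
  g2 : ∀ {i j k}, Dis i j k → Gi2 (ι i k) (ι j k)
  g4 : ∀ {i j k}, Dis i j k → Gi4 (ι i k) (ι j k)

attribute [instance] Tri.gP Tri.gX

/-- A trace preserving unitary representation of `P` in the group algebra of `P'` whose image
spans the group algebra. -/
structure Tw (P P' : Type) [Group P] [Group P'] where
  th : P →* MonoidAlgebra ℂ P'
  adj : ∀ p q, (th p⁻¹).coeff q = (starRingEnd ℂ) ((th p).coeff q⁻¹)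
  tr : ∀ p, p ≠ 1 → (th p).coeff 1 = 0
  onto : ∀ q, MonoidAlgebra.single q (1 : ℂ) ∈ Submodule.span ℂ (Set.range th)

/-- The `Y`-conjugates of `X` commute, and any five of them generate all of them. -/
def AngC {G : Type} [Group G] (X Y : Subgroup G) : Prop :=
  (∀ y ∈ Y, ∀ x ∈ X, ∀ x' ∈ X, Commute (y * x * y⁻¹) x') ∧
  ∀ s : Finset G, (∀ y ∈ s, y ∈ Y) → 4 < s.card → ∀ y ∈ Y, ∀ x ∈ X,
    y * x * y⁻¹ ∈ Subgroup.closure {g | ∃ y' ∈ s, ∃ x' ∈ X, g = y' * x' * y'⁻¹}

/-- `(Z/8191)^n` -/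
abbrev Yn (n : ℕ) : Type := Multiplicative (Fin n → ZMod 8191)

/-- basis vector of `Yn n` -/
def ey {n : ℕ} (a : Fin n) : Yn n := Multiplicative.ofAdd (Pi.single a 1)

/-- image of a coordinate line -/
def cyc {n : ℕ} {P : Type} [Group P] (f : Yn n →* P) (a : Fin n) : Subgroup P :=
  Subgroup.zpowers (f (ey a))

/-- Local twins (section 3 of the paper). -/
structure Loc where
  X : Bool → Type
  [gX : ∀ r, Group (X r)]
  finX : ∀ r, Finite (X r)
  P : ℕ → Bool → Type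
  [gP : ∀ n r, Group (P n r)]
  finP : ∀ n r, Finite (P n r)
  ιX : ∀ n r, X r →* P n r
  ιY : ∀ n r, Yn n →* P n r
  g2 : ∀ n r, Gi2 (ιX n r) (ιY n r)
  g4 : ∀ n r, Gi4 (ιX n r) (ιY n r)
  g6 : ∀ n r, Gi6 (ιX n r) (ιY n r)
  gen : ∀ n r, (ιX n r).range ⊔ (ιY n r).range = ⊤
  big : ∀ r, 6400 ≤ Nat.card (X r)
  ang : ∀ n r (a : Fin n), AngC (ιX n r).range (cyc (ιY n r) a)
  twX : Tw (X false) (X true)
  twP : ∀ n, Tw (P n false) (P n true)
  tw_ιX : ∀ n x, (twP n).th (ιX n false x) = MonoidAlgebra.mapDomain (ιX n true) (twX.th x)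
  tw_ιY : ∀ n y, (twP n).th (ιY n false y) = MonoidAlgebra.single (ιY n true y) 1
  pr : ∀ n r, P n r →* Yn n
  pr_ιX : ∀ n r x, pr n r (ιX n r x) = 1
  pr_ιY : ∀ n r y, pr n r (ιY n r y) = y
  sqX : ∀ x : X false, x ^ 2 = 1
  no4 : ∀ n (g : P n false), g ^ 4 = 1 → g ^ 2 = 1
  ord4 : ∀ n (y : Yn n), y ≠ 1 → ∃ x : X true,
    (ιY n true y * ιX n true x * (ιY n true y)⁻¹ * (ιX n true x)⁻¹) ^ 4 = 1 ∧
    (ιY n true y * ιX n true x * (ιY n true y)⁻¹ * (ιX n true x)⁻¹) ^ 2 ≠ 1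
  η : X true →* ℂˣ
  ηP : ∀ n, P n true →* ℂˣ
  η_ιX : ∀ n x, ηP n (ιX n true x) = η x
  η_ιY : ∀ n y, ηP n (ιY n true y) = 1
  η_ne : ∃ x, η x ^ (2 * 8191) ≠ 1

attribute [instance] Loc.gX Loc.gP

/-- The common vertex group `P_0 = H` with its two edge groups. -/
structure Base where
  H : Type
  [gH : Group H]
  n1 : ℕ
  n2 : ℕ
  hn : n1 + n2 ≤ 7
  ι1 : Yn n1 →* H
  ι2 : Yn n2 →* H
  g2 : Gi2 ι1 ι2
  g4 : Gi4 ι1 ι2
  gen : ι1.range ⊔ ι2.range = ⊤
  ang : ∀ a b, AngC (cyc ι1 a) (cyc ι2 b) ∨ AngC (cyc ι2 b) (cyc ι1 a)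
  big : ∃ W : Finset H,
    24 * (8191 ^ n1 * 8191 ^ n2 * 8191 ^ n1 + 8191 ^ n2 * 8191 ^ n1 * 8191 ^ n2) < W.card

attribute [instance] Base.gH

/-- Level functions on a group acting simply transitively on the chambers of a triangle complex:
`ℓ k g` is the level of the vertex `g P_k`. -/
structure Lv (G : Type) [Group G] where
  P : I → Subgroup G
  X : I → Subgroup G
  ℓ : I → G → ℕ
  le : ∀ {i k}, i ≠ k → X i ≤ P k
  disj : ∀ {i j}, i ≠ j → ∀ a ∈ X i, a ∈ X j → a = 1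
  inv : ∀ k g, ∀ p ∈ P k, ℓ k (g * p) = ℓ k g
  zero : ∀ k g, ℓ k g = 0 ↔ k = .i0 ∧ g ∈ P .i0
  panel : ∀ g, ∃ i j k n, Dis i j k ∧ ℓ i g = n + 1 ∧ ℓ j g = n + 1 ∧
    ∃ x ∈ X k, ℓ k (g * x) = n ∧ ∀ x' ∈ X k, x' ≠ x → ℓ k (g * x') = n + 2
  down : ∀ k g, ℓ k g ≠ 0 → ∃ j, j ≠ k ∧ ∃ p ∈ P k, ℓ j (g * p) + 1 = ℓ k g
  uniq : ∀ {i j k}, Dis i j k → ∀ g, ℓ j g + 1 = ℓ k g → ∀ p ∈ P k,
    ℓ j (g * p) + 1 = ℓ k g → p ∈ X i
  both : ∀ {i j k}, Dis i j k → ∀ g, ℓ j g + 1 = ℓ k g → ∀ p ∈ P k,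
    ℓ i (g * p) + 1 = ℓ k g → ∃ a ∈ X i, ℓ i (g * a) + 1 = ℓ k g

/-- the vertex `g P_k` has two lower neighbours -/
def Lv.Two {G : Type} [Group G] (L : Lv G) (k : I) (g : G) : Prop :=
  ∀ j, j ≠ k → ∃ p ∈ L.P k, L.ℓ j (g * p) + 1 = L.ℓ k g

/-- two adjacent vertices on one level, one of type `i0`, do not both have two lower
neighbours -/
def Lv.Thin {G : Type} [Group G] (L : Lv G) : Prop :=
  ∀ j g, j ≠ .i0 → L.ℓ .i0 g = L.ℓ j g → ¬ (L.Two .i0 g ∧ L.Two j g)

end Pool.Agent.MP_434e52_an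

end

section

/-! The development of a non-positively curved triangle of groups with trivial face group. -/

set_option autoImplicit false
set_option linter.unusedSectionVars false

namespace Pool.Agent.MP_434e52_an.Dev

theorem _root_.Pool.Agent.MP_434e52_an.Dis.two {i j k i' j' : I} (h : Dis i j k)
    (h' : Dis i' j' k) : (i' = i ∧ j' = j) ∨ (i' = j ∧ j' = i) := by
  revert i j k i' j'; decide

variable {P X : I → Type} [∀ k, Group (P k)] [∀ i, Group (X i)]

/-- The links have girth at least six. -/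
structure NPC (ι : ∀ i k, X i →* P k) : Prop where
  g2 : ∀ i j k, Dis i j k → ∀ a b, ι i k a = ι j k b → a = 1 ∧ b = 1
  g4 : ∀ i j k, Dis i j k → ∀ a b a' b', a ≠ 1 → b ≠ 1 → a' ≠ 1 → b' ≠ 1 →
    ι i k a * ι j k b * ι i k a' * ι j k b' ≠ 1

theorem _root_.Pool.Agent.MP_434e52_an.Tri.npc (T : Tri) : NPC T.ι :=
  ⟨fun _ _ _ d => T.g2 d, fun _ _ _ d a b a' b' h1 h2 h3 h4 e => by
    rcases T.g4 d a b a' b' e with h | h | h | h <;> contradiction⟩

variable (P X) in
/-- Terms for the vertices of the development. -/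
inductive Vx : Type
  | root : Vx
  | V (j k : I) (z : Vx) (r : P k) : Vx
  | E (k : I) (z : Vx) (p : P k) (x : X k) : Vx

open Vx

/-- The type of a vertex. -/
def ty : Vx P X → I
  | root => .i0
  | V j _ _ _ => j
  | E k _ _ _ => k

/-- The level of a vertex. -/
def lev : Vx P X → ℕ
  | root => 0
  | V _ _ z _ => lev z + 1
  | E _ z _ _ => lev z + 2

variable (ι : ∀ i k, X i →* P k)

/-- The product set `A B`. -/
def AB (i j k : I) (p : P k) : Prop := ∃ a b, p = ι i k a * ι j k b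

/-- The product set `A B A`. -/
def ABA (i j k : I) (p : P k) : Prop := ∃ a b a', p = ι i k a * ι j k b * ι i k a'

/-- The chosen representative of `p A`. -/
noncomputable def rep (i k : I) (p : P k) : P k := (p : P k ⧸ (ι i k).range).out

theorem exists_res (i k : I) (p : P k) : ∃ x, p = rep ι i k p * ι i k x := by
  obtain ⟨⟨_, x, rfl⟩, h⟩ := QuotientGroup.mk_out_eq_mul (ι i k).range p
  exact ⟨x⁻¹, by rw [rep, h, map_inv, mul_inv_cancel_right]⟩

/-- The remaining letter. -/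
noncomputable def res (i k : I) (p : P k) : X i := (exists_res ι i k p).choose

theorem rep_res (i k : I) (p : P k) : rep ι i k p * ι i k (res ι i k p) = p :=
  (exists_res ι i k p).choose_spec.symm

theorem rep_mul (i k : I) (p : P k) (x : X i) : rep ι i k (p * ι i k x) = rep ι i k p := by
  rw [rep, rep, QuotientGroup.mk_mul_of_mem p (MonoidHom.mem_range.2 ⟨x, rfl⟩)]

open Classical in
/-- The upper vertex of type `j` of the chamber `(z, p)`, given the lower neighbour of type `j`. -/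
noncomputable def upA (j k : I) (o : Option (Vx P X × P j)) (z : Vx P X) (p : P k) :
    Vx P X × P j :=
  if h : ∃ w : (Vx P X × P j) × X (thd j k) × X j × X (thd j k), o = some w.1 ∧
      p = ι _ k w.2.1 * ι j k w.2.2.1 * ι _ k w.2.2.2 then
    (E j h.choose.1.1 (h.choose.1.2 * ι _ j h.choose.2.1) h.choose.2.2.1, ι _ j h.choose.2.2.2)
  else (V j k z (rep ι (thd j k) k p), ι _ j (res ι (thd j k) k p))

/-- The lower neighbour of type `j`, with the coordinate of a chamber. -/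
noncomputable def dn : Vx P X → ∀ j, Option (Vx P X × P j)
  | root, _ => none
  | V _ k z r, j => if h : k = j then some (z, h ▸ r) else none
  | E k t r x, j => if j = k then none else
      some ((upA ι j k (dn t j) t r).1, (upA ι j k (dn t j) t r).2 * ι k j x)

/-- The upper vertex of type `j` of the chamber `(z, p)`. -/
noncomputable def up (z : Vx P X) (k : I) (p : P k) (j : I) : Vx P X × P j :=
  upA ι j k (dn ι z j) z p

/-- There is a lower neighbour of type `j`. -/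
def has (z : Vx P X) (j : I) : Prop := ∃ w, dn ι z j = some w

/-- The chambers at `z` whose lowest vertex is `z`. -/
def FF (z : Vx P X) (k : I) (p : P k) : Prop :=
  ∀ i j, Dis i j k → has ι z j → ¬AB ι i j k p

/-- The chambers at `z` whose vertex of type `j` has `z` as its only lower neighbour. -/
def TT (z : Vx P X) (k j : I) (p : P k) : Prop :=
  ∀ i, Dis i j k → (has ι z j → ¬ABA ι i j k p) ∧ (has ι z i → ¬AB ι j i k p)

/-- Valid terms. -/
def Valid : Vx P X → Prop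
  | root => True
  | V j k z r => Valid z ∧ ty z = k ∧ j ≠ k ∧ rep ι (thd j k) k r = r ∧ TT ι z k j r
  | E k z p x => Valid z ∧ ty z = k ∧ FF ι z k p ∧ x ≠ 1

/-- The defining relations of the colimit. -/
def Rel (a b : Monoid.CoprodI P) : Prop :=
  ∃ i j k x, i ≠ j ∧ i ≠ k ∧ a = Monoid.CoprodI.of (ι i j x) ∧ b = Monoid.CoprodI.of (ι i k x)

/-- The colimit of the triangle of groups. -/
def G : Type := (conGen (Rel ι)).Quotient

noncomputable instance : Group (G ι) := inferInstanceAs (Group (conGen (Rel ι)).Quotient)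

/-- The quotient map. -/
noncomputable def mkG : Monoid.CoprodI P →* G ι := (conGen (Rel ι)).mk'

/-- The maps from the vertex groups. -/
noncomputable def of (k : I) : P k →* G ι := (mkG ι).comp Monoid.CoprodI.of

/-- The maps from the edge groups. -/
noncomputable def ofX (i : I) : X i →* G ι := (of ι (nx i)).comp (ι i (nx i))

/-- The element attached to a term. -/
noncomputable def bb : Vx P X → G ι
  | root => 1
  | V _ k z r => bb z * of ι k r
  | E k t r x => bb t * of ι k r * ofX ι k x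

variable {ι}

theorem of_ι {i k : I} (h : i ≠ k) (x : X i) : of ι k (ι i k x) = ofX ι i x :=
  (Con.eq _).2 (ConGen.Rel.of _ _ ⟨i, k, nx i, x, h, (nx_ne i).symm, rfl, rfl⟩)

/-- The universal property, into any monoid. -/
noncomputable def lift {M : Type*} [Monoid M] (f : ∀ k, P k →* M)
    (h : ∀ i j k x, i ≠ j → i ≠ k → f j (ι i j x) = f k (ι i k x)) : G ι →* M :=
  Con.lift _ (Monoid.CoprodI.lift f) (Con.conGen_le.2 (by
    rintro _ _ ⟨i, j, k, x, h1, h2, rfl, rfl⟩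
    simpa [Con.ker_rel] using h i j k x h1 h2))

theorem lift_of {M : Type*} [Monoid M] (f : ∀ k, P k →* M)
    (h : ∀ i j k x, i ≠ j → i ≠ k → f j (ι i j x) = f k (ι i k x)) (k : I) (p : P k) :
    lift f h (of ι k p) = f k p :=
  (Con.lift_mk' _ _).trans (Monoid.CoprodI.lift_of _ _)

theorem G_ind {C : G ι → Prop} (g : G ι) (h1 : C 1) (hm : ∀ g k p, C g → C (g * of ι k p)) :
    C g := by
  have : ∀ w : Monoid.CoprodI P, ∀ g, C g → C (g * mkG ι w) := fun w => by
    induction w using Monoid.CoprodI.induction_on with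
    | one => simp
    | of k p => exact fun g => hm g k p
    | mul x y hx hy => intro g hg; rw [map_mul, ← mul_assoc]; exact hy _ (hx _ hg)
  obtain ⟨w, rfl⟩ : ∃ w, mkG ι w = g := (conGen (Rel ι)).mk'_surjective g
  simpa using this w 1 h1

instance [∀ k, Countable (P k)] : Countable (G ι) := by
  have : Countable (FreeMonoid (Σ k, P k)) := inferInstanceAs (Countable (List _))
  have : Countable (Monoid.CoprodI P) :=
    (conGen (Monoid.CoprodI.Rel P)).mk'_surjective.countable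
  exact (conGen (Rel ι)).mk'_surjective.countable

theorem dn_V (j k : I) (z : Vx P X) (r : P k) : dn ι (V j k z r) k = some (z, r) := by
  simp [dn]

theorem has_V {j k m : I} {z : Vx P X} {r : P k} : has ι (V j k z r) m ↔ k = m := by
  refine ⟨fun ⟨w, h⟩ => by_contra fun e => by simp [dn, e] at h, ?_⟩
  rintro rfl
  exact ⟨_, dn_V _ _ _ _⟩

theorem dn_E {j k : I} (h : j ≠ k) (t : Vx P X) (r : P k) (x : X k) :
    dn ι (E k t r x) j = some ((up ι t k r j).1, (up ι t k r j).2 * ι k j x) := by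
  simp [dn, h, up]

theorem has_E {j k : I} {t : Vx P X} {r : P k} {x : X k} : has ι (E k t r x) j ↔ j ≠ k :=
  ⟨fun ⟨w, h⟩ e => by simp [dn, e] at h, fun h => ⟨_, dn_E h _ _ _⟩⟩

theorem has_root {j : I} : ¬has ι root j := fun ⟨w, h⟩ => by simp [dn] at h

theorem not_has_ty {z : Vx P X} (h : Valid ι z) : ¬has ι z (ty z) := by
  cases z with
  | root => exact has_root
  | V j k z r => exact fun e => h.2.2.1 (has_V.1 e).symm
  | E k t r x => exact fun e => has_E.1 e rfl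

theorem up_V {i j k : I} (d : Dis i j k) {z : Vx P X} {p : P k}
    (h : has ι z j → ¬ABA ι i j k p) :
    up ι z k p j = (V j k z (rep ι i k p), ι i j (res ι i k p)) := by
  obtain rfl := d.eq_thd
  exact dif_neg fun ⟨w, h1, h2⟩ => h ⟨_, h1⟩ ⟨_, _, _, h2⟩

theorem up_cases {i j k : I} (d : Dis i j k) (z : Vx P X) (p : P k) :
    (∃ y s a b a', dn ι z j = some (y, s) ∧ p = ι i k a * ι j k b * ι i k a' ∧
      up ι z k p j = (E j y (s * ι i j a) b, ι i j a')) ∨
    ((has ι z j → ¬ABA ι i j k p) ∧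
      up ι z k p j = (V j k z (rep ι i k p), ι i j (res ι i k p))) := by
  by_cases h : has ι z j → ¬ABA ι i j k p
  · exact Or.inr ⟨h, up_V d h⟩
  · obtain rfl := d.eq_thd
    push Not at h
    obtain ⟨⟨w, h1⟩, a, b, a', h2⟩ := h
    have h : ∃ w : (Vx P X × P j) × X (thd j k) × X j × X (thd j k), dn ι z j = some w.1 ∧
      p = ι _ k w.2.1 * ι j k w.2.2.1 * ι _ k w.2.2.2 := ⟨(w, a, b, a'), h1, h2⟩
    exact Or.inl ⟨_, _, _, _, _, h.choose_spec.1, h.choose_spec.2, dif_pos h⟩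

theorem TT.ff {z : Vx P X} {j k : I} {p : P k} (hj : j ≠ k) (h : TT ι z k j p) :
    FF ι z k p := by
  intro i' j' d' hh
  obtain ⟨rfl, rfl⟩ | ⟨rfl, rfl⟩ := (dis_thd hj).two d'
  · rintro ⟨a, b, e⟩
    exact (h _ d').1 hh ⟨a, b, 1, by simpa using e⟩
  · exact (h _ d'.s12).2 hh

theorem TT.mul {z : Vx P X} {i j k : I} {p : P k} (d : Dis i j k) (h : TT ι z k j p)
    (x : X i) : TT ι z k j (p * ι i k x) := by
  intro i' d'
  obtain rfl := d.uniq d'
  refine ⟨fun hh ⟨a, b, a', e⟩ => (h _ d).1 hh ⟨a, b, a' * x⁻¹, ?_⟩,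
    fun hh ⟨a, b, e⟩ => (h _ d).2 hh ⟨a, b * x⁻¹, ?_⟩⟩ <;>
  rw [map_mul, map_inv, ← mul_assoc, ← e, mul_inv_cancel_right]

theorem lev_up_of {z : Vx P X} (h : ∀ j w, dn ι z j = some w → lev z = lev w.1 + 1) {j k : I}
    (hj : j ≠ k) (p : P k) : lev (up ι z k p j).1 = lev z + 1 := by
  obtain ⟨y, s, a, b, a', h1, -, h3⟩ | ⟨-, h3⟩ := up_cases (ι := ι) (dis_thd hj) z p <;> rw [h3]
  · rw [h _ _ h1]; rfl
  · rfl

theorem lev_dn (z : Vx P X) : ∀ j w, dn ι z j = some w → lev z = lev w.1 + 1 := by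
  induction z with
  | root => exact fun j w h => (has_root ⟨w, h⟩).elim
  | V j k z r _ =>
    intro m w h
    obtain rfl := has_V.1 ⟨w, h⟩
    rw [dn_V] at h
    cases h
    rfl
  | E k t r x ih =>
    intro j w h
    have hj := has_E.1 ⟨w, h⟩
    rw [dn_E hj] at h
    cases h
    rw [lev_up_of ih hj]
    rfl

theorem lev_up (z : Vx P X) {j k : I} (hj : j ≠ k) (p : P k) :
    lev (up ι z k p j).1 = lev z + 1 := lev_up_of (lev_dn z) hj p

theorem bb_up_of {z : Vx P X}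
    (h : ∀ j w, dn ι z j = some w → bb ι z = bb ι w.1 * of ι j w.2) {j k : I}
    (hj : j ≠ k) (p : P k) :
    bb ι (up ι z k p j).1 * of ι j (up ι z k p j).2 = bb ι z * of ι k p := by
  have d := dis_thd hj
  obtain ⟨y, s, a, b, a', h1, h2, h3⟩ | ⟨-, h3⟩ := up_cases (ι := ι) d z p <;> rw [h3]
  · rw [h _ _ h1, h2]
    simp only [bb, map_mul, of_ι d.1, of_ι d.2.1, of_ι hj, mul_assoc]
  · rw [bb, of_ι d.1, ← of_ι d.2.1, mul_assoc, ← map_mul, rep_res]

theorem bb_dn (z : Vx P X) : ∀ j w, dn ι z j = some w → bb ι z = bb ι w.1 * of ι j w.2 := by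
  induction z with
  | root => exact fun j w h => (has_root ⟨w, h⟩).elim
  | V j k z r _ =>
    intro m w h
    obtain rfl := has_V.1 ⟨w, h⟩
    rw [dn_V] at h
    cases h
    rfl
  | E k t r x ih =>
    intro j w h
    have hj := has_E.1 ⟨w, h⟩
    rw [dn_E hj] at h
    cases h
    rw [map_mul, ← mul_assoc, bb_up_of ih hj, of_ι hj.symm]
    rfl

theorem bb_up (z : Vx P X) {j k : I} (hj : j ≠ k) (p : P k) :
    bb ι (up ι z k p j).1 * of ι j (up ι z k p j).2 = bb ι z * of ι k p := bb_up_of (bb_dn z) hj p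

namespace NPC

variable (N : NPC ι)
include N

theorem inj {i k : I} (h : i ≠ k) : Function.Injective (ι i k) :=
  (injective_iff_map_eq_one _).2 fun a e =>
    (N.g2 _ _ _ (dis_thd h).s12 a 1 (e.trans (map_one _).symm)).1

theorem four {i j k : I} (d : Dis i j k) {a a' : X i} {b b' : X j}
    (h : ι i k a * ι j k b * ι i k a' * ι j k b' = 1) :
    (a = 1 ∧ a' = 1 ∧ b * b' = 1) ∨ (b = 1 ∧ b' = 1 ∧ a * a' = 1) := by
  by_cases h1 : a = 1
  · obtain ⟨e1, e2⟩ := N.g2 _ _ _ d a' (b⁻¹ * b'⁻¹) (by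
      rw [h1, map_one, one_mul] at h
      rw [map_mul, map_inv, map_inv, eq_inv_mul_iff_mul_eq, eq_inv_iff_mul_eq_one, h])
    exact Or.inl ⟨h1, e1, by rw [← mul_inv_rev, inv_eq_one] at e2; exact mul_eq_one_comm.1 e2⟩
  by_cases h2 : b = 1
  · obtain ⟨e1, e2⟩ := N.g2 _ _ _ d (a * a') b'⁻¹ (by
      rw [h2, map_one, mul_one] at h
      rw [map_mul, map_inv, eq_inv_iff_mul_eq_one, h])
    exact Or.inr ⟨h2, inv_eq_one.1 e2, e1⟩
  by_cases h3 : a' = 1
  · refine (h1 (N.g2 _ _ _ d a (b * b')⁻¹ ?_).1).elim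
    rw [h3, map_one, mul_one] at h
    rw [map_inv, map_mul, eq_inv_iff_mul_eq_one, ← mul_assoc, h]
  by_cases h4 : b' = 1
  · refine (h2 (N.g2 _ _ _ d (a⁻¹ * a'⁻¹) b ?_).2).elim
    rw [h4, map_one, mul_one] at h
    rw [map_mul, map_inv, map_inv, inv_mul_eq_iff_eq_mul, inv_eq_iff_mul_eq_one,
      mul_eq_one_comm, h]
  exact (N.g4 _ _ _ d _ _ _ _ h1 h2 h3 h4 h).elim

theorem up_E {i j k : I} (d : Dis i j k) {z y : Vx P X} {s : P j} (h : dn ι z j = some (y, s))
    (a a' : X i) {b : X j} (hb : b ≠ 1) :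
    up ι z k (ι i k a * ι j k b * ι i k a') j = (E j y (s * ι i j a) b, ι i j a') := by
  obtain ⟨y1, s1, c, e, c', h1, h2, h3⟩ | ⟨h1, -⟩ :=
    up_cases (ι := ι) d z (ι i k a * ι j k b * ι i k a')
  · rw [h] at h1
    cases h1
    obtain ⟨e1, e2, e3⟩ | ⟨e1, -⟩ := N.four d (a := c⁻¹ * a) (b := b) (a' := a' * c'⁻¹)
      (b' := e⁻¹) (by
        simp only [map_mul, map_inv]
        calc _ = (ι i k c)⁻¹ * (ι i k a * ι j k b * ι i k a') * (ι i k c')⁻¹ * (ι j k e)⁻¹ := by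
              group
          _ = 1 := by rw [h2]; group)
    · rw [h3, inv_mul_eq_one.1 e1, mul_inv_eq_one.1 e2, mul_inv_eq_one.1 e3]
    · exact (hb e1).elim
  · exact (h1 ⟨_, h⟩ ⟨_, _, _, rfl⟩).elim

end NPC

variable (ι) in
/-- Statement (D). -/
def DD (z : Vx P X) : Prop :=
  ∀ i j k, Dis i j k → ty z = k → ∀ y s, dn ι z j = some (y, s) → ∀ a : X i, (has ι z i → a ≠ 1) →
    Valid ι y ∧ ty y = j ∧ FF ι y j (s * ι i j a) ∧ up ι y j (s * ι i j a) k = (z, ι i k a)

variable (ι) in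
/-- Statement (U). -/
def UU (z : Vx P X) : Prop :=
  ∀ i j k, Dis i j k → ty z = k → ∀ p, FF ι z k p → ∃ u s, ∃ x : X i,
    up ι z k p j = (u, ι i j x) ∧ Valid ι u ∧ ty u = j ∧ dn ι u k = some (z, s) ∧
      p = s * ι i k x ∧ (has ι u i → x ≠ 1)

namespace NPC

variable (N : NPC ι)
include N

omit N in
theorem uu_of {z : Vx P X} (hz : Valid ι z) (h : DD ι z) : UU ι z := by
  intro i j k d hk p hp
  obtain ⟨y, s, a, b, a', h1, h2, h3⟩ | ⟨h1, h3⟩ := up_cases (ι := ι) d z p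
  · have hb : b ≠ 1 := fun e => hp _ _ d ⟨_, h1⟩ ⟨a * a', 1, by simp [h2, e]⟩
    have ha' : a' ≠ 1 := fun e => hp _ _ d ⟨_, h1⟩ ⟨a, b, by simp [h2, e]⟩
    obtain ⟨v1, v2, v3, v4⟩ := h i j k d hk y s h1 a fun hh e =>
      hp _ _ d.s12 hh ⟨b, a', by simp [h2, e]⟩
    exact ⟨_, _, a', h3, ⟨v1, v2, v3, hb⟩, rfl, by rw [dn_E d.2.2.symm, v4], h2, fun _ => ha'⟩
  · have ht : TT ι z k j p := fun i' d' => by
      obtain rfl := d.uniq d'
      exact ⟨h1, hp _ _ d.s12⟩
    have e : rep ι i k p = p * ι i k (res ι i k p)⁻¹ := by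
      rw [map_inv, eq_mul_inv_iff_mul_eq, rep_res]
    refine ⟨_, _, _, h3, ⟨hz, hk, d.2.2, ?_, ?_⟩, rfl, dn_V _ _ _ _, (rep_res ι i k p).symm,
      fun hh => (d.2.1 (has_V.1 hh).symm).elim⟩
    · rw [← d.eq_thd]
      nth_rw 1 [e]
      exact rep_mul ι i k p _
    · rw [e]
      exact ht.mul d _

theorem dd {z : Vx P X} (hz : Valid ι z) : DD ι z := by
  induction z with
  | root => exact fun i j k _ _ y s h => (has_root ⟨_, h⟩).elim
  | V k m y r _ =>
    rintro i j k' d hk y' s h a -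
    obtain rfl : k = k' := hk
    obtain rfl := has_V.1 ⟨_, h⟩
    rw [dn_V] at h
    cases h
    obtain ⟨v1, v2, v3, v4, v5⟩ := hz
    have t := v5.mul d.s23 a
    refine ⟨v1, v2, t.ff v3, ?_⟩
    rw [← d.s23.eq_thd] at v4
    have e := rep_res ι i m (r * ι i m a)
    rw [rep_mul, v4] at e
    rw [up_V d.s23 (t _ d.s23).1, rep_mul, v4, N.inj d.1 (mul_left_cancel e)]
  | E k t r x ih =>
    rintro i j k' d hk y s h a ha
    obtain rfl : k = k' := hk
    obtain ⟨v1, v2, v3, v4⟩ := hz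
    obtain ⟨u, s1, x1, h1, h2, h3, h4, h5, h6⟩ := uu_of v1 (ih v1) i j k d v2 r v3
    rw [dn_E d.2.2, h1] at h
    cases h
    replace ha := ha (has_E.2 d.2.1)
    refine ⟨h2, h3, fun i' j' d' hh => ?_, ?_⟩
    · obtain ⟨rfl, rfl⟩ | ⟨rfl, rfl⟩ := d.s23.two d' <;> rintro ⟨c, e, hc⟩
      · obtain ⟨-, e2, -⟩ | ⟨e1, -⟩ := N.four d' (a := c⁻¹ * x1) (b := x) (a' := a) (b' := e⁻¹) (by
          simp only [map_mul, map_inv]
          calc _ = (ι _ j c)⁻¹ * (ι _ j x1 * ι _ j x * ι _ j a) * (ι _ j e)⁻¹ := by group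
            _ = 1 := by rw [hc]; group)
        exacts [ha e2, v4 e1]
      · obtain ⟨e2, -⟩ | ⟨e1, -⟩ := N.four d'.s12 (a := x1) (b := x) (a' := a * e⁻¹) (b' := c⁻¹) (by
          simp only [map_mul, map_inv]
          calc _ = (ι _ j x1 * ι _ j x * ι _ j a) * (ι _ j e)⁻¹ * (ι _ j c)⁻¹ := by group
            _ = 1 := by rw [hc]; group)
        exacts [h6 hh e2, v4 e1]
    · rw [N.up_E d.s23 h4 _ _ v4, ← h5]

theorem uu {z : Vx P X} (hz : Valid ι z) : UU ι z := uu_of hz (N.dd hz)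

end NPC

variable (ι) in
/-- The chamber `(z, p)` with lowest vertex `z`, as a triple of flags. -/
noncomputable def cP (z : Vx P X) (k : I) (p : P k) (j : I) : Vx P X × P j :=
  if h : k = j then (z, h ▸ p) else up ι z k p j

variable (ι) in
/-- The chamber with highest vertex `w`, as a triple of flags. -/
noncomputable def cQ (w : Vx P X) (j : I) : Vx P X × P j := (dn ι w j).getD (w, 1)

theorem cP_self (z : Vx P X) (k : I) (p : P k) : cP ι z k p k = (z, p) := by simp [cP]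

theorem cP_ne (z : Vx P X) {j k : I} (h : j ≠ k) (p : P k) : cP ι z k p j = up ι z k p j :=
  dif_neg h.symm

theorem cQ_self (k : I) (t : Vx P X) (r : P k) (x : X k) :
    cQ ι (E k t r x) k = (E k t r x, 1) := by simp [cQ, dn]

theorem cQ_dn {w : Vx P X} {j : I} {y : Vx P X × P j} (h : dn ι w j = some y) :
    cQ ι w j = y := by simp [cQ, h]

variable (ι) in
/-- Chambers. -/
def IsCh (c : ∀ j, Vx P X × P j) : Prop :=
  (∃ z k p, Valid ι z ∧ ty z = k ∧ FF ι z k p ∧ c = cP ι z k p) ∨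
    ∃ k t r x, Valid ι (E k t r x) ∧ c = cQ ι (E k t r x)

variable (ι) in
/-- The relation between a flag of type `j` and its chamber. -/
def RR (j : I) (u : Vx P X) (q : P j) (c : ∀ j, Vx P X × P j) : Prop :=
  (FF ι u j q ∧ c = cP ι u j q) ∨ (q = 1 ∧ (∀ k, k ≠ j → has ι u k) ∧ c = cQ ι u) ∨
    ∃ i k t s a κ, Dis i k j ∧ dn ι u k = some (t, s) ∧ q = ι i j a * ι k j κ ∧
      (has ι u i → a ≠ 1) ∧ (κ = 1 → c = cP ι t k (s * ι i k a)) ∧
        (κ ≠ 1 → c = cQ ι (E k t (s * ι i k a) κ))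

theorem exists_E {u : Vx P X} {i k : I} (h : i ≠ k) (h1 : has ι u i) (h2 : has ι u k) :
    ∃ j t r x, u = E j t r x := by
  cases u with
  | root => exact (has_root h1).elim
  | V j m z r => exact (h ((has_V.1 h1).symm.trans (has_V.1 h2))).elim
  | E j t r x => exact ⟨_, _, _, _, rfl⟩

namespace NPC

variable (N : NPC ι)
include N

theorem rr_co {c : ∀ j, Vx P X × P j} (hc : IsCh ι c) (j : I) :
    Valid ι (c j).1 ∧ ty (c j).1 = j ∧ RR ι j (c j).1 (c j).2 c := by
  obtain ⟨z, k, p, v1, v2, v3, rfl⟩ | ⟨k, t, r, x, v, rfl⟩ := hc <;> by_cases hj : j = k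
  · subst hj
    rw [cP_self]
    exact ⟨v1, v2, Or.inl ⟨v3, rfl⟩⟩
  · have d := dis_thd hj
    obtain ⟨u, s, x, h1, h2, h3, h4, h5, h6⟩ := N.uu v1 _ j k d v2 p v3
    rw [cP_ne _ hj, h1]
    exact ⟨h2, h3, Or.inr (Or.inr ⟨_, k, z, s, x, 1, d.s23, h4, by simp, h6,
      fun _ => by rw [← h5], fun e => (e rfl).elim⟩)⟩
  · subst hj
    rw [cQ_self]
    exact ⟨v, rfl, Or.inr (Or.inl ⟨rfl, fun k hk => has_E.2 hk, rfl⟩)⟩
  · have d := dis_thd hj
    obtain ⟨u, s, y, h1, h2, h3, h4, h5, h6⟩ := N.uu v.1 _ j k d v.2.1 r v.2.2.1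
    rw [cQ_dn (dn_E hj t r x), h1]
    exact ⟨h2, h3, Or.inr (Or.inr ⟨_, k, t, s, y, x, d.s23, h4, rfl, h6,
      fun e => (v.2.2.2 e).elim, fun _ => by rw [← h5]⟩)⟩

theorem rr_unique {j : I} {u : Vx P X} {q : P j} {c c' : ∀ j, Vx P X × P j}
    (h : RR ι j u q c) (h' : RR ι j u q c') : c = c' := by
  have k1 : FF ι u j q → q = 1 → (∀ k, k ≠ j → has ι u k) → False := fun h1 h2 h3 =>
    have d : Dis (thd (nx j) j) (nx j) j := dis_thd (nx_ne j)
    h1 _ _ d (h3 _ d.2.2) ⟨1, 1, by simp [h2]⟩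
  have k2 : ∀ i k a κ, Dis i k j → q = ι i j a * ι k j κ → (has ι u i → a ≠ 1) → q = 1 →
      (∀ k, k ≠ j → has ι u k) → False := fun i k a κ d h1 h2 h3 h4 =>
    h2 (h4 _ d.2.1) (N.g2 _ _ _ d a κ⁻¹ (by
      rw [map_inv, eq_inv_iff_mul_eq_one, ← h1, h3])).1
  obtain ⟨h1, rfl⟩ | ⟨h1, h2, rfl⟩ | ⟨i, k, t, s, a, κ, d, h1, h2, h3, h4, h5⟩ := h <;>
    obtain ⟨g1, rfl⟩ | ⟨g1, g2, rfl⟩ | ⟨i', k', t', s', a', κ', d', g1, g2, g3, g4, g5⟩ := h'
  · rfl
  · exact (k1 h1 g1 g2).elim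
  · exact (h1 _ _ d' ⟨_, g1⟩ ⟨_, _, g2⟩).elim
  · exact (k1 g1 h1 h2).elim
  · rfl
  · exact (k2 _ _ _ _ d' g2 g3 h1 h2).elim
  · exact (g1 _ _ d ⟨_, h1⟩ ⟨_, _, h2⟩).elim
  · exact (k2 _ _ _ _ d h2 h3 g1 g2).elim
  · obtain ⟨rfl, rfl⟩ | ⟨rfl, rfl⟩ := d.two d'
    · rw [h1] at g1
      cases g1
      obtain ⟨e1, e2⟩ := N.g2 _ _ _ d (a'⁻¹ * a) (κ' * κ⁻¹) (by
        simp only [map_mul, map_inv]
        rw [inv_mul_eq_iff_eq_mul, ← mul_assoc, ← g2, h2, mul_inv_cancel_right])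
      obtain rfl := inv_mul_eq_one.1 e1
      obtain rfl := mul_inv_eq_one.1 e2
      by_cases e : κ' = 1
      exacts [(h4 e).trans (g4 e).symm, (h5 e).trans (g5 e).symm]
    · obtain ⟨e, -⟩ | ⟨-, e, -⟩ := N.four d (a := a) (b := κ) (a' := κ'⁻¹) (b' := a'⁻¹) (by
        simp only [map_inv]
        rw [← h2, g2]
        group)
      exacts [(h3 ⟨_, g1⟩ e).elim, (g3 ⟨_, h1⟩ (inv_eq_one.1 e)).elim]

theorem ch_ext {c c' : ∀ j, Vx P X × P j} (h : IsCh ι c) (h' : IsCh ι c') {j : I}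
    (e : c j = c' j) : c = c' :=
  N.rr_unique (N.rr_co h j).2.2 (e ▸ (N.rr_co h' j).2.2)

/-- The chambers on a vertical edge. -/
theorem vert {i j k : I} (d : Dis i j k) {u w : Vx P X} {s : P j} (v : Valid ι u)
    (hu : ty u = k) (h : dn ι u j = some (w, s)) (x : X i) :
    ∃ c, IsCh ι c ∧ c k = (u, ι i k x) ∧ c j = (w, s * ι i j x) := by
  by_cases e : has ι u i → x ≠ 1
  · obtain ⟨h1, h2, h3, h4⟩ := N.dd v i j k d hu w s h x e
    exact ⟨_, Or.inl ⟨_, _, _, h1, h2, h3, rfl⟩, by rw [cP_ne _ d.2.2.symm, h4], cP_self _ _ _⟩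
  · push Not at e
    obtain ⟨m, t, r, y, rfl⟩ := exists_E d.1 e.1 ⟨_, h⟩
    obtain rfl : m = k := hu
    exact ⟨_, Or.inr ⟨_, _, _, _, v, rfl⟩, by rw [cQ_self, e.2, map_one], by
      rw [cQ_dn h, e.2, map_one, mul_one]⟩

omit N in
/-- The chambers on a horizontal edge. -/
theorem hor {i : I} {t : Vx P X} {r : P i} (v : Valid ι t) (ht : ty t = i) (h : FF ι t i r)
    (x : X i) : ∃ c, IsCh ι c ∧ (x ≠ 1 → c i = (E i t r x, 1)) ∧
      ∀ j, j ≠ i → c j = ((up ι t i r j).1, (up ι t i r j).2 * ι i j x) := by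
  by_cases e : x = 1
  · exact ⟨_, Or.inl ⟨_, _, _, v, ht, h, rfl⟩, fun h => (h e).elim, fun j hj => by
      rw [cP_ne _ hj, e, map_one, mul_one]⟩
  · exact ⟨_, Or.inr ⟨_, _, _, _, ⟨v, ht, h, e⟩, rfl⟩, fun _ => cQ_self _ _ _ _, fun j hj =>
      cQ_dn (dn_E hj _ _ _)⟩

theorem ch_surj {j : I} {u : Vx P X} (v : Valid ι u) (hu : ty u = j) (q : P j) :
    ∃ c, IsCh ι c ∧ c j = (u, q) := by
  by_cases h : FF ι u j q
  · exact ⟨_, Or.inl ⟨_, _, _, v, hu, h, rfl⟩, cP_self _ _ _⟩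
  have key : ∀ i k, Dis i k j → has ι u k → ∀ a κ, (has ι u i → a ≠ 1) →
      ∃ c, IsCh ι c ∧ c j = (u, ι i j a * ι k j κ) := by
    rintro i k d ⟨⟨t, s⟩, h1⟩ a κ ha
    obtain ⟨h2, h3, h4, h5⟩ := N.dd v i k j d hu t s h1 a ha
    obtain ⟨c, c1, -, c2⟩ := hor h2 h3 h4 κ
    exact ⟨c, c1, by rw [c2 j d.2.2.symm, h5]⟩
  simp only [FF, not_forall, not_not] at h
  obtain ⟨i, k, d, h1, a, κ, rfl⟩ := h
  by_cases ha : has ι u i → a ≠ 1
  · exact key i k d h1 a κ ha
  · push Not at ha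
    obtain ⟨⟨⟨t, s⟩, h2⟩, rfl⟩ := ha
    obtain ⟨c, c1, c2, -⟩ := N.vert d.s12 v hu h2 κ
    exact ⟨c, c1, by rw [c2, map_one, one_mul]⟩

theorem panel {i j k : I} (d : Dis i j k) {c : ∀ j, Vx P X × P j} (hc : IsCh ι c) (x : X i) :
    ∃ c', IsCh ι c' ∧ c' j = ((c j).1, (c j).2 * ι i j x) ∧
      c' k = ((c k).1, (c k).2 * ι i k x) := by
  have key : ∀ j k, Dis i j k → ∀ u w s y, Valid ι u → ty u = k → dn ι u j = some (w, s) →
      c k = (u, ι i k y) → c j = (w, s * ι i j y) → ∃ c', IsCh ι c' ∧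
        c' j = ((c j).1, (c j).2 * ι i j x) ∧ c' k = ((c k).1, (c k).2 * ι i k x) := by
    intro j k d u w s y v hu h e1 e2
    obtain ⟨c', c1, c2, c3⟩ := N.vert d v hu h (y * x)
    exact ⟨c', c1, by rw [c3, e2, map_mul, mul_assoc], by rw [c2, e1, map_mul]⟩
  have sw : ∀ {A B C : (∀ j, Vx P X × P j) → Prop}, (∃ c, A c ∧ B c ∧ C c) →
    ∃ c, A c ∧ C c ∧ B c := fun ⟨c, h1, h2, h3⟩ => ⟨c, h1, h3, h2⟩
  obtain ⟨z, m, p, v1, v2, v3, rfl⟩ | ⟨m, t, r, y, v, rfl⟩ := hc
  · have k2 : ∀ k, Dis i m k → ∃ c', IsCh ι c' ∧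
        c' m = ((cP ι z m p m).1, (cP ι z m p m).2 * ι i m x) ∧
        c' k = ((cP ι z m p k).1, (cP ι z m p k).2 * ι i k x) := fun k d => by
      obtain ⟨u, s, y, h1, h2, h3, h4, h5, -⟩ := N.uu v1 i k m d.s23 v2 p v3
      exact key m k d u z s y h2 h3 h4 (by rw [cP_ne _ d.2.2.symm, h1]) (by rw [cP_self, h5])
    obtain rfl | rfl | rfl := d.cases m
    · obtain ⟨c', c1, -, c2⟩ := hor v1 v2 v3 x
      exact ⟨c', c1, by rw [c2 _ d.1.symm, cP_ne _ d.1.symm],
        by rw [c2 _ d.2.1.symm, cP_ne _ d.2.1.symm]⟩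
    · exact k2 _ d
    · exact sw (k2 _ d.s23)
  · have k2 : ∀ j, Dis i j m → ∃ c', IsCh ι c' ∧
        c' j = ((cQ ι (E m t r y) j).1, (cQ ι (E m t r y) j).2 * ι i j x) ∧
        c' m = ((cQ ι (E m t r y) m).1, (cQ ι (E m t r y) m).2 * ι i m x) := fun j d =>
      key j m d _ _ _ 1 v rfl (dn_E d.2.2 t r y) (by rw [cQ_self, map_one])
        (by rw [cQ_dn (dn_E d.2.2 t r y), map_one, mul_one])
    obtain rfl | rfl | rfl := d.cases m
    · obtain ⟨c', c1, -, c2⟩ := hor v.1 v.2.1 v.2.2.1 (y * x)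
      exact ⟨c', c1, by rw [c2 _ d.1.symm, cQ_dn (dn_E d.1.symm t r y), map_mul, mul_assoc],
        by rw [c2 _ d.2.1.symm, cQ_dn (dn_E d.2.1.symm t r y), map_mul, mul_assoc]⟩
    · exact sw (k2 _ d.s23)
    · exact k2 _ d

/-- Right multiplication of the coordinate of type `j`. -/
noncomputable def mv (j : I) (q : P j) (c : {c // IsCh ι c}) : {c // IsCh ι c} :=
  ⟨_, (N.ch_surj (N.rr_co c.2 j).1 (N.rr_co c.2 j).2.1 ((c.1 j).2 * q)).choose_spec.1⟩

theorem mv_co (j : I) (q : P j) (c : {c // IsCh ι c}) :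
    (N.mv j q c).1 j = ((c.1 j).1, (c.1 j).2 * q) :=
  (N.ch_surj (N.rr_co c.2 j).1 (N.rr_co c.2 j).2.1 ((c.1 j).2 * q)).choose_spec.2

theorem mv_one (j : I) (c : {c // IsCh ι c}) : N.mv j 1 c = c :=
  Subtype.ext (N.ch_ext (N.mv j 1 c).2 c.2 (j := j) (by rw [mv_co, mul_one]))

theorem mv_mul (j : I) (q q' : P j) (c : {c // IsCh ι c}) :
    N.mv j (q * q') c = N.mv j q' (N.mv j q c) :=
  Subtype.ext (N.ch_ext (N.mv j _ c).2 (N.mv j q' _).2 (j := j) (by
    rw [mv_co, mv_co, mv_co, mul_assoc]))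

/-- The right action of a vertex group on the chambers. -/
noncomputable def rho (j : I) : P j →* (Function.End {c // IsCh ι c})ᵐᵒᵖ where
  toFun q := MulOpposite.op (N.mv j q)
  map_one' := congrArg MulOpposite.op (funext (N.mv_one j))
  map_mul' q q' := congrArg MulOpposite.op (funext (N.mv_mul j q q'))

theorem rho_ι (i j k : I) (x : X i) (h1 : i ≠ j) (h2 : i ≠ k) :
    N.rho j (ι i j x) = N.rho k (ι i k x) := by
  by_cases h : j = k
  · subst h; rfl
  refine congrArg MulOpposite.op (funext fun c => Subtype.ext ?_)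
  obtain ⟨c', c1, c2, c3⟩ := N.panel ⟨h1, h2, h⟩ c.2 x
  rw [N.ch_ext (N.mv j _ c).2 c1 ((N.mv_co _ _ _).trans c2.symm),
    N.ch_ext (N.mv k _ c).2 c1 ((N.mv_co _ _ _).trans c3.symm)]

/-- The chamber of a group element. -/
noncomputable def orb (g : G ι) : {c // IsCh ι c} :=
  (lift N.rho N.rho_ι g).unop
    ⟨cP ι root .i0 1, Or.inl ⟨root, .i0, 1, trivial, rfl, fun _ _ _ h => (has_root h).elim, rfl⟩⟩

theorem orb_mul (g : G ι) (k : I) (p : P k) : N.orb (g * of ι k p) = N.mv k p (N.orb g) := by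
  rw [orb, map_mul, lift_of]
  rfl

/-- The vertex of type `k` of the chamber `g`. -/
noncomputable def vx (k : I) (g : G ι) : Vx P X := ((N.orb g).1 k).1

/-- The coordinate of the chamber `g` at its vertex of type `k`. -/
noncomputable def co (k : I) (g : G ι) : P k := ((N.orb g).1 k).2

theorem vx_valid (k : I) (g : G ι) : Valid ι (N.vx k g) := (N.rr_co (N.orb g).2 k).1

theorem ty_vx (k : I) (g : G ι) : ty (N.vx k g) = k := (N.rr_co (N.orb g).2 k).2.1

theorem vx_one : N.vx .i0 1 = root := by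
  rw [vx, orb, map_one]
  exact congrArg Prod.fst (cP_self (ι := ι) _ _ _)

theorem co_one : N.co .i0 1 = 1 := by
  rw [co, orb, map_one]
  exact congrArg Prod.snd (cP_self (ι := ι) _ _ _)

/-- (R0) -/
theorem vx_mul (k : I) (g : G ι) (p : P k) : N.vx k (g * of ι k p) = N.vx k g := by
  rw [vx, orb_mul, mv_co]
  rfl

/-- (R0) -/
theorem co_mul (k : I) (g : G ι) (p : P k) : N.co k (g * of ι k p) = N.co k g * p := by
  rw [co, orb_mul, mv_co]
  rfl

/-- (R1) -/
theorem r1 {i j k : I} (d : Dis i j k) {g : G ι} {y : Vx P X} {s : P j} {a : X i}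
    (h : dn ι (N.vx k g) j = some (y, s)) (ha : N.co k g = ι i k a) :
    N.vx j g = y ∧ N.co j g = s * ι i j a := by
  obtain ⟨c, c1, c2, c3⟩ := N.vert d (N.vx_valid k g) (N.ty_vx k g) h a
  rw [N.ch_ext c1 (N.orb g).2 (j := k) (by rw [c2, ← ha]; rfl)] at c3
  exact Prod.mk.inj c3

/-- The converse of (R1). -/
theorem r1' {i j k : I} (d : Dis i j k) {g : G ι} {u : Vx P X} {s : P j} {a : X i}
    (v : Valid ι u) (hu : ty u = k) (h : dn ι u j = some (N.vx j g, s))
    (ha : N.co j g = s * ι i j a) : N.vx k g = u ∧ N.co k g = ι i k a := by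
  obtain ⟨c, c1, c2, c3⟩ := N.vert d v hu h a
  rw [N.ch_ext c1 (N.orb g).2 (j := j) (by rw [c3, ← ha]; rfl)] at c2
  exact Prod.mk.inj c2

/-- (R2) -/
theorem r2 {j k : I} (hj : j ≠ k) {g : G ι} (h : FF ι (N.vx k g) k (N.co k g)) :
    (N.vx j g, N.co j g) = up ι (N.vx k g) k (N.co k g) j := by
  have e := N.ch_ext (N.orb g).2
    (Or.inl ⟨_, _, _, N.vx_valid k g, N.ty_vx k g, h, rfl⟩) (j := k) (cP_self _ _ _).symm
  rw [← cP_ne _ hj, ← e]
  rfl

/-- (R3) -/
theorem r3 {k : I} {g : G ι} (h : FF ι (N.vx k g) k (N.co k g)) {x : X k} (hx : x ≠ 1) :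
    N.vx k (g * ofX ι k x) = E k (N.vx k g) (N.co k g) x ∧ N.co k (g * ofX ι k x) = 1 := by
  have hj := nx_ne k
  obtain ⟨c, c1, c2, c3⟩ := hor (N.vx_valid k g) (N.ty_vx k g) h x
  have e := c2 hx
  rw [N.ch_ext c1 (N.orb (g * ofX ι k x)).2 (j := nx k) (by
    rw [c3 _ hj, ← N.r2 hj h, ← of_ι hj.symm, orb_mul, mv_co]
    rfl)] at e
  exact Prod.mk.inj e

theorem bb_ch {c : ∀ j, Vx P X × P j} (hc : IsCh ι c) (j k : I) :
    bb ι (c j).1 * of ι j (c j).2 = bb ι (c k).1 * of ι k (c k).2 := by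
  obtain ⟨z, m, p, -, -, -, rfl⟩ | ⟨m, t, r, x, -, rfl⟩ := hc
  · have : ∀ j, bb ι (cP ι z m p j).1 * of ι j (cP ι z m p j).2 = bb ι z * of ι m p := fun j => by
      by_cases h : j = m
      · subst h; rw [cP_self]
      · rw [cP_ne _ h, bb_up _ h]
    rw [this, this]
  · have : ∀ j, bb ι (cQ ι (E m t r x) j).1 * of ι j (cQ ι (E m t r x) j).2 = bb ι (E m t r x) :=
      fun j => by
        by_cases h : j = m
        · subst h; rw [cQ_self, map_one, mul_one]
        · rw [cQ_dn (dn_E h t r x), ← bb_dn _ _ _ (dn_E h t r x)]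
    rw [this, this]

/-- The normal form. -/
theorem bb_vx (k : I) (g : G ι) : bb ι (N.vx k g) * of ι k (N.co k g) = g := by
  induction g using G_ind generalizing k with
  | h1 =>
    refine (N.bb_ch (N.orb 1).2 k .i0).trans ?_
    change bb ι (N.vx .i0 1) * of ι .i0 (N.co .i0 1) = 1
    rw [vx_one, co_one, map_one, mul_one]
    rfl
  | hm g m p ih =>
    refine (N.bb_ch (N.orb _).2 k m).trans ?_
    change bb ι (N.vx m _) * of ι m (N.co m _) = _
    rw [vx_mul, co_mul, map_mul, ← mul_assoc, ih]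

theorem ext {k : I} {g g' : G ι} (h1 : N.vx k g = N.vx k g') (h2 : N.co k g = N.co k g') :
    g = g' := by
  rw [← N.bb_vx k g, h1, h2, bb_vx]

/-- Every valid term is the vertex of the chamber `bb z`, with trivial coordinate. -/
theorem vx_bb {z : Vx P X} (v : Valid ι z) {k : I} (hk : ty z = k) :
    N.vx k (bb ι z) = z ∧ N.co k (bb ι z) = 1 := by
  induction z generalizing k with
  | root =>
    obtain rfl : I.i0 = k := hk
    exact ⟨N.vx_one, N.co_one⟩
  | V j m y r ih =>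
    obtain rfl : j = k := hk
    obtain ⟨h1, h2⟩ := ih v.1 v.2.1
    have d := (dis_thd v.2.2.1).s23
    have h := N.r1' d (g := bb ι y * of ι m r) (s := r) (a := 1) v rfl
      (by rw [vx_mul, h1, dn_V]) (by rw [co_mul, h2, map_one, one_mul, mul_one])
    rwa [map_one] at h
  | E m t r x ih =>
    obtain rfl : m = k := hk
    obtain ⟨h1, h2⟩ := ih v.1 v.2.1
    have e1 : N.vx m (bb ι t * of ι m r) = t := by rw [vx_mul, h1]
    have e2 : N.co m (bb ι t * of ι m r) = r := by rw [co_mul, h2, one_mul]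
    have h := N.r3 (g := bb ι t * of ι m r) (by rw [e1, e2]; exact v.2.2.1) v.2.2.2
    rwa [e1, e2] at h

theorem of_inj (k : I) : Function.Injective (of ι k) := fun p q h => by
  have e := congrArg (fun g => N.co k (1 * g)) h
  simpa only [co_mul, mul_right_inj] using e

theorem vx_eq_iff {k : I} {g g' : G ι} : N.vx k g = N.vx k g' ↔ ∃ p, g' = g * of ι k p := by
  refine ⟨fun h => ⟨(N.co k g)⁻¹ * N.co k g', N.ext (k := k) ?_ ?_⟩, ?_⟩
  · rw [vx_mul, h]
  · rw [co_mul, mul_inv_cancel_left]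
  · rintro ⟨p, rfl⟩
    exact (N.vx_mul _ _ _).symm

end NPC

end Pool.Agent.MP_434e52_an.Dev

end

section

/-! The level function of the development. -/

set_option autoImplicit false
set_option linter.unusedSectionVars false

namespace Pool.Agent.MP_434e52_an.Dev

open Vx

variable {P X : I → Type} [∀ k, Group (P k)] [∀ i, Group (X i)] {ι : ∀ i k, X i →* P k}

namespace NPC

variable (N : NPC ι)
include N

theorem ofX_inj (i : I) : Function.Injective (ofX ι i) :=
  (N.of_inj (nx i)).comp (N.inj (nx_ne i).symm)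

theorem vx_mulX {i k : I} (h : i ≠ k) (g : G ι) (x : X i) : N.vx k (g * ofX ι i x) = N.vx k g := by
  rw [← of_ι h, vx_mul]

theorem co_mulX {i k : I} (h : i ≠ k) (g : G ι) (x : X i) :
    N.co k (g * ofX ι i x) = N.co k g * ι i k x := by
  rw [← of_ι h, co_mul]

/-- Every chamber lies on the horizontal edge of a chamber with a lowest vertex. -/
theorem cham (g : G ι) : ∃ k g0 x, FF ι (N.vx k g0) k (N.co k g0) ∧ g = g0 * ofX ι k x := by
  obtain ⟨z, k, p, -, -, h, e⟩ | ⟨k, t, r, x, v, e⟩ := (N.orb g).2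
  · refine ⟨k, g, 1, ?_, by simp⟩
    rwa [vx, co, e, cP_self]
  · obtain ⟨h1, h2⟩ := N.vx_bb v.1 v.2.1
    have e1 : N.vx k (bb ι t * of ι k r) = t := by rw [vx_mul, h1]
    have e2 : N.co k (bb ι t * of ι k r) = r := by rw [co_mul, h2, one_mul]
    refine ⟨k, bb ι t * of ι k r, x, by rw [e1, e2]; exact v.2.2.1, ?_⟩
    have := N.bb_vx k g
    rw [vx, co, e, cQ_self, map_one, mul_one] at this
    exact this.symm

theorem lev_r2 {j k : I} (hj : j ≠ k) {g : G ι} (h : FF ι (N.vx k g) k (N.co k g)) :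
    lev (N.vx j g) = lev (N.vx k g) + 1 :=
  (congrArg (fun w => lev w.1) (N.r2 hj h)).trans (lev_up _ hj _)

theorem low_iff {i j k : I} (d : Dis i j k) (g : G ι) :
    lev (N.vx j g) + 1 = lev (N.vx k g) ↔ has ι (N.vx k g) j ∧ ∃ a, N.co k g = ι i k a := by
  refine ⟨fun h => ?_, fun ⟨⟨⟨y, s⟩, h⟩, a, ha⟩ => by rw [(N.r1 d h ha).1, lev_dn _ _ _ h]⟩
  obtain ⟨m, g0, x, h1, rfl⟩ := N.cham g
  obtain rfl | rfl | rfl := d.cases m
  · rw [N.vx_mulX d.1, N.vx_mulX d.2.1, N.lev_r2 d.1.symm h1, N.lev_r2 d.2.1.symm h1] at h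
    omega
  · by_cases e : x = 1
    · rw [e, map_one, mul_one]
      obtain ⟨u, s, y, h2, -, -, h3, -⟩ := N.uu (N.vx_valid m g0) i k m d.s23 (N.ty_vx _ _) _ h1
      obtain ⟨e1, e2⟩ := Prod.mk.inj ((N.r2 d.2.2.symm h1).trans h2)
      exact ⟨e1 ▸ ⟨_, h3⟩, y, e2⟩
    · rw [(N.r3 h1 e).1, N.vx_mulX d.2.2, N.lev_r2 d.2.2.symm h1, lev] at h
      omega
  · by_cases e : x = 1
    · rw [e, map_one, mul_one, N.lev_r2 d.2.2 h1] at h
      omega
    · rw [(N.r3 h1 e).1, (N.r3 h1 e).2]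
      exact ⟨has_E.2 d.2.2, 1, (map_one _).symm⟩

theorem low_of_has {j k : I} (hj : j ≠ k) {g : G ι} (h : has ι (N.vx k g) j) :
    lev (N.vx j (g * of ι k (N.co k g)⁻¹)) + 1 = lev (N.vx k g) := by
  rw [← N.vx_mul k g (N.co k g)⁻¹, N.low_iff (dis_thd hj), vx_mul, co_mul]
  exact ⟨h, 1, by simp⟩

theorem vx_root {k : I} {g : G ι} : N.vx k g = root ↔ k = .i0 ∧ g ∈ (of ι .i0).range := by
  constructor
  · intro h
    obtain rfl : I.i0 = k := (congrArg ty h).symm.trans (N.ty_vx k g)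
    exact ⟨rfl, N.co _ g, by simpa [h, bb] using N.bb_vx .i0 g⟩
  · rintro ⟨rfl, p, rfl⟩
    rw [← one_mul (of ι _ p), vx_mul, vx_one]

omit N in
theorem has_of_ne {z : Vx P X} (v : Valid ι z) (h : z ≠ root) : ∃ j, j ≠ ty z ∧ has ι z j := by
  cases z with
  | root => exact (h rfl).elim
  | V j k z r => exact ⟨k, v.2.2.1.symm, has_V.2 rfl⟩
  | E k t r x => exact ⟨nx k, nx_ne k, has_E.2 (nx_ne k)⟩

omit N in
theorem lev_zero {z : Vx P X} : lev z = 0 ↔ z = root := by cases z <;> simp [lev]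

/-- The level function of the development. -/
noncomputable def lv : Lv (G ι) where
  P k := (of ι k).range
  X i := (ofX ι i).range
  ℓ k g := lev (N.vx k g)
  le h := by rintro _ ⟨x, rfl⟩; exact ⟨_, of_ι h x⟩
  disj {i j} h := by
    rintro _ ⟨x, rfl⟩ ⟨y, e⟩
    have d := (dis_thd h).s13
    rw [← of_ι d.2.1, ← of_ι d.2.2] at e
    rw [(N.g2 _ _ _ d y x (N.of_inj _ e)).2, map_one]
  inv := by rintro k g _ ⟨p, rfl⟩; rw [vx_mul]
  zero k g := lev_zero.trans N.vx_root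
  panel g := by
    obtain ⟨k, g0, x, h, rfl⟩ := N.cham g
    obtain ⟨i, j, d⟩ := exists_dis k
    refine ⟨i, j, k, lev (N.vx k g0), d, by rw [N.vx_mulX d.2.1.symm, N.lev_r2 d.2.1 h],
      by rw [N.vx_mulX d.2.2.symm, N.lev_r2 d.2.2 h], _, ⟨x⁻¹, rfl⟩, by simp, ?_⟩
    rintro _ ⟨y, rfl⟩ e
    rw [mul_assoc, ← map_mul, (N.r3 h fun e' => e (by rw [eq_inv_of_mul_eq_one_right e'])).1]
    rfl
  down k g h := by
    obtain ⟨j, h1, h2⟩ := has_of_ne (N.vx_valid k g) fun e => h (lev_zero.2 e)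
    rw [ty_vx] at h1
    exact ⟨j, h1, _, ⟨_, rfl⟩, N.low_of_has h1 h2⟩
  uniq {i j k} d g h := by
    rintro _ ⟨p, rfl⟩ h'
    rw [← N.vx_mul k g p] at h'
    obtain ⟨-, a, ha⟩ := (N.low_iff d _).1 h
    obtain ⟨-, b, hb⟩ := (N.low_iff d _).1 h'
    refine ⟨a⁻¹ * b, ?_⟩
    rw [← of_ι d.2.1, map_mul, map_inv, ← ha, ← hb, co_mul, inv_mul_cancel_left]
  both {i j k} d g h := by
    rintro _ ⟨p, rfl⟩ h'
    rw [← N.vx_mul k g p] at h'
    obtain ⟨-, a, ha⟩ := (N.low_iff d _).1 h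
    have := N.low_of_has d.2.1 (N.vx_mul k g p ▸ ((N.low_iff d.s12 _).1 h').1)
    rw [ha, ← map_inv, of_ι d.2.1] at this
    exact ⟨_, ⟨_, rfl⟩, this⟩

theorem lv_two {k : I} {g : G ι} : N.lv.Two k g ↔ ∀ j, j ≠ k → has ι (N.vx k g) j := by
  refine forall₂_congr fun j hj => ⟨?_, fun h => ⟨_, ⟨_, rfl⟩, N.low_of_has hj h⟩⟩
  rintro ⟨_, ⟨p, rfl⟩, h⟩
  rw [← N.vx_mul k g p]
  exact ((N.low_iff (dis_thd hj) _).1 (h.trans (congrArg lev (N.vx_mul k g p).symm))).1

theorem lv_thin (g6 : ∀ {j k}, Dis .i0 j k → Gi6 (ι .i0 k) (ι j k)) : N.lv.Thin := by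
  rintro j g hij h ⟨h1, h2⟩
  replace hij := hij.symm
  generalize I.i0 = i at g6 hij h h1
  change lev (N.vx i g) = lev (N.vx j g) at h
  rw [lv_two] at h1 h2
  obtain ⟨k, g0, x, hf, rfl⟩ := N.cham g
  have k1 : ∀ j, j ≠ k → lev (N.vx k (g0 * ofX ι k x)) ≠ lev (N.vx j (g0 * ofX ι k x)) :=
    fun j hj => by
      rw [N.vx_mulX hj.symm, N.lev_r2 hj hf]
      by_cases e : x = 1
      · simp [e]
      · simp [(N.r3 hf e).1, lev]
  have d : Dis i j k := ⟨hij, fun e => by subst e; exact k1 j hij.symm h,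
    fun e => by subst e; exact k1 i hij h.symm⟩
  have k2 : ∀ i j, Dis i j k → (∀ l, l ≠ j → has ι (N.vx j (g0 * ofX ι k x)) l) →
      has ι (N.vx k g0) j ∧ ABA ι i j k (N.co k g0) := fun i j d h => by
    obtain ⟨y, s, a, b, a', e1, e2, -⟩ | ⟨-, e⟩ := up_cases (ι := ι) d (N.vx k g0) (N.co k g0)
    · exact ⟨⟨_, e1⟩, a, b, a', e2⟩
    · have := h i d.1
      rw [N.vx_mulX d.2.2.symm, (Prod.mk.inj ((N.r2 d.2.2 hf).trans e)).1] at this
      exact (d.2.1 (has_V.1 this).symm).elim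
  obtain ⟨a1, a, b, a', e⟩ := k2 i j d h2
  obtain ⟨a2, c, f, c', e'⟩ := k2 j i d.s12 h1
  have n1 := hf _ _ d a1
  have n2 := hf _ _ d.s12 a2
  obtain h | h | h | h | h | h := g6 d a b a' c'⁻¹ f⁻¹ c⁻¹ (by
    simp only [map_inv]
    rw [← e, e']
    group)
  · exact n2 ⟨b, a', by simp [e, h]⟩
  · exact n1 ⟨a * a', 1, by simp [e, h]⟩
  · exact n1 ⟨a, b, by simp [e, h]⟩
  · exact n2 ⟨c, f, by simp [e', inv_eq_one.1 h]⟩
  · exact n2 ⟨c * c', 1, by simp [e', inv_eq_one.1 h]⟩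
  · exact n1 ⟨f, c', by simp [e', inv_eq_one.1 h]⟩

end NPC

end Pool.Agent.MP_434e52_an.Dev

theorem Pool.Agent.MP_434e52_an.Tri.exists_lv (T : Tri) : ∃ L : Lv (Dev.G T.ι),
    (∀ k, L.P k = (Dev.of T.ι k).range) ∧
    ((∀ j k, Dis .i0 j k → Gi6 (T.ι .i0 k) (T.ι j k)) → L.Thin) :=
  ⟨T.npc.lv, fun _ => rfl, fun h => T.npc.lv_thin (h _ _)⟩

end

section

/-! The two steps that build a term on top of a chamber. -/

set_option autoImplicit false
set_option linter.unusedSectionVars false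

namespace Pool.Agent.MP_434e52_an.Dev

open Vx

variable {P X : I → Type} [∀ k, Group (P k)] [∀ i, Group (X i)] {ι : ∀ i k, X i →* P k}

variable (ι) in
/-- The chamber `(z, c)` contains all the lower neighbours of `z`. -/
def YY (z : Vx P X) (k : I) (c : P k) : Prop :=
  ∀ i j, Dis i j k → has ι z j → ∃ a, c = ι i k a

theorem YY.one {z : Vx P X} {k : I} : YY ι z k 1 := fun _ _ _ _ => ⟨1, (map_one _).symm⟩

theorem YY.root {k : I} {c : P k} : YY ι root k c := fun _ _ _ h => (has_root h).elim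

theorem AB.mul {i j k : I} {p : P k} (a : X i) (h : AB ι i j k (ι i k a * p)) : AB ι i j k p :=
  let ⟨b, c, e⟩ := h
  ⟨a⁻¹ * b, c, by rw [map_mul, map_inv, mul_assoc, ← e, inv_mul_cancel_left]⟩

theorem YY.ff {z : Vx P X} {k : I} {c p : P k} (h : YY ι z k c) (hp : FF ι z k p) :
    FF ι z k (c * p) := fun i j d hh e => by
  obtain ⟨a, rfl⟩ := h i j d hh
  exact hp i j d hh (e.mul a)

theorem YY.tt {z : Vx P X} {k j : I} {c p : P k} (h : YY ι z k c) (hp : TT ι z k j p) :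
    TT ι z k j (c * p) := fun i d => by
  refine ⟨fun hh ⟨b, e, b', e'⟩ => ?_, fun hh e => ?_⟩
  · obtain ⟨a, rfl⟩ := h i j d hh
    exact (hp i d).1 hh ⟨a⁻¹ * b, e, b', by
      rw [map_mul, map_inv, mul_assoc, mul_assoc, ← mul_assoc (ι i k b), ← e', inv_mul_cancel_left]⟩
  · obtain ⟨a, rfl⟩ := h j i d.s12 hh
    exact (hp i d).2 hh (e.mul a)

namespace NPC

variable (N : NPC ι)

/-- The chamber `g` contains all the lower neighbours of its vertex of type `k`. -/
def Gd (k : I) (g : G ι) : Prop := YY ι (N.vx k g) k (N.co k g)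

/-- (S1), in terms of the coordinate of the new chamber. -/
theorem s1' {j k : I} (hj : j ≠ k) {g : G ι} (h : TT ι (N.vx k g) k j (N.co k g)) :
    (∃ r, N.vx j g = V j k (N.vx k g) r) ∧ N.Gd j g := by
  have d := dis_thd hj
  obtain ⟨e1, e2⟩ := Prod.mk.inj ((N.r2 hj (h.ff hj)).trans (up_V d (h _ d).1))
  refine ⟨⟨_, e1⟩, fun i l d' hh => ?_⟩
  rw [e1] at hh
  obtain rfl := has_V.1 hh
  obtain rfl := d'.uniq d.s23
  exact ⟨_, e2⟩

/-- (S1) -/
theorem s1 {j k : I} (hj : j ≠ k) {g : G ι} (hg : N.Gd k g) {r : P k}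
    (h : TT ι (N.vx k g) k j r) :
    (∃ r', N.vx j (g * of ι k r) = V j k (N.vx k g) r') ∧ N.Gd j (g * of ι k r) := by
  have := N.s1' hj (g := g * of ι k r) (by rw [vx_mul, co_mul]; exact YY.tt hg h)
  rwa [vx_mul] at this

/-- (S2), in terms of the coordinate of the low chamber. -/
theorem s2' {k : I} {g : G ι} (h : FF ι (N.vx k g) k (N.co k g)) {x : X k} (hx : x ≠ 1) :
    (∃ r, N.vx k (g * ofX ι k x) = E k (N.vx k g) r x) ∧ N.Gd k (g * ofX ι k x) :=
  ⟨⟨_, (N.r3 h hx).1⟩, by rw [Gd, (N.r3 h hx).2]; exact YY.one⟩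

/-- (S2) -/
theorem s2 {k : I} {g : G ι} (hg : N.Gd k g) {r : P k} (h : FF ι (N.vx k g) k r) {x : X k}
    (hx : x ≠ 1) : (∃ r', N.vx k (g * of ι k r * ofX ι k x) = E k (N.vx k g) r' x) ∧
      N.Gd k (g * of ι k r * ofX ι k x) := by
  have := N.s2' (g := g * of ι k r) (by rw [vx_mul, co_mul]; exact YY.ff hg h) hx
  rwa [vx_mul] at this

end NPC

end Pool.Agent.MP_434e52_an.Dev

end

section

/-!
Free subgroups in normal subgroups (section 5).
-/

set_option autoImplicit false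

namespace Pool.Agent.MP_434e52_an.Dev

open Vx

theorem free_of_steps {H : Type} [Group H] (φ : H → ℕ) (Ok : H → Fin 2 × Bool → Prop)
    (n : Bool → Fin 2 × Bool → H) (hn : ∀ a, n false a = (n true a)⁻¹) (h1 : ∀ a, Ok 1 a)
    (st : ∀ w a e, Ok w a → φ w < φ (w * n e a) ∧ ∀ b, b ≠ a → Ok (w * n e a) b) :
    Function.Injective (FreeGroup.lift fun i => n true (i, true) * n true (i, false)) := by
  set f : Fin 2 → H := fun i => n true (i, true) * n true (i, false) with hf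
  have e : ∀ a : Fin 2 × Bool, cond a.2 (f a.1) (f a.1)⁻¹ = n a.2 a * n a.2 (a.1, !a.2) := by
    rintro ⟨i, _ | _⟩
    · simp [hf, hn]
    · simp [hf]
  have key : ∀ (L : List (Fin 2 × Bool)) (a : Fin 2 × Bool) (w : H), FreeGroup.IsReduced (a :: L) →
      Ok w a → φ w < φ (w * ((a :: L).map fun x => cond x.2 (f x.1) (f x.1)⁻¹).prod) := by
    intro L
    have two : ∀ a w, Ok w a → φ w < φ (w * cond a.2 (f a.1) (f a.1)⁻¹) ∧
        ∀ b, b ≠ (a.1, !a.2) → Ok (w * cond a.2 (f a.1) (f a.1)⁻¹) b := fun a w h => by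
      obtain ⟨s1, s2⟩ := st w a a.2 h
      obtain ⟨s3, s4⟩ := st _ (a.1, !a.2) a.2 (s2 _ fun h => by simpa using congrArg Prod.snd h)
      rw [e, ← mul_assoc]
      exact ⟨s1.trans s3, s4⟩
    induction L with
    | nil => exact fun a w _ h => by simpa using (two a w h).1
    | cons b L ih =>
      intro a w r h
      rw [FreeGroup.isReduced_cons_cons] at r
      rw [List.map_cons, List.prod_cons, ← mul_assoc]
      refine (two a w h).1.trans (ih b _ r.2 ((two a w h).2 b ?_))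
      rintro rfl
      simpa using r.1 rfl
  refine (injective_iff_map_eq_one _).2 fun x hx => ?_
  rw [← FreeGroup.toWord_eq_nil_iff]
  have r := FreeGroup.isReduced_toWord (x := x)
  rw [← FreeGroup.mk_toWord (x := x), FreeGroup.lift_mk] at hx
  cases hL : x.toWord with
  | nil => rfl
  | cons a L =>
    rw [hL] at r hx
    have := key L a 1 r (h1 a)
    rw [hx, mul_one] at this
    exact (lt_irrefl _ this).elim

theorem exists_four {H : Type} [Group H] (D W : Finset H) (h : 6 * D.card < W.card) :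
    ∃ s : Fin 2 × Bool → H, ∀ a b, a ≠ b → (s a)⁻¹ * s b ∉ D := by
  classical
  have k : ∀ a b c : H, ∃ d, ∀ u, u = a ∨ u = b ∨ u = c → u⁻¹ * d ∉ D ∧ d⁻¹ * u ∉ D := by
    intro a b c
    let B : H → Finset H := fun u => D.image (fun t => u * t) ∪ D.image fun t => u * t⁻¹
    have hB : ∀ u, (B u).card ≤ 2 * D.card := fun u =>
      (Finset.card_union_le _ _).trans (by
        have := Finset.card_image_le (s := D) (f := fun t => u * t)
        have := Finset.card_image_le (s := D) (f := fun t => u * t⁻¹)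
        omega)
    obtain ⟨d, -, hd⟩ := Finset.exists_mem_notMem_of_card_lt_card (s := B a ∪ B b ∪ B c) (t := W) (by
      have := Finset.card_union_le (B a ∪ B b) (B c)
      have := Finset.card_union_le (B a) (B b)
      have := hB a
      have := hB b
      have := hB c
      omega)
    refine ⟨d, fun u hu => ?_⟩
    have hu' : d ∉ B u := fun m => hd (by rcases hu with rfl | rfl | rfl <;> simp [m])
    exact ⟨fun m => hu' (Finset.mem_union_left _ (Finset.mem_image.2 ⟨_, m, by group⟩)),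
      fun m => hu' (Finset.mem_union_right _ (Finset.mem_image.2 ⟨_, m, by group⟩))⟩
  obtain ⟨b, hb⟩ := k 1 1 1
  obtain ⟨c, hc⟩ := k 1 b b
  obtain ⟨d, hd⟩ := k 1 b c
  have b1 := hb 1 (Or.inl rfl)
  have c1 := hc 1 (Or.inl rfl)
  have c2 := hc b (Or.inr (Or.inl rfl))
  have d1 := hd 1 (Or.inl rfl)
  have d2 := hd b (Or.inr (Or.inl rfl))
  have d3 := hd c (Or.inr (Or.inr rfl))
  refine ⟨fun a => ![cond a.2 1 b, cond a.2 c d] a.1, ?_⟩
  rintro ⟨i, _ | _⟩ ⟨j, _ | _⟩ hne <;> fin_cases i <;> fin_cases j <;>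
    first
    | exact (hne rfl).elim
    | exact b1.1 | exact b1.2 | exact c1.1 | exact c1.2 | exact c2.1 | exact c2.2
    | exact d1.1 | exact d1.2 | exact d2.1 | exact d2.2 | exact d3.1 | exact d3.2

variable {P X : I → Type} [∀ k, Group (P k)] [∀ i, Group (X i)]

/-- A letter read in `P 0`. -/
def p0 : ∀ k, P k → P .i0
  | .i0, r => r
  | _, _ => 1

/-- The first letter of a term. -/
def fl : Vx P X → P .i0
  | root => 1
  | V _ k y r => if lev y = 0 then p0 k r else fl y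
  | E k y r _ => if lev y = 0 then p0 k r else fl y

omit [∀ k, Group (P k)] [∀ i, Group (X i)] in
theorem eq_root {z : Vx P X} (h : lev z = 0) : z = root := by
  cases z <;> first | rfl | simp [lev] at h

variable {ι : ∀ i k, X i →* P k}

variable (ι) in
/-- The letters which do not change the sets `FF` and `TT`. -/
def Yq (u : Vx P X) (k : I) (q : P k) : Prop :=
  ∃ i j a, Dis i j k ∧ q = ι i k a ∧ (has ι u i → a = 1)

theorem Yq.tt {u : Vx P X} {j k : I} {q r : P k} (h : Yq ι u k q) (t : TT ι u k j r) :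
    TT ι u k j (q * r) := by
  obtain ⟨i, l, a, d, rfl, ha⟩ := h
  by_cases hi : has ι u i
  · rwa [ha hi, map_one, one_mul]
  intro i' d'
  obtain ⟨rfl, rfl⟩ | ⟨rfl, rfl⟩ := d.two d'
  · refine ⟨fun hh ⟨x, y, z, e⟩ => (t _ d').1 hh ⟨a⁻¹ * x, y, z, ?_⟩, fun hh => (hi hh).elim⟩
    rw [map_mul, map_inv, mul_assoc, mul_assoc, ← mul_assoc (ι _ _ x), ← e, inv_mul_cancel_left]
  · refine ⟨fun hh => (hi hh).elim, fun hh ⟨x, y, e⟩ => (t _ d').2 hh ⟨a⁻¹ * x, y, ?_⟩⟩
    rw [map_mul, map_inv, mul_assoc, ← e, inv_mul_cancel_left]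

theorem Yq.ff {u : Vx P X} {k : I} {q r : P k} (h : Yq ι u k q) (t : FF ι u k r) :
    FF ι u k (q * r) := by
  obtain ⟨i, l, a, d, rfl, ha⟩ := h
  by_cases hi : has ι u i
  · rwa [ha hi, map_one, one_mul]
  intro i' j' d' hh
  obtain ⟨rfl, rfl⟩ | ⟨rfl, rfl⟩ := d.two d'
  · rintro ⟨x, y, e⟩
    refine t _ _ d' hh ⟨a⁻¹ * x, y, ?_⟩
    rw [map_mul, map_inv, mul_assoc, ← e, inv_mul_cancel_left]
  · exact (hi hh).elim

namespace NPC

variable (N : NPC ι)
include N

/-- Statement (C). -/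
theorem cc (g : G ι) {z : Vx P X} (v : Valid ι z) {k : I} (hk : ty z = k) (hz : lev z ≠ 0)
    (h : ∀ j, j ≠ .i0 → TT ι (N.vx .i0 g) .i0 j (N.co .i0 g * fl z)) :
    lev (N.vx k (g * bb ι z)) = lev (N.vx .i0 g) + lev z ∧
      (∀ l, has ι (N.vx k (g * bb ι z)) l ↔ has ι z l) ∧
      Yq ι (N.vx k (g * bb ι z)) k (N.co k (g * bb ι z)) := by
  induction z generalizing k with
  | root => exact (hz rfl).elim
  | V j m y r ih =>
    obtain rfl : j = k := hk
    have hj : j ≠ m := v.2.2.1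
    have d := dis_thd hj
    have s : lev (N.vx m (g * bb ι y)) = lev (N.vx .i0 g) + lev y ∧
        TT ι (N.vx m (g * bb ι y)) m j (N.co m (g * bb ι y) * r) := by
      by_cases hy : lev y = 0
      · obtain rfl := eq_root hy
        obtain rfl : I.i0 = m := v.2.1
        simpa [bb, lev, fl, p0] using h j hj
      · obtain ⟨s1, s2, s3⟩ := ih v.1 v.2.1 hy (by simpa only [fl, if_neg hy] using h)
        exact ⟨s1, s3.tt fun i di => by simpa only [s2] using v.2.2.2.2 i di⟩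
    have e := N.r2 hj (g := g * bb ι y * of ι m r) (by rw [vx_mul, co_mul]; exact s.2.ff hj)
    rw [vx_mul, co_mul, up_V d (s.2 _ d).1] at e
    obtain ⟨e1, e2⟩ := Prod.mk.inj e
    rw [bb, ← mul_assoc, e1, e2]
    exact ⟨by rw [lev, lev, s.1, add_assoc], fun l => by rw [has_V, has_V],
      _, _, _, d.s23, rfl, fun hh => (d.2.1 (has_V.1 hh).symm).elim⟩
  | E m y r x ih =>
    obtain rfl : m = k := hk
    have s : lev (N.vx m (g * bb ι y)) = lev (N.vx .i0 g) + lev y ∧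
        FF ι (N.vx m (g * bb ι y)) m (N.co m (g * bb ι y) * r) := by
      by_cases hy : lev y = 0
      · obtain rfl := eq_root hy
        obtain rfl : I.i0 = m := v.2.1
        simpa [bb, lev, fl, p0] using (h .i1 (by decide)).ff (by decide)
      · obtain ⟨s1, s2, s3⟩ := ih v.1 v.2.1 hy (by simpa only [fl, if_neg hy] using h)
        exact ⟨s1, s3.ff fun i j di => by simpa only [s2] using v.2.2.1 i j di⟩
    obtain ⟨e1, e2⟩ := N.r3 (k := m) (g := g * bb ι y * of ι m r)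
      (by rw [vx_mul, co_mul]; exact s.2) v.2.2.2
    obtain ⟨i, j, d⟩ := exists_dis m
    rw [bb, ← mul_assoc, ← mul_assoc, e1, e2, vx_mul]
    exact ⟨by rw [lev, lev, s.1, add_assoc], fun l => by rw [has_E, has_E],
      i, j, 1, d, (map_one _).symm, fun _ => rfl⟩

theorem lev_ne {g : G ι} (h : ∀ q, g ≠ of ι .i0 q) : lev (N.vx .i0 g) ≠ 0 := fun e => by
  have := N.bb_vx .i0 g
  rw [eq_root e, bb, one_mul] at this
  exact h _ this.symm

theorem exists_out (hx : ∃ x : X .i0, x ≠ 1) (M : Subgroup (G ι)) (hM : M.Normal) (h : M ≠ ⊥) :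
    ∃ g ∈ M, ∀ q, g ≠ of ι .i0 q := by
  obtain ⟨x, hx⟩ := hx
  obtain ⟨⟨n, hn⟩, h1⟩ := Subgroup.ne_bot_iff_exists_ne_one.1 h
  by_cases hp : ∀ q, n ≠ of ι .i0 q
  · exact ⟨n, hn, hp⟩
  push Not at hp
  obtain ⟨p, rfl⟩ := hp
  refine ⟨_, hM.conj_mem' _ hn (ofX ι .i0 x), fun q e => h1 (Subtype.ext ?_)⟩
  have k : ∀ p, N.vx .i0 (1 * of ι .i0 p * ofX ι .i0 x) = E .i0 root p x := fun p => by
    rw [(N.r3 (k := .i0) (g := 1 * of ι .i0 p)
      (by rw [vx_mul, vx_one]; exact fun _ _ _ hh => (has_root hh).elim) hx).1, vx_mul, co_mul,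
      vx_one, co_one, one_mul]
  have e' : 1 * of ι .i0 p * ofX ι .i0 x = 1 * of ι .i0 1 * ofX ι .i0 x * of ι .i0 q := by
    rw [← e, map_one]; group
  have := k p
  rw [e', vx_mul, k] at this
  injection this with _ _ e1 _
  exact e1 ▸ map_one (of ι .i0)

/-- Every non-trivial normal subgroup contains a free group of rank two. -/
theorem free [Finite (X .i1)] [Finite (X .i2)] (hx : ∃ x : X .i0, x ≠ 1)
    (big : ∃ W : Finset (P .i0), 24 * (Nat.card (X .i1) * Nat.card (X .i2) * Nat.card (X .i1) +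
      Nat.card (X .i2) * Nat.card (X .i1) * Nat.card (X .i2)) < W.card) : FreeInNormal (G ι) := by
  classical
  intro M hM h
  obtain ⟨g, hg, out⟩ := N.exists_out hx M hM h
  obtain ⟨W, hW⟩ := big
  have := Fintype.ofFinite (X .i1)
  have := Fintype.ofFinite (X .i2)
  let γ : Bool → G ι := fun e => cond e g g⁻¹
  have lv : ∀ e, lev (N.vx .i0 (γ e)) ≠ 0 := by
    rintro (_ | _)
    · exact N.lev_ne fun q e => out q⁻¹ (by rw [map_inv, ← e]; exact (inv_inv g).symm)
    · exact N.lev_ne out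
  let c : Bool → P .i0 := fun e => N.co .i0 (γ e)
  let f : Bool → P .i0 := fun e => fl (N.vx .i0 (γ e))
  let B : Finset (P .i0) :=
    Finset.univ.image (fun t : X .i1 × X .i2 × X .i1 =>
      ι .i1 .i0 t.1 * ι .i2 .i0 t.2.1 * ι .i1 .i0 t.2.2) ∪
    Finset.univ.image (fun t : X .i2 × X .i1 × X .i2 =>
      ι .i2 .i0 t.1 * ι .i1 .i0 t.2.1 * ι .i2 .i0 t.2.2)
  have hB : ∀ p, p ∉ B → ∀ u j, TT ι u .i0 j p := fun p hp u j i d => by
    have : ¬ABA ι i j .i0 p := by
      rintro ⟨a, b, a', e⟩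
      obtain ⟨rfl, rfl⟩ | ⟨rfl, rfl⟩ := (show Dis .i1 .i2 .i0 by decide).two d
      · exact hp (Finset.mem_union_left _ (Finset.mem_image.2 ⟨(a, b, a'), Finset.mem_univ _, e.symm⟩))
      · exact hp (Finset.mem_union_right _ (Finset.mem_image.2 ⟨(a, b, a'), Finset.mem_univ _, e.symm⟩))
    exact ⟨fun _ => this, fun _ ⟨a, b, e⟩ => this ⟨1, a, b, by simpa using e⟩⟩
  let D : Finset (P .i0) := ((Finset.univ : Finset (Bool × Bool)) ×ˢ B).image
    fun t => (c t.1.1)⁻¹ * t.2 * (f t.1.2)⁻¹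
  obtain ⟨s, hs⟩ := exists_four D W (by
    have h1 : D.card ≤ 4 * B.card := Finset.card_image_le.trans (by simp)
    have h2 : B.card ≤ _ := (Finset.card_union_le _ _).trans
      (add_le_add Finset.card_image_le Finset.card_image_le)
    simp only [Finset.card_univ, Fintype.card_prod, ← mul_assoc] at h2
    simp only [Nat.card_eq_fintype_card] at hW
    omega)
  let n : Bool → Fin 2 × Bool → G ι := fun e a => of ι .i0 (s a) * γ e * (of ι .i0 (s a))⁻¹
  refine ⟨_, free_of_steps (fun w => lev (N.vx .i0 w))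
    (fun w a => ∀ e j, j ≠ .i0 → TT ι (N.vx .i0 w) .i0 j (N.co .i0 w * s a * f e)) n
    (fun a => by simp [n, γ, mul_assoc]) (fun a e j _ i _ => ?_) fun w a e hw => ?_, ?_⟩
  · rw [vx_one]
    exact ⟨fun hh => (has_root hh).elim, fun hh => (has_root hh).elim⟩
  · obtain ⟨s1, -, s3⟩ := N.cc (w * of ι .i0 (s a)) (N.vx_valid .i0 (γ e)) (N.ty_vx _ _) (lv e)
      (by rw [vx_mul, co_mul]; exact hw e)
    have e1 : w * n e a =
        w * of ι .i0 (s a) * bb ι (N.vx .i0 (γ e)) * of ι .i0 (c e * (s a)⁻¹) := by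
      rw [map_mul, map_inv, mul_assoc (w * _), ← mul_assoc (bb ι _), bb_vx]
      simp only [n, mul_assoc]
    rw [vx_mul] at s1
    simp only [e1, vx_mul, co_mul] at s1 s3 ⊢
    refine ⟨by have := lv e; omega, fun b hb e' j _ => ?_⟩
    rw [mul_assoc (N.co _ _), mul_assoc (N.co _ _)]
    refine s3.tt (hB _ (fun m => hs a b hb.symm ?_) _ _)
    exact Finset.mem_image.2 ⟨((e, e'), _), Finset.mem_product.2 ⟨Finset.mem_univ _, m⟩, by group⟩
  · rw [FreeGroup.range_lift_eq_closure, Subgroup.closure_le]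
    rintro _ ⟨i, rfl⟩
    exact mul_mem (hM.conj_mem _ hg _) (hM.conj_mem _ hg _)

end NPC

end Pool.Agent.MP_434e52_an.Dev

namespace Pool.Agent.MP_434e52_an

theorem Tri.freeInNormal (T : Tri) (h0 : Nontrivial (T.X .i0)) (f1 : Finite (T.X .i1))
    (f2 : Finite (T.X .i2))
    (big : ∃ W : Finset (T.P .i0),
      24 * (Nat.card (T.X .i1) * Nat.card (T.X .i2) * Nat.card (T.X .i1) +
        Nat.card (T.X .i2) * Nat.card (T.X .i1) * Nat.card (T.X .i2)) < W.card) :
    FreeInNormal (Dev.G T.ι) :=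
  T.npc.free (exists_ne 1) big

end Pool.Agent.MP_434e52_an

end

section

/-!
Gluing of local twins (section 2).
-/

set_option autoImplicit false
set_option linter.unusedSectionVars false

namespace Pool.Agent.MP_434e52_an

namespace Trc

open MonoidAlgebra

section alg

variable {G H : Type} [Group G] [Group H]

/-- The involution of the group algebra. -/
noncomputable def st : MonoidAlgebra ℂ G →+ MonoidAlgebra ℂ G :=
  (Finsupp.liftAddHom fun g =>
    (singleAddHom g⁻¹).comp (starRingEnd ℂ : ℂ →+* ℂ).toAddMonoidHom).comp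
      coeffAddEquiv.toAddMonoidHom

theorem st_single (g : G) (c : ℂ) : st (single g c) = single g⁻¹ (starRingEnd ℂ c) := by
  simp [st]

theorem st_coeff (a : MonoidAlgebra ℂ G) (g : G) :
    (st a).coeff g = starRingEnd ℂ (a.coeff g⁻¹) := by
  classical
  induction a using induction_linear with
  | zero => simp
  | add a b ha hb => simp [ha, hb]
  | single x c =>
    rw [st_single]
    simp only [coeff_single, Finsupp.single_apply, inv_eq_iff_eq_inv]
    split_ifs <;> simp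

theorem st_mul (a b : MonoidAlgebra ℂ G) : st (a * b) = st b * st a := by
  induction a using induction_linear with
  | zero => simp
  | add a a' ha ha' => simp [add_mul, mul_add, ha, ha']
  | single x c =>
    induction b using induction_linear with
    | zero => simp
    | add b b' hb hb' => simp only [add_mul, mul_add, map_add, hb, hb']
    | single y d => simp only [single_mul_single, st_single, mul_inv_rev, map_mul, mul_comm]

theorem st_map (f : G →* H) (a : MonoidAlgebra ℂ G) : st (mapDomain f a) = mapDomain f (st a) := by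
  induction a using induction_linear with
  | zero => simp
  | add a b ha hb => simp only [mapDomain_add, map_add, ha, hb]
  | single x c => simp only [mapDomain_single, st_single, map_inv]

theorem tw_st (t : Tw G H) (g : G) : t.th g⁻¹ = st (t.th g) := by
  ext q
  rw [st_coeff, t.adj]

/-- The left regular representation of the group algebra. -/
noncomputable def lamA (G : Type) [Group G] : MonoidAlgebra ℂ G →ₐ[ℂ] BL2 G :=
  MonoidAlgebra.lift ℂ _ G (lam G)

theorem lamA_single (g : G) (z : ℂ) : lamA G (single g z) = z • lam G g := lift_single _ _ _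

theorem lamA_st (a : MonoidAlgebra ℂ G) : lamA G (st a) = star (lamA G a) := by
  induction a using induction_linear with
  | zero => simp
  | add a b ha hb => rw [map_add, map_add, map_add, star_add, ha, hb]
  | single g z => rw [st_single, lamA_single, lamA_single, star_smul, star_lam]; rfl

theorem lamA_trace (a : MonoidAlgebra ℂ G) :
    inner ℂ (dl (1 : G)) (lamA G a (dl 1)) = a.coeff 1 := by
  classical
  induction a using induction_linear with
  | zero => simp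
  | add a b ha hb => rw [map_add, add_apply, inner_add_right, ha, hb, coeff_add, Finsupp.add_apply]
  | single g z =>
    rw [lamA_single, _root_.smul_apply, lam_dl, mul_one, inner_smul_right, coeff_single,
      Finsupp.single_apply]
    split_ifs with h
    · rw [h, inner_self_eq_norm_sq_to_K, norm_dl]
      simp
    · rw [inner_dl_dl (Ne.symm h), mul_zero]

theorem vnIso (t : Tw G H) : VNIso G H := by
  have hs : Submodule.span ℂ (Set.range (lam H)) = Submodule.span ℂ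
      (Set.range ((lamA H : MonoidAlgebra ℂ H →* BL2 H).comp t.th)) := by
    refine le_antisymm (Submodule.span_le.2 ?_) (Submodule.span_le.2 ?_)
    · rintro _ ⟨g, rfl⟩
      have h := Submodule.mem_map_of_mem (f := (lamA H).toLinearMap) (t.onto g)
      rw [Submodule.map_span, ← Set.range_comp, AlgHom.toLinearMap_apply, lamA_single,
        one_smul] at h
      exact h
    · rintro _ ⟨h, rfl⟩
      change lamA H (t.th h) ∈ Submodule.span ℂ (Set.range (lam H))
      induction t.th h using induction_linear with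
      | zero => simp
      | add a b ha hb => rw [map_add]; exact Submodule.add_mem _ ha hb
      | single g z =>
        rw [lamA_single]
        exact Submodule.smul_mem _ _ (Submodule.subset_span ⟨g, rfl⟩)
  refine vnIso_of_models (dl 1) (norm_dl _) ((lamA H : MonoidAlgebra ℂ H →* BL2 H).comp t.th)
    (lam H) (fun g => ?_) lam_unitary (fun g hg => (lamA_trace _).trans (t.tr g hg))
    (fun h hh => by rw [lam_dl, mul_one, inner_dl_dl hh.symm]) hs.symm
    (dense_dl.trans (Submodule.topologicalClosure_mono (Submodule.span_le.2 ?_)))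
  · change lamA H (t.th g) ∈ _
    rw [Unitary.mem_iff, ← lamA_st, ← tw_st, ← map_mul, ← map_mul, ← map_mul, ← map_mul,
      inv_mul_cancel, mul_inv_cancel, map_one, map_one]
    exact ⟨rfl, rfl⟩
  · rintro _ ⟨g, rfl⟩
    have h := Submodule.mem_map_of_mem
      (f := (ContinuousLinearMap.apply ℂ (L2 H) (dl 1)).toLinearMap)
      (hs.le (Submodule.subset_span ⟨g, rfl⟩))
    rw [Submodule.map_span, ← Set.range_comp] at h
    rw [← mul_one g, ← lam_dl]
    exact h

/-- All the elements of the support have the property `S`. -/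
def Sup (a : MonoidAlgebra ℂ G) (S : G → Prop) : Prop := ∀ g, a.coeff g ≠ 0 → S g

theorem Sup.mul {a b : MonoidAlgebra ℂ G} {S T U : G → Prop} (ha : Sup a S) (hb : Sup b T)
    (h : ∀ s t, S s → T t → U (s * t)) : Sup (a * b) U := fun g hg => by
  classical
  obtain ⟨s, hs, t, ht, rfl⟩ :=
    Finset.mem_mul.1 (support_coeff_mul_subset a b (Finsupp.mem_support_iff.2 hg))
  exact h _ _ (ha _ (Finsupp.mem_support_iff.1 hs)) (hb _ (Finsupp.mem_support_iff.1 ht))

theorem Sup.mul' {a b : MonoidAlgebra ℂ G} {S T : G → Prop} (ha : Sup a S) (hb : Sup b T) :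
    Sup (a * b) fun g => ∃ s t, S s ∧ T t ∧ s * t = g :=
  ha.mul hb fun _ _ h1 h2 => ⟨_, _, h1, h2, rfl⟩

theorem Sup.map {a : MonoidAlgebra ℂ G} {S : G → Prop} (ha : Sup a S) (f : G → H) :
    Sup (mapDomain f a) fun h => ∃ g, S g ∧ f g = h := fun h hh => by
  classical
  obtain ⟨g, hg, e⟩ := Finset.mem_image.1 (Finsupp.mapDomain_support (Finsupp.mem_support_iff.2 hh))
  exact ⟨g, ha _ (Finsupp.mem_support_iff.1 hg), e⟩

/-- The element `q` is in the span of the image of `U`. -/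
def Sp (t : G →* MonoidAlgebra ℂ H) (U : G → Prop) (q : H) : Prop :=
  single q (1 : ℂ) ∈ Submodule.span ℂ (t '' {g | U g})

theorem Sp.mul {t : G →* MonoidAlgebra ℂ H} {U V W : G → Prop} {q q' : H} (h : Sp t U q)
    (h' : Sp t V q') (hw : ∀ u v, U u → V v → W (u * v)) : Sp t W (q * q') := by
  have := Submodule.mul_mem_mul h h'
  rw [Submodule.span_mul_span, single_mul_single, mul_one] at this
  refine Submodule.span_mono ?_ this
  rintro _ ⟨_, ⟨u, hu, rfl⟩, _, ⟨v, hv, rfl⟩, rfl⟩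
  exact ⟨_, hw u v hu hv, map_mul _ _ _⟩

theorem Sp.edge {Y Z : Type} [Group Y] [Group Z] {t : G →* MonoidAlgebra ℂ H} (s : Tw Y Z)
    {f : Y →* G} {f' : Z →* H} (h : ∀ y, t (f y) = mapDomain f' (s.th y)) (z : Z) :
    Sp t (fun g => ∃ y, g = f y) (f' z) := by
  have := Submodule.mem_map_of_mem (f := mapDomainLinearMap ℂ ℂ f') (s.onto z)
  rw [Submodule.map_span, mapDomainLinearMap_single] at this
  refine Submodule.span_mono ?_ this
  rintro _ ⟨_, ⟨y, rfl⟩, rfl⟩
  exact ⟨_, ⟨y, rfl⟩, h y⟩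

theorem Sp.zero {t : Tw G H} {U : G → Prop} {q : H} (h : Sp t.th U q) {p : G} (hp : ¬U p) :
    (t.th p).coeff q = 0 := by
  have : ∀ a ∈ Submodule.span ℂ (t.th '' {g | U g}), (t.th p⁻¹ * a).coeff 1 = 0 := fun a ha => by
    induction ha using Submodule.span_induction with
    | mem _ h =>
      obtain ⟨u, hu, rfl⟩ := h
      rw [← map_mul]
      exact t.tr _ fun e => hp (inv_mul_eq_one.1 e ▸ hu)
    | zero => simp
    | add a b _ _ ha hb => simp [mul_add, ha, hb]
    | smul c a _ ha => simp [ha]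
  simpa [t.adj] using this _ h

end alg

open Dev Dev.Vx

variable {P X P' X' : I → Type} [∀ k, Group (P k)] [∀ i, Group (X i)] [∀ k, Group (P' k)]
  [∀ i, Group (X' i)] {ι : ∀ i k, X i →* P k} {ι' : ∀ i k, X' i →* P' k}
  {tP : ∀ k, Tw (P k) (P' k)} {tX : ∀ i, Tw (X i) (X' i)}
  (hc : ∀ i k, i ≠ k → ∀ x, (tP k).th (ι i k x) = mapDomain (ι' i k) ((tX i).th x))
include hc

theorem map_ι {i k : I} (h : i ≠ k) (x : X i) :
    mapDomain (of ι' k) ((tP k).th (ι i k x)) = mapDomain (ofX ι' i) ((tX i).th x) := by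
  rw [hc i k h, ← funext (of_ι h)]
  ext1
  exact Finsupp.mapDomain_comp.symm

/-- The glued representation. -/
noncomputable def th : G ι →* MonoidAlgebra ℂ (G ι') :=
  Dev.lift (fun k => (mapDomainAlgHom ℂ ℂ (of ι' k) : _ →* _).comp (tP k).th)
    fun _ _ _ x h1 h2 => (map_ι hc h1 x).trans (map_ι hc h2 x).symm

theorem th_of (k : I) (p : P k) : th hc (of ι k p) = mapDomain (of ι' k) ((tP k).th p) :=
  lift_of _ _ _ _

theorem th_ofX (i : I) (x : X i) : th hc (ofX ι i x) = mapDomain (ofX ι' i) ((tX i).th x) :=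
  (th_of hc _ _).trans (map_ι hc (nx_ne i).symm x)

theorem sp_AB {i j k : I} (d : Dis i j k) {q : P' k} (h : AB ι' i j k q) :
    Sp (tP k).th (AB ι i j k) q := by
  obtain ⟨a, b, rfl⟩ := h
  refine (Sp.edge _ (hc i k d.2.1) a).mul (Sp.edge _ (hc j k d.2.2) b) ?_
  rintro _ _ ⟨a, rfl⟩ ⟨b, rfl⟩
  exact ⟨a, b, rfl⟩

theorem sp_ABA {i j k : I} (d : Dis i j k) {q : P' k} (h : ABA ι' i j k q) :
    Sp (tP k).th (ABA ι i j k) q := by
  obtain ⟨a, b, c, rfl⟩ := h
  refine (sp_AB hc d ⟨a, b, rfl⟩).mul (Sp.edge _ (hc i k d.2.1) c) ?_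
  rintro _ _ ⟨a, b, rfl⟩ ⟨c, rfl⟩
  exact ⟨a, b, c, rfl⟩

theorem sup_bb (N : NPC ι') {z : Vx P X} (v : Valid ι z) :
    Sup (th hc (bb ι z)) fun g => (∀ j, has ι' (N.vx (ty z) g) j ↔ has ι z j) ∧ N.Gd (ty z) g := by
  induction z with
  | root =>
    intro g hg
    obtain rfl : g = 1 := by_contra fun e => hg (by
      rw [bb, map_one, one_def, coeff_single, Finsupp.single_eq_of_ne e])
    exact ⟨fun j => by simp [ty, N.vx_one, has_root], by rw [NPC.Gd, ty, N.co_one]; exact YY.one⟩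
  | V j k y r ih =>
    obtain ⟨v1, rfl, v3, -, v5⟩ := v
    rw [bb, map_mul, th_of]
    refine (ih v1).mul (Sup.map (fun _ h => h) _) ?_
    rintro g _ ⟨h1, h2⟩ ⟨q, hq, rfl⟩
    obtain ⟨⟨r', e⟩, h⟩ := N.s1 v3 h2 (r := q) fun i d =>
      ⟨fun hh e => hq ((sp_ABA hc d e).zero ((v5 i d).1 ((h1 _).1 hh))),
        fun hh e => hq ((sp_AB hc d.s12 e).zero ((v5 i d).2 ((h1 _).1 hh)))⟩
    exact ⟨fun l => by rw [ty, e, has_V, has_V], h⟩
  | E k y r x ih =>
    obtain ⟨v1, rfl, v3, v4⟩ := v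
    rw [bb, map_mul, map_mul, th_of, th_ofX]
    refine ((ih v1).mul' (Sup.map (fun _ h => h) _)).mul (Sup.map (fun _ h => h) _) ?_
    rintro _ _ ⟨g, _, ⟨h1, h2⟩, ⟨q, hq, rfl⟩, rfl⟩ ⟨w, hw, rfl⟩
    obtain ⟨⟨r', e⟩, h⟩ := N.s2 h2 (r := q) (x := w)
      (fun i j d hh e => hq ((sp_AB hc d e).zero (v3 i j d ((h1 _).1 hh))))
      fun e => hw (e ▸ (tX _).tr x v4)
    exact ⟨fun l => by rw [ty, e, has_E, has_E], h⟩

/-- The glued twin. -/
noncomputable def tw (M : NPC ι) (N : NPC ι') : Tw (G ι) (G ι') where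
  th := th hc
  adj g q := by
    rw [← st_coeff]
    congr 2
    induction g using G_ind with
    | h1 => rw [inv_one, map_one, one_def, st_single, inv_one, map_one]
    | hm g k p ih =>
      rw [mul_inv_rev, map_mul, map_mul, st_mul, ih, ← map_inv, th_of, th_of, st_map, tw_st]
  tr g hg := by
    by_cases hz : M.vx .i0 g = root
    · obtain ⟨-, p, rfl⟩ := M.vx_root.1 hz
      rw [th_of, ← map_one (of ι' .i0), coeff_mapDomain, Finsupp.mapDomain_apply (N.of_inj _)]
      exact (tP _).tr p fun e => hg (by rw [e, map_one])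
    by_contra h
    rw [← M.bb_vx .i0 g, map_mul, th_of] at h
    obtain ⟨s, _, ⟨h1, -⟩, ⟨q, -, rfl⟩, e⟩ :=
      (sup_bb hc N (M.vx_valid .i0 g)).mul' (Sup.map (fun _ h => h) _) 1 h
    obtain ⟨j, -, hj⟩ := NPC.has_of_ne (M.vx_valid .i0 g) hz
    rw [M.ty_vx, ← N.vx_mul _ s q, e, N.vx_one] at h1
    exact has_root ((h1 j).2 hj)
  onto g := by
    rw [← Set.image_univ]
    change Sp (th hc) (fun _ => True) g
    induction g using G_ind with
    | h1 => exact Submodule.subset_span ⟨1, trivial, map_one _⟩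
    | hm g k p ih => exact ih.mul (Sp.edge _ (th_of hc k) p) fun _ _ _ _ => trivial

end Trc

theorem vnIso_of_tri (T T' : Tri) (tP : ∀ k, Tw (T.P k) (T'.P k)) (tX : ∀ i, Tw (T.X i) (T'.X i))
    (hc : ∀ i k, i ≠ k → ∀ x,
      (tP k).th (T.ι i k x) = MonoidAlgebra.mapDomain (T'.ι i k) ((tX i).th x)) :
    VNIso (Dev.G T.ι) (Dev.G T'.ι) :=
  Trc.vnIso (Trc.tw hc T.npc T'.npc)

end Pool.Agent.MP_434e52_an

end
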