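import Pool.Agent.MP_434e52_an.TriA

attribute [-instance] Submodule.instHasOrthogonalProjectionOrthogonal MonTypeEquivalenceMon.monMonoid
  RKHS.instFunLike RCLike.charZero_rclike NonUnitalRingHomClass.toMulHomClass littleWedderburn
  NonUnitalRing.toNonUnitalNonAssocRing NonarchimedeanAddGroup.toIsTopologicalAddGroup
  Nontrivial.to_nonempty NormedRing.toRing TotallySeparatedSpace.t2Space
  DivisionCommMonoid.toDivisionMonoid IsSemitopologicalSemiring.toContinuousAdd
  MonoidWithZero.toMulZeroOneClass NonUnitalSeminormedRing.toSeminormedAddCommGroup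
  AlgHom.instNonUnitalAlgHomClassOfAlgHomClass IdemSemiring.toSemiring
  NonUnitalNonAssocRing.toAddCommGroup Valued.toUniformSpace AddQuantale.instAddLeftMono
  CoalgHomClass.toSemilinearMapClass instCharZeroOfIsSemireal NormedCommRing.toCommRing
  SeminormedRing.toRing Action.FintypeCat.instMulActionObjFiniteOf
  MonoidWithZeroHomClass.toZeroHomClass NonUnitalSemiring.toNonUnitalNonAssocSemiring
  SeminormedCommRing.toCommRing ESeminormedAddCommMonoid.toAddCommMonoid
  SemigroupWithZero.toSemigroup LieRing.toAddCommGroup AddCommMonoidWithOne.toAddMonoidWithOne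
  NonUnitalAlgSemiHomClass.toDistribMulActionSemiHomClass Zero.instNonempty
  EuclideanDomain.toCommRing bot_nonempty IsTopologicalSemiring.toContinuousAdd
  NumberField.to_charZero NonAssocSemiring.toMulZeroOneClass
  NonUnitalSeminormedRing.toPseudoMetricSpace RightPreLieAlgebra.toModule
  NonUnitalNonAssocCommSemiring.toNonUnitalNonAssocSemiring LeftPreLieAlgebra.toModule
  NonUnitalNormedCommRing.toNonUnitalCommRing SemilatticeInf.toPartialOrder BooleanRing.toRing
  SemilinearIsometryClass.toSemilinearMapClass AddCommGroupWithOne.toAddGroupWithOne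
  NonUnitalAlgSemiHomClass.toMulHomClass GrpTypeEquivalenceGrp.grpGroup
  LieAdmissibleRing.toNonUnitalNonAssocRing NontriviallyNormedField.toNormedField Algebra.toSMul
  RingHomClass.toLinearMapClassNNRat NonUnitalCStarAlgebra.toNormedSpace
  NonUnitalSeminormedCommRing.toNonUnitalCommRing IdemSemiring.toCanonicallyOrderedAdd
  NonAssocCommSemiring.toNonAssocSemiring BooleanRing.toCommRing
  IsValuativeTopology.instIsTopologicalAddGroup TestFunctionClass.toDFunLike One.instNonempty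
  ContDiffMapSupportedInClass.toDFunLike NonUnitalNormedRing.toNormedAddCommGroup
  SubringClass.toSubsemiringClass NormedDivisionRing.toDivisionRing
  MulSemiringActionSemiHomClass.toDistribMulActionSemiHomClass CompletePartialOrder.toPartialOrder
  NonAssocCommRing.toNonUnitalNonAssocCommRing RingHomClass.toLinearMapClassRat
  MulSemiringAction.toDistribMulAction GroupWithZero.toDivisionMonoid Algebra.toModule
  MonoidWithZero.toMonoid AddCommMonoidWithOne.toAddCommMonoid SemigroupWithZero.toMulZeroClass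

section

/-!
Hyperbolicity from level functions (section 6).
-/

set_option autoImplicit false

namespace Pool.Agent.MP_434e52_an

namespace Hyp

/-- A graph with levels and types whose horizontal edges project to lower levels. -/
structure Lg (V : Type) where
  adj : V → V → Prop
  lev : V → ℕ
  ty : V → I
  refl : ∀ a, adj a a
  symm : ∀ {a b}, adj a b → adj b a
  move : ∀ {a b c}, adj a b → ty a = ty b → adj b c → adj a c
  lip : ∀ {a b}, adj a b → lev b ≤ lev a + 1
  zero : ∀ {a b}, lev a = 0 → lev b = 0 → adj a b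
  com : ∀ {a b}, adj a b → lev a = lev b → lev a ≠ 0 →
    ∃ c, (adj a c ∧ lev c + 1 = lev a) ∧ (adj b c ∧ lev c + 1 = lev b) ∧
      ty c ≠ ty a ∧ ty c ≠ ty b
  two : ∀ {a c d}, adj a c → lev c + 1 = lev a → adj a d → lev d + 1 = lev a → adj c d
  thin : ∀ {a b c c' d d'}, adj a b → lev a = lev b → ty a = .i0 → ty b ≠ .i0 →
    adj a c → lev c + 1 = lev a → adj a c' → lev c' + 1 = lev a → ty c ≠ ty c' →
    adj b d → lev d + 1 = lev b → adj b d' → lev d' + 1 = lev b → ty d = ty d'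

namespace Lg

variable {V : Type} (Γ : Lg V)

/-- walks -/
inductive W : ℕ → V → V → Prop
  | nil (a : V) : W 0 a a
  | snoc {n : ℕ} {a b c : V} : W n a b → Γ.adj b c → W (n + 1) a c

/-- horizontal walks -/
inductive H : ℕ → V → V → Prop
  | nil (a : V) : H 0 a a
  | snoc {n : ℕ} {a b c : V} : H n a b → Γ.adj b c → Γ.lev b = Γ.lev c → H (n + 1) a c

/-- descendants -/
inductive De : ℕ → V → V → Prop
  | nil (a : V) : De 0 a a
  | snoc {n : ℕ} {a b c : V} : De n a b → Γ.adj b c → Γ.lev c + 1 = Γ.lev b → De (n + 1) a c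

variable {Γ}

theorem W.trans {n m : ℕ} {a b c : V} (h : Γ.W n a b) (h' : Γ.W m b c) : Γ.W (n + m) a c := by
  induction h' with
  | nil => exact h
  | snoc _ e ih => exact (ih h).snoc e

theorem W.symm {n : ℕ} {a b : V} (h : Γ.W n a b) : Γ.W n b a := by
  induction h with
  | nil => exact W.nil _
  | snoc _ e ih => exact Nat.add_comm _ _ ▸ ((W.nil _).snoc (Γ.symm e)).trans ih

theorem W.lip {n : ℕ} {a b : V} (h : Γ.W n a b) : Γ.lev b ≤ Γ.lev a + n := by
  induction h with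
  | nil => exact le_rfl
  | snoc _ e ih => have := Γ.lip e; omega

theorem H.walk {n : ℕ} {a b : V} (h : Γ.H n a b) : Γ.W n a b := by
  induction h with
  | nil => exact W.nil _
  | snoc _ e _ ih => exact ih.snoc e

theorem H.lev {n : ℕ} {a b : V} (h : Γ.H n a b) : Γ.lev a = Γ.lev b := by
  induction h with
  | nil => rfl
  | snoc _ _ e ih => exact ih.trans e

theorem De.walk {n : ℕ} {a b : V} (h : Γ.De n a b) : Γ.W n a b := by
  induction h with
  | nil => exact W.nil _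
  | snoc _ e _ ih => exact ih.snoc e

theorem De.lev {n : ℕ} {a b : V} (h : Γ.De n a b) : Γ.lev b + n = Γ.lev a := by
  induction h with
  | nil => rfl
  | snoc _ _ e ih => omega

theorem De.trans {n m : ℕ} {a b c : V} (h : Γ.De n a b) (h' : Γ.De m b c) : Γ.De (n + m) a c := by
  induction h' with
  | nil => exact h
  | snoc _ e l ih => exact (ih h).snoc e l

theorem down {a : V} (h : Γ.lev a ≠ 0) : ∃ c, Γ.adj a c ∧ Γ.lev c + 1 = Γ.lev a :=
  (Γ.com (Γ.refl a) rfl h).imp fun _ h => h.1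

theorem de_ex (a : V) {n : ℕ} (h : n ≤ Γ.lev a) : ∃ b, Γ.De n a b := by
  induction n with
  | zero => exact ⟨a, De.nil a⟩
  | succ n ih =>
    obtain ⟨b, hb⟩ := ih (by omega)
    have := hb.lev
    obtain ⟨c, e, l⟩ := down (Γ := Γ) (a := b) (by omega)
    exact ⟨c, hb.snoc e l⟩

theorem De.head {n : ℕ} {a b : V} (h : Γ.De (n + 1) a b) :
    ∃ c, Γ.adj a c ∧ Γ.lev c + 1 = Γ.lev a ∧ Γ.De n c b := by
  induction n generalizing b with
  | zero => cases h with | snoc p e l => cases p; exact ⟨b, e, l, De.nil _⟩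
  | succ n ih =>
    cases h with
    | snoc p e l =>
      obtain ⟨c, c1, c2, c3⟩ := ih p
      exact ⟨c, c1, c2, c3.snoc e l⟩

theorem H.trans {n m : ℕ} {a b c : V} (h : Γ.H n a b) (h' : Γ.H m b c) : Γ.H (n + m) a c := by
  induction h' with
  | nil => exact h
  | snoc _ e l ih => exact (ih h).snoc e l

theorem H.one {a b : V} (e : Γ.adj a b) (l : Γ.lev a = Γ.lev b) : Γ.H 1 a b := (H.nil _).snoc e l

theorem H.mono {n m : ℕ} {a b : V} (h : Γ.H n a b) (le : n ≤ m) : Γ.H m a b := by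
  induction le with
  | refl => exact h
  | step _ ih => exact ih.snoc (Γ.refl b) rfl

theorem H.prj {L : ℕ} {a b : V} (h : Γ.H L a b) {d : V} (e : Γ.adj b d)
    (l : Γ.lev d + 1 = Γ.lev b) : ∃ c, Γ.adj a c ∧ Γ.lev c + 1 = Γ.lev a ∧ Γ.H L c d := by
  induction h generalizing d with
  | nil => exact ⟨d, e, l, H.nil _⟩
  | snoc _ e' l' ih =>
    obtain ⟨x, ⟨p, q⟩, ⟨p', q'⟩, -⟩ := Γ.com e' l' (by omega)
    obtain ⟨c, c1, c2, c3⟩ := ih p q
    exact ⟨c, c1, c2, c3.snoc (Γ.two p' q' e l) (by omega)⟩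

theorem H.short4 {a b : V} (h : Γ.H 4 a b) (z : Γ.lev b ≠ 0) :
    ∃ c d, Γ.adj a c ∧ Γ.lev c + 1 = Γ.lev a ∧ Γ.adj b d ∧ Γ.lev d + 1 = Γ.lev b ∧
      Γ.H 2 c d := by
  have k3 : ∀ {y0 y1 y2 y3 : V}, Γ.adj y0 y1 → Γ.adj y1 y2 → Γ.adj y2 y3 → Γ.lev y0 = Γ.lev y1 →
      Γ.lev y1 = Γ.lev y2 → Γ.lev y2 = Γ.lev y3 → Γ.lev y3 ≠ 0 →
      ∃ c d, Γ.adj y0 c ∧ Γ.lev c + 1 = Γ.lev y0 ∧ Γ.adj y3 d ∧ Γ.lev d + 1 = Γ.lev y3 ∧
        Γ.H 2 c d := fun e1 e2 e3 l1 l2 l3 z => by
    obtain ⟨d, ⟨d1, d2⟩, ⟨d3, d4⟩, -⟩ := Γ.com e3 l3 (by omega)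
    obtain ⟨c, c1, c2, c3⟩ := ((H.one e1 l1).snoc e2 l2).prj d1 d2
    exact ⟨c, d, c1, c2, d3, d4, c3⟩
  cases h with
  | @snoc _ _ y3 _ h e4 l4 =>
  cases h with
  | @snoc _ _ y2 _ h e3 l3 =>
  cases h with
  | @snoc _ _ y1 _ h e2 l2 =>
  cases h with
  | snoc h e1 l1 =>
    cases h
    by_cases t1 : Γ.ty y1 = Γ.ty y2
    · exact k3 e1 (Γ.move e2 t1 e3) e4 l1 (l2.trans l3) l4 z
    by_cases t2 : Γ.ty y2 = Γ.ty y3
    · exact k3 e1 e2 (Γ.move e3 t2 e4) l1 l2 (l3.trans l4) z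
    obtain ⟨d0, ⟨a0, b0⟩, ⟨a0', b0'⟩, -⟩ := Γ.com e1 l1 (by omega)
    obtain ⟨d1, ⟨a1, b1⟩, ⟨a1', b1'⟩, s1, s1'⟩ := Γ.com e2 l2 (by omega)
    obtain ⟨d2, ⟨a2, b2⟩, ⟨a2', b2'⟩, s2, s2'⟩ := Γ.com e3 l3 (by omega)
    obtain ⟨d3, ⟨a3, b3⟩, ⟨a3', b3'⟩, -⟩ := Γ.com e4 l4 (by omega)
    have f1 := Γ.two a0' b0' a1 b1
    have f2 := Γ.two a1' b1' a2 b2
    have f3 := Γ.two a2' b2' a3 b3
    refine ⟨d0, d3, a0, b0, a3', b3', ?_⟩
    by_cases u1 : Γ.ty d0 = Γ.ty d1
    · exact (H.one (Γ.move f1 u1 f2) (by omega)).snoc f3 (by omega)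
    by_cases u2 : Γ.ty d1 = Γ.ty d2
    · exact (H.one f1 (by omega)).snoc (Γ.move f2 u2 f3) (by omega)
    by_cases u3 : Γ.ty d2 = Γ.ty d3
    · exact (H.one f1 (by omega)).snoc
        (Γ.symm (Γ.move (Γ.symm f3) (Eq.symm u3) (Γ.symm f2))) (by omega)
    exfalso
    have key : ∀ p q r s t : I, p ≠ q → q ≠ r → s ≠ p → s ≠ q → t ≠ q → t ≠ r → s ≠ t →
        (p = .i0 ∧ q ≠ .i0) ∨ (q = .i0 ∧ p ≠ .i0) ∨ (r = .i0 ∧ q ≠ .i0) := by
      intro p q r s t
      cases p <;> cases q <;> cases r <;> cases s <;> cases t <;> simp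
    rcases key _ _ _ _ _ t1 t2 s1 s1' s2 s2' u2 with ⟨x, y⟩ | ⟨x, y⟩ | ⟨x, y⟩
    · exact u2 (Γ.thin e2 l2 x y a0' b0' a1 b1 u1 a1' b1' a2 b2)
    · exact u1 (Γ.thin (Γ.symm e2) l2.symm x y a1' b1' a2 b2 u2 a0' b0' a1 b1)
    · exact u2 (Γ.thin (Γ.symm e3) l3.symm x y a2' b2' a3 b3 u3 a1' b1' a2 b2)

theorem H.split {n m : ℕ} {a c : V} (h : Γ.H (n + m) a c) : ∃ b, Γ.H n a b ∧ Γ.H m b c := by
  induction m generalizing c with
  | zero => exact ⟨c, h, H.nil _⟩
  | succ m ih =>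
    cases h with
    | snoc p e l =>
      obtain ⟨b, b1, b2⟩ := ih p
      exact ⟨b, b1, b2.snoc e l⟩

theorem H.short {L : ℕ} {a b : V} (h : Γ.H (L + 4) a b) (z : Γ.lev b ≠ 0) :
    ∃ c d, Γ.adj a c ∧ Γ.lev c + 1 = Γ.lev a ∧ Γ.adj b d ∧ Γ.lev d + 1 = Γ.lev b ∧
      Γ.H (L + 2) c d := by
  obtain ⟨y, h1, h2⟩ := h.split
  obtain ⟨x, d, x1, x2, d1, d2, k⟩ := h2.short4 z
  obtain ⟨c, c1, c2, c3⟩ := h1.prj x1 x2
  exact ⟨c, d, c1, c2, d1, d2, c3.trans k⟩

theorem De.near {n : ℕ} {a b b' : V} (h : Γ.De n a b) (h' : Γ.De n a b') : Γ.H 4 b b' := by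
  induction n generalizing b b' with
  | zero => cases h; cases h'; exact (H.nil _).mono (by omega)
  | succ n ih =>
    cases h with
    | snoc p p1 p2 =>
    cases h' with
    | snoc q q1 q2 =>
      obtain ⟨c, d, c1, c2, d1, d2, k⟩ := (ih p q).short4 (by omega)
      exact ((H.one (Γ.two p1 p2 c1 c2) (by omega)).trans k).snoc (Γ.two d1 d2 q1 q2) (by omega)

/-- The descendants on level one of two adjacent vertices other than the root are close. -/
theorem link {a b a1 b1 : V} {p q : ℕ} (e : Γ.adj a b) (ha : Γ.De p a a1) (hb : Γ.De q b b1)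
    (la : Γ.lev a1 = 1) (lb : Γ.lev b1 = 1) : Γ.H 8 a1 b1 := by
  have l1 := Γ.lip e
  have l2 := Γ.lip (Γ.symm e)
  have l3 := ha.lev
  have l4 := hb.lev
  rcases lt_trichotomy (Γ.lev a) (Γ.lev b) with l | l | l
  · have k := ((De.nil _).snoc (Γ.symm e) (by omega)).trans ha
    rw [show 0 + 1 + p = q by omega] at k
    exact (k.near hb).mono (by omega)
  · rcases p with _ | p
    · obtain rfl : q = 0 := by omega
      cases ha; cases hb
      exact (H.one e l).mono (by omega)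
    · obtain ⟨c, ⟨c1, c2⟩, ⟨c3, c4⟩, -⟩ := Γ.com e l (by omega)
      obtain ⟨d, hd⟩ := de_ex (Γ := Γ) c (n := p) (by omega)
      have k1 := ((De.nil _).snoc c1 c2).trans hd
      have k2 := ((De.nil _).snoc c3 c4).trans hd
      rw [show 0 + 1 + p = p + 1 by omega] at k1
      rw [show 0 + 1 + p = q by omega] at k2
      exact (ha.near k1).trans (k2.near hb)
  · have k := ((De.nil _).snoc e (by omega)).trans hb
    rw [show 0 + 1 + q = p by omega] at k
    exact (ha.near k).mono (by omega)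

variable (Γ) in
/-- down, horizontally, and up again, in at most `n` steps -/
def Nr (u w : V) (n L : ℕ) : Prop :=
  ∃ p q a b, Γ.De p u a ∧ Γ.De q w b ∧ Γ.H L a b ∧ p + q + L ≤ n

theorem Nr.up {n L : ℕ} {u w w' : V} (h : Γ.Nr u w n L) (e : Γ.adj w' w)
    (l : Γ.lev w + 1 = Γ.lev w') : Γ.Nr u w' (n + 1) L := by
  obtain ⟨p, q, a, b, ha, hb, hh, le⟩ := h
  exact ⟨p, 0 + 1 + q, a, b, ha, ((De.nil _).snoc e l).trans hb, hh, by omega⟩

theorem nr_step {p q L : ℕ} {u a b w w' : V} (ha : Γ.De p u a) (hb : Γ.De q w b)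
    (hh : Γ.H L a b) (e : Γ.adj w w') (l : Γ.lev w' ≤ Γ.lev w) :
    ∃ L', Γ.Nr u w' (p + q + L + 1) L' := by
  induction q generalizing w w' with
  | zero =>
    cases hb
    have l2 := Γ.lip (Γ.symm e)
    rcases l.lt_or_eq with l | l
    · obtain ⟨c, c1, c2, c3⟩ := hh.prj e (by omega)
      exact ⟨L, p + 1, 0, c, w', ha.snoc c1 c2, De.nil _, c3, by omega⟩
    · exact ⟨L + 1, p, 0, a, w', ha, De.nil _, hh.snoc e l.symm, by omega⟩
  | succ q ih =>
    obtain ⟨x, x1, x2, x3⟩ := hb.head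
    have l2 := Γ.lip (Γ.symm e)
    rcases l.lt_or_eq with l | l
    · obtain ⟨L', p', q', a', b', h1, h2, h3, h4⟩ :=
        ih x3 (Γ.two x1 x2 e (by omega)) (by omega)
      exact ⟨L', p', q', a', b', h1, h2, h3, by omega⟩
    · obtain ⟨c, ⟨c1, c2⟩, ⟨c3, c4⟩, -⟩ := Γ.com e l.symm (by omega)
      obtain ⟨L', h⟩ := ih x3 (Γ.two x1 x2 c1 c2) (by omega)
      exact ⟨L', by simpa [add_assoc, add_comm, add_left_comm] using h.up c3 c4⟩

theorem W.nr {n : ℕ} {u w : V} (h : Γ.W n u w) : ∃ L, Γ.Nr u w n L := by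
  induction h with
  | nil => exact ⟨0, 0, 0, _, _, De.nil _, De.nil _, H.nil _, le_rfl⟩
  | @snoc n u w w' _ e ih =>
    obtain ⟨L, h⟩ := ih
    have l1 := Γ.lip e
    rcases lt_or_ge (Γ.lev w) (Γ.lev w') with l | l
    · exact ⟨L, h.up (Γ.symm e) (by omega)⟩
    · obtain ⟨p, q, a, b, ha, hb, hh, le⟩ := h
      obtain ⟨L', p', q', a', b', h1, h2, h3, h4⟩ := nr_step ha hb hh e l
      exact ⟨L', p', q', a', b', h1, h2, h3, by omega⟩

theorem Nr.norm {n L : ℕ} {u w : V} (h : Γ.Nr u w n L) : ∃ L ≤ 3, Γ.Nr u w n L := by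
  induction L using Nat.strong_induction_on with
  | _ L ih =>
    by_cases s : L ≤ 3
    · exact ⟨L, s, h⟩
    obtain ⟨L, rfl⟩ : ∃ M, L = M + 4 := ⟨L - 4, by omega⟩
    obtain ⟨p, q, a, b, ha, hb, hh, le⟩ := h
    have l := hh.lev
    by_cases z : Γ.lev b = 0
    · exact ⟨1, by omega, p, q, a, b, ha, hb, (H.nil _).snoc (Γ.zero (l.trans z) z) l, by omega⟩
    · obtain ⟨c, d, c1, c2, d1, d2, k⟩ := hh.short z
      exact ih (L + 2) (by omega) ⟨p + 1, q + 1, c, d, ha.snoc c1 c2, hb.snoc d1 d2, k, by omega⟩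

theorem H.deep {L : ℕ} {a b : V} (h : Γ.H L a b) {m : ℕ} {d : V} (e : Γ.De m b d) :
    ∃ c, Γ.De m a c ∧ Γ.H L c d := by
  induction m generalizing d with
  | zero => cases e; exact ⟨a, De.nil _, h⟩
  | succ m ih =>
    cases e with
    | snoc p p1 p2 =>
      obtain ⟨c, c1, c2⟩ := ih p
      obtain ⟨c', x1, x2, x3⟩ := c2.prj p1 p2
      exact ⟨c', c1.snoc x1 x2, x3⟩

theorem half {n m L L' p q p' q' : ℕ} {u v w a b a' b' : V} (ha : Γ.De p u a) (hb : Γ.De q v b)
    (hh : Γ.H L a b) (ha' : Γ.De p' w a') (hb' : Γ.De q' v b') (hh' : Γ.H L' a' b')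
    (le : p + q + L ≤ n) (s : L' ≤ 3) (o : q' ≤ q) :
    ∃ k, Γ.W k u w ∧ k + Γ.lev v ≤ max (n + Γ.lev w) m + 7 := by
  have l1 := hb.lev
  have l2 := hb'.lev
  obtain ⟨d, hd⟩ := de_ex (Γ := Γ) b' (n := q - q') (by omega)
  obtain ⟨c, c1, c2⟩ := hh'.deep hd
  have k := hb'.trans hd
  rw [show q' + (q - q') = q by omega] at k
  refine ⟨_, ((ha.walk.trans hh.walk).trans (hb.near k).walk).trans
    ((ha'.trans c1).walk.trans c2.walk).symm, ?_⟩
  have l3 := ha'.lev
  have l4 := hh'.lev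
  omega

theorem four {n m : ℕ} {u v w : V} (h : Γ.W n u v) (h' : Γ.W m w v) :
    ∃ k, Γ.W k u w ∧ k + Γ.lev v ≤ max (n + Γ.lev w) (m + Γ.lev u) + 7 := by
  obtain ⟨L, s, p, q, a, b, ha, hb, hh, le⟩ := h.nr.choose_spec.norm
  obtain ⟨L', s', p', q', a', b', ha', hb', hh', le'⟩ := h'.nr.choose_spec.norm
  rcases le_total q' q with o | o
  · exact half ha hb hh ha' hb' hh' le s' o
  · obtain ⟨k, k1, k2⟩ := half (m := n + Γ.lev w) ha' hb' hh' ha hb hh le' s o
    exact ⟨k, k1.symm, by omega⟩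

end Lg

variable {G : Type} [Group G] (L : Lv G)

/-- two vertices of one chamber -/
def Ad (a b : I × G) : Prop := ∃ c, a.2⁻¹ * c ∈ L.P a.1 ∧ b.2⁻¹ * c ∈ L.P b.1

variable {L}

theorem lev_eq {k : I} {g c : G} (h : g⁻¹ * c ∈ L.P k) : L.ℓ k c = L.ℓ k g := by
  rw [← L.inv k g _ h, mul_inv_cancel_left]

theorem rel {k : I} {g c d : G} (h : g⁻¹ * c ∈ L.P k) (h' : g⁻¹ * d ∈ L.P k) :
    c⁻¹ * d ∈ L.P k := by
  simpa [mul_assoc] using mul_mem (inv_mem h) h'

theorem step {k : I} {g c p : G} (h : g⁻¹ * c ∈ L.P k) (h' : p ∈ L.P k) :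
    g⁻¹ * (c * p) ∈ L.P k := by
  simpa [mul_assoc] using mul_mem h h'

theorem cham (c : G) : ∃ i j k n, Dis i j k ∧ L.ℓ i c = n + 1 ∧ L.ℓ j c = n + 1 ∧
    (L.ℓ k c = n ∨ L.ℓ k c = n + 2) ∧ ∃ x ∈ L.X k, L.ℓ k (c * x) = n := by
  obtain ⟨i, j, k, n, d, h1, h2, x, hx, h3, h4⟩ := L.panel c
  refine ⟨i, j, k, n, d, h1, h2, ?_, x, hx, h3⟩
  by_cases e : 1 = x
  · subst e; exact Or.inl (by simpa using h3)
  · exact Or.inr (by simpa using h4 1 (one_mem _) e)

theorem low {k j : I} (ne : k ≠ j) {c : G} (l : L.ℓ k c = L.ℓ j c) :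
    ∃ i, Dis i k j ∧ ∃ x ∈ L.X i, L.ℓ i (c * x) + 1 = L.ℓ k c := by
  obtain ⟨i', j', k', n, d, h1, h2, h3, x, hx, h4⟩ := cham (L := L) c
  have a : k' ≠ k := by
    rintro rfl
    rcases d.cases j with rfl | rfl | rfl <;> first | omega | exact ne rfl
  have b : k' ≠ j := by
    rintro rfl
    rcases d.cases k with rfl | rfl | rfl <;> first | omega | exact ne rfl
  refine ⟨k', ⟨a, b, ne⟩, x, hx, ?_⟩
  rcases d.cases k with rfl | rfl | rfl <;> first | omega | exact absurd rfl a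

theorem same {k j : I} {c d : G} (h : c⁻¹ * d ∈ L.P k) (l : L.ℓ j c + 1 = L.ℓ k c)
    (l' : L.ℓ j d + 1 = L.ℓ k c) : c⁻¹ * d ∈ L.P j := by
  have ne : j ≠ k := by rintro rfl; omega
  exact L.le (dis_thd ne).1 (L.uniq (dis_thd ne) c l _ h (by rwa [mul_inv_cancel_left]))

theorem two {a b c : I × G} (h : Ad L a b) (l : L.ℓ b.1 b.2 + 1 = L.ℓ a.1 a.2) (h' : Ad L a c)
    (l' : L.ℓ c.1 c.2 + 1 = L.ℓ a.1 a.2) : Ad L b c := by
  obtain ⟨k, g⟩ := a
  obtain ⟨j, x⟩ := b
  obtain ⟨i, y⟩ := c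
  obtain ⟨e, p, q⟩ := h
  obtain ⟨f, p', q'⟩ := h'
  simp only at *
  rw [← lev_eq q, ← lev_eq p] at l
  rw [← lev_eq q', ← lev_eq p] at l'
  have r := rel p p'
  by_cases s : i = j
  · subst s
    refine ⟨f, ?_, q'⟩
    simpa [mul_assoc] using mul_mem q (same r l l')
  · have d : Dis i j k := ⟨s, by rintro rfl; have := lev_eq r; omega, by rintro rfl; omega⟩
    obtain ⟨t, ht, l2⟩ := L.both d e l _ r (by rwa [mul_inv_cancel_left])
    have t1 := L.le d.2.1 ht
    have t2 := L.inv k e t t1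
    refine ⟨e * t, step q (L.le d.1 ht), ?_⟩
    have := same (rel (step p t1) p') (l2.trans t2.symm) (l'.trans t2.symm)
    simpa [mul_assoc] using mul_mem q' (inv_mem this)

theorem Ad.symm {a b : I × G} (h : Ad L a b) : Ad L b a := h.imp fun _ => And.symm

theorem Ad.move {a b c : I × G} (h : Ad L a b) (e : a.1 = b.1) (h' : Ad L b c) : Ad L a c := by
  obtain ⟨x, p, q⟩ := h
  obtain ⟨y, p', q'⟩ := h'
  refine ⟨y, ?_, q'⟩
  have := step p (e ▸ rel q p' : x⁻¹ * y ∈ L.P a.1)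
  rwa [mul_inv_cancel_left] at this

theorem two_of {k : I} {g e : G} (p : g⁻¹ * e ∈ L.P k) {c d : I × G} (hc : Ad L (k, g) c)
    (lc : L.ℓ c.1 c.2 + 1 = L.ℓ k g) (hd : Ad L (k, g) d) (ld : L.ℓ d.1 d.2 + 1 = L.ℓ k g)
    (ne : c.1 ≠ d.1) : L.Two k e := by
  have key : ∀ c : I × G, Ad L (k, g) c → L.ℓ c.1 c.2 + 1 = L.ℓ k g →
      c.1 ≠ k ∧ ∃ x ∈ L.P k, L.ℓ c.1 (e * x) + 1 = L.ℓ k e := by
    rintro c ⟨f, p', q'⟩ l
    have e3 := lev_eq p'
    have e4 := lev_eq q'
    refine ⟨fun r => ?_, _, rel p p', ?_⟩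
    · rw [r] at e4 l; simp only at e3; omega
    · rw [mul_inv_cancel_left, e4, lev_eq p, l]
  obtain ⟨c1, c2⟩ := key c hc lc
  obtain ⟨d1, d2⟩ := key d hd ld
  intro m hm
  rcases Dis.cases (⟨ne, c1, d1⟩ : Dis c.1 d.1 k) m with rfl | rfl | rfl
  exacts [c2, d2, absurd rfl hm]

/-- The graph of vertices. -/
def gr (hT : L.Thin) : Lg (I × G) where
  adj := Ad L
  lev a := L.ℓ a.1 a.2
  ty a := a.1
  refl a := ⟨a.2, by simp, by simp⟩
  symm := Ad.symm
  move := Ad.move
  lip := by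
    rintro ⟨k, g⟩ ⟨j, h⟩ ⟨c, p, q⟩
    obtain ⟨i', j', k', n, d, h1, h2, h3, -⟩ := cham (L := L) c
    simp only [← lev_eq p, ← lev_eq q]
    rcases d.cases k with rfl | rfl | rfl <;> rcases d.cases j with rfl | rfl | rfl <;> omega
  zero := by
    rintro ⟨k, g⟩ ⟨j, h⟩ p q
    obtain ⟨rfl, p⟩ := (L.zero _ _).1 p
    obtain ⟨rfl, q⟩ := (L.zero _ _).1 q
    exact ⟨1, by simpa using p, by simpa using q⟩
  com := by
    rintro ⟨k, g⟩ ⟨j, h⟩ ⟨c, p, q⟩ l z
    have e1 := lev_eq p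
    have e2 := lev_eq q
    simp only at *
    by_cases s : k = j
    · subst s
      obtain ⟨i, n, x, hx, lx⟩ := L.down k c (by omega)
      exact ⟨(i, c * x), ⟨⟨c * x, step p hx, by simp⟩, lx.trans e1⟩,
        ⟨⟨c * x, step q hx, by simp⟩, lx.trans e2⟩, n, n⟩
    · obtain ⟨i, d, x, hx, lx⟩ := low s (e1.trans (l.trans e2.symm))
      exact ⟨(i, c * x), ⟨⟨c * x, step p (L.le d.1 hx), by simp⟩, lx.trans e1⟩,
        ⟨⟨c * x, step q (L.le d.2.1 hx), by simp⟩, lx.trans (e1.trans l)⟩, d.1, d.2.1⟩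
  two := two
  thin := by
    rintro ⟨k, g⟩ ⟨j, h⟩ c c' d d' ⟨e, p, q⟩ l rfl t a1 a2 a3 a4 n b1 b2 b3 b4
    by_contra n'
    exact hT j e t ((lev_eq p).trans (l.trans (lev_eq q).symm))
      ⟨two_of p a1 a2 a3 a4 n, two_of q b1 b2 b3 b4 n'⟩

/-- words in the vertex groups -/
def Wd (L : Lv G) (n : ℕ) (g : G) : Prop :=
  ∃ l : List G, l.length = n ∧ (∀ s ∈ l, ∃ k, s ∈ L.P k) ∧ l.prod = g

theorem Wd.snoc {n : ℕ} {g p : G} {k : I} (h : Wd L n g) (hp : p ∈ L.P k) :
    Wd L (n + 1) (g * p) := by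
  obtain ⟨l, h1, h2, h3⟩ := h
  refine ⟨l ++ [p], by simp [h1], fun s hs => ?_, by simp [h3]⟩
  rcases List.mem_append.1 hs with r | r
  · exact h2 s r
  · exact ⟨k, List.mem_singleton.1 r ▸ hp⟩

theorem word_of_walk (hT : L.Thin) {n : ℕ} {a b : I × G} (h : (gr hT).W n a b) :
    ∀ p ∈ L.P b.1, Wd L (n + 1) (a.2⁻¹ * b.2 * p) := by
  induction h with
  | nil a => exact fun p hp => Wd.snoc ⟨[], rfl, by simp, by simp⟩ hp
  | snoc _ e ih =>
    intro p hp
    obtain ⟨c, r, s⟩ := e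
    simpa [mul_assoc] using (ih _ r).snoc (mul_mem (inv_mem s) hp)

theorem walk_of_word (hT : L.Thin) (l : List G) (hl : ∀ s ∈ l, ∃ k, s ∈ L.P k) (a : I × G)
    (x : G) (hx : a.2⁻¹ * x ∈ L.P a.1) : (gr hT).W (l.length + 1) a (.i0, x * l.prod) := by
  induction l generalizing a x with
  | nil => exact (Lg.W.nil _).snoc ⟨x, hx, by simp⟩
  | cons s l ih =>
    obtain ⟨k, hk⟩ := hl s (by simp)
    have := ((Lg.W.nil (Γ := gr hT) a).snoc (c := (k, x)) ⟨x, hx, by simp⟩).trans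
      (ih (fun t ht => hl t (by simp [ht])) (k, x) (x * s) (by simpa using hk))
    rw [List.prod_cons, ← mul_assoc, List.length_cons]
    convert this using 1
    omega

theorem word_root (hT : L.Thin) (z : G) : Wd L (L.ℓ .i0 z + 1) z⁻¹ := by
  obtain ⟨b, hb⟩ := Lg.de_ex (Γ := gr hT) (.i0, z) le_rfl
  have l := hb.lev
  obtain ⟨e, p⟩ := (L.zero b.1 b.2).1 (Nat.add_right_cancel (l.trans (zero_add _).symm))
  have := word_of_walk hT hb.walk b.2⁻¹ (e ▸ inv_mem p)
  rwa [mul_inv_cancel_right] at this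

theorem fourPoint (hT : L.Thin) {S : Set G} (hS : ∀ s, s ∈ S ↔ ∃ k, s ∈ L.P k) : FourPoint S := by
  have wl : ∀ g, wordLen S g = sInf {n | Wd L n g} := fun g => by
    simp only [wordLen, Wd, hS, inv_mem_iff, or_self]
  have up : ∀ {n g}, Wd L n g → wordLen S g ≤ n := fun h => wl _ ▸ Nat.sInf_le h
  have wk : ∀ x y : G, (gr hT).W (wordLen S (x⁻¹ * y) + 1) (.i0, x) (.i0, y) := by
    intro x y
    have : Wd L (wordLen S (x⁻¹ * y)) (x⁻¹ * y) := wl _ ▸
      Nat.sInf_mem (s := {n | Wd L n (x⁻¹ * y)}) ⟨_, inv_inv (x⁻¹ * y) ▸ word_root hT _⟩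
    obtain ⟨l, h1, h2, h3⟩ := this
    simpa [h1, h3] using walk_of_word hT l h2 (.i0, x) x (by simp)
  have lv : ∀ y : G, L.ℓ .i0 y ≤ wordLen S y⁻¹ + 1 := fun y => by
    have := (wk y 1).symm.lip
    rwa [mul_one, show (gr hT).lev (.i0, 1) = 0 from (L.zero _ _).2 ⟨rfl, one_mem _⟩,
      zero_add] at this
  refine ⟨11, fun w x y z => ?_⟩
  obtain ⟨k, k1, k2⟩ := Lg.four (wk (w⁻¹ * x) (w⁻¹ * z)) (wk (w⁻¹ * y) (w⁻¹ * z))
  have a1 := up (word_of_walk hT k1 1 (one_mem _))
  have a2 := up (word_root hT (w⁻¹ * z))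
  have a3 := lv (w⁻¹ * x)
  have a4 := lv (w⁻¹ * y)
  change k + L.ℓ .i0 _ ≤ max (_ + L.ℓ .i0 _) (_ + L.ℓ .i0 _) + 7 at k2
  simp only [mul_inv_rev, inv_inv, mul_assoc, mul_inv_cancel_left, mul_one] at *
  omega

theorem closure_eq {S : Set G} (hS : ∀ s, s ∈ S ↔ ∃ k, s ∈ L.P k) (gen : ⨆ k, L.P k = ⊤) :
    Subgroup.closure S = ⊤ := by
  rw [show S = ⋃ k, (L.P k : Set G) from Set.ext fun s => by simp [hS], Subgroup.closure_iUnion,
    ← gen]
  simp

/-- the first level is locally finite -/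
theorem fin_ball (hT : L.Thin) (fin : ∀ k, k ≠ .i0 → Finite (L.P k)) {a : I × G}
    (la : L.ℓ a.1 a.2 = 1) (m : ℕ) : {b | (gr hT).H m a b}.Finite := by
  have t : ∀ b : I × G, L.ℓ b.1 b.2 = 1 → b.1 ≠ .i0 := fun b l e => by
    obtain ⟨j, n, x, -, lx⟩ := L.down b.1 b.2 (by omega)
    exact n (((L.zero _ _).1 (by omega : L.ℓ j (b.2 * x) = 0)).1.trans e.symm)
  have hf : (⋃ k ∈ {k : I | k ≠ .i0}, (L.P k : Set G)).Finite :=
    (Set.toFinite _).biUnion fun k hk => have := fin k hk; Set.toFinite _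
  induction m with
  | zero => exact (Set.finite_singleton a).subset fun b h => by cases h; rfl
  | succ m ih =>
    refine (((Set.toFinite (Set.univ : Set I)).prod (ih.prod (hf.prod hf))).image
      fun x => (x.1, x.2.1.2 * x.2.2.1 * x.2.2.2⁻¹)).subset fun c h => ?_
    cases h with
    | @snoc _ _ b _ h e l =>
      obtain ⟨x, p, q⟩ := e
      have lb : L.ℓ b.1 b.2 = 1 := h.lev.symm.trans la
      refine ⟨(c.1, b, b.2⁻¹ * x, c.2⁻¹ * x), ⟨trivial, h, ?_, ?_⟩, by simp⟩
      · exact Set.mem_biUnion (t b lb) p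
      · exact Set.mem_biUnion (t c (l.symm.trans lb)) q

end Hyp

open Hyp in
theorem Lv.hyp {G : Type} [Group G] (L : Lv G) (hT : L.Thin) (fin : ∀ k, Finite (L.P k))
    (gen : ⨆ k, L.P k = ⊤) : Hyperbolic G := by
  have hf : (⋃ k, (L.P k : Set G)).Finite := Set.finite_iUnion fun k => Set.toFinite _
  have hS : ∀ s, s ∈ (hf.toFinset : Set G) ↔ ∃ k, s ∈ L.P k := by simp
  exact ⟨hf.toFinset, closure_eq hS gen, fourPoint hT hS⟩

open Hyp in
theorem Lv.relHyp {G : Type} [Group G] (L : Lv G) (hT : L.Thin)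
    (fin : ∀ k, k ≠ .i0 → Finite (L.P k)) (gen : ⨆ k, L.P k = ⊤) :
    RelHyperbolic G (L.P .i0) := by
  have hf : (⋃ k ∈ {k : I | k ≠ .i0}, (L.P k : Set G)).Finite :=
    (Set.toFinite _).biUnion fun k hk => have := fin k hk; Set.toFinite _
  have h0 : ∀ s, s ∈ hf.toFinset ↔ ∃ k, k ≠ .i0 ∧ s ∈ L.P k := by simp
  have hS : ∀ s, s ∈ (hf.toFinset : Set G) ∪ L.P .i0 ↔ ∃ k, s ∈ L.P k := fun s => by
    refine ⟨?_, fun ⟨k, hk⟩ => ?_⟩
    · rintro (h | h)
      · exact ((h0 s).1 h).imp fun _ h => h.2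
      · exact ⟨_, h⟩
    · by_cases e : k = .i0
      · exact Or.inr (e ▸ hk)
      · exact Or.inl ((h0 s).2 ⟨k, e, hk⟩)
  refine ⟨hf.toFinset, closure_eq hS gen, fourPoint hT hS, fun n => ?_⟩
  have nz : ∀ g, L.ℓ .i1 g ≠ 0 := fun g e => absurd ((L.zero _ _).1 e).1 (by decide)
  have one : ∀ g ∈ L.P .i0, L.ℓ .i1 g = 1 := fun g hg => by
    have := (gr hT).lip (a := (.i0, g)) (b := (.i1, g)) ⟨g, by simp, by simp⟩
    have e : L.ℓ .i0 g = 0 := (L.zero _ _).2 ⟨rfl, hg⟩
    have := nz g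
    change L.ℓ .i1 g ≤ L.ℓ .i0 g + 1 at *
    omega
  have de : ∀ a : I × G, L.ℓ a.1 a.2 ≠ 0 → ∃ p b, (gr hT).De p a b ∧ (gr hT).lev b = 1 :=
    fun a z => by
      obtain ⟨b, hb⟩ := Lg.de_ex (Γ := gr hT) a (n := L.ℓ a.1 a.2 - 1) (Nat.sub_le _ _)
      have := hb.lev
      change _ = L.ℓ a.1 a.2 at this
      exact ⟨_, b, hb, by omega⟩
  refine ((fin_ball hT fin (a := (.i1, 1)) (one 1 (one_mem _)) (16 * n)).image Prod.snd).subset ?_
  rintro h ⟨hh, γ, g0, gn, st⟩
  have key : ∀ i ≤ n, ∀ p b, (gr hT).De p (.i1, γ i) b → (gr hT).lev b = 1 →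
      (gr hT).H (16 * i) (.i1, 1) b := by
    intro i hi
    induction i with
    | zero =>
      intro p b hb l
      have := hb.lev
      change _ = L.ℓ .i1 (γ 0) at this
      rw [g0, one 1 (one_mem _)] at this
      obtain rfl : p = 0 := by omega
      cases hb
      rw [g0]
      exact Lg.H.nil _
    | succ i ih =>
      intro p b hb l
      obtain ⟨k, k1, k2⟩ : ∃ k, (γ i)⁻¹ * γ (i + 1) ∈ L.P k ∧ L.ℓ k (γ i) ≠ 0 := by
        rcases st i hi with s | s | ⟨s, s'⟩
        · obtain ⟨k, e, s⟩ := (h0 _).1 s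
          exact ⟨k, s, fun z => e ((L.zero _ _).1 z).1⟩
        · obtain ⟨k, e, s⟩ := (h0 _).1 s
          exact ⟨k, by simpa using inv_mem s, fun z => e ((L.zero _ _).1 z).1⟩
        · exact ⟨.i0, s, fun z => s' ((L.zero _ _).1 z).2⟩
      obtain ⟨p1, b1, x1, y1⟩ := de (.i1, γ i) (nz _)
      obtain ⟨p2, b2, x2, y2⟩ := de (k, γ i) k2
      exact ((ih (by omega) p1 b1 x1 y1).trans
        (Lg.link (Γ := gr hT) ⟨γ i, by simp, by simp⟩ x1 x2 y1 y2)).trans
        (Lg.link (Γ := gr hT) ⟨γ (i + 1), k1, by simp⟩ x2 hb y2 l)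
  exact ⟨(.i1, h), gn ▸ key n le_rfl 0 _ (Lg.De.nil _) (gn ▸ one h hh), rfl⟩

end Pool.Agent.MP_434e52_an

end

section

/-!
Elements of order four fix a vertex (section 7, Smith theory).
-/

set_option autoImplicit false

namespace Pool.Agent.MP_434e52_an

namespace Tor

open Finsupp

abbrev F : Type := ZMod 2

theorem F_ne (a b : F) (ha : a ≠ 0) (hb : b ≠ 0) : a + b = 0 := by
  revert a b; decide

theorem aa {M : Type} [AddCommGroup M] [Module F M] (x : M) : x + x = 0 := ZModModule.add_self x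

theorem eq_of_add {M : Type} [AddCommGroup M] [Module F M] {x y : M} (h : x + y = 0) : x = y := by
  have h2 : x + y + y = y := by rw [h, zero_add]
  rwa [add_assoc, aa, add_zero] at h2

theorem eq_add_of_add {M : Type} [AddCommGroup M] [Module F M] {x y z : M} (h : x + y = z) :
    x = z + y := by rw [← h, add_assoc, aa, add_zero]

section Perm

variable {X : Type} (a : X → X)

/-- `1 + a` -/
noncomputable def sg : (X →₀ F) →ₗ[F] (X →₀ F) := LinearMap.id + lmapDomain F F a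

theorem sg_apply (c : X →₀ F) : sg a c = c + mapDomain a c := rfl

theorem sg_single (x : X) : sg a (single x 1) = single x 1 + single (a x) 1 := by
  rw [sg_apply, mapDomain_single]

theorem sg_sg (c : X →₀ F) : sg a (sg a c) = c + mapDomain a (mapDomain a c) := by
  rw [sg_apply, sg_apply, mapDomain_add, add_assoc, ← add_assoc (mapDomain a c), aa, zero_add]

variable (h4 : ∀ x, a (a (a (a x))) = x)
include h4

theorem inj : Function.Injective a := fun x y h => by rw [← h4 x, ← h4 y, h]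

theorem map_apply (c : X →₀ F) (y : X) : mapDomain a c y = c (a (a (a y))) := by
  conv_lhs => rw [← h4 y]
  exact mapDomain_apply (inj a h4) c _

theorem sg4 (c : X →₀ F) : sg a (sg a (sg a (sg a c))) = 0 := by
  rw [sg_sg, sg_sg]
  ext y
  simp only [Finsupp.add_apply, map_apply a h4, h4, Finsupp.zero_apply]
  generalize c y = u
  generalize c (a (a y)) = w
  revert u w; decide

theorem sg2_fix (c : X →₀ F) (h : ∀ x, c x ≠ 0 → a (a x) = x) : sg a (sg a c) = 0 := by
  rw [sg_sg]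
  ext y
  simp only [Finsupp.add_apply, map_apply a h4, h4, Finsupp.zero_apply]
  by_cases h1 : c y = 0
  · by_cases h2 : c (a (a y)) = 0
    · rw [h1, h2, add_zero]
    · have h3 := h _ h2
      rw [h4] at h3
      rw [← h3] at h2
      exact absurd h1 h2
  · rw [h y h1]; exact aa _

omit h4 in
theorem small (c u : X →₀ F) (x : X) (hc : c x ≠ 0) (hu : u x ≠ 0)
    (h : ∀ y, c y = 0 → u y = 0) : (c + u).support.card < c.support.card := by
  refine Finset.card_lt_card ⟨fun y hy => ?_, fun hs => ?_⟩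
  · rw [mem_support_iff] at hy ⊢
    intro h0
    exact hy (by rw [Finsupp.add_apply, h0, h y h0, add_zero])
  · have h1 := hs (mem_support_iff.2 hc)
    rw [mem_support_iff] at h1
    exact h1 (F_ne _ _ hc hu)

theorem permB : ∀ (n : ℕ) (c : X →₀ F), c.support.card ≤ n → sg a (sg a (sg a c)) = 0 →
    ∃ c2 e, c = c2 + sg a e ∧ ∀ x, c2 x ≠ 0 → a (a x) = x := by
  classical
  intro n
  induction n with
  | zero =>
    intro c hn _
    have h0 : c = 0 := by simpa using hn
    exact ⟨0, 0, by simp [h0], fun x hx => absurd rfl hx⟩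
  | succ n ih =>
    intro c hn hc
    by_cases hall : ∀ x, c x ≠ 0 → a (a x) = x
    · exact ⟨c, 0, by simp, hall⟩
    push Not at hall
    obtain ⟨x, hx, h2⟩ := hall
    have h1 : a x ≠ x := fun h => h2 (by rw [h, h])
    have h3 : a (a (a x)) ≠ x := fun h => h1 (by conv_lhs => rw [← h]; rw [h4])
    have key : ∃ y, y ≠ x ∧ c y ≠ 0 ∧ ∃ e, sg a e = single x 1 + single y 1 := by
      by_contra hno
      push Not at hno
      have e1 : c (a x) = 0 := by
        by_contra h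
        exact hno _ h1 h (single x 1) (sg_single a x)
      have e2 : c (a (a x)) = 0 := by
        by_contra h
        refine hno _ h2 h (sg a (single x 1)) ?_
        rw [sg_sg, mapDomain_single, mapDomain_single]
      have e3 : c (a (a (a x))) = 0 := by
        by_contra h
        refine hno _ h3 h (single (a (a (a x))) 1) ?_
        rw [sg_single, h4, add_comm]
      have e4 := DFunLike.congr_fun hc x
      rw [sg_sg, sg_apply] at e4
      simp only [Finsupp.add_apply, map_apply a h4, h4, Finsupp.zero_apply, e1, e2, e3,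
        add_zero] at e4
      exact hx e4
    obtain ⟨y, hy, hcy, e, he⟩ := key
    have hs := small c (sg a e) x hx (by rw [he]; simp [single_apply, hy]) (fun z hz => by
      have z1 : x ≠ z := fun h => hx (h ▸ hz)
      have z2 : y ≠ z := fun h => hcy (h ▸ hz)
      rw [he]; simp [single_apply, z1, z2])
    obtain ⟨c2, e2, h5, h6⟩ := ih (c + sg a e) (by omega) (by
      simp only [map_add, hc, sg4 a h4, add_zero])
    refine ⟨c2, e2 + e, ?_, h6⟩
    rw [map_add, ← add_assoc]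
    exact eq_add_of_add h5

theorem permA (hf : ∀ x, a x ≠ x) : ∀ (n : ℕ) (c : X →₀ F), c.support.card ≤ n → sg a c = 0 →
    ∃ e f, c = sg a e + sg a (sg a (sg a f)) ∧ ∀ x, e x ≠ 0 → a (a x) = x := by
  classical
  intro n
  induction n with
  | zero =>
    intro c hn _
    have h0 : c = 0 := by simpa using hn
    exact ⟨0, 0, by simp [h0], fun x hx => absurd rfl hx⟩
  | succ n ih =>
    intro c hn hc
    by_cases h0 : c = 0
    · exact ⟨0, 0, by simp [h0], fun x hx => absurd rfl hx⟩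
    obtain ⟨x, hx⟩ : ∃ x, c x ≠ 0 := by
      by_contra hno
      push Not at hno
      exact h0 (Finsupp.ext hno)
    have hinv : ∀ y, c (a y) = c y := fun y => by
      have e4 := DFunLike.congr_fun hc (a y)
      rw [sg_apply] at e4
      simp only [Finsupp.add_apply, map_apply a h4, h4, Finsupp.zero_apply] at e4
      exact eq_of_add e4
    have h1 := hf x
    by_cases h2 : a (a x) = x
    · have hs := small c (sg a (single x 1)) x hx (by rw [sg_single]; simp [single_apply, h1])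
        (fun z hz => by
          have z1 : x ≠ z := fun h => hx (h ▸ hz)
          have z2 : a x ≠ z := fun h => hx (by rw [← hinv, h, hz])
          rw [sg_single]; simp [single_apply, z1, z2])
      have hx1 : ∀ y, (single x (1 : F)) y ≠ 0 → a (a y) = y := fun y hy => by
        have : x = y := by
          by_contra hne
          exact hy (by simp [single_apply, hne])
        rw [← this]; exact h2
      obtain ⟨e, f, h5, h6⟩ := ih (c + sg a (single x 1)) (by omega) (by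
        rw [map_add, hc, sg2_fix a h4 _ hx1, add_zero])
      refine ⟨e + single x 1, f, ?_, fun y hy => ?_⟩
      · rw [map_add, add_right_comm]
        exact eq_add_of_add h5
      · by_cases hy1 : e y = 0
        · exact hx1 y (fun h => hy (by rw [Finsupp.add_apply, hy1, h, add_zero]))
        · exact h6 y hy1
    · have h3 : a (a (a x)) ≠ x := fun h => h1 (by conv_lhs => rw [← h]; rw [h4])
      have hN : sg a (sg a (sg a (single x 1))) = single x 1 + single (a x) 1 +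
          (single (a (a x)) 1 + single (a (a (a x))) 1) := by
        rw [sg_sg, sg_single]
        simp only [mapDomain_add, mapDomain_single]
      have hs := small c (sg a (sg a (sg a (single x 1)))) x hx
        (by rw [hN]; simp [single_apply, h1, h2, h3]) (fun z hz => by
          have z1 : x ≠ z := fun h => hx (h ▸ hz)
          have z2 : a x ≠ z := fun h => hx (by rw [← hinv, h, hz])
          have z3 : a (a x) ≠ z := fun h => hx (by rw [← hinv, ← hinv, h, hz])
          have z4 : a (a (a x)) ≠ z := fun h => hx (by rw [← hinv, ← hinv, ← hinv, h, hz])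
          rw [hN]; simp [single_apply, z1, z2, z3, z4])
      obtain ⟨e, f, h5, h6⟩ := ih (c + sg a (sg a (sg a (single x 1)))) (by omega) (by
        rw [map_add, hc, sg4 a h4, add_zero])
      refine ⟨e, f + single x 1, ?_, h6⟩
      rw [map_add, map_add, map_add, ← add_assoc]
      exact eq_add_of_add h5

theorem kerA (hf : ∀ x, a x ≠ x) (c : X →₀ F) (hc : sg a c = 0) : ∃ e, c = sg a e := by
  obtain ⟨e, f, h, -⟩ := permA a h4 hf _ c le_rfl hc
  exact ⟨e + sg a (sg a f), by rw [map_add]; exact h⟩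

theorem kerB (c : X →₀ F) (hc : sg a (sg a (sg a c)) = 0) :
    ∃ c2 e, c = c2 + sg a e ∧ sg a (sg a c2) = 0 := by
  obtain ⟨c2, e, h, h'⟩ := permB a h4 _ c le_rfl hc
  exact ⟨c2, e, h, sg2_fix a h4 c2 h'⟩

theorem freeA (hf : ∀ x, a (a x) ≠ x) (c : X →₀ F) (hc : sg a c = 0) :
    ∃ f, c = sg a (sg a (sg a f)) := by
  obtain ⟨e, f, h, h'⟩ := permA a h4 (fun x hx => hf x (by rw [hx, hx])) _ c le_rfl hc
  have h0 : e = 0 := Finsupp.ext fun x => by
    by_contra hne
    exact hf x (h' x hne)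
  exact ⟨f, by rw [h, h0, map_zero, zero_add]⟩

theorem freeB (hf : ∀ x, a (a x) ≠ x) (c : X →₀ F) (hc : sg a (sg a (sg a c)) = 0) :
    ∃ e, c = sg a e := by
  obtain ⟨c2, e, h, h'⟩ := permB a h4 _ c le_rfl hc
  have h0 : c2 = 0 := Finsupp.ext fun x => by
    by_contra hne
    exact hf x (h' x hne)
  exact ⟨e, by rw [h, h0, zero_add]⟩

end Perm

/-- the diagram chase -/
theorem smith {T E V : Type} (a2 : T → T) (a1 : E → E) (a0 : V → V)
    (p2 : ∀ x, a2 (a2 (a2 (a2 x))) = x) (p1 : ∀ x, a1 (a1 (a1 (a1 x))) = x)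
    (p0 : ∀ x, a0 (a0 (a0 (a0 x))) = x) (f2 : ∀ x, a2 (a2 x) ≠ x) (f1 : ∀ x, a1 x ≠ x)
    (f0 : ∀ x, a0 x ≠ x) (d2 : (T →₀ F) →ₗ[F] (E →₀ F)) (d1 : (E →₀ F) →ₗ[F] (V →₀ F))
    (ε : (V →₀ F) →ₗ[F] F) (c2 : ∀ c, d2 (sg a2 c) = sg a1 (d2 c))
    (c1 : ∀ c, d1 (sg a1 c) = sg a0 (d1 c)) (c0 : ∀ c, ε (sg a0 c) = 0)
    (i2 : ∀ c, d2 c = 0 → c = 0) (z2 : ∀ c, d1 (d2 c) = 0) (x1 : ∀ e, d1 e = 0 → ∃ c, e = d2 c)
    (z1 : ∀ e, ε (d1 e) = 0) (x0 : ∀ v, ε v = 0 → ∃ e, v = d1 e) (v : V →₀ F) (hv : ε v = 1) :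
    False := by
  obtain ⟨e, he⟩ := x0 _ (c0 v)
  obtain ⟨c, hc⟩ := x1 (sg a1 (sg a1 (sg a1 e))) (by rw [c1, c1, c1, ← he, sg4 a0 p0])
  obtain ⟨c', hc'⟩ := freeA a2 p2 f2 c (i2 _ (by rw [c2, ← hc, sg4 a1 p1]))
  obtain ⟨e2, e1, h1, h2⟩ := kerB a1 p1 (e + d2 c') (by
    rw [map_add, map_add, map_add, ← c2, ← c2, ← c2, ← hc', hc, aa])
  have h3 : sg a0 (v + d1 e1) = d1 e2 := by
    have h := congrArg d1 h1
    rw [map_add, map_add, z2, add_zero, c1, ← he] at h
    rw [map_add, h, add_assoc, aa, add_zero]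
  obtain ⟨m, m1, h4, h5⟩ := kerB a0 p0 (v + d1 e1) (by rw [h3, ← c1, ← c1, h2, map_zero])
  have hm : ε m = 1 := by
    have h := congrArg ε h4
    rw [map_add, map_add, z1, c0, add_zero, add_zero, hv] at h
    exact h.symm
  obtain ⟨k, hk⟩ := x0 _ (c0 m)
  obtain ⟨b, hb⟩ := x1 (sg a1 k) (by rw [c1, ← hk, h5])
  obtain ⟨b', hb'⟩ := freeB a2 p2 f2 b (i2 _ (by rw [c2, c2, c2, ← hb, sg4 a1 p1]))
  obtain ⟨k1, h6⟩ := kerA a1 p1 f1 (k + d2 b') (by rw [map_add, ← c2, ← hb', hb, aa])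
  obtain ⟨w, hw⟩ := kerA a0 p0 f0 (m + d1 k1) (by
    have h := congrArg d1 h6
    rw [map_add, z2, add_zero, c1, ← hk] at h
    rw [map_add, h, aa])
  have h := congrArg ε hw
  rw [map_add, z1, c0, add_zero, hm] at h
  exact one_ne_zero h

section Cx

variable {G : Type} [Group G] (L : Lv G)

/-- vertices -/
abbrev Vx : Type := Σ k : I, G ⧸ L.P k
/-- edges -/
abbrev Ed : Type := Σ i : I, G ⧸ L.X i

/-- vertex of type `k` of a chamber -/
def vx (k : I) (g : G) : Vx L := ⟨k, (g : G ⧸ L.P k)⟩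
/-- edge of type `i` of a chamber -/
def ed (i : I) (g : G) : Ed L := ⟨i, (g : G ⧸ L.X i)⟩

theorem vx_surj (v : Vx L) : ∃ k g, v = vx L k g := by
  obtain ⟨k, q⟩ := v
  induction q using QuotientGroup.induction_on with
  | H g => exact ⟨k, g, rfl⟩

theorem ed_surj (v : Ed L) : ∃ k g, v = ed L k g := by
  obtain ⟨k, q⟩ := v
  induction q using QuotientGroup.induction_on with
  | H g => exact ⟨k, g, rfl⟩

theorem vx_eq {k : I} {g h : G} : vx L k g = vx L k h ↔ g⁻¹ * h ∈ L.P k := by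
  simp [vx, QuotientGroup.eq]

theorem ed_eq {k : I} {g h : G} : ed L k g = ed L k h ↔ g⁻¹ * h ∈ L.X k := by
  simp [ed, QuotientGroup.eq]

theorem ed_ne {i j : I} (h : i ≠ j) (g g' : G) : ed L i g ≠ ed L j g' :=
  fun e => h (congrArg Sigma.fst e)

theorem vx_mul {k : I} (g : G) {p : G} (hp : p ∈ L.P k) : vx L k (g * p) = vx L k g := by
  rw [vx_eq]; simpa using hp

theorem ed_mul {k : I} (g : G) {p : G} (hp : p ∈ L.X k) : ed L k (g * p) = ed L k g := by
  rw [ed_eq]; simpa using hp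

theorem l_eq {k : I} {g h : G} (e : g⁻¹ * h ∈ L.P k) : L.ℓ k h = L.ℓ k g := by
  have := L.inv k g _ e
  rwa [mul_inv_cancel_left] at this

/-- level of a vertex -/
def lev (v : Vx L) : ℕ :=
  Quotient.liftOn' v.2 (L.ℓ v.1) fun _ _ h => (l_eq L (QuotientGroup.leftRel_apply.1 h)).symm

theorem lev_vx (k : I) (g : G) : lev L (vx L k g) = L.ℓ k g := rfl

theorem nx2_ne (i : I) : nx (nx i) ≠ i := by revert i; decide

theorem dis_nx {i j k : I} (h : Dis i j k) :
    (j = nx i ∧ k = nx (nx i)) ∨ (k = nx i ∧ j = nx (nx i)) := by revert i j k; decide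

theorem dis_self (i : I) : Dis i (nx i) (nx (nx i)) := by revert i; decide

/-- boundary of an edge -/
noncomputable def bd (e : Ed L) : Vx L →₀ F :=
  Quotient.liftOn' e.2
    (fun g => single (vx L (nx e.1) g) 1 + single (vx L (nx (nx e.1)) g) 1) fun _ _ h => by
      have h' := QuotientGroup.leftRel_apply.1 h
      rw [(vx_eq L).2 (L.le (nx_ne _).symm h'), (vx_eq L).2 (L.le (nx2_ne _).symm h')]

theorem bd_ed {i j k : I} (h : Dis i j k) (g : G) :
    bd L (ed L i g) = single (vx L j g) 1 + single (vx L k g) 1 := by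
  rcases dis_nx h with ⟨rfl, rfl⟩ | ⟨rfl, rfl⟩
  · rfl
  · exact add_comm _ _

/-- boundary of a chamber -/
noncomputable def tri (g : G) : Ed L →₀ F :=
  single (ed L .i0 g) 1 + single (ed L .i1 g) 1 + single (ed L .i2 g) 1

theorem tri_eq {i j k : I} (h : Dis i j k) (g : G) :
    tri L g = single (ed L i g) 1 + single (ed L j g) 1 + single (ed L k g) 1 := by
  unfold tri
  obtain ⟨h1, h2, h3⟩ := h
  cases i <;> cases j <;> cases k <;> first | contradiction | abel

/-- the boundary maps and the augmentation -/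
noncomputable def d2 : (G →₀ F) →ₗ[F] (Ed L →₀ F) := linearCombination F (tri L)
noncomputable def d1 : (Ed L →₀ F) →ₗ[F] (Vx L →₀ F) := linearCombination F (bd L)
noncomputable def au : (Vx L →₀ F) →ₗ[F] F := linearCombination F fun _ => 1

theorem d2_single (g : G) : d2 L (single g 1) = tri L g := by simp [d2]
theorem d1_single (e : Ed L) : d1 L (single e 1) = bd L e := by simp [d1]
theorem au_single (v : Vx L) : au L (single v 1) = 1 := by simp [au]

theorem lin_ext {X M : Type} [AddCommGroup M] [Module F M] {f g : (X →₀ F) →ₗ[F] M}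
    (h : ∀ x, f (single x 1) = g (single x 1)) (c : X →₀ F) : f c = g c := by
  have : f = g := by
    refine Finsupp.lhom_ext fun x b => ?_
    rw [← smul_single_one, map_smul, map_smul, h]
  rw [this]

theorem dis012 : Dis .i0 .i1 .i2 := by decide

theorem d1_d2 (c : G →₀ F) : d1 L (d2 L c) = 0 := by
  refine lin_ext (f := (d1 L).comp (d2 L)) (g := 0) (fun g => ?_) c
  rw [LinearMap.comp_apply, d2_single, tri, map_add, map_add, d1_single, d1_single, d1_single,
    bd_ed L dis012, bd_ed L dis012.s12, bd_ed L dis012.s13, LinearMap.zero_apply]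
  generalize single (vx L .i0 g) (1 : F) = u
  generalize single (vx L .i1 g) (1 : F) = v
  generalize single (vx L .i2 g) (1 : F) = w
  calc v + w + (u + w) + (v + u) = (u + u) + (v + v) + (w + w) := by abel
    _ = 0 := by simp only [aa, add_zero]

theorem au_d1 (c : Ed L →₀ F) : au L (d1 L c) = 0 := by
  refine lin_ext (f := (au L).comp (d1 L)) (g := 0) (fun e => ?_) c
  obtain ⟨i, g, rfl⟩ := ed_surj L e
  rw [LinearMap.comp_apply, d1_single, bd_ed L (dis_self i), map_add, au_single, au_single,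
    LinearMap.zero_apply]
  exact aa _

/-- levels of a chamber -/
theorem shape (g : G) : ∃ i j k n, Dis i j k ∧ L.ℓ i g = n + 1 ∧ L.ℓ j g = n + 1 ∧
    ((L.ℓ k g = n ∧ ∀ x ∈ L.X k, x ≠ 1 → L.ℓ k (g * x) = n + 2) ∨ L.ℓ k g = n + 2) ∧
    ∃ x ∈ L.X k, L.ℓ k (g * x) = n := by
  obtain ⟨i, j, k, n, h, h1, h2, x, hx, h3, h4⟩ := L.panel g
  refine ⟨i, j, k, n, h, h1, h2, ?_, x, hx, h3⟩
  by_cases e : x = 1
  · subst e
    exact Or.inl ⟨by simpa using h3, h4⟩
  · exact Or.inr (by simpa using h4 1 (one_mem _) (Ne.symm e))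

theorem horiz {i j k : I} (h : Dis i j k) (g : G) (e : L.ℓ j g = L.ℓ k g) :
    ∃ x ∈ L.X i, L.ℓ i (g * x) + 1 = L.ℓ j g := by
  obtain ⟨i', j', k', n, h', h1, h2, h3, x, hx, h4⟩ := shape L g
  have h5 : L.ℓ k' g ≠ n + 1 := by rcases h3 with h3 | h3 <;> omega
  have hk : k' = i := by
    rcases h.cases k' with e1 | e1 | e1
    · exact e1
    · subst e1
      rcases h'.cases k with e2 | e2 | e2
      · subst e2; omega
      · subst e2; omega
      · exact absurd e2.symm h.2.2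
    · subst e1
      rcases h'.cases j with e2 | e2 | e2
      · subst e2; omega
      · subst e2; omega
      · exact absurd e2 h.2.2
  subst hk
  refine ⟨x, hx, ?_⟩
  rcases h'.cases j with e2 | e2 | e2
  · subst e2; omega
  · subst e2; omega
  · exact absurd e2.symm h.1

theorem near {j k : I} (h : j ≠ k) (g : G) :
    L.ℓ j g = L.ℓ k g ∨ L.ℓ j g + 1 = L.ℓ k g ∨ L.ℓ k g + 1 = L.ℓ j g := by
  obtain ⟨i', j', k', n, h', h1, h2, h3, -⟩ := shape L g
  have h5 : L.ℓ k' g = n ∨ L.ℓ k' g = n + 2 := h3.imp (·.1) id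
  rcases h'.cases j with rfl | rfl | rfl <;> rcases h'.cases k with rfl | rfl | rfl <;> omega

/-- every chamber is the strictly lowest chamber of one of its panels -/
theorem lowest (g : G) : ∃ i, ∀ x ∈ L.X i, x ≠ 1 → L.ℓ i g < L.ℓ i (g * x) := by
  obtain ⟨i, j, k, n, h, h1, h2, h3 | h3, -⟩ := shape L g
  · exact ⟨k, fun x hx h1 => by have := h3.2 x hx h1; omega⟩
  · refine ⟨i, fun x hx hx1 => ?_⟩
    have e1 : L.ℓ j (g * x) = n + 1 := by rw [L.inv j g x (L.le h.1 hx), h2]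
    have e2 : L.ℓ k (g * x) = n + 2 := by rw [L.inv k g x (L.le h.2.1 hx), h3]
    have e3 : L.ℓ i (g * x) ≠ n + 1 := fun e =>
      hx1 (L.disj h.1 x hx (L.uniq h.s12 g (by omega) x (L.le h.2.1 hx) (by omega)))
    have e4 := near L h.2.1 (g * x)
    omega

theorem d2_inj (c : G →₀ F) (hc : d2 L c = 0) : c = 0 := by
  classical
  by_contra h0
  obtain ⟨g, hg, hmax⟩ := c.support.exists_max_image
    (fun g => L.ℓ .i0 g + L.ℓ .i1 g + L.ℓ .i2 g) (support_nonempty_iff.2 h0)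
  obtain ⟨i, hi⟩ := lowest L g
  have hs : ∀ h : G, L.ℓ .i0 h + L.ℓ .i1 h + L.ℓ .i2 h =
      L.ℓ i h + L.ℓ (nx i) h + L.ℓ (nx (nx i)) h := fun h => by
    cases i <;> simp only [nx] <;> omega
  have ht : ∀ h : G, tri L h (ed L i g) = if ed L i h = ed L i g then 1 else 0 := fun h => by
    rw [tri_eq L (dis_self i)]
    simp [single_apply, ed_ne L (nx_ne i), ed_ne L (nx2_ne i)]
  have e := DFunLike.congr_fun hc (ed L i g)
  rw [d2, linearCombination_apply, Finsupp.sum, Finsupp.finsetSum_apply,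
    Finset.sum_eq_single_of_mem g hg] at e
  · rw [Finsupp.smul_apply, ht, if_pos rfl, smul_eq_mul, mul_one] at e
    exact mem_support_iff.1 hg e
  · intro h hh hne
    rw [Finsupp.smul_apply, ht, if_neg, smul_zero]
    intro e1
    have hx : g⁻¹ * h ∈ L.X i := (ed_eq L).1 e1.symm
    have h1 := hi _ hx (fun e2 => hne (by rw [inv_mul_eq_one] at e2; exact e2.symm))
    rw [mul_inv_cancel_left] at h1
    have h2 := l_eq L (L.le (nx_ne i).symm hx)
    have h3 := l_eq L (L.le (nx2_ne i).symm hx)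
    have h4 := hmax h hh
    simp only [hs] at h4
    omega

theorem ex_dn (v : Vx L) : ∃ q : I × G, lev L v ≠ 0 →
    q.1 ≠ v.1 ∧ vx L v.1 q.2 = v ∧ L.ℓ q.1 q.2 + 1 = lev L v := by
  obtain ⟨k, g, rfl⟩ := vx_surj L v
  by_cases h : L.ℓ k g = 0
  · exact ⟨(k, g), fun h' => absurd h h'⟩
  · obtain ⟨j, hj, p, hp, e⟩ := L.down k g h
    exact ⟨(j, g * p), fun _ => ⟨hj, vx_mul L g hp, e⟩⟩

/-- the chosen lower neighbour -/
noncomputable def dn (v : Vx L) : I × G := (ex_dn L v).choose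

/-- the chosen path to the root -/
noncomputable def pa : ℕ → Vx L → (Ed L →₀ F)
  | 0, _ => 0
  | n + 1, v => single (ed L (thd (dn L v).1 v.1) (dn L v).2) 1 +
      pa n (vx L (dn L v).1 (dn L v).2)

noncomputable def ph (v : Vx L) : Ed L →₀ F := pa L (lev L v) v

theorem ph_zero (k : I) (g : G) (h : L.ℓ k g = 0) : ph L (vx L k g) = 0 := by
  rw [ph, lev_vx, h, pa]

theorem ph_step (k : I) (g : G) (h : L.ℓ k g ≠ 0) : ∃ i j, ∃ p ∈ L.P k, Dis i j k ∧
    L.ℓ j (g * p) + 1 = L.ℓ k g ∧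
    ph L (vx L k g) = single (ed L i (g * p)) 1 + ph L (vx L j (g * p)) := by
  obtain ⟨h1, h2, h3⟩ := (ex_dn L (vx L k g)).choose_spec h
  change (dn L (vx L k g)).1 ≠ k at h1
  change vx L k (dn L (vx L k g)).2 = vx L k g at h2
  change L.ℓ (dn L (vx L k g)).1 (dn L (vx L k g)).2 + 1 = L.ℓ k g at h3
  refine ⟨thd (dn L (vx L k g)).1 k, (dn L (vx L k g)).1, g⁻¹ * (dn L (vx L k g)).2,
    (vx_eq L).1 h2.symm, dis_thd h1, ?_, ?_⟩
  · rw [mul_inv_cancel_left, h3]
  · rw [mul_inv_cancel_left, ph, lev_vx, ← h3, pa, ph, lev_vx]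
    rfl

theorem d1_ph : ∀ (n : ℕ) (k : I) (g : G), L.ℓ k g = n →
    d1 L (ph L (vx L k g)) = single (vx L k g) 1 + single (vx L .i0 1) 1 := by
  intro n
  induction n with
  | zero =>
    intro k g h
    obtain ⟨rfl, hg⟩ := (L.zero k g).1 h
    have e : vx L .i0 g = vx L .i0 1 := by simpa using vx_mul L 1 hg
    rw [ph_zero L _ _ h, map_zero, e, aa]
  | succ n ih =>
    intro k g h
    obtain ⟨i, j, p, hp, hd, h1, h2⟩ := ph_step L k g (by omega)
    rw [h2, map_add, d1_single, bd_ed L hd, ih j _ (by omega), vx_mul L g hp]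
    generalize single (vx L j (g * p)) (1 : F) = u
    calc u + single (vx L k g) 1 + (u + single (vx L .i0 1) 1)
        = (u + u) + (single (vx L k g) 1 + single (vx L .i0 1) 1) := by abel
      _ = _ := by rw [aa, zero_add]

/-- linear extension of the paths -/
noncomputable def Ph : (Vx L →₀ F) →ₗ[F] (Ed L →₀ F) := linearCombination F (ph L)

theorem Ph_single (v : Vx L) : Ph L (single v 1) = ph L v := by simp [Ph]

theorem exact0 (v : Vx L →₀ F) (hv : au L v = 0) : ∃ e, v = d1 L e := by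
  have h := lin_ext (f := (d1 L).comp (Ph L))
    (g := LinearMap.id + (au L).smulRight (single (vx L .i0 1) 1)) (fun x => by
      obtain ⟨k, g, rfl⟩ := vx_surj L x
      rw [LinearMap.comp_apply, Ph_single, d1_ph L _ k g rfl]
      simp [au_single]) v
  refine ⟨Ph L v, ?_⟩
  simpa [hv] using h.symm

/-- the loop through an edge is a boundary -/
def Good (i j k : I) (g : G) : Prop :=
  single (ed L i g) 1 + ph L (vx L j g) + ph L (vx L k g) ∈ LinearMap.range (d2 L)

theorem Good.swap {i j k : I} {g : G} (h : Good L i j k g) : Good L i k j g := by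
  unfold Good at h ⊢
  rwa [add_right_comm]

theorem good_mul {i j k : I} (h : Dis i j k) (g : G) {x : G} (hx : x ∈ L.X i) :
    Good L i j k (g * x) ↔ Good L i j k g := by
  unfold Good
  rw [ed_mul L g hx, vx_mul L g (L.le h.1 hx), vx_mul L g (L.le h.2.1 hx)]

theorem good_tri {i j k : I} (h : Dis i j k) (g : G) (h1 : Good L j i k g) (h2 : Good L k i j g) :
    Good L i j k g := by
  unfold Good at h1 h2 ⊢
  have h3 : tri L g ∈ LinearMap.range (d2 L) := ⟨single g 1, d2_single L g⟩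
  have h4 := add_mem (add_mem h1 h2) h3
  rw [tri_eq L h] at h4
  generalize single (ed L i g) (1 : F) = u at h4 ⊢
  generalize single (ed L j g) (1 : F) = v at h4 ⊢
  generalize single (ed L k g) (1 : F) = w at h4 ⊢
  have e : v + ph L (vx L i g) + ph L (vx L k g) + (w + ph L (vx L i g) + ph L (vx L j g)) +
      (u + v + w) = u + ph L (vx L j g) + ph L (vx L k g) +
        ((v + v) + (w + w) + (ph L (vx L i g) + ph L (vx L i g))) := by abel
  rw [e] at h4
  simpa only [aa, add_zero] using h4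

theorem good_tree {i j k : I} (h : Dis i j k) (g : G) (e : L.ℓ j g + 1 = L.ℓ k g) {p : G}
    (hp : p ∈ L.P k) (h1 : L.ℓ j (g * p) + 1 = L.ℓ k g)
    (h2 : ph L (vx L k g) = single (ed L i (g * p)) 1 + ph L (vx L j (g * p))) :
    Good L i j k g := by
  have hx := L.uniq h g e p hp h1
  unfold Good
  rw [h2, ed_mul L g hx, vx_mul L g (L.le h.1 hx), aa]
  exact zero_mem _

theorem good_vert {i j k : I} (h : Dis i j k) (g : G) (e : L.ℓ j g + 1 = L.ℓ k g)
    (ih : ∀ g' : G, L.ℓ i g' + L.ℓ j g' < L.ℓ j g + L.ℓ k g → Good L k i j g') :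
    Good L i j k g := by
  obtain ⟨i', j', p, hp, hd, h1, h2⟩ := ph_step L k g (by omega)
  rcases h.cases j' with e1 | e1 | e1
  · subst e1
    obtain rfl : i' = j := hd.uniq h.s12
    obtain ⟨a, ha, h3⟩ := L.both h g e p hp h1
    have hak : a ∈ L.P k := L.le h.2.1 ha
    have e2 : L.ℓ k (g * a) = L.ℓ k g := L.inv k g a hak
    have e3 : L.ℓ i' (g * a) = L.ℓ i' g := L.inv i' g a (L.le h.1 ha)
    have e4 : g * a * (a⁻¹ * p) = g * p := by group
    rw [← good_mul L h g ha]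
    refine good_tri L h _ (good_tree L hd (g * a) (by omega) (p := a⁻¹ * p)
      (mul_mem (inv_mem hak) hp) (by rw [e4]; omega) ?_) (ih _ (by omega))
    rw [e4, vx_mul L g hak, h2]
  · subst e1
    obtain rfl : i' = i := hd.uniq h
    exact good_tree L h g e hp h1 h2
  · exact absurd e1 hd.2.2

theorem good : ∀ (n : ℕ) {i j k : I}, Dis i j k → ∀ g : G, L.ℓ j g + L.ℓ k g = n →
    Good L i j k g := by
  intro n
  induction n using Nat.strong_induction_on with
  | _ n ih =>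
    intro i j k h g hn
    rcases near L h.2.2 g with e | e | e
    · obtain ⟨x, hx, h1⟩ := horiz L h g e
      have e2 : L.ℓ j (g * x) = L.ℓ j g := L.inv j g x (L.le h.1 hx)
      have e3 : L.ℓ k (g * x) = L.ℓ k g := L.inv k g x (L.le h.2.1 hx)
      rw [← good_mul L h g hx]
      exact good_tri L h _ (ih _ (by omega) h.s12 _ rfl) (ih _ (by omega) h.s13.s23 _ rfl)
    · exact good_vert L h g e fun g' hg' => ih _ (by omega) h.s13.s23 _ rfl
    · exact (good_vert L h.s23 g e fun g' hg' => ih _ (by omega) h.s12 _ rfl).swap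

theorem exact1 (e : Ed L →₀ F) (he : d1 L e = 0) : ∃ c, e = d2 L c := by
  have h := lin_ext (f := (LinearMap.range (d2 L)).mkQ.comp
    (LinearMap.id + (Ph L).comp (d1 L))) (g := 0) (fun x => by
      obtain ⟨i, g, rfl⟩ := ed_surj L x
      rw [LinearMap.comp_apply, LinearMap.add_apply, LinearMap.comp_apply, LinearMap.id_apply,
        d1_single, bd_ed L (dis_self i), map_add (Ph L), Ph_single, Ph_single, ← add_assoc,
        LinearMap.zero_apply, Submodule.mkQ_apply, Submodule.Quotient.mk_eq_zero]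
      exact good L _ (dis_self i) g rfl) e
  rw [LinearMap.comp_apply, LinearMap.add_apply, LinearMap.comp_apply, LinearMap.id_apply, he,
    map_zero, add_zero, LinearMap.zero_apply, Submodule.mkQ_apply,
    Submodule.Quotient.mk_eq_zero] at h
  obtain ⟨c, hc⟩ := h
  exact ⟨c, hc.symm⟩

/-- translation of vertices and of edges -/
def aV (g : G) (v : Vx L) : Vx L := ⟨v.1, g • v.2⟩
def aE (g : G) (v : Ed L) : Ed L := ⟨v.1, g • v.2⟩

theorem aV_vx (g : G) (k : I) (h : G) : aV L g (vx L k h) = vx L k (g * h) := rfl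
theorem aE_ed (g : G) (k : I) (h : G) : aE L g (ed L k h) = ed L k (g * h) := rfl

end Cx

end Tor

open Tor Finsupp in
theorem Lv.tor {G : Type} [Group G] (L : Lv G) (g : G) (h4 : g ^ 4 = 1) (h2 : g ^ 2 ≠ 1) :
    ∃ k h, h⁻¹ * g * h ∈ L.P k := by
  by_contra hno
  push Not at hno
  have p : ∀ x : G, g * (g * (g * (g * x))) = x := fun x => by
    calc g * (g * (g * (g * x))) = g ^ 4 * x := by simp only [pow_succ, pow_zero, one_mul, mul_assoc]
      _ = x := by rw [h4, one_mul]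
  refine smith (fun x : G => g * x) (aE L g) (aV L g) p (fun x => ?_) (fun x => ?_)
    (fun x hx => ?_) (fun x hx => ?_) (fun x hx => ?_) (d2 L) (d1 L) (au L) (fun c => ?_)
    (fun c => ?_) (fun c => ?_) (d2_inj L) (d1_d2 L) (exact1 L) (au_d1 L) (exact0 L)
    (single (vx L .i0 1) 1) (au_single L _)
  · obtain ⟨k, h, rfl⟩ := ed_surj L x
    simp only [aE_ed, p]
  · obtain ⟨k, h, rfl⟩ := vx_surj L x
    simp only [aV_vx, p]
  · refine h2 ?_
    have hx' : g * g * x = 1 * x := by rw [mul_assoc, one_mul]; exact hx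
    rw [pow_two]; exact mul_right_cancel hx'
  · obtain ⟨k, h, rfl⟩ := ed_surj L x
    rw [aE_ed] at hx
    refine hno (nx k) h ?_
    rw [mul_assoc]
    exact L.le (nx_ne k).symm ((ed_eq L).1 hx.symm)
  · obtain ⟨k, h, rfl⟩ := vx_surj L x
    rw [aV_vx] at hx
    refine hno k h ?_
    rw [mul_assoc]
    exact (vx_eq L).1 hx.symm
  · refine lin_ext (f := (d2 L).comp (sg fun x : G => g * x)) (g := (sg (aE L g)).comp (d2 L))
      (fun x => ?_) c
    simp only [LinearMap.comp_apply, sg_single, map_add, d2_single, tri, aE_ed]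
    abel
  · refine lin_ext (f := (d1 L).comp (sg (aE L g))) (g := (sg (aV L g)).comp (d1 L))
      (fun x => ?_) c
    obtain ⟨k, h, rfl⟩ := ed_surj L x
    simp only [LinearMap.comp_apply, sg_single, map_add, d1_single, aE_ed, bd_ed L (dis_self k),
      aV_vx]
    abel
  · refine lin_ext (f := (au L).comp (sg (aV L g))) (g := 0) (fun x => ?_) c
    rw [LinearMap.comp_apply, sg_single, map_add, au_single, au_single, LinearMap.zero_apply]
    exact aa _

end Pool.Agent.MP_434e52_an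

end

section

set_option autoImplicit false

/-!
Angles between the fixed spaces of two finite subgroups, when the conjugates of the first one
commute; the spectral gap for finitely many subgroups; property (T).
-/

namespace Pool.Agent.MP_434e52_an

namespace Kaz

open Finset

noncomputable section

variable {G E : Type*} [Group G] [NormedAddCommGroup E] [InnerProductSpace ℂ E] [CompleteSpace E]

theorem ang_of_le {p q z : E →L[ℂ] E} (hp : IsStarProjection p) (hq : IsStarProjection q)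
    (hz : IsStarProjection z) (zp : Commute z p) (zq : Commute z q)
    (h1 : ∀ v, p (q (z v)) = q (p (z v))) {e : ℝ} (he : 0 ≤ e) (he1 : e ≤ 1)
    (h2 : ∀ w, z w = 0 → ‖q (p w)‖ ≤ e * ‖p w‖) : Ang e p q := by
  intro v
  have e1 : ∀ {a : E →L[ℂ] E}, Commute z a → z (v - a v) = z v - a (z v) := fun h => by
    rw [map_sub, cm_ap h]
  have e2 : ∀ {a : E →L[ℂ] E}, Commute z a →
      v - a v - (z v - a (z v)) = (v - z v) - a (v - z v) := fun _ => by
    rw [map_sub]; abel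
  rw [pr_split hz, pr_sq hz (v - p v), pr_sq hz (v - q v), e1 zp, e1 zq, e2 zp, e2 zq]
  have hw : z (v - z v) = 0 := by rw [map_sub, pr_pr hz, sub_self]
  generalize v - z v = w at hw
  have a1 : 0 ≤ ri (z v - p (z v)) (z v - q (z v)) := by
    have h0 := pr_ri hq.one_sub ((1 - p) (z v)) ((1 - q) ((1 - p) (z v)))
    have h3 : (1 - q) ((1 - p) (z v)) = (1 - p) ((1 - q) (z v)) := by
      change z v - p (z v) - q (z v - p (z v)) = z v - q (z v) - p (z v - q (z v))
      rw [map_sub, map_sub, h1]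
      abel
    rw [pr_pr hq.one_sub] at h0
    have h4 := ri_nonneg ((1 - q) ((1 - p) (z v)))
    rw [h0, h3, ← pr_ri hp.one_sub, pr_pr hp.one_sub] at h4
    exact h4
  have a2 : 0 ≤ 2 * ri (w - p w) (w - q w) + e * (‖w - p w‖ ^ 2 + ‖w - q w‖ ^ 2) := by
    have b1 := h2 w hw
    have b2 : ri (p w) (q w) ≤ e * ‖p w‖ * ‖q w‖ := by
      rw [← pr_pr hq w, ← pr_ri hq, pr_pr hq]
      exact (ri_le _ _).trans (mul_le_mul_of_nonneg_right b1 (norm_nonneg _))
    have b4 : 0 ≤ e * (‖p w‖ ^ 2 + ‖q w‖ ^ 2) - 2 * ri (p w) (q w) := by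
      nlinarith [mul_nonneg he (sq_nonneg (‖p w‖ - ‖q w‖))]
    have b5 := mul_nonneg (sub_nonneg.2 he1) b4
    have b3 := ri_nonneg (((1 + e : ℝ) : ℂ) • w - (p w + q w))
    have c1 : ri w (p w) = ri (p w) (p w) := by rw [pr_ri hp, pr_pr hp]
    have c2 : ri w (q w) = ri (q w) (q w) := by rw [pr_ri hq, pr_pr hq]
    simp only [← ri_self] at b5 ⊢
    simp only [ri_sub, sub_ri, ri_add, add_ri, ri_smul, smul_ri, ri_comm (p w) w, ri_comm (q w) w,
      ri_comm (q w) (p w), c1, c2] at b3 ⊢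
    refine nonneg_of_mul_nonneg_right (a := 1 + e) ?_ (by linarith)
    nlinarith
  have := mul_nonneg he (add_nonneg (sq_nonneg ‖z v - p (z v)‖) (sq_nonneg ‖z v - q (z v)‖))
  linarith

/-- commuting projections of which at most `j` fix a common non-zero vector of `W` -/
theorem sum_pr_le {B : Type*} {q : B → E →L[ℂ] E} (hq : ∀ b, IsStarProjection (q b))
    (hc : ∀ b b', Commute (q b) (q b')) (S : Finset B) :
    ∀ (j : ℕ) (W : E → Prop), (∀ b v, W v → W (q b v)) → (∀ b v, W v → W (v - q b v)) →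
      (∀ T ⊆ S, j < T.card → ∀ w, W w → (∀ b ∈ T, q b w = w) → w = 0) →
      ∀ v, W v → ∑ b ∈ S, ‖q b v‖ ^ 2 ≤ j * ‖v‖ ^ 2 := by
  classical
  induction S using Finset.induction_on with
  | empty => intro j W _ _ _ v _; simp; positivity
  | insert a S ha ih =>
    intro j W w1 w2 h v hv
    have s : ∑ b ∈ S, ‖q b v‖ ^ 2 = ∑ b ∈ S, ‖q b (q a v)‖ ^ 2 + ∑ b ∈ S, ‖q b (v - q a v)‖ ^ 2 := by
      rw [← sum_add_distrib]
      refine sum_congr rfl fun b _ => ?_
      rw [pr_sq (hq a) (q b v), map_sub, cm_ap (hc a b)]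
    have i2 := ih j W w1 w2 (fun T hT => h T (hT.trans (subset_insert _ _))) _ (w2 a v hv)
    rw [sum_insert ha, s, pr_sq (hq a) v]
    rcases j with _ | j
    · have : q a v = 0 := h {a} (by simp) (by simp) _ (w1 a v hv) (by simp [pr_pr (hq a)])
      simp only [this, map_zero, norm_zero] at i2 ⊢
      simpa using i2
    · have i1 := ih j (fun w => W w ∧ q a w = w)
        (fun b w hw => ⟨w1 b w hw.1, by rw [cm_ap (hc a b), hw.2]⟩)
        (fun b w hw => ⟨w2 b w hw.1, by rw [map_sub, cm_ap (hc a b), hw.2]⟩)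
        (fun T hT hj w hw hb => h (insert a T) (insert_subset_insert _ hT)
          (by rw [card_insert_of_notMem fun h => ha (hT h)]; omega) w hw.1
          (by simpa [hw.2] using hb)) _ ⟨w1 a v hv, pr_pr (hq a) v⟩
      push_cast at i2 ⊢
      linarith

theorem comm_of_inv {K : Submodule ℂ E} [K.HasOrthogonalProjection] {T : E →L[ℂ] E}
    (hT : IsStarProjection T) (h : ∀ v ∈ K, T v ∈ K) : Commute K.starProjection T := by
  ext1 v
  change K.starProjection (T v) = T (K.starProjection v)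
  refine Submodule.eq_starProjection_of_mem_orthogonal (h _ (K.starProjection_apply_mem v)) ?_
  intro u hu
  rw [← map_sub, ← ContinuousLinearMap.adjoint_inner_left, ← ContinuousLinearMap.star_eq_adjoint,
    hT.isSelfAdjoint.star_eq]
  exact K.sub_starProjection_mem_orthogonal v _ (h u hu)

variable {π : G →* (E →L[ℂ] E)} (hu : ∀ g, π g ∈ unitary (E →L[ℂ] E))

section

variable {A : Type*} [Fintype A] [Group A] (x : A →* G)

omit [CompleteSpace E] in
theorem avg_const (T : E →L[ℂ] E) : (((Fintype.card A : ℝ)⁻¹ : ℝ) : ℂ) • ∑ _a : A, T = T := by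
  rw [sum_const, card_univ, ← Nat.cast_smul_eq_nsmul ℂ, smul_smul]
  simp

omit [CompleteSpace E] in
theorem mul_avg (a : A) : π (x a) * av π x = av π x := by
  unfold av
  rw [mul_smul_comm, mul_sum, ← Equiv.sum_comp (Equiv.mulLeft a) fun b => π (x b)]
  simp only [← map_mul, Equiv.coe_mulLeft]

include hu in
theorem avg_pr : IsStarProjection (av π x) := by
  constructor
  · change av π x * av π x = _
    nth_rw 1 [av]
    rw [smul_mul_assoc, sum_mul]
    simp only [mul_avg]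
    exact avg_const _
  · change star (av π x) = _
    unfold av
    rw [star_smul, star_sum, ← Equiv.sum_comp (Equiv.inv A) fun b => π (x b)]
    congr 1
    · simp
    · exact sum_congr rfl fun a _ => by rw [un_star hu, Equiv.inv_apply, map_inv x]

omit [CompleteSpace E] in
theorem avg_fix {η : E} (h : av π x η = η) (a : A) : π (x a) η = η := by
  rw [← h]
  exact congrArg (fun T : E →L[ℂ] E => T η) (mul_avg x a)

omit [CompleteSpace E] in
theorem avg_near {v : E} {d : ℝ} (h : ∀ a, ‖π (x a) v - v‖ ≤ d) : ‖v - av π x v‖ ≤ d := by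
  have : v - av π x v = (((Fintype.card A : ℝ)⁻¹ : ℝ) : ℂ) • ∑ a, (v - π (x a) v) := by
    have := congrArg (fun T : E →L[ℂ] E => T v) (avg_const (A := A) (1 : E →L[ℂ] E))
    simp only [smul_apply, _root_.sum_apply, one_apply_eq_self] at this
    rw [sum_sub_distrib, smul_sub, this, av, smul_apply, _root_.sum_apply]
  rw [this, norm_smul, Complex.norm_real, Real.norm_of_nonneg (by positivity)]
  have n : (0 : ℝ) < Fintype.card A := by exact_mod_cast Fintype.card_pos
  rw [inv_mul_le_iff₀ n]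
  refine (norm_sum_le _ _).trans ?_
  simpa using sum_le_card_nsmul univ _ d fun a _ => (norm_sub_rev _ _).trans_le (h a)

omit [CompleteSpace E] in
theorem avg_of_fix {v : E} (h : ∀ a, π (x a) v = v) : av π x v = v := by
  have := avg_near (π := π) x (v := v) (d := 0) fun a => by rw [h, sub_self, norm_zero]
  exact (sub_eq_zero.1 (norm_le_zero_iff.1 this)).symm

end

include hu in
/-- the angle lemma, hypothesis on vectors -/
theorem ang_conj_vec {A B : Type*} [Fintype A] [Group A] [Fintype B] [Group B]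
    (x : A →* G) (y : B →* G) (hc : ∀ b a a', Commute (y b * x a * (y b)⁻¹) (x a')) {k : ℕ}
    (hk : ∀ S : Finset B, k < S.card → ∀ v : E,
      (∀ b ∈ S, ∀ a, π (y b * x a * (y b)⁻¹) v = v) → ∀ b a, π (y b * x a * (y b)⁻¹) v = v)
    {e : ℝ} (he : 0 ≤ e) (he1 : e ≤ 1) (hke : (k : ℝ) ≤ e ^ 2 * Fintype.card B) :
    Ang e (av π x) (av π y) := by
  set c : B → A →* G := fun b => (MulAut.conj (y b)).toMonoidHom.comp x with hc0
  have cv : ∀ b a, c b a = y b * x a * (y b)⁻¹ := fun _ _ => rfl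
  have cc : ∀ b b' a a', Commute (c b a) (c b' a') := fun b b' a a' => by
    have := (hc (b'⁻¹ * b) a a').map (MulAut.conj (y b'))
    simp only [MulAut.conj_apply, map_mul, map_inv] at this
    rw [cv, cv]
    convert this using 1
    group
  let K : Submodule ℂ E :=
    { carrier := {v | ∀ b a, π (c b a) v = v}
      zero_mem' := fun _ _ => map_zero _
      add_mem' := fun {u v} h h' b a => by rw [map_add, h, h']
      smul_mem' := fun t v h b a => by rw [map_smul, h] }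
  have Kc : IsClosed (K : Set E) := by
    have : (K : Set E) = ⋂ b, ⋂ a, {v | π (c b a) v = v} := by
      ext v; simp only [Set.mem_iInter]; rfl
    rw [this]
    exact isClosed_iInter fun b => isClosed_iInter fun a => isClosed_eq (by fun_prop) (by fun_prop)
  have : CompleteSpace K := Kc.completeSpace_coe
  have Kx : ∀ v ∈ K, av π x v = v := fun v hv => avg_of_fix x fun a => by
    simpa [cv] using hv 1 a
  have Ky : ∀ v ∈ K, av π y v ∈ K := fun v hv => by
    rw [av, smul_apply, _root_.sum_apply]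
    refine K.smul_mem _ (K.sum_mem fun b' _ b a => ?_)
    have e1 : c b a * y b' = y b' * c (b'⁻¹ * b) a := by
      simp only [cv, map_mul, map_inv]
      group
    rw [← mul_apply_eq_comp, ← map_mul, e1, map_mul, mul_apply_eq_comp, hv]
  have Kq : ∀ b, ∀ v ∈ K, av π (c b) v = v := fun b v hv => avg_of_fix _ (hv b)
  have px := avg_pr hu x
  have py := avg_pr hu y
  have pq := fun b => avg_pr hu (c b)
  have hz : IsStarProjection K.starProjection := isStarProjection_starProjection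
  have zy := comm_of_inv py Ky
  have zq := fun b => comm_of_inv (pq b) fun v hv => (Kq b v hv).symm ▸ hv
  refine (ang_of_le py px hz zy (comm_of_inv px fun v hv => (Kx v hv).symm ▸ hv) (fun v => ?_)
    he he1 fun w hw => ?_).symm
  · rw [Kx _ (K.starProjection_apply_mem v), Kx _ (Ky _ (K.starProjection_apply_mem v))]
  · have s := sum_pr_le pq
      (fun b b' => (av_comm fun a => (av_comm fun a' => (cc b b' a a').map π).symm).symm)
      univ k (fun v => K.starProjection v = 0)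
      (fun b v hv => by rw [cm_ap (zq b), hv, map_zero])
      (fun b v hv => by rw [map_sub, cm_ap (zq b), hv, map_zero, sub_zero])
      (fun T _ hT v hv h => by
        rw [← hv, eq_comm, Submodule.starProjection_eq_self_iff]
        exact hk T hT v fun b hb a => avg_fix (c b) (h b hb) a)
      (av π y w) (by rw [cm_ap zy, hw, map_zero])
    have f : ∀ b, π (y b) (av π y w) = av π y w := avg_fix y (pr_pr py w)
    generalize av π y w = u at s f
    have g : ∀ b, ‖av π (c b) u‖ = ‖av π x u‖ := fun b => by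
      have f' : π (y b)⁻¹ u = u := by rw [← map_inv, f]
      rw [← un_norm hu (y b) (av π x u)]
      congr 1
      simp only [av, cv, map_mul, smul_apply, _root_.sum_apply,
        mul_apply_eq_comp, f', map_smul, map_sum]
    simp only [g, sum_const, card_univ, nsmul_eq_mul] at s
    have n : (0 : ℝ) < Fintype.card B := by exact_mod_cast Fintype.card_pos
    refine (abs_le_of_sq_le_sq' (le_of_mul_le_mul_left (s.trans ?_) n) (by positivity)).2
    rw [mul_pow, ← mul_assoc, mul_comm _ (e ^ 2)]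
    exact mul_le_mul_of_nonneg_right hke (sq_nonneg _)

omit [CompleteSpace E] in
theorem fix_closure {s : Set G} {v : E} (h : ∀ g ∈ s, π g v = v) {g : G}
    (hg : g ∈ Subgroup.closure s) : π g v = v := by
  induction hg using Subgroup.closure_induction with
  | mem x hx => exact h x hx
  | one => rw [map_one]; rfl
  | mul x y _ _ hx hy => rw [map_mul, mul_apply_eq_comp, hy, hx]
  | inv x _ hx =>
    nth_rw 1 [← hx]
    rw [← mul_apply_eq_comp, ← map_mul, inv_mul_cancel, map_one]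
    rfl

include hu in
theorem ang_sub {X Y : Subgroup G} [Fintype X] [Fintype Y]
    (h1 : ∀ y ∈ Y, ∀ x ∈ X, ∀ x' ∈ X, Commute (y * x * y⁻¹) x')
    (h2 : ∀ s : Finset G, (∀ y ∈ s, y ∈ Y) → 4 < s.card → ∀ y ∈ Y, ∀ x ∈ X,
      y * x * y⁻¹ ∈ Subgroup.closure {g | ∃ y' ∈ s, ∃ x' ∈ X, g = y' * x' * y'⁻¹})
    (big : 6400 ≤ Nat.card Y) : Ang (1 / 40) (av π X.subtype) (av π Y.subtype) := by
  refine ang_conj_vec hu _ _ (fun b a a' => h1 _ b.2 _ a.2 _ a'.2) (k := 4)
    (fun S hS v h b a => fix_closure ?_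
      (h2 (S.map (Function.Embedding.subtype _)) ?_ (by simpa using hS) _ b.2 _ a.2))
    (by norm_num) (by norm_num) ?_
  · rintro _ ⟨_, m, x', hx, rfl⟩
    obtain ⟨b', hb, rfl⟩ := mem_map.1 m
    exact h b' hb ⟨x', hx⟩
  · intro _ m
    obtain ⟨b', -, rfl⟩ := mem_map.1 m
    exact b'.2
  · have : (6400 : ℝ) ≤ Fintype.card Y := by rw [← Nat.card_eq_fintype_card]; exact_mod_cast big
    push_cast
    linarith

/-- the spectral gap for finitely many projections with small angles -/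
theorem gap_many {ι : Type*} [Fintype ι] {q : ι → E →L[ℂ] E} (hq : ∀ a, IsStarProjection (q a))
    {e c : ℝ} (h : ∀ a b, a ≠ b → Ang e (q a) (q b)) (hc : 0 < c)
    (hce : c ≤ 1 - ((Fintype.card ι : ℝ) - 1) * e) (v : E) :
    ∃ η, (∀ a, q a η = η) ∧ c * ‖v - η‖ ^ 2 ≤ ∑ a, ‖v - q a v‖ ^ 2 := by
  classical
  set T : E →L[ℂ] E := ∑ a, (1 - q a) with hT
  have Ta : ∀ u, T u = ∑ a, (u - q a u) := fun u => by
    rw [hT, _root_.sum_apply]; rfl
  have rs : ∀ (f : ι → E) (u : E), ri (∑ a, f a) u = ∑ a, ri (f a) u := fun f u => by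
    simp [ri]
  have sr : ∀ (f : ι → E) (u : E), ri u (∑ a, f a) = ∑ a, ri u (f a) := fun f u => by
    simp [ri]
  have o : ∀ a u, ri (u - q a u) u = ‖u - q a u‖ ^ 2 := fun a u => by
    simp only [← ri_self, ri_sub, sub_ri, pr_ri (hq a), pr_pr (hq a)]
    ring
  have Q : ∀ u, ri (T u) u = ∑ a, ‖u - q a u‖ ^ 2 := fun u => by
    simp only [Ta, rs, o]
  have Ts : ∀ u w, ri (T u) w = ri u (T w) := fun u w => by
    simp only [Ta, rs, sr, ri_sub, sub_ri, pr_ri (hq _)]
  have T2 : ∀ u, c * ri (T u) u ≤ ‖T u‖ ^ 2 := fun u => by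
    have a1 := fun a b hab => h a b hab u
    rw [Q, Ta, ← ri_self, rs]
    simp only [sr]
    generalize hx : (fun a => u - q a u) = x
    have hx' : ∀ a, u - q a u = x a := fun a => congrFun hx a
    simp only [hx'] at a1 ⊢
    have a2 : ∀ a b, (if a = b then (1 + e) * ‖x a‖ ^ 2 else 0) -
        e / 2 * (‖x a‖ ^ 2 + ‖x b‖ ^ 2) ≤ ri (x a) (x b) := fun a b => by
      split_ifs with hab
      · subst hab
        rw [ri_self]
        linarith
      · have := a1 a b hab
        linarith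
    have a3 := sum_le_sum fun a (_ : a ∈ univ) => sum_le_sum fun b (_ : b ∈ univ) => a2 a b
    refine le_trans ?_ a3
    simp only [sum_sub_distrib, sum_ite_eq, mem_univ, if_true, ← mul_sum, sum_add_distrib,
      sum_const, card_univ, nsmul_eq_mul]
    have : 0 ≤ ∑ a, ‖x a‖ ^ 2 := by positivity
    nlinarith
  let K : Submodule ℂ E := (LinearMap.range (T : E →ₗ[ℂ] E))ᗮ
  have g : ∀ w ∈ Kᗮ, c * ‖w‖ ^ 2 ≤ ri (T w) w := by
    intro w hw
    rw [Submodule.orthogonal_orthogonal_eq_closure] at hw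
    refine closure_minimal (t := {w | c * ‖w‖ ^ 2 ≤ ri (T w) w}) ?_
      (isClosed_le (by fun_prop) (by unfold ri; fun_prop)) hw
    rintro _ ⟨u, rfl⟩
    change c * ‖T u‖ ^ 2 ≤ ri (T (T u)) (T u)
    have a1 : 0 ≤ ri (T (T u - (c : ℂ) • u)) (T u - (c : ℂ) • u) := by
      rw [Q]; positivity
    have a2 := mul_le_mul_of_nonneg_left (T2 u) hc.le
    rw [map_sub, map_smul] at a1
    simp only [ri_sub, sub_ri, ri_smul, smul_ri, Ts (T u) u, ri_self] at a1
    linarith
  have hη := K.starProjection_apply_mem v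
  have hw := K.sub_starProjection_mem_orthogonal v
  generalize K.starProjection v = η at hη hw
  have f : ri (T η) η = 0 := congrArg Complex.re (hη _ ⟨η, rfl⟩)
  rw [Q, sum_eq_zero_iff_of_nonneg fun a _ => sq_nonneg _] at f
  have f1 : ∀ a, q a η = η := fun a =>
    (sub_eq_zero.1 (norm_eq_zero.1 (pow_eq_zero_iff two_ne_zero |>.1 (f a (mem_univ a))))).symm
  refine ⟨η, f1, (g _ hw).trans_eq ?_⟩
  rw [Q]
  simp only [map_sub, f1, sub_sub_sub_cancel_right]

end

end Kaz

theorem AngC.map {G H : Type} [Group G] [Group H] (f : G →* H) {X Y : Subgroup G}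
    (h : AngC X Y) : AngC (X.map f) (Y.map f) := by
  classical
  constructor
  · rintro _ ⟨y, hy, rfl⟩ _ ⟨x, hx, rfl⟩ _ ⟨x', hx', rfl⟩
    simpa using (h.1 y hy x hx x' hx').map f
  · rintro s hs c _ ⟨y, hy, rfl⟩ _ ⟨x, hx, rfl⟩
    choose! g g1 g2 using hs
    have := Subgroup.mem_map_of_mem f (h.2 (s.image g) (by simpa using g1)
      (by rwa [Finset.card_image_of_injOn fun a ha b hb e => by rw [← g2 a ha, e, g2 b hb]]) y hy x hx)
    rw [MonoidHom.map_closure, map_mul, map_mul, map_inv] at this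
    refine Subgroup.closure_mono ?_ this
    rintro _ ⟨_, ⟨_, m, x', hx', rfl⟩, rfl⟩
    obtain ⟨a, ha, rfl⟩ := Finset.mem_image.1 m
    exact ⟨a, ha, f x', ⟨x', hx', rfl⟩, by rw [map_mul, map_mul, map_inv, g2 a ha]⟩

theorem angC_of_commute {G : Type} [Group G] {X Y : Subgroup G}
    (hX : ∀ x ∈ X, ∀ x' ∈ X, Commute x x') (h : ∀ x ∈ X, ∀ y ∈ Y, Commute x y) : AngC X Y := by
  have k : ∀ y ∈ Y, ∀ x ∈ X, y * x * y⁻¹ = x := fun y hy x hx => (h x hx y hy).symm.mul_inv_cancel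
  refine ⟨fun y hy x hx x' hx' => by rw [k y hy x hx]; exact hX x hx x' hx', fun s hs c y hy x hx => ?_⟩
  obtain ⟨y', hy'⟩ := Finset.card_pos.1 (by omega : 0 < s.card)
  exact Subgroup.subset_closure ⟨y', hy', x, hx, by rw [k y hy x hx, k y' (hs _ hy') x hx]⟩

open Finset in
theorem propT_of_ang {G : Type} [Group G] {A : Type} [Fintype A] (hA : Fintype.card A ≤ 8)
    (Z : A → Subgroup G) (big : ∀ a, 6400 ≤ Nat.card (Z a)) (gen : ⨆ a, Z a = ⊤)
    (ang : ∀ a b, a ≠ b → AngC (Z a) (Z b) ∨ AngC (Z b) (Z a)) : PropT G := by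
  classical
  have : ∀ a, Fintype (Z a) := fun a =>
    @Fintype.ofFinite _ (Nat.finite_of_card_ne_zero (by have := big a; omega))
  have n : (Fintype.card A : ℝ) ≤ 8 := by exact_mod_cast hA
  refine ⟨univ.biUnion fun a => univ.image (Z a).subtype, 1 / 4, by norm_num, ?_⟩
  rintro E _ _ _ π hu ⟨v, hv, hs⟩
  obtain ⟨η, h1, h2⟩ := Kaz.gap_many (fun a => Kaz.avg_pr hu (Z a).subtype) (e := 1 / 40) (c := 3 / 4)
    (fun a b h => (ang a b h).elim (fun k => Kaz.ang_sub hu k.1 k.2 (big b))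
      fun k => (Kaz.ang_sub hu k.1 k.2 (big a)).symm) (by norm_num) (by linarith) v
  refine ⟨η, ?_, fun g => Kaz.fix_closure (s := ⋃ a, Z a) ?_ ?_⟩
  · rintro rfl
    have := sum_le_card_nsmul univ (fun a => ‖v - av π (Z a).subtype v‖ ^ 2) ((1 / 4) ^ 2)
      fun a _ => pow_le_pow_left₀ (norm_nonneg _) (Kaz.avg_near _ fun x =>
        (hs _ (mem_biUnion.2 ⟨a, mem_univ _, mem_image_of_mem _ (mem_univ x)⟩)).le) 2
    rw [sub_zero, hv] at h2
    rw [card_univ, nsmul_eq_mul] at this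
    linarith
  · intro g m
    obtain ⟨a, m⟩ := Set.mem_iUnion.1 m
    exact Kaz.avg_fix _ (h1 a) ⟨g, m⟩
  · rw [← Subgroup.iSup_eq_closure, gen]
    trivial

end Pool.Agent.MP_434e52_an

end

section

/-!
The finite base group of Theorem A (section 6), and ICC from free subgroups (section 5).
-/

set_option autoImplicit false

namespace Pool.Agent.MP_434e52_an

namespace ExA

/-- `F ^ 3` extended by `F` acting through one unipotent block -/
@[ext] structure H (F : Type) where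
  u : F
  v : F
  w : F
  a : F

variable {F : Type} [Field F]

instance : Mul (H F) := ⟨fun x y =>
  ⟨x.u + y.u, x.v + y.v + x.a * y.u, x.w + y.w + 2 * x.a * y.v + x.a ^ 2 * y.u, x.a + y.a⟩⟩
instance : One (H F) := ⟨⟨0, 0, 0, 0⟩⟩
instance : Inv (H F) := ⟨fun x =>
  ⟨-x.u, -x.v + x.a * x.u, -x.w + 2 * x.a * x.v - x.a ^ 2 * x.u, -x.a⟩⟩

theorem mul_def (x y : H F) : x * y = ⟨x.u + y.u, x.v + y.v + x.a * y.u,
  x.w + y.w + 2 * x.a * y.v + x.a ^ 2 * y.u, x.a + y.a⟩ := rfl
theorem one_def : (1 : H F) = ⟨0, 0, 0, 0⟩ := rfl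
theorem inv_def (x : H F) : x⁻¹ =
  ⟨-x.u, -x.v + x.a * x.u, -x.w + 2 * x.a * x.v - x.a ^ 2 * x.u, -x.a⟩ := rfl

instance : Group (H F) := Group.ofLeftAxioms
  (fun x y z => by ext <;> simp only [mul_def] <;> ring)
  (fun x => by ext <;> simp only [mul_def, one_def] <;> ring)
  (fun x => by ext <;> simp only [mul_def, one_def, inv_def] <;> ring)

/-- the first edge group -/
def j1 : Multiplicative (Fin 1 → F) →* H F := MonoidHom.mk' (fun x => ⟨x.toAdd 0, 0, 0, 0⟩)
  fun x y => by ext <;> simp [mul_def]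

/-- the second edge group -/
def j2 : Multiplicative (Fin 1 → F) →* H F := MonoidHom.mk' (fun x => ⟨0, 0, 0, x.toAdd 0⟩)
  fun x y => by ext <;> simp [mul_def]

theorem j1_def (x : Multiplicative (Fin 1 → F)) : j1 x = ⟨x.toAdd 0, 0, 0, 0⟩ := rfl
theorem j2_def (x : Multiplicative (Fin 1 → F)) : j2 x = ⟨0, 0, 0, x.toAdd 0⟩ := rfl

theorem eq_one {x : Multiplicative (Fin 1 → F)} : x = 1 ↔ x.toAdd 0 = 0 :=
  ⟨fun h => by rw [h]; rfl, fun h => Multiplicative.toAdd.injective (funext fun i => by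
    rw [Subsingleton.elim i 0]; exact h)⟩

theorem g2 : Gi2 (j1 (F := F)) j2 := fun x y h => by
  simp only [j1_def, j2_def, H.mk.injEq] at h
  exact ⟨eq_one.2 h.1, eq_one.2 h.2.2.2.symm⟩

theorem g4 : Gi4 (j1 (F := F)) j2 := fun x y x' y' h => by
  simp only [j1_def, j2_def, mul_def, one_def, H.mk.injEq] at h
  have : y.toAdd 0 * x'.toAdd 0 = 0 := by linear_combination h.2.1
  simp only [eq_one]
  rcases mul_eq_zero.1 this with h | h <;> simp [h]

theorem g6 : Gi6 (j1 (F := F)) j2 := fun x y x' y' x'' y'' h => by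
  simp only [j1_def, j2_def, mul_def, one_def, H.mk.injEq] at h
  obtain ⟨-, h2, h3, h4⟩ := h
  have : y'.toAdd 0 * (x''.toAdd 0 * y''.toAdd 0) = 0 := by
    linear_combination y.toAdd 0 * h2 - h3 + y'.toAdd 0 * x''.toAdd 0 * h4
  simp only [eq_one]
  rcases mul_eq_zero.1 this with h | h
  · simp [h]
  · rcases mul_eq_zero.1 h with h | h <;> simp [h]

theorem mem1 (t : F) : (⟨t, 0, 0, 0⟩ : H F) ∈ (j1 (F := F)).range :=
  ⟨Multiplicative.ofAdd fun _ => t, rfl⟩

theorem mem2 (a : F) : (⟨0, 0, 0, a⟩ : H F) ∈ (j2 (F := F)).range :=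
  ⟨Multiplicative.ofAdd fun _ => a, rfl⟩

theorem conj (a t : F) : (⟨0, 0, 0, a⟩ : H F) * ⟨t, 0, 0, 0⟩ * (⟨0, 0, 0, a⟩ : H F)⁻¹ =
    ⟨t, a * t, a ^ 2 * t, 0⟩ := by
  ext <;> simp only [mul_def, inv_def] <;> ring

theorem gen (h2 : (2 : F) ≠ 0) : (j1 (F := F)).range ⊔ j2.range = ⊤ := by
  refine eq_top_iff.2 fun x _ => ?_
  have c : ∀ a t : F, (⟨t, a * t, a ^ 2 * t, 0⟩ : H F) ∈ (j1 (F := F)).range ⊔ j2.range :=
    fun a t => conj a t ▸ mul_mem (mul_mem (Subgroup.mem_sup_right (mem2 a))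
      (Subgroup.mem_sup_left (mem1 t))) (inv_mem (Subgroup.mem_sup_right (mem2 a)))
  have := mul_mem (mul_mem (mul_mem (c 0 (x.u - x.w)) (c 1 ((x.w + x.v) / 2)))
    (c (-1) ((x.w - x.v) / 2))) (Subgroup.mem_sup_right (mem2 x.a))
  convert this using 1
  ext <;> simp only [mul_def] <;> field_simp <;> ring

theorem ang : AngC (j1 (F := F)).range j2.range := by
  refine ⟨?_, ?_⟩
  · rintro _ ⟨y, rfl⟩ _ ⟨x, rfl⟩ _ ⟨x', rfl⟩
    rw [j1_def, j1_def, j2_def, conj]
    change _ * _ = _ * _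
    ext <;> simp only [mul_def] <;> ring
  · rintro s hs hc _ ⟨y, rfl⟩ _ ⟨x, rfl⟩
    obtain ⟨p, q, r, hp, hq, hr, pq, pr, qr⟩ := Finset.two_lt_card_iff.1 (by omega : 2 < s.card)
    obtain ⟨p, rfl⟩ := hs p hp
    obtain ⟨q, rfl⟩ := hs q hq
    obtain ⟨r, rfl⟩ := hs r hr
    simp only [j1_def, j2_def] at *
    generalize p.toAdd 0 = b at *
    generalize q.toAdd 0 = c at *
    generalize r.toAdd 0 = d at *
    generalize y.toAdd 0 = a
    generalize x.toAdd 0 = t
    have bc : b - c ≠ 0 := fun h => pq (by rw [sub_eq_zero.1 h])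
    have bd : b - d ≠ 0 := fun h => pr (by rw [sub_eq_zero.1 h])
    have cd : c - d ≠ 0 := fun h => qr (by rw [sub_eq_zero.1 h])
    have k : ∀ e : F, (⟨0, 0, 0, e⟩ : H F) ∈ s → ∀ t : F, (⟨t, e * t, e ^ 2 * t, 0⟩ : H F) ∈
        Subgroup.closure {g | ∃ y' ∈ s, ∃ x' ∈ (j1 (F := F)).range, g = y' * x' * y'⁻¹} :=
      fun e he t => Subgroup.subset_closure ⟨_, he, _, mem1 t, (conj e t).symm⟩
    have := mul_mem (mul_mem (k b hp (t * ((a - c) * (a - d)) / ((b - c) * (b - d))))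
      (k c hq (-(t * ((a - b) * (a - d)) / ((b - c) * (c - d))))))
      (k d hr (t * ((a - b) * (a - c)) / ((b - d) * (c - d))))
    rw [conj]
    convert this using 1
    ext <;> simp only [mul_def] <;> field_simp <;> ring

/-- coordinates -/
def eqv : H F ≃ F × F × F × F :=
  ⟨fun x => (x.u, x.v, x.w, x.a), fun x => ⟨x.1, x.2.1, x.2.2.1, x.2.2.2⟩, fun _ => rfl,
    fun _ => rfl⟩

theorem cyc_eq {P : Type} [Group P] (f : Yn 1 →* P) (a : Fin 1) : cyc f a = f.range := by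
  refine le_antisymm (Subgroup.zpowers_le_of_mem ⟨_, rfl⟩) ?_
  rintro _ ⟨y, rfl⟩
  have : y = ey a ^ (y.toAdd 0).val := Multiplicative.toAdd.injective (funext fun i => by
    rw [Subsingleton.elim i 0, Subsingleton.elim a 0]
    simp [ey])
  rw [this, map_pow]
  exact pow_mem (Subgroup.mem_zpowers _) _

end ExA

theorem exists_baseA : ∃ B : Base, Finite B.H ∧ Gi6 B.ι1 B.ι2 := by
  have : Fact (Nat.Prime 8191) := ⟨by norm_num⟩
  have h2 : (2 : ZMod 8191) ≠ 0 := fun h => by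
    have := (ZMod.natCast_eq_zero_iff 2 8191).1 h
    norm_num at this
  let _ : Fintype (ExA.H (ZMod 8191)) := Fintype.ofEquiv _ ExA.eqv.symm
  refine ⟨⟨ExA.H (ZMod 8191), 1, 1, by norm_num, ExA.j1, ExA.j2, ExA.g2, ExA.g4, ExA.gen h2,
    fun a b => Or.inl ?_, Finset.univ, ?_⟩, Finite.of_fintype _, ExA.g6⟩
  · rw [ExA.cyc_eq, ExA.cyc_eq]; exact ExA.ang
  · rw [Finset.card_univ, Fintype.card_congr ExA.eqv]
    simp only [Fintype.card_prod, ZMod.card]
    norm_num

theorem FreeInNormal.icc {G : Type} [Group G] (h : FreeInNormal G) : ICC G := by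
  intro g hg hfin
  obtain ⟨f, hf, hN⟩ := h (Subgroup.normalClosure {g}) inferInstance fun e =>
    hg (Subgroup.mem_bot.1 (e ▸ Subgroup.subset_normalClosure (Set.mem_singleton g)))
  have : Finite {c : G | IsConj g c} := hfin
  have cj : ∀ (x : G) (c : {c : G | IsConj g c}), x * c * x⁻¹ ∈ {c : G | IsConj g c} :=
    fun x c => IsConj.trans c.2 (isConj_iff.2 ⟨x, rfl⟩)
  let φ : G →* Equiv.Perm {c : G | IsConj g c} := MonoidHom.mk' (fun x =>
    ⟨fun c => ⟨_, cj x c⟩, fun c => ⟨_, cj x⁻¹ c⟩, fun c => Subtype.ext (by simp [mul_assoc]),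
      fun c => Subtype.ext (by simp [mul_assoc])⟩)
    fun x y => Equiv.ext fun c => Subtype.ext (by simp [mul_assoc])
  have hm := orderOf_pos (φ (f (FreeGroup.of 0)))
  have h1 := pow_orderOf_eq_one (φ (f (FreeGroup.of 0)))
  generalize orderOf (φ (f (FreeGroup.of 0))) = m at hm h1
  rw [← map_pow] at h1
  have h2 : Subgroup.normalClosure {g} ≤ Subgroup.centralizer {f (FreeGroup.of 0) ^ m} := by
    refine (Subgroup.closure_le _).2 fun c hc => ?_
    obtain ⟨g', hg', hc'⟩ := Group.mem_conjugatesOfSet_iff.1 hc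
    rw [Set.mem_singleton_iff.1 hg'] at hc'
    have := congrArg Subtype.val (Equiv.ext_iff.1 h1 ⟨c, hc'⟩)
    exact Subgroup.mem_centralizer_singleton_iff.2 (mul_inv_eq_iff_eq_mul.1 this).symm
  have h3 := Subgroup.mem_centralizer_singleton_iff.1 (h2 (hN ⟨FreeGroup.of 1, rfl⟩))
  rw [← map_pow, ← map_mul, ← map_mul] at h3
  have h4 := congrArg (fun w => FreeGroup.lift ![Equiv.addRight (1 : ℤ), Equiv.neg ℤ] w 0) (hf h3)
  simp at h4
  omega

theorem Gi2.symm {X Y P : Type} [Group X] [Group Y] [Group P] {a : X →* P} {b : Y →* P}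
    (h : Gi2 a b) : Gi2 b a := fun y x e => (h x y e.symm).symm

theorem Gi4.symm {X Y P : Type} [Group X] [Group Y] [Group P] {a : X →* P} {b : Y →* P}
    (h : Gi4 a b) : Gi4 b a := fun y x y' x' e => by
  have := h x y' x' y (by
    rw [← mul_left_cancel_iff (a := b y), ← mul_assoc, ← mul_assoc, ← mul_assoc, e]; simp)
  tauto

theorem Gi6.symm {X Y P : Type} [Group X] [Group Y] [Group P] {a : X →* P} {b : Y →* P}
    (h : Gi6 a b) : Gi6 b a := fun y x y' x' y'' x'' e => by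
  have := h x y' x' y'' x'' y (by
    rw [← mul_left_cancel_iff (a := b y), ← mul_assoc, ← mul_assoc, ← mul_assoc, ← mul_assoc,
      ← mul_assoc, e]; simp)
  tauto

end Pool.Agent.MP_434e52_an

end
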