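import Pool.Agent.MP_434e52_an.Defs

/-!
Definition: the affine symplectic group `R^(2n) ⋊ Sp_(2n)(R)`.
-/

set_option autoImplicit false

namespace Pool.Agent.MP_434e52_an

/-- The action `v ↦ g v` of symplectic matrices on column vectors, as automorphisms of the
additive group of vectors written multiplicatively. -/
def spAct (l R : Type) [Fintype l] [DecidableEq l] [CommRing R] :
    Matrix.symplecticGroup l R →* MulAut (Multiplicative (l ⊕ l → R)) :=
  (MulAutMultiplicative (l ⊕ l → R)).symm.toMonoidHom.comp
    (DistribMulAction.toAddAut (Matrix.symplecticGroup l R) (l ⊕ l → R))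

/-- The semidirect product of the column vectors by the symplectic group. -/
abbrev AffSp (l R : Type) [Fintype l] [DecidableEq l] [CommRing R] : Type :=
  SemidirectProduct (Multiplicative (l ⊕ l → R)) (Matrix.symplecticGroup l R) (spAct l R)

end Pool.Agent.MP_434e52_an
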