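import Pool.Agent.MP_434e52_an.Fin
import Pool.Agent.MP_434e52_an.WDefs

attribute [-instance] NonUnitalAlgHomClass.toNonUnitalRingHomClass
  NonarchimedeanAddGroup.toIsTopologicalAddGroup SubringClass.toRing
  IsSemitopologicalSemiring.toContinuousAdd Module.toMulActionWithZero littleWedderburn
  MonTypeEquivalenceMon.monMonoid AddSubgroup.seminormedAddCommGroup
  Subsemiring.instSMulWithZeroSubtypeMem instCharZeroOfIsSemireal
  MulSemiringAction.toDistribMulAction Submodule.instHasOrthogonalProjectionOrthogonal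
  RKHS.instFunLike RingConeClass.toSubsemiringClass instSMulZeroClass Polynomial.distribMulAction
  Valued.toUniformSpace SubringClass.toSubsemiringClass
  ContinuousSemilinearMapClass.toContinuousMapClass IdemSemiring.toSemiring NormedAlgebra.toAlgebra
  IsIsometricSMul.to_continuousConstSMul RightPreLieAlgebra.toModule BialgHomClass.toAlgHomClass
  SubsemiringClass.toCommSemiring LeftPreLieAlgebra.toModule LieAlgebra.toModule
  CoalgHomClass.toSemilinearMapClass MulRingSeminormClass.toMonoidWithZeroHomClass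
  NonUnitalRing.toNonUnitalNonAssocRing instNonUnitalAlgHomClassOfNonUnitalAlgEquivClass
  MulActionWithZero.toMulAction NonUnitalSeminormedRing.toPseudoMetricSpace
  SubringClass.nonUnitalSubringClass TensorProduct.instNormedAddCommGroup Pi.distribMulAction
  MulSemiringActionSemiHomClass.toRingHomClass AlgEquivClass.toAlgHomClass
  NonUnitalAlgHomClass.instSemilinearMapClassOfNonUnitalAlgSemiHomClassToMonoidHomRingHom
  RingHomClass.toLinearMapClassNNRat GrpTypeEquivalenceGrp.grpGroup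
  IsTopologicalSemiring.toContinuousAdd NormedCommRing.toCommRing RingHomClass.toLinearMapClassRat
  SemilinearIsometryClass.toSemilinearMapClass LieAdmissibleAlgebra.toSMulCommClass
  IsValuativeTopology.instIsTopologicalAddGroup AddQuantale.instAddLeftMono
  EuclideanDomain.toCommRing SetLike.GradeZero.instSemiring MulDistribMulAction.toMulAction
  SetLike.GradeZero.instCommSemiring NontriviallyNormedField.toNormedField Bialgebra.toAlgebra
  RightPreLieAlgebra.toSMulCommClass NumberField.to_charZero LeftPreLieAlgebra.toSMulCommClass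
  instIsScalarTowerPolynomial
  PositiveLinearMap.instContinuousLinearMapClassComplexOfLinearMapClassOfOrderHomClass
  LieRing.toAddCommGroup SemilatticeInf.toPartialOrder AlgHomClass.linearMapClass
  SetLike.GradeZero.instRing SeminormedRing.toRing MonoidWithZero.toMulZeroOneClass
  GradedMonoid.GradeZero.mulAction NonUnitalNormedCommRing.toNonUnitalCommRing BooleanRing.toRing
  IdemCommSemiring.toCommSemiring CommGroup.toDivisionCommMonoid SeminormedCommRing.toCommRing
  AddSubgroup.instIsTopologicalAddGroupSubtypeMem AlgHom.instContinuousLinearMapClassOfAlgHomClass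
  Polynomial.smulZeroClass LieRinehartAlgebra.toIsScalarTower TestFunctionClass.toDFunLike
  ContDiffMapSupportedInClass.toDFunLike NormedDivisionRing.toDivisionRing RCLike.charZero_rclike
  NormedDivisionRing.toNormedRing LieAdmissibleRing.toNonUnitalNonAssocRing
  NonUnitalSeminormedCommRing.toNonUnitalCommRing CommMonoid.toCommSemigroup
  MulActionWithZero.toSMulWithZero IdemSemiring.toCanonicallyOrderedAdd RingEquivClass.toRingHomClass
  SemilinearIsometryClass.toContinuousSemilinearMapClass DivisionRing.toDivisionSemiring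
  NonAssocCommSemiring.toNonAssocSemiring SeminormedCommGroup.toPseudoMetricSpace
  Action.instMulAction NormedRing.toSeminormedRing BooleanRing.toCommRing
  CompletePartialOrder.toPartialOrder RingEquivClass.toNonUnitalRingHomClass
  NonUnitalRing.toNonUnitalSemiring LinearOrderedAddCommMonoidWithTop.toAddCommMonoid
  MulSemiringActionSemiHomClass.toDistribMulActionSemiHomClass NormedField.toNormedCommRing
  MetricSpace.toPseudoMetricSpace CommGroup.toGroup Submonoid.instDistribMulActionSubtypeMem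
  NonUnitalNonAssocCommSemiring.toNonUnitalNonAssocSemiring LinearOrder.toDecidableEq Unique.fintype
  NonAssocCommRing.toNonUnitalNonAssocCommRing NonUnitalSubsemiringClass.toNonUnitalCommSemiring
  CommMonTypeEquivalenceCommMon.commMonCommMonoid BialgHomClass.toMonoidHomClass
  NonUnitalNormedRing.toNonUnitalSeminormedRing GradedMonoid.GradeZero.smul
  SubsemiringClass.toSemiring LinearOrderedAddCommGroupWithTop.toAddCommMonoid
  TensorProduct.leftDistribMulAction NonAssocRing.toNonAssocSemiring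
  LeftPreLieRing.toNonUnitalNonAssocRing ValuationClass.toMonoidWithZeroHomClass
  NonUnitalSubsemiringClass.mulMemClass decidableEq_of_subsingleton
  MonoidWithZero.toSemigroupWithZero NonUnitalNormedRing.toNormedAddCommGroup
  SetLike.GradeZero.instAlgebraSubtypeMemOfNat AddCommMonoidWithOne.toAddCommMonoid
  ContinuousSemilinearEquivClass.continuousSemilinearMapClass CentroidHomClass.toAddMonoidHomClass
  RightPreLieRing.toNonUnitalNonAssocRing AddQuantale.instAddRightMono
  instIsLeftCancelAddOfAddLeftReflectLE SemilinearEquivClass.instSemilinearMapClass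
  IsAddCyclic.isAddCommutative NormedCommRing.toNormedRing instDistribSMul Quantale.instMulRightMono
  RingHom.Finite.instFinite NeZero.of_gt' AddCommGroupWithOne.toAddCommGroup
  CategoryTheory.FinCategory.fintypeObj GroupConeClass.toSubmonoidClass
  SeminormedGroup.toPseudoMetricSpace

set_option autoImplicit false

/-!
Angles for unipotent groups of type `B_2` in characteristic two, and a star shaped gap lemma.
-/

namespace Pool.Agent.MP_434e52_an.Weil

open Finset

noncomputable section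

variable {G E : Type*} [Group G] [NormedAddCommGroup E] [InnerProductSpace ℂ E] [CompleteSpace E]

theorem ang_of_le {p q z : E →L[ℂ] E} (hp : IsStarProjection p) (hq : IsStarProjection q)
    (hz : IsStarProjection z) (zp : Commute z p) (zq : Commute z q)
    (h1 : ∀ v, p (q (z v)) = q (p (z v))) {e : ℝ} (he : 0 ≤ e) (he1 : e ≤ 1)
    (h2 : ∀ w, z w = 0 → ‖q (p w)‖ ≤ e * ‖p w‖) : Ang e p q := by
  intro v
  have e1 : ∀ {a : E →L[ℂ] E}, Commute z a → z (v - a v) = z v - a (z v) := fun h => by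
    rw [map_sub, cm_ap h]
  have e2 : ∀ {a : E →L[ℂ] E}, Commute z a →
      v - a v - (z v - a (z v)) = (v - z v) - a (v - z v) := fun _ => by
    rw [map_sub]; abel
  rw [pr_split hz, pr_sq hz (v - p v), pr_sq hz (v - q v), e1 zp, e1 zq, e2 zp, e2 zq]
  have hw : z (v - z v) = 0 := by rw [map_sub, pr_pr hz, sub_self]
  generalize v - z v = w at hw
  have a1 : 0 ≤ ri (z v - p (z v)) (z v - q (z v)) := by
    have h0 := pr_ri hq.one_sub ((1 - p) (z v)) ((1 - q) ((1 - p) (z v)))
    have h3 : (1 - q) ((1 - p) (z v)) = (1 - p) ((1 - q) (z v)) := by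
      change z v - p (z v) - q (z v - p (z v)) = z v - q (z v) - p (z v - q (z v))
      rw [map_sub, map_sub, h1]
      abel
    rw [pr_pr hq.one_sub] at h0
    have h4 := ri_nonneg ((1 - q) ((1 - p) (z v)))
    rw [h0, h3, ← pr_ri hp.one_sub, pr_pr hp.one_sub] at h4
    exact h4
  have a2 : 0 ≤ 2 * ri (w - p w) (w - q w) + e * (‖w - p w‖ ^ 2 + ‖w - q w‖ ^ 2) := by
    have b1 := h2 w hw
    have b2 : ri (p w) (q w) ≤ e * ‖p w‖ * ‖q w‖ := by
      rw [← pr_pr hq w, ← pr_ri hq, pr_pr hq]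
      exact (ri_le _ _).trans (mul_le_mul_of_nonneg_right b1 (norm_nonneg _))
    have b4 : 0 ≤ e * (‖p w‖ ^ 2 + ‖q w‖ ^ 2) - 2 * ri (p w) (q w) := by
      linarith only [mul_nonneg he (sq_nonneg (‖p w‖ - ‖q w‖)), b2]
    have b5 := mul_nonneg (sub_nonneg.2 he1) b4
    have b3 := ri_nonneg (((1 + e : ℝ) : ℂ) • w - (p w + q w))
    have c1 : ri w (p w) = ri (p w) (p w) := by rw [pr_ri hp, pr_pr hp]
    have c2 : ri w (q w) = ri (q w) (q w) := by rw [pr_ri hq, pr_pr hq]
    simp only [← ri_self] at b5 ⊢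
    simp only [ri_sub, sub_ri, ri_add, add_ri, ri_smul, smul_ri, ri_comm (p w) w, ri_comm (q w) w,
      ri_comm (q w) (p w), c1, c2] at b3 ⊢
    refine nonneg_of_mul_nonneg_right (a := 1 + e) ?_ (by linarith only [he])
    linarith only [b5, b3]
  have := mul_nonneg he (add_nonneg (sq_nonneg ‖z v - p (z v)‖) (sq_nonneg ‖z v - q (z v)‖))
  linarith

theorem ang_comm {p q : E →L[ℂ] E} (hp : IsStarProjection p) (hq : IsStarProjection q)
    (h : Commute p q) : Ang 0 p q :=
  ang_of_le hp hq (IsStarProjection.one _) (Commute.one_left _) (Commute.one_left _)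
    (fun v => cm_ap h _) le_rfl zero_le_one fun w hw => by
      have : w = 0 := hw
      simp [this]

omit [CompleteSpace E] in
theorem ri_sum {A : Type*} (s : Finset A) (x : E) (f : A → E) :
    ri x (∑ a ∈ s, f a) = ∑ a ∈ s, ri x (f a) := by
  simp [ri]

omit [CompleteSpace E] in
theorem sum_ri {A : Type*} (s : Finset A) (x : E) (f : A → E) :
    ri (∑ a ∈ s, f a) x = ∑ a ∈ s, ri (f a) x := by
  simp [ri]

theorem bessel {A : Type*} [DecidableEq A] (s : Finset A) (Z : A → E →L[ℂ] E)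
    (hZ : ∀ a, IsStarProjection (Z a)) (x : E)
    (o : ∀ a ∈ s, ∀ b ∈ s, a ≠ b → Z a (Z b x) = 0) : ∑ a ∈ s, ‖Z a x‖ ^ 2 ≤ ‖x‖ ^ 2 := by
  have h1 : ∀ a, ri x (Z a x) = ‖Z a x‖ ^ 2 := fun a => by
    rw [← ri_self, pr_ri (hZ a), pr_pr (hZ a)]
  have h2 : ri (∑ a ∈ s, Z a x) (∑ a ∈ s, Z a x) = ∑ a ∈ s, ‖Z a x‖ ^ 2 := by
    rw [sum_ri]
    refine sum_congr rfl fun a ha => ?_
    rw [ri_sum, sum_eq_single a, ri_self]
    · intro b hb hab
      rw [pr_ri (hZ a), o a ha b hb hab.symm]
      simp [ri]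
    · exact fun h => absurd ha h
  have h3 := ri_nonneg (x - ∑ a ∈ s, Z a x)
  rw [ri_sub, sub_ri, sub_ri, h2, ri_comm (∑ a ∈ s, Z a x) x, ri_sum, ri_self] at h3
  simp only [h1] at h3
  linarith

variable {π : G →* (E →L[ℂ] E)} (hu : ∀ g, π g ∈ unitary (E →L[ℂ] E))

include hu in
theorem un_ri (g : G) (x y : E) : ri (π g x) (π g y) = ri x y := by
  unfold ri
  rw [ContinuousLinearMap.inner_map_map_of_mem_unitary (hu g)]

/-- the commutation relation of type `B_2` in characteristic two -/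
def Bt {F : Type*} [Field F] (x y : F → G) : Prop :=
  ∃ z : F × F → G, (∀ a b, z (a + b) = z a * z b) ∧ (∀ a c, Commute (z c) (x a)) ∧
    (∀ b c, Commute (z c) (y b)) ∧ ∀ a b, x a * y b = y b * z (a * b, a ^ 2 * b) * x a

include hu in
theorem Bt.ang {F : Type*} [Field F] [Fintype F] [CharP F 2] {x y : F → G} (h : Bt x y)
    (hx : ∀ a b, x (a + b) = x a * x b) (hy : ∀ a b, y (a + b) = y a * y b)
    (hF : 8 ≤ Fintype.card F) : Ang (1 / 2) (av π x) (av π y) := by
  classical
  obtain ⟨z, hz, zx, zy, hm⟩ := h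
  have zp := (av_comm fun c => (av_comm fun a => (zx a c).map π).symm).symm
  have zq := (av_comm fun c => (av_comm fun a => (zy a c).map π).symm).symm
  refine ang_of_le (av_pr hu hx) (av_pr hu hy) (av_pr hu hz) zp zq (fun v => ?_)
    (by norm_num) (by norm_num) fun w hw => ?_
  · have k : ∀ a b, π (x a) * (π (y b) * av π z) = π (y b) * (π (x a) * av π z) := fun a b => by
      rw [← mul_assoc, ← map_mul, hm, mul_assoc (y b), (zx _ _).eq, map_mul, map_mul, mul_assoc,
        mul_assoc, mul_av hz]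
    have : av π x * (av π y * av π z) = av π y * (av π x * av π z) := by
      generalize av π z = Z at k
      simp only [av, smul_mul_assoc, sum_mul, mul_smul_comm, mul_sum, k, smul_sum]
      rw [sum_comm]
    exact congrArg (fun T : E →L[ℂ] E => T v) this
  · have hξ : av π z (av π x w) = 0 := by rw [cm_ap zp, hw, map_zero]
    have hf := av_fix hx (pr_pr (av_pr hu hx) w)
    generalize av π x w = ξ at hξ hf
    let zz : F → F → G := fun b a => z (a * b, a ^ 2 * b)
    have hzz : ∀ b a a', zz b (a + a') = zz b a * zz b a' := fun b a a' => by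
      simp only [zz, ← hz, Prod.mk_add_mk, add_mul, CharTwo.add_sq]
    let Z : F → E →L[ℂ] E := fun b => av π (zz b)
    have hZ : ∀ b, IsStarProjection (Z b) := fun b => av_pr hu (hzz b)
    have q0 : (0 : ℝ) < Fintype.card F := by exact_mod_cast Fintype.card_pos
    have k1 : ∀ b, ri ξ (π (y b) ξ) ≤ ‖Z b ξ‖ ^ 2 := fun b => by
      have c : Commute (π (y b)) (Z b) := av_comm fun a => ((zy b _).map π).symm
      have k2 : ∀ a, ri ξ (π (y b) (π (zz b a) ξ)) = ri ξ (π (y b) ξ) := fun a => by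
        rw [← un_ri hu (x a) ξ (π (y b) ξ), hf, ← mul_apply_eq_comp (π (x a)), ← map_mul, hm,
          map_mul, map_mul, mul_apply_eq_comp, hf, mul_apply_eq_comp]
      have k3 : ri ξ (π (y b) (Z b ξ)) = ri ξ (π (y b) ξ) := by
        simp only [Z, av, smul_apply, _root_.sum_apply, map_smul, map_sum, ri_smul, ri_sum, k2,
          sum_const, card_univ, nsmul_eq_mul]
        field_simp
      rw [← k3, ← pr_pr (hZ b) ξ, cm_ap c, ← pr_ri (hZ b), pr_pr (hZ b), sq]
      exact (ri_le _ _).trans_eq (by rw [un_norm hu])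
    have k4 : ∀ b ∈ univ.erase (0 : F), ∀ b' ∈ univ.erase (0 : F), b ≠ b' → Z b (Z b' ξ) = 0 := by
      intro b hb b' hb' hbb
      have hb0 := (mem_erase.1 hb).1
      have hb1 := (mem_erase.1 hb').1
      let f : F × F →+ F × F := AddMonoidHom.mk'
        (fun a => (a.1 * b + a.2 * b', a.1 ^ 2 * b + a.2 ^ 2 * b')) fun a c => by
          simp only [Prod.fst_add, Prod.snd_add, CharTwo.add_sq, Prod.mk_add_mk]
          ext <;> ring
      have hi : Function.Injective f := by
        rw [injective_iff_map_eq_zero]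
        rintro ⟨a, c⟩ h
        have h1 : a * b + c * b' = 0 := congrArg Prod.fst h
        have h2 : a ^ 2 * b + c ^ 2 * b' = 0 := congrArg Prod.snd h
        have h3 : a ^ 2 * b * (b' + b) = 0 := by
          linear_combination b' * h2 + (a * b - c * b') * h1
        have h4 : b' + b ≠ 0 := fun h => hbb (CharTwo.add_eq_zero.1 h).symm
        have h5 : a = 0 := by simpa [hb0, h4] using h3
        have h6 : c = 0 := by simpa [h5, hb1] using h1
        rw [h5, h6]; rfl
      have : Z b * Z b' = av π z := by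
        simp only [Z, av, smul_mul_assoc, mul_smul_comm, smul_smul, sum_mul_sum]
        rw [← (Finite.injective_iff_bijective.1 hi).sum_comp fun c => π (z c), Fintype.sum_prod_type]
        congr 1
        · simp only [Complex.ofReal_inv, Complex.ofReal_natCast, Fintype.card_prod, Nat.cast_mul, mul_inv_rev, Complex.ofReal_mul]
        · refine sum_congr rfl fun a _ => sum_congr rfl fun c _ => ?_
          rw [← map_mul, ← hz]; rfl
      rw [← mul_apply_eq_comp, this, hξ]
    have k5 := bessel _ Z hZ ξ k4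
    have k6 : ‖av π y ξ‖ ^ 2 = (Fintype.card F : ℝ)⁻¹ * ∑ b, ri ξ (π (y b) ξ) := by
      rw [← ri_self, pr_ri (av_pr hu hy), pr_pr (av_pr hu hy)]
      simp only [av, smul_apply, _root_.sum_apply, ri_smul, ri_sum]
    have k7 : ∑ b, ri ξ (π (y b) ξ) ≤ 2 * ‖ξ‖ ^ 2 := by
      rw [← add_sum_erase _ _ (mem_univ (0 : F)), hx_zero hy, map_one, one_apply_eq_self, ri_self]
      have := sum_le_sum (s := univ.erase (0 : F)) fun b _ => k1 b
      linarith only [k5, this]
    have q8 : (8 : ℝ) ≤ Fintype.card F := by exact_mod_cast hF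
    refine abs_le_of_sq_le_sq' ?_ (by positivity) |>.2
    rw [k6, inv_mul_le_iff₀ q0]
    nlinarith only [k7, q8]

theorem gap4 {p q r s : E →L[ℂ] E} (hp : IsStarProjection p) (hq : IsStarProjection q)
    (hr : IsStarProjection r) (hs : IsStarProjection s) (h1 : Ang (1 / 2) p q)
    (h2 : Ang (1 / 2) p r) (h3 : Ang (3 / 8) p s) (h4 : Ang 0 q r) (h5 : Ang 0 q s)
    (h6 : Ang 0 r s) {v : E} {d : ℝ} (d1 : ‖v - p v‖ ≤ d) (d2 : ‖v - q v‖ ≤ d)
    (d3 : ‖v - r v‖ ≤ d) (d4 : ‖v - s v‖ ≤ d) :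
    ∃ η, p η = η ∧ q η = η ∧ r η = η ∧ s η = η ∧ ‖v - η‖ ≤ 6 * d := by
  set T : E →L[ℂ] E := ((3 / 2 : ℝ) : ℂ) • (1 - p) + (1 - q) + (1 - r) + (1 - s) with hT
  have Ta : ∀ u, T u = ((3 / 2 : ℝ) : ℂ) • (u - p u) + (u - q u) + (u - r u) + (u - s u) :=
    fun u => rfl
  have o : ∀ {a : E →L[ℂ] E}, IsStarProjection a → ∀ u, ri (u - a u) u = ‖u - a u‖ ^ 2 :=
    fun ha u => by
      simp only [← ri_self, ri_sub, sub_ri, pr_ri ha, pr_pr ha]
      ring
  have Q : ∀ u, ri (T u) u =
      3 / 2 * ‖u - p u‖ ^ 2 + ‖u - q u‖ ^ 2 + ‖u - r u‖ ^ 2 + ‖u - s u‖ ^ 2 := fun u => by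
    rw [Ta, add_ri, add_ri, add_ri, smul_ri, o hp, o hq, o hr, o hs]
  have Ts : ∀ u w, ri (T u) w = ri u (T w) := fun u w => by
    simp only [Ta, ri_sub, sub_ri, ri_add, add_ri, ri_smul, smul_ri, pr_ri hp, pr_ri hq, pr_ri hr,
      pr_ri hs]
  have T2 : ∀ u, ri (T u) u ≤ 8 * ‖T u‖ ^ 2 := fun u => by
    have a1 := h1 u
    have a2 := h2 u
    have a3 := h3 u
    have a4 := h4 u
    have a5 := h5 u
    have a6 := h6 u
    rw [Q, Ta]
    generalize u - p u = x at *
    generalize u - q u = y at *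
    generalize u - r u = z at *
    generalize u - s u = t at *
    simp only [← ri_self] at *
    simp only [ri_add, add_ri, ri_smul, smul_ri, ri_comm y x, ri_comm z x, ri_comm t x, ri_comm z y,
      ri_comm t y, ri_comm t z]
    linarith [ri_nonneg y, ri_nonneg z, ri_nonneg t]
  let K : Submodule ℂ E := (LinearMap.range (T : E →ₗ[ℂ] E))ᗮ
  have g : ∀ w ∈ Kᗮ, ‖w‖ ^ 2 ≤ 8 * ri (T w) w := by
    intro w hw
    rw [Submodule.orthogonal_orthogonal_eq_closure] at hw
    refine closure_minimal (t := {w | ‖w‖ ^ 2 ≤ 8 * ri (T w) w}) ?_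
      (isClosed_le (by fun_prop) (by unfold ri; fun_prop)) hw
    rintro _ ⟨u, rfl⟩
    change ‖T u‖ ^ 2 ≤ 8 * ri (T (T u)) (T u)
    have a1 : 0 ≤ ri (T (T u - ((1 / 8 : ℝ) : ℂ) • u)) (T u - ((1 / 8 : ℝ) : ℂ) • u) := by
      rw [Q]; positivity
    have a2 := T2 u
    rw [map_sub, map_smul] at a1
    simp only [ri_sub, sub_ri, ri_smul, smul_ri, Ts (T u) u, ri_self] at a1
    linarith only [a2, a1]
  have hη := K.starProjection_apply_mem v
  have hw := K.sub_starProjection_mem_orthogonal v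
  generalize K.starProjection v = η at hη hw
  have f : ri (T η) η = 0 := congrArg Complex.re (hη _ ⟨η, rfl⟩)
  rw [Q] at f
  have z : ∀ x : E, ‖η - x‖ ^ 2 ≤ 0 → x = η := fun x h =>
    (sub_eq_zero.1 (norm_eq_zero.1 (pow_eq_zero_iff two_ne_zero |>.1
      (h.antisymm (sq_nonneg _))))).symm
  have s1 := sq_nonneg ‖η - p η‖
  have s2 := sq_nonneg ‖η - q η‖
  have s3 := sq_nonneg ‖η - r η‖
  have s4 := sq_nonneg ‖η - s η‖
  have f1 := z (p η) (by linarith)
  have f2 := z (q η) (by linarith)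
  have f3 := z (r η) (by linarith)
  have f4 := z (s η) (by linarith)
  refine ⟨η, f1, f2, f3, f4, ?_⟩
  have := g _ hw
  have c : ∀ a : E →L[ℂ] E, a η = η → ‖v - a v‖ ≤ d → ‖v - η - a (v - η)‖ ^ 2 ≤ d ^ 2 :=
    fun a h h' => by
      rw [map_sub, h, sub_sub_sub_cancel_right]
      exact pow_le_pow_left₀ (norm_nonneg _) h' 2
  rw [Q] at this
  have h0 : 0 ≤ d := (norm_nonneg _).trans d1
  refine (abs_le_of_sq_le_sq' ?_ (by positivity)).2
  linarith only [c p f1 d1, c q f2 d2, c r f3 d3, c s f4 d4, this]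

include hu in
/-- a vector almost fixed by four finite families is near a vector fixed by them -/
theorem near_four {F : Type*} [Field F] [Fintype F] [CharP F 2] {x y z t : F → G}
    (hx : ∀ a b, x (a + b) = x a * x b) (hy : ∀ a b, y (a + b) = y a * y b)
    (hz : ∀ a b, z (a + b) = z a * z b) (ht : ∀ a b, t (a + b) = t a * t b)
    (hF : 8 ≤ Fintype.card F) (h1 : Bt x y) (h2 : Bt x z) (h3 : Heis x t)
    (h4 : ∀ a b, Commute (y a) (z b)) (h5 : ∀ a b, Commute (y a) (t b))
    (h6 : ∀ a b, Commute (z a) (t b)) {v : E} {d : ℝ}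
    (d1 : ∀ a, ‖π (x a) v - v‖ ≤ d) (d2 : ∀ a, ‖π (y a) v - v‖ ≤ d)
    (d3 : ∀ a, ‖π (z a) v - v‖ ≤ d) (d4 : ∀ a, ‖π (t a) v - v‖ ≤ d) :
    ∃ η, (∀ a, π (x a) η = η) ∧ (∀ a, π (y a) η = η) ∧ (∀ a, π (z a) η = η) ∧
      (∀ a, π (t a) η = η) ∧ ‖v - η‖ ≤ 6 * d := by
  have cm : ∀ {y z : F → G}, (∀ a b, Commute (y a) (z b)) → Commute (av π y) (av π z) :=
    fun h => av_comm fun b => (av_comm fun a => ((h a b).map π).symm).symm
  obtain ⟨η, a, b, c, e, f⟩ := gap4 (av_pr hu hx) (av_pr hu hy) (av_pr hu hz) (av_pr hu ht)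
    (h1.ang hu hx hy hF) (h2.ang hu hx hz hF) (h3.ang hu hx ht hF)
    (ang_comm (av_pr hu hy) (av_pr hu hz) (cm h4)) (ang_comm (av_pr hu hy) (av_pr hu ht) (cm h5))
    (ang_comm (av_pr hu hz) (av_pr hu ht) (cm h6)) (av_near' d1) (av_near' d2) (av_near' d3)
    (av_near' d4)
  exact ⟨η, av_fix hx a, av_fix hy b, av_fix hz c, av_fix ht e, f⟩

end

end Pool.Agent.MP_434e52_an.Weil

/-!
Symplectic transvections and bounded factorisation of symplectic matrices.
-/

namespace Pool.Agent.MP_434e52_an.Weil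

open Matrix

/-- column vectors -/
abbrev Vc (l R : Type) : Type := l ⊕ l → R

/-- the symplectic group -/
abbrev Sp (l R : Type) [Fintype l] [DecidableEq l] [CommRing R] : Type := symplecticGroup l R

variable {l R : Type} [Fintype l] [DecidableEq l] [CommRing R]

/-- the symplectic form -/
def om (x y : Vc l R) : R := x ⬝ᵥ J l R *ᵥ y

theorem om_add (x y z : Vc l R) : om x (y + z) = om x y + om x z := by
  simp only [om, mulVec_add, dotProduct_add]

theorem add_om (x y z : Vc l R) : om (x + y) z = om x z + om y z := by simp only [om, add_dotProduct]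

theorem om_smul (a : R) (x y : Vc l R) : om x (a • y) = a * om x y := by simp only [om, mulVec_smul, dotProduct_smul, smul_eq_mul]

theorem smul_om (a : R) (x y : Vc l R) : om (a • x) y = a * om x y := by simp only [om, smul_dotProduct, smul_eq_mul]

theorem om_eq (x y : Vc l R) :
    om x y = ∑ i, (x (.inr i) * y (.inl i) - x (.inl i) * y (.inr i)) := by
  simp only [om, dotProduct, J, fromBlocks_mulVec, zero_mulVec, neg_mulVec, one_mulVec, zero_add, add_zero, Fintype.sum_sum_type, Sum.elim_inl, Pi.neg_apply, Function.comp_apply, mul_neg, Finset.sum_neg_distrib, Sum.elim_inr, neg_add_eq_sub, Finset.sum_sub_distrib]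

theorem om_anti (x y : Vc l R) : om x y = -om y x := by
  rw [om_eq, om_eq, ← Finset.sum_neg_distrib]
  exact Finset.sum_congr rfl fun i _ => by ring

theorem om_self (x : Vc l R) : om x x = 0 := by
  rw [om_eq]
  exact Finset.sum_eq_zero fun i _ => by ring

theorem sp_smul (g : Sp l R) (u : Vc l R) : g • u = g.1 *ᵥ u := rfl

theorem om_inv (g : Sp l R) (x y : Vc l R) : om (g • x) (g • y) = om x y := by
  rw [om, sp_smul, sp_smul, ← vecMul_transpose, ← dotProduct_mulVec, mulVec_mulVec, mulVec_mulVec,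
    SymplecticGroup.mem_iff'.1 g.2, om]

theorem sp_ext {g h : Sp l R} (e : ∀ u : Vc l R, g • u = h • u) : g = h :=
  Subtype.ext (Matrix.ext_iff_mulVec.2 e)

/-- the transvection `u ↦ u + r ω(w, u) w` -/
def tv (w : Vc l R) (r : R) : Sp l R :=
  ⟨1 + r • vecMulVec w (w ᵥ* J l R), by
    have h1 : w ᵥ* J l R ᵥ* J l R = -w := by rw [vecMul_vecMul, J_squared, vecMul_neg, vecMul_one]
    have h2 : J l R *ᵥ (w ᵥ* J l R) = w := by
      rw [← vecMul_transpose, J_transpose, vecMul_neg, h1, neg_neg]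
    have h3 : w ᵥ* J l R ⬝ᵥ w = 0 := by rw [← dotProduct_mulVec]; exact om_self w
    rw [SymplecticGroup.mem_iff, mul_assoc, transpose_add, transpose_one, transpose_smul,
      transpose_vecMulVec, mul_add, mul_one, mul_smul_comm, mul_vecMulVec, h2, add_mul, one_mul,
      smul_mul_assoc, mul_add, vecMulVec_mul, h1, mul_smul_comm, vecMulVec_mul_vecMulVec, h3]
    simp⟩

theorem tv_smul (w : Vc l R) (r : R) (u : Vc l R) : tv w r • u = u + (r * om w u) • w := by
  rw [sp_smul, tv, add_mulVec, one_mulVec, smul_mulVec, vecMulVec_mulVec, op_smul_eq_smul,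
    ← dotProduct_mulVec, smul_smul, om]

theorem tv_add (w : Vc l R) (r s : R) : tv w (r + s) = tv w r * tv w s := sp_ext fun u => by
  simp only [mul_smul, tv_smul, om_add, om_smul, om_self]
  module

theorem tv_zero (w : Vc l R) : tv w 0 = 1 := sp_ext fun u => by simp [tv_smul]

theorem tv_neg (w : Vc l R) (r : R) : tv w (-r) = (tv w r)⁻¹ := by
  rw [eq_inv_iff_mul_eq_one, ← tv_add, neg_add_cancel, tv_zero]

theorem tv_conj (g : Sp l R) (w : Vc l R) (r : R) : g * tv w r = tv (g • w) r * g :=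
  sp_ext fun u => by rw [mul_smul, mul_smul, tv_smul, tv_smul, smul_add, om_inv, smul_comm]

theorem tv_sc (a : R) (w : Vc l R) (r : R) : tv (a • w) r = tv w (a ^ 2 * r) := sp_ext fun u => by
  simp only [tv_smul, smul_om]
  module

theorem tv_mem {P : Subgroup (Sp l R)} {g : Sp l R} {w : Vc l R} {r : R} (hg : g ∈ P)
    (h : tv w r ∈ P) : tv (g • w) r ∈ P := by
  rw [← mul_inv_eq_iff_eq_mul.2 (tv_conj g w r)]
  exact mul_mem (mul_mem hg h) (inv_mem hg)

/-- the short root elements -/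
def sv (w w' : Vc l R) (r : R) : Sp l R := tv (w + w') r * tv w (-r) * tv w' (-r)

theorem sv_smul {w w' : Vc l R} (h : om w w' = 0) (r : R) (u : Vc l R) :
    sv w w' r • u = u + (r * om w u) • w' + (r * om w' u) • w := by
  have h' : om w' w = 0 := by rw [om_anti, h, neg_zero]
  simp only [sv, mul_smul, tv_smul, om_add, add_om, om_smul, om_self, h, h']
  module

theorem sv_add {w w' : Vc l R} (h : om w w' = 0) (r s : R) :
    sv w w' (r + s) = sv w w' r * sv w w' s := sp_ext fun u => by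
  have h' : om w' w = 0 := by rw [om_anti, h, neg_zero]
  simp only [mul_smul, sv_smul h, om_add, om_smul, om_self, h, h']
  module

theorem sv_symm {w w' : Vc l R} (h : om w w' = 0) (r : R) : sv w w' r = sv w' w r :=
  sp_ext fun u => by
    rw [sv_smul h, sv_smul (by rw [om_anti, h, neg_zero]), add_right_comm]

theorem tv_expand {w w' : Vc l R} (h : om w w' = 0) (a r : R) :
    tv (w + a • w') r = tv w r * sv w w' (a * r) * tv w' (a ^ 2 * r) := sp_ext fun u => by
  simp only [mul_smul, sv_smul h, tv_smul, om_add, add_om, om_smul, smul_om, om_self, h]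
  module

theorem sv_mem {P : Subgroup (Sp l R)} {w w' : Vc l R} {r : R} (h1 : tv (w + w') r ∈ P)
    (h2 : tv w r ∈ P) (h3 : tv w' r ∈ P) : sv w w' r ∈ P := by
  rw [sv, tv_neg, tv_neg]
  exact mul_mem (mul_mem h1 (inv_mem h2)) (inv_mem h3)

/-- the basis vectors -/
def ee (m : l ⊕ l) : Vc l R := Pi.single m 1

omit [Fintype l] in
theorem ee_apply (m k : l ⊕ l) : (ee m : Vc l R) k = if k = m then 1 else 0 := by
  rw [ee, Pi.single_apply]

variable [CharP R 2]

theorem om_ee (m : l ⊕ l) (u : Vc l R) : om (ee m) u = u m.swap := by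
  rw [om_eq]
  rcases m with i | i <;> simp only [ee, ne_eq, reduceCtorEq, not_false_eq_true, Pi.single_eq_of_ne, zero_mul, Pi.single_apply, Sum.inl.injEq, ite_mul, one_mul, zero_sub, CharTwo.neg_eq, Finset.sum_ite_eq', Finset.mem_univ, ↓ reduceIte, Sum.swap_inl, Sum.inr.injEq, sub_zero, Sum.swap_inr]

theorem om_comm (x y : Vc l R) : om x y = om y x := by rw [om_anti, CharTwo.neg_eq]

theorem om_ee_ee (m k : l ⊕ l) : om (ee m : Vc l R) (ee k) = if m.swap = k then 1 else 0 := by
  rw [om_ee, ee, Pi.single_apply]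

/-- the index of a coordinate -/
def ix : l ⊕ l → l := Sum.elim id id

omit [Fintype l] [DecidableEq l] in
@[simp] theorem ix_inl (i : l) : ix (.inl i) = i := rfl

omit [Fintype l] [DecidableEq l] in
@[simp] theorem ix_inr (i : l) : ix (.inr i) = i := rfl

omit [Fintype l] [DecidableEq l] in
@[simp] theorem ix_swap (m : l ⊕ l) : ix m.swap = ix m := by cases m <;> rfl

/-- the vectors with entries zero or one supported at two indices -/
def Sup (i j : l) (w : Vc l R) : Prop :=
  ∀ m, (w m = 0 ∨ w m = 1) ∧ (ix m ≠ i → ix m ≠ j → w m = 0)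

/-- the elementary group of a pair of indices -/
def El (R : Type) [CommRing R] (i j : l) : Subgroup (Sp l R) :=
  Subgroup.closure {g | ∃ w r, Sup i j w ∧ g = tv w r}

omit [Fintype l] [CharP R 2] in
theorem sup_ee {i j : l} {m : l ⊕ l} (h : ix m = i ∨ ix m = j) : Sup i j (ee m : Vc l R) := by
  intro k
  by_cases e : k = m
  · subst e
    refine ⟨Or.inr (by simp [ee]), fun a b => ?_⟩
    tauto
  · simp only [ee, ne_eq, e, not_false_eq_true, Pi.single_eq_of_ne, true_or, implies_true, and_self]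

omit [CharP R 2] in
theorem tv_el {i j : l} {m : l ⊕ l} (h : ix m = i ∨ ix m = j) (r : R) : tv (ee m) r ∈ El R i j :=
  Subgroup.subset_closure ⟨_, _, sup_ee h, rfl⟩

omit [CharP R 2] in
theorem sv_el {i j : l} {m k : l ⊕ l} (h : ix m = i) (h' : ix k = j) (hij : i ≠ j) (r : R) :
    sv (ee m) (ee k) r ∈ El R i j := by
  refine sv_mem (Subgroup.subset_closure ⟨_, _, fun n => ?_, rfl⟩) (tv_el (.inl h) r)
    (tv_el (.inr h') r)
  have : m ≠ k := fun e => hij (by rw [← h, ← h', e])
  by_cases a : n = m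
  · subst a; simp only [ee, Pi.add_apply, Pi.single_eq_same, ne_eq, this, not_false_eq_true, Pi.single_eq_of_ne, add_zero, or_true, h, not_true_eq_false, IsEmpty.forall_iff, and_self]
  · by_cases b : n = k
    · subst b; simp only [ee, Pi.add_apply, ne_eq, a, not_false_eq_true, Pi.single_eq_of_ne, Pi.single_eq_same, zero_add, or_true, h', not_true_eq_false, IsEmpty.forall_iff, implies_true, and_self]
    · simp only [ee, Pi.add_apply, ne_eq, a, not_false_eq_true, Pi.single_eq_of_ne, b, add_zero, true_or, implies_true, and_self]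

theorem el_fix {i j : l} {g : Sp l R} (hg : g ∈ El R i j) {m : l ⊕ l} (hi : ix m ≠ i)
    (hj : ix m ≠ j) : g • (ee m : Vc l R) = ee m := by
  refine (Subgroup.closure_le (MulAction.stabilizer (Sp l R) (ee m : Vc l R))).2 ?_ hg
  rintro _ ⟨w, r, hw, rfl⟩
  change tv w r • ee m = ee m
  rw [tv_smul, om_comm, om_ee, (hw _).2 (by simpa) (by simpa)]
  simp

theorem co_fix {g : Sp l R} {m : l ⊕ l} (h : g • (ee m.swap : Vc l R) = ee m.swap) (u : Vc l R) :
    (g • u) m = u m := by
  have := om_inv g (ee m.swap) u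
  rwa [h, om_ee, om_ee, Sum.swap_swap] at this

/-- the induction principle of the Euclidean algorithm -/
def Euc (R : Type) [CommRing R] : Prop :=
  ∀ P : R → R → Prop, (∀ x, P 0 x) → (∀ a b q, P (b + q * a) a → P a b) → ∀ a b, P a b

omit [CharP R 2] in
theorem euclid (hE : Euc R) {P : Subgroup (Sp l R)} {U : Set (Vc l R)} {α β : l ⊕ l}
    {A B : R → Sp l R} (hA : ∀ r, A r ∈ P) (hB : ∀ r, B r ∈ P)
    (a : ∀ r, ∀ u ∈ U, A r • u ∈ U ∧ (A r • u) α = u α + r * u β ∧ (A r • u) β = u β)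
    (b : ∀ r, ∀ u ∈ U, B r • u ∈ U ∧ (B r • u) β = u β + r * u α ∧ (B r • u) α = u α)
    {u : Vc l R} (hu : u ∈ U) : ∃ h ∈ P, h • u ∈ U ∧ (h • u) β = 0 := by
  refine hE (fun x y => ∀ u ∈ U, (u α = x ∧ u β = y ∨ u β = x ∧ u α = y) →
    ∃ h ∈ P, h • u ∈ U ∧ (h • u) β = 0) ?_ ?_ _ _ u hu (.inl ⟨rfl, rfl⟩)
  · rintro x u hu (⟨h1, -⟩ | ⟨h1, -⟩)
    · obtain ⟨a1, a2, a3⟩ := a 1 u hu
      obtain ⟨b1, b2, -⟩ := b (-1) _ a1
      refine ⟨B (-1) * A 1, mul_mem (hB _) (hA _), ?_⟩
      rw [mul_smul, b2, a2, a3, h1]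
      exact ⟨b1, by ring⟩
    · exact ⟨1, one_mem _, by rwa [one_smul], by rwa [one_smul]⟩
  · rintro x y q ih u hu (⟨h1, h2⟩ | ⟨h1, h2⟩)
    · obtain ⟨b1, b2, b3⟩ := b q u hu
      obtain ⟨h, hh, e⟩ := ih _ b1 (.inr ⟨by rw [b2, h1, h2], by rw [b3, h1]⟩)
      exact ⟨h * B q, mul_mem hh (hB _), by rwa [mul_smul]⟩
    · obtain ⟨b1, b2, b3⟩ := a q u hu
      obtain ⟨h, hh, e⟩ := ih _ b1 (.inl ⟨by rw [b2, h1, h2], by rw [b3, h1]⟩)
      exact ⟨h * A q, mul_mem hh (hA _), by rwa [mul_smul]⟩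

omit [CharP R 2] in
theorem el_left (i j : l) : El R i i ≤ El R i j := Subgroup.closure_mono <| by
  rintro _ ⟨w, r, hw, rfl⟩
  exact ⟨w, r, fun m => ⟨(hw m).1, fun a _ => (hw m).2 a a⟩, rfl⟩

omit [CharP R 2] in
theorem el_right (i j : l) : El R j j ≤ El R i j := Subgroup.closure_mono <| by
  rintro _ ⟨w, r, hw, rfl⟩
  exact ⟨w, r, fun m => ⟨(hw m).1, fun _ a => (hw m).2 a a⟩, rfl⟩

theorem tv_ee (m : l ⊕ l) (r : R) (u : Vc l R) (k : l ⊕ l) :
    (tv (ee m) r • u) k = u k + if k = m then r * u m.swap else 0 := by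
  simp [tv_smul, om_ee, ee_apply]

theorem om_ne {m n : l ⊕ l} (h : ix m ≠ ix n) : om (ee m : Vc l R) (ee n) = 0 := by
  rw [om_ee_ee, if_neg]
  rintro rfl
  exact h (ix_swap m).symm

theorem sv_ee {m n : l ⊕ l} (h : ix m ≠ ix n) (r : R) (u : Vc l R) (k : l ⊕ l) :
    (sv (ee m) (ee n) r • u) k =
      u k + (if k = n then r * u m.swap else 0) + if k = m then r * u n.swap else 0 := by
  simp [sv_smul (om_ne h), om_ee, ee_apply]

theorem sl_two (hE : Euc R) (i : l) (u : Vc l R) : ∃ h ∈ El R i i, (h • u) (.inr i) = 0 := by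
  obtain ⟨h, a, -, b⟩ := euclid hE (P := El R i i) (U := Set.univ) (α := .inl i) (β := .inr i)
    (tv_el (m := .inl i) (.inl rfl)) (tv_el (m := .inr i) (.inl rfl))
    (fun r u _ => by simp only [Set.mem_univ, tv_ee, ↓ reduceIte, Sum.swap_inl, reduceCtorEq, add_zero, and_self]) (fun r u _ => by simp only [Set.mem_univ, tv_ee, ↓ reduceIte, Sum.swap_inr, reduceCtorEq, add_zero, and_self]) (Set.mem_univ u)
  exact ⟨h, a, b⟩

theorem pair_kill (hE : Euc R) {k j : l} (hkj : k ≠ j) (u : Vc l R) :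
    ∃ h ∈ El R k j, ∀ m, ix m = j → (h • u) m = 0 := by
  obtain ⟨h1, a1, b1⟩ := sl_two hE j u
  obtain ⟨h2, a2, b2⟩ := sl_two hE k (h1 • u)
  obtain ⟨h, a, ⟨-, c⟩, b⟩ := euclid hE (P := El R k j)
    (U := {u | u (.inr k) = 0 ∧ u (.inr j) = 0}) (α := .inl k) (β := .inl j)
    (sv_el (m := .inl k) (k := .inr j) rfl rfl hkj) (sv_el (m := .inr k) (k := .inl j) rfl rfl hkj)
    (fun r u hu => by simp [sv_ee (m := .inl k) (n := .inr j) hkj, hu.1, hu.2, hkj.symm])
    (fun r u hu => by simp [sv_ee (m := .inr k) (n := .inl j) hkj, hu.1, hu.2, hkj])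
    (u := h2 • h1 • u) ⟨b2, by rw [co_fix (m := .inr j) (el_fix a2 hkj.symm hkj.symm), b1]⟩
  refine ⟨h * h2 * h1, mul_mem (mul_mem a (el_left k j a2)) (el_right k j a1), ?_⟩
  rw [mul_smul, mul_smul]
  rintro (m | m) rfl
  exacts [b, c]

section Fac

variable {d : Sp l R → ℝ} {c : ℝ} (hd : ∀ g h, d (g * h) ≤ d g + d h) (hi : ∀ g, d g⁻¹ = d g)
  (h1 : d 1 = 0) (hc : ∀ i j, i ≠ j → ∀ g ∈ El R i j, d g ≤ c)

include hd h1 hc in
theorem kill {k : l} {P : Subgroup (Sp l R)} {U : Set (Vc l R)} (hU : ∀ h ∈ P, ∀ u ∈ U, h • u ∈ U)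
    (hk : ∀ j, k ≠ j → ∀ u ∈ U, ∃ h ∈ El R k j, h ∈ P ∧ ∀ m, ix m = j → (h • u) m = 0)
    (t : Finset l) (ht : k ∉ t) {u : Vc l R} (hu : u ∈ U) :
    ∃ h ∈ P, d h ≤ t.card * c ∧ (∀ m, ix m ≠ k → ix m ∉ t → h • (ee m : Vc l R) = ee m) ∧
      ∀ m, ix m ∈ t → (h • u) m = 0 := by
  induction t using Finset.induction_on with
  | empty => exact ⟨1, one_mem _, by simp [h1], fun m _ _ => one_smul _ _, by simp only [Finset.notMem_empty, one_smul, IsEmpty.forall_iff, implies_true]⟩
  | insert j t hj ih =>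
    rw [Finset.mem_insert, not_or] at ht
    obtain ⟨h, a1, a2, a3, a4⟩ := ih ht.2
    obtain ⟨g, b1, b2, b3⟩ := hk j ht.1 _ (hU h a1 u hu)
    refine ⟨g * h, mul_mem b2 a1, ?_, fun m e1 e2 => ?_, fun m e => ?_⟩
    · rw [Finset.card_insert_of_notMem hj]
      push_cast
      linarith [hd g h, hc k j ht.1 g b1]
    · rw [Finset.mem_insert, not_or] at e2
      rw [mul_smul, a3 m e1 e2.2, el_fix b1 e1 e2.1]
    · rw [mul_smul]
      rcases Finset.mem_insert.1 e with f | f
      · exact b3 m f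
      · rw [co_fix (el_fix b1 (by rw [ix_swap]; rintro rfl; exact ht.2 f)
          (by rw [ix_swap]; rintro rfl; exact hj f)), a4 m f]

include hd hi h1 hc in
theorem fac_step [Nontrivial l] (hE : Euc R) {k : l} {t : Finset l} (ht : k ∉ t) (g : Sp l R)
    (hg : ∀ m, ix m ≠ k → ix m ∉ t → g • (ee m : Vc l R) = ee m) :
    ∃ g' : Sp l R, (∀ m, ix m ∉ t → g' • (ee m : Vc l R) = ee m) ∧
      d g ≤ d g' + (2 * t.card + 2) * c := by
  obtain ⟨j, hj⟩ := exists_ne k
  have red : ∀ h g, d g ≤ d (h * g) + d h := fun h g => by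
    have := hd h⁻¹ (h * g)
    rw [inv_mul_cancel_left, hi] at this
    linarith
  have one : ∀ h ∈ El R k k, d h ≤ c := fun h hh => hc k j hj.symm h (el_left k j hh)
  have supp : ∀ (g : Sp l R) (n : l ⊕ l), ix n = k →
      (∀ m, ix m ≠ k → ix m ∉ t → g • (ee m : Vc l R) = ee m) →
      (∀ m, ix m ∈ t → (g • (ee n : Vc l R)) m = 0) → g • (ee n : Vc l R) =
        (g • (ee n : Vc l R)) (.inl k) • ee (.inl k) + (g • (ee n : Vc l R)) (.inr k) • ee (.inr k) := by
    intro g n hn a b
    ext m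
    by_cases e : ix m = k
    · rcases m with m | m <;> obtain rfl : m = k := e <;> simp only [ee, Pi.add_apply, Pi.smul_apply, Pi.single_eq_same, smul_eq_mul, mul_one, ne_eq, reduceCtorEq, not_false_eq_true, Pi.single_eq_of_ne, mul_zero, add_zero, zero_add]
    · have e1 : m ≠ .inl k := by rintro rfl; exact e rfl
      have e2 : m ≠ .inr k := by rintro rfl; exact e rfl
      have e3 : m ≠ n := by rintro rfl; exact e hn
      by_cases f : ix m ∈ t
      · simp only [b m f, Pi.add_apply, Pi.smul_apply, ee_apply, e1, ↓ reduceIte, smul_eq_mul, mul_zero, e2, add_zero]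
      · rw [co_fix (a _ (by simpa) (by simpa))]
        simp [ee, e1, e2, e3]
  obtain ⟨g1, -, a2, a3, a4⟩ := kill hd h1 hc (k := k) (P := ⊤) (U := Set.univ) (by simp)
    (fun j e u _ => (pair_kill hE e u).imp fun h hh => ⟨hh.1, trivial, hh.2⟩) t ht
    (Set.mem_univ (g • ee (.inl k)))
  obtain ⟨g2, b1, b2⟩ := sl_two hE k (g1 • g • ee (.inl k))
  have f2 : ∀ m, ix m ≠ k → ix m ∉ t → (g2 * (g1 * g)) • (ee m : Vc l R) = ee m := fun m e f => by
    rw [mul_smul, mul_smul, hg m e f, a3 m e f, el_fix b1 e e]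
  have s2 := supp _ (.inl k) rfl f2 fun m e => by
    have : ix m.swap ≠ k := by rw [ix_swap]; rintro rfl; exact ht e
    rw [mul_smul, co_fix (el_fix b1 this this), mul_smul, a4 m e]
  have o2 := om_inv (g2 * (g1 * g)) (ee (.inl k)) (ee (.inr k))
  rw [← mul_smul, ← mul_smul, mul_assoc] at b2
  rw [b2, zero_smul, add_zero] at s2
  rw [s2, smul_om, om_ee, om_ee_ee, if_pos Sum.swap_inl] at o2
  generalize ((g2 * (g1 * g)) • (ee (.inl k) : Vc l R)) (.inl k) = a at s2 o2
  generalize ((g2 * (g1 * g)) • (ee (.inr k) : Vc l R)) (Sum.inl k).swap = b at o2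
  obtain ⟨g3, e3⟩ : ∃ g3 : Sp l R,
    g3 = tv (ee (.inr k)) (-1) * tv (ee (.inl k)) (1 - a) * tv (ee (.inr k)) b * g2 := ⟨_, rfl⟩
  have b3 : g3 ∈ El R k k := e3 ▸ mul_mem (mul_mem (mul_mem (tv_el (m := .inr k) (.inl rfl) _)
    (tv_el (m := .inl k) (.inl rfl) _)) (tv_el (m := .inr k) (.inl rfl) _)) b1
  have s3 : (g3 * (g1 * g)) • (ee (.inl k) : Vc l R) = ee (.inl k) := by
    rw [e3, mul_assoc, mul_smul, s2]
    simp only [mul_smul, tv_smul, om_add, om_smul, om_ee_ee, Sum.swap_inl, Sum.swap_inr, if_true,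
      reduceCtorEq, if_false]
    match_scalars
    · linear_combination (1 - a) * o2
    · linear_combination (a - 1) * o2 + o2
  have inv : ∀ h : Sp l R, h • (ee (.inl k) : Vc l R) = ee (.inl k) → ∀ u : Vc l R,
      (h • u) (.inr k) = u (.inr k) := fun h hh u => co_fix (m := .inr k) hh u
  obtain ⟨g4, c1, c2, c3, c4⟩ := kill hd h1 hc (k := k)
    (P := MulAction.stabilizer _ (ee (.inl k) : Vc l R)) (U := {u | u (.inr k) = 1})
    (fun h hh u hu => (inv h hh u).trans hu) (fun j e u hu => by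
      have hu' : u (.inr k) = 1 := hu
      refine ⟨sv (ee (.inl k)) (ee (.inl j)) (-u (.inl j)) *
        sv (ee (.inl k)) (ee (.inr j)) (-u (.inr j)),
        mul_mem (sv_el (m := .inl k) (k := .inl j) rfl rfl e _)
          (sv_el (m := .inl k) (k := .inr j) rfl rfl e _), mul_mem ?_ ?_, ?_⟩
      · rw [MulAction.mem_stabilizer_iff]
        ext m; simp [sv_ee (m := .inl k) (n := .inl j) e, ee_apply]
      · rw [MulAction.mem_stabilizer_iff]
        ext m; simp [sv_ee (m := .inl k) (n := .inr j) e, ee_apply, e.symm]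
      · rintro (m | m) f <;> obtain rfl : m = j := f <;>
          simp only [mul_smul, sv_ee (m := .inl k) (n := .inl m) e, sv_ee (m := .inl k) (n := .inr m) e, reduceCtorEq, ↓ reduceIte, add_zero, Sum.inl.injEq, e.symm, Sum.swap_inl, hu', Sum.inr.injEq, e, mul_one, add_neg_cancel]) t ht
    (u := (g3 * (g1 * g)) • ee (.inr k)) ((inv _ s3 _).trans (by simp [ee]))
  have f4 : ∀ m, ix m ≠ k → ix m ∉ t → (g4 * (g3 * (g1 * g))) • (ee m : Vc l R) = ee m :=
    fun m e f => by
      rw [mul_smul, mul_smul, mul_smul, hg m e f, a3 m e f, el_fix b3 e e, c3 m e f]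
  have s4 : (g4 * (g3 * (g1 * g))) • (ee (.inl k) : Vc l R) = ee (.inl k) := by
    rw [mul_smul, s3]; exact c1
  have s5 := supp _ (.inr k) rfl f4 fun m e => by rw [mul_smul, c4 m e]
  rw [inv _ s4] at s5
  generalize ((g4 * (g3 * (g1 * g))) • (ee (.inr k) : Vc l R)) (.inl k) = x at s5
  refine ⟨tv (ee (.inl k)) (-x) * (g4 * (g3 * (g1 * g))), fun m e => ?_, ?_⟩
  · rw [mul_smul]
    by_cases f : ix m = k
    · rcases m with m | m <;> obtain rfl : m = k := f
      · rw [s4, tv_smul, om_self]; simp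
      · rw [s5, tv_smul, om_ee]; simp [ee_apply]
    · rw [f4 m f e, el_fix (tv_el (i := k) (j := k) (m := .inl k) (.inl rfl) _) f f]
  · linarith only [red g1 g, red g3 (g1 * g), red g4 (g3 * (g1 * g)), red (tv (ee (.inl k)) (-x)) (g4 * (g3 * (g1 * g))), one _ b3, one _ (tv_el (m := .inl k) (.inl rfl) (-x)), a2, c2]

include hd hi h1 hc in
theorem fac [Nontrivial l] (hE : Euc R) (h0 : 0 ≤ c) (g : Sp l R) :
    d g ≤ Fintype.card l * (2 * Fintype.card l + 2) * c := by
  have : ∀ s : Finset l, ∀ g : Sp l R, (∀ m, ix m ∉ s → g • (ee m : Vc l R) = ee m) →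
      d g ≤ s.card * (2 * Fintype.card l + 2) * c := by
    intro s
    induction s using Finset.induction_on with
    | empty =>
      intro g hg
      have : g = 1 := Subtype.ext (Matrix.ext fun a b => by
        simpa [sp_smul, ee, Matrix.one_apply, Pi.single_apply] using congrFun (hg b (by simp)) a)
      simp [this, h1]
    | insert k t hk ih =>
      intro g hg
      obtain ⟨g', a, b⟩ := fac_step hd hi h1 hc hE hk g fun m e f => hg m (by simp [e, f])
      have := ih g' a
      have e : (t.card : ℝ) ≤ Fintype.card l := by exact_mod_cast Finset.card_le_univ t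
      rw [Finset.card_insert_of_notMem hk]
      push_cast
      nlinarith only [h0, b, this, e]
  exact this Finset.univ g (by simp)

end Fac

theorem eq_top_of_el [Nontrivial l] (hE : Euc R) {P : Subgroup (Sp l R)}
    (h : ∀ i j, i ≠ j → El R i j ≤ P) (g : Sp l R) : g ∈ P := by
  classical
  have := fac (d := fun g => if g ∈ P then 0 else 1) (c := 0) (fun a b => by
    by_cases e : a ∈ P <;> by_cases f : b ∈ P <;> simp only [e, f, mul_mem, ↓ reduceIte, add_zero, Std.le_refl, zero_add] <;> split_ifs <;> norm_num)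
    (fun a => by simp) (by simp only [one_mem, ↓ reduceIte]) (fun i j e a ha => by simp [h i j e ha]) hE le_rfl g
  by_contra e
  simp only [e, ↓ reduceIte, mul_zero] at this
  linarith

end Pool.Agent.MP_434e52_an.Weil

/-!
Property (T) for the affine symplectic group over `F[t]`.
-/

namespace Pool.Agent.MP_434e52_an.Weil

open Matrix Polynomial SemidirectProduct

section

variable {l R : Type} [Fintype l] [DecidableEq l] [CommRing R]

/-- the translations -/
def tr (u : Vc l R) : AffSp l R := inl (Multiplicative.ofAdd u)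

theorem tr_add (u w : Vc l R) : tr (u + w) = tr u * tr w := by
  rw [tr, tr, tr, ← map_mul, ofAdd_add]

theorem tr_zero : tr (0 : Vc l R) = 1 := by rw [tr, ofAdd_zero, map_one]

theorem inr_tr (g : Sp l R) (u : Vc l R) : inr g * tr u = tr (g • u) * inr g := by
  rw [← mul_inv_eq_iff_eq_mul, tr, ← map_inv, ← inl_aut]
  rfl

theorem bt_of [CharP R 2] {F G : Type} [Field F] [Group G] (σ : Sp l R →* G) (f : F →+* R)
    {p q w : Vc l R} (τ : R) (h1 : om p q = 0) (h2 : om p w = 0) (h3 : om q w = 1) :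
    Bt (fun a => σ (sv p q (f a))) fun b => σ (tv w (f b * τ)) := by
  have h4 : om w p = 0 := by rw [om_comm, h2]
  have h5 : om q p = 0 := by rw [om_comm, h1]
  have h6 : om w q = 1 := by rw [om_comm, h3]
  refine ⟨fun c => σ (sv w p (f c.1 * τ) * tv p (f c.2 * τ)), fun a b => ?_, fun a c => ?_,
    fun a c => ?_, fun a b => ?_⟩
  · rw [← map_mul]
    refine congrArg σ (sp_ext fun u => ?_)
    simp only [mul_smul, sv_smul h4, tv_smul, om_add, om_smul, om_self, h2, h4, Prod.fst_add,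
      Prod.snd_add, map_add]
    module
  · refine Commute.map (sp_ext fun u => ?_) σ
    simp only [mul_smul, sv_smul h4, sv_smul h1, tv_smul, om_add, om_smul, om_self, h1, h2, h3, h4,
      h5, h6]
    module
  · refine Commute.map (sp_ext fun u => ?_) σ
    simp only [mul_smul, sv_smul h4, tv_smul, om_add, om_smul, om_self, h2, h4]
    module
  · have : sv p q (f a) • w = w + f a • p := by rw [sv_smul h1, h2, h3]; simp
    simp only [← map_mul]
    rw [tv_conj, this, tv_expand h4]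
    simp only [map_mul, map_pow, mul_assoc]

end

variable {l F : Type} [Fintype l] [DecidableEq l] [Field F]

/-- the constant vectors -/
noncomputable def cv (a : Vc l F) : Vc l F[X] := fun m => C (a m)

omit [Fintype l] [DecidableEq l] in
theorem cv_add (a b : Vc l F) : cv (a + b) = cv a + cv b := funext fun _ => C_add

omit [Fintype l] [DecidableEq l] in
theorem cv_smul (s : F) (a : Vc l F) : cv (s • a) = C s • cv a := funext fun _ => C_mul

omit [Fintype l] in
theorem cv_ee (m : l ⊕ l) : cv (ee m : Vc l F) = ee m := funext fun k => by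
  simp only [cv, ee_apply]
  split_ifs <;> simp

theorem om_cv (a b : Vc l F) : om (cv a) (cv b) = C (om a b) := by simp [om_eq, cv]

/-- the constant matrices -/
noncomputable def cm : Sp l F →* Sp l F[X] where
  toFun g := ⟨g.1.map C, SymplecticGroup.map_mem g.2 C⟩
  map_one' := Subtype.ext (Matrix.map_one _ C_0 C_1)
  map_mul' _ _ := Subtype.ext Matrix.map_mul

theorem cm_smul (g : Sp l F) (a : Vc l F) : cm g • cv a = cv (g • a) :=
  funext fun m => (RingHom.map_mulVec C g.1 a m).symm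

theorem cm_tv (a : Vc l F) (c : F) : cm (tv a c) = tv (cv a) (C c) := by
  refine Subtype.ext (Matrix.ext fun m k => ?_)
  have h : ∀ {R : Type} [CommRing R] (g : Sp l R), g.1 m k = (g • (ee k : Vc l R)) m := by
    intro R _ g
    simp [sp_smul, ee]
  rw [h, h, ← cv_ee, cm_smul, tv_smul, tv_smul, om_cv, cv_add, cv_smul, C_mul]

theorem cm_sv (a b : Vc l F) (c : F) : cm (sv a b c) = sv (cv a) (cv b) (C c) := by
  simp only [sv, map_mul, cm_tv, cv_add, C_neg]

theorem sep [Fintype F] (hF : 8 ≤ Fintype.card F) {P : Subgroup (Sp l F[X])} {w w' : Vc l F[X]}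
    (h0 : om w w' = 0) {τ : F[X]} (h : ∀ a c : F, tv (w + C a • w') (C c * τ) ∈ P) (c : F) :
    tv w' (C c * τ) ∈ P ∧ sv w w' (C c * τ) ∈ P := by
  classical
  have k : ∀ a c : F, sv w w' (C a * (C c * τ)) * tv w' (C a ^ 2 * (C c * τ)) ∈ P := fun a c => by
    have := mul_mem (inv_mem (h 0 c)) (h a c)
    rwa [C_0, zero_smul, add_zero, tv_expand h0, mul_assoc, inv_mul_cancel_left] at this
  obtain ⟨μ, h1⟩ : ∃ μ : F, μ ∉ ({0, 1} : Finset F) := by
    by_contra! e
    have := Finset.card_le_card (s := Finset.univ) fun x _ => e x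
    have := Finset.card_le_two (a := (0 : F)) (b := 1)
    simp only [Finset.card_univ] at *
    omega
  rw [Finset.mem_insert, Finset.mem_singleton, not_or] at h1
  have k1 : ∀ c : F, tv w' (C c * τ) ∈ P := fun c => by
    have e : μ - 1 ≠ 0 := sub_ne_zero.2 h1.2
    have := mul_mem (inv_mem (k 1 (c / (μ - 1)))) (k μ (c / (μ - 1) / μ))
    simp only [← mul_assoc, ← C_pow, ← C_mul] at this
    rw [mul_div_cancel₀ _ h1.1, one_mul, _root_.mul_inv_rev, inv_mul_cancel_right, ← tv_neg,
      ← tv_add, ← neg_mul, ← add_mul, ← C_neg, ← C_add] at this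
    convert this using 4
    have := h1.1
    field_simp
    ring
  refine ⟨k1 c, ?_⟩
  have := mul_mem (k 1 c) (inv_mem (k1 c))
  rwa [C_1, one_pow, one_mul, mul_inv_cancel_right] at this

/-- supported at two indices -/
def Sq (i j : l) (a : Vc l F) : Prop := ∀ m, ix m ≠ i → ix m ≠ j → a m = 0

omit [Fintype l] [DecidableEq l] in
theorem Sq.add {i j : l} {a b : Vc l F} (h : Sq i j a) (k : Sq i j b) (s : F) :
    Sq i j (a + s • b) := fun m x y => by simp [h m x y, k m x y]

omit [Fintype l] in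
theorem sq_ee {i j : l} {m : l ⊕ l} (h : ix m = i ∨ ix m = j) : Sq i j (ee m : Vc l F) :=
  fun k => (sup_ee h k).2

variable [CharP F 2]

theorem orbit [Fintype F] (hF : 8 ≤ Fintype.card F) {P : Subgroup (Sp l F[X])} {i j : l}
    (hij : i ≠ j) (hx : ∀ a, sv (ee (.inl i)) (ee (.inr j)) (C a) ∈ P)
    (hy : ∀ a, tv (ee (.inl j)) (C a) ∈ P) {a : Vc l F} (ha : Sq i j a) (h1 : a (.inr i) = 1) :
    ∃ g ∈ P, g • (ee (.inr i) : Vc l F[X]) = cv a := by
  have k := sep hF (P := P) (w := ee (.inl j)) (w' := ee (.inl i)) (om_ne hij.symm) (τ := 1)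
    fun a c => by
      have := tv_mem (hx a) (hy c)
      rw [sv_smul (om_ne (m := .inl i) (n := .inr j) hij), om_ee_ee, om_ee_ee] at this
      simpa using this
  simp only [mul_one] at k
  refine ⟨tv (ee (.inl i)) (C (a (.inl i) - a (.inl j) * a (.inr j))) *
    sv (ee (.inl j)) (ee (.inl i)) (C (a (.inl j))) * sv (ee (.inl i)) (ee (.inr j)) (C (a (.inr j))),
    mul_mem (mul_mem (k _).1 (k _).2) (hx _), funext fun m => ?_⟩
  simp only [mul_smul, tv_ee, sv_ee (m := .inl j) (n := .inl i) hij.symm,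
    sv_ee (m := .inl i) (n := .inr j) hij, ee_apply, cv]
  by_cases e1 : ix m = i
  · rcases m with m | m <;> obtain rfl : m = i := e1 <;> simp [hij, hij.symm, h1]
  · by_cases e2 : ix m = j
    · rcases m with m | m <;> obtain rfl : m = j := e2 <;> simp [hij, hij.symm]
    · rw [ha m e1 e2]
      rcases m with m | m <;> simp only [ix_inl, ix_inr] at e1 e2 <;> simp [e1, e2]

theorem stab_all [Fintype F] (hF : 8 ≤ Fintype.card F) {P : Subgroup (Sp l F[X])} {i j : l}
    (hij : i ≠ j) (hx : ∀ a, sv (ee (.inl i)) (ee (.inr j)) (C a) ∈ P)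
    (hy : ∀ a, tv (ee (.inl j)) (C a) ∈ P) (hz : ∀ a, tv (ee (.inr i)) (C a * X) ∈ P)
    {a : Vc l F} (ha : Sq i j a) (c : F) : tv (cv a) (C c * X) ∈ P := by
  have w1 : ∀ a, Sq i j a → a (.inr i) = 1 → ∀ c, tv (cv a) (C c * X) ∈ P := fun a ha h c => by
    obtain ⟨g, hg, e⟩ := orbit hF hij hx hy ha h
    exact e ▸ tv_mem hg (hz c)
  have w0 : ∀ a b : Vc l F, om b a = 0 → (∀ (s : F) c, tv (cv (b + s • a)) (C c * X) ∈ P) →
      ∀ c, tv (cv a) (C c * X) ∈ P := fun a b h k c =>
    (sep hF (w := cv b) (by rw [om_cv, h, C_0]) (by simpa only [cv_add, cv_smul] using k) c).1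
  have w2 : ∀ a, Sq i j a → a (.inr i) = 0 → ∀ n, ix n = j → a n ≠ 0 →
      ∀ c, tv (cv a) (C c * X) ∈ P := fun a ha h n hn h' =>
    w0 a (ee (.inr i) + (-a (.inl i) / a n) • ee n.swap)
      (by rw [add_om, smul_om, om_ee, om_ee, Sum.swap_swap, div_mul_cancel₀ _ h']; simp) fun s =>
      w1 _ (((sq_ee (m := .inr i) (.inl rfl)).add (sq_ee (.inr (by simpa))) _).add ha _) (by
        have : Sum.inr i ≠ n.swap := fun e => hij (by simpa [hn] using congrArg ix e)
        simp [ee_apply, h, this])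
  by_cases h : a (.inr i) = 0
  · by_cases h' : ∃ n, ix n = j ∧ a n ≠ 0
    · obtain ⟨n, h1, h2⟩ := h'
      exact w2 a ha h n h1 h2 c
    · push Not at h'
      exact w0 a (ee (.inl j)) (by rw [om_ee]; exact h' _ rfl) (fun s =>
        w2 _ ((sq_ee (m := .inl j) (.inr rfl)).add ha s) (by simp [ee_apply, h]) (.inl j) rfl
          (by simp [ee_apply, h' (.inl j) rfl])) c
  · have := w1 ((a (.inr i))⁻¹ • a) (fun m x y => by simp [ha m x y]) (by simp [h])
      (a (.inr i) ^ 2 * c)
    rw [cv_smul, tv_sc, ← mul_assoc, ← C_pow, ← C_mul] at this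
    convert this using 4
    field_simp

theorem el_le {P : Subgroup (Sp l F[X])} {i j : l} (hij : i ≠ j)
    (h0 : ∀ a, Sq i j a → ∀ c, tv (cv a) (C c) ∈ P)
    (h1 : ∀ a, Sq i j a → ∀ c, tv (cv a) (C c * X) ∈ P) : El F[X] i j ≤ P := by
  have step : ∀ r s : F[X], (∀ a, Sq i j a → tv (cv a) r ∈ P) → (∀ a, Sq i j a → tv (cv a) s ∈ P) →
      (∀ a, Sq i j a → tv (cv a) (s * r) ∈ P) → ∀ a, Sq i j a → tv (cv a) (s ^ 2 * r) ∈ P := by
    intro r s hr hs hrs a ha
    obtain ⟨b, u, hb, hu, e1, e2, e3⟩ : ∃ b u : Vc l F, Sq i j b ∧ Sq i j u ∧ om b a = 0 ∧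
        om u a = 0 ∧ om u b = 1 := by
      by_cases h : ∃ n, ix n = i ∧ a n ≠ 0
      · obtain ⟨n, hn, h⟩ := h
        have q : Sq i j (ee n.swap : Vc l F) := sq_ee (.inl (by simpa))
        have k : ∀ m, ix m = j → om (ee m + (-a m.swap / a n) • ee n.swap) a = 0 := fun m _ => by
          rw [add_om, smul_om, om_ee, om_ee, Sum.swap_swap, div_mul_cancel₀ _ h, add_neg_cancel]
        refine ⟨_, _, (sq_ee (m := .inl j) (.inr rfl)).add q _,
          (sq_ee (m := .inr j) (.inr rfl)).add q _, k (.inl j) rfl, k (.inr j) rfl, ?_⟩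
        have k1 : ∀ m, ix m = j → om (ee m : Vc l F) (ee n.swap) = 0 := fun m e =>
          om_ne (by rw [e, ix_swap, hn]; exact hij.symm)
        rw [add_om, om_add, om_add, smul_om, smul_om, om_smul, om_smul, om_self, k1 _ rfl,
          om_comm (ee n.swap), k1 _ rfl, om_ee_ee]
        simp
      · push Not at h
        exact ⟨ee (.inl i), ee (.inr i), sq_ee (m := .inl i) (.inl rfl), sq_ee (m := .inr i) (.inl rfl),
          by rw [om_ee]; exact h _ rfl, by rw [om_ee]; exact h _ rfl, by simp [om_ee_ee]⟩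
    have sv1 : ∀ {r : F[X]} {b : Vc l F}, (∀ a, Sq i j a → tv (cv a) r ∈ P) → Sq i j b →
        sv (cv b) (cv a) r ∈ P := fun h hb =>
      sv_mem (by simpa only [one_smul, cv_add] using h _ (hb.add ha 1)) (h _ hb) (h _ ha)
    have := tv_mem (sv1 hs hu) (hr b hb)
    rw [sv_smul (by rw [om_cv, e2, C_0]), om_cv, om_cv, e3, om_comm a, e1, C_0, C_1, mul_zero,
      zero_smul, add_zero, mul_one, tv_expand (by rw [om_cv, e1, C_0])] at this
    exact (mul_mem_cancel_left (mul_mem (hr b hb) (sv1 hrs hb))).1 this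
  have all : ∀ k : ℕ, ∀ c, ∀ a, Sq i j a → tv (cv a) (C c * X ^ k) ∈ P := by
    intro k
    induction k using Nat.twoStepInduction with
    | zero => intro c a ha; simpa using h0 a ha c
    | one => intro c a ha; simpa using h1 a ha c
    | more k a1 a2 =>
      intro c a ha
      convert step _ X (a1 c) (fun a ha => by simpa using h1 a ha 1)
        (fun a ha => by convert a2 c a ha using 2; ring) a ha using 2
      ring
  refine (Subgroup.closure_le P).2 ?_
  rintro _ ⟨w, r, hw, rfl⟩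
  have e : w = cv fun m => (w m).coeff 0 := funext fun m => by
    rcases (hw m).1 with h | h <;> simp [cv, h]
  have q : Sq i j fun m => (w m).coeff 0 := fun m x y => by simp [(hw m).2 x y]
  rw [e]
  induction r using Polynomial.induction_on' with
  | add p q hp hq => rw [tv_add]; exact mul_mem hp hq
  | monomial k c => rw [← C_mul_X_pow_eq_monomial]; exact all k c _ q

omit [CharP F 2] in
theorem euc_poly : Euc F[X] := fun P h0 h1 a b =>
  EuclideanDomain.GCD.induction a b h0 fun a b _ h => h1 a b (-(b / a)) (by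
    convert h using 1
    rw [EuclideanDomain.mod_eq_sub_mul_div]
    ring)

section

variable {G E : Type} [Group G] [NormedAddCommGroup E] [InnerProductSpace ℂ E]

/-- the stabiliser of a vector -/
def fx (π : G →* (E →L[ℂ] E)) (ξ : E) : Subgroup G where
  carrier := {g | π g ξ = ξ}
  one_mem' := by simp only [Set.mem_ofPred_eq, map_one, one_apply_eq_self]
  mul_mem' {a b} ha hb := by
    change π (a * b) ξ = ξ
    rw [map_mul, mul_apply_eq_comp, hb, ha]
  inv_mem' {a} ha := by
    change π a⁻¹ ξ = ξ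
    conv_lhs => rw [← ha, ← mul_apply_eq_comp, ← map_mul, inv_mul_cancel, map_one]
    rfl

/-- the elements permuting the orbit of a subgroup -/
def pn {K : Type} [Group K] (π : G →* (E →L[ℂ] E)) (σ : K →* G) (S : Subgroup K) (ξ : E) :
    Subgroup G where
  carrier := {g | ∃ s ∈ S, ∀ s' ∈ S, π g (π (σ s') ξ) = π (σ (s * s')) ξ}
  one_mem' := ⟨1, one_mem _, by simp only [map_one, one_apply_eq_self, one_mul, implies_true]⟩
  mul_mem' := by
    rintro a b ⟨s, hs, h⟩ ⟨t, ht, k⟩
    refine ⟨s * t, mul_mem hs ht, fun u hu => ?_⟩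
    rw [map_mul, mul_apply_eq_comp, k u hu, h _ (mul_mem ht hu), mul_assoc]
  inv_mem' := by
    rintro a ⟨s, hs, h⟩
    refine ⟨s⁻¹, inv_mem hs, fun u hu => ?_⟩
    have := h _ (mul_mem (inv_mem hs) hu)
    rw [mul_inv_cancel_left] at this
    rw [← this, ← mul_apply_eq_comp, ← map_mul, inv_mul_cancel, map_one]
    rfl

end

variable {E : Type} [NormedAddCommGroup E] [InnerProductSpace ℂ E] [CompleteSpace E]

theorem pair_near [Fintype F] (hF : 8 ≤ Fintype.card F) {π : AffSp l F[X] →* (E →L[ℂ] E)}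
    (hu : ∀ g, π g ∈ unitary (E →L[ℂ] E)) {v : E} {d : ℝ}
    (d1 : ∀ s : Sp l F, ‖π (inr (cm s)) v - v‖ ≤ d)
    (d2 : ∀ m (c : F), ‖π (inr (tv (ee m) (C c * X))) v - v‖ ≤ d)
    (d3 : ∀ m (c : F), ‖π (tr (C c • ee m)) v - v‖ ≤ d) {i j : l} (hij : i ≠ j) :
    (∀ g ∈ El F[X] i j, ‖π (inr g) v - v‖ ≤ 25 * d) ∧
      ∀ m (r : F[X]), ix m = i → ‖π (tr (r • ee m)) v - v‖ ≤ 25 * d := by
  have o1 : om (ee (.inl i) : Vc l F[X]) (ee (.inr j)) = 0 := om_ne hij
  have fixc : ∀ (g : Sp l F[X]) (u : Vc l F[X]), g • u = u →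
      Commute (inr g : AffSp l F[X]) (tr u) := fun g u h => by rw [Commute, SemiconjBy, inr_tr, h]
  obtain ⟨η, f1, f2, f3, f4, e⟩ := near_four hu
    (x := fun a : F => inr (sv (ee (.inl i)) (ee (.inr j)) (C a)))
    (y := fun a => inr (tv (ee (.inl j)) (C a * 1))) (z := fun a => inr (tv (ee (.inr i)) (C a * X)))
    (t := fun a => tr (C a • ee (.inr i)))
    (fun a b => by rw [C_add, sv_add o1, map_mul]) (fun a b => by rw [C_add, add_mul, tv_add, map_mul])
    (fun a b => by rw [C_add, add_mul, tv_add, map_mul]) (fun a b => by rw [C_add, add_smul, tr_add])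
    hF (bt_of inr C 1 o1 (om_ne hij) (by simp [om_ee_ee]))
    (by
      simp only [sv_symm o1]
      exact bt_of inr C X (om_ne hij.symm) (om_ne hij.symm) (by simp [om_ee_ee]))
    ⟨fun c => tr (C c • ee (.inr j)), fun a b => a * b,
      fun a b => by simp only [C_add, add_smul, tr_add],
      fun a c => (fixc _ _ (by simp [sv_smul o1, om_smul, om_ee_ee, hij])).symm,
      fun a c => by rw [Commute, SemiconjBy, ← tr_add, ← tr_add, add_comm],
      fun a b => by
        rw [inr_tr, mul_assoc, (fixc _ _ (by simp only [map_mul, sv_smul o1, om_smul, om_ee_ee, Sum.swap_inl, Sum.inr.injEq, hij, ↓ reduceIte, mul_zero, zero_smul, add_zero, Sum.swap_inr, reduceCtorEq])).eq,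
          ← mul_assoc, ← tr_add]
        simp [sv_smul o1, om_smul, om_ee_ee],
      fun b hb => (mulRight_bijective₀ b hb)⟩
    (fun a b => Commute.map (by
      rw [Commute, SemiconjBy, tv_conj, tv_smul, om_ne (m := .inl j) (n := .inr i) hij.symm]
      simp) inr)
    (fun a b => fixc _ _ (by simp [tv_smul, om_smul, om_ee_ee, hij.symm]))
    (fun a b => fixc _ _ (by simp [tv_smul, om_smul, om_self]))
    (v := v) (d := d) (fun a => by simpa only [cm_sv, cv_ee] using d1 (sv (ee _) (ee _) a))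
    (fun a => by simpa only [cm_tv, cv_ee, mul_one] using d1 (tv (ee _) a)) (d2 _) (d3 _)
  simp only [mul_one] at f2
  have t1 : ∀ a : Vc l F, Sq i j a → ∀ c, inr (tv (cv a) (C c * X)) ∈ fx π η := fun a ha c =>
    stab_all hF (P := (fx π η).comap inr) hij f1 f2 f3 ha c
  have cj : ∀ (P : Subgroup (AffSp l F[X])) g u, inr g ∈ P → tr u ∈ P → tr (g • u) ∈ P :=
    fun P g u h k => by
      rw [← mul_inv_eq_iff_eq_mul.2 (inr_tr g u)]
      exact mul_mem (mul_mem h k) (inv_mem h)
  have t2 : ∀ a : Vc l F, Sq i j a → tr (cv a) ∈ fx π η := fun a ha => by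
    obtain ⟨g, hg, e⟩ := orbit hF (P := (fx π η).comap inr) hij f1 f2
      (ha.add (sq_ee (m := .inr i) (.inl rfl)) (1 - a (.inr i))) (by simp [ee_apply])
    have := cj (fx π η) g (ee (.inr i)) hg (show π (tr _) η = η by simpa using f4 1)
    rw [e, cv_add, tr_add, cv_smul, cv_ee] at this
    exact (mul_mem_cancel_right (f4 _)).1 this
  let S : Subgroup (Sp l F) := Subgroup.closure {g | ∃ a c, Sq i j a ∧ g = tv a c}
  have hS : ∀ s ∈ S, ∀ a : Vc l F, Sq i j a → Sq i j (s • a) := fun s hs => by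
    induction hs using Subgroup.closure_induction'' with
    | one => exact fun a ha => by rwa [one_smul]
    | mem _ h => obtain ⟨b, c, h, rfl⟩ := h; exact fun a ha => tv_smul b c a ▸ ha.add h _
    | inv_mem _ h =>
      obtain ⟨b, c, h, rfl⟩ := h
      exact fun a ha => by rw [← tv_neg, tv_smul]; exact ha.add h _
    | mul _ _ _ _ h k => exact fun a ha => by rw [mul_smul]; exact h _ (k a ha)
  let P := pn π (inr.comp cm) S η
  have p1 : ∀ g, (∀ s ∈ S, ∃ h ∈ fx π η, g * inr (cm s) = inr (cm s) * h) → g ∈ P := fun g h =>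
    ⟨1, one_mem _, fun s hs => by
      obtain ⟨h, a, b⟩ := h s hs
      rw [one_mul, ← mul_apply_eq_comp, ← map_mul, MonoidHom.comp_apply, b, map_mul,
        mul_apply_eq_comp, a]⟩
  have p2 : El F[X] i j ≤ P.comap inr := el_le hij
    (fun a ha c => ⟨tv a c, Subgroup.subset_closure ⟨a, c, ha, rfl⟩, fun s _ => by
      rw [← cm_tv, map_mul, map_mul]; rfl⟩)
    fun a ha c => p1 _ fun s hs => ⟨_, t1 _ (hS _ (inv_mem hs) a ha) c, by
      rw [← map_mul, ← map_mul, tv_conj, cm_smul, smul_inv_smul]⟩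
  have p3 : ∀ a, Sq i j a → tr (cv a) ∈ P := fun a ha => p1 _ fun s hs =>
    ⟨_, t2 _ (hS _ (inv_mem hs) a ha), by rw [inr_tr, cm_smul, smul_inv_smul]⟩
  have p4 : ∀ g ∈ P, ‖π g v - v‖ ≤ 25 * d := by
    rintro g ⟨s, -, h⟩
    have h := h 1 (one_mem _)
    rw [map_one, map_one, mul_one, one_apply_eq_self] at h
    have : π g v - v = π g (v - η) + (π (inr (cm s)) v - v) - π (inr (cm s)) (v - η) := by
      rw [map_sub, map_sub, h, MonoidHom.comp_apply]; abel
    rw [this]
    have n1 := norm_sub_le (π g (v - η) + (π (inr (cm s)) v - v)) (π (inr (cm s)) (v - η))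
    have n2 := norm_add_le (π g (v - η)) (π (inr (cm s)) v - v)
    rw [un_norm hu] at n1 n2
    linarith only [d1 s, norm_nonneg (v - η), e, n1, n2]
  refine ⟨fun g hg => p4 _ (p2 hg), fun m r hm => p4 _ ?_⟩
  have a := p3 _ (sq_ee (m := m.swap) (.inl (by simpa)))
  rw [cv_ee] at a
  have := cj P _ _ (p2 (tv_el (.inl hm) r)) a
  rw [tv_smul, om_ee_ee, if_pos rfl, mul_one, tr_add] at this
  exact (mul_mem_cancel_left a).1 this

theorem propT_aff [Nontrivial l] [Fintype F] (hF : 8 ≤ Fintype.card F) : PropT (AffSp l F[X]) := by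
  classical
  let _ : Fintype (Sp l F) := Fintype.ofFinite _
  let f : Sp l F ⊕ (l ⊕ l) × F ⊕ (l ⊕ l) × F → AffSp l F[X] := Sum.elim (fun s => inr (cm s))
    (Sum.elim (fun x => inr (tv (ee x.1) (C x.2 * X))) fun x => tr (C x.2 • ee x.1))
  obtain ⟨n, hn⟩ : ∃ n : ℝ, n = Fintype.card l := ⟨_, rfl⟩
  have n0 : 0 ≤ n := by rw [hn]; positivity
  obtain ⟨d, d0, hd⟩ : ∃ d : ℝ, 0 < d ∧ (2 * n + n * (2 * n + 2)) * (25 * d) < 1 :=
    ⟨1 / (25 * (2 * n + n * (2 * n + 2)) + 1), by positivity, by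
      rw [← mul_assoc, mul_one_div, div_lt_one (by positivity)]; linarith only []⟩
  refine ⟨Finset.univ.image f, d, d0, ?_⟩
  rintro E _ _ _ π hu ⟨v, hv, h⟩
  have h' : ∀ x, ‖π (f x) v - v‖ ≤ d := fun x =>
    (h _ (Finset.mem_image_of_mem f (Finset.mem_univ x))).le
  have k := fun i j => pair_near (i := i) (j := j) hF hu (fun s => h' (.inl s))
    (fun m c => h' (.inr (.inl (m, c)))) fun m c => h' (.inr (.inr (m, c)))
  have sub : ∀ a b, ‖π (a * b) v - v‖ ≤ ‖π a v - v‖ + ‖π b v - v‖ := fun a b => by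
    have : π (a * b) v - v = (π a v - v) + π a (π b v - v) := by
      rw [map_mul, mul_apply_eq_comp, map_sub]; abel
    rw [this, ← un_norm hu a (π b v - v)]
    exact norm_add_le _ _
  have k1 := fac (d := fun g => ‖π (inr g) v - v‖) (c := 25 * d)
    (fun a b => by rw [map_mul]; exact sub _ _) (fun a => by
      rw [← un_norm hu (inr a), map_sub, ← mul_apply_eq_comp, ← map_mul, ← map_mul, mul_inv_cancel,
        map_one, map_one, norm_sub_rev]
      rfl) (by simp only [map_one, one_apply_eq_self, sub_self, norm_zero]) (fun i j e => (k i j e).1) euc_poly (by positivity)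
  have k2 : ∀ (u : Vc l F[X]) (s : Finset (l ⊕ l)),
      ‖π (tr (∑ m ∈ s, u m • ee m)) v - v‖ ≤ s.card * (25 * d) := fun u s => by
    induction s using Finset.induction_on with
    | empty => simp only [Finset.sum_empty, tr_zero, map_one, one_apply_eq_self, sub_self, norm_zero, Finset.card_empty, CharP.cast_eq_zero, zero_mul, Std.le_refl]
    | insert m s hm ih =>
      obtain ⟨j, hj⟩ := exists_ne (ix m)
      rw [Finset.sum_insert hm, tr_add, Finset.card_insert_of_notMem hm]
      push_cast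
      linarith only [sub (tr (u m • ee m)) (tr (∑ m ∈ s, u m • ee m)), (k _ j hj.symm).2 m (u m) rfl, ih]
  obtain ⟨w, hw, e⟩ := fixed_near hu (η := v) (c := (2 * n + n * (2 * n + 2)) * (25 * d)) fun g => by
    have a := k2 g.left.toAdd Finset.univ
    have : ∑ m, g.left.toAdd m • (ee m : Vc l F[X]) = g.left.toAdd := by
      ext1 m; simp [ee_apply]
    rw [this, Finset.card_univ, Fintype.card_sum] at a
    have b := k1 g.right
    have c := sub (tr g.left.toAdd) (inr g.right)
    rw [tr, ofAdd_toAdd, inl_left_mul_inr_right] at c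
    push_cast at a
    rw [← hn] at a b
    rw [tr, ofAdd_toAdd] at a
    linarith only [b, c, a]
  refine ⟨w, ?_, hw⟩
  rintro rfl
  rw [zero_sub, norm_neg, hv] at e
  linarith

end Pool.Agent.MP_434e52_an.Weil

/-!
Extensions of the symplectic group by the column vectors: infinite classes, the abelian radical,
virtual splitting.
-/

namespace Pool.Agent.MP_434e52_an.Weil

open Matrix

/-- An extension of the symplectic group by the column vectors, with the standard action. -/
structure Ex (l R Γ : Type) [Fintype l] [DecidableEq l] [CommRing R] [Group Γ] where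
  /-- the inclusion of the vectors -/
  ι : Vc l R → Γ
  /-- the projection -/
  p : Γ →* Sp l R
  add : ∀ u w, ι (u + w) = ι u * ι w
  inj : Function.Injective ι
  surj : Function.Surjective p
  ker : ∀ x, p x = 1 ↔ ∃ u, x = ι u
  conj : ∀ x u, x * ι u = ι (p x • u) * x

variable {l R Γ : Type} [Fintype l] [DecidableEq l] [CommRing R] [Group Γ]

theorem Ex.zero (E : Ex l R Γ) : E.ι 0 = 1 := by simpa using E.add 0 0

theorem Ex.inv (E : Ex l R Γ) (u : Vc l R) : (E.ι u)⁻¹ = E.ι (-u) := by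
  rw [inv_eq_iff_mul_eq_one, ← E.add, add_neg_cancel, E.zero]

variable [CharP R 2]

omit [Fintype l] [DecidableEq l] in
theorem vc_two (u : Vc l R) : u + u = 0 := funext fun _ => CharTwo.add_self_eq_zero _

theorem exists_om {u : Vc l R} (h : u ≠ 0) : ∃ m, om (ee m) u ≠ 0 := by
  obtain ⟨m, hm⟩ := Function.ne_iff.1 h
  exact ⟨m.swap, by rwa [om_ee, Sum.swap_swap]⟩

variable [IsDomain R] [Infinite R]

theorem Ex.icc (E : Ex l R Γ) : ICC Γ := by
  intro g hg
  by_cases h : E.p g = 1
  · obtain ⟨u, rfl⟩ := (E.ker g).1 h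
    obtain ⟨m, hm⟩ := exists_om (u := u) (by rintro rfl; exact hg E.zero)
    refine Set.infinite_of_injective_forall_mem (f := fun r : R => E.ι (tv (ee m) r • u))
      (fun r s e => ?_) fun r => ?_
    · simpa [tv_smul, ee_apply, hm] using congrFun (E.inj e) m
    · obtain ⟨x, hx⟩ := E.surj (tv (ee m) r)
      exact isConj_iff.2 ⟨x, by rw [E.conj, hx, mul_inv_cancel_right]⟩
  · obtain ⟨w, hw⟩ : ∃ w : Vc l R, w - E.p g • w ≠ 0 := by
      by_contra! e
      exact h (sp_ext fun u => by rw [one_smul, ← sub_eq_zero.1 (e u)])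
    refine Set.infinite_of_injective_forall_mem (f := fun r : R => E.ι (r • (w - E.p g • w)) * g)
      (fun r s e => smul_left_injective R hw (E.inj (mul_right_cancel e))) fun r => ?_
    refine isConj_iff.2 ⟨E.ι (r • w), ?_⟩
    rw [E.inv, mul_assoc, E.conj, ← mul_assoc, ← E.add, smul_neg, smul_comm, smul_sub,
      sub_eq_add_neg]

variable [IsNoetherianRing R] [Nonempty l]

theorem Ex.rad (E : Ex l R Γ) {Δ : Type} [Group Δ] (j : Δ →* Γ) [hj : j.range.FiniteIndex]
    (A : Subgroup Δ) [hA : A.Normal] (h1 : ∀ a ∈ A, ∀ b ∈ A, Commute a b) (h2 : ∀ a ∈ A, a * a = 1) :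
    ∀ a ∈ A, E.p (j a) = 1 := by
  let φ := E.p.comp j
  have : φ.range.FiniteIndex := ⟨by
    rw [MonoidHom.range_comp]
    exact ne_zero_of_dvd_ne_zero hj.1 (Subgroup.index_map_dvd _ E.surj)⟩
  let N : Vc l R → Submodule R (Matrix (l ⊕ l) (l ⊕ l) R) := fun v =>
    { carrier := {M | M *ᵥ v = 0 ∧ ∀ a ∈ A, Commute M (φ a).1}
      add_mem' := fun a b => ⟨by rw [add_mulVec, a.1, b.1, add_zero],
        fun x hx => (a.2 x hx).add_left (b.2 x hx)⟩
      zero_mem' := ⟨zero_mulVec _, fun _ _ => Commute.zero_left _⟩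
      smul_mem' := fun c M a => ⟨by rw [smul_mulVec, a.1, smul_zero],
        fun x hx => (a.2 x hx).smul_left c⟩ }
  obtain ⟨_, ⟨v, hv, rfl⟩, hm⟩ := set_has_maximal_iff_noetherian.2 inferInstance (N '' {v | v ≠ 0})
    ⟨_, fun _ => 1, fun h => one_ne_zero (congrFun h (.inl (Classical.arbitrary l))), rfl⟩
  have f : ∀ a ∈ A, φ a • v = v := fun a ha => by
    by_contra e
    have c : ∀ b ∈ A, Commute ((φ a).1 - 1) (φ b).1 := fun b hb =>
      (((h1 a ha b hb).map φ).map (symplecticGroup l R).subtype).sub_left (Commute.one_left _)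
    have q : ∀ u : Vc l R, ((φ a).1 - 1) *ᵥ u = φ a • u - u := fun u => by
      rw [sub_mulVec, one_mulVec, sp_smul]
    refine hm _ ⟨φ a • v - v, sub_ne_zero.2 e, rfl⟩ (lt_of_le_of_ne (fun M hM => ⟨?_, hM.2⟩)
      fun h => e ?_)
    · rw [mulVec_sub, sp_smul, mulVec_mulVec, (hM.2 a ha).eq, ← mulVec_mulVec, hM.1, mulVec_zero,
        sub_zero]
    · have : (φ a).1 - 1 ∈ N (φ a • v - v) := ⟨by
        rw [q, smul_sub, ← mul_smul, ← map_mul, h2 a ha, map_one, one_smul, ← neg_sub (φ a • v),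
          ← neg_add', vc_two, neg_zero], c⟩
      rw [← h] at this
      exact sub_eq_zero.1 ((q v).symm.trans this.1)
  have g : ∀ a ∈ A, ∀ w : Vc l R, om w v ≠ 0 → φ a • w = w := fun a ha w hw => by
    obtain ⟨r, ⟨γ, hγ⟩, hr⟩ := (cov_pre φ.range (tv w) (tv_add w)).infinite.exists_notMem_finset {0}
    have e := congrArg (φ γ • ·) (f _ (hA.conj_mem' a ha γ))
    simp only [map_mul, map_inv, mul_smul, smul_inv_smul] at e
    rw [hγ, tv_smul, smul_add, f a ha, add_right_inj, smul_comm] at e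
    exact smul_right_injective _ (mul_ne_zero (by simpa using hr) hw) e
  intro a ha
  refine sp_ext fun w => ?_
  obtain ⟨m, hm⟩ := exists_om hv
  by_cases e : om w v = 0
  · have := g a ha (w + ee m) (by rwa [add_om, e, zero_add])
    rw [smul_add, g a ha _ hm, add_left_inj] at this
    exact this.trans (one_smul _ _).symm
  · exact (g a ha w e).trans (one_smul _ _).symm

theorem Ex.ker_le {Γ' Δ : Type} [Group Γ'] [Group Δ] (E : Ex l R Γ) (E' : Ex l R Γ') (j : Δ →* Γ)
    (j' : Δ →* Γ') (hj : Function.Injective j) [j'.range.FiniteIndex] {a : Δ}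
    (ha : E.p (j a) = 1) : E'.p (j' a) = 1 := by
  refine E'.rad j' (E.p.comp j).ker (fun a ha b hb => hj ?_) (fun a ha => hj ?_) a ha
  · obtain ⟨u, hu⟩ := (E.ker _).1 ha
    obtain ⟨w, hw⟩ := (E.ker _).1 hb
    rw [map_mul, map_mul, hu, hw, ← E.add, ← E.add, add_comm]
  · obtain ⟨u, hu⟩ := (E.ker _).1 ha
    rw [map_mul, hu, ← E.add, vc_two, E.zero, map_one]

theorem not_virt {Γ' : Type} [Group Γ'] (E : Ex l R Γ) (E' : Ex l R Γ') (σ : Sp l R →* Γ)
    (hσ : ∀ g, E.p (σ g) = g) (n : ℕ → R) (w : Vc l R)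
    (h : ∀ a b, a ≠ b → ∀ x, E'.p x = tv w (n a + n b) → x * x ≠ 1) : ¬ VirtIso Γ Γ' := by
  intro hv
  obtain ⟨Δ, _, j, j', i1, i2, f1, f2⟩ := emb_of_virtIso E.icc E'.icc hv
  choose y hy using fun k => E'.surj (tv w (n k))
  obtain ⟨c, hc⟩ := Finite.exists_infinite_fiber fun k => (y k : Γ' ⧸ j'.range)
  obtain ⟨k0⟩ : Nonempty ((fun k => (y k : Γ' ⧸ j'.range)) ⁻¹' {c}) := inferInstance
  choose g hg using fun k : (fun k => (y k : Γ' ⧸ j'.range)) ⁻¹' {c} =>
    QuotientGroup.eq.1 (k0.2.trans k.2.symm)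
  choose u hu using fun k => (E.ker (j (g k) * (σ (E.p (j (g k))))⁻¹)).1 (by simp only [map_mul, map_inv, hσ, mul_inv_cancel])
  obtain ⟨a, b, hab, e⟩ := Finite.exists_ne_map_eq_of_infinite fun k => (E.ι (u k) : Γ ⧸ j.range)
  obtain ⟨z, hz⟩ := QuotientGroup.eq.1 e
  have z1 : E.p (j z) = 1 := (E.ker _).2 ⟨_, by rw [hz, E.inv, ← E.add]⟩
  have s1 : E'.p (j' ((g a)⁻¹ * z⁻¹ * g b)) = tv w (n a + n b) := by
    simp only [map_mul, map_inv, E.ker_le E' j j' i1 z1, hg, hy]
    rw [show tv w (n a + n b) = (tv w (n a))⁻¹ * tv w (n b) by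
      rw [← tv_neg, CharTwo.neg_eq, tv_add]]
    group
  have s2 : j ((g a)⁻¹ * z⁻¹ * g b) = σ ((E.p (j (g a)))⁻¹ * E.p (j (g b))) := by
    have c : E.ι (u a) * E.ι (u b) = E.ι (u b) * E.ι (u a) := by rw [← E.add, ← E.add, add_comm]
    have a1 := mul_inv_eq_iff_eq_mul.1 (hu a)
    have a2 := mul_inv_eq_iff_eq_mul.1 (hu b)
    rw [map_mul, map_mul, map_inv, map_inv, hz, map_mul, map_inv]
    generalize σ (E.p (j (g a))) = s at a1 ⊢
    generalize σ (E.p (j (g b))) = t at a2 ⊢
    rw [a1, a2, _root_.mul_inv_rev, _root_.mul_inv_rev, inv_inv, mul_assoc, mul_assoc, mul_assoc,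
      ← mul_assoc (E.ι (u a)), c, mul_assoc, inv_mul_cancel_left, inv_mul_cancel_left]
  generalize (g a)⁻¹ * z⁻¹ * g b = γ at s1 s2
  refine h a b (fun e => hab (Subtype.ext e)) _ s1 ?_
  have s3 := E'.ker_le E j' j i2 (a := γ * γ) (by
    rw [map_mul, map_mul, s1, ← tv_add, CharTwo.add_self_eq_zero, tv_zero])
  rw [map_mul, s2, ← map_mul, hσ] at s3
  rw [← map_mul, i1 (show j (γ * γ) = j 1 by rw [map_mul, s2, ← map_mul, s3, map_one, map_one]),
    map_one]

end Pool.Agent.MP_434e52_an.Weil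

/-!
The Bezoutian cocycle and the twisted extension.
-/

namespace Pool.Agent.MP_434e52_an.Weil

open Matrix Polynomial
open scoped TensorProduct

section

variable {l R : Type} [Fintype l] [DecidableEq l] [CommRing R]

theorem tv_map {S : Type} [CommRing S] (f : R →+* S) (w : Vc l R) (r : R) :
    (tv w r).1.map f = (tv (f ∘ w) (f r)).1 := by
  have : ∀ a b, f (J l R a b) = J l S a b := fun a b => congrFun (congrFun (map_J l f) a) b
  ext a b
  simp only [tv, map_apply, Matrix.add_apply, one_apply, Matrix.smul_apply, vecMulVec_apply, vecMul, dotProduct, Fintype.sum_sum_type, smul_eq_mul, map_add, apply_ite f, map_one, map_zero, map_mul, map_sum, this, Function.comp_apply]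

theorem tv_two (w w' : Vc l R) (r s : R) : (tv w r).1 * J l R * (tv w' s).1ᵀ - J l R =
    s • vecMulVec w' w' - r • vecMulVec w w + (r * s * om w w') • vecMulVec w w' := by
  have h1 : ∀ w : Vc l R, w ᵥ* J l R ᵥ* J l R = -w := fun w => by
    rw [vecMul_vecMul, J_squared, vecMul_neg, vecMul_one]
  have h2 : J l R *ᵥ (w' ᵥ* J l R) = w' := by
    rw [← vecMul_transpose, J_transpose, vecMul_neg, h1, neg_neg]
  have h3 : w ᵥ* J l R ⬝ᵥ w' = om w w' := (dotProduct_mulVec _ _ _).symm
  rw [tv, tv, mul_assoc, transpose_add, transpose_one, transpose_smul,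
    transpose_vecMulVec, mul_add, mul_one, mul_smul_comm, mul_vecMulVec, h2, add_mul, one_mul,
    smul_mul_assoc, mul_add, vecMulVec_mul, h1, mul_smul_comm, vecMulVec_mul_vecMulVec, h3,
    vecMulVec_neg, vecMulVec_smul]
  module

theorem tv_bal {e : R} {w w' : Vc l R} (h : e • w = e • w') (r s : R) :
    e • ((tv w r).1 * J l R * (tv w' s).1ᵀ - J l R) = (e * (s - r)) • vecMulVec w w' := by
  have a : e * om w w' = 0 := by rw [← smul_om, h, smul_om, om_self, mul_zero]
  have b : e • vecMulVec w' w' = e • vecMulVec w w' := by rw [← smul_vecMulVec, ← h, smul_vecMulVec]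
  have c : e • vecMulVec w w = e • vecMulVec w w' := by rw [← vecMulVec_smul, h, vecMulVec_smul]
  rw [tv_two, smul_add, smul_sub, smul_comm e, smul_comm e, b, c, smul_smul e, mul_left_comm, a]
  module

variable [Algebra (ZMod 2) R]

/-- the action on vectors, linear over `ZMod 2` -/
def rs (l R : Type) [Fintype l] [DecidableEq l] [CommRing R] [Algebra (ZMod 2) R] :
    Sp l R →* Module.End (ZMod 2) (Vc l R) where
  toFun g := (Matrix.mulVecLin g.1).restrictScalars (ZMod 2)
  map_one' := LinearMap.ext fun v => one_smul (Sp l R) v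
  map_mul' g h := LinearMap.ext fun v => mul_smul g h v

/-- the quadratic functions -/
def ci (l R : Type) [Fintype l] [DecidableEq l] [CommRing R] [Algebra (ZMod 2) R] : Cm (rs l R) :=
  ⟨LinearMap.id, fun _ _ => rfl⟩

/-- the left inclusion -/
noncomputable def f1 : R →+* R ⊗[ZMod 2] R := Algebra.TensorProduct.includeLeftRingHom

/-- the right inclusion -/
noncomputable def f2 : R →+* R ⊗[ZMod 2] R :=
  (Algebra.TensorProduct.includeRight : R →ₐ[ZMod 2] R ⊗[ZMod 2] R).toRingHom

theorem f1_f2 (a b : R) : f1 a * f2 b = a ⊗ₜ[ZMod 2] b := by simp [f1, f2]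

/-- the matrix of a tensor -/
noncomputable def cM : Tn (Vc l R) →+ Matrix (l ⊕ l) (l ⊕ l) (R ⊗[ZMod 2] R) :=
  AddMonoidHom.mk' (fun y => of fun j k =>
    TensorProduct.map (LinearMap.proj j) (LinearMap.proj k) y) fun y z => by
      ext j k; simp

omit [Fintype l] [DecidableEq l] in
theorem cM_tmul (v w : Vc l R) : cM (v ⊗ₜ[ZMod 2] w) = vecMulVec (f1 ∘ v) (f2 ∘ w) := by
  ext j k; simp [cM, vecMulVec_apply, f1_f2]

theorem eq_zero_of_cM {y : Tn (Vc l R)} (h : cM y = 0) : y = 0 := by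
  have key : ∀ y : Tn (Vc l R), y = ∑ j, ∑ k, TensorProduct.map
      (LinearMap.single (ZMod 2) (fun _ : l ⊕ l => R) j)
      (LinearMap.single (ZMod 2) (fun _ : l ⊕ l => R) k) (cM y j k) := by
    intro y
    induction y using TensorProduct.induction_on with
    | zero => simp only [map_zero, Matrix.zero_apply, Finset.sum_const_zero]
    | tmul v w =>
      simp only [cM_tmul, vecMulVec_apply, Function.comp, f1_f2, TensorProduct.map_tmul,
        LinearMap.coe_single, ← TensorProduct.tmul_sum, ← TensorProduct.sum_tmul,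
        Finset.univ_sum_single]
    | add y z hy hz =>
      simp only [map_add, Matrix.add_apply, Finset.sum_add_distrib]
      rw [← hy, ← hz]
  rw [key y]
  simp only [h, Matrix.zero_apply, map_zero, Finset.sum_const_zero]

theorem cM_tact (g : Sp l R) (y : Tn (Vc l R)) :
    cM (tact (rs l R) g y) = g.1.map f1 * cM y * (g.1.map f2)ᵀ := by
  induction y using TensorProduct.induction_on with
  | zero => simp
  | tmul v w =>
    rw [tact, TensorProduct.map_tmul, cM_tmul, cM_tmul, mul_vecMulVec, vecMulVec_mul,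
      vecMul_transpose]
    congr 1 <;> exact funext fun m => RingHom.map_mulVec _ _ _ _
  | add y z hy hz => simp only [map_add, hy, hz, mul_add, add_mul]

/-- the numerator of the Bezoutian -/
noncomputable def bz (g : Sp l R) : Matrix (l ⊕ l) (l ⊕ l) (R ⊗[ZMod 2] R) :=
  g.1.map f1 * J l _ * (g.1.map f2)ᵀ - J l _

theorem bz_one : bz (1 : Sp l R) = 0 := by simp only [bz, OneMemClass.coe_one, map_zero, map_one, Matrix.map_one, one_mul, transpose_one, mul_one, sub_self]

theorem bz_mul (g h : Sp l R) : bz (g * h) = bz g + g.1.map f1 * bz h * (g.1.map f2)ᵀ := by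
  simp only [bz, Submonoid.coe_mul, Matrix.map_mul, transpose_mul, mul_sub, sub_mul, mul_assoc]
  abel

theorem bz_tv {e : R ⊗[ZMod 2] R} {w : Vc l R} (h : e • (f1 ∘ w) = e • (f2 ∘ w)) (r : R) :
    e • bz (tv w r) = (e * (f2 r - f1 r)) • vecMulVec (f1 ∘ w) (f2 ∘ w) := by
  rw [bz, tv_map, tv_map, tv_bal h]

/-- the twisted group -/
noncomputable def Tw (l : Type) [Fintype l] [DecidableEq l] (z e : R ⊗[ZMod 2] R) :
    Subgroup (ci l R).G where
  carrier := {x | z • cM x.d.2 = e • bz x.k}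
  one_mem' := by simp only [Set.mem_ofPred_eq, Cm.one_d, Prod.snd_zero, map_zero, smul_zero, Cm.one_k, bz_one]
  mul_mem' {x y} hx hy := by
    simp only [Set.mem_ofPred_eq, Cm.mul_d, Cm.mul_k, Prod.snd_add, act_snd, map_add, cM_tact,
      bz_mul, smul_add] at *
    rw [hx, ← smul_mul_assoc, ← mul_smul_comm, hy, mul_smul_comm, smul_mul_assoc]
  inv_mem' {x} hx := by
    have := bz_mul x.k⁻¹ x.k
    rw [inv_mul_cancel, bz_one, eq_comm, add_eq_zero_iff_eq_neg] at this
    simp only [Set.mem_ofPred_eq, Cm.inv_d, Cm.inv_k, Prod.snd_neg, act_snd, map_neg, cM_tact,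
      smul_neg, this] at *
    rw [← smul_mul_assoc, ← mul_smul_comm, hx, mul_smul_comm, smul_mul_assoc]

end

variable {l F : Type} [Fintype l] [DecidableEq l] [Field F] [Algebra (ZMod 2) F]

/-- the denominator -/
noncomputable def zz (F : Type) [Field F] [Algebra (ZMod 2) F] : F[X] ⊗[ZMod 2] F[X] :=
  f2 X - f1 X

theorem zz_reg {y : F[X] ⊗[ZMod 2] F[X]} (h : zz F * y = 0) : y = 0 := by
  let Ψ : F[X] ⊗[ZMod 2] F[X] →ₐ[ZMod 2] (F[X] ⊗[ZMod 2] F)[X] := Algebra.TensorProduct.lift
    (CAlgHom.comp Algebra.TensorProduct.includeLeft) (mapAlgHom Algebra.TensorProduct.includeRight)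
    fun _ _ => Commute.all (S := (F[X] ⊗[ZMod 2] F)[X]) _ _
  let Φ : (F[X] ⊗[ZMod 2] F)[X] →+* F[X] ⊗[ZMod 2] F[X] := eval₂RingHom
    (Algebra.TensorProduct.map (AlgHom.id (ZMod 2) F[X]) CAlgHom).toRingHom (f2 X)
  have k : ∀ y, Φ (Ψ y) = y := fun y => by
    induction y using TensorProduct.induction_on with
    | zero => simp
    | tmul a b =>
      have : Φ.comp (mapRingHom (Algebra.TensorProduct.includeRight :
          F →ₐ[ZMod 2] F[X] ⊗[ZMod 2] F).toRingHom) = f2 :=
        Polynomial.ringHom_ext (fun a => by simp only [Φ, AlgHom.toRingHom_eq_coe, f2, RingHom.coe_coe, Algebra.TensorProduct.includeRight_apply, RingHom.coe_comp, coe_eval₂RingHom, coe_mapRingHom, Function.comp_apply, map_C, eval₂_C, Algebra.TensorProduct.map_tmul, AlgHom.coe_id, id_eq, CAlgHom_apply]) (by simp [Φ])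
      rw [Algebra.TensorProduct.lift_tmul, map_mul, ← f1_f2, ← this]
      simp only [Φ, AlgHom.toRingHom_eq_coe, AlgHom.coe_comp, Function.comp_apply, Algebra.TensorProduct.includeLeft_apply, CAlgHom_apply, coe_eval₂RingHom, eval₂_C, RingHom.coe_coe, Algebra.TensorProduct.map_tmul, AlgHom.coe_id, id_eq, map_one, coe_mapAlgHom, f1, Algebra.TensorProduct.includeLeftRingHom_apply, RingHom.coe_comp, coe_mapRingHom]
    | add a b ha hb => rw [map_add, map_add, ha, hb]
  have := congrArg Ψ h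
  rw [map_mul, map_zero, show Ψ (zz F) = X - C (X ⊗ₜ 1) by
    simp only [Ψ, zz, f2, AlgHom.toRingHom_eq_coe, RingHom.coe_coe, Algebra.TensorProduct.includeRight_apply, f1, Algebra.TensorProduct.includeLeftRingHom_apply, map_sub, Algebra.TensorProduct.lift_tmul, AlgHom.coe_comp, Function.comp_apply, Algebra.TensorProduct.includeLeft_apply, ← Algebra.TensorProduct.one_def, CAlgHom_apply, map_one, coe_mapAlgHom, map_X, one_mul, Polynomial.map_one, mul_one],
    (monic_X_sub_C _).mul_right_eq_zero_iff] at this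
  rw [← k y, this, map_zero]

variable [Fintype F]

/-- the diagonal idempotent -/
noncomputable def ei (F : Type) [Field F] [Algebra (ZMod 2) F] [Fintype F] : F[X] ⊗[ZMod 2] F[X] :=
  ∑ u : F, C u ⊗ₜ C u⁻¹

theorem ei_bal (a : F) : ei F * f1 (C a) = ei F * f2 (C a) := by
  by_cases h : a = 0
  · simp [h]
  · simp only [ei, Finset.sum_mul]
    rw [← Equiv.sum_comp (Equiv.mulRight₀ a h) fun u => (C u ⊗ₜ[ZMod 2] C u⁻¹) * f2 (C a)]
    refine Finset.sum_congr rfl fun u _ => ?_
    simp only [← f1_f2, Equiv.mulRight₀_apply]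
    rw [mul_right_comm, mul_assoc _ (f2 _)]
    simp only [← map_mul]
    rw [mul_inv, inv_mul_cancel_right₀ h]

theorem bz_cv (a : Vc l F) (r : F[X]) : ei F • bz (tv (cv a) r) =
    (ei F * (f2 r - f1 r)) • vecMulVec (f1 ∘ cv a) (f2 ∘ cv a) :=
  bz_tv (funext fun m => ei_bal (a m)) r

theorem ei_mem (c : F) {K : AddSubgroup (F[X] ⊗[ZMod 2] F[X])} (h : ∀ p, p ⊗ₜ p ∈ K) :
    ei F * f1 (C c) ∈ K := by
  by_cases hc : c = 0
  · simp [hc]
  have e : ∀ u : F, (C u ⊗ₜ[ZMod 2] C u⁻¹) * f1 (C c) = C (u * c) ⊗ₜ[ZMod 2] C u⁻¹ := fun u => by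
    rw [← f1_f2, mul_right_comm, ← map_mul, ← C_mul, f1_f2]
  rw [← QuotientAddGroup.eq_zero_iff, ei, Finset.sum_mul, ← QuotientAddGroup.mk'_apply, map_sum]
  refine Finset.sum_involution (fun u _ => (u * c)⁻¹) (fun u _ => ?_) (fun u _ a b => a ?_)
    (fun _ _ => Finset.mem_univ _) fun u _ => by field_simp
  · rw [← map_add, QuotientAddGroup.mk'_apply, QuotientAddGroup.eq_zero_iff, e, e, inv_inv, mul_inv,
      inv_mul_cancel_right₀ hc]
    convert sub_mem (sub_mem (h (C (u * c) + C u⁻¹)) (h (C (u * c)))) (h (C u⁻¹)) using 1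
    simp only [TensorProduct.add_tmul, TensorProduct.tmul_add]
    abel
  · rw [QuotientAddGroup.mk'_apply, QuotientAddGroup.eq_zero_iff, e]
    nth_rw 2 [← b]
    rw [inv_inv]
    exact h _

/-- the twisted group over `F[t]` -/
abbrev TW (l F : Type) [Fintype l] [DecidableEq l] [Field F] [Algebra (ZMod 2) F] [Fintype F] :
    Type := Tw l (zz F) (ei F)

omit [Fintype l] [DecidableEq l] [Fintype F] in
theorem zz_smul {M N : Matrix (l ⊕ l) (l ⊕ l) (F[X] ⊗[ZMod 2] F[X])} (h : zz F • M = zz F • N) :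
    M = N := Matrix.ext fun j k => sub_eq_zero.1 <| zz_reg <| by
  rw [mul_sub, sub_eq_zero]
  exact congrFun (congrFun h j) k

variable [CharP F 2]

theorem tw_surj [Nontrivial l] (g : Sp l F[X]) : ∃ x : TW l F, x.1.k = g := by
  let P := ((ci l F[X]).pr.comp (Tw l (zz F) (ei F)).subtype).range
  refine eq_top_of_el euc_poly (P := P) (fun i j hij => el_le hij (fun a _ c => ?_)
    fun a _ c => ?_) g
  · refine ⟨⟨(ci l F[X]).inK _, ?_⟩, rfl⟩
    change zz F • cM 0 = ei F • bz (tv (cv a) (C c))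
    rw [bz_cv, mul_sub, ei_bal, sub_self, map_zero, smul_zero]
    ext j k; simp
  · let s : F[X] →ₗ[ZMod 2] Vc l F[X] :=
      (LinearMap.toSpanSingleton F[X] _ (cv a)).restrictScalars (ZMod 2)
    have k : ∀ y, cM (TensorProduct.map s s y) = y • vecMulVec (f1 ∘ cv a) (f2 ∘ cv a) := fun y => by
      induction y using TensorProduct.induction_on with
      | zero => ext j k; simp only [map_zero, Matrix.zero_apply, Matrix.smul_apply, smul_eq_mul, zero_mul]
      | tmul p q =>
        rw [TensorProduct.map_tmul, cM_tmul]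
        ext j k
        simp only [s, vecMulVec_apply, ← f1_f2, Matrix.smul_apply, Function.comp, smul_eq_mul,
          LinearMap.restrictScalars_apply, LinearMap.toSpanSingleton_apply, Pi.smul_apply, map_mul]
        ring
      | add p q hp hq => rw [map_add, map_add, hp, hq, add_smul]
    obtain ⟨d, hd, e⟩ := ei_mem c (K := ((ci l F[X]).D.map (AddMonoidHom.snd _ _)).comap
      (TensorProduct.map s s).toAddMonoidHom) fun p => ⟨_, (ci l F[X]).bb_mem (s p), rfl⟩
    refine ⟨⟨⟨d, _, hd⟩, ?_⟩, rfl⟩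
    change zz F • cM d.2 = ei F • bz (tv (cv a) (C c * X))
    rw [bz_cv, show d.2 = _ from e, LinearMap.toAddMonoidHom_coe, k, smul_smul, map_mul, map_mul]
    congr 1
    rw [zz]
    linear_combination f2 X * ei_bal c

/-- the twisted group is an extension -/
noncomputable def twEx (l F : Type) [Fintype l] [DecidableEq l] [Field F] [Algebra (ZMod 2) F]
    [Fintype F] [CharP F 2] [Nontrivial l] : Ex l F[X] (TW l F) where
  ι u := ⟨(ci l F[X]).inV u, by simp only [Tw, Subgroup.mem_mk, Submonoid.mem_mk, Subsemigroup.mem_mk, Set.mem_ofPred_eq, Cm.inV_d, aa, map_zero, smul_zero, Cm.inV_k, bz_one]⟩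
  p := (ci l F[X]).pr.comp (Tw l (zz F) (ei F)).subtype
  add u w := Subtype.ext (Cm.inV_add u w)
  inj _ _ h := Cm.inV_injective (congrArg Subtype.val h)
  surj := tw_surj
  ker x := ⟨fun h => by
    have h1 : x.1.k = 1 := h
    have h2 : zz F • cM x.1.d.2 = ei F • bz x.1.k := x.2
    rw [h1, bz_one, smul_zero, ← smul_zero (zz F)] at h2
    obtain ⟨w, hw⟩ := (ci l F[X]).exists_aa_of_snd x.1.mem (eq_zero_of_cM (zz_smul h2))
    exact ⟨w, Subtype.ext (Cm.G.ext hw h1)⟩, by rintro ⟨u, rfl⟩; rfl⟩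
  conj x u := Subtype.ext (mul_inv_eq_iff_eq_mul.1 (Cm.conj_inV x.1 u))

/-- the split group is an extension -/
def afEx (l R : Type) [Fintype l] [DecidableEq l] [CommRing R] : Ex l R (AffSp l R) where
  ι := tr
  p := SemidirectProduct.rightHom
  add := tr_add
  inj _ _ h := Multiplicative.ofAdd.injective (SemidirectProduct.inl_injective h)
  surj := SemidirectProduct.rightHom_surjective
  ker x := ⟨fun h => ⟨x.left.toAdd, SemidirectProduct.ext (by simp [tr]) h⟩,
    by rintro ⟨u, rfl⟩; rfl⟩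
  conj x u := by
    rw [← SemidirectProduct.inl_left_mul_inr_right x, mul_assoc, inr_tr, ← mul_assoc, ← mul_assoc]
    congr 1
    simp only [tr, ← map_mul, mul_comm, SemidirectProduct.rightHom_inl,
      SemidirectProduct.rightHom_inr, map_mul SemidirectProduct.rightHom, one_mul]

omit [Algebra (ZMod 2) F] in
theorem sum_inv {φ : F → ZMod 2} (h0 : φ 0 = 0) (h1 : φ 1 = 1) : ∑ u, φ u * φ u⁻¹ = 1 := by
  classical
  rw [← Finset.add_sum_erase _ _ (Finset.mem_univ 1), inv_one, h1, mul_one, add_eq_left]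
  refine Finset.sum_involution (fun u _ => u⁻¹) (fun u _ => ?_) (fun u hu a b => ?_)
    (fun u hu => by simpa only [Finset.mem_erase, ne_eq, inv_eq_one, Finset.mem_univ, and_true] using hu) fun u _ => inv_inv u
  · rw [inv_inv, mul_comm, CharTwo.add_self_eq_zero]
  · have : u ≠ 0 := by rintro rfl; simp [h0] at a
    have e : (u + 1) ^ 2 = 0 := by
      rw [CharTwo.add_sq, sq, one_pow, CharTwo.add_eq_zero]
      nth_rw 2 [← b]
      exact mul_inv_cancel₀ this
    exact (Finset.mem_erase.1 hu).1 (CharTwo.add_eq_zero.1 (pow_eq_zero_iff two_ne_zero |>.1 e))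

theorem tw_sq {a b : ℕ} (hab : b < a) (m : l) (x : TW l F)
    (hx : x.1.k = tv (ee (.inl m)) (X ^ (2 * a + 1) + X ^ (2 * b + 1))) : x * x ≠ 1 := by
  intro h
  obtain ⟨φ, hφ⟩ : ∃ φ : Module.Dual (ZMod 2) F, φ 1 ≠ 0 := by
    by_contra! e
    exact one_ne_zero ((Module.forall_dual_apply_eq_zero_iff (ZMod 2) (1 : F)).1 e)
  have h1 : φ 1 = 1 := by revert hφ; generalize φ 1 = y; decide +revert
  let la : F[X] →ₗ[ZMod 2] ZMod 2 := φ ∘ₗ (lcoeff F b).restrictScalars (ZMod 2)
  let L : Du (Vc l F[X]) := la ∘ₗ LinearMap.proj (.inl m)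
  let Λ : F[X] ⊗[ZMod 2] F[X] →ₗ[ZMod 2] ZMod 2 :=
    (LinearMap.mul' (ZMod 2) (ZMod 2)).comp (TensorProduct.map la la)
  have a1 : L ∘ₗ rs l F[X] x.1.k = L := LinearMap.ext fun v => by
    change la ((x.1.k • v) (.inl m)) = la (v (.inl m))
    rw [hx, tv_ee, if_pos rfl, map_add, add_eq_left, add_mul]
    simp only [la, Sum.swap_inl, LinearMap.coe_comp, LinearMap.coe_restrictScalars, Function.comp_apply, lcoeff_apply, coeff_add, coeff_X_pow_mul', show ¬2 * a + 1 ≤ b by omega, ↓ reduceIte, show ¬2 * b + 1 ≤ b by omega, add_zero, map_zero]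
  have a2 : x.1.d.1 L + x.1.d.1 L = 0 := by
    have := congrArg (fun y : TW l F => y.1.d.1 L) h
    change x.1.d.1 L + x.1.d.1 (L ∘ₗ rs l F[X] x.1.k) = 0 at this
    rwa [a1] at this
  have a3 := (ci l F[X]).polar x.1.mem L L
  have a4 := (ci l F[X]).polar x.1.mem 0 0
  have a5 : ∀ y, Cm.pair L L y = Λ (cM y (.inl m) (.inl m)) := fun y => by
    induction y using TensorProduct.induction_on with
    | zero => simp only [map_zero, Matrix.zero_apply]
    | tmul v w => simp [Cm.pair, cM_tmul, vecMulVec_apply, f1_f2, Λ, L]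
    | add p q hp hq => simp only [map_add, Matrix.add_apply, hp, hq]
  let g : ℕ → F[X] ⊗[ZMod 2] F[X] := fun k => ∑ i ∈ Finset.range k, f2 X ^ i * f1 X ^ (k - 1 - i)
  have a6 : cM x.1.d.2 = (ei F * (g (2 * a + 1) + g (2 * b + 1))) •
      vecMulVec (f1 ∘ cv (ee (.inl m))) (f2 ∘ cv (ee (.inl m))) := zz_smul (by
    rw [show zz F • cM x.1.d.2 = ei F • bz x.1.k from x.2, hx, ← cv_ee, bz_cv, smul_smul]
    congr 1
    simp only [map_add, map_pow, zz, g]
    linear_combination -ei F * geom_sum₂_mul (f2 (X : F[X])) (f1 X) (2 * a + 1) -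
      ei F * geom_sum₂_mul (f2 (X : F[X])) (f1 X) (2 * b + 1))
  have a7 : ∀ i j, Λ (ei F * (f2 X ^ i * f1 X ^ j)) = if i = b ∧ j = b then 1 else 0 := fun i j => by
    have : ∀ u : F, Λ ((C u ⊗ₜ C u⁻¹) * (f2 X ^ i * f1 X ^ j)) =
        if i = b ∧ j = b then φ u * φ u⁻¹ else 0 := fun u => by
      rw [mul_comm (f2 X ^ i), ← map_pow, ← map_pow, f1_f2, Algebra.TensorProduct.tmul_mul_tmul]
      have hl : ∀ (u : F) n, la (C u * X ^ n) = if n = b then φ u else 0 := fun u n => by
        by_cases e : n = b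
        · simp [la, e]
        · simp [la, coeff_X_pow, e, Ne.symm e]
      by_cases e : i = b <;> by_cases f : j = b <;> simp only [Λ, f, e, LinearMap.coe_comp, Function.comp_apply, TensorProduct.map_tmul, hl, ↓ reduceIte, LinearMap.mul'_apply, and_self, TensorProduct.zero_tmul, map_zero, and_false, TensorProduct.tmul_zero, and_true]
    rw [ei, Finset.sum_mul, map_sum]
    simp only [this]
    split_ifs
    · exact sum_inv (map_zero φ) h1
    · simp
  have a8 : Λ (cM x.1.d.2 (.inl m) (.inl m)) = 1 := by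
    rw [a6, cv_ee]
    simp only [Matrix.smul_apply, vecMulVec_apply, Function.comp, ee_apply, if_true, map_one, mul_one,
      smul_eq_mul, mul_add, map_add, g, Finset.mul_sum, map_sum, a7]
    rw [Finset.sum_eq_zero fun i _ => if_neg (by omega), zero_add,
      Finset.sum_eq_single_of_mem b (Finset.mem_range.2 (by omega)) fun i _ e => if_neg (by omega),
      if_pos (by omega)]
  rw [add_self_two, a2] at a3
  simp only [ci, LinearMap.comp_id, a5, a8] at a3
  simp [Cm.pair, two_zero] at a4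
  rw [a4] at a3
  exact absurd a3 (by decide)

theorem tw_not_virt [Nontrivial l] : ¬ VirtIso (AffSp l F[X]) (TW l F) := by
  refine not_virt (afEx l F[X]) (twEx l F) SemidirectProduct.inr (fun _ => rfl)
    (fun k => X ^ (2 * k + 1)) (ee (.inl (Classical.arbitrary l))) fun a b hab x hx => ?_
  rcases hab.lt_or_gt with h | h
  · exact tw_sq h _ x (by rw [add_comm]; exact hx)
  · exact tw_sq h _ x hx

section Model

variable {V : Type} [AddCommGroup V] [Module (ZMod 2) V] {K : Type} [Group K]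
  {ρ : K →* Module.End (ZMod 2) V} {E : Type} [NormedAddCommGroup E] [InnerProductSpace ℂ E]
  [CompleteSpace E] {u : V → E →L[ℂ] E} (hu : ∀ v w, u (v + w) = u v * u w) (h0 : u 0 = 1)
  (h1 : ∀ v, u v ∈ unitary (E →L[ℂ] E))

include hu h0 h1 in
theorem psi_unitary (c : Cm ρ) {d : Amb V} (hd : d ∈ c.D) : psi u d.1 ∈ unitary (E →L[ℂ] E) := by
  have sq : ∀ v, u v * u v = 1 := fun v => by rw [← hu, add_self_two, h0]
  have st : ∀ v, star (u v) = u v := fun v => by
    rw [← mul_one (star (u v)), ← sq v, ← mul_assoc, Unitary.star_mul_self_of_mem (h1 v), one_mul]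
  have hadd : ∀ d e : Amb V, d ∈ c.D → e ∈ c.D → psi u d.1 ∈ unitary (E →L[ℂ] E) →
      psi u e.1 ∈ unitary (E →L[ℂ] E) → psi u (d + e).1 ∈ unitary (E →L[ℂ] E) := by
    intro d e hd he h1 h2
    rw [psi_add _ c hu h0 hd he]
    exact mul_mem h1 h2
  refine c.D_induction (p := fun d => psi u d.1 ∈ unitary (E →L[ℂ] E)) ?_ ?_ ?_ hadd ?_ hd
  · intro v; rw [psi_aa]; exact h1 _
  · intro v
    have : star (jj u (c.r v)) = ((1 - Complex.I) / 2 : ℂ) • (1 : E →L[ℂ] E) +
        ((1 + Complex.I) / 2 : ℂ) • u (c.r v) := by simp only [jj, sub_eq_add_neg, star_add, star_smul, star_div₀, star_one, RCLike.star_def, Complex.conj_I, star_ofNat, star_neg, neg_neg, st]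
    rw [psi_bb _ c h0, Unitary.mem_iff, this]
    simp only [jj, add_mul, mul_add, smul_mul_assoc, mul_smul_comm, one_mul, mul_one, sq]
    constructor <;> match_scalars
    · linear_combination (-1 / 2 : ℂ) * Complex.I_mul_I
    · linear_combination (1 / 2 : ℂ) * Complex.I_mul_I
    · linear_combination (-1 / 2 : ℂ) * Complex.I_mul_I
    · linear_combination (1 / 2 : ℂ) * Complex.I_mul_I
  · rw [Prod.fst_zero, psi_zero _ h0]; exact one_mem _
  · intro d hd h
    rw [c.neg_eq hd]
    exact hadd _ _ (add_mem hd hd) hd (hadd _ _ hd hd h h) h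

theorem psi_coef (c : Cm ρ) {d : Amb V} (hd : d ∈ c.D) : ∃ a : V →₀ ℂ,
    ∑ w ∈ a.support, a w = 1 ∧ ∀ (B : Type) [Ring B] [Algebra ℂ B] (u : V → B),
      psi u d.1 = ∑ w ∈ a.support, a w • u w := by
  obtain ⟨a, ha⟩ := Finsupp.mem_span_range_iff_exists_finsupp.1
    (psi_mem (fun _ => (1 : ℂ)) c (by simp) rfl hd)
  have h : ∑ w ∈ a.support, a w • (fun l : Du V => ip (two (l w))) = fun l => ip (d.1 l) := by
    simpa [Finsupp.sum, Prod.fst_sum] using congrArg Prod.fst ha
  refine ⟨a, ?_, fun B _ _ u => psi_eq u ?_⟩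
  · have e := c.polar hd 0 0
    simp [Cm.pair, two_zero] at e
    simpa [two_zero, ip_zero, e] using congrFun h 0
  · have : ∑ w ∈ a.support, a w • ((fun l : Du V => ip (two (l w))), u w) ∈ gr u :=
      Submodule.sum_mem _ fun w _ => Submodule.smul_mem _ _ (Submodule.subset_span ⟨w, rfl⟩)
    convert this using 1
    exact Prod.ext (by simpa [Prod.fst_sum] using h.symm) (by simp [Prod.snd_sum])

end Model

/-- the translations in the regular representation -/
noncomputable def ul (v : Vc l F[X]) : BL2 (AffSp l F[X]) := lam _ (tr v)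

omit [Algebra (ZMod 2) F] [Fintype F] [CharP F 2] in
theorem ul_add (v w : Vc l F[X]) : ul (v + w) = ul v * ul w := by rw [ul, tr_add, map_mul, ul, ul]

omit [Algebra (ZMod 2) F] [Fintype F] [CharP F 2] in
theorem ul_zero : ul (0 : Vc l F[X]) = 1 := by rw [ul, tr_zero, map_one]

/-- the model of the twisted group in the group algebra of the split group -/
noncomputable def md : TW l F →* BL2 (AffSp l F[X]) where
  toFun x := psi ul x.1.d.1 * lam _ (SemidirectProduct.inr x.1.k)
  map_one' := by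
    change psi ul 0 * lam _ (SemidirectProduct.inr 1) = 1
    rw [map_one, map_one, psi_zero _ ul_zero, mul_one]
  map_mul' x y := by
    have h := psi_conj ul (ci l F[X]) ul_add ul_zero x.1.k (lam _ (SemidirectProduct.inr x.1.k))
      (fun v => by rw [ul, ul, ← map_mul, ← map_mul, inr_tr]; rfl) y.1.mem
    rw [Subgroup.coe_mul, Cm.mul_d, psi_add _ _ ul_add ul_zero x.1.mem (Cm.act_mem _ _ y.1.mem),
      Cm.mul_k, map_mul, map_mul]
    simp only [mul_assoc]
    rw [← mul_assoc (lam _ (SemidirectProduct.inr x.1.k)), h, mul_assoc]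

theorem tw_vn [Nontrivial l] : VNIso (AffSp l F[X]) (TW l F) := by
  have ap : ∀ x : TW l F, md x = psi ul x.1.d.1 * lam _ (SemidirectProduct.inr x.1.k) :=
    fun _ => rfl
  have sp : ∀ {d}, d ∈ (ci l F[X]).D → psi ul d.1 ∈ Submodule.span ℂ (Set.range (ul (l := l))) :=
    fun hd => gr_snd_mem _ (psi_mem _ _ ul_add ul_zero hd)
  have hV : ∀ v, md ((twEx l F).ι v) = ul v := fun v => by
    change psi ul (aa v).1 * lam _ (SemidirectProduct.inr 1) = _
    rw [map_one, map_one, mul_one, psi_aa]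
  have hmul : ∀ {H : Type} [Group H] (φ : H →* BL2 (AffSp l F[X])),
      ∀ S ∈ Submodule.span ℂ (Set.range φ), ∀ T ∈ Submodule.span ℂ (Set.range φ),
        S * T ∈ Submodule.span ℂ (Set.range φ) := by
    intro H _ φ S hS T hT
    have := Submodule.mul_mem_mul hS hT
    rw [Submodule.span_mul_span] at this
    refine Submodule.span_mono ?_ this
    rintro _ ⟨_, ⟨a, rfl⟩, _, ⟨b, rfl⟩, rfl⟩
    exact ⟨a * b, map_mul _ _ _⟩
  refine vnIso_of_models (dl 1) (norm_dl _) (lam _) md lam_unitary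
    (fun x => mul_mem (psi_unitary ul_add ul_zero (fun _ => lam_unitary _) _ x.1.mem)
      (lam_unitary _))
    (fun h hh => by rw [lam_dl, mul_one, inner_dl_dl hh.symm]) (fun x hx => ?_)
    (le_antisymm ?_ ?_) (dense_dl.trans (Submodule.topologicalClosure_mono
      (Submodule.span_mono ?_)))
  · by_cases hb : x.1.k = 1
    · obtain ⟨w, rfl⟩ := ((twEx l F).ker x).1 hb
      rw [hV, ul, lam_dl, mul_one]
      refine inner_dl_dl fun h => hx ?_
      rw [(afEx l F[X]).inj (tr_zero.trans h).symm, Ex.zero]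
    · have key : ∀ T ∈ Submodule.span ℂ (Set.range (ul (l := l))),
          inner ℂ (dl (1 : AffSp l F[X])) (T (dl (SemidirectProduct.inr x.1.k))) = 0 := by
        intro T hT
        induction hT using Submodule.span_induction with
        | mem T hT =>
          obtain ⟨v, rfl⟩ := hT
          rw [ul, lam_dl]
          exact inner_dl_dl fun h => hb (by simpa [tr] using (congrArg (·.right) h).symm)
        | zero => simp
        | add S T _ _ h1 h2 => rw [_root_.add_apply, inner_add_right, h1, h2, add_zero]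
        | smul a T _ h1 => rw [_root_.smul_apply, inner_smul_right, h1, mul_zero]
      rw [ap, mul_apply_eq_comp, lam_dl, mul_one]
      exact key _ (sp x.1.mem)
  · rw [Submodule.span_le]
    rintro _ ⟨g, rfl⟩
    obtain ⟨x, hx⟩ := tw_surj (F := F) g.right
    have le : Submodule.span ℂ (Set.range (ul (l := l))) ≤
        Submodule.span ℂ (Set.range (md (l := l) (F := F))) :=
      Submodule.span_mono (by rintro _ ⟨v, rfl⟩; exact ⟨_, hV v⟩)
    have : lam _ g = ul g.left.toAdd * (psi ul (-x.1.d).1 * md x) := by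
      rw [ap, ← mul_assoc (psi _ _), ← psi_add _ _ ul_add ul_zero (neg_mem x.1.mem) x.1.mem,
        neg_add_cancel, Prod.fst_zero, psi_zero _ ul_zero, one_mul, hx, ul, ← map_mul, tr,
        ofAdd_toAdd, SemidirectProduct.inl_left_mul_inr_right]
    rw [SetLike.mem_coe, this]
    exact hmul _ _ (le (Submodule.subset_span ⟨_, rfl⟩)) _
      (hmul _ _ (le (sp (neg_mem x.1.mem))) _ (Submodule.subset_span ⟨_, rfl⟩))
  · rw [Submodule.span_le]
    rintro _ ⟨x, rfl⟩
    refine hmul _ _ (Submodule.span_mono ?_ (sp x.1.mem)) _ (Submodule.subset_span ⟨_, rfl⟩)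
    rintro _ ⟨v, rfl⟩
    exact ⟨_, rfl⟩
  · rintro _ ⟨g, rfl⟩
    exact ⟨g, by simp only [lam_dl, mul_one]⟩

theorem tw_propT [Nontrivial l] (hT : PropT (AffSp l F[X])) : PropT (TW l F) := by
  classical
  obtain ⟨S, ε, hε, hT⟩ := hT
  choose y hy using tw_surj (l := l) (F := F)
  choose a a1 a2 using fun g => psi_coef (ci l F[X]) (neg_mem (y g).1.mem)
  let ι := (twEx l F).ι
  obtain ⟨M, hM⟩ : ∃ M, M = ∑ g ∈ S, ∑ w ∈ (a g.right).support, ‖a g.right w‖ := ⟨_, rfl⟩
  have M0 : 0 ≤ M := by rw [hM]; positivity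
  refine ⟨S.biUnion fun g => insert (ι g.left.toAdd) (insert (y g.right)
    ((a g.right).support.image ι)), ε / (M + 3), by positivity, ?_⟩
  rintro E _ _ _ π hu ⟨v, hv, h⟩
  let u : Vc l F[X] → E →L[ℂ] E := fun w => π (ι w)
  have u1 : ∀ v w, u (v + w) = u v * u w := fun v w => by simp only [u, ι, Ex.add, map_mul]
  have u0 : u 0 = 1 := by simp only [u, ι, Ex.zero, map_one]
  have cj : ∀ (x : TW l F) w, π x * u w = u (rs l F[X] x.1.k w) * π x := fun x w => by
    simp only [u, ι, ← map_mul, Ex.conj]; rfl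
  let θ : TW l F → E →L[ℂ] E := fun x => psi u (-x.1.d).1 * π x
  have θ1 : ∀ x x', θ (x * x') = θ x * θ x' := fun x x' => by
    simp only [θ]
    rw [Subgroup.coe_mul, Cm.mul_d, neg_add, psi_add u _ u1 u0 (neg_mem x.1.mem)
      (neg_mem (Cm.act_mem _ _ x'.1.mem)), ← map_neg, map_mul, mul_assoc, mul_assoc,
      ← mul_assoc (π x), psi_conj u _ u1 u0 x.1.k (π x) (cj x) (neg_mem x'.1.mem), mul_assoc]
  have θ2 : ∀ w, θ (ι w) = 1 := fun w => by
    change psi u (-aa w).1 * u w = 1
    rw [← aa_neg, psi_aa, ← u1, neg_add_cancel, u0]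
  have θ3 : ∀ x x' : TW l F, x.1.k = x'.1.k → θ x = θ x' := fun x x' e => by
    obtain ⟨w, hw⟩ := ((twEx l F).ker (x⁻¹ * x')).1 (by
      rw [map_mul, map_inv, inv_mul_eq_one]; exact e)
    rw [← mul_inv_cancel_left x x', hw, θ1, θ2, mul_one]
  have θ5 : θ (y 1) = 1 := (θ3 _ (ι 0) (hy _)).trans (θ2 0)
  have θ4 : ∀ x w, θ x * u w = u (rs l F[X] x.1.k w) * θ x := fun x w => by
    simp only [θ]
    rw [mul_assoc, cj, ← mul_assoc, ← mul_assoc, ← psi_aa u,
      ← psi_add u _ u1 u0 (neg_mem x.1.mem) (Cm.aa_mem _ _),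
      ← psi_add u _ u1 u0 (Cm.aa_mem _ _) (neg_mem x.1.mem), add_comm]
  let π' : AffSp l F[X] →* (E →L[ℂ] E) :=
    { toFun := fun g => u g.left.toAdd * θ (y g.right)
      map_one' := by
        change u 0 * θ (y 1) = 1
        rw [θ5, u0, mul_one]
      map_mul' := fun g k => by
        rw [θ3 (y (g * k).right) (y g.right * y k.right) (by
          rw [Subgroup.coe_mul, Cm.mul_k, hy, hy, hy]; rfl), θ1, mul_assoc (u g.left.toAdd),
          ← mul_assoc (θ (y g.right)) (u _), θ4, hy, mul_assoc (u _), ← mul_assoc (u g.left.toAdd), ← u1]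
        rfl }
  have ps : ∀ {d}, d ∈ (ci l F[X]).D → psi u d.1 ∈ unitary (E →L[ℂ] E) := fun hd =>
    psi_unitary u1 u0 (fun _ => hu _) _ hd
  obtain ⟨ξ, ξ0, hξ⟩ := hT E π' (fun g => mul_mem (hu _) (mul_mem (ps (neg_mem (y _).1.mem)) (hu _)))
    ⟨v, hv, fun g hg => by
      have k : ∀ x ∈ insert (ι g.left.toAdd) (insert (y g.right) ((a g.right).support.image ι)),
          ‖π x v - v‖ ≤ ε / (M + 3) := fun x hx => (h x (Finset.mem_biUnion.2 ⟨g, hg, hx⟩)).le
      have e : π' g v - v = u g.left.toAdd (psi u (-(y g.right).1.d).1 (π (y g.right) v - v) +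
          ∑ w ∈ (a g.right).support, a g.right w • (u w v - v)) + (u g.left.toAdd v - v) := by
        simp only [smul_sub, Finset.sum_sub_distrib, ← Finset.sum_smul, a1, one_smul, map_sub]
        rw [show ∑ w ∈ (a g.right).support, a g.right w • u w v = psi u (-(y g.right).1.d).1 v by
          rw [a2]; simp, sub_add_sub_cancel, map_sub, sub_add_sub_cancel]
        rfl
      have n1 : ‖∑ w ∈ (a g.right).support, a g.right w • (u w v - v)‖ ≤ M * (ε / (M + 3)) := by
        refine (norm_sum_le _ _).trans ((Finset.sum_le_sum fun w hw => (norm_smul _ _).trans_le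
          (mul_le_mul_of_nonneg_left (k _ (by simp only [Finset.mem_insert, Finset.mem_image_of_mem _ hw, or_true]))
            (norm_nonneg _))).trans ?_)
        rw [← Finset.sum_mul, hM]
        exact mul_le_mul_of_nonneg_right (Finset.single_le_sum
          (f := fun g : AffSp l F[X] => ∑ w ∈ (a g.right).support, ‖a g.right w‖)
          (fun _ _ => by positivity) hg) (by positivity)
      rw [e]
      refine (norm_add_le _ _).trans_lt ?_
      rw [un_norm hu]
      refine (add_le_add ((norm_add_le _ _).trans (add_le_add ((ContinuousLinearMap.norm_map_of_mem_unitary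
        (ps (neg_mem (y _).1.mem)) _).trans_le (k _ (by simp only [Finset.mem_insert, Finset.mem_image, Finsupp.mem_support_iff, ne_eq, true_or, or_true]))) n1)) (k _ (by simp only [Finset.mem_insert, Finset.mem_image, Finsupp.mem_support_iff, ne_eq, true_or]))).trans_lt ?_
      rw [← one_add_mul, ← add_one_mul, ← mul_div_assoc, div_lt_iff₀ (by positivity)]
      linarith only [hε]⟩
  have f1 : ∀ w, u w ξ = ξ := fun w => by
    have := hξ (tr w)
    change (u w * θ (y 1)) ξ = ξ at this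
    rwa [θ5, mul_one] at this
  refine ⟨ξ, ξ0, fun x => ?_⟩
  have := hξ (SemidirectProduct.inr x.1.k)
  change (u 0 * θ (y x.1.k)) ξ = ξ at this
  rw [u0, one_mul, θ3 _ x (hy _)] at this
  obtain ⟨b, b1, b2⟩ := psi_coef (ci l F[X]) x.1.mem
  have e : π x = psi u x.1.d.1 * θ x := by
    simp only [θ]
    rw [← mul_assoc, ← psi_add u _ u1 u0 x.1.mem (neg_mem x.1.mem), add_neg_cancel, Prod.fst_zero,
      psi_zero _ u0, one_mul]
  rw [e, mul_apply_eq_comp, this, b2]
  simp [f1, ← Finset.sum_smul, b1]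

end Pool.Agent.MP_434e52_an.Weil
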